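import Pool.Agent.LibFB63.V

/-!
Block C (concentration): definitions.

General object: `E` = `{1}` (for `X1`) or a set of large primes (for `X2`); `HE` = number of the elements of `E` which divide `v`, times the square of Selberg's function of `Q` of level `z^j`.
`X1 = XE {1} Pb κ`, `X2 = XE Pc Q2 j`, `t1v = tE {1} Pb κ`, `t2v = tE Pc Q2 j`.
-/

open Finset Filter

namespace Pool.Agent.LibFB63

open Pool.Agent.LibRG87 Pool.Agent.LibLG5 Pool.Agent.LibPL63 Pool.Agent.LibSC93 Pool.Agent.LibGL22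

/-- number of the `e ∈ E` dividing `v`, times the square of Selberg's function -/
noncomputable def HE (E Q : Finset ℕ) (z j v : ℕ) : ℝ :=
  ((E.filter fun e => e ∣ v).card : ℝ) * Lc Q (cSe Q z j) v ^ 2

/-- the same at `n + a`, on the numbers without prime factor `≤ z^l2` -/
noncomputable def XE (R : Prm) (z p1 g3 : ℕ) (E Q : Finset ℕ) (j a n : ℕ) : ℝ :=
  rhoP (P2 R z p1 g3) {a} n * HE E Q z j (n + a)

/-- its mean -/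
noncomputable def tE (R : Prm) (z p1 : ℕ) (E Q : Finset ℕ) (j : ℕ) : ℝ :=
  G1G R z p1 ^ 2 / (G2G R z p1 * Gs R z p1) * (∑ e ∈ E, 1 / (e : ℝ)) / Gn Q z j

/-- what is needed of `E`, `Q` and the level `z^j` -/
structure OKE (R : Prm) (g3 : ℕ) (δ : ℝ) (z p1 : ℕ) (E Q : Finset ℕ) (j : ℕ) : Prop where
  ne : E.Nonempty
  pr : ∀ e ∈ E, e = 1 ∨ (e.Prime ∧ z ^ l1 R < e ∧ z < e ∧ e ∈ PG R z p1)
  cop : ∀ e ∈ E, ∀ p ∈ Q, ¬ p ∣ e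
  QPb : Q ⊆ Pb R z p1
  P2Q : P2 R z p1 g3 \ Ps R z p1 ⊆ Q
  PsP2 : Ps R z p1 ⊆ P2 R z p1 g3
  lev1 : ∀ e ∈ E, e * z ^ (2 * j + l2 R g3 + 30 * R.u) ≤ z ^ R.q
  lev2 : ∀ e ∈ E, ∀ e' ∈ E, e * e' * z ^ (4 * j + 30 * R.u) ≤ z ^ R.q
  br : ∑ q ∈ P2 R z p1 g3 \ Ps R z p1, 1 / ((q : ℝ) - 1) * tl Q z j q ≤ δ * Gn Q z j
  bd : ∀ v : ℕ, 1 ≤ v → v ≤ z ^ (R.q + 1) → (∀ p ∈ P2 R z p1 g3, ¬ p ∣ v) → HE E Q z j v ≤ 4 ^ (4 * g3 + 1)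

/-- numerical facts, for large `z` -/
structure NumC (R : Prm) (Cq : ℕ) (Λ δ : ℝ) (z p1 : ℕ) (h K : Finset ℕ) (B : ℝ) : Prop where
  z3 : 3 ≤ z
  hδ : 0 < δ
  hδ1 : δ ≤ 1 / 8
  small : ∀ a ∈ h, a < z
  card : h.card = R.k
  k1 : 1 ≤ R.k
  NWp : 0 < NW R z p1
  G1p : 1 ≤ G1G R z p1
  G2p : 1 ≤ G2G R z p1
  Gsp : 1 ≤ Gs R z p1
  DKp : 0 < DKG R z p1 h K
  er0 : 0 ≤ er R z p1 Cq Λ h
  B1 : 1 ≤ B
  prod : ∏ p ∈ PG R z p1, (1 + 1 / ((p : ℝ) - 1)) ≤ B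
  err : 4 * B ^ 2 * R.k * er R z p1 Cq Λ h ≤ δ * m1 R z p1 h K

theorem X2_eq (R : Prm) (z p1 g g3 j a n : ℕ) :
    X2 R z p1 g g3 j a n = XE R z p1 g3 (Pc R z p1 g) (Q2 R z p1 g) j a n := rfl

theorem X1_eq (R : Prm) (z p1 g3 κ a n : ℕ) :
    X1 R z p1 g3 κ a n = XE R z p1 g3 {1} (Pb R z p1) κ a n := by
  unfold X1 XE HE La1
  rw [Finset.filter_true_of_mem (by intro x hx; rw [Finset.mem_singleton.1 hx]; exact one_dvd _)]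
  simp

theorem t2v_eq (R : Prm) (z p1 g j : ℕ) :
    t2v R z p1 g j = tE R z p1 (Pc R z p1 g) (Q2 R z p1 g) j := rfl

theorem t1v_eq (R : Prm) (z p1 κ : ℕ) : t1v R z p1 κ = tE R z p1 {1} (Pb R z p1) κ := by
  unfold t1v tE
  rw [Finset.sum_singleton, Nat.cast_one, div_one, mul_one, div_div]

end Pool.Agent.LibFB63
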