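import Pool.Agent.LibFB63.C0

/-!
Row C1a (sizes). `Pb ⊆ PG = PL z k1 p1 = (PP z (z^k1)).erase p1`, primes `> z` (`PG_mem` of LibGL22/B1). `Gn_le_B`: `Gn Q z j ≤ ∑_{A ⊆ Q} 1/ph A = ∏_{p ∈ Q} (1 + 1/(p-1)) ≤ ∏_{p ∈ PG} … ≤ B` (`Finset.prod_one_add`/`Finset.prod_add`, `Finset.prod_le_prod_of_subset_of_one_le'`
or its real version; `nt_sum_powerset` in LibLG5/NT57 may help). `sum_inv_le_B`: `∑ 1/p ≤ ∑ 1/(p-1) ≤ ∏ (1 + 1/(p-1))` (`Finset.sum_le_prod_one_add`-type induction) `≤ B`. `Gs_le_B`: `Ps ⊆ PG` as hypothesis.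
`er_le`: `er (1 + B) ≤ 2 B er` and `4 B² k er ≤ δ m1` (`err`), `k ≥ 1`, `1 ≤ Gn ≤ B` (`one_le_GnQ` of V.lean): `2 B er ≤ δ m1/(2 B k) ≤ (δ/2) m1/B ≤ (δ/2) m1/Gn` (`m1 ≥ 0`: from `err`, or by its definition).
-/

open Finset Filter

namespace Pool.Agent.LibFB63

open Pool.Agent.LibRG87 Pool.Agent.LibLG5 Pool.Agent.LibPL63 Pool.Agent.LibSC93 Pool.Agent.LibGL22

variable {R : Prm} {Cq : ℕ} {Λ δ B : ℝ} {z p1 c0 g3 : ℕ} {h K E Q : Finset ℕ} {j : ℕ}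

private theorem C1a_PG {p : ℕ} (hp : p ∈ PG R z p1) : p.Prime ∧ z < p := by
  have h1 : p ∈ (PP z (z ^ R.k1)).erase p1 := hp
  have h2 := Finset.mem_of_mem_erase h1
  unfold PP at h2
  have h3 := Finset.mem_filter.1 h2
  exact ⟨h3.2, (Finset.mem_Ioc.1 h3.1).1⟩

private theorem C1a_pos {p : ℕ} (hp : p ∈ PG R z p1) : (0 : ℝ) < 1 / ((p : ℝ) - 1) := by
  have h1 : (1 : ℝ) < p := by exact_mod_cast (C1a_PG hp).1.one_lt
  exact one_div_pos.2 (by linarith)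

private theorem C1a_prod (hN : NumC R Cq Λ δ z p1 h K B) {S : Finset ℕ} (hS : S ⊆ PG R z p1) :
    ∏ p ∈ S, (1 + 1 / ((p : ℝ) - 1)) ≤ B := by
  refine le_trans ?_ hN.prod
  rw [← Finset.prod_sdiff hS]
  have h1 : (1 : ℝ) ≤ ∏ p ∈ PG R z p1 \ S, (1 + 1 / ((p : ℝ) - 1)) := by
    refine Finset.prod_induction (fun p : ℕ => (1 + 1 / ((p : ℝ) - 1))) (fun x : ℝ => 1 ≤ x)
      (fun a b ha hb => one_le_mul_of_one_le_of_one_le ha hb) le_rfl ?_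
    intro p hp
    have := C1a_pos (Finset.mem_sdiff.1 hp).1
    change (1 : ℝ) ≤ 1 + 1 / ((p : ℝ) - 1)
    linarith
  have h2 : (0 : ℝ) ≤ ∏ p ∈ S, (1 + 1 / ((p : ℝ) - 1)) := by
    refine Finset.prod_nonneg fun p hp => ?_
    have := C1a_pos (hS hp)
    linarith
  calc ∏ p ∈ S, (1 + 1 / ((p : ℝ) - 1)) = 1 * ∏ p ∈ S, (1 + 1 / ((p : ℝ) - 1)) := (one_mul _).symm
    _ ≤ _ := mul_le_mul_of_nonneg_right h1 h2

private theorem C1a_sum (S : Finset ℕ) (f : ℕ → ℝ) (hf : ∀ p ∈ S, 0 ≤ f p) :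
    1 + ∑ p ∈ S, f p ≤ ∏ p ∈ S, (1 + f p) := by
  classical
  induction S using Finset.induction_on with
  | empty => simp
  | insert a s ha ih =>
    rw [Finset.sum_insert ha, Finset.prod_insert ha]
    have h1 := ih (fun p hp => hf p (Finset.mem_insert_of_mem hp))
    have h2 := hf a (Finset.mem_insert_self a s)
    have h3 : 0 ≤ ∑ p ∈ s, f p := Finset.sum_nonneg fun p hp => hf p (Finset.mem_insert_of_mem hp)
    nlinarith [mul_le_mul_of_nonneg_left h1 h2, mul_nonneg h2 h3]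

theorem Pb_prime {p : ℕ} (hp : p ∈ Pb R z p1) : p.Prime ∧ z < p ∧ p ∈ PG R z p1 ∧ p ∉ Ps R z p1 := by
  have h1 : p ∈ PG R z p1 \ Ps R z p1 := hp
  rw [Finset.mem_sdiff] at h1
  exact ⟨(C1a_PG h1.1).1, (C1a_PG h1.1).2, h1.1, h1.2⟩

private theorem C1a_sub (hQ : Q ⊆ Pb R z p1) : Q ⊆ PG R z p1 := fun _ hp => (Pb_prime (hQ hp)).2.2.1

theorem m1_pos (hN : NumC R Cq Λ δ z p1 h K B) : 0 < m1 R z p1 h K := by
  have h1 : 0 < G1G R z p1 := lt_of_lt_of_le one_pos hN.G1p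
  have h2 : 0 < G2G R z p1 := lt_of_lt_of_le one_pos hN.G2p
  have h3 : 0 < Gs R z p1 := lt_of_lt_of_le one_pos hN.Gsp
  have h4 := hN.DKp
  unfold m1
  exact div_pos (mul_pos (pow_pos h1 2) (mul_pos (pow_pos h2 _) h4)) h3

theorem Gn_pos (hN : NumC R Cq Λ δ z p1 h K B) (hQ : Q ⊆ Pb R z p1) : 1 ≤ Gn Q z j :=
  one_le_GnQ Q (fun _ hp => (Pb_prime (hQ hp)).1) (le_trans (by norm_num) hN.z3) j

theorem Gn_le_B (hN : NumC R Cq Λ δ z p1 h K B) (hQ : Q ⊆ Pb R z p1) : Gn Q z j ≤ B := by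
  classical
  refine le_trans ?_ (C1a_prod hN (C1a_sub hQ))
  rw [← nt_sum_powerset]
  unfold Gn
  refine Finset.sum_le_sum_of_subset_of_nonneg (Finset.filter_subset _ _) ?_
  intro A hA _
  unfold ph
  refine one_div_nonneg.2 (Finset.prod_nonneg fun p hp => ?_)
  have h1 : (1 : ℝ) < p := by exact_mod_cast (Pb_prime (hQ (Finset.mem_powerset.1 hA hp))).1.one_lt
  linarith

theorem sum_inv_le_B (hN : NumC R Cq Λ δ z p1 h K B) {S : Finset ℕ} (hS : S ⊆ PG R z p1) :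
    ∑ p ∈ S, 1 / (p : ℝ) ≤ B := by
  have h1 : ∑ p ∈ S, 1 / (p : ℝ) ≤ ∑ p ∈ S, 1 / ((p : ℝ) - 1) := by
    refine Finset.sum_le_sum fun p hp => ?_
    have h2 : (1 : ℝ) < p := by exact_mod_cast (C1a_PG (hS hp)).1.one_lt
    exact one_div_le_one_div_of_le (by linarith) (by linarith)
  have h3 := C1a_sum S (fun p : ℕ => 1 / ((p : ℝ) - 1)) (fun p hp => (C1a_pos (hS hp)).le)
  have h4 := C1a_prod hN hS
  linarith

/-- the error term in `m1/Gn` -/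
theorem er_le (hN : NumC R Cq Λ δ z p1 h K B) (hQ : Q ⊆ Pb R z p1) :
    er R z p1 Cq Λ h * (1 + B) ≤ δ / 2 * (m1 R z p1 h K / Gn Q z j) := by
  have hG1 : 1 ≤ Gn Q z j := Gn_pos hN hQ
  have hG2 : Gn Q z j ≤ B := Gn_le_B hN hQ
  have hm := m1_pos hN
  have hB := hN.B1
  have hX := hN.er0
  have herr := hN.err
  have hk : (1 : ℝ) ≤ R.k := by exact_mod_cast hN.k1
  have hδ := hN.hδ
  obtain ⟨X, hXe⟩ : ∃ X, X = er R z p1 Cq Λ h := ⟨_, rfl⟩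
  obtain ⟨m, hme⟩ : ∃ m, m = m1 R z p1 h K := ⟨_, rfl⟩
  obtain ⟨G, hGe⟩ : ∃ G, G = Gn Q z j := ⟨_, rfl⟩
  obtain ⟨k, hke⟩ : ∃ k : ℝ, k = R.k := ⟨_, rfl⟩
  rw [← hXe] at hX herr ⊢
  rw [← hme] at hm herr ⊢
  rw [← hGe] at hG1 hG2 ⊢
  rw [← hke] at hk herr
  have hG0 : 0 < G := lt_of_lt_of_le one_pos hG1
  rw [mul_div_assoc', le_div_iff₀ hG0]
  have h0 : 0 ≤ B ^ 2 * X := mul_nonneg (by positivity) hX
  have h1 : 4 * B ^ 2 * X ≤ δ * m := by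
    refine le_trans ?_ herr
    nlinarith [mul_le_mul_of_nonneg_left hk h0]
  have h2 : X * (1 + B) ≤ X * (2 * B) := mul_le_mul_of_nonneg_left (by linarith) hX
  have h3 : X * (1 + B) * G ≤ X * (2 * B) * B := by
    refine mul_le_mul h2 hG2 hG0.le (mul_nonneg hX (by linarith))
  nlinarith

end Pool.Agent.LibFB63
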