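import Pool.Agent.LibFB63.C1a

/-!
Row C1b (lower bound, one position, one `e`).

`w n = PsG n ^ 2`, `L n = Lc Q (cSe Q z j) (n + a)`, sums over `n ∈ sN` with `e ∣ n + a`. Pointwise `rhoP P2 {a} n ≥ rhoP Ps {a} n - ∑_{q ∈ P2 \ Ps} 1[q ∣ n + a] rhoP Ps {a} n` (if `rhoP Ps = 1` and no `q ∈ P2 \ Ps` divides `n + a` then
`rhoP P2 = 1`). First term: `hL` with `c = cSe Q z j` (`cSe_abs`, `cSe_supp`, `nrm_cSe`; `lev1` gives the level condition). `q`-term: `q ∈ Q` (`P2Q`), for `q ∣ n + a`: `L n = Lc (Q.erase q) (cBr Q z j q) (n + a)` (`Lc_bracket`), and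
`e ∣ n + a`, `q ∣ n + a` iff `e q ∣ n + a` (coprime: `cop`, `q` prime); `hU` with `e q`, `Q.erase q`, `c = cBr Q z j q` (`cBr_abs`, `cBr_supp`, `nrm_cBr`): `≤ NW/(e q) ((1+δ) m1 tl/Gn² + er)`.
Prime factors of `e q`: of `e` (`pr`: `e = 1` or a prime `> z^l1`), and `q > z^l1` (`q ∈ PL z l2 p1`, `q ∉ Ps = PL z l1 p1`). Level: `q ≤ z^l2`, `lev1`. Sum over `q`: `1/q ≤ 1/(q-1)`, `br`: `≤ NW/e ((1+δ) δ m1/Gn + er ∑ 1/q)`,
`∑_{q ∈ P2 \ Ps} 1/q ≤ B` (`sum_inv_le_B`, `P2 \ Ps ⊆ Q ⊆ Pb ⊆ PG`). Errors: `er_le`. Total `≥ NW/e m1/Gn (1 - δ - (1+δ) δ - δ/2) ≥ NW/e (1 - 3δ) m1/Gn`.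
-/

open Finset Filter

namespace Pool.Agent.LibFB63

open Pool.Agent.LibRG87 Pool.Agent.LibLG5 Pool.Agent.LibPL63 Pool.Agent.LibSC93 Pool.Agent.LibGL22

variable {R : Prm} {Cq : ℕ} {Λ δ B : ℝ} {z p1 c0 g3 : ℕ} {h K E Q : Finset ℕ} {j : ℕ}

private theorem C1b_one_le (hE : OKE R g3 δ z p1 E Q j) {e : ℕ} (he : e ∈ E) : 1 ≤ e := by
  rcases hE.pr e he with rfl | h1
  · exact le_refl 1
  · exact h1.1.one_lt.le

private theorem C1b_pr (hE : OKE R g3 δ z p1 E Q j) {e : ℕ} (he : e ∈ E) :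
    ∀ p : ℕ, p.Prime → p ∣ e → z ^ l1 R < p := by
  intro p hp hpe
  rcases hE.pr e he with rfl | h1
  · exact absurd (Nat.dvd_one.1 hpe) hp.one_lt.ne'
  · rw [(Nat.prime_dvd_prime_iff_eq hp h1.1).1 hpe]
    exact h1.2.1

private theorem C1b_D (hE : OKE R g3 δ z p1 E Q j) {q : ℕ} (hq : q ∈ P2 R z p1 g3 \ Ps R z p1) :
    q.Prime ∧ z ^ l1 R < q ∧ q ≤ z ^ l2 R g3 ∧ q ∈ Q := by
  have hqQ := hE.P2Q hq
  rw [Finset.mem_sdiff] at hq
  obtain ⟨h1, h2⟩ := hq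
  unfold P2 PL PP at h1
  unfold Ps PL PP at h2
  rw [Finset.mem_erase, Finset.mem_filter, Finset.mem_Ioc] at h1
  rw [Finset.mem_erase, Finset.mem_filter, Finset.mem_Ioc] at h2
  refine ⟨h1.2.2, ?_, h1.2.1.2, hqQ⟩
  by_contra h3
  push Not at h3
  exact h2 ⟨h1.1, ⟨h1.2.1.1, h3⟩, h1.2.2⟩

private theorem C1b_pt {Pr Pr' : Finset ℕ} (a n : ℕ) :
    rhoP Pr {a} n - ∑ q ∈ Pr' \ Pr, (if q ∣ n + a then rhoP Pr {a} n else 0) ≤ rhoP Pr' {a} n := by
  have h0 : 0 ≤ rhoP Pr' {a} n := by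
    unfold rhoP
    split_ifs <;> norm_num
  by_cases h1 : ∀ x ∈ ({a} : Finset ℕ), ∀ p ∈ Pr, ¬ p ∣ n + x
  · have h2 : rhoP Pr {a} n = 1 := by
      unfold rhoP
      rw [if_pos h1]
    rw [h2]
    by_cases h3 : ∀ q ∈ Pr' \ Pr, ¬ q ∣ n + a
    · have h4 : rhoP Pr' {a} n = 1 := by
        unfold rhoP
        rw [if_pos]
        intro x hx p hp
        by_cases hpp : p ∈ Pr
        · exact h1 x hx p hpp
        · rw [Finset.mem_singleton.1 hx]
          exact h3 p (Finset.mem_sdiff.2 ⟨hp, hpp⟩)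
      rw [h4, Finset.sum_eq_zero (fun q hq => if_neg (h3 q hq))]
      norm_num
    · push Not at h3
      obtain ⟨q, hq, hqd⟩ := h3
      have h5 : (1 : ℝ) ≤ ∑ q ∈ Pr' \ Pr, (if q ∣ n + a then (1 : ℝ) else 0) := by
        have h6 := Finset.single_le_sum (f := fun q => if q ∣ n + a then (1 : ℝ) else 0)
          (fun i _ => by split_ifs <;> norm_num) hq
        simp only [if_pos hqd] at h6
        exact h6
      linarith
  · have h2 : rhoP Pr {a} n = 0 := by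
      unfold rhoP
      rw [if_neg h1]
    rw [h2]
    simp only [ite_self, Finset.sum_const_zero, sub_zero]
    exact h0

private theorem C1b_tl (hQ : ∀ p ∈ Q, p.Prime) (q : ℕ) : 0 ≤ tl Q z j q := by
  unfold tl
  refine Finset.sum_nonneg fun A hA => ?_
  rw [Finset.mem_filter, Finset.mem_powerset] at hA
  unfold ph
  refine div_nonneg zero_le_one (Finset.prod_nonneg fun p hp => ?_)
  have h1 := (hQ p (Finset.mem_of_mem_erase (hA.1 hp))).one_lt
  have h2 : (1 : ℝ) < p := by exact_mod_cast h1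
  linarith

theorem lo_e (hE : OKE R g3 δ z p1 E Q j) (hN : NumC R Cq Λ δ z p1 h K B)
    (hU : U1 R Cq Λ δ z p1 c0 h K) (hL : L1 R Cq Λ δ z p1 c0 h K) {a e : ℕ} (ha : a ∈ h) (he : e ∈ E) :
    NW R z p1 / e * ((1 - 3 * δ) * (m1 R z p1 h K / Gn Q z j)) ≤
      ∑ n ∈ (sN (z ^ R.q) (Wp z p1) c0).filter (fun n => e ∣ n + a),
        rhoP (P2 R z p1 g3) {a} n * PsG R z p1 h K n ^ 2 * Lc Q (cSe Q z j) (n + a) ^ 2 := by
  have hz : 1 ≤ z := by have := hN.z3; omega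
  have hQ : ∀ p ∈ Q, p.Prime := fun p hp => (Pb_prime (hE.QPb hp)).1
  have hδ := hN.hδ
  have hδ1 := hN.hδ1
  have he1 := C1b_one_le hE he
  have heR : (0 : ℝ) < e := by exact_mod_cast he1
  have hm : 0 < m1 R z p1 h K := m1_pos hN
  have hG : 1 ≤ Gn Q z j := Gn_pos hN hE.QPb
  have hG0 : 0 < Gn Q z j := by linarith
  have her := er_le (Q := Q) (j := j) hN hE.QPb
  have hlev : e * z ^ (2 * j + 30 * R.u) ≤ z ^ R.q :=
    (Nat.mul_le_mul_left e (Nat.pow_le_pow_right hz (by omega))).trans (hE.lev1 e he)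
  -- first term
  have h1 := hL a ha e he1 (C1b_pr hE he) Q hE.QPb (hE.cop e he) (cSe Q z j) j
    (fun A => cSe_abs Q hQ hz j A) (fun A hA => cSe_supp hA) hlev
  rw [nrm_cSe Q hQ hz j] at h1
  -- splitting
  have h2 : ∑ n ∈ (sN (z ^ R.q) (Wp z p1) c0).filter (fun n => e ∣ n + a),
        rhoP (Ps R z p1) {a} n * PsG R z p1 h K n ^ 2 * Lc Q (cSe Q z j) (n + a) ^ 2 -
      ∑ q ∈ P2 R z p1 g3 \ Ps R z p1,
        ∑ n ∈ ((sN (z ^ R.q) (Wp z p1) c0).filter (fun n => e ∣ n + a)).filter (fun n => q ∣ n + a),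
          rhoP (Ps R z p1) {a} n * PsG R z p1 h K n ^ 2 * Lc Q (cSe Q z j) (n + a) ^ 2 ≤
      ∑ n ∈ (sN (z ^ R.q) (Wp z p1) c0).filter (fun n => e ∣ n + a),
        rhoP (P2 R z p1 g3) {a} n * PsG R z p1 h K n ^ 2 * Lc Q (cSe Q z j) (n + a) ^ 2 := by
    have h3 : ∑ q ∈ P2 R z p1 g3 \ Ps R z p1,
        ∑ n ∈ ((sN (z ^ R.q) (Wp z p1) c0).filter (fun n => e ∣ n + a)).filter (fun n => q ∣ n + a),
          rhoP (Ps R z p1) {a} n * PsG R z p1 h K n ^ 2 * Lc Q (cSe Q z j) (n + a) ^ 2 =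
        ∑ n ∈ (sN (z ^ R.q) (Wp z p1) c0).filter (fun n => e ∣ n + a),
          (∑ q ∈ P2 R z p1 g3 \ Ps R z p1, (if q ∣ n + a then rhoP (Ps R z p1) {a} n else 0)) *
            (PsG R z p1 h K n ^ 2 * Lc Q (cSe Q z j) (n + a) ^ 2) := by
      simp only [Finset.sum_filter (fun n => _ ∣ n + a)]
      rw [Finset.sum_comm]
      refine Finset.sum_congr rfl fun n _ => ?_
      split_ifs with h4
      · rw [Finset.sum_mul]
        refine Finset.sum_congr rfl fun q _ => ?_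
        split_ifs with h5
        · ring
        · rw [zero_mul]
      · exact Finset.sum_const_zero
    rw [h3, ← Finset.sum_sub_distrib]
    refine Finset.sum_le_sum fun n _ => ?_
    have h4 := C1b_pt (Pr := Ps R z p1) (Pr' := P2 R z p1 g3) a n
    have h5 : 0 ≤ PsG R z p1 h K n ^ 2 * Lc Q (cSe Q z j) (n + a) ^ 2 :=
      mul_nonneg (sq_nonneg _) (sq_nonneg _)
    have h6 := mul_le_mul_of_nonneg_right h4 h5
    rw [sub_mul] at h6
    rw [mul_assoc, mul_assoc]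
    exact h6
  refine le_trans ?_ h2
  -- the terms with q
  have hq : ∀ q ∈ P2 R z p1 g3 \ Ps R z p1,
      ∑ n ∈ ((sN (z ^ R.q) (Wp z p1) c0).filter (fun n => e ∣ n + a)).filter (fun n => q ∣ n + a),
          rhoP (Ps R z p1) {a} n * PsG R z p1 h K n ^ 2 * Lc Q (cSe Q z j) (n + a) ^ 2 ≤
        NW R z p1 / e * ((1 + δ) * (m1 R z p1 h K / Gn Q z j ^ 2) * (1 / ((q : ℝ) - 1) * tl Q z j q) +
          er R z p1 Cq Λ h * (1 / (q : ℝ))) := by
    intro q hqD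
    obtain ⟨hqp, hql1, hql2, hqQ⟩ := C1b_D hE hqD
    have hcop : e.Coprime q := by
      rw [Nat.coprime_comm]
      exact (Nat.Prime.coprime_iff_not_dvd hqp).2 (hE.cop e he q hqQ)
    have hset : ((sN (z ^ R.q) (Wp z p1) c0).filter (fun n => e ∣ n + a)).filter (fun n => q ∣ n + a) =
        (sN (z ^ R.q) (Wp z p1) c0).filter (fun n => e * q ∣ n + a) := by
      ext n
      simp only [Finset.mem_filter]
      constructor
      · rintro ⟨⟨h3, h4⟩, h5⟩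
        exact ⟨h3, hcop.mul_dvd_of_dvd_of_dvd h4 h5⟩
      · rintro ⟨h3, h4⟩
        exact ⟨⟨h3, (Dvd.intro _ rfl).trans h4⟩, (Dvd.intro_left _ rfl).trans h4⟩
    have hlevq : e * q * z ^ (2 * j + 30 * R.u) ≤ z ^ R.q := by
      refine le_trans ?_ (hE.lev1 e he)
      rw [mul_assoc]
      refine Nat.mul_le_mul_left e ?_
      have h3 : z ^ (2 * j + l2 R g3 + 30 * R.u) = z ^ l2 R g3 * z ^ (2 * j + 30 * R.u) := by
        rw [← pow_add]
        congr 1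
        ring
      rw [h3]
      exact Nat.mul_le_mul_right _ hql2
    have h3 := hU a ha (e * q) (Nat.mul_pos he1 hqp.pos)
      (fun p hp hpe => ((Nat.Prime.dvd_mul hp).1 hpe).elim (C1b_pr hE he p hp)
        (fun h4 => by rw [(Nat.prime_dvd_prime_iff_eq hp hqp).1 h4]; exact hql1))
      (Q.erase q) ((Finset.erase_subset q Q).trans hE.QPb)
      (fun p hp hpe => ((Nat.Prime.dvd_mul (hQ p (Finset.mem_of_mem_erase hp))).1 hpe).elim
        (hE.cop e he p (Finset.mem_of_mem_erase hp))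
        (fun h4 => Finset.ne_of_mem_erase hp
          ((Nat.prime_dvd_prime_iff_eq (hQ p (Finset.mem_of_mem_erase hp)) hqp).1 h4)))
      (cBr Q z j q) j (fun A => cBr_abs Q hQ hz j q A) (fun A hA => cBr_supp hA) hlevq
    rw [nrm_cBr] at h3
    rw [hset]
    have h4 : ∑ n ∈ (sN (z ^ R.q) (Wp z p1) c0).filter (fun n => e * q ∣ n + a),
          rhoP (Ps R z p1) {a} n * PsG R z p1 h K n ^ 2 * Lc Q (cSe Q z j) (n + a) ^ 2 =
        ∑ n ∈ (sN (z ^ R.q) (Wp z p1) c0).filter (fun n => e * q ∣ n + a),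
          rhoP (Ps R z p1) {a} n * PsG R z p1 h K n ^ 2 *
            Lc (Q.erase q) (cBr Q z j q) (n + a) ^ 2 := by
      refine Finset.sum_congr rfl fun n hn => ?_
      rw [Finset.mem_filter] at hn
      rw [Lc_bracket Q hQ hz j hqQ ((Dvd.intro_left _ rfl).trans hn.2)]
    rw [h4]
    refine h3.trans ?_
    have hq1 : (1 : ℝ) < q := by exact_mod_cast hqp.one_lt
    have hq0 : (0 : ℝ) < q := by linarith
    have ht : 0 ≤ tl Q z j q := C1b_tl hQ q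
    have h5 : NW R z p1 / ((e * q : ℕ) : ℝ) = NW R z p1 / e * (1 / (q : ℝ)) := by
      push_cast
      field_simp
    rw [h5, mul_assoc (NW R z p1 / (e : ℝ))]
    refine mul_le_mul_of_nonneg_left ?_ (div_nonneg hN.NWp.le heR.le)
    have h6 : 1 / (q : ℝ) * tl Q z j q ≤ 1 / ((q : ℝ) - 1) * tl Q z j q :=
      mul_le_mul_of_nonneg_right (one_div_le_one_div_of_le (by linarith) (by linarith)) ht
    have h7 : 0 ≤ (1 + δ) * (m1 R z p1 h K / Gn Q z j ^ 2) :=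
      mul_nonneg (by linarith) (div_nonneg hm.le (by positivity))
    have h8 := mul_le_mul_of_nonneg_left h6 h7
    have h9 : 1 / (q : ℝ) * ((1 + δ) * (m1 R z p1 h K * (tl Q z j q / Gn Q z j ^ 2)) +
          er R z p1 Cq Λ h) =
        (1 + δ) * (m1 R z p1 h K / Gn Q z j ^ 2) * (1 / (q : ℝ) * tl Q z j q) +
          er R z p1 Cq Λ h * (1 / (q : ℝ)) := by ring
    rw [h9]
    linarith
  have hsum := Finset.sum_le_sum hq
  rw [← Finset.mul_sum, Finset.sum_add_distrib, ← Finset.mul_sum, ← Finset.mul_sum] at hsum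
  have hbr := hE.br
  have hB := sum_inv_le_B (S := P2 R z p1 g3 \ Ps R z p1) hN
    (fun q hqD => (Pb_prime (hE.QPb (hE.P2Q hqD))).2.2.1)
  have hX : 0 ≤ m1 R z p1 h K / Gn Q z j := div_nonneg hm.le hG0.le
  have h7 : 0 ≤ (1 + δ) * (m1 R z p1 h K / Gn Q z j ^ 2) :=
    mul_nonneg (by linarith) (div_nonneg hm.le (by positivity))
  have h8 := mul_le_mul_of_nonneg_left hbr h7
  have h9 : (1 + δ) * (m1 R z p1 h K / Gn Q z j ^ 2) * (δ * Gn Q z j) =
      (1 + δ) * δ * (m1 R z p1 h K / Gn Q z j) := by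
    field_simp
  rw [h9] at h8
  have h10 := mul_le_mul_of_nonneg_left hB hN.er0
  have hNe : 0 ≤ NW R z p1 / (e : ℝ) := div_nonneg hN.NWp.le heR.le
  have h11 := mul_le_mul_of_nonneg_left (add_le_add h8 h10) hNe
  have h12 : NW R z p1 / (e : ℝ) * ((1 - 3 * δ) * (m1 R z p1 h K / Gn Q z j)) ≤
      NW R z p1 / e * ((1 - δ) * (m1 R z p1 h K * (1 / Gn Q z j)) - er R z p1 Cq Λ h) -
      NW R z p1 / (e : ℝ) * ((1 + δ) * δ * (m1 R z p1 h K / Gn Q z j) + er R z p1 Cq Λ h * B) := by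
    rw [← mul_sub]
    refine mul_le_mul_of_nonneg_left ?_ hNe
    have h13 : m1 R z p1 h K * (1 / Gn Q z j) = m1 R z p1 h K / Gn Q z j := by ring
    rw [h13]
    nlinarith [mul_nonneg hδ.le hX, mul_nonneg (mul_nonneg hδ.le (sub_nonneg.2 hδ1)) hX]
  linarith

end Pool.Agent.LibFB63
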