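import Pool.Agent.LibFB63.C1a

/-!
Row C2 (upper bounds). `up_e`: `rhoP P2 {a} ≤ rhoP Ps {a}` (`PsP2`), `hU` with `c = cSe Q z j` (`cSe_abs`, `cSe_supp`, `nrm_cSe`), level: `lev1`; `er ≤ er (1 + B) ≤ (δ/2) m1/Gn` (`er_le`).
`up_ee`: `a ≠ b`. If `e = e'` is a prime: no `n` with `e ∣ n + a`, `e ∣ n + b` (then `e ∣ |a - b|`, `0 < |a - b| < z < e`), the sum is over the empty set, and the right side is `≥ 0`. Otherwise `e`, `e'` are coprime (`pr`: each of them is `1` or a prime):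
`rhoP P2 {a} n * rhoP P2 {b} n ≤ rhoP Ps {a, b} n`, `hU2` with `c = c' = cSe Q z j`, level `lev2`.
-/

open Finset Filter

namespace Pool.Agent.LibFB63

open Pool.Agent.LibRG87 Pool.Agent.LibLG5 Pool.Agent.LibPL63 Pool.Agent.LibSC93 Pool.Agent.LibGL22

variable {R : Prm} {Cq : ℕ} {Λ δ B : ℝ} {z p1 c0 g3 : ℕ} {h K E Q : Finset ℕ} {j : ℕ}

private theorem C2_rho_le {Pr Pr' : Finset ℕ} (h : Pr ⊆ Pr') (B : Finset ℕ) (n : ℕ) :
    rhoP Pr' B n ≤ rhoP Pr B n := by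
  unfold rhoP
  by_cases h1 : ∀ a ∈ B, ∀ p ∈ Pr', ¬ p ∣ n + a
  · rw [if_pos h1, if_pos (fun a ha p hp => h1 a ha p (h hp))]
  · rw [if_neg h1]
    split_ifs <;> norm_num

private theorem C2_rho_two {Pr Pr' : Finset ℕ} (h : Pr ⊆ Pr') (a b n : ℕ) :
    rhoP Pr' {a} n * rhoP Pr' {b} n ≤ rhoP Pr {a, b} n := by
  unfold rhoP
  by_cases h1 : ∀ x ∈ ({a} : Finset ℕ), ∀ p ∈ Pr', ¬ p ∣ n + x
  · by_cases h2 : ∀ x ∈ ({b} : Finset ℕ), ∀ p ∈ Pr', ¬ p ∣ n + x
    · rw [if_pos h1, if_pos h2, if_pos]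
      · norm_num
      · intro x hx p hp
        rw [Finset.mem_insert, Finset.mem_singleton] at hx
        rcases hx with rfl | rfl
        · exact h1 x (Finset.mem_singleton_self x) p (h hp)
        · exact h2 x (Finset.mem_singleton_self x) p (h hp)
    · rw [if_neg h2, mul_zero]
      split_ifs <;> norm_num
  · rw [if_neg h1, zero_mul]
    split_ifs <;> norm_num

private theorem C2_one_le (hE : OKE R g3 δ z p1 E Q j) {e : ℕ} (he : e ∈ E) : 1 ≤ e := by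
  rcases hE.pr e he with rfl | h1
  · exact le_refl 1
  · exact h1.1.one_lt.le

private theorem C2_pr (hE : OKE R g3 δ z p1 E Q j) {e : ℕ} (he : e ∈ E) :
    ∀ p : ℕ, p.Prime → p ∣ e → z ^ l1 R < p := by
  intro p hp hpe
  rcases hE.pr e he with rfl | h1
  · exact absurd (Nat.dvd_one.1 hpe) hp.one_lt.ne'
  · rw [(Nat.prime_dvd_prime_iff_eq hp h1.1).1 hpe]
    exact h1.2.1

theorem up_e (hE : OKE R g3 δ z p1 E Q j) (hN : NumC R Cq Λ δ z p1 h K B)
    (hU : U1 R Cq Λ δ z p1 c0 h K) {a e : ℕ} (ha : a ∈ h) (he : e ∈ E) :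
    ∑ n ∈ (sN (z ^ R.q) (Wp z p1) c0).filter (fun n => e ∣ n + a),
        rhoP (P2 R z p1 g3) {a} n * PsG R z p1 h K n ^ 2 * Lc Q (cSe Q z j) (n + a) ^ 2 ≤
      NW R z p1 / e * ((1 + 2 * δ) * (m1 R z p1 h K / Gn Q z j)) := by
  have hz : 1 ≤ z := by have := hN.z3; omega
  have hQ : ∀ p ∈ Q, p.Prime := fun p hp => (Pb_prime (hE.QPb hp)).1
  have hlev : e * z ^ (2 * j + 30 * R.u) ≤ z ^ R.q :=
    (Nat.mul_le_mul_left e (Nat.pow_le_pow_right hz (by omega))).trans (hE.lev1 e he)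
  have h1 := hU a ha e (C2_one_le hE he) (C2_pr hE he) Q hE.QPb (hE.cop e he) (cSe Q z j) j
    (fun A => cSe_abs Q hQ hz j A) (fun A hA => cSe_supp hA) hlev
  rw [nrm_cSe Q hQ hz j] at h1
  have h2 : ∑ n ∈ (sN (z ^ R.q) (Wp z p1) c0).filter (fun n => e ∣ n + a),
        rhoP (P2 R z p1 g3) {a} n * PsG R z p1 h K n ^ 2 * Lc Q (cSe Q z j) (n + a) ^ 2 ≤
      ∑ n ∈ (sN (z ^ R.q) (Wp z p1) c0).filter (fun n => e ∣ n + a),
        rhoP (Ps R z p1) {a} n * PsG R z p1 h K n ^ 2 * Lc Q (cSe Q z j) (n + a) ^ 2 := by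
    refine Finset.sum_le_sum fun n _ => ?_
    exact mul_le_mul_of_nonneg_right
      (mul_le_mul_of_nonneg_right (C2_rho_le hE.PsP2 {a} n) (sq_nonneg _)) (sq_nonneg _)
  refine (h2.trans h1).trans ?_
  have h3 := er_le (Q := Q) (j := j) hN hE.QPb
  have h4 : er R z p1 Cq Λ h ≤ er R z p1 Cq Λ h * (1 + B) :=
    le_mul_of_one_le_right hN.er0 (by have := hN.B1; linarith)
  have h5 : 0 < m1 R z p1 h K := m1_pos hN
  have h6 : 1 ≤ Gn Q z j := Gn_pos hN hE.QPb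
  have h7 : 0 ≤ m1 R z p1 h K / Gn Q z j := div_nonneg h5.le (by linarith)
  have h8 : 0 ≤ NW R z p1 / e := div_nonneg hN.NWp.le (Nat.cast_nonneg e)
  refine mul_le_mul_of_nonneg_left ?_ h8
  have h9 : m1 R z p1 h K * (1 / Gn Q z j) = m1 R z p1 h K / Gn Q z j := by ring
  rw [h9]
  have h10 := hN.hδ
  nlinarith [mul_nonneg h10.le h7]

theorem up_ee (hE : OKE R g3 δ z p1 E Q j) (hN : NumC R Cq Λ δ z p1 h K B)
    (hU2 : U2 R Cq Λ δ z p1 c0 h K) {a b e e' : ℕ} (ha : a ∈ h) (hb : b ∈ h) (hab : a ≠ b) (he : e ∈ E) (he' : e' ∈ E) :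
    ∑ n ∈ (sN (z ^ R.q) (Wp z p1) c0).filter (fun n => e ∣ n + a ∧ e' ∣ n + b),
        rhoP (P2 R z p1 g3) {a} n * rhoP (P2 R z p1 g3) {b} n * PsG R z p1 h K n ^ 2 *
          (Lc Q (cSe Q z j) (n + a) ^ 2 * Lc Q (cSe Q z j) (n + b) ^ 2) ≤
      NW R z p1 / (e * e') * ((1 + δ) * (m2 R z p1 h K / Gn Q z j ^ 2) + er R z p1 Cq Λ h) := by
  have hz : 1 ≤ z := by have := hN.z3; omega
  have hQ : ∀ p ∈ Q, p.Prime := fun p hp => (Pb_prime (hE.QPb hp)).1
  have h6 : 1 ≤ Gn Q z j := Gn_pos hN hE.QPb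
  by_cases hcop : e.Coprime e'
  · have h1 := hU2 a ha b hb hab e e' (C2_one_le hE he) (C2_one_le hE he') hcop
      (fun p hp hpe => ((Nat.Prime.dvd_mul hp).1 hpe).elim (C2_pr hE he p hp) (C2_pr hE he' p hp))
      Q hE.QPb
      (fun p hp hpe => ((Nat.Prime.dvd_mul (hQ p hp)).1 hpe).elim (hE.cop e he p hp)
        (hE.cop e' he' p hp))
      (cSe Q z j) (cSe Q z j) j (fun A => cSe_abs Q hQ hz j A) (fun A => cSe_abs Q hQ hz j A)
      (fun A hA => cSe_supp hA) (fun A hA => cSe_supp hA) (hE.lev2 e he e' he')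
    rw [nrm_cSe Q hQ hz j] at h1
    have h2 : ∑ n ∈ (sN (z ^ R.q) (Wp z p1) c0).filter (fun n => e ∣ n + a ∧ e' ∣ n + b),
        rhoP (P2 R z p1 g3) {a} n * rhoP (P2 R z p1 g3) {b} n * PsG R z p1 h K n ^ 2 *
          (Lc Q (cSe Q z j) (n + a) ^ 2 * Lc Q (cSe Q z j) (n + b) ^ 2) ≤
      ∑ n ∈ (sN (z ^ R.q) (Wp z p1) c0).filter (fun n => e ∣ n + a ∧ e' ∣ n + b),
        rhoP (Ps R z p1) {a, b} n * PsG R z p1 h K n ^ 2 *
          (Lc Q (cSe Q z j) (n + a) ^ 2 * Lc Q (cSe Q z j) (n + b) ^ 2) := by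
      refine Finset.sum_le_sum fun n _ => ?_
      exact mul_le_mul_of_nonneg_right
        (mul_le_mul_of_nonneg_right (C2_rho_two hE.PsP2 a b n) (sq_nonneg _))
        (mul_nonneg (sq_nonneg _) (sq_nonneg _))
    refine (h2.trans h1).trans (le_of_eq ?_)
    have h9 : m2 R z p1 h K * (1 / Gn Q z j * (1 / Gn Q z j)) =
        m2 R z p1 h K / Gn Q z j ^ 2 := by
      field_simp
    rw [h9]
  · have hpr : e.Prime ∧ z < e ∧ e = e' := by
      rcases hE.pr e he with h1 | h1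
      · exact absurd (by rw [h1]; exact Nat.coprime_one_left e') hcop
      · rcases hE.pr e' he' with h2 | h2
        · exact absurd (by rw [h2]; exact Nat.coprime_one_right e) hcop
        · refine ⟨h1.1, h1.2.2.1, ?_⟩
          by_contra h3
          exact hcop ((Nat.coprime_primes h1.1 h2.1).2 h3)
    obtain ⟨-, hze, rfl⟩ := hpr
    have hemp : (sN (z ^ R.q) (Wp z p1) c0).filter (fun n => e ∣ n + a ∧ e ∣ n + b) = ∅ := by
      rw [Finset.filter_eq_empty_iff]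
      rintro n - ⟨h1, h2⟩
      have ha' := hN.small a ha
      have hb' := hN.small b hb
      rcases Nat.lt_or_gt_of_ne hab with h3 | h3
      · have h4 : e ∣ (n + b) - (n + a) := Nat.dvd_sub h2 h1
        have h5 := Nat.le_of_dvd (by omega) h4
        omega
      · have h4 : e ∣ (n + a) - (n + b) := Nat.dvd_sub h1 h2
        have h5 := Nat.le_of_dvd (by omega) h4
        omega
    rw [hemp, Finset.sum_empty]
    have hm2 : 0 ≤ m2 R z p1 h K := by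
      unfold m2
      have h1 := hN.G1p
      have h2 := hN.G2p
      have h3 := hN.Gsp
      have h4 := hN.DKp
      positivity
    refine mul_nonneg (div_nonneg hN.NWp.le (by positivity)) ?_
    have h10 := hN.hδ
    refine add_nonneg (mul_nonneg (by linarith) (div_nonneg hm2 (by positivity))) hN.er0

end Pool.Agent.LibFB63
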