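import Pool.Agent.LibFB63.C0

/-!
Row C3a (SHORT/MEDIUM, sums over `e`). `(#{e ∈ E : e ∣ v} : ℝ) = ∑ e ∈ E, 1[e ∣ v]` (`Finset.card_filter`, `Nat.cast_sum`/`Finset.sum_boole`), exchange the sums (`Finset.sum_comm`, `Finset.sum_filter`). `XE_expand2`: the same for the product of the two counting functions.
-/

open Finset Filter

namespace Pool.Agent.LibFB63

open Pool.Agent.LibRG87 Pool.Agent.LibLG5 Pool.Agent.LibPL63 Pool.Agent.LibSC93 Pool.Agent.LibGL22

variable {R : Prm} {z p1 g3 : ℕ} {E Q : Finset ℕ} {j : ℕ}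

theorem XE_expand (s : Finset ℕ) (w : ℕ → ℝ) (a : ℕ) :
    ∑ n ∈ s, w n * XE R z p1 g3 E Q j a n =
      ∑ e ∈ E, ∑ n ∈ s.filter (fun n => e ∣ n + a), rhoP (P2 R z p1 g3) {a} n * w n * Lc Q (cSe Q z j) (n + a) ^ 2 := by
  have h1 : ∀ n, w n * XE R z p1 g3 E Q j a n =
      ∑ e ∈ E, if e ∣ n + a then
        rhoP (P2 R z p1 g3) {a} n * w n * Lc Q (cSe Q z j) (n + a) ^ 2 else 0 := by
    intro n
    rw [← Finset.sum_filter, Finset.sum_const, nsmul_eq_mul]
    unfold XE HE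
    ring
  rw [Finset.sum_congr rfl (fun n _ => h1 n), Finset.sum_comm]
  refine Finset.sum_congr rfl fun e _ => ?_
  rw [Finset.sum_filter]

theorem XE_expand2 (s : Finset ℕ) (w : ℕ → ℝ) (a b : ℕ) :
    ∑ n ∈ s, w n * (XE R z p1 g3 E Q j a n * XE R z p1 g3 E Q j b n) =
      ∑ e ∈ E, ∑ e' ∈ E, ∑ n ∈ s.filter (fun n => e ∣ n + a ∧ e' ∣ n + b),
        rhoP (P2 R z p1 g3) {a} n * rhoP (P2 R z p1 g3) {b} n * w n *
          (Lc Q (cSe Q z j) (n + a) ^ 2 * Lc Q (cSe Q z j) (n + b) ^ 2) := by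
  have h1 : ∀ n, w n * (XE R z p1 g3 E Q j a n * XE R z p1 g3 E Q j b n) =
      ∑ e ∈ E, ∑ e' ∈ E, if e ∣ n + a ∧ e' ∣ n + b then
        rhoP (P2 R z p1 g3) {a} n * rhoP (P2 R z p1 g3) {b} n * w n *
          (Lc Q (cSe Q z j) (n + a) ^ 2 * Lc Q (cSe Q z j) (n + b) ^ 2) else 0 := by
    intro n
    have h2 : ∀ c : ℝ, ∑ e ∈ E, ∑ e' ∈ E, (if e ∣ n + a ∧ e' ∣ n + b then c else 0) =
        ((E.filter fun e => e ∣ n + a).card : ℝ) * ((E.filter fun e => e ∣ n + b).card : ℝ) * c := by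
      intro c
      have h3 : ∀ e ∈ E, ∑ e' ∈ E, (if e ∣ n + a ∧ e' ∣ n + b then c else 0) =
          if e ∣ n + a then ((E.filter fun e => e ∣ n + b).card : ℝ) * c else 0 := by
        intro e _
        by_cases he : e ∣ n + a
        · simp only [he, true_and, if_true]
          rw [← Finset.sum_filter, Finset.sum_const, nsmul_eq_mul]
        · simp only [he, false_and, if_false, Finset.sum_const_zero]
      rw [Finset.sum_congr rfl h3, ← Finset.sum_filter, Finset.sum_const, nsmul_eq_mul]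
      ring
    rw [h2]
    unfold XE HE
    ring
  rw [Finset.sum_congr rfl (fun n _ => h1 n), Finset.sum_comm]
  refine Finset.sum_congr rfl fun e _ => ?_
  rw [Finset.sum_comm]
  refine Finset.sum_congr rfl fun e' _ => ?_
  rw [Finset.sum_filter]

end Pool.Agent.LibFB63
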