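import Pool.Agent.LibFB63.C1a

/-!
Row C3b (SHORT/MEDIUM, the masses). `T = ∑_{e ∈ E} 1/e`. `T_le`: `E` nonempty and `e ≥ 1`: `0 < T`; the elements of `E` different from 1 are in `PG` (`pr`): `T ≤ 1 + ∑_{E.erase 1} 1/e ≤ 1 + B ≤ 2 B` (`sum_inv_le_B`).
`VV_tE`, `VV_tE2`: unfold `tE`, `VV`, `m1`, `m2`; `G1, G2, Gs, DKG, Gn > 0` (`NumC`, `Gn_pos`); `R.k ≥ 1`: `G2^k = G2 G2^(k-1)`; `2 ≤ R.k`: `G2^k = G2² G2^(k-2)`; `field_simp`.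
-/

open Finset Filter

namespace Pool.Agent.LibFB63

open Pool.Agent.LibRG87 Pool.Agent.LibLG5 Pool.Agent.LibPL63 Pool.Agent.LibSC93 Pool.Agent.LibGL22

variable {R : Prm} {Cq : ℕ} {Λ δ B : ℝ} {z p1 c0 g3 : ℕ} {h K E Q : Finset ℕ} {j : ℕ}

theorem T_le (hE : OKE R g3 δ z p1 E Q j) (hN : NumC R Cq Λ δ z p1 h K B) :
    0 < ∑ e ∈ E, 1 / (e : ℝ) ∧ ∑ e ∈ E, 1 / (e : ℝ) ≤ 2 * B := by
  have h1 : ∀ e ∈ E, (0 : ℝ) < 1 / (e : ℝ) := by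
    intro e he
    rcases hE.pr e he with h | h
    · rw [h]
      norm_num
    · have h2 : (0 : ℝ) < (e : ℝ) := Nat.cast_pos.2 h.1.pos
      exact one_div_pos.2 h2
  refine ⟨Finset.sum_pos h1 hE.ne, ?_⟩
  have h2 : E ⊆ insert 1 (E.erase 1) := by
    intro e he
    by_cases h : e = 1
    · rw [h]
      exact Finset.mem_insert_self _ _
    · exact Finset.mem_insert_of_mem (Finset.mem_erase.2 ⟨h, he⟩)
  have h3 : ∑ e ∈ E, 1 / (e : ℝ) ≤ ∑ e ∈ insert 1 (E.erase 1), 1 / (e : ℝ) :=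
    Finset.sum_le_sum_of_subset_of_nonneg h2
      (fun e _ _ => div_nonneg zero_le_one (Nat.cast_nonneg e))
  rw [Finset.sum_insert (Finset.notMem_erase 1 E)] at h3
  have h4 : E.erase 1 ⊆ PG R z p1 := by
    intro e he
    have h5 := Finset.mem_erase.1 he
    rcases hE.pr e h5.2 with h | h
    · exact absurd h h5.1
    · exact h.2.2.2
  have h5 := sum_inv_le_B hN h4
  have h6 := hN.B1
  have h7 : (1 : ℝ) / ((1 : ℕ) : ℝ) = 1 := by norm_num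
  rw [h7] at h3
  linarith

theorem VV_tE (hN : NumC R Cq Λ δ z p1 h K B) (hQ : Q ⊆ Pb R z p1) :
    tE R z p1 E Q j * VV R z p1 h K = NW R z p1 * (∑ e ∈ E, 1 / (e : ℝ)) * (m1 R z p1 h K / Gn Q z j) := by
  have hG2 : G2G R z p1 ≠ 0 := (lt_of_lt_of_le one_pos hN.G2p).ne'
  have hGs : Gs R z p1 ≠ 0 := (lt_of_lt_of_le one_pos hN.Gsp).ne'
  have hGn : Gn Q z j ≠ 0 := (lt_of_lt_of_le one_pos (Gn_pos hN hQ)).ne'
  have hk : G2G R z p1 ^ R.k = G2G R z p1 * G2G R z p1 ^ (R.k - 1) := by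
    rw [← pow_succ']
    congr 1
    have := hN.k1
    omega
  unfold tE VV m1
  rw [hk]
  generalize G2G R z p1 ^ (R.k - 1) = X
  field_simp

theorem VV_tE2 (hN : NumC R Cq Λ δ z p1 h K B) (hQ : Q ⊆ Pb R z p1) (hk : 2 ≤ R.k) :
    tE R z p1 E Q j ^ 2 * VV R z p1 h K =
      NW R z p1 * (∑ e ∈ E, 1 / (e : ℝ)) ^ 2 * (m2 R z p1 h K / Gn Q z j ^ 2) := by
  have hG2 : G2G R z p1 ≠ 0 := (lt_of_lt_of_le one_pos hN.G2p).ne'
  have hGs : Gs R z p1 ≠ 0 := (lt_of_lt_of_le one_pos hN.Gsp).ne'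
  have hGn : Gn Q z j ≠ 0 := (lt_of_lt_of_le one_pos (Gn_pos hN hQ)).ne'
  have hk : G2G R z p1 ^ R.k = G2G R z p1 ^ 2 * G2G R z p1 ^ (R.k - 2) := by
    rw [← pow_add]
    congr 1
    omega
  unfold tE VV m2
  rw [hk]
  generalize G2G R z p1 ^ (R.k - 2) = X
  field_simp

theorem tE_nonneg (hN : NumC R Cq Λ δ z p1 h K B) (hQ : Q ⊆ Pb R z p1) : 0 ≤ tE R z p1 E Q j := by
  have hG2 : 0 < G2G R z p1 := lt_of_lt_of_le one_pos hN.G2p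
  have hGs : 0 < Gs R z p1 := lt_of_lt_of_le one_pos hN.Gsp
  have hGn : 0 < Gn Q z j := lt_of_lt_of_le one_pos (Gn_pos hN hQ)
  have hT : 0 ≤ ∑ e ∈ E, 1 / (e : ℝ) :=
    Finset.sum_nonneg (fun e _ => div_nonneg zero_le_one (Nat.cast_nonneg e))
  unfold tE
  exact div_nonneg (mul_nonneg (div_nonneg (sq_nonneg _) (mul_nonneg hG2.le hGs.le)) hT) hGn.le

theorem VV_pos (hN : NumC R Cq Λ δ z p1 h K B) : 0 < VV R z p1 h K := by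
  have hG2 : 0 < G2G R z p1 := lt_of_lt_of_le one_pos hN.G2p
  unfold VV
  exact mul_pos hN.NWp (mul_pos (pow_pos hG2 _) hN.DKp)

end Pool.Agent.LibFB63
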