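import Pool.Agent.LibFB63.C1b
import Pool.Agent.LibFB63.C2
import Pool.Agent.LibFB63.C3a
import Pool.Agent.LibFB63.C3b

/-!
Row C3c (means and pairs). `T = ∑_{e ∈ E} 1/e`. `mean_lo`, `mean_up`: `XE_expand` (with `w n = PsG n ^ 2`), sum of `lo_e`, `up_e` over `e ∈ E`, `VV_tE` (`∑ NW/e * x = NW T x`).
`pair_up`: `XE_expand2`, sum of `up_ee` over `e, e'`: `≤ NW T² ((1+δ) m2/Gn² + er)` (`∑∑ 1/(e e') = T²`). `2 ≤ R.k` because `a ≠ b ∈ h`, `h.card = R.k`. Error: `er ≤ δ m2/Gn²`: by `VV_tE`, `VV_tE2`: `NW T² m2/Gn² = tE (tE VV) = tE NW T m1/Gn ≥ NW T m1/(k Gn)` (`ht`), so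
`m2/Gn² ≥ m1/(k T Gn)`, and `k T Gn er ≤ 2 B² k er ≤ δ m1/2` (`T ≤ 2 B`, `Gn ≤ B`, `err`). Then `(1+δ) + δ = 1 + 2δ` and `VV_tE2`.
-/

open Finset Filter

namespace Pool.Agent.LibFB63

open Pool.Agent.LibRG87 Pool.Agent.LibLG5 Pool.Agent.LibPL63 Pool.Agent.LibSC93 Pool.Agent.LibGL22

variable {R : Prm} {Cq : ℕ} {Λ δ B : ℝ} {z p1 c0 g3 : ℕ} {h K E Q : Finset ℕ} {j : ℕ}

theorem mean_lo (hE : OKE R g3 δ z p1 E Q j) (hN : NumC R Cq Λ δ z p1 h K B)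
    (hU : U1 R Cq Λ δ z p1 c0 h K) (hL : L1 R Cq Λ δ z p1 c0 h K) {a : ℕ} (ha : a ∈ h) :
    (1 - 3 * δ) * (tE R z p1 E Q j * VV R z p1 h K) ≤
      ∑ n ∈ sN (z ^ R.q) (Wp z p1) c0, PsG R z p1 h K n ^ 2 * XE R z p1 g3 E Q j a n := by
  rw [XE_expand (sN (z ^ R.q) (Wp z p1) c0) (fun n => PsG R z p1 h K n ^ 2) a]
  have h1 : ∑ e ∈ E, NW R z p1 / (e : ℝ) * ((1 - 3 * δ) * (m1 R z p1 h K / Gn Q z j)) =
      (1 - 3 * δ) * (tE R z p1 E Q j * VV R z p1 h K) := by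
    rw [VV_tE hN hE.QPb, Finset.mul_sum, Finset.sum_mul, Finset.mul_sum]
    refine Finset.sum_congr rfl fun e _ => ?_
    ring
  rw [← h1]
  exact Finset.sum_le_sum fun e he => lo_e hE hN hU hL ha he

theorem mean_up (hE : OKE R g3 δ z p1 E Q j) (hN : NumC R Cq Λ δ z p1 h K B)
    (hU : U1 R Cq Λ δ z p1 c0 h K) {a : ℕ} (ha : a ∈ h) :
    ∑ n ∈ sN (z ^ R.q) (Wp z p1) c0, PsG R z p1 h K n ^ 2 * XE R z p1 g3 E Q j a n ≤
      (1 + 2 * δ) * (tE R z p1 E Q j * VV R z p1 h K) := by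
  rw [XE_expand (sN (z ^ R.q) (Wp z p1) c0) (fun n => PsG R z p1 h K n ^ 2) a]
  have h1 : ∑ e ∈ E, NW R z p1 / (e : ℝ) * ((1 + 2 * δ) * (m1 R z p1 h K / Gn Q z j)) =
      (1 + 2 * δ) * (tE R z p1 E Q j * VV R z p1 h K) := by
    rw [VV_tE hN hE.QPb, Finset.mul_sum, Finset.sum_mul, Finset.mul_sum]
    refine Finset.sum_congr rfl fun e _ => ?_
    ring
  rw [← h1]
  exact Finset.sum_le_sum fun e he => up_e hE hN hU ha he

theorem pair_up (hE : OKE R g3 δ z p1 E Q j) (hN : NumC R Cq Λ δ z p1 h K B)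
    (hU2 : U2 R Cq Λ δ z p1 c0 h K) (ht : 1 ≤ R.k * tE R z p1 E Q j) {a b : ℕ} (ha : a ∈ h) (hb : b ∈ h) (hab : a ≠ b) :
    ∑ n ∈ sN (z ^ R.q) (Wp z p1) c0, PsG R z p1 h K n ^ 2 * (XE R z p1 g3 E Q j a n * XE R z p1 g3 E Q j b n) ≤
      (1 + 2 * δ) * (tE R z p1 E Q j ^ 2 * VV R z p1 h K) := by
  rw [XE_expand2 (sN (z ^ R.q) (Wp z p1) c0) (fun n => PsG R z p1 h K n ^ 2) a b]
  have hk : 2 ≤ R.k := by
    rw [← hN.card]
    exact Finset.one_lt_card.2 ⟨a, ha, b, hb, hab⟩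
  obtain ⟨hT0, hTB⟩ := T_le hE hN
  have hv1 := VV_tE (E := E) (j := j) hN hE.QPb
  have hv2 := VV_tE2 (E := E) (j := j) hN hE.QPb hk
  have hG1 : 1 ≤ Gn Q z j := Gn_pos hN hE.QPb
  have hGB : Gn Q z j ≤ B := Gn_le_B hN hE.QPb
  have hm1 := m1_pos hN
  have hNW := hN.NWp
  have herr := hN.err
  have her0 := hN.er0
  have hB1 := hN.B1
  have hδ := hN.hδ
  have hk0 : (0 : ℝ) < R.k := by
    have : 0 < R.k := by omega
    exact_mod_cast this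
  have hle : ∑ e ∈ E, ∑ e' ∈ E, ∑ n ∈ (sN (z ^ R.q) (Wp z p1) c0).filter (fun n => e ∣ n + a ∧ e' ∣ n + b),
        rhoP (P2 R z p1 g3) {a} n * rhoP (P2 R z p1 g3) {b} n * PsG R z p1 h K n ^ 2 *
          (Lc Q (cSe Q z j) (n + a) ^ 2 * Lc Q (cSe Q z j) (n + b) ^ 2) ≤
      ∑ e ∈ E, ∑ e' ∈ E, NW R z p1 / (e * e') * ((1 + δ) * (m2 R z p1 h K / Gn Q z j ^ 2) + er R z p1 Cq Λ h) :=
    Finset.sum_le_sum fun e he => Finset.sum_le_sum fun e' he' => up_ee hE hN hU2 ha hb hab he he'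
  refine hle.trans ?_
  have hsum : ∑ e ∈ E, ∑ e' ∈ E, NW R z p1 / (e * e') *
        ((1 + δ) * (m2 R z p1 h K / Gn Q z j ^ 2) + er R z p1 Cq Λ h) =
      NW R z p1 * (∑ e ∈ E, 1 / (e : ℝ)) ^ 2 *
        ((1 + δ) * (m2 R z p1 h K / Gn Q z j ^ 2) + er R z p1 Cq Λ h) := by
    rw [pow_two (∑ e ∈ E, 1 / (e : ℝ)), Finset.sum_mul_sum, Finset.mul_sum, Finset.sum_mul]
    refine Finset.sum_congr rfl fun e _ => ?_
    rw [Finset.mul_sum, Finset.sum_mul]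
    refine Finset.sum_congr rfl fun e' _ => ?_
    rw [div_mul_div_comm, one_mul, mul_one_div]
  rw [hsum, hv2]
  generalize (∑ e ∈ E, 1 / (e : ℝ)) = T at hT0 hTB hv1 hv2 ⊢
  generalize m2 R z p1 h K / Gn Q z j ^ 2 = m at hv2 ⊢
  generalize tE R z p1 E Q j = t at hv1 hv2 ht ⊢
  generalize VV R z p1 h K = v at hv1 hv2
  have hGpos : 0 < Gn Q z j := by linarith
  generalize Gn Q z j = G at hv1 hG1 hGB hGpos
  generalize m1 R z p1 h K = m' at hv1 hm1 herr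
  generalize er R z p1 Cq Λ h = r at herr her0 ⊢
  generalize NW R z p1 = N at hv1 hv2 hNW ⊢
  have e1 : t * (m' / G) = T * m := by
    have h2 : N * T * (t * (m' / G)) = N * T * (T * m) := by
      have h3 : t * (t * v) = t ^ 2 * v := by ring
      rw [hv1, hv2] at h3
      linarith
    exact mul_left_cancel₀ (mul_pos hNW hT0).ne' h2
  have e2 : 0 < m' / G := div_pos hm1 hGpos
  have e3 : m' / G ≤ R.k * (T * m) := by
    have h4 : 1 * (m' / G) ≤ R.k * t * (m' / G) := mul_le_mul_of_nonneg_right ht e2.le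
    rw [one_mul] at h4
    calc m' / G ≤ R.k * t * (m' / G) := h4
      _ = R.k * (t * (m' / G)) := by ring
      _ = R.k * (T * m) := by rw [e1]
  have e4 : R.k * T * r * G ≤ δ * m' / 2 := by
    have h5 : T * G ≤ 2 * B * B := mul_le_mul hTB hGB hGpos.le (by linarith)
    have h6 : R.k * r * (T * G) ≤ R.k * r * (2 * B * B) :=
      mul_le_mul_of_nonneg_left h5 (mul_nonneg hk0.le her0)
    nlinarith
  have e5 : R.k * T * r ≤ δ / 2 * (m' / G) := by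
    have h7 : δ / 2 * (m' / G) = δ * m' / 2 / G := by ring
    rw [h7, le_div_iff₀ hGpos]
    exact e4
  have e6 : R.k * T * r ≤ R.k * T * (δ / 2 * m) := by
    have h8 : δ / 2 * (m' / G) ≤ δ / 2 * (R.k * (T * m)) := mul_le_mul_of_nonneg_left e3 (by linarith)
    calc R.k * T * r ≤ δ / 2 * (m' / G) := e5
      _ ≤ δ / 2 * (R.k * (T * m)) := h8
      _ = R.k * T * (δ / 2 * m) := by ring
  have e7 : r ≤ δ / 2 * m := le_of_mul_le_mul_left e6 (mul_pos hk0 hT0)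
  have e8 : 0 ≤ m := by
    by_contra hneg
    push Not at hneg
    have h9 : δ / 2 * m < 0 := mul_neg_of_pos_of_neg (by linarith) hneg
    linarith
  have e9 : (1 + δ) * m + r ≤ (1 + 2 * δ) * m := by
    have h10 : 0 ≤ δ * m := mul_nonneg hδ.le e8
    nlinarith
  have e10 : 0 ≤ N * T ^ 2 := mul_nonneg hNW.le (sq_nonneg T)
  calc N * T ^ 2 * ((1 + δ) * m + r) ≤ N * T ^ 2 * ((1 + 2 * δ) * m) := mul_le_mul_of_nonneg_left e9 e10
    _ = (1 + 2 * δ) * (N * T ^ 2 * m) := by ring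

end Pool.Agent.LibFB63
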