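import Mathlib

/-!
Row C4a (SHORT/MEDIUM, real numbers and finite sums, only Mathlib). `σ = |S| t`. Expand the square; `∑ w (∑ x)² = ∑_{a ≠ b} ∑ w x_a x_b + ∑_a ∑ w x_a²` (`sq`, `Finset.sum_mul_sum`, exchange sums, split the diagonal: `∑_{b ∈ S} f a b = f a a + ∑_{b ∈ S.erase a} f a b`),
`≤ |S|² (1 + 2δ) t² V + |S| δ |S| t² V` (the number of pairs `a ≠ b` is at most `|S|²`, the bound is `≥ 0`); `- 2 σ ∑ w ∑ x ≤ - 2 (1 - 3δ) σ² V`; `σ² ∑ w ≤ (1 + δ) σ² V`; total `(1 + 3δ - 2 + 6δ + 1 + δ) σ² V = 10 δ σ² V`.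
-/

open Finset

namespace Pool.Agent.LibFB63

theorem abs_conc (s S : Finset ℕ) (w : ℕ → ℝ) (x : ℕ → ℕ → ℝ) {δ t V : ℝ} (hδ : 0 < δ) (hV : 0 ≤ V) (ht : 0 ≤ t)
    (h1 : ∑ n ∈ s, w n ≤ (1 + δ) * V)
    (h2 : ∀ a ∈ S, (1 - 3 * δ) * (t * V) ≤ ∑ n ∈ s, w n * x a n)
    (h3 : ∀ a ∈ S, ∀ b ∈ S, a ≠ b → ∑ n ∈ s, w n * (x a n * x b n) ≤ (1 + 2 * δ) * (t ^ 2 * V))
    (h4 : ∀ a ∈ S, ∑ n ∈ s, w n * x a n ^ 2 ≤ δ * (S.card * t ^ 2 * V)) :
    ∑ n ∈ s, w n * (∑ a ∈ S, x a n - S.card * t) ^ 2 ≤ 20 * δ * (S.card * t) ^ 2 * V := by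
  have hc : (0 : ℝ) ≤ (S.card : ℝ) := Nat.cast_nonneg _
  have hσ : 0 ≤ (S.card : ℝ) * t := mul_nonneg hc ht
  have hA : ∑ n ∈ s, w n * ((∑ a ∈ S, x a n) * (∑ a ∈ S, x a n)) =
      ∑ a ∈ S, ∑ b ∈ S, ∑ n ∈ s, w n * (x a n * x b n) := by
    calc ∑ n ∈ s, w n * ((∑ a ∈ S, x a n) * (∑ a ∈ S, x a n))
        = ∑ n ∈ s, ∑ a ∈ S, ∑ b ∈ S, w n * (x a n * x b n) := by
          refine Finset.sum_congr rfl fun n _ => ?_
          rw [Finset.sum_mul_sum, Finset.mul_sum]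
          refine Finset.sum_congr rfl fun a _ => ?_
          rw [Finset.mul_sum]
      _ = ∑ a ∈ S, ∑ n ∈ s, ∑ b ∈ S, w n * (x a n * x b n) := Finset.sum_comm
      _ = ∑ a ∈ S, ∑ b ∈ S, ∑ n ∈ s, w n * (x a n * x b n) :=
          Finset.sum_congr rfl fun a _ => Finset.sum_comm
  have hB : ∑ n ∈ s, w n * ∑ a ∈ S, x a n = ∑ a ∈ S, ∑ n ∈ s, w n * x a n := by
    rw [Finset.sum_comm]
    refine Finset.sum_congr rfl fun n _ => ?_
    rw [Finset.mul_sum]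
  have hE : ∑ n ∈ s, w n * (∑ a ∈ S, x a n - S.card * t) ^ 2 =
      (∑ n ∈ s, w n * ((∑ a ∈ S, x a n) * (∑ a ∈ S, x a n))) -
        2 * ((S.card : ℝ) * t) * (∑ n ∈ s, w n * ∑ a ∈ S, x a n) + ((S.card : ℝ) * t) ^ 2 * ∑ n ∈ s, w n := by
    rw [Finset.mul_sum, Finset.mul_sum, ← Finset.sum_sub_distrib, ← Finset.sum_add_distrib]
    refine Finset.sum_congr rfl fun n _ => ?_
    ring
  have hP : ∑ a ∈ S, ∑ b ∈ S, ∑ n ∈ s, w n * (x a n * x b n) ≤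
      (1 + 3 * δ) * (((S.card : ℝ) * t) ^ 2 * V) := by
    have hrow : ∀ a ∈ S, ∑ b ∈ S, ∑ n ∈ s, w n * (x a n * x b n) ≤
        δ * (S.card * t ^ 2 * V) + (S.card : ℝ) * ((1 + 2 * δ) * (t ^ 2 * V)) := by
      intro a ha
      rw [← Finset.add_sum_erase S _ ha]
      have hd : ∑ n ∈ s, w n * (x a n * x a n) ≤ δ * (S.card * t ^ 2 * V) := by
        have := h4 a ha
        simpa only [sq] using this
      have ho : ∑ b ∈ S.erase a, ∑ n ∈ s, w n * (x a n * x b n) ≤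
          (S.card : ℝ) * ((1 + 2 * δ) * (t ^ 2 * V)) := by
        have h5 : ∑ b ∈ S.erase a, ∑ n ∈ s, w n * (x a n * x b n) ≤
            ∑ b ∈ S.erase a, (1 + 2 * δ) * (t ^ 2 * V) :=
          Finset.sum_le_sum fun b hb => h3 a ha b (Finset.mem_of_mem_erase hb) (Finset.ne_of_mem_erase hb).symm
        rw [Finset.sum_const, nsmul_eq_mul] at h5
        refine h5.trans ?_
        have h6 : ((S.erase a).card : ℝ) ≤ (S.card : ℝ) := by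
          exact_mod_cast Finset.card_le_card (Finset.erase_subset a S)
        exact mul_le_mul_of_nonneg_right h6 (by positivity)
      exact add_le_add hd ho
    have hs := Finset.sum_le_sum hrow
    rw [Finset.sum_const, nsmul_eq_mul] at hs
    refine hs.trans (le_of_eq ?_)
    ring
  have hQ : (S.card : ℝ) * ((1 - 3 * δ) * (t * V)) ≤ ∑ a ∈ S, ∑ n ∈ s, w n * x a n := by
    have hs := Finset.sum_le_sum h2
    rw [Finset.sum_const, nsmul_eq_mul] at hs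
    exact hs
  rw [hE, hA, hB]
  have hQ2 := mul_le_mul_of_nonneg_left hQ (mul_nonneg zero_le_two hσ)
  have hR2 := mul_le_mul_of_nonneg_left h1 (sq_nonneg ((S.card : ℝ) * t))
  have hpos : 0 ≤ δ * (((S.card : ℝ) * t) ^ 2 * V) := by positivity
  have hfin : (1 + 3 * δ) * (((S.card : ℝ) * t) ^ 2 * V) -
      2 * ((S.card : ℝ) * t) * ((S.card : ℝ) * ((1 - 3 * δ) * (t * V))) +
      ((S.card : ℝ) * t) ^ 2 * ((1 + δ) * V) = 10 * (δ * (((S.card : ℝ) * t) ^ 2 * V)) := by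
    ring
  have hg : 20 * δ * (S.card * t) ^ 2 * V = 20 * (δ * (((S.card : ℝ) * t) ^ 2 * V)) := by ring
  rw [hg]
  linarith

end Pool.Agent.LibFB63
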