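import Pool.Agent.LibFB63.C3c
import Pool.Agent.LibFB63.C4a

/-!
Row C4b (concentration of `∑ XE`). `XE_nonneg`: `rhoP ∈ {0, 1}`, `HE ≥ 0`. `XE_le`: if `rhoP P2 {a} n = 0` clear; otherwise `bd` of `OKE` at `v = n + a`: `1 ≤ n` (`n > z^q`), `n + a ≤ 2 z^q + z ≤ z^(q+1)` (`3 ≤ z`, `small`, `n ∈ sN`: `Ioc N (2N)`; `q ≥ 1`: if `q = 0` then … `lev1` gives
`z^(… + 30 u) ≤ z^q`; use `2 z^q + z ≤ 3 z^q` for `1 ≤ q` and for `q = 0`: `n + a ≤ 2 + (z - 1) = z + 1`: hence the hypothesis `hq : 1 ≤ R.q`).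
`concE`: `abs_conc` with `t = tE`, `V = VV`, `x a n = XE … a n`: `h2` = `mean_lo`, `h3` = `pair_up` (`1 ≤ R.k tE`: `|S| ≤ |h| = R.k`, and `hbig` with `δ ≤ 1` gives `|S| tE ≥ 1`), `h4`: `∑ w x² ≤ 4^(4 g3 + 1) ∑ w x ≤ 4^(4 g3 + 1) (1 + 2δ) tE V ≤ δ |S| tE² V`
(`XE_le`, `mean_up`, `hbig`: `4^(4 g3 + 5) ≤ δ |S| tE`).
-/

open Finset Filter

namespace Pool.Agent.LibFB63

open Pool.Agent.LibRG87 Pool.Agent.LibLG5 Pool.Agent.LibPL63 Pool.Agent.LibSC93 Pool.Agent.LibGL22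

variable {R : Prm} {Cq : ℕ} {Λ δ B : ℝ} {z p1 c0 g3 : ℕ} {h K E Q : Finset ℕ} {j : ℕ}

theorem XE_nonneg (a n : ℕ) : 0 ≤ XE R z p1 g3 E Q j a n := by
  unfold XE HE
  exact mul_nonneg (rhoP_nonneg _ _ _).1 (mul_nonneg (Nat.cast_nonneg _) (sq_nonneg _))

theorem XE_le (hE : OKE R g3 δ z p1 E Q j) (hN : NumC R Cq Λ δ z p1 h K B) (hq : 1 ≤ R.q) {a n : ℕ} (ha : a ∈ h)
    (hn : n ∈ sN (z ^ R.q) (Wp z p1) c0) : XE R z p1 g3 E Q j a n ≤ 4 ^ (4 * g3 + 1) := by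
  have hz3 := hN.z3
  have haz := hN.small a ha
  unfold sN at hn
  rw [Finset.mem_filter, Finset.mem_Ioc] at hn
  obtain ⟨⟨hn1, hn2⟩, -⟩ := hn
  have hzq : z ≤ z ^ R.q := by
    calc z = z ^ 1 := (pow_one z).symm
      _ ≤ z ^ R.q := Nat.pow_le_pow_right (by omega) hq
  have hv : n + a ≤ z ^ (R.q + 1) := by
    have h3 : 3 * z ^ R.q ≤ z ^ (R.q + 1) := by
      rw [pow_succ, mul_comm]
      exact Nat.mul_le_mul_left _ hz3
    omega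
  by_cases hc : ∀ a' ∈ ({a} : Finset ℕ), ∀ p ∈ P2 R z p1 g3, ¬ p ∣ n + a'
  · have h1 : rhoP (P2 R z p1 g3) {a} n = 1 := by
      unfold rhoP
      rw [if_pos hc]
    unfold XE
    rw [h1, one_mul]
    exact hE.bd (n + a) (by omega) hv (fun p hp => hc a (Finset.mem_singleton_self a) p hp)
  · have h1 : rhoP (P2 R z p1 g3) {a} n = 0 := by
      unfold rhoP
      rw [if_neg hc]
    unfold XE
    rw [h1, zero_mul]
    positivity

theorem concE (hE : OKE R g3 δ z p1 E Q j) (hN : NumC R Cq Λ δ z p1 h K B) (hq : 1 ≤ R.q)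
    (hU : U1 R Cq Λ δ z p1 c0 h K) (hL : L1 R Cq Λ δ z p1 c0 h K) (hU2 : U2 R Cq Λ δ z p1 c0 h K)
    (h1 : ∑ n ∈ sN (z ^ R.q) (Wp z p1) c0, PsG R z p1 h K n ^ 2 ≤ (1 + δ) * VV R z p1 h K)
    {S : Finset ℕ} (hS : S ⊆ h) (hbig : (4 : ℝ) ^ (4 * g3 + 5) ≤ δ * (S.card * tE R z p1 E Q j)) :
    ∑ n ∈ sN (z ^ R.q) (Wp z p1) c0, PsG R z p1 h K n ^ 2 *
        (∑ a ∈ S, XE R z p1 g3 E Q j a n - S.card * tE R z p1 E Q j) ^ 2 ≤
      20 * δ * (S.card * tE R z p1 E Q j) ^ 2 * VV R z p1 h K := by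
  have hδ := hN.hδ
  have hδ1 := hN.hδ1
  have hVV : 0 ≤ VV R z p1 h K := by
    unfold VV
    have h1 := hN.NWp
    have h2 := hN.G2p
    have h3 := hN.DKp
    exact mul_nonneg h1.le (mul_nonneg (pow_nonneg (by linarith) _) h3.le)
  have hC1 : (1 : ℝ) ≤ 4 ^ (4 * g3 + 5) := one_le_pow₀ (by norm_num)
  have hC : (4 : ℝ) ^ (4 * g3 + 5) = 4 ^ (4 * g3 + 1) * 256 := by
    rw [show 4 * g3 + 5 = (4 * g3 + 1) + 4 by ring, pow_add]
    norm_num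
  have hC0 : (0 : ℝ) < 4 ^ (4 * g3 + 1) := by positivity
  have hpos : 0 < S.card * tE R z p1 E Q j := by
    by_contra hneg
    push Not at hneg
    nlinarith
  have ht : 0 < tE R z p1 E Q j := by
    by_contra hneg
    push Not at hneg
    have hcard : (0 : ℝ) ≤ S.card := Nat.cast_nonneg _
    nlinarith
  have hSt : 1 ≤ S.card * tE R z p1 E Q j := by
    nlinarith
  have hkt : 1 ≤ R.k * tE R z p1 E Q j := by
    have hcard : (S.card : ℝ) ≤ R.k := by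
      rw [← hN.card]
      exact_mod_cast Finset.card_le_card hS
    nlinarith
  refine abs_conc (sN (z ^ R.q) (Wp z p1) c0) S (fun n => PsG R z p1 h K n ^ 2)
    (fun a n => XE R z p1 g3 E Q j a n) hδ hVV ht.le h1 ?_ ?_ ?_
  · intro a ha
    exact mean_lo hE hN hU hL (hS ha)
  · intro a ha b hb hab
    exact pair_up hE hN hU2 hkt (hS ha) (hS hb) hab
  · intro a ha
    have hm := mean_up hE hN hU (hS ha)
    have hle : ∑ n ∈ sN (z ^ R.q) (Wp z p1) c0, PsG R z p1 h K n ^ 2 * XE R z p1 g3 E Q j a n ^ 2 ≤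
        4 ^ (4 * g3 + 1) * ∑ n ∈ sN (z ^ R.q) (Wp z p1) c0, PsG R z p1 h K n ^ 2 * XE R z p1 g3 E Q j a n := by
      rw [Finset.mul_sum]
      refine Finset.sum_le_sum fun n hn => ?_
      have hx0 : 0 ≤ XE R z p1 g3 E Q j a n := XE_nonneg a n
      have hx1 : XE R z p1 g3 E Q j a n ≤ 4 ^ (4 * g3 + 1) := XE_le hE hN hq (hS ha) hn
      have hw : 0 ≤ PsG R z p1 h K n ^ 2 := sq_nonneg _
      have h5 : XE R z p1 g3 E Q j a n ^ 2 ≤ 4 ^ (4 * g3 + 1) * XE R z p1 g3 E Q j a n := by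
        rw [sq]
        exact mul_le_mul_of_nonneg_right hx1 hx0
      calc PsG R z p1 h K n ^ 2 * XE R z p1 g3 E Q j a n ^ 2 ≤
          PsG R z p1 h K n ^ 2 * (4 ^ (4 * g3 + 1) * XE R z p1 g3 E Q j a n) :=
            mul_le_mul_of_nonneg_left h5 hw
        _ = 4 ^ (4 * g3 + 1) * (PsG R z p1 h K n ^ 2 * XE R z p1 g3 E Q j a n) := by ring
    have htV : 0 ≤ tE R z p1 E Q j * VV R z p1 h K := mul_nonneg ht.le hVV
    have h6 : 4 ^ (4 * g3 + 1) * (1 + 2 * δ) ≤ δ * (S.card * tE R z p1 E Q j) := by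
      rw [hC] at hbig
      nlinarith
    calc ∑ n ∈ sN (z ^ R.q) (Wp z p1) c0, PsG R z p1 h K n ^ 2 * XE R z p1 g3 E Q j a n ^ 2
        ≤ 4 ^ (4 * g3 + 1) * ∑ n ∈ sN (z ^ R.q) (Wp z p1) c0, PsG R z p1 h K n ^ 2 * XE R z p1 g3 E Q j a n := hle
      _ ≤ 4 ^ (4 * g3 + 1) * ((1 + 2 * δ) * (tE R z p1 E Q j * VV R z p1 h K)) :=
          mul_le_mul_of_nonneg_left hm hC0.le
      _ = (4 ^ (4 * g3 + 1) * (1 + 2 * δ)) * (tE R z p1 E Q j * VV R z p1 h K) := by ring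
      _ ≤ (δ * (S.card * tE R z p1 E Q j)) * (tE R z p1 E Q j * VV R z p1 h K) :=
          mul_le_mul_of_nonneg_right h6 htV
      _ = δ * (S.card * tE R z p1 E Q j ^ 2 * VV R z p1 h K) := by ring

end Pool.Agent.LibFB63
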