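import Pool.Agent.LibFB63.C0

/-!
Row C5 (the numerical facts). `B = Cx k1`. For large `z`, all primes `p1`: `3 ≤ z`, `BaseG` (`baseG` of LibGL22/B1 with `e = 1`): `1 ≤ G1G, G2G` (`one_le_G`), `DKG ≥ VP h > 0` (`DKG_ge`; `0 < VP` : each factor of `VP (P0 z p1) h` is positive because `|h| = k < wf z < p`, see
`V1_pos`, `VP_pos` in LibPL63/LibSC93, or `VP_ge_pow` in LibPL63/V1), `0 < NW` (definition, `Wp > 0`), `Gs ≥ 1` (all factors `≥ 1`), `a < z` for `a ∈ h` (`PosS`: `a ≤ log² z < z` by `BaseG`).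
`prod`: `NT_S_upper` (LibLG5/NT.lean): `∏_{p ∈ PP z (z^k1)} (1 + 1/(p-1)) ≤ C k1` with an absolute `C` (`PG = PL z k1 p1 = (PP z (z^k1)).erase p1`, all factors `≥ 1`); `C0 = C`.
`err`: `m1 ≥ DKG/Gs ≥ VP h/B` (`Ps ⊆ PG`: `Gs ≤ B`; `G1, G2 ≥ 1`); `4 B² k er = 4 Cx² k1² k q^6 e VP h ≤ (δ/B) VP h` because `4 Cx³ k1³ k q^6 e ≤ Cx q^12 e ≤ δ` (`eps3`): `4 Cx² k1³ k ≤ q^6` from `q = 4 k1`, `k ≤ u ≤ q`, `Cx ≤ g ≤ M ≤ q` (`hCx1`, `hM80`, `prm_le`).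
`0 ≤ R.e` : `eG_le`.
-/

open Finset Filter

namespace Pool.Agent.LibFB63

open Pool.Agent.LibRG87 Pool.Agent.LibLG5 Pool.Agent.LibPL63 Pool.Agent.LibSC93 Pool.Agent.LibGL22

private theorem C5_factor {p : ℕ} (hp : p.Prime) : (1 : ℝ) ≤ 1 + 1 / ((p : ℝ) - 1) := by
  have h1 : (2 : ℝ) ≤ p := by exact_mod_cast hp.two_le
  have h2 : 0 ≤ 1 / ((p : ℝ) - 1) := div_nonneg zero_le_one (by linarith)
  linarith

private theorem C5_one_le {A : Finset ℕ} (hA : ∀ p ∈ A, p.Prime) : (1 : ℝ) ≤ ∏ p ∈ A, (1 + 1 / ((p : ℝ) - 1)) :=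
  calc (1 : ℝ) = ∏ _p ∈ A, (1 : ℝ) := Finset.prod_const_one.symm
    _ ≤ ∏ p ∈ A, (1 + 1 / ((p : ℝ) - 1)) :=
        Finset.prod_le_prod (fun _ _ => zero_le_one) fun p hp => C5_factor (hA p hp)

private theorem C5_prod_mono {A B : Finset ℕ} (hAB : A ⊆ B) (hB : ∀ p ∈ B, p.Prime) :
    ∏ p ∈ A, (1 + 1 / ((p : ℝ) - 1)) ≤ ∏ p ∈ B, (1 + 1 / ((p : ℝ) - 1)) := by
  rw [← Finset.prod_sdiff hAB]
  have h1 : (1 : ℝ) ≤ ∏ p ∈ B \ A, (1 + 1 / ((p : ℝ) - 1)) :=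
    C5_one_le fun p hp => hB p (Finset.sdiff_subset hp)
  have h2 : (0 : ℝ) ≤ ∏ p ∈ A, (1 + 1 / ((p : ℝ) - 1)) :=
    Finset.prod_nonneg fun p hp => zero_le_one.trans (C5_factor (hB p (hAB hp)))
  exact le_mul_of_one_le_left h2 h1

private theorem C5_VP_pos {z p1 k : ℕ} (hk : k < wf z) {h : Finset ℕ} (hh : h.card = k) : 0 < VP (P0 z p1) h := by
  unfold VP
  refine Finset.prod_pos fun p hp => ?_
  have hm := mem_P0.1 hp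
  have h1 : nuP h p ≤ k := by rw [← hh]; exact (nuP_le h hm.2.1.pos).2
  have h2 : (nuP h p : ℝ) < p := by exact_mod_cast lt_of_le_of_lt h1 (hk.trans hm.2.2.1)
  have h3 : (0 : ℝ) < p := by exact_mod_cast hm.2.1.pos
  have h4 : (nuP h p : ℝ) / p < 1 := by rw [div_lt_one h3]; exact h2
  linarith

theorem numC : ∃ C0 : ℕ, ∀ (R : Prm) (C Cq Cm : ℕ) (c cD Λ δ : ℝ) (Cx g g2 g3 : ℕ) (ε : ℝ), C0 ≤ Cx →
    ParV R C Cq Cm c cD Λ δ Cx g g2 g3 ε → ∀ᶠ z : ℕ in atTop, ∀ p1 : ℕ, p1.Prime → z ^ (R.q + 2) < p1 →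
    ∀ (c0 : ℕ) (h K : Finset ℕ), PosS z p1 c0 R.k (Λ * R.q) h K →
      NumC R Cq Λ δ z p1 h K (Cx * R.k1) := by
  obtain ⟨CU, hCU1, hCU⟩ := NT_S_upper
  refine ⟨CU, fun R C Cq Cm c cD Λ δ Cx g g2 g3 ε hC0 hp => ?_⟩
  obtain ⟨hq0, hk, hu, hq0u, hl1, hM, hk2, hk21, huk1, hk1q, -, -⟩ := prm_le hp.pg
  have hk1 : 1 ≤ R.k1 := hu.trans huk1
  filter_upwards [hCU R.k1 hk1, baseG hp.pg 1 one_pos, eventually_ge_atTop 3] with z hz hBz hz3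
  intro p1 hp1 hp1' c0 h K hpos
  have hB := hBz p1
  have hG := one_le_G hB
  have he := eG_le hp.pg
  have hCxR : (1 : ℝ) ≤ Cx := by exact_mod_cast hp.hCx
  have hk1R : (1 : ℝ) ≤ R.k1 := by exact_mod_cast hk1
  have hkR : (1 : ℝ) ≤ R.k := by exact_mod_cast hk
  have hB1 : (1 : ℝ) ≤ Cx * R.k1 := by nlinarith
  have hPGp : ∀ p ∈ PG R z p1, p.Prime := fun p hp' => (PG_mem hp').1
  have hPP : ∀ p ∈ PP z (z ^ R.k1), p.Prime := fun p hp' => by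
    unfold PP at hp'
    exact (Finset.mem_filter.1 hp').2
  have hPGsub : PG R z p1 ⊆ PP z (z ^ R.k1) := Finset.erase_subset _ _
  have hl1k1 : l1 R ≤ R.k1 := le_trans hl1 huk1
  have hPsPG : Ps R z p1 ⊆ PG R z p1 := by
    intro p hp'
    have h1 := mem_PL.1 hp'
    exact mem_PL.2 ⟨h1.1, h1.2.1, h1.2.2.1, h1.2.2.2.trans (Nat.pow_le_pow_right (by omega) hl1k1)⟩
  have hprod : ∏ p ∈ PG R z p1, (1 + 1 / ((p : ℝ) - 1)) ≤ Cx * R.k1 := by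
    refine (C5_prod_mono hPGsub hPP).trans (hz.trans ?_)
    exact mul_le_mul_of_nonneg_right (by exact_mod_cast hC0) (Nat.cast_nonneg _)
  have hGs1 : 1 ≤ Gs R z p1 := C5_one_le fun p hp' => hPGp p (hPsPG hp')
  have hGsB : Gs R z p1 ≤ Cx * R.k1 := (C5_prod_mono hPsPG hPGp).trans hprod
  have hwf : R.k < wf z := by
    have h1 : 4 * R.n + 4 ≤ wf z := hB.2.2.2.1
    have h2 : R.n = R.k + 1 + 2 * R.K := rfl
    omega
  have hVP : 0 < VP (P0 z p1) h := C5_VP_pos hwf hpos.1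
  have hDK : VP (P0 z p1) h ≤ DKG R z p1 h K := DKG_ge hp.pg hB h K
  have hqR : (R.q : ℝ) = 4 * R.k1 := by
    have h1 : R.q = 4 * R.k1 := by
      show 4 * R.M * R.u = 4 * (R.M * R.u)
      ring
    rw [h1]
    push_cast
    ring
  -- `k ≤ k1`, `Cx ≤ k1`
  have hku : R.k ≤ R.u := by
    have hD1 : 1 ≤ R.D := hp.pg.hD1
    have h1 : R.u = R.D * R.k * (R.I + 1) * R.q0 := rfl
    rw [h1]
    calc R.k = 1 * R.k * 1 * 1 := by ring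
      _ ≤ R.D * R.k * (R.I + 1) * R.q0 :=
          Nat.mul_le_mul (Nat.mul_le_mul (Nat.mul_le_mul hD1 le_rfl) (by omega)) hq0
  have hkk1 : (R.k : ℝ) ≤ R.k1 := by exact_mod_cast hku.trans huk1
  have hCxk1 : (Cx : ℝ) ≤ R.k1 := by
    have h1 := hp.hCx1
    have h2 := hp.hM80
    have h3 : R.M ≤ R.k1 := by
      show R.M ≤ R.M * R.u
      exact Nat.le_mul_of_pos_right _ (by omega)
    have h4 : Cx ≤ R.k1 := by omega
    exact_mod_cast h4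
  have hm1 : VP (P0 z p1) h / (Cx * R.k1) ≤ m1 R z p1 h K := by
    unfold m1
    have h1 : 1 ≤ G1G R z p1 ^ 2 := one_le_pow₀ hG.1
    have h2 : 1 ≤ G2G R z p1 ^ (R.k - 1) := one_le_pow₀ hG.2
    have h3 : VP (P0 z p1) h ≤ G1G R z p1 ^ 2 * (G2G R z p1 ^ (R.k - 1) * DKG R z p1 h K) := by
      have h4 : 0 < DKG R z p1 h K := lt_of_lt_of_le hVP hDK
      have h5 : DKG R z p1 h K ≤ G2G R z p1 ^ (R.k - 1) * DKG R z p1 h K := le_mul_of_one_le_left h4.le h2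
      have h6 : G2G R z p1 ^ (R.k - 1) * DKG R z p1 h K ≤
          G1G R z p1 ^ 2 * (G2G R z p1 ^ (R.k - 1) * DKG R z p1 h K) :=
        le_mul_of_one_le_left (h4.le.trans h5) h1
      exact (hDK.trans h5).trans h6
    exact div_le_div₀ (hVP.le.trans h3) h3 (by linarith) hGsB
  have herr : 4 * ((Cx : ℝ) * R.k1) ^ 2 * R.k * er R z p1 Cq Λ h ≤ δ * m1 R z p1 h K := by
    have h1 : 4 * ((Cx : ℝ) * R.k1) ^ 2 * R.k * (R.q ^ 6 * R.e Cq Λ) ≤ δ / (Cx * R.k1) := by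
      rw [le_div_iff₀ (by linarith)]
      refine le_trans ?_ hp.eps3
      have h2 : (4 : ℝ) * (Cx : ℝ) ^ 2 * (R.k1 : ℝ) ^ 3 * R.k ≤ (R.q : ℝ) ^ 6 := by
        have h3 : (Cx : ℝ) ^ 2 ≤ (R.k1 : ℝ) ^ 2 := pow_le_pow_left₀ (by linarith) hCxk1 2
        calc (4 : ℝ) * (Cx : ℝ) ^ 2 * (R.k1 : ℝ) ^ 3 * R.k ≤ 4 * (R.k1 : ℝ) ^ 2 * (R.k1 : ℝ) ^ 3 * R.k1 := by
              gcongr
          _ = 4 * (R.k1 : ℝ) ^ 6 := by ring
          _ ≤ 4096 * (R.k1 : ℝ) ^ 6 := by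
              have : (0 : ℝ) ≤ (R.k1 : ℝ) ^ 6 := by positivity
              linarith
          _ = (R.q : ℝ) ^ 6 := by rw [hqR]; ring
      have h4 : (0 : ℝ) ≤ Cx * R.q ^ 6 * R.e Cq Λ := by
        have := he.1
        positivity
      calc 4 * ((Cx : ℝ) * R.k1) ^ 2 * R.k * (R.q ^ 6 * R.e Cq Λ) * (Cx * R.k1)
          = (4 * (Cx : ℝ) ^ 2 * (R.k1 : ℝ) ^ 3 * R.k) * (Cx * R.q ^ 6 * R.e Cq Λ) := by ring
        _ ≤ (R.q : ℝ) ^ 6 * (Cx * R.q ^ 6 * R.e Cq Λ) := mul_le_mul_of_nonneg_right h2 h4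
        _ = Cx * R.q ^ 12 * R.e Cq Λ := by ring
    have h5 : er R z p1 Cq Λ h = R.q ^ 6 * R.e Cq Λ * VP (P0 z p1) h := rfl
    rw [h5]
    calc 4 * ((Cx : ℝ) * R.k1) ^ 2 * R.k * (R.q ^ 6 * R.e Cq Λ * VP (P0 z p1) h)
        = 4 * ((Cx : ℝ) * R.k1) ^ 2 * R.k * (R.q ^ 6 * R.e Cq Λ) * VP (P0 z p1) h := by ring
      _ ≤ δ / (Cx * R.k1) * VP (P0 z p1) h := mul_le_mul_of_nonneg_right h1 hVP.le
      _ = δ * (VP (P0 z p1) h / (Cx * R.k1)) := by ring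
      _ ≤ δ * m1 R z p1 h K := mul_le_mul_of_nonneg_left hm1 hp.pg.hδ.le
  refine ⟨hz3, hp.pg.hδ, hp.pg.hδ1, ?_, hpos.1, hk, ?_, hG.1, hG.2, hGs1, lt_of_lt_of_le hVP hDK, ?_, hB1, hprod, herr⟩
  · intro a ha
    have h1 := (hpos.2.2.1 a (Finset.mem_union_left _ ha)).1
    have h2 : Real.log z ^ 2 + 1 ≤ z := hB.2.2.1
    have h3 : (a : ℝ) < z := by linarith
    exact_mod_cast h3
  · unfold NW
    have h1 : (0 : ℝ) < Wp z p1 := by exact_mod_cast Wp_pos z p1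
    have h2 : (0 : ℝ) < z := by
      have : (3 : ℝ) ≤ z := by exact_mod_cast hz3
      linarith
    positivity
  · unfold er
    have := he.1
    have := hVP.le
    positivity

end Pool.Agent.LibFB63
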