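import Pool.Agent.LibFB63.C0

/-!
Row C6 (SHORT/MEDIUM, the exponents and the number of large prime factors). Elementary.

`expo`: from `ParV` and `prm_le` (LibGL22/B1; gives `1 ≤ u`, `q0 a^I ≤ u`): `l1 = q0 a^I`, `q = 4 M u`, `k1 = M u`, `j0 = M/g u`, `l2 = M/g3 u`, `jr = M/8 u`, `dl = M/g2 u`; `g ∣ M` etc. (`Nat.mul_div_cancel'`); `100 (g + g3) ≤ M` gives `M/g3 ≥ 100`, `M/g ≥ 100`;
`4 g ≤ g2`; `Cx g2 ≤ δ g3 ≤ g3` (`δ ≤ 1/8` from `pg`); `4 ≤ Cx ≤ g`; `g ≤ g3` gives `M/g3 ≤ M/g` (`Nat.div_le_div_left`), `4 j0 ≤ k1`.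
`big_card`: if `m + 1 ≤ |S|`: the product of the primes in `S` divides `v` (`Finset.prod_primes_dvd`), and it is `> (z^l)^|S| ≥ z^(l (m+1)) ≥ z^(t+1) ≥ v`.
-/

open Finset Filter

namespace Pool.Agent.LibFB63

open Pool.Agent.LibRG87 Pool.Agent.LibLG5 Pool.Agent.LibPL63 Pool.Agent.LibSC93 Pool.Agent.LibGL22

/-- the exponents -/
theorem expo {R : Prm} {C Cq Cm : ℕ} {c cD Λ δ : ℝ} {Cx g g2 g3 : ℕ} {ε : ℝ} (hp : ParV R C Cq Cm c cD Λ δ Cx g g2 g3 ε)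
    (hCx : 4 ≤ Cx) : 1 ≤ R.u ∧ l1 R ≤ R.u ∧ R.q = 4 * R.k1 ∧ g3 * l2 R g3 = R.k1 ∧ g * j0 R g = R.k1 ∧ 8 * jr R = R.k1 ∧
      g2 * dl R g2 = R.k1 ∧ 100 * R.u ≤ l2 R g3 ∧ l2 R g3 ≤ j0 R g ∧ 4 * j0 R g ≤ R.k1 ∧ 4 ≤ g ∧ g ≤ g2 ∧ g2 ≤ g3 := by
  obtain ⟨-, -, hu, -, hl1, hM, -, -, -, -, -, -⟩ := prm_le hp.pg
  have hg4 : 4 ≤ g := hCx.trans hp.hCx1
  have hg2 : g ≤ g2 := by have := hp.hg2; omega
  have hg3 : g2 ≤ g3 := by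
    have h1 := hp.hδ3
    have h2 := hp.pg.hδ1
    have h3 : (1 : ℝ) ≤ Cx := by exact_mod_cast hp.hCx
    have h4 : (0 : ℝ) ≤ g2 := Nat.cast_nonneg g2
    have h5 : (0 : ℝ) ≤ g3 := Nat.cast_nonneg g3
    have h6 : (g2 : ℝ) ≤ g3 := by nlinarith
    exact_mod_cast h6
  have hMg : g * (R.M / g) = R.M := Nat.mul_div_cancel' hp.hMg
  have hMg2 : g2 * (R.M / g2) = R.M := Nat.mul_div_cancel' hp.hMg2
  have hMg3 : g3 * (R.M / g3) = R.M := Nat.mul_div_cancel' hp.hMg3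
  have hM8 : 8 * (R.M / 8) = R.M := Nat.mul_div_cancel' hp.hM8
  have h100 : 100 ≤ R.M / g3 := by
    rw [Nat.le_div_iff_mul_le (by omega)]
    have := hp.hM80
    omega
  refine ⟨hu, hl1, ?_, ?_, ?_, ?_, ?_, ?_, ?_, ?_, hg4, hg2, hg3⟩
  · show 4 * R.M * R.u = 4 * (R.M * R.u)
    ring
  · show g3 * (R.M / g3 * R.u) = R.M * R.u
    rw [← mul_assoc, hMg3]
  · show g * (R.M / g * R.u) = R.M * R.u
    rw [← mul_assoc, hMg]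
  · show 8 * (R.M / 8 * R.u) = R.M * R.u
    rw [← mul_assoc, hM8]
  · show g2 * (R.M / g2 * R.u) = R.M * R.u
    rw [← mul_assoc, hMg2]
  · show 100 * R.u ≤ R.M / g3 * R.u
    exact Nat.mul_le_mul_right _ h100
  · show R.M / g3 * R.u ≤ R.M / g * R.u
    exact Nat.mul_le_mul_right _ (Nat.div_le_div_left (hg2.trans hg3) (by omega))
  · show 4 * (R.M / g * R.u) ≤ R.M * R.u
    rw [← mul_assoc]
    refine Nat.mul_le_mul_right _ ?_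
    calc 4 * (R.M / g) ≤ g * (R.M / g) := Nat.mul_le_mul_right _ hg4
      _ = R.M := hMg

theorem big_card {l m : ℕ} (hl : 1 ≤ l) {z v t : ℕ} (hz : 2 ≤ z) (hv : 1 ≤ v) (hv' : v ≤ z ^ (t + 1)) (ht : t ≤ m * l)
    {S : Finset ℕ} (hS : ∀ p ∈ S, p.Prime ∧ p ∣ v ∧ z ^ l < p) : S.card ≤ m := by
  by_contra hcon
  have hcard : m + 1 ≤ S.card := by omega
  have h1 : ∏ p ∈ S, p ∣ v := Finset.prod_primes_dvd v (fun p hp => (hS p hp).1.prime) (fun p hp => (hS p hp).2.1)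
  have h2 : ∏ p ∈ S, p ≤ v := Nat.le_of_dvd hv h1
  have h3 : (z ^ l + 1) ^ S.card ≤ ∏ p ∈ S, p := by
    rw [← Finset.prod_const]
    exact Finset.prod_le_prod' fun p hp => (hS p hp).2.2
  have h4 : (z ^ l + 1) ^ (m + 1) ≤ (z ^ l + 1) ^ S.card := Nat.pow_le_pow_right (by omega) hcard
  have h5 : (z ^ l) ^ (m + 1) < (z ^ l + 1) ^ (m + 1) := Nat.pow_lt_pow_left (by omega) (by omega)
  have h6 : z ^ (t + 1) ≤ (z ^ l) ^ (m + 1) := by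
    rw [← pow_mul]
    refine Nat.pow_le_pow_right (by omega) ?_
    have h7 : l * (m + 1) = m * l + l := by ring
    omega
  omega

end Pool.Agent.LibFB63
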