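import Pool.Agent.LibFB63.C6

/-!
Row C7 (the instance `E = {1}`, `Q = Pb`, level `κ`).
-/

open Finset Filter

namespace Pool.Agent.LibFB63

open Pool.Agent.LibRG87 Pool.Agent.LibLG5 Pool.Agent.LibPL63 Pool.Agent.LibSC93 Pool.Agent.LibGL22

private theorem C7_mem {z k p1 p : ℕ} :
    p ∈ PL z k p1 ↔ p ≠ p1 ∧ (z < p ∧ p ≤ z ^ k) ∧ p.Prime := by
  unfold PL PP
  rw [Finset.mem_erase, Finset.mem_filter, Finset.mem_Ioc]

theorem PL_mono {z p1 k k' : ℕ} (hz : 1 ≤ z) (h : k ≤ k') : PL z k p1 ⊆ PL z k' p1 := by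
  intro p hp
  rw [C7_mem] at hp ⊢
  exact ⟨hp.1, ⟨hp.2.1.1, hp.2.1.2.trans (Nat.pow_le_pow_right hz h)⟩, hp.2.2⟩

/-- a large prime which is not in `PL z l p1` is `> z^l` -/
theorem mem_PL_or {z p1 k l p : ℕ} (hp : p ∈ PL z k p1) (hl : p ∉ PL z l p1) : z ^ l < p := by
  by_contra hcon
  rw [C7_mem] at hp
  exact hl (C7_mem.2 ⟨hp.1, ⟨hp.2.1.1, not_lt.1 hcon⟩, hp.2.2⟩)

theorem okE1 {R : Prm} {C Cq Cm : ℕ} {c cD Λ δ : ℝ} {Cx g g2 g3 : ℕ} {ε : ℝ} (hp : ParV R C Cq Cm c cD Λ δ Cx g g2 g3 ε)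
    (hCx : 4 ≤ Cx) {z p1 κ j : ℕ} (hz : 3 ≤ z) (hl : LevP R g g2 g3 δ z p1 κ j) :
    OKE R g3 δ z p1 {1} (Pb R z p1) κ := by
  obtain ⟨hu, hl1, hq, hg3, hg, hjr, hdl, hl2, hl2j, hj0, h4g, hgg2, hg2g3⟩ := expo hp hCx
  have hz1 : 1 ≤ z := by omega
  have hκ := hl.hκ
  have hPbPG : Pb R z p1 ⊆ PL z R.k1 p1 := Finset.sdiff_subset
  have hprime : ∀ p ∈ Pb R z p1, p.Prime := fun p hp' => (C7_mem.1 (hPbPG hp')).2.2
  refine ⟨Finset.singleton_nonempty 1, ?_, ?_, Finset.Subset.refl _, ?_, ?_, ?_, ?_, hl.br1, ?_⟩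
  · intro e he
    exact Or.inl (Finset.mem_singleton.1 he)
  · intro e he p hpQ hdvd
    rw [Finset.mem_singleton.1 he] at hdvd
    exact (hprime p hpQ).one_lt.ne' (Nat.dvd_one.1 hdvd)
  · intro p hpP
    unfold Pb
    rw [Finset.mem_sdiff] at hpP ⊢
    refine ⟨?_, hpP.2⟩
    have h1 : p ∈ PL z (l2 R g3) p1 := hpP.1
    have h2 : l2 R g3 ≤ R.k1 := by omega
    exact PL_mono hz1 h2 h1
  · exact PL_mono hz1 (by omega)
  · intro e he
    rw [Finset.mem_singleton.1 he, one_mul]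
    exact Nat.pow_le_pow_right hz1 (by omega)
  · intro e he e' he'
    rw [Finset.mem_singleton.1 he, Finset.mem_singleton.1 he', one_mul, one_mul]
    exact Nat.pow_le_pow_right hz1 (by omega)
  · intro v hv hv' hP2
    have hS : ∀ p ∈ (Pb R z p1).filter (fun p => p ∣ v), p.Prime ∧ p ∣ v ∧ z ^ (l2 R g3) < p := by
      intro p hpS
      rw [Finset.mem_filter] at hpS
      refine ⟨hprime p hpS.1, hpS.2, mem_PL_or (hPbPG hpS.1) fun h => ?_⟩
      exact hP2 p h hpS.2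
    have hcard : ((Pb R z p1).filter (fun p => p ∣ v)).card ≤ 4 * g3 := by
      refine big_card (l := l2 R g3) (m := 4 * g3) (t := R.q) (by omega) (by omega : 2 ≤ z) hv hv' ?_ hS
      rw [mul_assoc, hg3, hq]
    have habs := Lc_abs_le (Pb R z p1) hprime hz1 κ v
    unfold HE
    rw [Finset.filter_true_of_mem (by
      intro x hx
      rw [Finset.mem_singleton.1 hx]
      exact one_dvd _), Finset.card_singleton, Nat.cast_one, one_mul]
    have h1 : Lc (Pb R z p1) (cSe (Pb R z p1) z κ) v ^ 2 ≤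
        ((2 : ℝ) ^ ((Pb R z p1).filter fun p => p ∣ v).card) ^ 2 := by
      rw [← sq_abs]
      exact pow_le_pow_left₀ (abs_nonneg _) habs 2
    have h2 : ((2 : ℝ) ^ ((Pb R z p1).filter fun p => p ∣ v).card) ^ 2 =
        4 ^ ((Pb R z p1).filter fun p => p ∣ v).card := by
      rw [← pow_mul, mul_comm, pow_mul]
      norm_num
    rw [h2] at h1
    refine h1.trans ?_
    exact pow_le_pow_right₀ (by norm_num) (by omega)

end Pool.Agent.LibFB63
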