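import Pool.Agent.LibFB63.C7

/-!
Row C8 (the instance `E = Pc`, `Q = Q2`, level `j`). Exponents by `expo`. `pr`: `e ∈ Pc`: `e ∈ PL z (k1 - j0) p1 ⊆ PG`, `z^(k1 - 2 j0) < e` (`mem_PL_or`), `k1 - 2 j0 ≥ 2 j0 ≥ l1, 1`. `cop`: `p ∈ Q2` has `p ≤ z^(2 j0) ≤ z^(k1 - 2 j0) < e`, two different primes.
`QPb`: `Q2 = PL z (2 j0) p1 \ Ps ⊆ PG \ Ps`; `P2Q`: `l2 ≤ 2 j0`; `lev1`: `e ≤ z^(k1 - j0)`, `2 j ≤ 4 jr`, `8 jr = k1`: `(k1 - j0) + k1/2 + l2 + 30 u ≤ 4 k1`; `lev2`: `2 (k1 - j0) + 4 j + 30 u ≤ 2 k1 + k1 + 30 u ≤ 4 k1`; `br`: `br2`.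
`bd`: `HE Pc Q2 z j v = a Lc² ≤ a 4^b ≤ 4^(a + b)`, `a = #{p ∈ Pc : p ∣ v}`, `b = #{p ∈ Q2 : p ∣ v}` (`Lc_abs_le`); the two sets are disjoint and consist of primes `> z^l2` dividing `v` (those of `Q2` are not in `P2`: `mem_PL_or`; those of `Pc` are `> z^(k1 - 2 j0) ≥ z^l2`): `a + b ≤ 4 g3` by `big_card`
(`Finset.card_union_of_disjoint`).
-/

open Finset Filter

namespace Pool.Agent.LibFB63

open Pool.Agent.LibRG87 Pool.Agent.LibLG5 Pool.Agent.LibPL63 Pool.Agent.LibSC93 Pool.Agent.LibGL22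

private theorem C8_PL {z k p1 p : ℕ} (h : p ∈ PL z k p1) : p.Prime ∧ z < p ∧ p ≤ z ^ k := by
  unfold PL PP at h
  have h1 := Finset.mem_filter.1 (Finset.mem_of_mem_erase h)
  have h2 := Finset.mem_Ioc.1 h1.1
  exact ⟨h1.2, h2.1, h2.2⟩

theorem okE2 {R : Prm} {C Cq Cm : ℕ} {c cD Λ δ : ℝ} {Cx g g2 g3 : ℕ} {ε : ℝ} (hp : ParV R C Cq Cm c cD Λ δ Cx g g2 g3 ε)
    (hCx : 4 ≤ Cx) {z p1 κ j : ℕ} (hz : 3 ≤ z) (hne : (Pc R z p1 g).Nonempty) (hl : LevP R g g2 g3 δ z p1 κ j) :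
    OKE R g3 δ z p1 (Pc R z p1 g) (Q2 R z p1 g) j := by
  obtain ⟨hu, hl1, hq, hg3, hj0, hjr, _, hul, hlj, hjk, _, _, _⟩ := expo hp hCx
  have hz1 : 1 ≤ z := by omega
  have hl1' : l1 R ≤ R.k1 - 2 * j0 R g := by omega
  have hPc : ∀ e ∈ Pc R z p1 g, e.Prime ∧ z < e ∧ e ≤ z ^ (R.k1 - j0 R g) ∧
      z ^ (R.k1 - 2 * j0 R g) < e ∧ e ∈ PG R z p1 := by
    intro e he
    have h1 := Finset.mem_sdiff.1 he
    have h2 := C8_PL h1.1
    exact ⟨h2.1, h2.2.1, h2.2.2, mem_PL_or h1.1 h1.2,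
      PL_mono hz1 (Nat.sub_le R.k1 (j0 R g)) h1.1⟩
  have hQ2 : ∀ p ∈ Q2 R z p1 g, p.Prime ∧ z < p ∧ p ≤ z ^ (2 * j0 R g) := by
    intro p hp'
    exact C8_PL (Finset.mem_sdiff.1 hp').1
  have hsep : ∀ e ∈ Pc R z p1 g, ∀ p ∈ Q2 R z p1 g, p < e := by
    intro e he p hp'
    have h1 : z ^ (2 * j0 R g) ≤ z ^ (R.k1 - 2 * j0 R g) := Nat.pow_le_pow_right hz1 (by omega)
    exact lt_of_le_of_lt ((hQ2 p hp').2.2.trans h1) (hPc e he).2.2.2.1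
  refine ⟨hne, ?_, ?_, ?_, ?_, ?_, ?_, ?_, hl.br2, ?_⟩
  · intro e he
    have h1 := hPc e he
    refine Or.inr ⟨h1.1, ?_, h1.2.1, h1.2.2.2.2⟩
    exact lt_of_le_of_lt (Nat.pow_le_pow_right hz1 hl1') h1.2.2.2.1
  · intro e he p hp' hdvd
    have h1 := (Nat.prime_dvd_prime_iff_eq (hQ2 p hp').1 (hPc e he).1).1 hdvd
    exact absurd h1 (ne_of_lt (hsep e he p hp'))
  · have h1 : PL z (2 * j0 R g) p1 ⊆ PG R z p1 := PL_mono hz1 (by omega)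
    exact Finset.sdiff_subset_sdiff h1 (Finset.Subset.refl _)
  · have h1 : P2 R z p1 g3 ⊆ PL z (2 * j0 R g) p1 := PL_mono hz1 (by omega)
    exact Finset.sdiff_subset_sdiff h1 (Finset.Subset.refl _)
  · exact PL_mono hz1 (by omega)
  · intro e he
    have h1 := (hPc e he).2.2.1
    have hj := hl.hj'
    calc e * z ^ (2 * j + l2 R g3 + 30 * R.u)
        ≤ z ^ (R.k1 - j0 R g) * z ^ (2 * j + l2 R g3 + 30 * R.u) := Nat.mul_le_mul_right _ h1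
      _ = z ^ ((R.k1 - j0 R g) + (2 * j + l2 R g3 + 30 * R.u)) := by rw [← pow_add]
      _ ≤ z ^ R.q := Nat.pow_le_pow_right hz1 (by omega)
  · intro e he e' he'
    have h1 := (hPc e he).2.2.1
    have h2 := (hPc e' he').2.2.1
    have hj := hl.hj'
    calc e * e' * z ^ (4 * j + 30 * R.u)
        ≤ z ^ (R.k1 - j0 R g) * z ^ (R.k1 - j0 R g) * z ^ (4 * j + 30 * R.u) :=
          Nat.mul_le_mul_right _ (Nat.mul_le_mul h1 h2)
      _ = z ^ ((R.k1 - j0 R g) + (R.k1 - j0 R g) + (4 * j + 30 * R.u)) := by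
          rw [← pow_add, ← pow_add]
      _ ≤ z ^ R.q := Nat.pow_le_pow_right hz1 (by omega)
  · intro v hv hv' hP2
    obtain ⟨a, ha⟩ : ∃ a, a = ((Pc R z p1 g).filter fun e => e ∣ v).card := ⟨_, rfl⟩
    obtain ⟨b, hb⟩ : ∃ b, b = ((Q2 R z p1 g).filter fun e => e ∣ v).card := ⟨_, rfl⟩
    have hab : a + b ≤ 4 * g3 := by
      have hdisj : Disjoint ((Pc R z p1 g).filter fun e => e ∣ v)
          ((Q2 R z p1 g).filter fun e => e ∣ v) := by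
        rw [Finset.disjoint_left]
        intro x hx hx'
        exact absurd (hsep x (Finset.mem_filter.1 hx).1 x (Finset.mem_filter.1 hx').1)
          (lt_irrefl x)
      rw [ha, hb, ← Finset.card_union_of_disjoint hdisj]
      refine big_card (l := l2 R g3) (by omega) (z := z) (v := v) (t := R.q) (by omega) hv hv' ?_ ?_
      · have h1 : 4 * g3 * l2 R g3 = 4 * (g3 * l2 R g3) := by ring
        rw [h1, hg3, hq]
      · intro p hp'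
        rcases Finset.mem_union.1 hp' with h1 | h1
        · rw [Finset.mem_filter] at h1
          have h2 := hPc p h1.1
          refine ⟨h2.1, h1.2, lt_of_le_of_lt (Nat.pow_le_pow_right hz1 ?_) h2.2.2.2.1⟩
          omega
        · rw [Finset.mem_filter] at h1
          have h2 := hQ2 p h1.1
          refine ⟨h2.1, h1.2, mem_PL_or (Finset.mem_sdiff.1 h1.1).1 ?_⟩
          intro h3
          exact hP2 p h3 h1.2
    have hL := Lc_abs_le (Q2 R z p1 g) (fun p hp' => (hQ2 p hp').1) hz1 j v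
    rw [← hb] at hL
    have hL2 : Lc (Q2 R z p1 g) (cSe (Q2 R z p1 g) z j) v ^ 2 ≤ 4 ^ b := by
      have h1 : Lc (Q2 R z p1 g) (cSe (Q2 R z p1 g) z j) v ^ 2 ≤ ((2 : ℝ) ^ b) ^ 2 := by
        rw [← sq_abs]
        exact pow_le_pow_left₀ (abs_nonneg _) hL 2
      have h2 : ((2 : ℝ) ^ b) ^ 2 = 4 ^ b := by
        rw [← pow_mul, mul_comm, pow_mul]
        norm_num
      rw [h2] at h1
      exact h1
    have ha4 : (a : ℝ) ≤ 4 ^ a := by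
      have h1 : a ≤ 4 ^ a := (Nat.lt_pow_self (by norm_num)).le
      exact_mod_cast h1
    unfold HE
    rw [← ha]
    calc (a : ℝ) * Lc (Q2 R z p1 g) (cSe (Q2 R z p1 g) z j) v ^ 2 ≤ 4 ^ a * 4 ^ b :=
          mul_le_mul ha4 hL2 (sq_nonneg _) (by positivity)
      _ = 4 ^ (a + b) := by rw [pow_add]
      _ ≤ 4 ^ (4 * g3 + 1) := pow_le_pow_right₀ (by norm_num) (by omega)

end Pool.Agent.LibFB63
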