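import Pool.Agent.LibFB63.C4b
import Pool.Agent.LibFB63.C5
import Pool.Agent.LibFB63.C8

/-!
Block C (owner helper37): concentration. Assembly of the rows C1a - C8.
-/

open Finset Filter

namespace Pool.Agent.LibFB63

open Pool.Agent.LibRG87 Pool.Agent.LibLG5 Pool.Agent.LibPL63 Pool.Agent.LibSC93 Pool.Agent.LibGL22

private theorem q_pos {R : Prm} {C Cq Cm : ℕ} {c cD Λ δ : ℝ} {Cx g g2 g3 : ℕ} {ε : ℝ}
    (hp : ParV R C Cq Cm c cD Λ δ Cx g g2 g3 ε) (hCx : 4 ≤ Cx) : 1 ≤ R.q := by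
  obtain ⟨hu, _, hq, _, _, _, _, hl, hl', hj, _⟩ := expo hp hCx
  omega

theorem conc1 : ∃ C0 : ℕ, ∀ (R : Prm) (C Cq Cm : ℕ) (c cD Λ δ : ℝ) (Cx g g2 g3 : ℕ) (ε : ℝ), C0 ≤ Cx →
    ParV R C Cq Cm c cD Λ δ Cx g g2 g3 ε → ∀ᶠ z : ℕ in atTop, ∀ p1 : ℕ, p1.Prime → z ^ (R.q + 2) < p1 →
    ∀ κ j : ℕ, LevP R g g2 g3 δ z p1 κ j → ∀ (c0 : ℕ) (h K : Finset ℕ), PosS z p1 c0 R.k (Λ * R.q) h K →
      U1 R Cq Λ δ z p1 c0 h K → L1 R Cq Λ δ z p1 c0 h K → U2 R Cq Λ δ z p1 c0 h K →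
      ∑ n ∈ sN (z ^ R.q) (Wp z p1) c0, PsG R z p1 h K n ^ 2 ≤ (1 + δ) * VV R z p1 h K →
      ∀ S ⊆ h, (4 : ℝ) ^ (4 * g3 + 5) ≤ δ * (S.card * t1v R z p1 κ) →
        ∑ n ∈ sN (z ^ R.q) (Wp z p1) c0, PsG R z p1 h K n ^ 2 *
            (∑ a ∈ S, X1 R z p1 g3 κ a n - S.card * t1v R z p1 κ) ^ 2 ≤
          20 * δ * (S.card * t1v R z p1 κ) ^ 2 * VV R z p1 h K := by
  obtain ⟨C0, hC0⟩ := numC
  refine ⟨max C0 4, fun R C Cq Cm c cD Λ δ Cx g g2 g3 ε hCx hp => ?_⟩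
  have h4 : 4 ≤ Cx := (le_max_right _ _).trans hCx
  filter_upwards [hC0 R C Cq Cm c cD Λ δ Cx g g2 g3 ε ((le_max_left _ _).trans hCx) hp]
    with z hz p1 hp1 hp1' κ j hlev c0 h K hpos hU hL hU2 h1 S hS hbig
  have hN := hz p1 hp1 hp1' c0 h K hpos
  have hE := okE1 hp h4 hN.z3 hlev
  rw [t1v_eq] at hbig ⊢
  simp only [X1_eq]
  exact concE hE hN (q_pos hp h4) hU hL hU2 h1 hS hbig

theorem conc2 : ∃ C0 : ℕ, ∀ (R : Prm) (C Cq Cm : ℕ) (c cD Λ δ : ℝ) (Cx g g2 g3 : ℕ) (ε : ℝ), C0 ≤ Cx →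
    ParV R C Cq Cm c cD Λ δ Cx g g2 g3 ε → ∀ᶠ z : ℕ in atTop, ∀ p1 : ℕ, p1.Prime → z ^ (R.q + 2) < p1 →
    ∀ κ j : ℕ, LevP R g g2 g3 δ z p1 κ j → ∀ (c0 : ℕ) (h K : Finset ℕ), PosS z p1 c0 R.k (Λ * R.q) h K →
      U1 R Cq Λ δ z p1 c0 h K → L1 R Cq Λ δ z p1 c0 h K → U2 R Cq Λ δ z p1 c0 h K →
      ∑ n ∈ sN (z ^ R.q) (Wp z p1) c0, PsG R z p1 h K n ^ 2 ≤ (1 + δ) * VV R z p1 h K →
      ∀ S ⊆ h, (4 : ℝ) ^ (4 * g3 + 5) ≤ δ * (S.card * t2v R z p1 g j) →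
        ∑ n ∈ sN (z ^ R.q) (Wp z p1) c0, PsG R z p1 h K n ^ 2 *
            (∑ a ∈ S, X2 R z p1 g g3 j a n - S.card * t2v R z p1 g j) ^ 2 ≤
          20 * δ * (S.card * t2v R z p1 g j) ^ 2 * VV R z p1 h K := by
  obtain ⟨C0, hC0⟩ := numC
  refine ⟨max C0 4, fun R C Cq Cm c cD Λ δ Cx g g2 g3 ε hCx hp => ?_⟩
  have h4 : 4 ≤ Cx := (le_max_right _ _).trans hCx
  filter_upwards [hC0 R C Cq Cm c cD Λ δ Cx g g2 g3 ε ((le_max_left _ _).trans hCx) hp]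
    with z hz p1 hp1 hp1' κ j hlev c0 h K hpos hU hL hU2 h1 S hS hbig
  have hN := hz p1 hp1 hp1' c0 h K hpos
  have hne : (Pc R z p1 g).Nonempty := by
    rw [Finset.nonempty_iff_ne_empty]
    intro h0
    have h5 : t2v R z p1 g j = 0 := by
      unfold t2v
      rw [h0]
      simp
    rw [h5] at hbig
    have h6 : (0 : ℝ) < (4 : ℝ) ^ (4 * g3 + 5) := by positivity
    simp only [mul_zero] at hbig
    linarith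
  have hE := okE2 hp h4 hN.z3 hne hlev
  rw [t2v_eq] at hbig ⊢
  simp only [X2_eq]
  exact concE hE hN (q_pos hp h4) hU hL hU2 h1 hS hbig

end Pool.Agent.LibFB63
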