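import Pool.Agent.LibGL22.B1
import Pool.Agent.LibGL22T.Defs

/-!
LibFB63 (MP_ff81b6_nt, GapLaws v3: the probability that a bin is occupied is `> 1/4` by an absolute constant): definitions and interfaces.

Everything as in LibGL22 (`N = z^q`, `q = 4 k1`, `k1 = M u`, uniform average over `n ∈ (N, 2N]`, `n ≡ c0` modulo `Wp z p1`, weight `PsG^2`); `p1` is a prime `> z^(q+2)` (a dummy, it divides nothing).
New exponents: `l1 = q0 a^I` (all primes of the weight are `≤ z^l1`), `j0 = k1/g`, `dl = k1/g2`, `l2 = k1/g3`, `jr = k1/8`.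
Sets of primes: `Ps` = `(z, z^l1]`, `Pb` = `(z^l1, z^k1]`, `P2` = `(z, z^l2]`, `Q2` = `(z^l1, z^(2 j0)]`, `Pc` = `(z^(k1 - 2 j0), z^(k1 - j0)]`.
-/

open Finset Filter

namespace Pool.Agent.LibFB63

open Pool.Agent.LibRG87 Pool.Agent.LibLG5 Pool.Agent.LibPL63 Pool.Agent.LibSC93 Pool.Agent.LibGL22

section exponents

variable (R : Prm) (g : ℕ)

/-- all primes of the weight are `≤ z^l1` -/
def l1 : ℕ := R.q0 * R.a ^ R.I

/-- `k1/g` -/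
def j0 : ℕ := R.M / g * R.u

/-- `k1/g2`, the freedom in the level of `Λ1` -/
def dl (g2 : ℕ) : ℕ := R.M / g2 * R.u

/-- `k1/g3`: `X1`, `X2` contain the indicator of the numbers without prime factor `≤ z^l2` -/
def l2 (g3 : ℕ) : ℕ := R.M / g3 * R.u

/-- `k1/8` -/
def jr : ℕ := R.M / 8 * R.u

end exponents

section sets

variable (R : Prm) (z p1 : ℕ)

/-- the primes used by the weight -/
def Ps : Finset ℕ := PL z (l1 R) p1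

/-- the large primes -/
def Pb : Finset ℕ := PG R z p1 \ Ps R z p1

/-- the primes `≤ z^l2` -/
def P2 (g3 : ℕ) : Finset ℕ := PL z (l2 R g3) p1

/-- the primes in `(z^l1, z^(2 j0)]` -/
def Q2 (g : ℕ) : Finset ℕ := PL z (2 * j0 R g) p1 \ Ps R z p1

/-- the primes in `(z^(k1 - 2 j0), z^(k1 - j0)]` -/
def Pc (g : ℕ) : Finset ℕ := PL z (R.k1 - j0 R g) p1 \ PL z (R.k1 - 2 * j0 R g) p1

/-- number of the prime factors of `v` in `Pc` -/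
def np (g v : ℕ) : ℕ := ((Pc R z p1 g).filter fun p => p ∣ v).card

end sets

/-! ### functions of one integer -/

/-- the function of `v` with coefficients `c` on the subsets of `Q` -/
noncomputable def Lc (Q : Finset ℕ) (c : Finset ℕ → ℝ) (v : ℕ) : ℝ := ∑ A ∈ Q.powerset, c A * ∏ p ∈ A, psi p v

/-- its mean square -/
noncomputable def nrm (Q : Finset ℕ) (c : Finset ℕ → ℝ) : ℝ := ∑ A ∈ Q.powerset, c A ^ 2 / ph A

open scoped Classical in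
/-- Selberg's coefficients of level `z^j` -/
noncomputable def cSe (Q : Finset ℕ) (z j : ℕ) (A : Finset ℕ) : ℝ := if rr A ≤ (z : ℝ) ^ j then 1 / Gn Q z j else 0

open scoped Classical in
/-- Selberg's coefficients for the multiples of the prime `q ∈ Q` -/
noncomputable def cBr (Q : Finset ℕ) (z j q : ℕ) (A : Finset ℕ) : ℝ :=
  if (z : ℝ) ^ j < rr A * q ∧ rr A ≤ (z : ℝ) ^ j then 1 / Gn Q z j else 0

open scoped Classical in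
/-- the tail sum: `nrm (Q.erase q) (cBr Q z j q) = tl Q z j q/(Gn Q z j)²` -/
noncomputable def tl (Q : Finset ℕ) (z j q : ℕ) : ℝ :=
  ∑ A ∈ (Q.erase q).powerset with ((z : ℝ) ^ j < rr A * q ∧ rr A ≤ (z : ℝ) ^ j), 1 / ph A

section

variable (R : Prm) (z p1 : ℕ)

/-- Selberg's function of the large primes, level `z^κ` -/
noncomputable def La1 (κ v : ℕ) : ℝ := Lc (Pb R z p1) (cSe (Pb R z p1) z κ) v

/-- Selberg's function of the primes in `Q2`, level `z^j` -/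
noncomputable def La2 (g j v : ℕ) : ℝ := Lc (Q2 R z p1 g) (cSe (Q2 R z p1 g) z j) v

/-- `Λ1(n + a)²` on the numbers without prime factor `≤ z^l2` -/
noncomputable def X1 (g3 κ a n : ℕ) : ℝ := rhoP (P2 R z p1 g3) {a} n * La1 R z p1 κ (n + a) ^ 2

/-- `#{p ∈ Pc : p ∣ n + a} Λ2(n + a)²` on the numbers without prime factor `≤ z^l2` -/
noncomputable def X2 (g g3 j a n : ℕ) : ℝ :=
  rhoP (P2 R z p1 g3) {a} n * ((np R z p1 g (n + a) : ℝ) * La2 R z p1 g j (n + a) ^ 2)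

/-- the full product over the small primes -/
noncomputable def Gs : ℝ := ∏ p ∈ Ps R z p1, (1 + 1 / ((p : ℝ) - 1))

/-- total mass of the weight -/
noncomputable def VV (h K : Finset ℕ) : ℝ := NW R z p1 * (G2G R z p1 ^ R.k * DKG R z p1 h K)

/-- main term of the weight at a position free of the primes `≤ z^l1`, without `NW` -/
noncomputable def m1 (h K : Finset ℕ) : ℝ :=
  G1G R z p1 ^ 2 * (G2G R z p1 ^ (R.k - 1) * DKG R z p1 h K) / Gs R z p1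

/-- the same for two positions -/
noncomputable def m2 (h K : Finset ℕ) : ℝ :=
  G1G R z p1 ^ 4 * (G2G R z p1 ^ (R.k - 2) * DKG R z p1 h K) / Gs R z p1 ^ 2

/-- error term -/
noncomputable def er (Cq : ℕ) (Λ : ℝ) (h : Finset ℕ) : ℝ := R.q ^ 6 * R.e Cq Λ * VP (P0 z p1) h

/-- mean of `X1` per position: `V t1v` is its mass -/
noncomputable def t1v (κ : ℕ) : ℝ := G1G R z p1 ^ 2 / (G2G R z p1 * Gs R z p1 * Gn (Pb R z p1) z κ)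

/-- mean of `X2` per position -/
noncomputable def t2v (g j : ℕ) : ℝ :=
  G1G R z p1 ^ 2 / (G2G R z p1 * Gs R z p1) * (∑ p ∈ Pc R z p1 g, 1 / (p : ℝ)) / Gn (Q2 R z p1 g) z j

end

/-! ### the parameters -/

/-- the conditions: `Cx` an absolute constant (larger than all constants needed), `ε` the coefficient in `Λ1² - ε H` -/
structure ParV (R : Prm) (C Cq Cm : ℕ) (c cD Λ δ : ℝ) (Cx g g2 g3 : ℕ) (ε : ℝ) : Prop where
  pg : ParG R C Cq Cm c cD Λ δ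
  hCx : 1 ≤ Cx
  hCx1 : Cx ≤ g
  hCqx : Cx ≤ Cq
  hg2 : 4 * g ≤ g2
  hM8 : 8 ∣ R.M
  hMg : g ∣ R.M
  hMg2 : g2 ∣ R.M
  hMg3 : g3 ∣ R.M
  hM80 : 100 * (g + g3) ≤ R.M
  hε : 0 < ε
  hε1 : (Cx : ℝ) ^ 2 * (g : ℝ) ^ 4 * ε ≤ 1
  hδε : Cx * δ ≤ ε
  hδ2 : Cx ≤ δ * g2
  hδ3 : (Cx : ℝ) * g2 ≤ δ * g3
  hD2 : Cx ≤ δ * R.D
  eps3 : Cx * R.q ^ 12 * R.e Cq Λ ≤ δ

/-- the levels `κ` of `Λ1` and `j` of `Λ2` -/
structure LevP (R : Prm) (g g2 g3 : ℕ) (δ : ℝ) (z p1 κ j : ℕ) : Prop where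
  hκ : κ + 10 * R.u ≤ R.k1
  hκ' : R.k1 ≤ κ + 10 * R.u + dl R g2
  hj : jr R ≤ j
  hj' : j ≤ 2 * jr R
  br1 : ∑ q ∈ P2 R z p1 g3 \ Ps R z p1, 1 / ((q : ℝ) - 1) * tl (Pb R z p1) z κ q ≤ δ * Gn (Pb R z p1) z κ
  br2 : ∑ q ∈ P2 R z p1 g3 \ Ps R z p1, 1 / ((q : ℝ) - 1) * tl (Q2 R z p1 g) z j q ≤ δ * Gn (Q2 R z p1 g) z j
  br3 : ∑ q ∈ Q2 R z p1 g, 1 / ((q : ℝ) - 1) * tl (Q2 R z p1 g) z j q ≤ 1 / 500 * Gn (Q2 R z p1 g) z j

/-! ### the averages (interface of block U) -/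

section

variable (R : Prm) (Cq : ℕ) (Λ δ : ℝ) (z p1 c0 : ℕ) (h K : Finset ℕ)

/-- one position, upper bound -/
def U1 : Prop := ∀ a ∈ h, ∀ e : ℕ, 1 ≤ e → (∀ p : ℕ, p.Prime → p ∣ e → z ^ l1 R < p) →
  ∀ Q ⊆ Pb R z p1, (∀ p ∈ Q, ¬ p ∣ e) → ∀ (c : Finset ℕ → ℝ) (j : ℕ), (∀ A, |c A| ≤ 1) →
    (∀ A, c A ≠ 0 → rr A ≤ (z : ℝ) ^ j) → e * z ^ (2 * j + 30 * R.u) ≤ z ^ R.q →
    ∑ n ∈ (sN (z ^ R.q) (Wp z p1) c0).filter (fun n => e ∣ n + a),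
        rhoP (Ps R z p1) {a} n * PsG R z p1 h K n ^ 2 * Lc Q c (n + a) ^ 2 ≤
      NW R z p1 / e * ((1 + δ) * (m1 R z p1 h K * nrm Q c) + er R z p1 Cq Λ h)

/-- one position, lower bound -/
def L1 : Prop := ∀ a ∈ h, ∀ e : ℕ, 1 ≤ e → (∀ p : ℕ, p.Prime → p ∣ e → z ^ l1 R < p) →
  ∀ Q ⊆ Pb R z p1, (∀ p ∈ Q, ¬ p ∣ e) → ∀ (c : Finset ℕ → ℝ) (j : ℕ), (∀ A, |c A| ≤ 1) →
    (∀ A, c A ≠ 0 → rr A ≤ (z : ℝ) ^ j) → e * z ^ (2 * j + 30 * R.u) ≤ z ^ R.q →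
    NW R z p1 / e * ((1 - δ) * (m1 R z p1 h K * nrm Q c) - er R z p1 Cq Λ h) ≤
      ∑ n ∈ (sN (z ^ R.q) (Wp z p1) c0).filter (fun n => e ∣ n + a),
        rhoP (Ps R z p1) {a} n * PsG R z p1 h K n ^ 2 * Lc Q c (n + a) ^ 2

/-- two positions, upper bound -/
def U2 : Prop := ∀ a ∈ h, ∀ b ∈ h, a ≠ b → ∀ e e' : ℕ, 1 ≤ e → 1 ≤ e' → e.Coprime e' →
  (∀ p : ℕ, p.Prime → p ∣ e * e' → z ^ l1 R < p) →
  ∀ Q ⊆ Pb R z p1, (∀ p ∈ Q, ¬ p ∣ e * e') → ∀ (c c' : Finset ℕ → ℝ) (j : ℕ), (∀ A, |c A| ≤ 1) → (∀ A, |c' A| ≤ 1) →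
    (∀ A, c A ≠ 0 → rr A ≤ (z : ℝ) ^ j) → (∀ A, c' A ≠ 0 → rr A ≤ (z : ℝ) ^ j) →
    e * e' * z ^ (4 * j + 30 * R.u) ≤ z ^ R.q →
    ∑ n ∈ (sN (z ^ R.q) (Wp z p1) c0).filter (fun n => e ∣ n + a ∧ e' ∣ n + b),
        rhoP (Ps R z p1) {a, b} n * PsG R z p1 h K n ^ 2 * (Lc Q c (n + a) ^ 2 * Lc Q c' (n + b) ^ 2) ≤
      NW R z p1 / (e * e') * ((1 + δ) * (m2 R z p1 h K * (nrm Q c * nrm Q c')) + er R z p1 Cq Λ h)

end

end Pool.Agent.LibFB63
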