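import Mathlib

/-!
Row F2 (MEDIUM, real numbers and finite sums, only Mathlib). `β = T2/T1`, `1/Cx ≤ β ≤ Cx`, `ε β ≤ 1/2`. Multiply `hpt` by `w n` and sum:
`(T1 - ε T2) ∑ w I ≥ ∑ w N - ∑ w Ng - ∑ w |S1 - T1| - ε ∑ w |S2 - T2|`. `∑ w |S - T| ≤ √(∑ w · ∑ w (S - T)²) ≤ √((1+δ) V 20 δ T² V) ≤ 5 √δ T V` (Cauchy-Schwarz: `Finset.sum_mul_sq_le_sq_mul_sq` with `√w`, `√w |S - T|`; `20 (1 + δ) ≤ 25`).
`∑ w N ≥ (1 - δ) k V ≥ (1 - δ)/(4 (1 + δ)) T1 V ≥ (1/4 - δ/2) T1 V`. So `(1 - ε β) ∑ w I/V ≥ 1/4 - δ/2 - .24 ε β - 5 √δ (1 + ε β) ≥ 1/4 - .24 ε β - 8 √δ` (`δ ≤ √δ/2`), and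
`(1/4 - .24 ε β)/(1 - ε β) = 1/4 + .01 ε β/(1 - ε β) ≥ 1/4 + ε β/100 ≥ 1/4 + ε/(100 Cx)`, `8 √δ/(1 - ε β) ≤ 16 √δ`.
-/

open Finset

namespace Pool.Agent.LibFB63

private theorem F2_cs (s : Finset ℕ) (w S : ℕ → ℝ) (hw : ∀ n ∈ s, 0 ≤ w n) {T V δ : ℝ}
    (hV : 0 < V) (hT : 0 < T) (hδ : 0 < δ) (hδ1 : δ ≤ 1 / 8)
    (h1 : ∑ n ∈ s, w n ≤ (1 + δ) * V)
    (hS : ∑ n ∈ s, w n * (S n - T) ^ 2 ≤ 20 * δ * T ^ 2 * V) :
    ∑ n ∈ s, w n * |S n - T| ≤ 5 * √δ * T * V := by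
  have hcs := Finset.sum_mul_sq_le_sq_mul_sq s (fun n => √(w n)) (fun n => √(w n) * |S n - T|)
  have e1 : ∑ n ∈ s, √(w n) * (√(w n) * |S n - T|) = ∑ n ∈ s, w n * |S n - T| := by
    refine Finset.sum_congr rfl fun n hn => ?_
    rw [← mul_assoc, Real.mul_self_sqrt (hw n hn)]
  have e2 : ∑ n ∈ s, √(w n) ^ 2 = ∑ n ∈ s, w n := by
    refine Finset.sum_congr rfl fun n hn => ?_
    rw [Real.sq_sqrt (hw n hn)]
  have e3 : ∑ n ∈ s, (√(w n) * |S n - T|) ^ 2 = ∑ n ∈ s, w n * (S n - T) ^ 2 := by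
    refine Finset.sum_congr rfl fun n hn => ?_
    rw [mul_pow, Real.sq_sqrt (hw n hn), sq_abs]
  rw [e1, e2, e3] at hcs
  have h2 : 0 ≤ ∑ n ∈ s, w n * (S n - T) ^ 2 :=
    Finset.sum_nonneg fun n hn => mul_nonneg (hw n hn) (sq_nonneg _)
  have h3 : (∑ n ∈ s, w n) * ∑ n ∈ s, w n * (S n - T) ^ 2 ≤
      ((1 + δ) * V) * (20 * δ * T ^ 2 * V) :=
    mul_le_mul h1 hS h2 (by positivity)
  have h4 : ((1 + δ) * V) * (20 * δ * T ^ 2 * V) ≤ (5 * √δ * T * V) ^ 2 := by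
    have h5 : (5 * √δ * T * V) ^ 2 = 25 * (δ * T ^ 2 * V ^ 2) := by
      rw [mul_pow, mul_pow, mul_pow, Real.sq_sqrt hδ.le]
      ring
    rw [h5]
    have h6 : 0 < δ * T ^ 2 * V ^ 2 := by positivity
    have h7 : ((1 + δ) * V) * (20 * δ * T ^ 2 * V) = (20 * (1 + δ)) * (δ * T ^ 2 * V ^ 2) := by
      ring
    rw [h7]
    exact mul_le_mul_of_nonneg_right (by linarith) h6.le
  have h8 : 0 ≤ ∑ n ∈ s, w n * |S n - T| :=
    Finset.sum_nonneg fun n hn => mul_nonneg (hw n hn) (abs_nonneg _)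
  exact (pow_le_pow_iff_left₀ h8 (by positivity) (by norm_num : (2 : ℕ) ≠ 0)).1
    (hcs.trans (h3.trans h4))

theorem abs_bin (s : Finset ℕ) (w N Ng S1 S2 I : ℕ → ℝ) (hw : ∀ n ∈ s, 0 ≤ w n)
    {T1 T2 V ε δ Cx k : ℝ} (hV : 0 < V) (hT1 : 0 < T1) (hδ : 0 < δ) (hδ1 : δ ≤ 1 / 8) (hε : 0 < ε) (hCx : 1 ≤ Cx)
    (hεC : 2 * Cx * ε ≤ 1) (hT2 : T1 ≤ Cx * T2) (hT2' : T2 ≤ Cx * T1)
    (hpt : ∀ n ∈ s, N n - Ng n - |S1 n - T1| - ε * |S2 n - T2| ≤ (T1 - ε * T2) * I n)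
    (h1 : ∑ n ∈ s, w n ≤ (1 + δ) * V)
    (hS1 : ∑ n ∈ s, w n * (S1 n - T1) ^ 2 ≤ 20 * δ * T1 ^ 2 * V)
    (hS2 : ∑ n ∈ s, w n * (S2 n - T2) ^ 2 ≤ 20 * δ * T2 ^ 2 * V)
    (hN : (1 - δ) * (k * V) ≤ ∑ n ∈ s, w n * N n) (hk : T1 ≤ 4 * (1 + δ) * k)
    (hNg : ∑ n ∈ s, w n * Ng n ≤ ε * (6 / 25) * (T2 * V)) :
    (1 / 4 + ε / (100 * Cx) - 25 * √δ) * V ≤ ∑ n ∈ s, w n * I n := by
  have hCx0 : 0 < Cx := by linarith
  have hT20 : 0 < T2 := by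
    by_contra h
    push Not at h
    have : Cx * T2 ≤ 0 := mul_nonpos_of_nonneg_of_nonpos hCx0.le h
    linarith
  have c1 := F2_cs s w S1 hw hV hT1 hδ hδ1 h1 hS1
  have c2 := F2_cs s w S2 hw hV hT20 hδ hδ1 h1 hS2
  set r : ℝ := √δ with hr
  have hr0 : 0 < r := Real.sqrt_pos.2 hδ
  have hr2 : r ^ 2 = δ := Real.sq_sqrt hδ.le
  have hr1 : r ≤ 1 := by nlinarith
  -- the summed inequality
  have hsum : ∑ n ∈ s, w n * N n - ∑ n ∈ s, w n * Ng n - ∑ n ∈ s, w n * |S1 n - T1| -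
      ε * ∑ n ∈ s, w n * |S2 n - T2| ≤ (T1 - ε * T2) * ∑ n ∈ s, w n * I n := by
    have h2 : ∑ n ∈ s, w n * (N n - Ng n - |S1 n - T1| - ε * |S2 n - T2|) ≤
        ∑ n ∈ s, w n * ((T1 - ε * T2) * I n) :=
      Finset.sum_le_sum fun n hn => mul_le_mul_of_nonneg_left (hpt n hn) (hw n hn)
    have h3 : ∑ n ∈ s, w n * (N n - Ng n - |S1 n - T1| - ε * |S2 n - T2|) =
        ∑ n ∈ s, w n * N n - ∑ n ∈ s, w n * Ng n - ∑ n ∈ s, w n * |S1 n - T1| -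
          ε * ∑ n ∈ s, w n * |S2 n - T2| := by
      rw [Finset.mul_sum, ← Finset.sum_sub_distrib, ← Finset.sum_sub_distrib,
        ← Finset.sum_sub_distrib]
      refine Finset.sum_congr rfl fun n _ => ?_
      ring
    have h4 : ∑ n ∈ s, w n * ((T1 - ε * T2) * I n) = (T1 - ε * T2) * ∑ n ∈ s, w n * I n := by
      rw [Finset.mul_sum]
      refine Finset.sum_congr rfl fun n _ => ?_
      ring
    rw [h3, h4] at h2
    exact h2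
  -- lower bound for the main term
  have hNl : (1 / 4 - δ / 2) * T1 * V ≤ ∑ n ∈ s, w n * N n := by
    refine le_trans ?_ hN
    have h5 : (1 / 4 - δ / 2) * T1 ≤ (1 - δ) * k := by
      have h6 : (1 / 4 - δ / 2) * T1 ≤ (1 / 4 - δ / 2) * (4 * (1 + δ) * k) :=
        mul_le_mul_of_nonneg_left hk (by linarith)
      have hk0 : 0 < k := by
        by_contra h
        push Not at h
        have : 4 * (1 + δ) * k ≤ 0 := mul_nonpos_of_nonneg_of_nonpos (by linarith) h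
        linarith
      have h7 : (1 / 4 - δ / 2) * (4 * (1 + δ) * k) ≤ (1 - δ) * k := by
        have h8 : 0 ≤ δ ^ 2 * k := by positivity
        nlinarith
      exact h6.trans h7
    have h9 := mul_le_mul_of_nonneg_right h5 hV.le
    calc (1 / 4 - δ / 2) * T1 * V ≤ (1 - δ) * k * V := h9
      _ = (1 - δ) * (k * V) := by ring
  have hεT : ε * T2 ≤ T1 / 2 := by
    have h5 : ε * T2 ≤ ε * (Cx * T1) := mul_le_mul_of_nonneg_left hT2' hε.le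
    have h6 : 2 * Cx * ε * T1 ≤ 1 * T1 := mul_le_mul_of_nonneg_right hεC hT1.le
    nlinarith
  have hA : 0 < T1 - ε * T2 := by linarith
  have hεc2 : ε * ∑ n ∈ s, w n * |S2 n - T2| ≤ ε * (5 * r * T2 * V) :=
    mul_le_mul_of_nonneg_left c2 hε.le
  have hX : ((1 / 4 - δ / 2) * T1 - ε * (6 / 25) * T2 - 5 * r * T1 - 5 * r * (ε * T2)) * V ≤
      (T1 - ε * T2) * ∑ n ∈ s, w n * I n := by
    refine le_trans ?_ hsum
    have h5 : ((1 / 4 - δ / 2) * T1 - ε * (6 / 25) * T2 - 5 * r * T1 - 5 * r * (ε * T2)) * V =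
        (1 / 4 - δ / 2) * T1 * V - ε * (6 / 25) * (T2 * V) - 5 * r * T1 * V -
          ε * (5 * r * T2 * V) := by ring
    rw [h5]
    linarith
  refine le_of_mul_le_mul_left ?_ hA
  refine le_trans ?_ hX
  have h10 : (T1 - ε * T2) * ((1 / 4 + ε / (100 * Cx) - 25 * r) * V) =
      ((T1 - ε * T2) * (1 / 4 + ε / (100 * Cx) - 25 * r)) * V := by ring
  rw [h10]
  refine mul_le_mul_of_nonneg_right ?_ hV.le
  set q : ℝ := ε / (100 * Cx) with hq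
  have hq0 : 0 < q := by positivity
  have hqC : q * Cx = ε / 100 := by
    rw [hq]
    field_simp
  have hqT : q * T1 ≤ ε * T2 / 100 := by
    have h11 : q * T1 ≤ q * (Cx * T2) := mul_le_mul_of_nonneg_left hT2 hq0.le
    have h12 : q * (Cx * T2) = ε * T2 / 100 := by
      rw [← mul_assoc, hqC]
      ring
    linarith
  have h13 : 0 ≤ q * (ε * T2) := by positivity
  have h14 : 0 < ε * T2 := by positivity
  have h15 : r * (ε * T2) ≤ r * (T1 / 2) := mul_le_mul_of_nonneg_left hεT hr0.le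
  have h16 : δ * T1 ≤ r * T1 := by
    refine mul_le_mul_of_nonneg_right ?_ hT1.le
    nlinarith
  have h17 : 0 < r * T1 := by positivity
  nlinarith

end Pool.Agent.LibFB63
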