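import Pool.Agent.LibFB63.F1
import Pool.Agent.LibFB63.F2

/-!
Row F3 (MEDIUM, the probability that the bin `S` is occupied). `abs_bin` (row F2) with `s = sN`, `w n = PsG n ^ 2`, `N n = ∑_{a ∈ S} prI a n`, `Ng n = ∑_{a ∈ S} max 0 (ε X2 - X1)`, `S1 n = ∑_{a ∈ S} X1`, `S2 n = ∑_{a ∈ S} X2`,
`I n = 1[∃ a ∈ S, n + a prime]`, `T1 = |S| t1v`, `T2 = |S| t2v`, `V = VV`, `k = |S| (vG G1²/G2)`.
`hpt`: if a prime exists: `∑ (X1 - ε X2) ≥ ∑_{a prime} 1 - ∑ max 0 (ε X2 - X1)` (`X_prime`: `X1 = 1`, `X2 = 0` at primes; for the others `X1 - ε X2 ≥ - max 0 (ε X2 - X1)`), and `T1 - ε T2 ≥ S1 - ε S2 - |S1 - T1| - ε |S2 - T2|`. If no prime exists: `N n = 0`, `Ng ≥ 0`.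
`hN`: sum of `h3` over `a ∈ S`: `vG (G1² (NW (G2^(k-1) DKG))) = (vG G1²/G2) VV` (`G2^k = G2 G2^(k-1)`, `R.k ≥ 1` from `prm_le`, `G2 ≠ 0`). `hk`, `hT2`, `hT2'` from `hr1`, `hr3`, `hr4` times `|S|`. `hNg`: sum of `hcost`.
-/

open Finset Filter

namespace Pool.Agent.LibFB63

open Pool.Agent.LibRG87 Pool.Agent.LibLG5 Pool.Agent.LibPL63 Pool.Agent.LibSC93 Pool.Agent.LibGL22

theorem bin_ge {R : Prm} {C Cq Cm : ℕ} {c cD Λ δ : ℝ} {Cx g g2 g3 : ℕ} {ε : ℝ} (hp : ParV R C Cq Cm c cD Λ δ Cx g g2 g3 ε)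
    (hCx : 4 ≤ Cx) (hεC : 2 * Cx * ε ≤ 1) {z p1 c0 κ j : ℕ} (hz : 3 ≤ z) {h K S : Finset ℕ} (hV : 0 < VV R z p1 h K)
    (hG2 : 0 < G2G R z p1) (ht : 0 < S.card * t1v R z p1 κ)
    (h1 : ∑ n ∈ sN (z ^ R.q) (Wp z p1) c0, PsG R z p1 h K n ^ 2 ≤ (1 + δ) * VV R z p1 h K)
    (hr1 : t1v R z p1 κ ≤ 4 * (1 + δ) * (vG R z p1 * G1G R z p1 ^ 2 / G2G R z p1))
    (hr3 : t1v R z p1 κ ≤ Cx * t2v R z p1 g j) (hr4 : t2v R z p1 g j ≤ Cx * t1v R z p1 κ)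
    (hc1 : ∑ n ∈ sN (z ^ R.q) (Wp z p1) c0, PsG R z p1 h K n ^ 2 *
            (∑ a ∈ S, X1 R z p1 g3 κ a n - S.card * t1v R z p1 κ) ^ 2 ≤
          20 * δ * (S.card * t1v R z p1 κ) ^ 2 * VV R z p1 h K)
    (hc2 : ∑ n ∈ sN (z ^ R.q) (Wp z p1) c0, PsG R z p1 h K n ^ 2 *
            (∑ a ∈ S, X2 R z p1 g g3 j a n - S.card * t2v R z p1 g j) ^ 2 ≤
          20 * δ * (S.card * t2v R z p1 g j) ^ 2 * VV R z p1 h K)
    (hcost : ∀ a ∈ S, ∑ n ∈ sN (z ^ R.q) (Wp z p1) c0, PsG R z p1 h K n ^ 2 *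
            max 0 (ε * X2 R z p1 g g3 j a n - X1 R z p1 g3 κ a n) ≤
          ε * (6 / 25) * (t2v R z p1 g j * VV R z p1 h K))
    (h3 : ∀ a ∈ S, (1 - δ) * (vG R z p1 * (G1G R z p1 ^ 2 * (NW R z p1 * (G2G R z p1 ^ (R.k - 1) * DKG R z p1 h K)))) ≤
          ∑ n ∈ sN (z ^ R.q) (Wp z p1) c0, prI a n * PsG R z p1 h K n ^ 2) :
    (1 / 4 + ε / (100 * Cx) - 25 * √δ) * VV R z p1 h K ≤
      ∑ n ∈ sN (z ^ R.q) (Wp z p1) c0, PsG R z p1 h K n ^ 2 * (if ∃ a ∈ S, (n + a).Prime then 1 else 0) := by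
  have hε := hp.hε
  have hS0 : (0 : ℝ) ≤ S.card := Nat.cast_nonneg _
  have hCx1 : (1 : ℝ) ≤ Cx := by
    have : 1 ≤ Cx := le_trans (by norm_num) hCx
    exact_mod_cast this
  refine abs_bin (sN (z ^ R.q) (Wp z p1) c0) (fun n => PsG R z p1 h K n ^ 2)
    (fun n => ∑ a ∈ S, prI a n)
    (fun n => ∑ a ∈ S, max 0 (ε * X2 R z p1 g g3 j a n - X1 R z p1 g3 κ a n))
    (fun n => ∑ a ∈ S, X1 R z p1 g3 κ a n) (fun n => ∑ a ∈ S, X2 R z p1 g g3 j a n)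
    (fun n => if ∃ a ∈ S, (n + a).Prime then 1 else 0) (fun n _ => sq_nonneg _)
    (T1 := S.card * t1v R z p1 κ) (T2 := S.card * t2v R z p1 g j) (V := VV R z p1 h K)
    (k := S.card * (vG R z p1 * G1G R z p1 ^ 2 / G2G R z p1))
    hV ht hp.pg.hδ hp.pg.hδ1 hε hCx1 hεC ?_ ?_ ?_ h1 hc1 hc2 ?_ ?_ ?_
  · calc (S.card : ℝ) * t1v R z p1 κ ≤ S.card * (Cx * t2v R z p1 g j) :=
        mul_le_mul_of_nonneg_left hr3 hS0
      _ = Cx * (S.card * t2v R z p1 g j) := by ring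
  · calc (S.card : ℝ) * t2v R z p1 g j ≤ S.card * (Cx * t1v R z p1 κ) :=
        mul_le_mul_of_nonneg_left hr4 hS0
      _ = Cx * (S.card * t1v R z p1 κ) := by ring
  · intro n hn
    have hNg : 0 ≤ ∑ a ∈ S, max 0 (ε * X2 R z p1 g g3 j a n - X1 R z p1 g3 κ a n) :=
      Finset.sum_nonneg fun a _ => le_max_left _ _
    have ha1 := le_abs_self (∑ a ∈ S, X1 R z p1 g3 κ a n - S.card * t1v R z p1 κ)
    have ha1' := abs_nonneg (∑ a ∈ S, X1 R z p1 g3 κ a n - S.card * t1v R z p1 κ)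
    have ha2 := neg_abs_le (∑ a ∈ S, X2 R z p1 g g3 j a n - S.card * t2v R z p1 g j)
    have ha2' := abs_nonneg (∑ a ∈ S, X2 R z p1 g g3 j a n - S.card * t2v R z p1 g j)
    have hm2 := mul_le_mul_of_nonneg_left ha2 hε.le
    have hm2' := mul_nonneg hε.le ha2'
    by_cases hex : ∃ a ∈ S, (n + a).Prime
    · simp only [if_pos hex, mul_one]
      have hterm : ∑ a ∈ S, prI a n - ∑ a ∈ S, max 0 (ε * X2 R z p1 g g3 j a n - X1 R z p1 g3 κ a n) ≤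
          ∑ a ∈ S, X1 R z p1 g3 κ a n - ε * ∑ a ∈ S, X2 R z p1 g g3 j a n := by
        rw [Finset.mul_sum, ← Finset.sum_sub_distrib, ← Finset.sum_sub_distrib]
        refine Finset.sum_le_sum fun a _ => ?_
        by_cases hpr : (n + a).Prime
        · obtain ⟨e1, e2⟩ := X_prime hp hCx (κ := κ) (j := j) hz hn hpr
          rw [e1, e2]
          have : prI a n = 1 := by
            unfold prI
            exact if_pos hpr
          rw [this]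
          have := le_max_left (0 : ℝ) (ε * 0 - 1)
          linarith
        · have : prI a n = 0 := by
            unfold prI
            exact if_neg hpr
          rw [this]
          have := le_max_right (0 : ℝ) (ε * X2 R z p1 g g3 j a n - X1 R z p1 g3 κ a n)
          linarith
      nlinarith [hterm, ha1, hm2]
    · simp only [if_neg hex, mul_zero]
      have hN0 : ∑ a ∈ S, prI a n = 0 := by
        refine Finset.sum_eq_zero fun a ha => ?_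
        unfold prI
        exact if_neg fun hpr => hex ⟨a, ha, hpr⟩
      rw [hN0]
      linarith
  · have hk1 : 1 ≤ R.k := (prm_le hp.pg).2.1
    have hpow : G2G R z p1 ^ R.k = G2G R z p1 * G2G R z p1 ^ (R.k - 1) := by
      rw [← pow_succ']
      congr 1
      omega
    have hG2' : G2G R z p1 ≠ 0 := hG2.ne'
    have e1 : (1 - δ) * ((S.card : ℝ) * (vG R z p1 * G1G R z p1 ^ 2 / G2G R z p1) * VV R z p1 h K) =
        ∑ a ∈ S, (1 - δ) * (vG R z p1 * (G1G R z p1 ^ 2 * (NW R z p1 * (G2G R z p1 ^ (R.k - 1) * DKG R z p1 h K)))) := by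
      rw [Finset.sum_const, nsmul_eq_mul]
      unfold VV
      rw [hpow]
      field_simp
    have e2 : ∑ n ∈ sN (z ^ R.q) (Wp z p1) c0, PsG R z p1 h K n ^ 2 * ∑ a ∈ S, prI a n =
        ∑ a ∈ S, ∑ n ∈ sN (z ^ R.q) (Wp z p1) c0, prI a n * PsG R z p1 h K n ^ 2 := by
      rw [Finset.sum_comm]
      refine Finset.sum_congr rfl fun n _ => ?_
      rw [Finset.mul_sum]
      exact Finset.sum_congr rfl fun a _ => mul_comm _ _
    rw [e1]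
    change _ ≤ ∑ n ∈ sN (z ^ R.q) (Wp z p1) c0, PsG R z p1 h K n ^ 2 * ∑ a ∈ S, prI a n
    rw [e2]
    exact Finset.sum_le_sum h3
  · calc (S.card : ℝ) * t1v R z p1 κ ≤
        S.card * (4 * (1 + δ) * (vG R z p1 * G1G R z p1 ^ 2 / G2G R z p1)) :=
        mul_le_mul_of_nonneg_left hr1 hS0
      _ = 4 * (1 + δ) * (S.card * (vG R z p1 * G1G R z p1 ^ 2 / G2G R z p1)) := by ring
  · have e2 : ∑ n ∈ sN (z ^ R.q) (Wp z p1) c0, PsG R z p1 h K n ^ 2 *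
        ∑ a ∈ S, max 0 (ε * X2 R z p1 g g3 j a n - X1 R z p1 g3 κ a n) =
        ∑ a ∈ S, ∑ n ∈ sN (z ^ R.q) (Wp z p1) c0, PsG R z p1 h K n ^ 2 *
          max 0 (ε * X2 R z p1 g g3 j a n - X1 R z p1 g3 κ a n) := by
      rw [Finset.sum_comm]
      refine Finset.sum_congr rfl fun n _ => ?_
      rw [Finset.mul_sum]
    change ∑ n ∈ sN (z ^ R.q) (Wp z p1) c0, PsG R z p1 h K n ^ 2 *
        ∑ a ∈ S, max 0 (ε * X2 R z p1 g g3 j a n - X1 R z p1 g3 κ a n) ≤ _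
    rw [e2]
    calc ∑ a ∈ S, ∑ n ∈ sN (z ^ R.q) (Wp z p1) c0, PsG R z p1 h K n ^ 2 *
          max 0 (ε * X2 R z p1 g g3 j a n - X1 R z p1 g3 κ a n) ≤
        ∑ a ∈ S, ε * (6 / 25) * (t2v R z p1 g j * VV R z p1 h K) := Finset.sum_le_sum hcost
      _ = ε * (6 / 25) * (S.card * t2v R z p1 g j * VV R z p1 h K) := by
        rw [Finset.sum_const, nsmul_eq_mul]
        ring

end Pool.Agent.LibFB63
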