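import Pool.Agent.LibFB63.Defs
import Pool.Agent.LibGL22.F1

/-!
Row F4 (MEDIUM, the final functional, for one `z`; model: `core` in LibGL22/F3.lean and `F2_point` in LibGL22/F2.lean). With `w n = PsG n ^ 2`, `V = VV`, `occ n = #{j : ∃ a ∈ h j, n + a prime} ≤ b`, `NK = #{a ∈ K : n + a prime}`, `Nr = #{a ∈ K : n + a free of P0}`, `Bd = bdG R M0 B ^ 2`:
pointwise `w (occ - (m - 1) - b NK - (b/M0) Nr) ≤ b Bd (rhoP 1[event])`: if the event holds: bracket `≤ b`, `w ≤ rhoP Bd` (`PsG_sq_le` of LibGL22/F1, `Nr ≤ M0`); if it fails: `occ ≤ m - 1`, or `NK ≥ 1` (and `occ ≤ b`, `m ≥ 1`), or `Nr > M0` (`(b/M0) Nr ≥ b`): bracket `≤ 0`, and the right side is `≥ 0`.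
Sum: `∑ w occ ≥ b (1/4 + 2η) V` (`h3`), `(m-1) ∑ w ≤ (m-1)(1+δ) V`, `b ∑ w NK ≤ b δ V` (`h4`; `prI`), `(b/M0) ∑ w Nr ≤ δ V` (`h2`, `hM0k`). `m - 1 < (1/4 + η) b ≤ b`: the sum is `≥ V b (1/4 + 2η - (1/4 + η) - 3δ) ≥ V b η/4`.
`V ≥ NW VP h` (`1 ≤ G2`, `DKG_ge` of B1; `BaseG`), `NW = z^q/Wp`. Divide by `b`.
-/

open Finset Filter

namespace Pool.Agent.LibFB63

open Pool.Agent.LibRG87 Pool.Agent.LibLG5 Pool.Agent.LibPL63 Pool.Agent.LibSC93 Pool.Agent.LibGL22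

variable {R : Prm} {C Cq Cm : ℕ} {c cD Λ δ : ℝ}

/-- the pointwise inequality -/
private theorem F4_point {m : ℕ} (b occ NK Nr M0 : ℕ) (hM0 : 1 ≤ M0) (hm : 1 ≤ m) (hocc : occ ≤ b) {w rho Bd : ℝ}
    (hw : 0 ≤ w) (hb : Nr ≤ M0 → w ≤ rho * Bd) :
    w * ((occ : ℝ) - (m - 1) - b * NK - b / M0 * Nr) ≤
      b * Bd * (rho * if m ≤ occ ∧ NK = 0 ∧ Nr ≤ M0 then 1 else 0) := by
  have hr2' : (occ : ℝ) ≤ b := by exact_mod_cast hocc
  have hm' : (0 : ℝ) ≤ (m : ℝ) - 1 := by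
    have : (1 : ℝ) ≤ m := by exact_mod_cast hm
    linarith
  have hM0' : (0 : ℝ) < M0 := by exact_mod_cast hM0
  have hB0 : (0 : ℝ) ≤ b := Nat.cast_nonneg _
  have hNK0 : (0 : ℝ) ≤ (b : ℝ) * NK := by positivity
  have hNr0 : (0 : ℝ) ≤ (b : ℝ) / M0 * Nr := by positivity
  split_ifs with h
  · obtain ⟨-, -, h3⟩ := h
    have h4 := hb h3
    have h5 : (occ : ℝ) - (m - 1) - b * NK - b / M0 * Nr ≤ b := by linarith
    calc w * ((occ : ℝ) - (m - 1) - b * NK - b / M0 * Nr) ≤ w * b := mul_le_mul_of_nonneg_left h5 hw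
      _ ≤ (rho * Bd) * b := mul_le_mul_of_nonneg_right h4 hB0
      _ = b * Bd * (rho * 1) := by ring
  · have h5 : (occ : ℝ) - (m - 1) - b * NK - b / M0 * Nr ≤ 0 := by
      by_cases h1 : m ≤ occ
      · by_cases h2 : NK = 0
        · have h3 : M0 < Nr := by
            by_contra hc
            exact h ⟨h1, h2, not_lt.1 hc⟩
          have h3' : (M0 : ℝ) ≤ Nr := by exact_mod_cast h3.le
          have h6 : (b : ℝ) ≤ b / M0 * Nr := by
            rw [div_mul_eq_mul_div, le_div_iff₀ hM0']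
            exact mul_le_mul_of_nonneg_left h3' hB0
          linarith
        · have h3 : 1 ≤ NK := Nat.one_le_iff_ne_zero.2 h2
          have h3' : (1 : ℝ) ≤ NK := by exact_mod_cast h3
          have h6 : (b : ℝ) ≤ b * NK := le_mul_of_one_le_right hB0 h3'
          linarith
      · have h2 : occ + 1 ≤ m := by omega
        have h2' : (occ : ℝ) + 1 ≤ m := by exact_mod_cast h2
        linarith
    have h6 := mul_nonpos_of_nonneg_of_nonpos hw h5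
    simpa using h6

theorem core3 (hp : ParG R C Cq Cm c cD Λ δ) {e : ℝ} {z p1 c0 m b M0 : ℕ} (hBs : BaseG R cD e z p1)
    (hm : 1 ≤ m) (hb : 1 ≤ b) {η : ℝ} (hη : 0 < η) (hη1 : η ≤ 1 / 4) (hmb : (m : ℝ) - 1 < (1 / 4 + η) * b)
    (hδη : 4 * δ ≤ η) (hM0 : 1 ≤ M0) (hM0k : (b : ℝ) * (2 * R.A2 ^ R.I2 + 16 * (Λ * R.q) + 1) ≤ δ * M0) {B : ℝ} (hB1 : 1 ≤ B)
    (hS : ∏ p ∈ PP z (z ^ R.k1), (1 + 1 / ((p : ℝ) - 1)) ≤ B) (hN : 0 < NW R z p1)
    {h : Fin b → Finset ℕ} {K : Finset ℕ} (hpos : PosS z p1 c0 R.k (Λ * R.q) (univ.biUnion h) K)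
    (h1 : ∑ n ∈ sN (z ^ R.q) (Wp z p1) c0, PsG R z p1 (univ.biUnion h) K n ^ 2 ≤ (1 + δ) * VV R z p1 (univ.biUnion h) K)
    (h2 : ∑ n ∈ sN (z ^ R.q) (Wp z p1) c0, PsG R z p1 (univ.biUnion h) K n ^ 2 *
            (K.filter fun j => ∀ p ∈ P0 z p1, ¬ p ∣ n + j).card ≤
        (2 * R.A2 ^ R.I2 + 16 * (Λ * R.q) + 1) * VV R z p1 (univ.biUnion h) K)
    (h3 : ∀ j, (1 / 4 + 2 * η) * VV R z p1 (univ.biUnion h) K ≤ ∑ n ∈ sN (z ^ R.q) (Wp z p1) c0,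
        PsG R z p1 (univ.biUnion h) K n ^ 2 * (if ∃ a ∈ h j, (n + a).Prime then 1 else 0))
    (h4 : ∑ j ∈ K, ∑ n ∈ sN (z ^ R.q) (Wp z p1) c0, prI j n * PsG R z p1 (univ.biUnion h) K n ^ 2 ≤
          δ * VV R z p1 (univ.biUnion h) K) :
    η / (4 * bdG R M0 B ^ 2) * (VP (P0 z p1) (univ.biUnion h) / Wp z p1) * (z : ℝ) ^ R.q ≤
      ∑ n ∈ sN (z ^ R.q) (Wp z p1) c0,
        (rhoP (P0 z p1) (univ.biUnion h) n *
          if m ≤ (univ.filter fun j => ∃ a ∈ h j, (n + a).Prime).card ∧ (∀ a ∈ K, ¬ (n + a).Prime) ∧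
            (K.filter fun a => ∀ p ∈ P0 z p1, ¬ p ∣ n + a).card ≤ M0 then 1 else 0) := by
  have hz3 : 3 ≤ z := hBs.1
  have hWR : (0 : ℝ) < Wp z p1 := by exact_mod_cast Wp_pos z p1
  have hDK := DKG_ge hp hBs (univ.biUnion h) K
  have hVP0 : 0 ≤ VP (P0 z p1) (univ.biUnion h) :=
    VP_nonneg _ (fun p hp => (mem_P0.1 hp).2.1) (univ.biUnion h)
  obtain ⟨hG11, hG21⟩ := one_le_G hBs
  obtain ⟨hcard, _, hxs, _⟩ := hpos
  have hδ := hp.hδ
  have hδ1 := hp.hδ1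
  obtain ⟨H, hH⟩ : ∃ H, H = univ.biUnion h := ⟨_, rfl⟩
  rw [← hH] at hDK hVP0 hcard hxs h1 h2 h4 ⊢
  simp only [← hH] at h3
  have hG2p : 0 < G2G R z p1 := by linarith
  have hDK0 : 0 ≤ DKG R z p1 H K := hVP0.trans hDK
  obtain ⟨V, hVdef⟩ : ∃ V, V = VV R z p1 H K := ⟨_, rfl⟩
  have hVV : VP (P0 z p1) H / Wp z p1 * (z : ℝ) ^ R.q ≤ V := by
    have e1 : VP (P0 z p1) H / Wp z p1 * (z : ℝ) ^ R.q = NW R z p1 * VP (P0 z p1) H := by
      unfold NW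
      ring
    rw [e1, hVdef]
    unfold VV
    refine mul_le_mul_of_nonneg_left ?_ hN.le
    calc VP (P0 z p1) H ≤ DKG R z p1 H K := hDK
      _ = 1 * DKG R z p1 H K := (one_mul _).symm
      _ ≤ G2G R z p1 ^ R.k * DKG R z p1 H K := mul_le_mul_of_nonneg_right (one_le_pow₀ hG21) hDK0
  have hV : 0 ≤ V := by
    rw [hVdef]
    unfold VV
    exact mul_nonneg hN.le (mul_nonneg (pow_nonneg hG2p.le _) hDK0)
  rw [← hVdef] at h1 h2 h4
  simp only [← hVdef] at h3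
  obtain ⟨w, hw⟩ : ∃ w : ℕ → ℝ, w = fun n => PsG R z p1 H K n ^ 2 := ⟨_, rfl⟩
  have hwn : ∀ n, PsG R z p1 H K n ^ 2 = w n := fun n => by rw [hw]
  obtain ⟨T, hT⟩ : ∃ T, T = sN (z ^ R.q) (Wp z p1) c0 := ⟨_, rfl⟩
  rw [← hT] at h1 h2 h4 ⊢
  simp only [← hT, hwn] at h1 h2 h3 h4
  have hw0 : ∀ n, 0 ≤ w n := fun n => by
    rw [hw]
    exact sq_nonneg _
  have hbR : (1 : ℝ) ≤ b := by exact_mod_cast hb
  have hM0R : (0 : ℝ) < M0 := by exact_mod_cast hM0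
  have hcnt : ∀ (A : Finset ℕ) n, ((A.filter fun a => (n + a).Prime).card : ℝ) = ∑ a ∈ A, prI a n := by
    intro A n
    unfold prI
    rw [Finset.sum_boole]
  obtain ⟨occ, hocc⟩ : ∃ occ : ℕ → ℕ, occ = fun n => (univ.filter fun j => ∃ a ∈ h j, (n + a).Prime).card := ⟨_, rfl⟩
  obtain ⟨NK, hNK⟩ : ∃ NK : ℕ → ℕ, NK = fun n => (K.filter fun a => (n + a).Prime).card := ⟨_, rfl⟩
  obtain ⟨Nr, hNr⟩ : ∃ Nr : ℕ → ℕ, Nr = fun n => (K.filter fun a => ∀ p ∈ P0 z p1, ¬ p ∣ n + a).card := ⟨_, rfl⟩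
  have hA1 : ∑ n ∈ T, w n ≤ (1 + δ) * V := h1
  have hA2 : (b : ℝ) * ((1 / 4 + 2 * η) * V) ≤ ∑ n ∈ T, w n * (occ n : ℝ) := by
    have e1 : ∑ n ∈ T, w n * (occ n : ℝ) =
        ∑ j, ∑ n ∈ T, w n * (if ∃ a ∈ h j, (n + a).Prime then (1 : ℝ) else 0) := by
      rw [Finset.sum_comm]
      refine Finset.sum_congr rfl fun n _ => ?_
      rw [hocc, ← Finset.mul_sum, Finset.sum_boole]
    rw [e1]
    have h6 := Finset.sum_le_sum fun j (_ : j ∈ (univ : Finset (Fin b))) => h3 j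
    rw [Finset.sum_const, Finset.card_univ, Fintype.card_fin, nsmul_eq_mul] at h6
    exact h6
  have hA3 : ∑ n ∈ T, w n * (NK n : ℝ) ≤ δ * V := by
    have e1 : ∑ n ∈ T, w n * (NK n : ℝ) = ∑ a ∈ K, ∑ n ∈ T, prI a n * w n := by
      rw [Finset.sum_comm]
      refine Finset.sum_congr rfl fun n _ => ?_
      rw [hNK]
      simp only
      rw [hcnt, Finset.mul_sum]
      exact Finset.sum_congr rfl fun a _ => mul_comm _ _
    rw [e1]
    exact h4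
  have hA4 : (b : ℝ) / M0 * ∑ n ∈ T, w n * (Nr n : ℝ) ≤ δ * V := by
    have h2' : ∑ n ∈ T, w n * (Nr n : ℝ) ≤ (2 * R.A2 ^ R.I2 + 16 * (Λ * R.q) + 1) * V := by
      rw [hNr]
      exact h2
    refine (mul_le_mul_of_nonneg_left h2' (by positivity)).trans ?_
    calc (b : ℝ) / M0 * ((2 * R.A2 ^ R.I2 + 16 * (Λ * R.q) + 1) * V) =
          (b : ℝ) * (2 * R.A2 ^ R.I2 + 16 * (Λ * R.q) + 1) / M0 * V := by ring
      _ ≤ δ * V := by
          refine mul_le_mul_of_nonneg_right ?_ hV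
          rw [div_le_iff₀ hM0R]
          exact hM0k
  have hdiff : (b : ℝ) * (η / 4) * V ≤ ∑ n ∈ T, w n * ((occ n : ℝ) - (m - 1) - b * NK n - b / M0 * Nr n) := by
    have e1 : ∑ n ∈ T, w n * ((occ n : ℝ) - (m - 1) - b * NK n - b / M0 * Nr n) =
        ∑ n ∈ T, w n * (occ n : ℝ) - (m - 1) * ∑ n ∈ T, w n - b * ∑ n ∈ T, w n * (NK n : ℝ) -
          b / M0 * ∑ n ∈ T, w n * (Nr n : ℝ) := by
      rw [Finset.mul_sum, Finset.mul_sum, Finset.mul_sum, ← Finset.sum_sub_distrib,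
        ← Finset.sum_sub_distrib, ← Finset.sum_sub_distrib]
      refine Finset.sum_congr rfl fun n _ => ?_
      ring
    rw [e1]
    have hm1 : (0 : ℝ) ≤ (m : ℝ) - 1 := by
      have : (1 : ℝ) ≤ m := by exact_mod_cast hm
      linarith
    have h10 := mul_le_mul_of_nonneg_left hA1 hm1
    have h11 := mul_le_mul_of_nonneg_left hA3 (by linarith : (0 : ℝ) ≤ (b : ℝ))
    have h12 : ((m : ℝ) - 1) * ((1 + δ) * V) ≤ (1 / 4 + η) * b * ((1 + δ) * V) :=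
      mul_le_mul_of_nonneg_right hmb.le (mul_nonneg (by linarith) hV)
    have h13 : δ * V ≤ b * (δ * V) := le_mul_of_one_le_left (mul_nonneg hδ.le hV) hbR
    have h14 : (0 : ℝ) ≤ b * V * (3 / 4 * η - (5 / 4 + 1 + η) * δ + 0) := by
      refine mul_nonneg (mul_nonneg (by linarith) hV) ?_
      nlinarith
    nlinarith
  have hpt : ∀ n ∈ T, w n * ((occ n : ℝ) - (m - 1) - b * NK n - b / M0 * Nr n) ≤ b * bdG R M0 B ^ 2 *
        (rhoP (P0 z p1) H n * if m ≤ (univ.filter fun j => ∃ a ∈ h j, (n + a).Prime).card ∧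
          (∀ a ∈ K, ¬ (n + a).Prime) ∧ (K.filter fun a => ∀ p ∈ P0 z p1, ¬ p ∣ n + a).card ≤ M0
          then 1 else 0) := by
    intro n hn
    have ho : occ n ≤ b := by
      rw [hocc]
      calc (univ.filter fun j => ∃ a ∈ h j, (n + a).Prime).card ≤ (univ : Finset (Fin b)).card :=
            Finset.card_filter_le _ _
        _ = b := by simp
    have h6 := F4_point (m := m) b (occ n) (NK n) (Nr n) M0 hM0 hm ho
      (w := w n) (rho := rhoP (P0 z p1) H n) (Bd := bdG R M0 B ^ 2) (hw0 n)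
      (fun hM => by
        rw [← hwn]
        rw [hT] at hn
        rw [hNr] at hM
        exact PsG_sq_le hp hBs hB1 hS hcard (fun y hy => (hxs y hy).1) hn hM)
    have e2 : NK n = 0 ↔ ∀ a ∈ K, ¬ (n + a).Prime := by
      rw [hNK]
      simp only
      rw [Finset.card_eq_zero, Finset.filter_eq_empty_iff]
    simp only [e2] at h6
    simp only [hocc, hNr] at h6 ⊢
    exact h6
  have hfin := hdiff.trans (Finset.sum_le_sum hpt)
  rw [← Finset.mul_sum] at hfin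
  have hBd : 0 < bdG R M0 B := by
    unfold bdG
    have : 0 < B := by linarith
    positivity
  obtain ⟨Sm, hSm⟩ : ∃ Sm, Sm = ∑ n ∈ T, (rhoP (P0 z p1) H n *
      if m ≤ (univ.filter fun j => ∃ a ∈ h j, (n + a).Prime).card ∧
          (∀ a ∈ K, ¬ (n + a).Prime) ∧ (K.filter fun a => ∀ p ∈ P0 z p1, ¬ p ∣ n + a).card ≤ M0
          then (1 : ℝ) else 0) := ⟨_, rfl⟩
  rw [← hSm] at hfin ⊢
  have hb0 : (0 : ℝ) < b := by linarith
  have h20 : η / 4 * V ≤ bdG R M0 B ^ 2 * Sm := by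
    have h21 : (b : ℝ) * (η / 4 * V) ≤ b * (bdG R M0 B ^ 2 * Sm) := by
      calc (b : ℝ) * (η / 4 * V) = b * (η / 4) * V := by ring
        _ ≤ b * bdG R M0 B ^ 2 * Sm := hfin
        _ = b * (bdG R M0 B ^ 2 * Sm) := by ring
    exact le_of_mul_le_mul_left h21 hb0
  have hBB : (0 : ℝ) < bdG R M0 B ^ 2 := by positivity
  calc η / (4 * bdG R M0 B ^ 2) * (VP (P0 z p1) H / Wp z p1) * (z : ℝ) ^ R.q
      = (η / 4 * (VP (P0 z p1) H / Wp z p1 * (z : ℝ) ^ R.q)) / bdG R M0 B ^ 2 := by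
        field_simp
    _ ≤ (η / 4 * V) / bdG R M0 B ^ 2 := by
        refine div_le_div_of_nonneg_right ?_ hBB.le
        exact mul_le_mul_of_nonneg_left hVV (by positivity)
    _ ≤ Sm := by
        rw [div_le_iff₀ hBB, mul_comm Sm]
        exact h20

end Pool.Agent.LibFB63
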