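import Pool.Agent.LibFB63.Defs
import Pool.Agent.LibGL22.N3
import Pool.Agent.LibGL22.V1

/-!
Row F6 (SHORT/MEDIUM, the number of primes in a bin is large). For large `z`, all primes `p1`: `vG ≥ 1/(2q)` (`vG_facts` of LibGL22/V1, `hp.mert`, `1 ≤ q` by `prm_le`), `G1G = G1s (PL z k1 p1) … ≥ c I q0`, `0 < G2G ≤ C q0` (`sums_PL` of LibGL22/N3 with `hp.sums`, `q0 a^I ≤ k1` by `prm_le`),
`q = 4 M D (B a^I) (I+1) q0`: `a^I vG G1²/G2 ≥ a^I c² I² q0²/(2 q C q0) = c² I²/(8 C M D B (I+1)) ≥ c² I/(16 C M D B)` (`I + 1 ≤ 2 I`). `C > 0` from `c q0 ≤ G2 ≤ C q0`, `0 < c` from `hp.sums` (definition `SumsP`).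
-/

open Finset Filter

namespace Pool.Agent.LibFB63

open Pool.Agent.LibRG87 Pool.Agent.LibLG5 Pool.Agent.LibPL63 Pool.Agent.LibSC93 Pool.Agent.LibGL22

/-- F6_aux -/
private theorem F6_num {c i q A C M D B q0 v G1 G2 : ℝ} (hc : 0 < c) (hi : 1 ≤ i) (hA : 0 < A) (hC : 0 < C)
    (hM : 0 < M) (hD : 0 < D) (hB : 0 < B) (hq0 : 0 < q0) (hq : q = 4 * M * (D * (B * A) * (i + 1) * q0))
    (hv : 1 / (2 * q) ≤ v) (h1 : c * i * q0 ≤ G1) (h2 : c * q0 ≤ G2) (h3 : G2 ≤ C * q0) :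
    c ^ 2 * i / (16 * C * M * D * B) ≤ A * (v * G1 ^ 2 / G2) := by
  have hi0 : 0 < i := by linarith
  have hqp : 0 < q := by
    rw [hq]
    positivity
  have hG2 : 0 < G2 := lt_of_lt_of_le (by positivity) h2
  have hx : 0 < c * i * q0 := by positivity
  have e1 : A * ((1 / (2 * q)) * (c * i * q0) ^ 2 / (C * q0)) =
      c ^ 2 * i / (16 * C * M * D * B) * (2 * i / (i + 1)) := by
    rw [hq]
    field_simp
    ring
  have e2 : 1 ≤ 2 * i / (i + 1) := by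
    rw [le_div_iff₀ (by linarith)]
    linarith
  have e3 : (1 / (2 * q)) * (c * i * q0) ^ 2 / (C * q0) ≤ v * G1 ^ 2 / G2 := by
    have h4 : (c * i * q0) ^ 2 ≤ G1 ^ 2 := pow_le_pow_left₀ hx.le h1 2
    have hv0 : 0 ≤ v := le_trans (by positivity) hv
    have h5 : (1 / (2 * q)) * (c * i * q0) ^ 2 ≤ v * G1 ^ 2 :=
      mul_le_mul hv h4 (sq_nonneg _) hv0
    exact div_le_div₀ (mul_nonneg hv0 (sq_nonneg _)) h5 hG2 h3
  have e4 : 0 ≤ c ^ 2 * i / (16 * C * M * D * B) := by positivity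
  calc c ^ 2 * i / (16 * C * M * D * B) ≤ c ^ 2 * i / (16 * C * M * D * B) * (2 * i / (i + 1)) :=
        le_mul_of_one_le_right e4 e2
    _ = A * ((1 / (2 * q)) * (c * i * q0) ^ 2 / (C * q0)) := e1.symm
    _ ≤ A * (v * G1 ^ 2 / G2) := mul_le_mul_of_nonneg_left e3 hA.le

theorem k0s_ge {R : Prm} {C Cq Cm : ℕ} {c cD Λ δ : ℝ} (hp : ParG R C Cq Cm c cD Λ δ) :
    ∀ᶠ z : ℕ in atTop, ∀ p1 : ℕ, p1.Prime →
      c ^ 2 * R.I / (16 * C * R.M * R.D * R.B) ≤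
        (R.a : ℝ) ^ R.I * (vG R z p1 * G1G R z p1 ^ 2 / G2G R z p1) := by
  obtain ⟨g1, g2, g3, g4, g5, g6, g7, g8, g9, g10, g11, g12⟩ := prm_le hp
  have hI := hp.hI
  have hB := hp.hB
  have hD := hp.hD1
  obtain ⟨ha, hC1, hc, _, _⟩ := hp.sums
  have hs := sums_PL hp.sums R.I R.q0 R.k1 hI g1 (g5.trans g9)
  have hq1 : 1 ≤ R.q := by omega
  filter_upwards [hs, vG_facts (R := R) hq1 hp.mert] with z hz hv p1 hp1
  obtain ⟨s1, _, s3, s4, _⟩ := hz p1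
  obtain ⟨v1, _⟩ := hv p1 hp1
  have hqR : (R.q : ℝ) = 4 * R.M * (R.D * (R.B * (R.a : ℝ) ^ R.I) * ((R.I : ℝ) + 1) * R.q0) := by
    unfold Prm.q Prm.u Prm.k
    push_cast
    ring
  have pos : ∀ n : ℕ, 1 ≤ n → (0 : ℝ) < (n : ℝ) := fun n hn => by exact_mod_cast hn
  refine F6_num hc (by exact_mod_cast hI) ?_ (pos C hC1) (pos R.M (by omega)) (pos R.D hD) (pos R.B hB)
    (pos R.q0 g1) hqR v1 s1 s3 s4
  have : (0 : ℝ) < (R.a : ℝ) := pos R.a (by omega)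
  positivity

end Pool.Agent.LibFB63
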