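import Pool.Agent.LibFB63.K8

/-!
Block K: the cost of the negative part of `Λ1² - ε H`.
-/

open Finset Filter

namespace Pool.Agent.LibFB63

open Pool.Agent.LibRG87 Pool.Agent.LibLG5 Pool.Agent.LibPL63 Pool.Agent.LibSC93 Pool.Agent.LibGL22

theorem cost : ∃ C0 : ℕ, ∀ (R : Prm) (C Cq Cm : ℕ) (c cD Λ δ : ℝ) (Cx g g2 g3 : ℕ) (ε : ℝ), C0 ≤ Cx →
    ParV R C Cq Cm c cD Λ δ Cx g g2 g3 ε → ∀ᶠ z : ℕ in atTop, ∀ p1 : ℕ, p1.Prime → z ^ (R.q + 2) < p1 →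
    ∀ κ j : ℕ, LevP R g g2 g3 δ z p1 κ j → ∀ (c0 : ℕ) (h K : Finset ℕ), PosS z p1 c0 R.k (Λ * R.q) h K →
      U1 R Cq Λ δ z p1 c0 h K → ∀ a ∈ h,
        ∑ n ∈ sN (z ^ R.q) (Wp z p1) c0, PsG R z p1 h K n ^ 2 *
            max 0 (ε * X2 R z p1 g g3 j a n - X1 R z p1 g3 κ a n) ≤
          ε * (6 / 25) * (t2v R z p1 g j * VV R z p1 h K) :=
  cost'

end Pool.Agent.LibFB63
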