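import Pool.Agent.LibFB63.N00
import Pool.Agent.LibLG5.NT

/-!
Row N03 (MEDIUM): the product over the primes in `(z^l, z^k]`. With `V w = ∏ p ∈ (range (w+1)).filter Nat.Prime, (1 - 1/p)`: `c/log w ≤ V w` (`LibRG87.Z_mertens`), `V w ≤ C/log w` (`LibLG5.nt_mertens_upper`), `w ≥ 2`;
`1 + 1/(p-1) = (1 - 1/p)⁻¹` (`nt_one_add`), `V (z^k) = V (z^l) * ∏ p ∈ PP (z^l) (z^k), (1 - 1/p)` (split of the range as in `nt_ratio`, file LibLG5/NT57.lean), `log (z^k) = k log z`. So the product is `V (z^l)/V (z^k)`, between `(c/C) k/l` and `(C/c) k/l`;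
`C1 = ⌈C/c⌉₊ + 1`.
-/

open Finset Filter

namespace Pool.Agent.LibFB63

open Pool.Agent.LibRG87 Pool.Agent.LibLG5 Pool.Agent.LibPL63 Pool.Agent.LibSC93 Pool.Agent.LibGL22

theorem prod_bounds : ∃ C1 : ℕ, 1 ≤ C1 ∧ ∀ z l k : ℕ, 2 ≤ z → 1 ≤ l → l ≤ k →
    ∏ p ∈ PP (z ^ l) (z ^ k), (1 + 1 / ((p : ℝ) - 1)) ≤ C1 * ((k : ℝ) / l) ∧
    (k : ℝ) / l ≤ C1 * ∏ p ∈ PP (z ^ l) (z ^ k), (1 + 1 / ((p : ℝ) - 1)) := by
  obtain ⟨c, hc, hlow⟩ := Z_mertens
  obtain ⟨C, hC, hup⟩ := nt_mertens_upper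
  refine ⟨⌈C / c⌉₊ + 1, by omega, fun z l k hz hl hlk => ?_⟩
  have hk : 1 ≤ k := hl.trans hlk
  have hzl : z ≤ z ^ l := Nat.le_self_pow (by omega) z
  have hzk : z ≤ z ^ k := Nat.le_self_pow (by omega) z
  have hzlk : z ^ l ≤ z ^ k := Nat.pow_le_pow_right (by omega) hlk
  have hz2 : (2 : ℝ) ≤ z := by exact_mod_cast hz
  have hlz : 0 < Real.log z := Real.log_pos (by linarith)
  have hk0 : (0 : ℝ) < k := by exact_mod_cast hk
  have hl0 : (0 : ℝ) < l := by exact_mod_cast hl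
  have hfac : ∀ p : ℕ, p.Prime → 0 < 1 - 1 / (p : ℝ) := by
    intro p hp
    have hp1 : (1 : ℝ) < p := by exact_mod_cast hp.one_lt
    have h2 : 1 / (p : ℝ) < 1 := by rw [div_lt_one (by linarith)]; exact hp1
    linarith
  have hsplit : (Finset.range (z ^ k + 1)).filter Nat.Prime =
      (Finset.range (z ^ l + 1)).filter Nat.Prime ∪ PP (z ^ l) (z ^ k) := by
    ext p
    simp only [Finset.mem_union, nt_mem, Finset.mem_filter, Finset.mem_range]
    constructor
    · rintro ⟨h3, h4⟩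
      rcases le_or_gt p (z ^ l) with h5 | h5
      · exact Or.inl ⟨by omega, h4⟩
      · exact Or.inr ⟨h5, by omega, h4⟩
    · rintro (⟨h3, h4⟩ | ⟨h3, h4, h5⟩)
      · exact ⟨by omega, h4⟩
      · exact ⟨by omega, h5⟩
  have hdisj : Disjoint ((Finset.range (z ^ l + 1)).filter Nat.Prime) (PP (z ^ l) (z ^ k)) := by
    rw [Finset.disjoint_left]
    intro p hp hp'
    rw [nt_mem] at hp'
    rw [Finset.mem_filter, Finset.mem_range] at hp
    omega
  have h1 := hlow (z ^ k) (hz.trans hzk)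
  have h2 := hup (z ^ k) (hz.trans hzk)
  have h3 := hlow (z ^ l) (hz.trans hzl)
  have h4 := hup (z ^ l) (hz.trans hzl)
  have hlogk : Real.log ((z ^ k : ℕ) : ℝ) = k * Real.log z := by
    rw [Nat.cast_pow, Real.log_pow]
  have hlogl : Real.log ((z ^ l : ℕ) : ℝ) = l * Real.log z := by
    rw [Nat.cast_pow, Real.log_pow]
  rw [hlogk, hsplit, Finset.prod_union hdisj] at h1 h2
  rw [hlogl] at h3 h4
  rw [Finset.prod_congr rfl fun p hp => nt_one_add (nt_mem.1 hp).2.2, Finset.prod_inv_distrib]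
  set V := ∏ p ∈ (Finset.range (z ^ l + 1)).filter Nat.Prime, (1 - 1 / (p : ℝ)) with hV
  set U := ∏ p ∈ PP (z ^ l) (z ^ k), (1 - 1 / (p : ℝ)) with hU
  have hU0 : 0 < U := Finset.prod_pos fun p hp => hfac p (nt_mem.1 hp).2.2
  have hV0 : 0 < V := Finset.prod_pos fun p hp => hfac p (Finset.mem_filter.1 hp).2
  have hCc : C / c ≤ ((⌈C / c⌉₊ + 1 : ℕ) : ℝ) := by
    push_cast
    have := Nat.le_ceil (C / c)
    linarith
  rw [div_le_iff₀ (by positivity)] at h1 h3
  rw [le_div_iff₀ (by positivity)] at h2 h4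
  -- h1 : c ≤ V * U * (k * log z), h2 : V * U * (k * log z) ≤ C, h3 : c ≤ V * (l * log z), h4 : V * (l * log z) ≤ C
  have hkl : 0 < (k : ℝ) / l := by positivity
  constructor
  · refine le_trans ?_ (mul_le_mul_of_nonneg_right hCc hkl.le)
    rw [inv_eq_one_div, div_le_iff₀ hU0]
    have e1 : C / c * ((k : ℝ) / l) * U = (C * k * U) / (c * l) := by
      field_simp
    rw [e1, le_div_iff₀ (by positivity), one_mul]
    have h5 : c * (V * (l * Real.log z)) ≤ V * U * (k * Real.log z) * C :=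
      mul_le_mul h1 h4 (by positivity) (by positivity)
    have h6 : (V * Real.log z) * (c * l) ≤ (V * Real.log z) * (C * k * U) := by
      calc (V * Real.log z) * (c * l) = c * (V * (l * Real.log z)) := by ring
        _ ≤ V * U * (k * Real.log z) * C := h5
        _ = _ := by ring
    exact le_of_mul_le_mul_left h6 (by positivity)
  · refine le_trans ?_ (mul_le_mul_of_nonneg_right hCc (inv_pos.2 hU0).le)
    rw [inv_eq_one_div, mul_one_div, le_div_iff₀ hU0, div_mul_eq_mul_div, div_le_div_iff₀ hl0 hc]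
    have h5 : c * (V * U * (k * Real.log z)) ≤ V * (l * Real.log z) * C :=
      mul_le_mul h3 h2 (by positivity) (by positivity)
    have h6 : (V * Real.log z) * ((k : ℝ) * U * c) ≤ (V * Real.log z) * (C * l) := by
      calc (V * Real.log z) * ((k : ℝ) * U * c) = c * (V * U * (k * Real.log z)) := by ring
        _ ≤ V * (l * Real.log z) * C := h5
        _ = _ := by ring
    exact le_of_mul_le_mul_left h6 (by positivity)

end Pool.Agent.LibFB63
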