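import Pool.Agent.LibFB63.N00
import Pool.Agent.LibLG5.NT

/-!
Row N05 (MEDIUM): Markov's inequality. `∏ (1 + 1/(p-1)) = ∑_{A ⊆ Q} 1/ph A` (`nt_sum_powerset`); the difference `∏ - GR Q t` is the sum over `rr A > t`, there `1 ≤ log (rr A)/log t`, so it is `≤ (1/log t) ∑_{A ⊆ Q} log (rr A)/ph A`,
`log (rr A) = ∑_{p ∈ A} log p` (`Real.log_prod`), exchange the sums: for `p ∈ Q` the subsets `A ∋ p` are `insert p A'`, `A' ⊆ Q.erase p`, `ph (insert p A') = (p - 1) ph A'`, and `∑_{A' ⊆ Q.erase p} 1/ph A' ≤ ∏_{Q} (1 + 1/(p-1))` (induction on `Q` with `Finset.sum_powerset_insert` also works: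
claim `∑_{A ⊆ Q} log (rr A)/ph A ≤ (∑_{p ∈ Q} log p/(p-1)) ∏_{p ∈ Q} (1 + 1/(p-1))`).
-/

open Finset Filter

namespace Pool.Agent.LibFB63

open Pool.Agent.LibRG87 Pool.Agent.LibLG5 Pool.Agent.LibPL63 Pool.Agent.LibSC93 Pool.Agent.LibGL22

private theorem N05_rr_pos {A : Finset ℕ} (hA : ∀ p ∈ A, Nat.Prime p) : 1 ≤ rr A := by
  unfold rr
  have h1 : ∀ p ∈ A, (1 : ℝ) ≤ (p : ℝ) := fun p hp => by exact_mod_cast (hA p hp).one_lt.le
  calc (1 : ℝ) = ∏ p ∈ A, (1 : ℝ) := by rw [Finset.prod_const_one]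
    _ ≤ ∏ p ∈ A, (p : ℝ) := Finset.prod_le_prod (fun _ _ => zero_le_one) h1

private theorem N05_ph_pos {A : Finset ℕ} (hA : ∀ p ∈ A, Nat.Prime p) : 0 < ph A := by
  unfold ph
  refine Finset.prod_pos fun p hp => ?_
  have h1 : (1 : ℝ) < (p : ℝ) := by exact_mod_cast (hA p hp).one_lt
  linarith

private theorem N05_sum (Q : Finset ℕ) : (∀ p ∈ Q, Nat.Prime p) →
    ∑ A ∈ Q.powerset, Real.log (rr A) / ph A ≤
      (∑ p ∈ Q, 1 / ((p : ℝ) - 1) * Real.log p) * ∏ p ∈ Q, (1 + 1 / ((p : ℝ) - 1)) := by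
  induction Q using Finset.induction_on with
  | empty =>
    intro _
    simp [rr]
  | insert a Q ha ih =>
    intro hQ
    have hQ' : ∀ p ∈ Q, Nat.Prime p := fun p hp => hQ p (Finset.mem_insert_of_mem hp)
    have hpa : Nat.Prime a := hQ a (Finset.mem_insert_self a Q)
    have ha1 : (1 : ℝ) < (a : ℝ) := by exact_mod_cast hpa.one_lt
    have hih := ih hQ'
    rw [Finset.sum_powerset_insert ha, Finset.sum_insert ha, Finset.prod_insert ha]
    have h1 : ∀ A ∈ Q.powerset, Real.log (rr (insert a A)) / ph (insert a A) =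
        1 / ((a : ℝ) - 1) * (Real.log a * (1 / ph A) + Real.log (rr A) / ph A) := by
      intro A hA
      have hAQ := Finset.mem_powerset.1 hA
      have haA : a ∉ A := fun h => ha (hAQ h)
      have h2 : rr (insert a A) = a * rr A := by
        unfold rr
        rw [Finset.prod_insert haA]
      have h3 : ph (insert a A) = ((a : ℝ) - 1) * ph A := by
        unfold ph
        rw [Finset.prod_insert haA]
      have h4 : 0 < rr A := by
        have := N05_rr_pos fun p hp => hQ' p (hAQ hp)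
        linarith
      have h5 : 0 < ph A := N05_ph_pos fun p hp => hQ' p (hAQ hp)
      have h6 : (a : ℝ) - 1 ≠ 0 := by linarith
      rw [h2, h3, Real.log_mul (by linarith) h4.ne']
      field_simp
    rw [Finset.sum_congr rfl h1, ← Finset.mul_sum, Finset.sum_add_distrib, ← Finset.mul_sum, nt_sum_powerset]
    have h7 : 0 ≤ Real.log a := Real.log_nonneg ha1.le
    have h8 : 0 < 1 / ((a : ℝ) - 1) := div_pos one_pos (by linarith)
    have h9 : 0 < ∏ p ∈ Q, (1 + 1 / ((p : ℝ) - 1)) := by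
      refine Finset.prod_pos fun p hp => ?_
      have h10 : (1 : ℝ) < (p : ℝ) := by exact_mod_cast (hQ' p hp).one_lt
      have h11 : 0 < 1 / ((p : ℝ) - 1) := div_pos one_pos (by linarith)
      linarith
    generalize 1 / ((a : ℝ) - 1) = c at h8 ⊢
    generalize (∏ p ∈ Q, (1 + 1 / ((p : ℝ) - 1))) = P at hih h9 ⊢
    generalize (∑ A ∈ Q.powerset, Real.log (rr A) / ph A) = S at hih ⊢
    generalize (∑ p ∈ Q, 1 / ((p : ℝ) - 1) * Real.log p) = s at hih ⊢
    generalize Real.log a = l at h7 ⊢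
    have h12 : S * (1 + c) ≤ s * P * (1 + c) := mul_le_mul_of_nonneg_right hih (by linarith)
    have h13 : 0 ≤ c * l * P * c := by positivity
    nlinarith

theorem GR_markov (Q : Finset ℕ) (hQ : ∀ p ∈ Q, Nat.Prime p) {t : ℝ} (ht : 1 < t) :
    (1 - (∑ p ∈ Q, 1 / ((p : ℝ) - 1) * Real.log p) / Real.log t) * ∏ p ∈ Q, (1 + 1 / ((p : ℝ) - 1)) ≤ GR Q t := by
  classical
  have hlt : 0 < Real.log t := Real.log_pos ht
  have hsub : ∀ A ∈ Q.powerset, ∀ p ∈ A, Nat.Prime p := fun A hA p hp => hQ p (Finset.mem_powerset.1 hA hp)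
  have h1 : ∏ p ∈ Q, (1 + 1 / ((p : ℝ) - 1)) =
      GR Q t + ∑ A ∈ Q.powerset with ¬ (rr A ≤ t), 1 / ph A := by
    rw [← nt_sum_powerset]
    unfold GR
    exact (Finset.sum_filter_add_sum_filter_not _ _ _).symm
  have h2 : ∑ A ∈ Q.powerset with ¬ (rr A ≤ t), 1 / ph A ≤
      ∑ A ∈ Q.powerset, Real.log (rr A) / ph A / Real.log t := by
    refine (Finset.sum_le_sum (f := fun A => 1 / ph A) (g := fun A => Real.log (rr A) / ph A / Real.log t)
      fun A hA => ?_).trans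
      (Finset.sum_le_sum_of_subset_of_nonneg (Finset.filter_subset _ _) fun A hA _ => ?_)
    · obtain ⟨hA1, hA2⟩ := Finset.mem_filter.1 hA
      have h3 := N05_ph_pos (hsub A hA1)
      push Not at hA2
      have h4 : Real.log t ≤ Real.log (rr A) := Real.log_le_log (by linarith) hA2.le
      change 1 / ph A ≤ Real.log (rr A) / ph A / Real.log t
      rw [div_div, div_le_div_iff₀ h3 (mul_pos h3 hlt)]
      nlinarith
    · have h3 := N05_ph_pos (hsub A hA)
      have h4 := N05_rr_pos (hsub A hA)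
      exact div_nonneg (div_nonneg (Real.log_nonneg h4) h3.le) hlt.le
  have h5 := N05_sum Q hQ
  rw [← Finset.sum_div] at h2
  have h6 := div_le_div_of_nonneg_right h5 hlt.le
  have h7 : (1 - (∑ p ∈ Q, 1 / ((p : ℝ) - 1) * Real.log p) / Real.log t) * ∏ p ∈ Q, (1 + 1 / ((p : ℝ) - 1)) =
      ∏ p ∈ Q, (1 + 1 / ((p : ℝ) - 1)) -
        (∑ p ∈ Q, 1 / ((p : ℝ) - 1) * Real.log p) * (∏ p ∈ Q, (1 + 1 / ((p : ℝ) - 1))) / Real.log t := by
    ring
  rw [h7]
  linarith

end Pool.Agent.LibFB63
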