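import Pool.Agent.LibFB63.N09

/-!
Row N10 (SHORT/MEDIUM): the sets. `p1 > z^(q+2)` is larger than all elements, so `erase p1` does nothing; `PP z (z^k) \ PP z (z^l) = PP (z^l) (z^k)` for `1 ≤ l` (`z ≤ z^l`). Exponents: `exps`, `exps'` (row N09, a skeleton file you may cite).
-/

open Finset Filter

namespace Pool.Agent.LibFB63

open Pool.Agent.LibRG87 Pool.Agent.LibLG5 Pool.Agent.LibPL63 Pool.Agent.LibSC93 Pool.Agent.LibGL22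

variable {R : Prm} {C Cq Cm : ℕ} {c cD Λ δ : ℝ} {Cx g g2 g3 : ℕ} {ε : ℝ}

private theorem N10_PL {z p1 k n : ℕ} (hz : 2 ≤ z) (hk : k ≤ n) (hp : z ^ n < p1) :
    PL z k p1 = PP z (z ^ k) := by
  unfold PL
  refine Finset.erase_eq_of_notMem fun h => ?_
  have h1 := (Finset.mem_Ioc.1 (Finset.mem_filter.1 h).1).2
  have h2 : z ^ k ≤ z ^ n := Nat.pow_le_pow_right (by omega) hk
  omega

private theorem N10_sdiff {z k l : ℕ} (hz : 2 ≤ z) (hl : 1 ≤ l) :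
    PP z (z ^ k) \ PP z (z ^ l) = PP (z ^ l) (z ^ k) := by
  have h1 : z ≤ z ^ l := by
    calc z = z ^ 1 := (pow_one z).symm
      _ ≤ z ^ l := Nat.pow_le_pow_right (by omega) hl
  ext x
  simp only [PP, Finset.mem_sdiff, Finset.mem_filter, Finset.mem_Ioc]
  constructor
  · rintro ⟨⟨⟨h2, h3⟩, h4⟩, h5⟩
    refine ⟨⟨?_, h3⟩, h4⟩
    by_contra h6
    exact h5 ⟨⟨h2, by omega⟩, h4⟩
  · rintro ⟨⟨h2, h3⟩, h4⟩
    exact ⟨⟨⟨by omega, h3⟩, h4⟩, fun h5 => by omega⟩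

theorem sets (hv : ParV R C Cq Cm c cD Λ δ Cx g g2 g3 ε) (h20 : 20 ≤ Cx) {z p1 : ℕ} (hz : 2 ≤ z)
    (hp1 : z ^ (R.q + 2) < p1) :
    Ps R z p1 = PP z (z ^ l1 R) ∧ PG R z p1 = PP z (z ^ R.k1) ∧ Pb R z p1 = PP (z ^ l1 R) (z ^ R.k1) ∧
      P2 R z p1 g3 \ Ps R z p1 = PP (z ^ l1 R) (z ^ l2 R g3) ∧
      Q2 R z p1 g = PP (z ^ l1 R) (z ^ (2 * j0 R g)) ∧
      Pc R z p1 g = PP (z ^ (R.k1 - 2 * j0 R g)) (z ^ (R.k1 - j0 R g)) := by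
  obtain ⟨a1, a2, a3, a4, a5, a6, a7, a8, a9, a10, a11, a12⟩ := exps hv
  obtain ⟨b1, b2, b3, b4, b5⟩ := exps' hv
  have hj : 20 * j0 R g ≤ R.k1 := (Nat.mul_le_mul_right _ h20).trans b3
  have hl2 : l2 R g3 ≤ R.k1 := by omega
  have e1 : Ps R z p1 = PP z (z ^ l1 R) := N10_PL hz (by omega) hp1
  have e2 : PG R z p1 = PP z (z ^ R.k1) := N10_PL hz (by omega) hp1
  have e3 : P2 R z p1 g3 = PP z (z ^ l2 R g3) := N10_PL hz (by omega) hp1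
  refine ⟨e1, e2, ?_, ?_, ?_, ?_⟩
  · unfold Pb
    rw [e1, e2, N10_sdiff hz a2]
  · rw [e1, e3, N10_sdiff hz a2]
  · unfold Q2
    rw [e1, N10_PL hz (by omega) hp1, N10_sdiff hz a2]
  · unfold Pc
    rw [N10_PL hz (by omega) hp1, N10_PL hz (by omega) hp1, N10_sdiff hz (by omega)]

end Pool.Agent.LibFB63
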