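import Pool.Agent.LibFB63.N02
import Pool.Agent.LibFB63.N03
import Pool.Agent.LibFB63.N05
import Pool.Agent.LibFB63.N10

/-!
Row N12: the Selberg sum of `Q2 = PP (z^l1) (z^(2 j0))`.
-/

open Finset Filter

namespace Pool.Agent.LibFB63

open Pool.Agent.LibRG87 Pool.Agent.LibLG5 Pool.Agent.LibPL63 Pool.Agent.LibSC93 Pool.Agent.LibGL22

private theorem N12_num {w z : ℕ} {j0 L : ℝ} (hz : 4 ≤ z) (hw : z ≤ w) (hj : 100 ≤ j0) (hL : 1 ≤ L) :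
    (1 + 1 / (w : ℝ)) * (2 * j0 * L + 2) ≤ 3 * j0 * L := by
  have h1 : (4 : ℝ) ≤ w := by exact_mod_cast hz.trans hw
  have h2 : 1 / (w : ℝ) ≤ 1 / 4 := one_div_le_one_div_of_le (by norm_num) h1
  have h3 : 100 ≤ j0 * L := by nlinarith
  have h4 : (1 + 1 / (w : ℝ)) * (2 * j0 * L + 2) ≤ (1 + 1 / 4) * (2 * j0 * L + 2) :=
    mul_le_mul_of_nonneg_right (by linarith) (by nlinarith)
  nlinarith

theorem Gn_Q2 : ∃ C2 : ℕ, 1 ≤ C2 ∧ ∀ (R : Prm) (C Cq Cm : ℕ) (c cD Λ δ : ℝ) (Cx g g2 g3 : ℕ) (ε : ℝ), 48 ≤ Cx →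
    ParV R C Cq Cm c cD Λ δ Cx g g2 g3 ε → ∀ᶠ z : ℕ in atTop, ∀ p1 : ℕ, p1.Prime → z ^ (R.q + 2) < p1 →
    ∏ p ∈ Q2 R z p1 g, (1 + 1 / ((p : ℝ) - 1)) ≤ C2 * ((2 * j0 R g : ℝ) / l1 R) ∧
      (2 * j0 R g : ℝ) / l1 R ≤ C2 * ∏ p ∈ Q2 R z p1 g, (1 + 1 / ((p : ℝ) - 1)) ∧
      ∀ j : ℕ, jr R ≤ j → ∏ p ∈ Q2 R z p1 g, (1 + 1 / ((p : ℝ) - 1)) ≤ 2 * Gn (Q2 R z p1 g) z j := by
  obtain ⟨C1, hC1, hpb⟩ := prod_bounds
  refine ⟨C1, hC1, fun R C Cq Cm c cD Λ δ Cx g g2 g3 ε h48 hv => ?_⟩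
  filter_upwards [eventually_ge_atTop 4] with z hz p1 _ hlt
  obtain ⟨-, -, -, -, hs, -⟩ := sets hv (by omega) (by omega) hlt
  rw [hs]
  obtain ⟨hu1, hl1, hl1u, -, -, -, -, h8, -, -, -, -⟩ := exps hv
  obtain ⟨-, -, hCj, h100, -⟩ := exps' hv
  have hb := hpb z (l1 R) (2 * j0 R g) (by omega) hl1 (by omega)
  push_cast at hb
  refine ⟨hb.1, hb.2, fun j hj => ?_⟩
  have hj6 : 6 * j0 R g ≤ j := by
    have h1 : 48 * j0 R g ≤ Cx * j0 R g := Nat.mul_le_mul_right _ h48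
    omega
  have hzR : (4 : ℝ) ≤ z := by exact_mod_cast hz
  have hL : 1 ≤ Real.log z := by
    rw [Real.le_log_iff_exp_le (by linarith)]
    have := Real.exp_one_lt_d9
    linarith
  have hj0 : (100 : ℝ) ≤ j0 R g := by
    have : 100 ≤ j0 R g := by omega
    exact_mod_cast this
  have hw : z ≤ z ^ l1 R := Nat.le_self_pow (by omega) z
  have hsum := logsum_le (w := z ^ l1 R) (N := z ^ (2 * j0 R g)) (Nat.one_le_pow _ _ (by omega))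
    (Nat.one_le_pow _ _ (by omega))
  have hlogN : Real.log ((z ^ (2 * j0 R g) : ℕ) : ℝ) = 2 * (j0 R g : ℝ) * Real.log z := by
    push_cast
    rw [Real.log_pow]
    push_cast
    ring
  rw [hlogN] at hsum
  have hS := hsum.trans (N12_num hz hw hj0 hL)
  have ht : (1 : ℝ) < (z : ℝ) ^ j := one_lt_pow₀ (by linarith) (by omega)
  have hmk := GR_markov (PP (z ^ l1 R) (z ^ (2 * j0 R g))) (fun p hp => (Finset.mem_filter.1 hp).2) ht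
  have hlt' : Real.log ((z : ℝ) ^ j) = j * Real.log z := Real.log_pow _ _
  have hj6R : 6 * (j0 R g : ℝ) ≤ j := by exact_mod_cast hj6
  have hlogt : 6 * (j0 R g : ℝ) * Real.log z ≤ Real.log ((z : ℝ) ^ j) := by
    rw [hlt']
    exact mul_le_mul_of_nonneg_right hj6R (by linarith)
  have hlpos : 0 < Real.log ((z : ℝ) ^ j) := Real.log_pos ht
  have hratio : (∑ p ∈ PP (z ^ l1 R) (z ^ (2 * j0 R g)), 1 / ((p : ℝ) - 1) * Real.log p) /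
      Real.log ((z : ℝ) ^ j) ≤ 1 / 2 := by
    rw [div_le_iff₀ hlpos]
    linarith
  have hprod : 0 ≤ ∏ p ∈ PP (z ^ l1 R) (z ^ (2 * j0 R g)), (1 + 1 / ((p : ℝ) - 1)) := by
    refine Finset.prod_nonneg fun p hp => ?_
    have hp2 : (2 : ℝ) ≤ p := by exact_mod_cast ((Finset.mem_filter.1 hp).2 : Nat.Prime p).two_le
    have : 0 < 1 / ((p : ℝ) - 1) := one_div_pos.2 (by linarith)
    linarith
  rw [Gn_eq_GR]
  nlinarith

end Pool.Agent.LibFB63
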