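import Pool.Agent.LibFB63.N08
import Pool.Agent.LibFB63.N12

/-!
Row N14 (MEDIUM): choice of `j`. `Π = ∏_{Q2} (1 + 1/(p-1))`, `A2 j`, `A3 j` the two sums. As in row N13 with `J = r = jr`: `∑_{j ∈ Ioc jr (2 jr)} A2 j ≤ 3 l2 Π`, `∑_j A3 j ≤ 3 (2 j0) Π` (`Gn Q2 z (2 jr) ≤ Π`, `GR_le`). So `∑_j (A2 j/δ + 500 A3 j) ≤ (3 l2/δ + 3000 j0) Π ≤ (jr/2) Π` if `Cx ≥ 50000`:
`8 jr = g j0 = g3 l2 = k1`, `l2/δ = k1/(δ g3) ≤ k1/Cx`, `j0 = k1/g ≤ k1/Cx`. Hence some `j` has `A2 j/δ + 500 A3 j ≤ Π/2 ≤ Gn Q2 z j` (`Gn_Q2`), both terms are nonnegative (`tl_nonneg`).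
-/

open Finset Filter

namespace Pool.Agent.LibFB63

open Pool.Agent.LibRG87 Pool.Agent.LibLG5 Pool.Agent.LibPL63 Pool.Agent.LibSC93 Pool.Agent.LibGL22

private theorem N14_br {z l m : ℕ} (hz : 10 ≤ z) (hl : 1 ≤ l) (hm : 100 ≤ m) :
    ∑ q ∈ PP (z ^ l) (z ^ m), 1 / ((q : ℝ) - 1) * (Real.log q / Real.log z + 1) ≤ 3 * m := by
  have hz1 : (10 : ℝ) ≤ z := by exact_mod_cast hz
  have hL : 1 ≤ Real.log z := by
    rw [Real.le_log_iff_exp_le (by linarith)]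
    have := Real.exp_one_lt_three
    linarith
  have hm1 : (100 : ℝ) ≤ m := by exact_mod_cast hm
  have hwz : z ≤ z ^ l := Nat.le_self_pow (by omega) z
  obtain ⟨L, hLe⟩ : ∃ L, L = Real.log z := ⟨_, rfl⟩
  have h1 : ∑ q ∈ PP (z ^ l) (z ^ m), 1 / ((q : ℝ) - 1) * (Real.log q / Real.log z + 1) ≤
      ∑ q ∈ PP (z ^ l) (z ^ m), 2 / L * (1 / ((q : ℝ) - 1) * Real.log q) := by
    refine Finset.sum_le_sum fun q hq => ?_
    unfold PP at hq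
    have hq1 := (Finset.mem_Ioc.1 (Finset.mem_filter.1 hq).1).1
    have hq2 : (z : ℝ) ≤ q := by exact_mod_cast (le_trans hwz hq1.le)
    have hq3 : 0 < 1 / ((q : ℝ) - 1) := one_div_pos.2 (by linarith)
    have hq4 : L ≤ Real.log q := by
      rw [hLe]
      exact Real.log_le_log (by linarith) hq2
    rw [← hLe] at hL ⊢
    have hL0 : 0 < L := by linarith
    have h2 : Real.log q / L + 1 ≤ 2 / L * Real.log q := by
      rw [div_mul_eq_mul_div, div_add_one hL0.ne']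
      exact div_le_div_of_nonneg_right (by linarith) hL0.le
    calc 1 / ((q : ℝ) - 1) * (Real.log q / L + 1) ≤ 1 / ((q : ℝ) - 1) * (2 / L * Real.log q) :=
          mul_le_mul_of_nonneg_left h2 hq3.le
      _ = _ := by ring
  refine le_trans h1 ?_
  rw [← Finset.mul_sum]
  have h2 := logsum_le (w := z ^ l) (N := z ^ m) (Nat.one_le_pow _ _ (by omega)) (Nat.one_le_pow _ _ (by omega))
  have h3 : Real.log ((z ^ m : ℕ) : ℝ) = m * L := by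
    rw [Nat.cast_pow, Real.log_pow, hLe]
  rw [h3] at h2
  have h4 : 1 / ((z ^ l : ℕ) : ℝ) ≤ 1 / 10 := by
    refine one_div_le_one_div_of_le (by norm_num) ?_
    exact_mod_cast le_trans hz hwz
  rw [← hLe] at hL
  have hL0 : 0 < L := by linarith
  have h5 : 0 ≤ (m : ℝ) * L + 2 := by positivity
  have h6 : (1 + 1 / ((z ^ l : ℕ) : ℝ)) * ((m : ℝ) * L + 2) ≤ 11 / 10 * ((m : ℝ) * L + 2) :=
    mul_le_mul_of_nonneg_right (by linarith) h5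
  have h7 := le_trans h2 h6
  have h8 : 2 / L * ∑ q ∈ PP (z ^ l) (z ^ m), 1 / ((q : ℝ) - 1) * Real.log q ≤
      2 / L * (11 / 10 * ((m : ℝ) * L + 2)) := mul_le_mul_of_nonneg_left h7 (by positivity)
  refine le_trans h8 ?_
  have h9 : 2 / L * (11 / 10 * ((m : ℝ) * L + 2)) = (11 / 5 * ((m : ℝ) * L + 2)) / L := by ring
  rw [h9, div_le_iff₀ hL0]
  nlinarith [mul_le_mul_of_nonneg_right hm1 hL0.le]

private theorem N14_Gn (Q : Finset ℕ) (hQ : ∀ p ∈ Q, Nat.Prime p) (z j : ℕ) :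
    Gn Q z j ≤ ∏ p ∈ Q, (1 + 1 / ((p : ℝ) - 1)) := by
  classical
  rw [← nt_sum_powerset]
  unfold Gn
  refine Finset.sum_le_sum_of_subset_of_nonneg (Finset.filter_subset _ _) ?_
  intro A hA _
  unfold ph
  refine one_div_nonneg.2 (Finset.prod_nonneg fun p hp => ?_)
  have h1 : (1 : ℝ) < p := by exact_mod_cast (hQ p (Finset.mem_powerset.1 hA hp)).one_lt
  linarith

private theorem N14_avg (Q S : Finset ℕ) (hQ : ∀ p ∈ Q, Nat.Prime p) (hS : ∀ p ∈ S, Nat.Prime p) {z : ℕ}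
    (hz : 2 ≤ z) (J r : ℕ) {m : ℝ} (hm : ∑ q ∈ S, 1 / ((q : ℝ) - 1) * (Real.log q / Real.log z + 1) ≤ m) :
    ∑ j ∈ Ioc J (J + r), ∑ q ∈ S, 1 / ((q : ℝ) - 1) * tl Q z j q ≤
      m * ∏ p ∈ Q, (1 + 1 / ((p : ℝ) - 1)) := by
  have hP0 : 0 ≤ ∏ p ∈ Q, (1 + 1 / ((p : ℝ) - 1)) := by
    refine Finset.prod_nonneg fun p hp => ?_
    have h1 : (1 : ℝ) < p := by exact_mod_cast (hQ p hp).one_lt
    have : 0 < 1 / ((p : ℝ) - 1) := one_div_pos.2 (by linarith)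
    linarith
  obtain ⟨P, hPe⟩ : ∃ P, P = ∏ p ∈ Q, (1 + 1 / ((p : ℝ) - 1)) := ⟨_, rfl⟩
  have hG : Gn Q z (J + r) ≤ P := by
    rw [hPe]
    exact N14_Gn Q hQ z (J + r)
  rw [← hPe] at hP0 ⊢
  have hLz : 0 < Real.log z := Real.log_pos (by exact_mod_cast (by omega : 1 < z))
  rw [Finset.sum_comm]
  have h1 : ∑ q ∈ S, ∑ j ∈ Ioc J (J + r), 1 / ((q : ℝ) - 1) * tl Q z j q ≤
      ∑ q ∈ S, 1 / ((q : ℝ) - 1) * (Real.log q / Real.log z + 1) * P := by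
    refine Finset.sum_le_sum fun q hq => ?_
    rw [← Finset.mul_sum]
    have hq1 : (1 : ℝ) < q := by exact_mod_cast (hS q hq).one_lt
    have hq2 : 0 < 1 / ((q : ℝ) - 1) := one_div_pos.2 (by linarith)
    have hq3 : 0 ≤ Real.log q / Real.log z + 1 := by
      have : 0 ≤ Real.log q := Real.log_nonneg hq1.le
      positivity
    have h2 := tl_avg1 Q hQ hz J r (q := q) (hS q hq).one_le
    have h3 : (Real.log q / Real.log z + 1) * Gn Q z (J + r) ≤ (Real.log q / Real.log z + 1) * P :=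
      mul_le_mul_of_nonneg_left hG hq3
    rw [mul_assoc]
    exact mul_le_mul_of_nonneg_left (le_trans h2 h3) hq2.le
  refine le_trans h1 ?_
  rw [← Finset.sum_mul]
  exact mul_le_mul_of_nonneg_right hm hP0

theorem lev2 : ∃ C0 : ℕ, ∀ (R : Prm) (C Cq Cm : ℕ) (c cD Λ δ : ℝ) (Cx g g2 g3 : ℕ) (ε : ℝ), C0 ≤ Cx →
    ParV R C Cq Cm c cD Λ δ Cx g g2 g3 ε → ∀ᶠ z : ℕ in atTop, ∀ p1 : ℕ, p1.Prime → z ^ (R.q + 2) < p1 →
    ∃ j : ℕ, jr R ≤ j ∧ j ≤ 2 * jr R ∧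
      ∑ q ∈ P2 R z p1 g3 \ Ps R z p1, 1 / ((q : ℝ) - 1) * tl (Q2 R z p1 g) z j q ≤ δ * Gn (Q2 R z p1 g) z j ∧
      ∑ q ∈ Q2 R z p1 g, 1 / ((q : ℝ) - 1) * tl (Q2 R z p1 g) z j q ≤ 1 / 500 * Gn (Q2 R z p1 g) z j := by
  obtain ⟨C2, _, hG⟩ := Gn_Q2
  refine ⟨50000, fun R C Cq Cm c cD Λ δ Cx g g2 g3 ε hC hv => ?_⟩
  filter_upwards [hG R C Cq Cm c cD Λ δ Cx g g2 g3 ε (by omega) hv, eventually_ge_atTop 10] with z hz1 hz2 p1 hp hp1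
  obtain ⟨_, _, hGn⟩ := hz1 p1 hp hp1
  obtain ⟨_, _, _, s4, s5, _⟩ := sets hv (by omega) (z := z) (by omega) hp1
  obtain ⟨e1, e2, _, e4, _, _, e7, e8, _, e10, e11, _⟩ := exps hv
  obtain ⟨_, _, f3, f4, f5⟩ := exps' hv
  have hPrQ : ∀ p ∈ Q2 R z p1 g, Nat.Prime p := by
    intro p hp'
    rw [s5] at hp'
    unfold PP at hp'
    exact (Finset.mem_filter.1 hp').2
  have hPrS : ∀ p ∈ P2 R z p1 g3 \ Ps R z p1, Nat.Prime p := by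
    intro p hp'
    rw [s4] at hp'
    unfold PP at hp'
    exact (Finset.mem_filter.1 hp').2
  have hbS : ∑ q ∈ P2 R z p1 g3 \ Ps R z p1, 1 / ((q : ℝ) - 1) * (Real.log q / Real.log z + 1) ≤
      3 * (l2 R g3 : ℝ) := by
    rw [s4]
    exact N14_br hz2 e2 (by omega)
  have hbQ : ∑ q ∈ Q2 R z p1 g, 1 / ((q : ℝ) - 1) * (Real.log q / Real.log z + 1) ≤
      3 * ((2 * j0 R g : ℕ) : ℝ) := by
    rw [s5]
    exact N14_br hz2 e2 (by omega)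
  have hA2 := N14_avg (Q2 R z p1 g) (P2 R z p1 g3 \ Ps R z p1) hPrQ hPrS (z := z) (by omega) (jr R) (jr R) hbS
  have hA3 := N14_avg (Q2 R z p1 g) (Q2 R z p1 g) hPrQ hPrQ (z := z) (by omega) (jr R) (jr R) hbQ
  have hδ : 0 < δ := hv.pg.hδ
  have hP0 : 0 < ∏ p ∈ Q2 R z p1 g, (1 + 1 / ((p : ℝ) - 1)) := by
    refine Finset.prod_pos fun p hp' => ?_
    have h1 : (1 : ℝ) < p := by exact_mod_cast (hPrQ p hp').one_lt
    have : 0 < 1 / ((p : ℝ) - 1) := one_div_pos.2 (by linarith)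
    linarith
  obtain ⟨P, hPe⟩ : ∃ P, P = ∏ p ∈ Q2 R z p1 g, (1 + 1 / ((p : ℝ) - 1)) := ⟨_, rfl⟩
  rw [← hPe] at hA2 hA3 hP0 hGn
  obtain ⟨A2, hA2e⟩ : ∃ A2 : ℕ → ℝ, A2 = fun j : ℕ =>
    ∑ q ∈ P2 R z p1 g3 \ Ps R z p1, 1 / ((q : ℝ) - 1) * tl (Q2 R z p1 g) z j q := ⟨_, rfl⟩
  obtain ⟨A3, hA3e⟩ : ∃ A3 : ℕ → ℝ, A3 = fun j : ℕ =>
    ∑ q ∈ Q2 R z p1 g, 1 / ((q : ℝ) - 1) * tl (Q2 R z p1 g) z j q := ⟨_, rfl⟩
  have hA2' : ∑ j ∈ Ioc (jr R) (jr R + jr R), A2 j ≤ 3 * (l2 R g3 : ℝ) * P := by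
    rw [hA2e]
    exact hA2
  have hA3' : ∑ j ∈ Ioc (jr R) (jr R + jr R), A3 j ≤ 3 * ((2 * j0 R g : ℕ) : ℝ) * P := by
    rw [hA3e]
    exact hA3
  have hA20 : ∀ j, 0 ≤ A2 j := by
    intro j
    rw [hA2e]
    refine Finset.sum_nonneg fun q hq => ?_
    have h1 : (1 : ℝ) < q := by exact_mod_cast (hPrS q hq).one_lt
    have h2 : 0 < 1 / ((q : ℝ) - 1) := one_div_pos.2 (by linarith)
    exact mul_nonneg h2.le (tl_nonneg _ hPrQ z j q)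
  have hA30 : ∀ j, 0 ≤ A3 j := by
    intro j
    rw [hA3e]
    refine Finset.sum_nonneg fun q hq => ?_
    have h1 : (1 : ℝ) < q := by exact_mod_cast (hPrQ q hq).one_lt
    have h2 : 0 < 1 / ((q : ℝ) - 1) := one_div_pos.2 (by linarith)
    exact mul_nonneg h2.le (tl_nonneg _ hPrQ z j q)
  -- sizes
  have hCx : (50000 : ℝ) ≤ Cx := by exact_mod_cast hC
  have hjr : 1 ≤ jr R := by
    by_contra hcon
    have h0 : jr R = 0 := by omega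
    rw [h0] at e8
    have : Cx * R.u = 0 := by omega
    rcases Nat.mul_eq_zero.1 this with h | h <;> omega
  have hjr8 : (8 : ℝ) * jr R = R.k1 := by exact_mod_cast e8
  have hj0 : (Cx : ℝ) * j0 R g ≤ R.k1 := by exact_mod_cast f3
  have hl2 : (g3 : ℝ) * l2 R g3 = R.k1 := by exact_mod_cast e7
  have hg2 : (1 : ℝ) ≤ g2 := by exact_mod_cast (by omega : 1 ≤ g2)
  have hδ3 := hv.hδ3
  have hl20 : (0 : ℝ) ≤ l2 R g3 := Nat.cast_nonneg _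
  have hj00 : (0 : ℝ) ≤ j0 R g := Nat.cast_nonneg _
  have hl2δ : (l2 R g3 : ℝ) / δ ≤ R.k1 / Cx := by
    rw [div_le_div_iff₀ hδ (by linarith)]
    have h1 : (Cx : ℝ) ≤ δ * g3 := by
      refine le_trans ?_ hδ3
      nlinarith
    calc (l2 R g3 : ℝ) * Cx ≤ (l2 R g3 : ℝ) * (δ * g3) := mul_le_mul_of_nonneg_left h1 hl20
      _ = (g3 : ℝ) * l2 R g3 * δ := by ring
      _ = R.k1 * δ := by rw [hl2]
  have hj0' : (j0 R g : ℝ) ≤ R.k1 / Cx := by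
    rw [le_div_iff₀ (by linarith)]
    linarith
  have hk1 : (R.k1 : ℝ) / Cx ≤ 8 * jr R / 50000 := by
    rw [← hjr8]
    exact div_le_div_of_nonneg_left (by positivity) (by norm_num) hCx
  have hcast : ((2 * j0 R g : ℕ) : ℝ) = 2 * (j0 R g : ℝ) := by push_cast; ring
  rw [hcast] at hA3'
  have hsum : ∑ j ∈ Ioc (jr R) (jr R + jr R), (A2 j / δ + 500 * A3 j) ≤
      ∑ _j ∈ Ioc (jr R) (jr R + jr R), P / 2 := by
    rw [Finset.sum_add_distrib, ← Finset.sum_div, ← Finset.mul_sum, Finset.sum_const, Nat.card_Ioc,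
      Nat.add_sub_cancel_left, nsmul_eq_mul]
    have h1 : (∑ j ∈ Ioc (jr R) (jr R + jr R), A2 j) / δ ≤ 3 * (l2 R g3 : ℝ) * P / δ :=
      div_le_div_of_nonneg_right hA2' hδ.le
    have h2 : 3 * (l2 R g3 : ℝ) * P / δ = 3 * ((l2 R g3 : ℝ) / δ) * P := by ring
    have h3 : 3 * ((l2 R g3 : ℝ) / δ) * P ≤ 3 * (8 * jr R / 50000) * P :=
      mul_le_mul_of_nonneg_right (by linarith) hP0.le
    have h4 : 3 * (2 * (j0 R g : ℝ)) * P ≤ 3 * (2 * (8 * jr R / 50000)) * P :=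
      mul_le_mul_of_nonneg_right (by linarith) hP0.le
    have h5 : (0 : ℝ) ≤ jr R * P := mul_nonneg (Nat.cast_nonneg _) hP0.le
    nlinarith
  obtain ⟨j, hj, hjle⟩ := Finset.exists_le_of_sum_le ⟨jr R + 1, Finset.mem_Ioc.2 ⟨by omega, by omega⟩⟩ hsum
  rw [Finset.mem_Ioc] at hj
  have hGj := hGn j hj.1.le
  have h2 : A2 j / δ + 500 * A3 j ≤ P / 2 := hjle
  have h3 := hA20 j
  have h4 := hA30 j
  have h5 : 0 ≤ A2 j / δ := div_nonneg h3 hδ.le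
  refine ⟨j, hj.1.le, by omega, ?_, ?_⟩
  · have h6 : A2 j / δ ≤ Gn (Q2 R z p1 g) z j := by linarith
    rw [div_le_iff₀ hδ] at h6
    have h7 : A2 j = ∑ q ∈ P2 R z p1 g3 \ Ps R z p1, 1 / ((q : ℝ) - 1) * tl (Q2 R z p1 g) z j q := by
      rw [hA2e]
    rw [← h7, mul_comm]
    exact h6
  · have h7 : A3 j = ∑ q ∈ Q2 R z p1 g, 1 / ((q : ℝ) - 1) * tl (Q2 R z p1 g) z j q := by
      rw [hA3e]
    rw [← h7]
    linarith

end Pool.Agent.LibFB63
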