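import Pool.Agent.LibFB63.N06
import Pool.Agent.LibFB63.N10
import Pool.Agent.LibGL22.Z4
import Pool.Agent.LibGL22.V1

/-!
Row N15 (MEDIUM): the sharp bound `vG Gs Gn(Pb) ≥ 1/(4(1+δ))`. `PG = Ps ∪ Pb` (`Pb = PG \ Ps`, `Ps ⊆ PG`), `GR_union`: `Gn PG z κ ≤ Gs Gn Pb z κ`. `LibGL22.gn_ge` with `t = 0`, `S = ∅`, `k2 = κ ≤ k1`, `ε := δ/16`: `(1 - δ/16)(κ log z (φ(W)/W V1)) ≤ Gn PG z κ`
(`PG = PL z k1 p1` is the set there; make the statement uniform in `κ` by a finite intersection over `κ ∈ range (k1+1)`: `(Finset.eventually_all ..)` / `Filter.eventually_all_finset`); `vG = W/(φ(W) V1 q log z)`, so `κ log z (φ(W)/W V1) = κ/(q vG)`. Finally `q = 4 k1 ≤ 4 κ (1 + …)`: `κ ≥ k1 - 10 u - dl`,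
`10 u ≤ (δ/6) k1` (`hv.pg.hM : 60 ≤ δ M`, `k1 = M u`), `dl = k1/g2 ≤ (δ/Cx) k1` (`hδ2 : Cx ≤ δ g2`), `Cx ≥ 20`: `κ ≥ k1 (1 - δ/6 - δ/20)` and `1/((1 - δ/16)(1 - δ/6 - δ/20)) ≤ 1 + δ` for `0 < δ ≤ 1/8`.
-/

open Finset Filter

namespace Pool.Agent.LibFB63

open Pool.Agent.LibRG87 Pool.Agent.LibLG5 Pool.Agent.LibPL63 Pool.Agent.LibSC93 Pool.Agent.LibGL22

theorem ratio1 : ∀ (R : Prm) (C Cq Cm : ℕ) (c cD Λ δ : ℝ) (Cx g g2 g3 : ℕ) (ε : ℝ), 20 ≤ Cx →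
    ParV R C Cq Cm c cD Λ δ Cx g g2 g3 ε → ∀ᶠ z : ℕ in atTop, ∀ p1 : ℕ, p1.Prime → z ^ (R.q + 2) < p1 →
    ∀ κ : ℕ, κ + 10 * R.u ≤ R.k1 → R.k1 ≤ κ + 10 * R.u + dl R g2 →
      1 ≤ 4 * (1 + δ) * (vG R z p1 * (Gs R z p1 * Gn (Pb R z p1) z κ)) := by
  intro R C Cq Cm c cD Λ δ Cx g g2 g3 ε h20 hv
  obtain ⟨hu, hl1, hlu, -, -, hdl, -, -, hq, -, -, -⟩ := exps hv
  have hδ := hv.pg.hδ
  have hδ1 := hv.pg.hδ1
  have hk1 : R.k1 = R.M * R.u := rfl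
  have hl1k : l1 R ≤ R.k1 := by
    have h1 : 1 ≤ R.M := by
      rcases Nat.eq_zero_or_pos R.M with h | h
      · have := hv.pg.hM
        rw [h] at this
        norm_num at this
      · exact h
    calc l1 R ≤ R.u := hlu
      _ = 1 * R.u := (one_mul _).symm
      _ ≤ R.M * R.u := Nat.mul_le_mul_right _ h1
  have hε : 0 < δ / 16 := by linarith
  have hev : ∀ᶠ z : ℕ in atTop, ∀ κ ∈ Finset.range (R.k1 + 1), ∀ p1 : ℕ, p1.Prime → z < p1 →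
      ∀ S ⊆ PL z R.k1 p1, S.card ≤ 0 →
        (1 - δ / 16) * (κ * Real.log z * (((Wp z p1).totient : ℝ) / (Wp z p1 : ℝ) * V1p (P0 z p1))) ≤
          Gn (PL z R.k1 p1 \ S) z κ := by
    rw [Filter.eventually_all_finset]
    intro κ hκ
    exact gn_ge 0 R.k1 κ (Nat.lt_succ_iff.1 (Finset.mem_range.1 hκ)) hε
  filter_upwards [hev, eventually_ge_atTop 3] with z hz hz3 p1 hp1 hlt κ hκ1 hκ2
  have hzp : z < p1 := by
    refine lt_of_le_of_lt ?_ hlt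
    exact Nat.le_self_pow (by omega) z
  have hg := hz κ (Finset.mem_range.2 (by omega)) p1 hp1 hzp ∅ (Finset.empty_subset _) (by simp)
  rw [Finset.sdiff_empty] at hg
  -- the union
  have hsub : Ps R z p1 ⊆ PG R z p1 := by
    intro p hp
    obtain ⟨h1, h2, h3, h4⟩ := mem_PL.1 hp
    exact mem_PL.2 ⟨h1, h2, h3, h4.trans (Nat.pow_le_pow_right (by omega) hl1k)⟩
  have hun : Ps R z p1 ∪ Pb R z p1 = PG R z p1 := Finset.union_sdiff_of_subset hsub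
  have hGR := GR_union (Ps R z p1) (Pb R z p1) Finset.disjoint_sdiff (fun p hp => (PG_mem (hsub hp)).1)
    (fun p hp => (PG_mem (Finset.mem_sdiff.1 hp).1).1) ((z : ℝ) ^ κ)
  rw [hun, ← Gn_eq_GR, ← Gn_eq_GR] at hGR
  have hGR' : Gn (PG R z p1) z κ ≤ Gs R z p1 * Gn (Pb R z p1) z κ := hGR
  have hlow : (1 - δ / 16) * (κ * Real.log z * (((Wp z p1).totient : ℝ) / (Wp z p1 : ℝ) * V1p (P0 z p1))) ≤
      Gs R z p1 * Gn (Pb R z p1) z κ := hg.trans hGR'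
  -- positivity
  have hW : (0 : ℝ) < Wp z p1 := by exact_mod_cast Wp_pos z p1
  have hφ : (0 : ℝ) < (Wp z p1).totient := by exact_mod_cast Nat.totient_pos.2 (Wp_pos z p1)
  have hV : 0 < V1p (P0 z p1) := V1p_pos _ fun p hp =>
    (Finset.mem_filter.1 (Finset.mem_of_mem_erase hp)).2
  have hlog : 0 < Real.log z := Real.log_pos (by exact_mod_cast (by omega : 1 < z))
  have hk1pos : (0 : ℝ) < R.k1 := by
    have : 1 ≤ R.k1 := by omega
    exact_mod_cast this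
  have hqr : (R.q : ℝ) = 4 * R.k1 := by rw [hq]; push_cast; ring
  have hqpos : (0 : ℝ) < R.q := by rw [hqr]; linarith
  have hvG : 0 < vG R z p1 := by unfold vG; positivity
  have hprod : vG R z p1 * (κ * Real.log z * (((Wp z p1).totient : ℝ) / (Wp z p1 : ℝ) * V1p (P0 z p1))) =
      κ / R.q := by
    unfold vG
    field_simp
  -- the exponents
  have hκr : (R.k1 : ℝ) * (1 - 13 / 60 * δ) ≤ κ := by
    have h1 : (R.k1 : ℝ) ≤ κ + 10 * R.u + dl R g2 := by exact_mod_cast hκ2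
    have h2 : 10 * (R.u : ℝ) ≤ δ / 6 * R.k1 := by
      have h3 := hv.pg.hM
      have h4 : (0 : ℝ) ≤ R.u := Nat.cast_nonneg _
      have h5 : (R.k1 : ℝ) = R.M * R.u := by rw [hk1]; push_cast; ring
      rw [h5]
      nlinarith
    have h3 : (dl R g2 : ℝ) ≤ δ / 20 * R.k1 := by
      have h4 : (R.k1 : ℝ) = g2 * dl R g2 := by rw [← hdl]; push_cast; ring
      have h5 := hv.hδ2
      have h6 : (20 : ℝ) ≤ Cx := by exact_mod_cast h20
      have h7 : (0 : ℝ) ≤ dl R g2 := Nat.cast_nonneg _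
      rw [h4]
      nlinarith
    nlinarith
  have h1 : (1 - δ / 16) * (κ / R.q) ≤ vG R z p1 * (Gs R z p1 * Gn (Pb R z p1) z κ) := by
    rw [← hprod]
    calc (1 - δ / 16) * (vG R z p1 * (κ * Real.log z *
          (((Wp z p1).totient : ℝ) / (Wp z p1 : ℝ) * V1p (P0 z p1))))
        = vG R z p1 * ((1 - δ / 16) * (κ * Real.log z *
          (((Wp z p1).totient : ℝ) / (Wp z p1 : ℝ) * V1p (P0 z p1)))) := by ring
      _ ≤ _ := mul_le_mul_of_nonneg_left hlow hvG.le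
  have h2 : (1 - 13 / 60 * δ) / 4 ≤ κ / R.q := by
    rw [hqr, div_le_div_iff₀ (by norm_num) (by linarith)]
    nlinarith
  have h3 : (1 - δ / 16) * ((1 - 13 / 60 * δ) / 4) ≤ vG R z p1 * (Gs R z p1 * Gn (Pb R z p1) z κ) :=
    (mul_le_mul_of_nonneg_left h2 (by linarith)).trans h1
  have h4 : 1 ≤ 4 * (1 + δ) * ((1 - δ / 16) * ((1 - 13 / 60 * δ) / 4)) := by
    have h5 : 4 * (1 + δ) * ((1 - δ / 16) * ((1 - 13 / 60 * δ) / 4)) =
        1 + δ * (173 / 240) - δ ^ 2 * (67 / 240) + 13 / 960 * δ ^ 2 * (1 + δ) := by ring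
    rw [h5]
    have h6 : δ ^ 2 ≤ δ * (1 / 8) := by nlinarith
    have h7 : 0 ≤ 13 / 960 * δ ^ 2 * (1 + δ) := by positivity
    nlinarith
  exact h4.trans (mul_le_mul_of_nonneg_left h3 (by linarith))

end Pool.Agent.LibFB63
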