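import Pool.Agent.LibFB63.N00
import Pool.Agent.LibLG5.NT

/-!
Row N04 (SHORT): simple properties of `GR Q t = ∑ A ⊆ Q, rr A ≤ t, 1/ph A`. Terms are positive (`Z_ph_pos`), `Finset.sum_le_sum_of_subset_of_nonneg`; `GR_le`: all subsets, `nt_sum_powerset`; `one_le_GR`: the term `A = ∅` (`rr ∅ = ph ∅ = 1`).
-/

open Finset Filter

namespace Pool.Agent.LibFB63

open Pool.Agent.LibRG87 Pool.Agent.LibLG5 Pool.Agent.LibPL63 Pool.Agent.LibSC93 Pool.Agent.LibGL22

private theorem n04_ph {A : Finset ℕ} (hA : ∀ p ∈ A, Nat.Prime p) : 0 < ph A := by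
  unfold ph
  refine Finset.prod_pos fun p hp => ?_
  have h1 : (1 : ℝ) < p := by exact_mod_cast (hA p hp).one_lt
  linarith

private theorem n04_term {Q A : Finset ℕ} (hQ : ∀ p ∈ Q, Nat.Prime p) (hA : A ⊆ Q) : 0 ≤ 1 / ph A :=
  (div_pos one_pos (n04_ph fun p hp => hQ p (hA hp))).le

theorem GR_mono (Q : Finset ℕ) (hQ : ∀ p ∈ Q, Nat.Prime p) {s t : ℝ} (h : s ≤ t) : GR Q s ≤ GR Q t := by
  classical
  unfold GR
  refine Finset.sum_le_sum_of_subset_of_nonneg ?_ ?_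
  · intro A hA
    rw [Finset.mem_filter] at hA ⊢
    exact ⟨hA.1, hA.2.trans h⟩
  · intro A hA _
    exact n04_term hQ (Finset.mem_powerset.mp (Finset.mem_filter.mp hA).1)

theorem GR_subset {Q1 Q2 : Finset ℕ} (h : Q1 ⊆ Q2) (hQ : ∀ p ∈ Q2, Nat.Prime p) (t : ℝ) : GR Q1 t ≤ GR Q2 t := by
  classical
  unfold GR
  refine Finset.sum_le_sum_of_subset_of_nonneg ?_ ?_
  · intro A hA
    rw [Finset.mem_filter, Finset.mem_powerset] at hA ⊢
    exact ⟨hA.1.trans h, hA.2⟩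
  · intro A hA _
    exact n04_term hQ (Finset.mem_powerset.mp (Finset.mem_filter.mp hA).1)

theorem GR_le (Q : Finset ℕ) (hQ : ∀ p ∈ Q, Nat.Prime p) (t : ℝ) : GR Q t ≤ ∏ p ∈ Q, (1 + 1 / ((p : ℝ) - 1)) := by
  classical
  have h1 : ∏ p ∈ Q, (1 + 1 / ((p : ℝ) - 1)) = ∑ A ∈ Q.powerset, 1 / ph A := by
    rw [Finset.prod_one_add]
    refine Finset.sum_congr rfl fun A _ => ?_
    unfold ph
    rw [one_div, ← Finset.prod_inv_distrib]
    exact Finset.prod_congr rfl fun p _ => one_div _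
  rw [h1]
  unfold GR
  refine Finset.sum_le_sum_of_subset_of_nonneg (Finset.filter_subset _ _) ?_
  intro A hA _
  exact n04_term hQ (Finset.mem_powerset.mp hA)

theorem GR_nonneg (Q : Finset ℕ) (hQ : ∀ p ∈ Q, Nat.Prime p) (t : ℝ) : 0 ≤ GR Q t := by
  classical
  unfold GR
  exact Finset.sum_nonneg fun A hA =>
    n04_term hQ (Finset.mem_powerset.mp (Finset.mem_filter.mp hA).1)

theorem one_le_GR (Q : Finset ℕ) (hQ : ∀ p ∈ Q, Nat.Prime p) {t : ℝ} (ht : 1 ≤ t) : 1 ≤ GR Q t := by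
  classical
  unfold GR
  have hmem : (∅ : Finset ℕ) ∈ Q.powerset.filter (fun A => rr A ≤ t) := by
    rw [Finset.mem_filter]
    refine ⟨Finset.empty_mem_powerset _, ?_⟩
    have h2 : rr ∅ = 1 := by unfold rr; exact Finset.prod_empty
    rw [h2]
    exact ht
  have h1 : (1 : ℝ) / ph ∅ = 1 := by
    have h2 : ph ∅ = 1 := by unfold ph; exact Finset.prod_empty
    rw [h2, div_one]
  have h3 := Finset.single_le_sum (f := fun A => (1 : ℝ) / ph A) (fun A hA =>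
    n04_term hQ (Finset.mem_powerset.mp (Finset.mem_filter.mp hA).1)) hmem
  exact le_trans h1.ge h3

end Pool.Agent.LibFB63
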