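import Pool.Agent.LibFB63.N03
import Pool.Agent.LibFB63.N04
import Pool.Agent.LibFB63.N10
import Pool.Agent.LibGL22.V1

/-!
Row N16 (SHORT/MEDIUM): `vG Gs Gn(Pb) ≤ C0`. `Gn Pb z κ ≤ ∏_{Pb}` (`GR_le`), `Gs ∏_{Pb} = ∏_{PP z (z^k1)} ≤ C1 k1` (`sets`, `prod_bounds` with `l = 1`, `z^1 = z`; disjoint union or `PP z (z^k1) = Ps ∪ Pb`), `vG ≤ Cm0/q` with the ABSOLUTE constant `Cm0` of `mertp : ∃ Cm, MertP Cm` (LibSC93/X1.lean) in `LibGL22.vG_facts`; `q = 4 k1`.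
`Gs_le`: `Gs = ∏_{PP z (z^l1)} ≤ C1 l1 ≤ q` as `C1 u ≤ Cx u ≤ k1`.
-/

open Finset Filter

namespace Pool.Agent.LibFB63

open Pool.Agent.LibRG87 Pool.Agent.LibLG5 Pool.Agent.LibPL63 Pool.Agent.LibSC93 Pool.Agent.LibGL22

private theorem N16_prime {w z p : ℕ} (hp : p ∈ PP w z) : Nat.Prime p := by
  unfold PP at hp
  exact (Finset.mem_filter.1 hp).2

private theorem N16_fac_pos {p : ℕ} (hp : Nat.Prime p) : (1 : ℝ) ≤ 1 + 1 / ((p : ℝ) - 1) := by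
  have h2 : (2 : ℝ) ≤ p := by exact_mod_cast hp.two_le
  have h3 : (0 : ℝ) ≤ 1 / ((p : ℝ) - 1) := by
    apply div_nonneg
    · norm_num
    · linarith
  linarith

private theorem N16_prod_one_le (Q : Finset ℕ) (hQ : ∀ p ∈ Q, Nat.Prime p) :
    (1 : ℝ) ≤ ∏ p ∈ Q, (1 + 1 / ((p : ℝ) - 1)) := by
  induction Q using Finset.induction_on with
  | empty => simp
  | insert a s ha ih =>
    rw [Finset.prod_insert ha]
    have h1 := N16_fac_pos (hQ a (Finset.mem_insert_self a s))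
    have h2 := ih (fun p hp => hQ p (Finset.mem_insert_of_mem hp))
    nlinarith

theorem ratio2 : ∃ C0 : ℕ, ∀ (R : Prm) (C Cq Cm : ℕ) (c cD Λ δ : ℝ) (Cx g g2 g3 : ℕ) (ε : ℝ), C0 ≤ Cx →
    ParV R C Cq Cm c cD Λ δ Cx g g2 g3 ε → ∀ᶠ z : ℕ in atTop, ∀ p1 : ℕ, p1.Prime → z ^ (R.q + 2) < p1 →
    ∀ κ : ℕ, vG R z p1 * (Gs R z p1 * Gn (Pb R z p1) z κ) ≤ Cx := by
  obtain ⟨C1, hC1, hpb⟩ := prod_bounds
  obtain ⟨Cm0, hm0⟩ := mertp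
  refine ⟨20 + C1 * Cm0, fun R C Cq Cm c cD Λ δ Cx g g2 g3 ε hC hv => ?_⟩
  have h20 : 20 ≤ Cx := by omega
  obtain ⟨hu, hl1, hl1u, -, -, -, -, -, hq4, -, -, -⟩ := exps hv
  obtain ⟨-, -, -, -, hCu⟩ := exps' hv
  have hk1 : 1 ≤ R.k1 := by
    have : 20 * 1 ≤ Cx * R.u := Nat.mul_le_mul h20 hu
    omega
  have hlk : l1 R ≤ R.k1 := by
    have : 1 * R.u ≤ Cx * R.u := Nat.mul_le_mul_right _ (by omega)
    omega
  have hq1 : 1 ≤ R.q := by omega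
  filter_upwards [vG_facts hq1 hm0, eventually_ge_atTop 2] with z hz1 hz2 p1 hp hp1 κ
  obtain ⟨hv1, hv2, -, -, -⟩ := hz1 p1 hp
  obtain ⟨s1, s2, s3, -, -, -⟩ := sets hv h20 hz2 hp1
  have hPb : ∀ p ∈ Pb R z p1, Nat.Prime p := by
    intro p hp
    rw [s3] at hp
    exact N16_prime hp
  have hPs : ∀ p ∈ Ps R z p1, Nat.Prime p := by
    intro p hp
    rw [s1] at hp
    exact N16_prime hp
  have hsub : Ps R z p1 ⊆ PG R z p1 := by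
    rw [s1, s2]
    intro p hp
    unfold PP at hp ⊢
    rw [Finset.mem_filter, Finset.mem_Ioc] at hp ⊢
    exact ⟨⟨hp.1.1, hp.1.2.trans (Nat.pow_le_pow_right (by omega) hlk)⟩, hp.2⟩
  have hX : Gn (Pb R z p1) z κ ≤ ∏ p ∈ Pb R z p1, (1 + 1 / ((p : ℝ) - 1)) := by
    rw [Gn_eq_GR]
    exact GR_le _ hPb _
  have hGs1 : 1 ≤ Gs R z p1 := by
    unfold Gs
    exact N16_prod_one_le _ hPs
  have hprod : (∏ p ∈ Pb R z p1, (1 + 1 / ((p : ℝ) - 1))) * Gs R z p1 ≤ C1 * (R.k1 : ℝ) := by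
    have h1 : (∏ p ∈ Pb R z p1, (1 + 1 / ((p : ℝ) - 1))) * Gs R z p1 =
        ∏ p ∈ PG R z p1, (1 + 1 / ((p : ℝ) - 1)) := by
      unfold Gs Pb
      exact Finset.prod_sdiff hsub
    rw [h1, s2]
    have h2 := (hpb z 1 R.k1 hz2 le_rfl hk1).1
    rw [pow_one] at h2
    simpa using h2
  have hk1R : (0 : ℝ) < R.k1 := by exact_mod_cast hk1
  have hqR : (R.q : ℝ) = 4 * R.k1 := by
    rw [hq4]
    push_cast
    ring
  have hv0 : 0 ≤ vG R z p1 := by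
    refine le_trans ?_ hv1
    positivity
  have hGX : Gs R z p1 * Gn (Pb R z p1) z κ ≤ C1 * (R.k1 : ℝ) := by
    calc Gs R z p1 * Gn (Pb R z p1) z κ ≤ Gs R z p1 * ∏ p ∈ Pb R z p1, (1 + 1 / ((p : ℝ) - 1)) :=
          mul_le_mul_of_nonneg_left hX (by linarith)
      _ = (∏ p ∈ Pb R z p1, (1 + 1 / ((p : ℝ) - 1))) * Gs R z p1 := by ring
      _ ≤ _ := hprod
  have hC1k : (0 : ℝ) ≤ C1 * (R.k1 : ℝ) := by positivity
  calc vG R z p1 * (Gs R z p1 * Gn (Pb R z p1) z κ) ≤ vG R z p1 * (C1 * (R.k1 : ℝ)) :=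
        mul_le_mul_of_nonneg_left hGX hv0
    _ ≤ (Cm0 / R.q) * (C1 * (R.k1 : ℝ)) := mul_le_mul_of_nonneg_right hv2 hC1k
    _ = (C1 : ℝ) * Cm0 / 4 := by
        rw [hqR]
        field_simp
    _ ≤ Cx := by
        have h5 : ((20 + C1 * Cm0 : ℕ) : ℝ) ≤ Cx := by exact_mod_cast hC
        push_cast at h5
        have h6 : (0 : ℝ) ≤ (C1 : ℝ) * Cm0 := by positivity
        linarith

theorem Gs_le : ∃ C0 : ℕ, ∀ (R : Prm) (C Cq Cm : ℕ) (c cD Λ δ : ℝ) (Cx g g2 g3 : ℕ) (ε : ℝ), C0 ≤ Cx →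
    ParV R C Cq Cm c cD Λ δ Cx g g2 g3 ε → ∀ᶠ z : ℕ in atTop, ∀ p1 : ℕ, p1.Prime → z ^ (R.q + 2) < p1 →
    1 ≤ Gs R z p1 ∧ Gs R z p1 ≤ Cx * l1 R ∧ Gs R z p1 ≤ R.q := by
  obtain ⟨C1, hC1, hpb⟩ := prod_bounds
  refine ⟨20 + C1, fun R C Cq Cm c cD Λ δ Cx g g2 g3 ε hC hv => ?_⟩
  have h20 : 20 ≤ Cx := by omega
  obtain ⟨hu, hl1, hl1u, -, -, -, -, -, hq4, -, -, -⟩ := exps hv
  obtain ⟨-, -, -, -, hCu⟩ := exps' hv
  filter_upwards [eventually_ge_atTop 2] with z hz2 p1 hp hp1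
  obtain ⟨s1, s2, s3, -, -, -⟩ := sets hv h20 hz2 hp1
  have hPs : ∀ p ∈ Ps R z p1, Nat.Prime p := by
    intro p hp
    rw [s1] at hp
    exact N16_prime hp
  have hGs1 : 1 ≤ Gs R z p1 := by
    unfold Gs
    exact N16_prod_one_le _ hPs
  have hG : Gs R z p1 ≤ C1 * (l1 R : ℝ) := by
    unfold Gs
    rw [s1]
    have h2 := (hpb z 1 (l1 R) hz2 le_rfl hl1).1
    rw [pow_one] at h2
    simpa using h2
  have h3 : C1 * l1 R ≤ Cx * l1 R := Nat.mul_le_mul_right _ (by omega)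
  have h4 : Cx * l1 R ≤ R.q := by
    have : Cx * l1 R ≤ Cx * R.u := Nat.mul_le_mul_left _ hl1u
    omega
  have h3R : (C1 : ℝ) * l1 R ≤ Cx * l1 R := by exact_mod_cast h3
  have h4R : (Cx : ℝ) * l1 R ≤ R.q := by exact_mod_cast h4
  exact ⟨hGs1, hG.trans h3R, (hG.trans h3R).trans h4R⟩

end Pool.Agent.LibFB63
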