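import Pool.Agent.LibFB63.N01
import Pool.Agent.LibFB63.N10

/-!
Row N17 (SHORT/MEDIUM): the sum over `Pc = PP (z^(k1-2 j0)) (z^(k1-j0))`. `rec_abs` with `x = z^(k1-2j0)`, `y = z^(k1-j0)` (real powers are casts of naturals, `⌊x⌋₊ = z^(k1-2j0)`), `log y/log x = (k1-j0)/(k1-2j0)`; `log t ≥ 1 - 1/t`: `≥ j0/(k1-j0) ≥ j0/k1 = 1/g`; `log t ≤ t - 1`: `≤ j0/(k1-2j0) ≤ 2/g` (`20 j0 ≤ k1`);
the error `K0/log x` tends to 0.
-/

open Finset Filter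

namespace Pool.Agent.LibFB63

open Pool.Agent.LibRG87 Pool.Agent.LibLG5 Pool.Agent.LibPL63 Pool.Agent.LibSC93 Pool.Agent.LibGL22

theorem Pc_sum : ∀ (R : Prm) (C Cq Cm : ℕ) (c cD Λ δ : ℝ) (Cx g g2 g3 : ℕ) (ε : ℝ), 20 ≤ Cx →
    ParV R C Cq Cm c cD Λ δ Cx g g2 g3 ε → ∀ᶠ z : ℕ in atTop, ∀ p1 : ℕ, p1.Prime → z ^ (R.q + 2) < p1 →
    1 / (2 * g : ℝ) ≤ ∑ p ∈ Pc R z p1 g, 1 / (p : ℝ) ∧ ∑ p ∈ Pc R z p1 g, 1 / (p : ℝ) ≤ 3 / (g : ℝ) := by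
  intro R C Cq Cm c cD Λ δ Cx g g2 g3 ε h20 hv
  obtain ⟨K0, hK0, hrec⟩ := rec_abs
  obtain ⟨hu, _, _, _, hgj, _, _, _, _, hg1, _, _⟩ := exps hv
  obtain ⟨_, _, hCj, huj, _⟩ := exps' hv
  obtain ⟨k, hk⟩ : ∃ k, k = R.k1 := ⟨_, rfl⟩
  obtain ⟨j, hj⟩ : ∃ j, j = j0 R g := ⟨_, rfl⟩
  rw [← hk, ← hj] at hgj hCj
  rw [← hj] at huj
  have hj1 : 1 ≤ j := by nlinarith
  have h20j : 20 * j ≤ k := le_trans (Nat.mul_le_mul_right j h20) hCj
  have hgR : (0 : ℝ) < g := by exact_mod_cast hg1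
  have hlog : ∀ᶠ z : ℕ in atTop, 2 * g * K0 ≤ Real.log (z : ℝ) :=
    (Real.tendsto_log_atTop.comp tendsto_natCast_atTop_atTop).eventually_ge_atTop _
  filter_upwards [hlog, eventually_ge_atTop 2] with z hz hz2 p1 _ hp1
  obtain ⟨_, _, _, _, _, hPc⟩ := sets hv h20 hz2 hp1
  rw [← hk, ← hj] at hPc
  rw [hPc]
  have hz1 : (1 : ℝ) ≤ z := by exact_mod_cast le_trans (by norm_num) hz2
  have hz2' : (2 : ℝ) ≤ z := by exact_mod_cast hz2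
  have hlz : 0 < Real.log (z : ℝ) := Real.log_pos (by linarith)
  have hx : (2 : ℝ) ≤ (z : ℝ) ^ (k - 2 * j) := by
    calc (2 : ℝ) ≤ z := hz2'
      _ = (z : ℝ) ^ 1 := (pow_one _).symm
      _ ≤ (z : ℝ) ^ (k - 2 * j) := pow_le_pow_right₀ hz1 (by omega)
  have hxy : (z : ℝ) ^ (k - 2 * j) ≤ (z : ℝ) ^ (k - j) := pow_le_pow_right₀ hz1 (by omega)
  have h1 := hrec _ _ hx hxy
  have hf1 : ⌊(z : ℝ) ^ (k - 2 * j)⌋₊ = z ^ (k - 2 * j) := by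
    rw [← Nat.cast_pow, Nat.floor_natCast]
  have hf2 : ⌊(z : ℝ) ^ (k - j)⌋₊ = z ^ (k - j) := by
    rw [← Nat.cast_pow, Nat.floor_natCast]
  rw [hf1, hf2, Real.log_pow, Real.log_pow] at h1
  have hc1 : ((k - j : ℕ) : ℝ) = (k : ℝ) - j := by
    rw [Nat.cast_sub (by omega)]
  have hc2 : ((k - 2 * j : ℕ) : ℝ) = (k : ℝ) - 2 * j := by
    rw [Nat.cast_sub (by omega)]
    push_cast
    ring
  rw [hc1, hc2] at h1
  have hjR : (1 : ℝ) ≤ j := by exact_mod_cast hj1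
  have hkR : (20 : ℝ) * j ≤ k := by exact_mod_cast h20j
  have hgjR : (g : ℝ) * j = k := by exact_mod_cast hgj
  have hd : (1 : ℝ) ≤ (k : ℝ) - 2 * j := by linarith
  have hd0 : (0 : ℝ) < (k : ℝ) - 2 * j := by linarith
  have hn0 : (0 : ℝ) < (k : ℝ) - j := by linarith
  have hk0 : (0 : ℝ) < (k : ℝ) := by linarith
  have hratio : ((k : ℝ) - j) * Real.log z / (((k : ℝ) - 2 * j) * Real.log z) =
      ((k : ℝ) - j) / ((k : ℝ) - 2 * j) := by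
    rw [mul_div_mul_right _ _ hlz.ne']
  rw [hratio] at h1
  have hinvg : (1 : ℝ) / g = j / k := by
    rw [← hgjR]
    field_simp
  have hlow : 1 / (g : ℝ) ≤ Real.log (((k : ℝ) - j) / ((k : ℝ) - 2 * j)) := by
    have ht : 0 < ((k : ℝ) - j) / ((k : ℝ) - 2 * j) := div_pos hn0 hd0
    have h2 := Real.one_sub_inv_le_log_of_pos ht
    refine le_trans ?_ h2
    rw [inv_div, hinvg, div_le_iff₀ hk0]
    have h3 : 1 - ((k : ℝ) - 2 * j) / ((k : ℝ) - j) = j / ((k : ℝ) - j) := by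
      field_simp
      ring
    rw [h3, div_mul_eq_mul_div, le_div_iff₀ hn0]
    nlinarith
  have hupp : Real.log (((k : ℝ) - j) / ((k : ℝ) - 2 * j)) ≤ 2 / (g : ℝ) := by
    have ht : 0 < ((k : ℝ) - j) / ((k : ℝ) - 2 * j) := div_pos hn0 hd0
    have h2 := Real.log_le_sub_one_of_pos ht
    refine le_trans h2 ?_
    have h3 : ((k : ℝ) - j) / ((k : ℝ) - 2 * j) - 1 = j / ((k : ℝ) - 2 * j) := by
      rw [div_sub_one hd0.ne']
      congr 1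
      ring
    have h4 : (2 : ℝ) / g = 2 * j / k := by
      rw [← hgjR]
      field_simp
    rw [h3, h4, div_le_div_iff₀ hd0 hk0]
    nlinarith
  have herr : K0 / (((k : ℝ) - 2 * j) * Real.log z) ≤ 1 / (2 * g) := by
    rw [div_le_div_iff₀ (mul_pos hd0 hlz) (by positivity), one_mul]
    calc K0 * (2 * g) = 2 * g * K0 := by ring
      _ ≤ Real.log z := hz
      _ = 1 * Real.log z := (one_mul _).symm
      _ ≤ ((k : ℝ) - 2 * j) * Real.log z := mul_le_mul_of_nonneg_right hd hlz.le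
  obtain ⟨h5, h6⟩ := abs_le.1 h1
  have h7 : (1 : ℝ) / g = 2 * (1 / (2 * g)) := by
    field_simp
  have h8 : (3 : ℝ) / g = 6 * (1 / (2 * g)) := by
    field_simp
    norm_num
  have h9 : (2 : ℝ) / g = 4 * (1 / (2 * g)) := by
    field_simp
    norm_num
  have h10 : 0 < 1 / (2 * (g : ℝ)) := by positivity
  constructor
  · linarith
  · rw [h8]
    linarith

end Pool.Agent.LibFB63
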