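import Pool.Agent.LibFB63.N11
import Pool.Agent.LibFB63.N12
import Pool.Agent.LibFB63.N17

/-!
Row N23 (SHORT/MEDIUM): `t1v` and `t2v` are comparable. `κ ≥ k1/2` (`hκ'`, `exps'`). `G := G1²/(G2 Gs)` is `≥ 0` (squares; `G2G`, `Gs` are sums/products of nonnegative terms; if you need positivity use `one_le_G` with `BaseG` from `baseG hv.pg 1 one_pos`). `t1v = G/Gn Pb`, `t2v = G S/Gn Q2`, `S = ∑_{Pc} 1/p ∈ [1/(2g), 3/g]` (`Pc_sum`).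
`Gn Q2 ≤ ∏_{Q2} ≤ C2' (2 j0/l1)`, `k1/l1 ≤ C2 Gn Pb`: `t1v/t2v = Gn Q2/(Gn Pb S) ≤ C2' C2 (2 j0/k1) (2 g) = 4 C2' C2`. `Gn Pb ≤ ∏_{Pb} ≤ C2 k1/l1`, `2 j0/l1 ≤ C2' ∏_{Q2} ≤ 2 C2' Gn Q2`: `t2v/t1v = Gn Pb S/Gn Q2 ≤ C2 2 C2' (k1/(2 j0)) (3/g) = 3 C2 C2'`.
-/

open Finset Filter

namespace Pool.Agent.LibFB63

open Pool.Agent.LibRG87 Pool.Agent.LibLG5 Pool.Agent.LibPL63 Pool.Agent.LibSC93 Pool.Agent.LibGL22

private theorem N23_alg {A B D S X Y g J K l C1 C2 Cx : ℝ} (hA : 0 ≤ A) (hB : 1 ≤ B) (hD : 1 ≤ D)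
    (hg : 1 ≤ g) (hl : 1 ≤ l) (hJK : g * J = K) (hJ : 0 ≤ J) (hC1 : 1 ≤ C1) (hC2 : 1 ≤ C2)
    (hCx : 4 * (C1 * C2) ≤ Cx) (hS1 : 1 / (2 * g) ≤ S) (hS2 : S ≤ 3 / g)
    (hDY : D ≤ Y) (hY : Y ≤ C2 * (2 * J / l)) (hY2 : 2 * J / l ≤ C2 * Y) (hYD : Y ≤ 2 * D)
    (hBX : B ≤ X) (hX : X ≤ C1 * (K / l)) (hKB : K / l ≤ C1 * B) :
    A / B ≤ Cx * (A * S / D) ∧ A * S / D ≤ Cx * (A / B) := by
  have hB0 : 0 < B := by linarith
  have hD0 : 0 < D := by linarith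
  have hg0 : 0 < g := by linarith
  have hl0 : 0 < l := by linarith
  have hS0 : 0 < S := lt_of_lt_of_le (by positivity) hS1
  have hC12 : 0 ≤ C1 * C2 := by positivity
  have hgS : 1 ≤ 2 * (g * S) := by
    rw [div_le_iff₀ (by positivity)] at hS1
    linarith
  have hgS2 : g * S ≤ 3 := by
    rw [le_div_iff₀ hg0] at hS2
    linarith
  have hK : K / l = g * (J / l) := by
    rw [← hJK]
    ring
  have hJl : 0 ≤ J / l := by positivity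
  have hJl2 : 2 * J / l = 2 * (J / l) := by ring
  rw [hJl2] at hY hY2
  rw [hK] at hX hKB
  obtain ⟨t, ht⟩ : ∃ t : ℝ, t = J / l := ⟨_, rfl⟩
  rw [← ht] at hY hY2 hX hKB hJl
  -- `D ≤ Cx * S * B`
  have h1 : D ≤ Cx * (S * B) := by
    have h2 : D ≤ C2 * (2 * t) := hDY.trans hY
    have h3 : t ≤ 2 * (g * S) * t := le_mul_of_one_le_left hJl hgS
    have h4 : 2 * (g * S) * t ≤ 2 * S * (C1 * B) := by
      calc 2 * (g * S) * t = 2 * S * (g * t) := by ring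
        _ ≤ 2 * S * (C1 * B) := mul_le_mul_of_nonneg_left hKB (by positivity)
    calc D ≤ C2 * (2 * t) := h2
      _ ≤ C2 * (2 * (2 * S * (C1 * B))) := by
          refine mul_le_mul_of_nonneg_left ?_ (by linarith)
          linarith
      _ = 4 * (C1 * C2) * (S * B) := by ring
      _ ≤ Cx * (S * B) := mul_le_mul_of_nonneg_right hCx (by positivity)
  -- `S * B ≤ Cx * D`
  have h2 : S * B ≤ Cx * D := by
    have h3 : B ≤ C1 * (g * t) := hBX.trans hX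
    have h4 : 2 * t ≤ C2 * (2 * D) := hY2.trans (mul_le_mul_of_nonneg_left hYD (by linarith))
    have h5 : t ≤ C2 * D := by linarith
    calc S * B ≤ S * (C1 * (g * t)) := mul_le_mul_of_nonneg_left h3 hS0.le
      _ = (g * S) * (C1 * t) := by ring
      _ ≤ 3 * (C1 * t) := mul_le_mul_of_nonneg_right hgS2 (by positivity)
      _ ≤ 3 * (C1 * (C2 * D)) := by
          refine mul_le_mul_of_nonneg_left ?_ (by norm_num)
          exact mul_le_mul_of_nonneg_left h5 (by linarith)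
      _ ≤ 4 * (C1 * C2) * D := by
          have : 0 ≤ C1 * C2 * D := by positivity
          linarith
      _ ≤ Cx * D := mul_le_mul_of_nonneg_right hCx hD0.le
  constructor
  · rw [div_le_iff₀ hB0]
    have h3 : Cx * (A * S / D) * B = A * (Cx * (S * B)) / D := by ring
    rw [h3, le_div_iff₀ hD0]
    exact mul_le_mul_of_nonneg_left h1 hA
  · rw [div_le_iff₀ hD0]
    have h3 : Cx * (A / B) * D = A * (Cx * D) / B := by ring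
    rw [h3, le_div_iff₀ hB0, mul_assoc]
    exact mul_le_mul_of_nonneg_left h2 hA

theorem ratio3 : ∃ C0 : ℕ, ∀ (R : Prm) (C Cq Cm : ℕ) (c cD Λ δ : ℝ) (Cx g g2 g3 : ℕ) (ε : ℝ), C0 ≤ Cx →
    ParV R C Cq Cm c cD Λ δ Cx g g2 g3 ε → ∀ᶠ z : ℕ in atTop, ∀ p1 : ℕ, p1.Prime → z ^ (R.q + 2) < p1 →
    ∀ κ j : ℕ, LevP R g g2 g3 δ z p1 κ j →
      t1v R z p1 κ ≤ Cx * t2v R z p1 g j ∧ t2v R z p1 g j ≤ Cx * t1v R z p1 κ := by
  obtain ⟨C1, hC1, H1⟩ := Gn_Pb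
  obtain ⟨C2, hC2, H2⟩ := Gn_Q2
  refine ⟨4 * (C1 * C2) + 48, ?_⟩
  intro R C Cq Cm c cD Λ δ Cx g g2 g3 ε hC0 hv
  have h48 : 48 ≤ Cx := by omega
  filter_upwards [H1 R C Cq Cm c cD Λ δ Cx g g2 g3 ε (by omega) hv, H2 R C Cq Cm c cD Λ δ Cx g g2 g3 ε h48 hv,
    Pc_sum R C Cq Cm c cD Λ δ Cx g g2 g3 ε (by omega) hv, eventually_ge_atTop 2] with z h1 h2 h3 hz
  intro p1 hp1 hzp κ j hL
  obtain ⟨hX, hKB⟩ := h1 p1 hp1 hzp
  obtain ⟨hY, hY2, hYD⟩ := h2 p1 hp1 hzp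
  obtain ⟨hS1, hS2⟩ := h3 p1 hp1 hzp
  obtain ⟨hu, hl1, _, _, hgj, _, _, _, _, hg, _, _⟩ := exps hv
  obtain ⟨_, hdl, hCj, huj, _⟩ := exps' hv
  obtain ⟨sPs, sPG, sPb, _, sQ2, _⟩ := sets hv (by omega) hz hzp
  have hPP : ∀ w N : ℕ, ∀ p ∈ PP w N, Nat.Prime p := fun w N p hp => (Finset.mem_filter.1 hp).2
  have hPb : ∀ p ∈ Pb R z p1, Nat.Prime p := by
    rw [sPb]
    exact hPP _ _
  have hQ2 : ∀ p ∈ Q2 R z p1 g, Nat.Prime p := by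
    rw [sQ2]
    exact hPP _ _
  have hPG : ∀ p ∈ PG R z p1, Nat.Prime p := by
    rw [sPG]
    exact hPP _ _
  have hPs : ∀ p ∈ Ps R z p1, Nat.Prime p := by
    rw [sPs]
    exact hPP _ _
  have hκ : R.k1 ≤ 2 * κ := by
    have h4 : 48 * j0 R g ≤ R.k1 := (Nat.mul_le_mul_right _ h48).trans hCj
    have h5 := hL.hκ'
    omega
  have hz1 : (1 : ℝ) ≤ z := by exact_mod_cast (by omega : 1 ≤ z)
  have hB1 : 1 ≤ Gn (Pb R z p1) z κ := one_le_GR _ hPb (one_le_pow₀ hz1)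
  have hD1 : 1 ≤ Gn (Q2 R z p1 g) z j := one_le_GR _ hQ2 (one_le_pow₀ hz1)
  have hGs : 0 ≤ Gs R z p1 := by
    unfold Gs
    refine Finset.prod_nonneg fun p hp => ?_
    have h5 : (1 : ℝ) ≤ p := by exact_mod_cast (hPs p hp).one_lt.le
    have h6 : 0 ≤ 1 / ((p : ℝ) - 1) := div_nonneg zero_le_one (by linarith)
    linarith
  have hG2 : 0 ≤ G2G R z p1 := zero_le_one.trans (one_le_G2s _ hPG (by omega))
  have hA : 0 ≤ G1G R z p1 ^ 2 / (G2G R z p1 * Gs R z p1) := div_nonneg (sq_nonneg _) (mul_nonneg hG2 hGs)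
  have hcx : (4 * ((C1 : ℝ) * C2)) ≤ Cx := by
    have h5 : 4 * (C1 * C2) ≤ Cx := by omega
    exact_mod_cast h5
  have key := N23_alg (A := G1G R z p1 ^ 2 / (G2G R z p1 * Gs R z p1)) (B := Gn (Pb R z p1) z κ)
    (D := Gn (Q2 R z p1 g) z j) (S := ∑ p ∈ Pc R z p1 g, 1 / (p : ℝ))
    (X := ∏ p ∈ Pb R z p1, (1 + 1 / ((p : ℝ) - 1))) (Y := ∏ p ∈ Q2 R z p1 g, (1 + 1 / ((p : ℝ) - 1)))
    (g := g) (J := (j0 R g : ℕ)) (K := (R.k1 : ℕ)) (l := (l1 R : ℕ)) (C1 := C1) (C2 := C2) (Cx := Cx)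
    hA hB1 hD1 (by exact_mod_cast hg) (by exact_mod_cast hl1) (by exact_mod_cast hgj) (Nat.cast_nonneg _)
    (by exact_mod_cast hC1) (by exact_mod_cast hC2) hcx hS1 hS2 (GR_le _ hQ2 _) hY hY2 (hYD j hL.hj)
    (GR_le _ hPb _) hX (hKB κ hκ)
  have e1 : t1v R z p1 κ = G1G R z p1 ^ 2 / (G2G R z p1 * Gs R z p1) / Gn (Pb R z p1) z κ := by
    unfold t1v
    rw [div_div]
  have e2 : t2v R z p1 g j = G1G R z p1 ^ 2 / (G2G R z p1 * Gs R z p1) *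
      (∑ p ∈ Pc R z p1 g, 1 / (p : ℝ)) / Gn (Q2 R z p1 g) z j := rfl
  rw [e1, e2]
  exact key

end Pool.Agent.LibFB63
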