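import Pool.Agent.LibFB63.N13
import Pool.Agent.LibFB63.N14
import Pool.Agent.LibFB63.N15
import Pool.Agent.LibFB63.N16
import Pool.Agent.LibFB63.N23

/-!
Block N: choice of the levels, sizes of the constants.
-/

open Finset Filter

namespace Pool.Agent.LibFB63

open Pool.Agent.LibRG87 Pool.Agent.LibLG5 Pool.Agent.LibPL63 Pool.Agent.LibSC93 Pool.Agent.LibGL22

theorem levels : ∃ C0 : ℕ, ∀ (R : Prm) (C Cq Cm : ℕ) (c cD Λ δ : ℝ) (Cx g g2 g3 : ℕ) (ε : ℝ), C0 ≤ Cx →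
    ParV R C Cq Cm c cD Λ δ Cx g g2 g3 ε → ∀ᶠ z : ℕ in atTop, ∀ p1 : ℕ, p1.Prime → z ^ (R.q + 2) < p1 →
    ∃ κ j : ℕ, LevP R g g2 g3 δ z p1 κ j := by
  obtain ⟨C1, h1⟩ := lev1
  obtain ⟨C2, h2⟩ := lev2
  refine ⟨max C1 C2, fun R C Cq Cm c cD Λ δ Cx g g2 g3 ε hC hv => ?_⟩
  filter_upwards [h1 R C Cq Cm c cD Λ δ Cx g g2 g3 ε ((le_max_left _ _).trans hC) hv,
    h2 R C Cq Cm c cD Λ δ Cx g g2 g3 ε ((le_max_right _ _).trans hC) hv] with z hz1 hz2 p1 hp hp1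
  obtain ⟨κ, k1, k2, k3⟩ := hz1 p1 hp hp1
  obtain ⟨j, j1, j2, j3, j4⟩ := hz2 p1 hp hp1
  exact ⟨κ, j, ⟨k1, k2, j1, j2, k3, j3, j4⟩⟩

theorem ratios : ∃ C0 : ℕ, ∀ (R : Prm) (C Cq Cm : ℕ) (c cD Λ δ : ℝ) (Cx g g2 g3 : ℕ) (ε : ℝ), C0 ≤ Cx →
    ParV R C Cq Cm c cD Λ δ Cx g g2 g3 ε → ∀ᶠ z : ℕ in atTop, ∀ p1 : ℕ, p1.Prime → z ^ (R.q + 2) < p1 →
    ∀ κ j : ℕ, LevP R g g2 g3 δ z p1 κ j →
      t1v R z p1 κ ≤ 4 * (1 + δ) * (vG R z p1 * G1G R z p1 ^ 2 / G2G R z p1) ∧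
      vG R z p1 * G1G R z p1 ^ 2 / G2G R z p1 ≤ Cx * t1v R z p1 κ ∧
      t1v R z p1 κ ≤ Cx * t2v R z p1 g j ∧ t2v R z p1 g j ≤ Cx * t1v R z p1 κ := by
  obtain ⟨C2, h2⟩ := ratio2
  obtain ⟨C3, h3⟩ := ratio3
  obtain ⟨C4, h4⟩ := Gs_le
  refine ⟨20 + C2 + C3 + C4, fun R C Cq Cm c cD Λ δ Cx g g2 g3 ε hC hv => ?_⟩
  filter_upwards [ratio1 R C Cq Cm c cD Λ δ Cx g g2 g3 ε (by omega) hv, h2 R C Cq Cm c cD Λ δ Cx g g2 g3 ε (by omega) hv,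
    h3 R C Cq Cm c cD Λ δ Cx g g2 g3 ε (by omega) hv, h4 R C Cq Cm c cD Λ δ Cx g g2 g3 ε (by omega) hv,
    baseG hv.pg 1 one_pos, eventually_ge_atTop 1] with z hz1 hz2 hz3 hz4 hz5 hz6 p1 hp hp1 κ j hL
  have r1 := hz1 p1 hp hp1 κ hL.hκ hL.hκ'
  have r2 := hz2 p1 hp hp1 κ
  have r3 := hz3 p1 hp hp1 κ j hL
  have r4 := (hz4 p1 hp hp1).1
  have hG := one_le_G (hz5 p1)
  have hX : 1 ≤ Gn (Pb R z p1) z κ := by
    rw [Gn_eq_GR]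
    refine one_le_GR _ (fun p hp => ?_) (one_le_pow₀ (by exact_mod_cast hz6))
    exact (PG_mem (Finset.mem_sdiff.1 hp).1).1
  set G := Gs R z p1
  set X := Gn (Pb R z p1) z κ
  have hG2 : 0 < G2G R z p1 := by linarith [hG.2]
  have hGX : 0 < G * X := by positivity
  have e1 : t1v R z p1 κ = G1G R z p1 ^ 2 / G2G R z p1 * (1 / (G * X)) := by
    show G1G R z p1 ^ 2 / (G2G R z p1 * G * X) = _
    have hG0 : G ≠ 0 := by linarith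
    have hX0 : X ≠ 0 := by linarith
    field_simp
  have hA : 0 ≤ G1G R z p1 ^ 2 / G2G R z p1 := by positivity
  refine ⟨?_, ?_, r3⟩
  · rw [e1]
    have : 1 / (G * X) ≤ 4 * (1 + δ) * vG R z p1 := by
      rw [div_le_iff₀ hGX]
      calc (1 : ℝ) ≤ _ := r1
        _ = _ := by ring
    calc _ ≤ G1G R z p1 ^ 2 / G2G R z p1 * (4 * (1 + δ) * vG R z p1) := mul_le_mul_of_nonneg_left this hA
      _ = _ := by ring
  · rw [e1]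
    have : vG R z p1 ≤ Cx * (1 / (G * X)) := by
      rw [mul_one_div, le_div_iff₀ hGX]
      exact r2
    calc _ = G1G R z p1 ^ 2 / G2G R z p1 * vG R z p1 := by ring
      _ ≤ G1G R z p1 ^ 2 / G2G R z p1 * (Cx * (1 / (G * X))) := mul_le_mul_of_nonneg_left this hA
      _ = _ := by ring

end Pool.Agent.LibFB63
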