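import Pool.Agent.LibFB63.U
import Pool.Agent.LibFB63.N
import Pool.Agent.LibFB63.K
import Pool.Agent.LibFB63.Cc
import Pool.Agent.LibFB63.F3
import Pool.Agent.LibFB63.F4
import Pool.Agent.LibFB63.F5
import Pool.Agent.LibFB63.F6
import Pool.Agent.LibGL22.S1
import Pool.Agent.LibGL22.S3
import Pool.Agent.LibGL22.S4
import Pool.Agent.LibGL22.F1

/-!
Block F (owner helper37): the final functional and the choice of the parameters.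
-/

open Finset Filter

namespace Pool.Agent.LibFB63

open Pool.Agent.LibRG87 Pool.Agent.LibLG5 Pool.Agent.LibPL63 Pool.Agent.LibSC93 Pool.Agent.LibGL22 Pool.Agent.LibBW4

private theorem F_mul {δ x y c : ℝ} (hδ : 0 < δ) (h : c / δ ≤ x) (hxy : x ≤ y) : c ≤ δ * y := by
  have h1 : c / δ ≤ y := h.trans hxy
  rw [div_le_iff₀ hδ] at h1
  rw [mul_comm]
  exact h1

/-- choice of `ε`, `δ`, `η` -/
private theorem F_eps {X : ℝ} (hX : 4 ≤ X) : ∃ ε δ η : ℝ, 0 < ε ∧ X ^ 2 * X ^ 4 * ε ≤ 1 ∧ 2 * X * ε ≤ 1 ∧ 0 < δ ∧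
    δ ≤ 1 / 8 ∧ X * δ ≤ ε ∧ 0 < η ∧ η ≤ 1 / 4 ∧ 4 * δ ≤ η ∧
    1 / 4 + 2 * η ≤ 1 / 4 + ε / (100 * X) - 25 * √δ := by
  have hX0 : (0 : ℝ) < X := by linarith
  obtain ⟨ε, hεdef⟩ : ∃ ε : ℝ, ε = 1 / (X ^ 2 * X ^ 4) := ⟨_, rfl⟩
  have hε : 0 < ε := by
    rw [hεdef]
    positivity
  have hε1 : X ^ 2 * X ^ 4 * ε ≤ 1 := by
    rw [hεdef]
    exact le_of_eq (mul_one_div_cancel (by positivity))
  have hεC : 2 * X * ε ≤ 1 := by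
    refine le_trans ?_ hε1
    refine mul_le_mul_of_nonneg_right ?_ hε.le
    have e1 : (2 : ℝ) ≤ X ^ 5 := by
      calc (2 : ℝ) ≤ 4 ^ 5 := by norm_num
        _ ≤ X ^ 5 := pow_le_pow_left₀ (by norm_num) hX 5
    calc 2 * X ≤ X ^ 5 * X := mul_le_mul_of_nonneg_right e1 hX0.le
      _ = X ^ 2 * X ^ 4 := by ring
  have hε2 : ε ≤ 1 / 8 := by
    have e1 : 8 * ε ≤ 2 * X * ε := mul_le_mul_of_nonneg_right (by linarith) hε.le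
    linarith
  clear hεdef
  obtain ⟨r, hr⟩ : ∃ r : ℝ, r = ε / (10 ^ 4 * X) := ⟨_, rfl⟩
  have hr0 : 0 < r := by
    rw [hr]
    positivity
  have hrX : r * (10 ^ 4 * X) = ε := by
    rw [hr]
    exact div_mul_cancel₀ _ (by positivity)
  have hr1 : r ≤ 1 := by
    rw [hr, div_le_one (by positivity)]
    linarith
  have hsqrt : √(r ^ 2) = r := Real.sqrt_sq hr0.le
  have hδs : r ^ 2 ≤ r := by
    calc r ^ 2 = r * r := sq r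
      _ ≤ 1 * r := mul_le_mul_of_nonneg_right hr1 hr0.le
      _ = r := one_mul r
  have hXr : X * r ^ 2 ≤ ε := by
    calc X * r ^ 2 ≤ X * r := mul_le_mul_of_nonneg_left hδs hX0.le
      _ ≤ 10 ^ 4 * (X * r) := by
          have : 0 < X * r := mul_pos hX0 hr0
          linarith
      _ = ε := by rw [← hrX]; ring
  have hr4 : r ^ 2 ≤ ε := by
    have : 1 * r ^ 2 ≤ X * r ^ 2 := mul_le_mul_of_nonneg_right (by linarith) (by positivity)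
    linarith
  have he1 : ε / (400 * X) = 25 * r := by
    rw [hr]
    field_simp
    norm_num
  have he2 : ε / (100 * X) = 100 * r := by
    rw [hr]
    field_simp
    norm_num
  have hrs : r ≤ 1 / 100 := by
    rw [hr, div_le_iff₀ (by positivity)]
    linarith
  refine ⟨ε, r ^ 2, 25 * r, hε, hε1, hεC, by positivity, by linarith, hXr, by positivity, by linarith, by linarith, ?_⟩
  rw [hsqrt, he2]
  linarith

/-- choice of `g2`, `g3`, `M`, `D`, `I` -/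
private theorem F_num {Cx C b : ℕ} {c δ : ℝ} (hCx : 4 ≤ Cx) (hC : 1 ≤ C) (hb : 1 ≤ b) (hc : 0 < c) (hδ : 0 < δ) :
    ∃ g2 g3 M D I : ℕ, 4 * Cx ≤ g2 ∧ (Cx : ℝ) ≤ δ * g2 ∧ (Cx : ℝ) * g2 ≤ δ * g3 ∧ 60 ≤ δ * M ∧ 100 * (Cx + g3) ≤ M ∧
      8 ∣ M ∧ Cx ∣ M ∧ g2 ∣ M ∧ g3 ∣ M ∧ 1 ≤ D ∧ (128 * C : ℝ) ≤ δ * c * D ∧ (Cx : ℝ) ≤ δ * D ∧ 1 ≤ I ∧
      (Cx : ℝ) ^ 2 * (4 : ℝ) ^ (4 * g3 + 5) / δ ≤ c ^ 2 * I / (16 * C * M * D * b) := by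
  obtain ⟨g2', hg2'⟩ := exists_nat_ge ((Cx : ℝ) / δ)
  obtain ⟨g2, hg2def⟩ : ∃ g2 : ℕ, g2 = g2' + 4 * Cx := ⟨_, rfl⟩
  have hg2b : (Cx : ℝ) ≤ δ * g2 := F_mul hδ hg2' (by exact_mod_cast (by omega : g2' ≤ g2))
  have hg2a : 4 * Cx ≤ g2 := by omega
  clear hg2def hg2'
  obtain ⟨g3', hg3'⟩ := exists_nat_ge ((Cx : ℝ) * g2 / δ)
  obtain ⟨g3, hg3def⟩ : ∃ g3 : ℕ, g3 = g3' + 1 := ⟨_, rfl⟩
  have hg3b : (Cx : ℝ) * g2 ≤ δ * g3 := F_mul hδ hg3' (by exact_mod_cast (by omega : g3' ≤ g3))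
  have hg31 : 1 ≤ g3 := by omega
  clear hg3def hg3'
  obtain ⟨t, ht⟩ := exists_nat_ge ((60 : ℝ) / δ)
  have hg21 : 1 ≤ g2 := by omega
  obtain ⟨M, hMdef⟩ : ∃ M : ℕ, M = 8 * Cx * g2 * g3 * (100 * (t + 1)) := ⟨_, rfl⟩
  have hpos8 : 1 ≤ 8 * Cx * g2 * g3 := by
    have h1 : 0 < Cx := by omega
    have : 0 < 8 * Cx * g2 * g3 := by positivity
    exact this
  have hMt : t + 1 ≤ M := by
    calc t + 1 ≤ 100 * (t + 1) := by omega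
      _ = 1 * (100 * (t + 1)) := (one_mul _).symm
      _ ≤ 8 * Cx * g2 * g3 * (100 * (t + 1)) := Nat.mul_le_mul_right _ hpos8
      _ = M := hMdef.symm
  have hM60 : 60 ≤ δ * M := F_mul hδ ht (by exact_mod_cast (by omega : t ≤ M))
  have hM80 : 100 * (Cx + g3) ≤ M := by
    have e1 : Cx + g3 ≤ 8 * Cx * g2 * g3 := by
      have e2 : Cx ≤ Cx * g3 := Nat.le_mul_of_pos_right _ hg31
      have e3 : g3 ≤ Cx * g3 := Nat.le_mul_of_pos_left _ (by omega)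
      have e4 : Cx * g3 ≤ Cx * g3 * g2 := Nat.le_mul_of_pos_right _ hg21
      have e5 : 8 * Cx * g2 * g3 = 8 * (Cx * g3 * g2) := by ring
      rw [e5]
      generalize Cx * g3 * g2 = y at e4 ⊢
      generalize Cx * g3 = x at e2 e3 e4
      omega
    calc 100 * (Cx + g3) ≤ 100 * (8 * Cx * g2 * g3) := Nat.mul_le_mul_left _ e1
      _ ≤ 100 * (8 * Cx * g2 * g3) * (t + 1) := Nat.le_mul_of_pos_right _ (by omega)
      _ = M := by rw [hMdef]; ring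
  have hM8 : 8 ∣ M := ⟨Cx * g2 * g3 * (100 * (t + 1)), by rw [hMdef]; ring⟩
  have hMg : Cx ∣ M := ⟨8 * g2 * g3 * (100 * (t + 1)), by rw [hMdef]; ring⟩
  have hMg2 : g2 ∣ M := ⟨8 * Cx * g3 * (100 * (t + 1)), by rw [hMdef]; ring⟩
  have hMg3 : g3 ∣ M := ⟨8 * Cx * g2 * (100 * (t + 1)), by rw [hMdef]; ring⟩
  have hM1 : 1 ≤ M := by omega
  clear hMdef
  have hδc : 0 < δ * c := mul_pos hδ hc
  obtain ⟨D1, hD1'⟩ := exists_nat_ge ((128 * C : ℝ) / (δ * c))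
  obtain ⟨D2, hD2'⟩ := exists_nat_ge ((Cx : ℝ) / δ)
  obtain ⟨D, hDdef⟩ : ∃ D : ℕ, D = D1 + D2 + 1 := ⟨_, rfl⟩
  have hDa : (128 * C : ℝ) ≤ δ * c * D := F_mul hδc hD1' (by exact_mod_cast (by omega : D1 ≤ D))
  have hDb : (Cx : ℝ) ≤ δ * D := F_mul hδ hD2' (by exact_mod_cast (by omega : D2 ≤ D))
  have hD1 : 1 ≤ D := by omega
  clear hDdef
  have hMR : (0 : ℝ) < M := by exact_mod_cast hM1
  have hDR : (0 : ℝ) < D := by exact_mod_cast hD1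
  have hCR : (0 : ℝ) < C := by exact_mod_cast hC
  have hbR : (0 : ℝ) < b := by exact_mod_cast hb
  have hden : 0 < 16 * (C : ℝ) * M * D * b := by positivity
  have hc2 : 0 < c ^ 2 := by positivity
  obtain ⟨I', hI'⟩ := exists_nat_ge ((Cx : ℝ) ^ 2 * (4 : ℝ) ^ (4 * g3 + 5) / δ * (16 * (C : ℝ) * M * D * b) / c ^ 2)
  obtain ⟨I, hIdef⟩ : ∃ I : ℕ, I = I' + 1 := ⟨_, rfl⟩
  have hI1 : 1 ≤ I := by omega
  have hI : (Cx : ℝ) ^ 2 * (4 : ℝ) ^ (4 * g3 + 5) / δ ≤ c ^ 2 * I / (16 * C * M * D * b) := by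
    rw [le_div_iff₀ hden]
    exact F_mul hc2 hI' (by exact_mod_cast (by omega : I' ≤ I))
  exact ⟨g2, g3, M, D, I, hg2a, hg2b, hg3b, hM60, hM80, hM8, hMg, hMg2, hMg3, hD1, hDa, hDb, hI1, hI⟩

/-- the two largeness conditions -/
private theorem F_big {X δ P A s t1 t2 : ℝ} (hX : 1 ≤ X) (hδ : 0 < δ) (hP : 0 < P) (hA : 0 < A)
    (h : X ^ 2 * P / δ ≤ A * s) (h1 : s ≤ X * t1) (h2 : t1 ≤ X * t2) :
    P ≤ δ * (A * t1) ∧ P ≤ δ * (A * t2) ∧ 0 < A * t1 := by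
  have hX0 : 0 < X := by linarith
  have i1 : X * P ≤ δ * (A * t1) := by
    have i2 : X ^ 2 * P / δ ≤ A * (X * t1) := h.trans (mul_le_mul_of_nonneg_left h1 hA.le)
    rw [div_le_iff₀ hδ] at i2
    refine le_of_mul_le_mul_left ?_ hX0
    calc X * (X * P) = X ^ 2 * P := by ring
      _ ≤ A * (X * t1) * δ := i2
      _ = X * (δ * (A * t1)) := by ring
  have i3 : P ≤ δ * (A * t1) := (le_mul_of_one_le_left hP.le hX).trans i1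
  refine ⟨i3, ?_, ?_⟩
  · refine le_of_mul_le_mul_left ?_ hX0
    calc X * P ≤ δ * (A * t1) := i1
      _ ≤ δ * (A * (X * t2)) := mul_le_mul_of_nonneg_left (mul_le_mul_of_nonneg_left h2 hA.le) hδ.le
      _ = X * (δ * (A * t2)) := by ring
  · by_contra hneg
    push Not at hneg
    have := mul_nonpos_of_nonneg_of_nonpos hδ.le hneg
    linarith

/-- for one `z`: the bins -/
private theorem F_one {R : Prm} {C Cq Cm : ℕ} {c cD Λ δ : ℝ} {Cx g2 g3 : ℕ} {ε : ℝ}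
    (hp : ParV R C Cq Cm c cD Λ δ Cx Cx g2 g3 ε) (hCx4 : 4 ≤ Cx) (hεC : 2 * Cx * ε ≤ 1) {η : ℝ} (hη : 0 < η)
    (hη1 : η ≤ 1 / 4) (hδη : 4 * δ ≤ η) (hfin : 1 / 4 + 2 * η ≤ 1 / 4 + ε / (100 * Cx) - 25 * √δ) {m b M0 : ℕ}
    (hm1 : 1 ≤ m) (hb : 1 ≤ b) (hmb : (m : ℝ) - 1 < (1 / 4 + η) * b) (hM01 : 1 ≤ M0)
    (hM0k : (b : ℝ) * (2 * R.A2 ^ R.I2 + 16 * (Λ * R.q) + 1) ≤ δ * M0) {B : ℝ} (hB1 : 1 ≤ B) {A : ℝ} {z p1 c0 κ j : ℕ}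
    (hS : ∏ p ∈ PP z (z ^ R.k1), (1 + 1 / ((p : ℝ) - 1)) ≤ B) (hBs : BaseG R cD 1 z p1)
    {h : Fin b → Finset ℕ} {K : Finset ℕ} (hcR : ∀ i, ((h i).card : ℝ) = A) (hA : 0 < A)
    (hkey : (Cx : ℝ) ^ 2 * (4 : ℝ) ^ (4 * g3 + 5) / δ ≤ A * (vG R z p1 * G1G R z p1 ^ 2 / G2G R z p1))
    (hpos : PosS z p1 c0 R.k (Λ * R.q) (univ.biUnion h) K)
    (hN : NumC R Cq Λ δ z p1 (univ.biUnion h) K (Cx * R.k1))
    (g1 : ∑ n ∈ sN (z ^ R.q) (Wp z p1) c0, PsG R z p1 (univ.biUnion h) K n ^ 2 ≤ (1 + δ) * VV R z p1 (univ.biUnion h) K)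
    (g2' : ∑ n ∈ sN (z ^ R.q) (Wp z p1) c0, PsG R z p1 (univ.biUnion h) K n ^ 2 *
            (K.filter fun j => ∀ p ∈ P0 z p1, ¬ p ∣ n + j).card ≤
        (2 * R.A2 ^ R.I2 + 16 * (Λ * R.q) + 1) * VV R z p1 (univ.biUnion h) K)
    (g3' : ∀ i0 ∈ univ.biUnion h, (1 - δ) * (vG R z p1 * (G1G R z p1 ^ 2 *
          (NW R z p1 * (G2G R z p1 ^ (R.k - 1) * DKG R z p1 (univ.biUnion h) K)))) ≤
          ∑ n ∈ sN (z ^ R.q) (Wp z p1) c0, prI i0 n * PsG R z p1 (univ.biUnion h) K n ^ 2)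
    (g4 : ∑ j ∈ K, ∑ n ∈ sN (z ^ R.q) (Wp z p1) c0, prI j n * PsG R z p1 (univ.biUnion h) K n ^ 2 ≤
          δ * VV R z p1 (univ.biUnion h) K)
    (r1 : t1v R z p1 κ ≤ 4 * (1 + δ) * (vG R z p1 * G1G R z p1 ^ 2 / G2G R z p1))
    (r2 : vG R z p1 * G1G R z p1 ^ 2 / G2G R z p1 ≤ Cx * t1v R z p1 κ)
    (r3 : t1v R z p1 κ ≤ Cx * t2v R z p1 Cx j) (r4 : t2v R z p1 Cx j ≤ Cx * t1v R z p1 κ)
    (f4 : ∀ a ∈ univ.biUnion h, ∑ n ∈ sN (z ^ R.q) (Wp z p1) c0, PsG R z p1 (univ.biUnion h) K n ^ 2 *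
            max 0 (ε * X2 R z p1 Cx g3 j a n - X1 R z p1 g3 κ a n) ≤
          ε * (6 / 25) * (t2v R z p1 Cx j * VV R z p1 (univ.biUnion h) K))
    (f5 : ∀ S ⊆ univ.biUnion h, (4 : ℝ) ^ (4 * g3 + 5) ≤ δ * (S.card * t1v R z p1 κ) →
        ∑ n ∈ sN (z ^ R.q) (Wp z p1) c0, PsG R z p1 (univ.biUnion h) K n ^ 2 *
            (∑ a ∈ S, X1 R z p1 g3 κ a n - S.card * t1v R z p1 κ) ^ 2 ≤
          20 * δ * (S.card * t1v R z p1 κ) ^ 2 * VV R z p1 (univ.biUnion h) K)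
    (f6 : ∀ S ⊆ univ.biUnion h, (4 : ℝ) ^ (4 * g3 + 5) ≤ δ * (S.card * t2v R z p1 Cx j) →
        ∑ n ∈ sN (z ^ R.q) (Wp z p1) c0, PsG R z p1 (univ.biUnion h) K n ^ 2 *
            (∑ a ∈ S, X2 R z p1 Cx g3 j a n - S.card * t2v R z p1 Cx j) ^ 2 ≤
          20 * δ * (S.card * t2v R z p1 Cx j) ^ 2 * VV R z p1 (univ.biUnion h) K) :
    η / (4 * bdG R M0 B ^ 2) * (VP (P0 z p1) (univ.biUnion h) / Wp z p1) * (z : ℝ) ^ R.q ≤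
      ∑ n ∈ sN (z ^ R.q) (Wp z p1) c0,
        (rhoP (P0 z p1) (univ.biUnion h) n *
          if m ≤ (univ.filter fun j => ∃ a ∈ h j, (n + a).Prime).card ∧ (∀ a ∈ K, ¬ (n + a).Prime) ∧
            (K.filter fun a => ∀ p ∈ P0 z p1, ¬ p ∣ n + a).card ≤ M0 then 1 else 0) := by
  have hX1 : (1 : ℝ) ≤ Cx := by exact_mod_cast (by omega : 1 ≤ Cx)
  have hG2pos : 0 < G2G R z p1 := lt_of_lt_of_le one_pos hN.G2p
  have hVpos : 0 < VV R z p1 (univ.biUnion h) K := by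
    unfold VV
    have i1 := hN.NWp
    have i3 := hN.DKp
    positivity
  have h4pos : (0 : ℝ) < (4 : ℝ) ^ (4 * g3 + 5) := by positivity
  obtain ⟨b1, b2, b3⟩ := F_big hX1 hN.hδ h4pos hA hkey r2 r3
  refine core3 hp.pg hBs hm1 hb hη hη1 hmb hδη hM01 hM0k hB1 hS hN.NWp hpos g1 g2' (fun i => ?_) g4
  have hsub : h i ⊆ univ.biUnion h := Finset.subset_biUnion_of_mem h (Finset.mem_univ i)
  refine le_trans (mul_le_mul_of_nonneg_right hfin hVpos.le) ?_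
  exact bin_ge hp hCx4 hεC hN.z3 hVpos hG2pos (by rw [hcR]; exact b3) g1 r1 r3 r4
    (f5 (h i) hsub (by rw [hcR]; exact b1)) (f6 (h i) hsub (by rw [hcR]; exact b2))
    (fun x hx => f4 x (hsub hx)) (fun x hx => g3' x (hsub hx))

/-- the probability that a bin is occupied is at least `θ > 1/4` -/
theorem bc : ∃ θ : ℝ, 1 / 4 < θ ∧ (BVprimes → ∀ b m : ℕ, 1 ≤ b → 1 ≤ m → (m : ℝ) - 1 < θ * b → LibGL22T.BCb b m) := by
  classical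
  obtain ⟨a, C, c, hs⟩ := sums
  obtain ⟨Cq0, hCq01, hQ0⟩ := qfrp
  obtain ⟨CS, hCS1, hCS⟩ := NT_S_upper
  obtain ⟨A2, cD, hdn⟩ := dnp
  obtain ⟨Cm, hm⟩ := mertp
  obtain ⟨ha, hC1, hc, hc1, -⟩ := id hs
  obtain ⟨n1, hn1⟩ := avgs
  obtain ⟨n2, hn2⟩ := levels
  obtain ⟨n3, hn3⟩ := ratios
  obtain ⟨n4, hn4⟩ := cost
  obtain ⟨n5, hn5⟩ := conc1
  obtain ⟨n6, hn6⟩ := conc2
  obtain ⟨n7, hn7⟩ := numC
  obtain ⟨Cx, hCxdef⟩ : ∃ Cx : ℕ, Cx = n1 + n2 + n3 + n4 + n5 + n6 + n7 + 4 := ⟨_, rfl⟩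
  set Cq : ℕ := Cq0 + Cx with hCqdef
  have hCq1 : 1 ≤ Cq := by omega
  have hQ : QFRp Cq := hQ0 Cq (by omega)
  have hCx4 : 4 ≤ Cx := by omega
  have l1 : n1 ≤ Cx := by omega
  have l2 : n2 ≤ Cx := by omega
  have l3 : n3 ≤ Cx := by omega
  have l4 : n4 ≤ Cx := by omega
  have l5 : n5 ≤ Cx := by omega
  have l6 : n6 ≤ Cx := by omega
  have l7 : n7 ≤ Cx := by omega
  clear hCxdef
  have hX4 : (4 : ℝ) ≤ Cx := by exact_mod_cast hCx4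
  obtain ⟨ε, δ, η, hε, hε1, hεC, hδ, hδ1, hδε, hη, hη1, hδη, hfin⟩ := F_eps hX4
  refine ⟨1 / 4 + η, by linarith, fun hBV b m hb hm1 hmb => ?_⟩
  obtain ⟨g2, g3, M, D, I, hg2a, hg2b, hg3b, hM60, hM80, hM8, hMg, hMg2, hMg3, hD1, hDa, hDb, hI1, hI⟩ :=
    F_num hCx4 hC1 hb hc hδ
  have hapos : 1 ≤ a ^ I := Nat.pos_of_ne_zero (pow_ne_zero _ (by omega))
  refine ⟨a ^ I, hapos, fun Λ hΛ => ?_⟩
  obtain ⟨I2, r0, R, hR, hpG, heps⟩ := par3 C Cq Cm a A2 c cD hs hQ hCq1 hdn hm M D b I δ hb hδ hδ1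
    hDa hD1 hM60 hI1 Cx Λ hΛ
  have hRM : R.M = M := by rw [hR]
  have hRD : R.D = D := by rw [hR]
  have hRB : R.B = b := by rw [hR]
  have hRa : R.a = a := by rw [hR]
  have hRI : R.I = I := by rw [hR]
  clear hR
  have hp : ParV R C Cq Cm c cD Λ δ Cx Cx g2 g3 ε :=
    { pg := hpG
      hCx := by omega
      hCx1 := le_rfl
      hCqx := by omega
      hg2 := hg2a
      hM8 := by rw [hRM]; exact hM8
      hMg := by rw [hRM]; exact hMg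
      hMg2 := by rw [hRM]; exact hMg2
      hMg3 := by rw [hRM]; exact hMg3
      hM80 := by rw [hRM]; exact hM80
      hε := hε
      hε1 := hε1
      hδε := hδε
      hδ2 := hg2b
      hδ3 := hg3b
      hD2 := by rw [hRD]; exact hDb
      eps3 := heps }
  have hprm := prm_le hpG
  have hk1' : 1 ≤ R.k1 := by omega
  have hq1 : 1 ≤ R.q := by omega
  have hRk : R.k = b * a ^ I := by
    unfold Prm.k
    rw [hRB, hRa, hRI]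
  obtain ⟨M0', hM0'⟩ := exists_nat_ge ((b : ℝ) * (2 * R.A2 ^ R.I2 + 16 * (Λ * R.q) + 1) / δ)
  obtain ⟨M0, hM0def⟩ : ∃ M0 : ℕ, M0 = M0' + 1 := ⟨_, rfl⟩
  have hM01 : 1 ≤ M0 := by omega
  have hM0k : (b : ℝ) * (2 * R.A2 ^ R.I2 + 16 * (Λ * R.q) + 1) ≤ δ * M0 :=
    F_mul hδ hM0' (by exact_mod_cast (by omega : M0' ≤ M0))
  obtain ⟨B, hBdef⟩ : ∃ B : ℝ, B = CS * ((R.k1 : ℕ) : ℝ) := ⟨_, rfl⟩
  have hB1 : 1 ≤ B := by
    rw [hBdef]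
    exact one_le_mul_of_one_le_of_one_le (by exact_mod_cast hCS1) (by exact_mod_cast hk1')
  have hBpos : 0 < bdG R M0 B := by
    unfold bdG
    have : 0 < B := by linarith
    positivity
  refine ⟨R.q, M0, η / (4 * bdG R M0 B ^ 2), hq1, by positivity, ?_⟩
  have hall := (side1 hpG).and ((side2 hpG).and ((side3 hBV hpG).and ((side4 hBV hpG).and
    ((hCS R.k1 hk1').and ((baseG hpG 1 zero_lt_one).and
      ((k0s_ge hpG).and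
      ((hn1 R C Cq Cm c cD Λ δ Cx Cx g2 g3 ε l1 hp).and
      ((hn2 R C Cq Cm c cD Λ δ Cx Cx g2 g3 ε l2 hp).and
      ((hn3 R C Cq Cm c cD Λ δ Cx Cx g2 g3 ε l3 hp).and
      ((hn4 R C Cq Cm c cD Λ δ Cx Cx g2 g3 ε l4 hp).and
      ((hn5 R C Cq Cm c cD Λ δ Cx Cx g2 g3 ε l5 hp).and
      ((hn6 R C Cq Cm c cD Λ δ Cx Cx g2 g3 ε l6 hp).and
      (hn7 R C Cq Cm c cD Λ δ Cx Cx g2 g3 ε l7 hp)))))))))))))
  obtain ⟨z0, hz0⟩ := eventually_atTop.1 hall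
  clear hall
  refine ⟨z0, fun z hz => ?_⟩
  obtain ⟨e1, e2, e3, e4, eS, eB, eK, f1, f2, f3, f4, f5, f6, f7⟩ := hz0 z hz
  obtain ⟨p1, hp1z, hp1⟩ := Nat.exists_infinite_primes (z ^ (R.q + 2) + 1)
  have hp1' : z ^ (R.q + 2) < p1 := by omega
  obtain ⟨κ, j, hlev⟩ := f2 p1 hp1 hp1'
  obtain ⟨r1, r2, r3, r4⟩ := f3 p1 hp1 hp1' κ j hlev
  refine ⟨p1, hp1, fun c0 h K hcard hdis hdK hh hKc => ?_⟩
  have hcardU : (univ.biUnion h).card = R.k := by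
    rw [Finset.card_biUnion (fun i _ j _ hij => hdis hij), hRk]
    simp only [hcard, Finset.sum_const, Finset.card_univ, Fintype.card_fin, smul_eq_mul]
  have hpos : PosS z p1 c0 R.k (Λ * R.q) (univ.biUnion h) K :=
    ⟨hcardU, hdK, hh, by rw [← mul_assoc]; exact hKc⟩
  obtain ⟨hU1, hL1, hU2⟩ := f1 p1 hp1 hp1' c0 (univ.biUnion h) K hpos
  have g1 := e1 p1 hp1 c0 (univ.biUnion h) K hpos
  have hkey : (Cx : ℝ) ^ 2 * (4 : ℝ) ^ (4 * g3 + 5) / δ ≤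
      ((a ^ I : ℕ) : ℝ) * (vG R z p1 * G1G R z p1 ^ 2 / G2G R z p1) := by
    have i1 := eK p1 hp1
    rw [hRM, hRD, hRB, hRa, hRI] at i1
    push_cast
    exact hI.trans i1
  rw [hBdef] at hB1 hBpos ⊢
  exact F_one hp hCx4 hεC hη hη1 hδη hfin hm1 hb hmb hM01 hM0k hB1 eS (eB p1)
    (fun i => by rw [hcard i]) (by exact_mod_cast hapos) hkey hpos (f7 p1 hp1 hp1' c0 (univ.biUnion h) K hpos) g1
    (e2 p1 hp1 c0 (univ.biUnion h) K hpos) (e3 p1 hp1 c0 (univ.biUnion h) K hpos)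
    (e4 p1 hp1 c0 (univ.biUnion h) K hpos) r1 r2 r3 r4
    (f4 p1 hp1 hp1' κ j hlev c0 (univ.biUnion h) K hpos hU1)
    (f5 p1 hp1 hp1' κ j hlev c0 (univ.biUnion h) K hpos hU1 hL1 hU2 g1)
    (f6 p1 hp1 hp1' κ j hlev c0 (univ.biUnion h) K hpos hU1 hL1 hU2 g1)

end Pool.Agent.LibFB63
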