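import Pool.Agent.LibFB63.C6
import Pool.Agent.LibFB63.C0

/-!
Row F1 (SHORT/MEDIUM, values at a prime). `n + a > z^q ≥ z^k1` (`n ∈ sN`: `n > z^q`; `q = 4 k1` by `expo`), and all primes in `P2`, `Pb`, `Q2`, `Pc` are `≤ z^k1` (they are in some `PL z k p1`, `k ≤ k1`), so none of them divides the prime `n + a` (`Nat.prime_dvd_prime_iff_eq`).
Hence `rhoP P2 {a} n = 1`, `La1 = 1` (`Lc_one` of V.lean), `np = 0`.
-/

open Finset Filter

namespace Pool.Agent.LibFB63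

open Pool.Agent.LibRG87 Pool.Agent.LibLG5 Pool.Agent.LibPL63 Pool.Agent.LibSC93 Pool.Agent.LibGL22

private theorem f1_mem {z k p1 p : ℕ} (hp : p ∈ PL z k p1) : p.Prime ∧ p ≤ z ^ k := by
  unfold PL at hp
  have h1 := Finset.mem_of_mem_erase hp
  unfold PP at h1
  simp only [Finset.mem_filter, Finset.mem_Ioc] at h1
  exact ⟨h1.2, h1.1.2⟩

theorem X_prime {R : Prm} {C Cq Cm : ℕ} {c cD Λ δ : ℝ} {Cx g g2 g3 : ℕ} {ε : ℝ} (hp : ParV R C Cq Cm c cD Λ δ Cx g g2 g3 ε)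
    (hCx : 4 ≤ Cx) {z p1 c0 κ j a n : ℕ} (hz : 3 ≤ z) (hn : n ∈ sN (z ^ R.q) (Wp z p1) c0) (hpr : (n + a).Prime) :
    X1 R z p1 g3 κ a n = 1 ∧ X2 R z p1 g g3 j a n = 0 := by
  classical
  obtain ⟨e1, e2, e3, e4, e5, e6, e7, e8, e9, e10, e11, e12, e13⟩ := expo hp hCx
  have hz1 : 1 ≤ z := by omega
  have hn1 : z ^ R.q < n := by
    unfold sN at hn
    rw [Finset.mem_filter, Finset.mem_Ioc] at hn
    exact hn.1.1
  have hkey : ∀ k ≤ R.k1, ∀ p ∈ PL z k p1, ¬ p ∣ n + a := by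
    intro k hk p hpL hdvd
    obtain ⟨h1, h2⟩ := f1_mem hpL
    have h3 : p = n + a := (Nat.prime_dvd_prime_iff_eq h1 hpr).1 hdvd
    have h4 : z ^ k ≤ z ^ R.q := Nat.pow_le_pow_right hz1 (by omega)
    omega
  have hl1 : l1 R ≤ R.k1 := by omega
  have hl2 : l2 R g3 ≤ R.k1 := by omega
  have hrho : rhoP (P2 R z p1 g3) {a} n = 1 := by
    unfold rhoP
    rw [if_pos]
    intro b hb p hpP
    rw [Finset.mem_singleton.1 hb]
    exact hkey _ hl2 p hpP
  have hPb : ∀ p ∈ Pb R z p1, ¬ p ∣ n + a := by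
    intro p hpP
    unfold Pb PG at hpP
    exact hkey _ le_rfl p (Finset.mem_sdiff.1 hpP).1
  have hPbp : ∀ p ∈ Pb R z p1, p.Prime := by
    intro p hpP
    unfold Pb PG at hpP
    exact (f1_mem (Finset.mem_sdiff.1 hpP).1).1
  constructor
  · unfold X1 La1
    rw [hrho, Lc_one _ hPbp hz1 κ hPb, one_pow, mul_one]
  · unfold X2
    have h1 : np R z p1 g (n + a) = 0 := by
      unfold np
      rw [Finset.card_eq_zero, Finset.filter_eq_empty_iff]
      intro p hpP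
      unfold Pc at hpP
      exact hkey _ (Nat.sub_le _ _) p (Finset.mem_sdiff.1 hpP).1
    rw [h1]
    simp

end Pool.Agent.LibFB63
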