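import Mathlib

/-!
A closed set of reals which contains a difference of any `k + 1` reals contains an interval `[0, c]`.
-/

open Finset Filter Topology

namespace Pool.Agent.LibFB63

theorem small_interval {L : Set ℝ} (hL : IsClosed L) {k : ℕ}
    (hk : ∀ s : Finset ℝ, s.card = k + 1 → ∃ a ∈ s, ∃ b ∈ s, a < b ∧ b - a ∈ L) :
    ∃ c : ℝ, 0 < c ∧ Set.Icc 0 c ⊆ L := by
  classical
  set P : ℕ → Prop := fun n => ∃ s : Finset ℝ, s.card = n ∧ ∀ a ∈ s, ∀ b ∈ s, a < b → b - a ∉ L with hP
  have hex : ∃ n, ¬ P n := by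
    refine ⟨k + 1, ?_⟩
    rintro ⟨s, hs, h⟩
    obtain ⟨a, ha, b, hb, hab, hab'⟩ := hk s hs
    exact h a ha b hb hab hab'
  have h0 : P 0 := ⟨∅, Finset.card_empty, fun a ha => absurd ha (Finset.notMem_empty a)⟩
  have h1 : P 1 := ⟨{0}, Finset.card_singleton 0, fun a ha b hb hab => by
    rw [Finset.mem_singleton] at ha hb
    rw [ha, hb] at hab
    exact absurd hab (lt_irrefl _)⟩
  have hn := Nat.find_spec hex
  have hn0 : Nat.find hex ≠ 0 := fun h => by rw [h] at hn; exact hn h0
  have hn1 : Nat.find hex ≠ 1 := fun h => by rw [h] at hn; exact hn h1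
  have hmin : P (Nat.find hex - 1) := by
    by_contra h
    exact Nat.find_min hex (by omega) h
  obtain ⟨s, hs, hcl⟩ := hmin
  have hsne : s.Nonempty := by
    rw [← Finset.card_pos, hs]
    omega
  set M := s.max' hsne with hM
  have hMs : M ∈ s := s.max'_mem hsne
  have hev : ∀ᶠ t : ℝ in 𝓝 0, ∀ a ∈ s.filter (fun a => a < M), M + t - a ∉ L := by
    rw [Filter.eventually_all_finset]
    intro a ha
    rw [Finset.mem_filter] at ha
    have h2 : M - a ∈ Lᶜ := hcl a ha.1 M hMs ha.2
    have h3 : Tendsto (fun t : ℝ => M + t - a) (𝓝 0) (𝓝 (M - a)) := by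
      have h4 : Continuous fun t : ℝ => M + t - a := by fun_prop
      have h5 := h4.tendsto 0
      simpa using h5
    exact h3.eventually (hL.isOpen_compl.mem_nhds h2)
  obtain ⟨c, hc, hball⟩ := Metric.eventually_nhds_iff.1 hev
  have hpos : ∀ t : ℝ, 0 < t → t ≤ c / 2 → t ∈ L := by
    intro t ht htc
    have hts : M + t ∉ s := fun h => by
      have := s.le_max' _ h
      linarith
    have h2 : ∃ a ∈ insert (M + t) s, ∃ b ∈ insert (M + t) s, a < b ∧ b - a ∈ L := by
      by_contra hcon
      push Not at hcon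
      exact hn ⟨insert (M + t) s, by rw [Finset.card_insert_of_notMem hts]; omega,
        fun a ha b hb hab => hcon a ha b hb hab⟩
    obtain ⟨a, ha, b, hb, hab, hab'⟩ := h2
    have hball' : ∀ a ∈ s.filter (fun a => a < M), M + t - a ∉ L := hball (by
      rw [Real.dist_eq, sub_zero, abs_of_pos ht]
      linarith)
    rw [Finset.mem_insert] at ha hb
    rcases hb with rfl | hb
    · rcases ha with rfl | ha
      · exact absurd hab (lt_irrefl _)
      · rcases lt_or_eq_of_le (s.le_max' a ha) with h3 | h3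
        · exact absurd hab' (hball' a (Finset.mem_filter.2 ⟨ha, h3⟩))
        · have h4 : M + t - a = t := by
            rw [hM, ← h3]
            ring
          rwa [h4] at hab'
    · rcases ha with rfl | ha
      · have := s.le_max' b hb
        linarith
      · exact absurd hab' (hcl a ha b hb hab)
  refine ⟨c / 2, by positivity, fun t ht => ?_⟩
  rcases lt_or_eq_of_le ht.1 with h2 | h2
  · exact hpos t h2 ht.2
  · rw [← h2]
    have h3 : (0 : ℝ) ∈ closure L := by
      rw [Metric.mem_closure_iff]
      intro e he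
      refine ⟨min (e / 2) (c / 2), hpos _ (by positivity) (min_le_right _ _), ?_⟩
      rw [Real.dist_eq, zero_sub, abs_neg, abs_of_pos (by positivity)]
      have := min_le_left (e / 2) (c / 2)
      linarith
    rwa [hL.closure_eq] at h3

end Pool.Agent.LibFB63
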