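import Mathlib

/-!
If a closed set of reals contains a difference of any four reals, so does the closure of its interior.
-/

open Set Filter Topology

namespace Pool.Agent.LibFB63

/-- the difference map is open -/
private theorem Ic2_open {i j : Fin 4} (h : i ≠ j) : IsOpenMap fun t : Fin 4 → ℝ => t j - t i := by
  let f : (Fin 4 → ℝ) →L[ℝ] ℝ := (ContinuousLinearMap.proj j : (Fin 4 → ℝ) →L[ℝ] ℝ) - (ContinuousLinearMap.proj i : (Fin 4 → ℝ) →L[ℝ] ℝ)
  have hf : Function.Surjective f := by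
    intro x
    refine ⟨Pi.single j x, ?_⟩
    show (Pi.single j x : Fin 4 → ℝ) j - (Pi.single j x : Fin 4 → ℝ) i = x
    rw [Pi.single_eq_same, Pi.single_eq_of_ne h, sub_zero]
  exact f.isOpenMap hf

theorem p4_interior {T : Set ℝ} (hT : IsClosed T)
    (hP : ∀ t : Fin 4 → ℝ, StrictMono t → ∃ i j, i < j ∧ t j - t i ∈ T) :
    ∀ t : Fin 4 → ℝ, StrictMono t → ∃ i j, i < j ∧ t j - t i ∈ closure (interior T) := by
  intro t ht
  by_contra hcon
  push Not at hcon
  -- the open set of the `t'` with increasing coordinates and differences outside `closure (interior T)`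
  let U : Set (Fin 4 → ℝ) := ⋂ p : {p : Fin 4 × Fin 4 // p.1 < p.2},
    (fun t : Fin 4 → ℝ => t p.1.2 - t p.1.1) ⁻¹' ((closure (interior T))ᶜ ∩ Ioi 0)
  have hUo : IsOpen U := by
    refine isOpen_iInter_of_finite fun p => ?_
    exact (isClosed_closure.isOpen_compl.inter isOpen_Ioi).preimage (by fun_prop)
  have htU : t ∈ U := by
    refine mem_iInter.2 fun p => ⟨hcon p.1.1 p.1.2 p.2, ?_⟩
    show 0 < t p.1.2 - t p.1.1
    have := ht p.2
    linarith
  -- the dense open set of the `t'` with differences outside the frontier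
  let V : {p : Fin 4 × Fin 4 // p.1 < p.2} → Set (Fin 4 → ℝ) := fun p =>
    (fun t : Fin 4 → ℝ => t p.1.2 - t p.1.1) ⁻¹' (frontier T)ᶜ
  have hVo : ∀ p, IsOpen (V p) := fun p => isClosed_frontier.isOpen_compl.preimage (by fun_prop)
  have hd : Dense (frontier T)ᶜ := interior_eq_empty_iff_dense_compl.1 (interior_frontier hT)
  have hVd : ∀ p, Dense (V p) := fun p => hd.preimage (Ic2_open (ne_of_lt p.2))
  have hD : Dense (⋂ p, V p) := dense_iInter_of_isOpen hVo hVd
  obtain ⟨t', ht'U, ht'V⟩ := hD.inter_open_nonempty U hUo ⟨t, htU⟩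
  have hmono : StrictMono t' := fun i j hij => by
    have h1 := (mem_iInter.1 ht'U ⟨(i, j), hij⟩).2
    have h2 : 0 < t' j - t' i := h1
    linarith
  obtain ⟨i, j, hij, hij'⟩ := hP t' hmono
  have h1 : t' j - t' i ∉ closure (interior T) := (mem_iInter.1 ht'U ⟨(i, j), hij⟩).1
  have h2 : t' j - t' i ∉ frontier T := mem_iInter.1 ht'V ⟨(i, j), hij⟩
  refine h2 ?_
  rw [hT.frontier_eq]
  exact ⟨hij', fun h => h1 (subset_closure h)⟩

end Pool.Agent.LibFB63
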