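import Pool.Agent.LibFB63.KDefs

/-!
Row K0: the exponents. (`expoK`: everything about the exponents in one place.)
-/

open Finset Filter

namespace Pool.Agent.LibFB63

open Pool.Agent.LibRG87 Pool.Agent.LibLG5 Pool.Agent.LibPL63 Pool.Agent.LibSC93 Pool.Agent.LibGL22

variable {R : Prm} {C Cq Cm : ℕ} {c cD Λ δ : ℝ} {Cx g g2 g3 : ℕ} {ε : ℝ}

/-- all facts on the exponents -/
structure Expo (R : Prm) (g g2 g3 : ℕ) : Prop where
  hg : 100 ≤ g
  hu : 1 ≤ R.u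
  hl1 : l1 R ≤ R.u
  hl1' : 1 ≤ l1 R
  hj0 : g * j0 R g = R.k1
  hjr : 8 * jr R = R.k1
  hl2 : g3 * l2 R g3 = R.k1
  hdl : g2 * dl R g2 = R.k1
  hq : R.q = 4 * R.k1
  hj0u : 100 * R.u ≤ j0 R g
  hl2u : 100 * R.u ≤ l2 R g3
  hdl4 : 4 * dl R g2 ≤ j0 R g
  hj0k : 100 * j0 R g ≤ R.k1
  hk : 2 ≤ R.k

theorem expoK (hp : ParV R C Cq Cm c cD Λ δ Cx g g2 g3 ε) (hC : 100 ≤ Cx) : Expo R g g2 g3 := by
  obtain ⟨h1, h2, h3, h4, h5, h6, h7, h8, h9, h10, h11, h12⟩ := prm_le hp.pg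
  have hg : 100 ≤ g := hC.trans hp.hCx1
  have ha : 2 ≤ R.a := hp.pg.sums.1
  have hI : 1 ≤ R.I := hp.pg.hI
  have hB : 1 ≤ R.B := hp.pg.hB
  have haI : R.a ≤ R.a ^ R.I := Nat.le_self_pow (by omega) _
  have hM := hp.hM80
  obtain ⟨t, ht⟩ := hp.hMg
  obtain ⟨s2, hs2⟩ := hp.hMg2
  obtain ⟨s3, hs3⟩ := hp.hMg3
  obtain ⟨s8, hs8⟩ := hp.hM8
  have hg0 : 0 < g := by omega
  have hg2 : 4 * g ≤ g2 := hp.hg2
  have hg20 : 0 < g2 := by omega
  have hMpos : 0 < R.M := by omega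
  have hs3pos : 0 < s3 := by
    rcases Nat.eq_zero_or_pos s3 with h | h
    · subst h; omega
    · exact h
  have hg30 : 0 < g3 := by
    rcases Nat.eq_zero_or_pos g3 with h | h
    · subst h; omega
    · exact h
  have hMg : R.M / g = t := by rw [ht]; exact Nat.mul_div_cancel_left _ hg0
  have hMg2 : R.M / g2 = s2 := by rw [hs2]; exact Nat.mul_div_cancel_left _ hg20
  have hMg3 : R.M / g3 = s3 := by rw [hs3]; exact Nat.mul_div_cancel_left _ hg30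
  have hM8 : R.M / 8 = s8 := by rw [hs8]; exact Nat.mul_div_cancel_left _ (by norm_num)
  have ht100 : 100 ≤ t := by
    by_contra hlt
    have : g * t ≤ g * 99 := Nat.mul_le_mul_left _ (by omega)
    omega
  have hs100 : 100 ≤ s3 := by
    by_contra hlt
    have : g3 * s3 ≤ g3 * 99 := Nat.mul_le_mul_left _ (by omega)
    omega
  have h4s : 4 * s2 ≤ t := by
    by_contra hlt
    have h1 : t + 1 ≤ 4 * s2 := by omega
    have h2 : g * (t + 1) ≤ g * (4 * s2) := Nat.mul_le_mul_left _ h1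
    have h3 : 4 * g * s2 ≤ g2 * s2 := Nat.mul_le_mul_right _ hg2
    have h4 : g * (4 * s2) = 4 * g * s2 := by ring
    have h5 : g * (t + 1) = g * t + g := by ring
    omega
  refine ⟨hg, h3, h5, ?_, ?_, ?_, ?_, ?_, ?_, ?_, ?_, ?_, ?_, ?_⟩
  · unfold l1
    have : 1 * 1 ≤ R.q0 * R.a ^ R.I := Nat.mul_le_mul h1 (by omega)
    omega
  · unfold j0 Prm.k1
    rw [hMg, ← mul_assoc, ← ht]
  · unfold jr Prm.k1
    rw [hM8, ← mul_assoc, ← hs8]
  · unfold l2 Prm.k1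
    rw [hMg3, ← mul_assoc, ← hs3]
  · unfold dl Prm.k1
    rw [hMg2, ← mul_assoc, ← hs2]
  · unfold Prm.q Prm.k1
    ring
  · unfold j0
    rw [hMg]
    exact Nat.mul_le_mul_right _ ht100
  · unfold l2
    rw [hMg3]
    exact Nat.mul_le_mul_right _ hs100
  · unfold dl j0
    rw [hMg, hMg2, ← mul_assoc]
    exact Nat.mul_le_mul_right _ h4s
  · unfold j0 Prm.k1
    rw [hMg, ← mul_assoc, ht]
    exact Nat.mul_le_mul_right _ (Nat.mul_le_mul_right _ hg)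
  · unfold Prm.k
    calc 2 = 1 * 2 := by norm_num
      _ ≤ R.B * R.a ^ R.I := Nat.mul_le_mul hB (ha.trans haI)

end Pool.Agent.LibFB63
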