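import Pool.Agent.LibFB63.Defs

/-!
Row V1 (SHORT): bounds, supports, norms of the coefficients. `Gn Q z j = ∑_{A ⊆ Q, rr A ≤ z^j} 1/ph A` contains the term `A = ∅` (`rr ∅ = ph ∅ = 1`) and all terms are `≥ 0` (`ph A = ∏ (p - 1) > 0`), so it is `≥ 1`.
`nrm_cSe`: `∑_A (1[rr A ≤ z^j]/Gn)²/ph A = Gn/Gn²`. `nrm_cBr`: the same for `cBr` (`Finset.sum_filter`).
-/

open Finset Filter

namespace Pool.Agent.LibFB63

open Pool.Agent.LibRG87 Pool.Agent.LibLG5 Pool.Agent.LibPL63 Pool.Agent.LibSC93 Pool.Agent.LibGL22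

theorem ph_pos' {A : Finset ℕ} (hA : ∀ p ∈ A, Nat.Prime p) : 0 < ph A := by
  unfold ph
  refine Finset.prod_pos fun p hp => ?_
  have h1 : (1 : ℝ) < p := by exact_mod_cast (hA p hp).one_lt
  linarith

theorem one_le_GnQ (Q : Finset ℕ) (hQ : ∀ p ∈ Q, Nat.Prime p) {z : ℕ} (hz : 1 ≤ z) (j : ℕ) : 1 ≤ Gn Q z j := by
  classical
  unfold Gn
  have hmem : (∅ : Finset ℕ) ∈ Q.powerset.filter (fun A => rr A ≤ (z : ℝ) ^ j) := by
    rw [Finset.mem_filter]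
    refine ⟨Finset.empty_mem_powerset _, ?_⟩
    have h1 : (1 : ℝ) ≤ z := by exact_mod_cast hz
    have h2 : rr ∅ = 1 := by unfold rr; exact Finset.prod_empty
    rw [h2]
    exact one_le_pow₀ h1
  have h1 : (1 : ℝ) / ph ∅ = 1 := by
    have h2 : ph ∅ = 1 := by unfold ph; exact Finset.prod_empty
    rw [h2, div_one]
  have h3 := Finset.single_le_sum (f := fun A => (1 : ℝ) / ph A) (fun A hA => by
    have h4 : A ⊆ Q := Finset.mem_powerset.mp (Finset.mem_filter.mp hA).1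
    exact (div_pos one_pos (ph_pos' fun p hp => hQ p (h4 hp))).le) hmem
  exact le_trans h1.ge h3

private theorem V1_inv (Q : Finset ℕ) (hQ : ∀ p ∈ Q, Nat.Prime p) {z : ℕ} (hz : 1 ≤ z) (j : ℕ) :
    |1 / Gn Q z j| ≤ 1 := by
  have h1 := one_le_GnQ Q hQ hz j
  rw [abs_of_nonneg (div_nonneg zero_le_one (zero_le_one.trans h1))]
  exact (div_le_one (zero_lt_one.trans_le h1)).mpr h1

theorem cSe_abs (Q : Finset ℕ) (hQ : ∀ p ∈ Q, Nat.Prime p) {z : ℕ} (hz : 1 ≤ z) (j : ℕ) (A : Finset ℕ) :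
    |cSe Q z j A| ≤ 1 := by
  unfold cSe
  split_ifs
  · exact V1_inv Q hQ hz j
  · rw [abs_zero]
    exact zero_le_one

theorem cSe_supp {Q : Finset ℕ} {z j : ℕ} {A : Finset ℕ} (h : cSe Q z j A ≠ 0) : rr A ≤ (z : ℝ) ^ j := by
  by_contra hc
  apply h
  unfold cSe
  rw [if_neg hc]

theorem cBr_abs (Q : Finset ℕ) (hQ : ∀ p ∈ Q, Nat.Prime p) {z : ℕ} (hz : 1 ≤ z) (j q : ℕ) (A : Finset ℕ) :
    |cBr Q z j q A| ≤ 1 := by
  unfold cBr
  split_ifs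
  · exact V1_inv Q hQ hz j
  · rw [abs_zero]
    exact zero_le_one

theorem cBr_supp {Q : Finset ℕ} {z j q : ℕ} {A : Finset ℕ} (h : cBr Q z j q A ≠ 0) : rr A ≤ (z : ℝ) ^ j := by
  by_contra hc
  apply h
  unfold cBr
  rw [if_neg fun h1 => hc h1.2]

theorem nrm_cSe (Q : Finset ℕ) (hQ : ∀ p ∈ Q, Nat.Prime p) {z : ℕ} (hz : 1 ≤ z) (j : ℕ) :
    nrm Q (cSe Q z j) = 1 / Gn Q z j := by
  classical
  have h0 : Gn Q z j ≠ 0 := (zero_lt_one.trans_le (one_le_GnQ Q hQ hz j)).ne'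
  have h2 : Gn Q z j = ∑ A ∈ Q.powerset, if rr A ≤ (z : ℝ) ^ j then 1 / ph A else 0 := by
    unfold Gn
    rw [Finset.sum_filter]
  have h1 : nrm Q (cSe Q z j) =
      (1 / Gn Q z j) ^ 2 * ∑ A ∈ Q.powerset, if rr A ≤ (z : ℝ) ^ j then 1 / ph A else 0 := by
    rw [Finset.mul_sum]
    unfold nrm
    refine Finset.sum_congr rfl fun A _ => ?_
    unfold cSe
    by_cases h3 : rr A ≤ (z : ℝ) ^ j
    · rw [if_pos h3, if_pos h3]
      ring
    · rw [if_neg h3, if_neg h3]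
      simp
  rw [h1, ← h2]
  field_simp

theorem nrm_cBr (Q : Finset ℕ) (z j q : ℕ) : nrm (Q.erase q) (cBr Q z j q) = tl Q z j q / Gn Q z j ^ 2 := by
  classical
  unfold nrm tl
  rw [Finset.sum_filter, Finset.sum_div]
  refine Finset.sum_congr rfl fun A _ => ?_
  unfold cBr
  by_cases h3 : (z : ℝ) ^ j < rr A * q ∧ rr A ≤ (z : ℝ) ^ j
  · rw [if_pos h3, if_pos h3]
    ring
  · rw [if_neg h3, if_neg h3]
    simp

theorem nrm_nonneg (Q : Finset ℕ) (hQ : ∀ p ∈ Q, Nat.Prime p) (c : Finset ℕ → ℝ) : 0 ≤ nrm Q c := by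
  unfold nrm
  refine Finset.sum_nonneg fun A hA => ?_
  have h4 : A ⊆ Q := Finset.mem_powerset.mp hA
  exact div_nonneg (sq_nonneg _) (ph_pos' fun p hp => hQ p (h4 hp)).le

end Pool.Agent.LibFB63
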