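import Pool.Agent.LibFB63.K0
import Pool.Agent.LibFB63.V1

/-!
Row K1 (SHORT/MEDIUM): `Λ1` at `p m r`.

`Lc_mul_large`: unfold `Lc`; for `A ⊆ Q`: if `cSe Q z j A ≠ 0` then `rr A ≤ z^j` (`cSe_supp`), so every `p ∈ A` has `p ≤ rr A ≤ z^j < r` (`rr A = p * rr (A.erase p)`, the other factor is `≥ 1`), `p ≠ r`, hence `p ∣ v * r ↔ p ∣ v` (primes) and `psi p (v * r) = psi p v`.

`GRb_le`: subset of the nonnegative terms of `Gn (Pb R z p1) z κ = GRb R z p1 (z^κ)`. `GRb_mono` the same.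

`La1_mul`: `p ∈ Q := Pb R z p1` (`p` is a prime, `z^(k1 - 2 j0) < p ≤ z^(k1 - j0)`, `l1 ≤ k1 - 2 j0`). Split the subsets of `Q = insert p (Q.erase p)` (`Finset.sum_powerset_insert`): with `y = z^κ`, `G = Gn Q z κ`
  `G Lc(p m) = ∑_{A ⊆ Q \ p} (1[rr A ≤ y] - 1[p rr A ≤ y]) ∏_{r ∈ A} psi r m`, `G Lc(m) = ∑_{A ⊆ Q \ p} (1[rr A ≤ y] + 1[p rr A ≤ y]/(p - 1)) ∏_{r ∈ A} psi r m` (`psi r (p m) = psi r m` for primes `r ≠ p`; `psi p (p m) = -1`, `psi p m = 1/(p-1)`).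
  Difference: `-(1 + 1/(p-1)) ∑_{A ⊆ Q \ p, p rr A ≤ y} ∏ psi r m`; in such an `A` every `r ≤ rr A ≤ y/p < z^(2 j0)` (`κ ≤ k1`, `p > z^(k1 - 2 j0)`), so `r ∤ m` (`Rgh`), `∏ psi r m = 1/ph A`;
  a set `A ⊆ Q` with `rr A ≤ y/p` does not contain `p` (`p > z^(k1 - 2 j0) ≥ z^(2 j0) > y/p ≥ rr A ≥ p`), so the sum is `GR (y/p)`. `1 + 1/(p-1) = p/(p-1)`.
-/

open Finset Filter

namespace Pool.Agent.LibFB63

open Pool.Agent.LibRG87 Pool.Agent.LibLG5 Pool.Agent.LibPL63 Pool.Agent.LibSC93 Pool.Agent.LibGL22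

private theorem K1_one_le {A : Finset ℕ} (hA : ∀ p ∈ A, Nat.Prime p) : 1 ≤ rr A := by
  unfold rr
  have h : ∏ p ∈ A, (1 : ℝ) ≤ ∏ p ∈ A, (p : ℝ) :=
    Finset.prod_le_prod (fun p _ => zero_le_one) (fun p hp => by exact_mod_cast (hA p hp).one_lt.le)
  rwa [Finset.prod_const_one] at h

private theorem K1_le {A : Finset ℕ} (hA : ∀ p ∈ A, Nat.Prime p) {p : ℕ} (hp : p ∈ A) : (p : ℝ) ≤ rr A := by
  have h1 : rr A = p * rr (A.erase p) := by
    unfold rr
    rw [Finset.mul_prod_erase A (fun p : ℕ => (p : ℝ)) hp]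
  have h2 : 1 ≤ rr (A.erase p) := K1_one_le fun q hq => hA q (Finset.mem_of_mem_erase hq)
  rw [h1]
  nlinarith [(Nat.cast_nonneg p : (0 : ℝ) ≤ p)]

theorem Lc_mul_large (Q : Finset ℕ) (hQ : ∀ p ∈ Q, Nat.Prime p) {z j r : ℕ} (hr : r.Prime) (h : z ^ j < r) (v : ℕ) :
    Lc Q (cSe Q z j) (v * r) = Lc Q (cSe Q z j) v := by
  unfold Lc
  refine Finset.sum_congr rfl fun A hA => ?_
  rw [Finset.mem_powerset] at hA
  by_cases hc : cSe Q z j A = 0
  · rw [hc, zero_mul, zero_mul]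
  have hs := cSe_supp hc
  congr 1
  refine Finset.prod_congr rfl fun p hp => ?_
  have hpp : p.Prime := hQ p (hA hp)
  have h1 : (p : ℝ) ≤ (z : ℝ) ^ j := (K1_le (fun q hq => hQ q (hA hq)) hp).trans hs
  have h2 : p ≤ z ^ j := by exact_mod_cast h1
  have h3 : p ∣ v * r ↔ p ∣ v := by
    rw [hpp.dvd_mul]
    constructor
    · rintro (h4 | h4)
      · exact h4
      · have := (Nat.prime_dvd_prime_iff_eq hpp hr).1 h4
        omega
    · exact Or.inl
  unfold psi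
  simp only [h3]

theorem K1_Pb_prime (R : Prm) (z p1 : ℕ) : ∀ p ∈ Pb R z p1, Nat.Prime p := by
  intro p hp
  unfold Pb PG PL PP at hp
  simp only [Finset.mem_sdiff, Finset.mem_erase, Finset.mem_filter] at hp
  exact hp.1.2.2

private theorem K1_ph {A : Finset ℕ} (hA : ∀ p ∈ A, Nat.Prime p) : 0 ≤ 1 / ph A :=
  one_div_nonneg.2 (ph_pos' hA).le

theorem GRb_nonneg (R : Prm) (z p1 : ℕ) (t : ℝ) : 0 ≤ GRb R z p1 t := by
  unfold GRb GR
  refine Finset.sum_nonneg fun A hA => ?_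
  rw [Finset.mem_filter, Finset.mem_powerset] at hA
  exact K1_ph fun p hp => K1_Pb_prime R z p1 p (hA.1 hp)

theorem GRb_mono (R : Prm) (z p1 : ℕ) {s t : ℝ} (h : s ≤ t) : GRb R z p1 s ≤ GRb R z p1 t := by
  unfold GRb GR
  refine Finset.sum_le_sum_of_subset_of_nonneg ?_ ?_
  · intro A hA
    rw [Finset.mem_filter] at hA ⊢
    exact ⟨hA.1, hA.2.trans h⟩
  · intro A hA _
    rw [Finset.mem_filter, Finset.mem_powerset] at hA
    exact K1_ph fun p hp => K1_Pb_prime R z p1 p (hA.1 hp)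

theorem K1_GR_eq (R : Prm) (z p1 κ : ℕ) : GRb R z p1 ((z : ℝ) ^ κ) = Gn (Pb R z p1) z κ := by
  unfold GRb GR Gn
  exact Finset.sum_congr (by ext A; simp only [Finset.mem_filter]) fun _ _ => rfl

theorem GRb_le (R : Prm) (z p1 κ : ℕ) {t : ℝ} (h : t ≤ (z : ℝ) ^ κ) : GRb R z p1 t ≤ Gn (Pb R z p1) z κ := by
  rw [← K1_GR_eq]
  exact GRb_mono R z p1 h

open scoped Classical in
private theorem K1_Gn_mul (Q : Finset ℕ) (hQ : ∀ p ∈ Q, Nat.Prime p) {z : ℕ} (hz : 1 ≤ z) (j v : ℕ) :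
    Gn Q z j * Lc Q (cSe Q z j) v = ∑ A ∈ Q.powerset, if rr A ≤ (z : ℝ) ^ j then ∏ p ∈ A, psi p v else 0 := by
  have hG : Gn Q z j ≠ 0 := by
    have := one_le_GnQ Q hQ hz j
    intro h0
    rw [h0] at this
    norm_num at this
  unfold Lc
  rw [Finset.mul_sum]
  refine Finset.sum_congr rfl fun A _ => ?_
  unfold cSe
  by_cases h : rr A ≤ (z : ℝ) ^ j
  · rw [if_pos h, if_pos h, ← mul_assoc, mul_one_div_cancel hG, one_mul]
  · rw [if_neg h, if_neg h, zero_mul, mul_zero]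

theorem La1_mul {R : Prm} {g g2 g3 : ℕ} (hE : Expo R g g2 g3) {z p1 κ : ℕ} (hz : 2 ≤ z) (hκ : κ ≤ R.k1) {p m : ℕ}
    (hp : p ∈ Pc R z p1 g) (hpm : ¬ p ∣ m) (hm : Rgh R z g m) :
    Gn (Pb R z p1) z κ * La1 R z p1 κ (p * m) =
      Gn (Pb R z p1) z κ * La1 R z p1 κ m - (p : ℝ) / ((p : ℝ) - 1) * GRb R z p1 ((z : ℝ) ^ κ / p) := by
  classical
  have hQ := K1_Pb_prime R z p1
  obtain ⟨hg, hu, hl1, hl1', hj0, hjr, hl2, hdl, hq, hj0u, hl2u, hdl4, hj0k, hk⟩ := hE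
  have hz1 : 1 ≤ z := by omega
  unfold Pc PL PP at hp
  simp only [Finset.mem_sdiff, Finset.mem_erase, Finset.mem_filter, Finset.mem_Ioc, not_and] at hp
  obtain ⟨⟨hp1, ⟨hpz, hple⟩, hpp⟩, hp2⟩ := hp
  have hpgt : z ^ (R.k1 - 2 * j0 R g) < p := by
    by_contra hlt
    exact hp2 hp1 ⟨hpz, not_lt.1 hlt⟩ hpp
  have hpQ : p ∈ Pb R z p1 := by
    unfold Pb PG Ps PL PP
    simp only [Finset.mem_sdiff, Finset.mem_erase, Finset.mem_filter, Finset.mem_Ioc, not_and]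
    refine ⟨⟨hp1, ⟨hpz, hple.trans (Nat.pow_le_pow_right hz1 (by omega))⟩, hpp⟩, fun _ h _ => ?_⟩
    have h1 := h.2
    have h2 : z ^ l1 R ≤ z ^ (R.k1 - 2 * j0 R g) := Nat.pow_le_pow_right hz1 (by omega)
    omega
  have hp0 : (0 : ℝ) < p := by exact_mod_cast hpp.pos
  have hp1' : (1 : ℝ) < p := by exact_mod_cast hpp.one_lt
  -- `y/p < z^(2 j0) < p`
  have hzr : (1 : ℝ) ≤ z := by exact_mod_cast hz1
  have hyp : (z : ℝ) ^ κ / p < (z : ℝ) ^ (2 * j0 R g) := by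
    rw [div_lt_iff₀ hp0]
    have h1 : (z : ℝ) ^ κ ≤ (z : ℝ) ^ (2 * j0 R g) * (z : ℝ) ^ (R.k1 - 2 * j0 R g) := by
      rw [← pow_add]
      exact pow_le_pow_right₀ hzr (by omega)
    have h2 : (z : ℝ) ^ (R.k1 - 2 * j0 R g) < p := by exact_mod_cast hpgt
    have h3 : (0 : ℝ) < (z : ℝ) ^ (2 * j0 R g) := by positivity
    nlinarith
  have hpj : (z : ℝ) ^ (2 * j0 R g) < p := by
    have h1 : (z : ℝ) ^ (2 * j0 R g) ≤ (z : ℝ) ^ (R.k1 - 2 * j0 R g) := pow_le_pow_right₀ hzr (by omega)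
    have h2 : (z : ℝ) ^ (R.k1 - 2 * j0 R g) < p := by exact_mod_cast hpgt
    linarith
  set Q := Pb R z p1 with hQdef
  set y := (z : ℝ) ^ κ with hy
  have hins : insert p (Q.erase p) = Q := Finset.insert_erase hpQ
  have hnot : p ∉ Q.erase p := Finset.notMem_erase p Q
  have hQe : ∀ A ∈ (Q.erase p).powerset, (∀ r ∈ A, Nat.Prime r) ∧ p ∉ A := fun A hA => by
    rw [Finset.mem_powerset] at hA
    exact ⟨fun r hr => hQ r (Finset.mem_of_mem_erase (hA hr)), fun h => hnot (hA h)⟩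
  have hrr : ∀ A ∈ (Q.erase p).powerset, rr (insert p A) = p * rr A := fun A hA => by
    unfold rr
    rw [Finset.prod_insert (hQe A hA).2]
  have hpsi : ∀ A ∈ (Q.erase p).powerset, ∏ r ∈ A, psi r (p * m) = ∏ r ∈ A, psi r m := fun A hA => by
    refine Finset.prod_congr rfl fun r hr => ?_
    have hrp := (hQe A hA).1 r hr
    have hne : r ≠ p := fun h => (hQe A hA).2 (h ▸ hr)
    have h3 : r ∣ p * m ↔ r ∣ m := by
      rw [hrp.dvd_mul]
      constructor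
      · rintro (h4 | h4)
        · exact absurd ((Nat.prime_dvd_prime_iff_eq hrp hpp).1 h4) hne
        · exact h4
      · exact Or.inr
    unfold psi
    simp only [h3]
  have e1 : Gn Q z κ * La1 R z p1 κ (p * m) = ∑ A ∈ (Q.erase p).powerset,
      ((if rr A ≤ y then ∏ r ∈ A, psi r m else 0) - (if p * rr A ≤ y then ∏ r ∈ A, psi r m else 0)) := by
    unfold La1
    rw [K1_Gn_mul Q hQ hz1, ← hy]
    conv_lhs => rw [← hins]
    rw [Finset.sum_powerset_insert hnot, ← Finset.sum_add_distrib]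
    refine Finset.sum_congr rfl fun A hA => ?_
    rw [hrr A hA, hpsi A hA, Finset.prod_insert (hQe A hA).2, hpsi A hA]
    have : psi p (p * m) = -1 := by
      unfold psi
      rw [if_pos (Dvd.intro m rfl)]
    rw [this]
    by_cases h : p * rr A ≤ y
    · simp only [h, if_true]
      ring
    · simp only [h, if_false]
      ring
  have e2 : Gn Q z κ * La1 R z p1 κ m = ∑ A ∈ (Q.erase p).powerset,
      ((if rr A ≤ y then ∏ r ∈ A, psi r m else 0) +
        (if p * rr A ≤ y then 1 / ((p : ℝ) - 1) * ∏ r ∈ A, psi r m else 0)) := by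
    unfold La1
    rw [K1_Gn_mul Q hQ hz1, ← hy]
    conv_lhs => rw [← hins]
    rw [Finset.sum_powerset_insert hnot, ← Finset.sum_add_distrib]
    refine Finset.sum_congr rfl fun A hA => ?_
    rw [hrr A hA, Finset.prod_insert (hQe A hA).2]
    have : psi p m = 1 / ((p : ℝ) - 1) := by
      unfold psi
      rw [if_neg hpm]
    rw [this]
  have e3 : GRb R z p1 (y / p) = ∑ A ∈ (Q.erase p).powerset, if p * rr A ≤ y then ∏ r ∈ A, psi r m else 0 := by
    unfold GRb GR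
    rw [← hQdef, Finset.sum_filter]
    conv_lhs => rw [← hins]
    rw [Finset.sum_powerset_insert hnot, ← Finset.sum_add_distrib]
    refine Finset.sum_congr rfl fun A hA => ?_
    have h1 : 1 ≤ rr A := K1_one_le (hQe A hA).1
    have hno : ¬ rr (insert p A) ≤ y / p := by
      rw [hrr A hA, not_le]
      nlinarith
    rw [if_neg hno, add_zero]
    have hiff : rr A ≤ y / p ↔ p * rr A ≤ y := by
      rw [le_div_iff₀ hp0, mul_comm]
    by_cases h : p * rr A ≤ y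
    · rw [if_pos (hiff.2 h), if_pos h]
      unfold ph
      rw [one_div, ← Finset.prod_inv_distrib]
      refine Finset.prod_congr rfl fun r hr => ?_
      have hrp := (hQe A hA).1 r hr
      have hr1 : (r : ℝ) ≤ rr A := K1_le (hQe A hA).1 hr
      have hr2 : (r : ℝ) < (z : ℝ) ^ (2 * j0 R g) := (hr1.trans (hiff.2 h)).trans_lt hyp
      have hr3 : r < z ^ (2 * j0 R g) := by exact_mod_cast hr2
      have hnd : ¬ r ∣ m := fun hd => by
        have := hm r hrp hd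
        omega
      unfold psi
      rw [if_neg hnd, one_div]
    · rw [if_neg (fun h' => h (hiff.1 h')), if_neg h]
  rw [e1, e2, e3, Finset.mul_sum, ← Finset.sum_sub_distrib]
  refine Finset.sum_congr rfl fun A _ => ?_
  by_cases h : p * rr A ≤ y
  · rw [if_pos h, if_pos h]
    have : (p : ℝ) - 1 ≠ 0 := by linarith
    field_simp
    ring
  · rw [if_neg h, if_neg h]
    ring

end Pool.Agent.LibFB63
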