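import Pool.Agent.LibFB63.V1

/-!
Row V2 (SHORT/MEDIUM): special values. `Lc_one`: `∏_{p ∈ A} psi p v = ∏ 1/(p - 1) = 1/ph A` for `A ⊆ Q`; the sum is `Gn/Gn`.
`Lc_bracket` (`q ∈ Q`, `q ∣ v`): split the subsets of `Q` by `q ∈ A` (`Finset.sum_powerset_insert` for `Q = insert q (Q.erase q)`): `A = A'` or `A = insert q A'`, `A' ⊆ Q.erase q`; `psi q v = -1`, `rr (insert q A') = q rr A'`:
the sum is `(1/Gn) ∑_{A'} (1[rr A' ≤ z^j] - 1[q rr A' ≤ z^j]) ∏ psi`, and the bracket is `1[rr A' ≤ z^j < q rr A']` as `q ≥ 1`.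
-/

open Finset Filter

namespace Pool.Agent.LibFB63

open Pool.Agent.LibRG87 Pool.Agent.LibLG5 Pool.Agent.LibPL63 Pool.Agent.LibSC93 Pool.Agent.LibGL22

/-- the value is `1` if no prime of `Q` divides `v` -/
theorem Lc_one (Q : Finset ℕ) (hQ : ∀ p ∈ Q, Nat.Prime p) {z : ℕ} (hz : 1 ≤ z) (j : ℕ) {v : ℕ}
    (h : ∀ p ∈ Q, ¬ p ∣ v) : Lc Q (cSe Q z j) v = 1 := by
  classical
  have hG : (1 : ℝ) ≤ Gn Q z j := one_le_GnQ Q hQ hz j
  have hG0 : Gn Q z j ≠ 0 := by
    intro h0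
    rw [h0] at hG
    norm_num at hG
  unfold Lc
  have hpsi : ∀ A ∈ Q.powerset, cSe Q z j A * ∏ p ∈ A, psi p v =
      if rr A ≤ (z : ℝ) ^ j then (1 / ph A) * (1 / Gn Q z j) else 0 := by
    intro A hA
    rw [Finset.mem_powerset] at hA
    have h1 : ∏ p ∈ A, psi p v = 1 / ph A := by
      rw [ph, one_div, ← Finset.prod_inv_distrib]
      refine Finset.prod_congr rfl fun p hp => ?_
      rw [psi, if_neg (h p (hA hp)), one_div]
    rw [h1, cSe]
    by_cases hr : rr A ≤ (z : ℝ) ^ j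
    · rw [if_pos hr, if_pos hr]
      ring
    · rw [if_neg hr, if_neg hr]
      ring
  rw [Finset.sum_congr rfl hpsi, ← Finset.sum_filter, ← Finset.sum_mul]
  have hE : ∑ A ∈ Q.powerset with (rr A ≤ (z : ℝ) ^ j), 1 / ph A = Gn Q z j := by
    unfold Gn
    refine Finset.sum_congr ?_ fun _ _ => rfl
    ext A
    simp only [Finset.mem_filter]
  rw [hE, mul_one_div, div_self hG0]

/-- multiples of `q ∈ Q` -/
theorem Lc_bracket (Q : Finset ℕ) (hQ : ∀ p ∈ Q, Nat.Prime p) {z : ℕ} (hz : 1 ≤ z) (j : ℕ) {q v : ℕ} (hq : q ∈ Q)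
    (h : q ∣ v) : Lc Q (cSe Q z j) v = Lc (Q.erase q) (cBr Q z j q) v := by
  classical
  have _ := hz
  have hq1 : (1 : ℝ) ≤ (q : ℝ) := by exact_mod_cast (hQ q hq).one_lt.le
  have hnot : q ∉ Q.erase q := Finset.notMem_erase q Q
  have key : ∀ A ∈ (Q.erase q).powerset,
      cSe Q z j A * ∏ p ∈ A, psi p v + cSe Q z j (insert q A) * ∏ p ∈ insert q A, psi p v =
        cBr Q z j q A * ∏ p ∈ A, psi p v := by
    intro A hA
    rw [Finset.mem_powerset] at hA
    have hqA : q ∉ A := fun hh => hnot (hA hh)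
    have hr : rr (insert q A) = rr A * q := by
      rw [rr, rr, Finset.prod_insert hqA]
      ring
    have hrp : 0 ≤ rr A := by
      rw [rr]
      exact Finset.prod_nonneg fun p _ => Nat.cast_nonneg p
    have hle : rr A ≤ rr A * q := le_mul_of_one_le_right hrp hq1
    rw [Finset.prod_insert hqA, psi, if_pos h]
    have hc : cSe Q z j A - cSe Q z j (insert q A) = cBr Q z j q A := by
      rw [cSe, cSe, cBr, hr]
      by_cases h1 : rr A * q ≤ (z : ℝ) ^ j
      · rw [if_pos (hle.trans h1), if_pos h1, if_neg (fun hh => absurd h1 (not_le.mpr hh.1))]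
        ring
      · by_cases h2 : rr A ≤ (z : ℝ) ^ j
        · rw [if_pos h2, if_neg h1, if_pos ⟨not_le.mp h1, h2⟩]
          ring
        · rw [if_neg h2, if_neg h1, if_neg (fun hh => h2 hh.2)]
          ring
    rw [← hc]
    ring
  unfold Lc
  rw [← Finset.sum_congr rfl key, Finset.sum_add_distrib]
  conv_lhs => rw [← Finset.insert_erase hq]
  rw [Finset.sum_powerset_insert hnot]
  simp only [Finset.insert_erase hq]

end Pool.Agent.LibFB63
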