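import Pool.Agent.LibFB63.K0
import Pool.Agent.LibFB63.V2

/-!
Row K2 (SHORT/MEDIUM): the prime factors of `v`.

`rgh_of`: a prime factor `p` of `v` is `> z^l2 ≥ z^l1` and `p ≤ v ≤ 3 z^q < z^(q+2) < p1`, so `p ≠ p1`. If `p ≤ z^(2 j0)` then `p ∈ PL z (2 j0) p1` (`p > z^l2 ≥ z`) and `p ∉ Ps` (`p > z^l1`), so `p ∈ Q2`: contradiction.
`La2_eq_one`: `Lc_one` (V2).
`np_le`: suppose 5 or more primes of `Pc` divide `v`; take a subset of 5 (`Finset.exists_subset_card_eq`); their product divides `v` (`Finset.prod_primes_dvd`) and is `≥ (z^(k1 - 2 j0))^5 = z^(5 k1 - 10 j0) ≥ z^(4 k1 + 2) ≥ 4 z^q > v` (`100 j0 ≤ k1`, `j0 ≥ 100`).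
`Cb_ge`: term by term: `np` is the number of `p ∈ Pc` with `p ∣ v`; `La2 = 1`; it is enough that `3 k1 log z ≤ ∑_{q ∈ Qb, q ≠ p, q ∣ v} log q =: s` (then `s²/(3 k1 log z)² ≥ 1`). `p² ∤ v` (`p ∈ Qb`: `2 j0 ≤ k1 - 2 j0`, `k1 - j0 ≤ κ`), all primes `r ∣ v / p` are in `Qb` (`> z^(2 j0)` by `Rgh`, `≤ z^κ` by `hsm`, `≠ p1` as
  `r ≤ v < p1`), `r ≠ p`, and `v / p` is squarefree (`Nat.squarefree_iff_prime_squarefree`; `r * r ∣ v / p → r ^ 2 ∣ v`). So `v / p = ∏_{r ∈ (v/p).primeFactors} r` (`Nat.prod_primeFactors_of_squarefree`) and `(v/p).primeFactors` = the set of `q ∈ Qb`, `q ≠ p`, `q ∣ v`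
  (only `⊆` is needed: logs are nonnegative), `log (v/p) = ∑ log r` (`Real.log_prod`); `v / p ≥ z^q / z^(k1 - j0) ≥ z^(3 k1)`: `log (v/p) ≥ 3 k1 log z` (real division: `(v / p : ℕ) = (v : ℝ) / p` as `p ∣ v`).
-/

open Finset Filter

namespace Pool.Agent.LibFB63

open Pool.Agent.LibRG87 Pool.Agent.LibLG5 Pool.Agent.LibPL63 Pool.Agent.LibSC93 Pool.Agent.LibGL22

variable {R : Prm} {g g2 g3 : ℕ} {z p1 : ℕ}

/-- K2_aux -/
private theorem K2_lt_p1 (hz : 3 ≤ z) (hp1 : z ^ (R.q + 2) < p1) {v : ℕ}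
    (hv : v ≤ 3 * z ^ R.q) : v < p1 := by
  have h1 : 3 * z ^ R.q ≤ z ^ (R.q + 1) := by
    rw [pow_succ, mul_comm]
    exact Nat.mul_le_mul_left _ hz
  have h2 : z ^ (R.q + 1) ≤ z ^ (R.q + 2) := Nat.pow_le_pow_right (by omega) (by omega)
  omega

theorem rgh_of (hE : Expo R g g2 g3) (hz : 3 ≤ z) (hp1 : z ^ (R.q + 2) < p1) {v : ℕ} (hv0 : 0 < v)
    (hv : v ≤ 3 * z ^ R.q) (hl : ∀ p : ℕ, p.Prime → p ∣ v → z ^ l2 R g3 < p) (hQ : ∀ q ∈ Q2 R z p1 g, ¬ q ∣ v) :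
    Rgh R z g v := by
  intro p hp hpv
  by_contra hlt
  have hle : p ≤ z ^ (2 * j0 R g) := not_lt.mp hlt
  have hu := hE.hu
  have hl2u := hE.hl2u
  have hl1 := hE.hl1
  have hpl := hl p hp hpv
  have hz0 : 0 < z := by omega
  have hvp := Nat.le_of_dvd hv0 hpv
  have hvp1 := K2_lt_p1 hz hp1 hv
  have hzl : z ≤ z ^ l2 R g3 := Nat.le_self_pow (by omega) z
  have hl12 : z ^ l1 R ≤ z ^ l2 R g3 := Nat.pow_le_pow_right hz0 (by omega)
  refine hQ p ?_ hpv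
  unfold Q2 Ps
  rw [Finset.mem_sdiff, mem_PL, mem_PL]
  refine ⟨⟨by omega, hp, by omega, hle⟩, ?_⟩
  rintro ⟨_, _, _, h⟩
  omega

theorem La2_eq_one (hz : 3 ≤ z) {j v : ℕ} (hQ : ∀ q ∈ Q2 R z p1 g, ¬ q ∣ v) : La2 R z p1 g j v = 1 := by
  unfold La2
  refine Lc_one _ ?_ (by omega) j hQ
  intro p hp
  unfold Q2 at hp
  rw [Finset.mem_sdiff, mem_PL] at hp
  exact hp.1.2.1

private theorem K2_mem_Pc {p : ℕ} (hp : p ∈ Pc R z p1 g) :
    p.Prime ∧ z ^ (R.k1 - 2 * j0 R g) < p ∧ p ≤ z ^ (R.k1 - j0 R g) := by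
  unfold Pc at hp
  rw [Finset.mem_sdiff, mem_PL, mem_PL] at hp
  obtain ⟨⟨h1, h2, h3, h4⟩, h5⟩ := hp
  refine ⟨h2, ?_, h4⟩
  by_contra h6
  exact h5 ⟨h1, h2, h3, not_lt.mp h6⟩

theorem np_le (hE : Expo R g g2 g3) (hz : 3 ≤ z) {v : ℕ} (hv0 : 0 < v) (hv : v ≤ 3 * z ^ R.q) : np R z p1 g v ≤ 4 := by
  by_contra hcon
  have h5 : 5 ≤ ((Pc R z p1 g).filter fun p => p ∣ v).card := by
    unfold np at hcon
    omega
  obtain ⟨T, hT, hcard⟩ := Finset.exists_subset_card_eq h5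
  have hmem : ∀ p ∈ T, p.Prime ∧ z ^ (R.k1 - 2 * j0 R g) < p ∧ p ∣ v := by
    intro p hp
    have := hT hp
    rw [Finset.mem_filter] at this
    have h := K2_mem_Pc this.1
    exact ⟨h.1, h.2.1, this.2⟩
  have hdvd : ∏ p ∈ T, p ∣ v :=
    Finset.prod_primes_dvd v (fun p hp => (hmem p hp).1.prime) (fun p hp => (hmem p hp).2.2)
  have hle := Nat.le_of_dvd hv0 hdvd
  have hprod : (z ^ (R.k1 - 2 * j0 R g)) ^ 5 ≤ ∏ p ∈ T, p := by
    rw [← hcard, ← Finset.prod_const]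
    exact Finset.prod_le_prod (fun _ _ => Nat.zero_le _) fun p hp => (hmem p hp).2.1.le
  rw [← pow_mul] at hprod
  have hj := hE.hj0k
  have hju := hE.hj0u
  have hu := hE.hu
  have hq := hE.hq
  have h1 : z ^ (R.q + 2) ≤ z ^ ((R.k1 - 2 * j0 R g) * 5) := Nat.pow_le_pow_right (by omega) (by omega)
  have h2 : z ^ (R.q + 2) = z ^ R.q * z ^ 2 := pow_add _ _ _
  have h3 : 3 * z ^ R.q < z ^ R.q * z ^ 2 := by
    rw [mul_comm]
    refine Nat.mul_lt_mul_of_pos_left ?_ (Nat.pow_pos (by omega))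
    nlinarith
  omega

theorem Cb_ge (hE : Expo R g g2 g3) (hz : 3 ≤ z) (hp1 : z ^ (R.q + 2) < p1) {κ j : ℕ} (hκ : κ ≤ R.k1)
    (hκ' : R.k1 ≤ κ + j0 R g) {v : ℕ} (hv : z ^ R.q < v) (hv' : v ≤ 3 * z ^ R.q) (hR : Rgh R z g v)
    (hsq : ∀ q ∈ Qb R z p1 g κ, ¬ q ^ 2 ∣ v)
    (hsm : ∀ p ∈ Pc R z p1 g, p ∣ v → ∀ r : ℕ, r.Prime → r ∣ v / p → r ≤ z ^ κ) (h1 : La2 R z p1 g j v = 1) :
    (np R z p1 g v : ℝ) ≤ Cb R z p1 g κ j v := by
  have _ := hκ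
  have _ := hκ'
  have hj := hE.hj0k
  have hju := hE.hj0u
  have hu := hE.hu
  have hq := hE.hq
  have hz0 : 0 < z := by omega
  have hv0 : 0 < v := by omega
  have hk1 : 0 < R.k1 := by omega
  have hvp1 := K2_lt_p1 hz hp1 hv'
  have hlz : 0 < Real.log z := Real.log_pos (by exact_mod_cast (show 1 < z by omega))
  have hL : 0 < 3 * (R.k1 : ℝ) * Real.log z := by
    have : (0 : ℝ) < (R.k1 : ℝ) := by exact_mod_cast hk1
    positivity
  unfold np Cb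
  rw [Finset.card_eq_sum_ones, Nat.cast_sum]
  refine Finset.sum_le_sum fun p hp => ?_
  rw [Finset.mem_filter] at hp
  obtain ⟨hpP, hpv⟩ := hp
  obtain ⟨hpp, hpl, hpu⟩ := K2_mem_Pc hpP
  rw [h1, one_pow, mul_one, Nat.cast_one]
  obtain ⟨m, hm⟩ := hpv
  have hdiv : v / p = m := by
    rw [hm]
    exact Nat.mul_div_cancel_left _ hpp.pos
  have hm0 : 0 < m := by
    rcases Nat.eq_zero_or_pos m with h | h
    · rw [h, mul_zero] at hm
      omega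
    · exact h
  have hmv : m ∣ v := ⟨p, by rw [hm, mul_comm]⟩
  have hQb : ∀ r : ℕ, r.Prime → r ∣ m → r ∈ Qb R z p1 g κ := by
    intro r hr hrm
    have hrv : r ∣ v := hrm.trans hmv
    have h2 : z ^ (2 * j0 R g) < r := hR r hr hrv
    have h3 : r ≤ z ^ κ := hsm p hpP ⟨m, hm⟩ r hr (by rw [hdiv]; exact hrm)
    have h4 := Nat.le_of_dvd hv0 hrv
    have h5 : z ≤ z ^ (2 * j0 R g) := Nat.le_self_pow (by omega) z
    unfold Qb
    rw [Finset.mem_sdiff, mem_PL, mem_PL]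
    refine ⟨⟨by omega, hr, by omega, h3⟩, ?_⟩
    rintro ⟨_, _, _, h6⟩
    omega
  have hsf : Squarefree m := by
    rw [Nat.squarefree_iff_prime_squarefree]
    intro r hr hrr
    have h2 : r ∣ m := (Dvd.intro r rfl).trans hrr
    refine hsq r (hQb r hr h2) ?_
    rw [sq]
    exact hrr.trans hmv
  have hne : ∀ r : ℕ, r.Prime → r ∣ m → r ≠ p := by
    intro r hr hrm hrp
    refine hsq r (hQb r hr hrm) ?_
    rw [sq, hm]
    nth_rewrite 1 [hrp]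
    exact Nat.mul_dvd_mul (dvd_refl p) hrm
  have hlogm : Real.log m = ∑ r ∈ m.primeFactors, Real.log r := by
    have h2 : (m : ℝ) = ∏ r ∈ m.primeFactors, (r : ℝ) := by
      rw [← Nat.cast_prod, Nat.prod_primeFactors_of_squarefree hsf]
    conv_lhs => rw [h2]
    rw [Real.log_prod]
    intro r hr
    exact_mod_cast (Nat.prime_of_mem_primeFactors hr).ne_zero
  have hsum : Real.log m ≤ ∑ q ∈ (Qb R z p1 g κ).filter (fun q => q ≠ p ∧ q ∣ v), Real.log q := by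
    rw [hlogm]
    refine Finset.sum_le_sum_of_subset_of_nonneg ?_ fun r _ _ => Real.log_natCast_nonneg r
    intro r hr
    have hrp := Nat.prime_of_mem_primeFactors hr
    have hrm := Nat.dvd_of_mem_primeFactors hr
    rw [Finset.mem_filter]
    exact ⟨hQb r hrp hrm, hne r hrp hrm, hrm.trans hmv⟩
  have hbig : z ^ (3 * R.k1) ≤ m := by
    have h2 : p ≤ z ^ R.k1 := hpu.trans (Nat.pow_le_pow_right hz0 (by omega))
    have h3 : z ^ R.q = z ^ R.k1 * z ^ (3 * R.k1) := by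
      rw [← pow_add, hq]
      congr 1
      ring
    have h4 : z ^ R.k1 * z ^ (3 * R.k1) < z ^ R.k1 * m := by
      rw [← h3]
      refine hv.trans_le ?_
      rw [hm]
      exact Nat.mul_le_mul_right _ h2
    exact (Nat.lt_of_mul_lt_mul_left h4).le
  have hlow : 3 * (R.k1 : ℝ) * Real.log z ≤ Real.log m := by
    have h2 : (z : ℝ) ^ (3 * R.k1) ≤ (m : ℝ) := by exact_mod_cast hbig
    have h3 : (0 : ℝ) < (z : ℝ) ^ (3 * R.k1) := by
      have : (0 : ℝ) < (z : ℝ) := by exact_mod_cast hz0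
      positivity
    have h4 := Real.log_le_log h3 h2
    rw [Real.log_pow] at h4
    push_cast at h4
    exact h4
  have hs := hlow.trans hsum
  rw [one_le_div (by positivity)]
  exact pow_le_pow_left₀ hL.le hs 2

end Pool.Agent.LibFB63
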