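import Pool.Agent.LibFB63.K1
import Pool.Agent.LibFB63.K2

/-!
Row K3 (SHORT/MEDIUM): the pointwise inequality.

`large_or_bad`: `v = p * m * r`, `m := v / p / r` (`r ∣ v / p`). `p ∤ m` (otherwise `p ^ 2 ∣ v`, but `p ∈ Qb`: `2 j0 ≤ k1 - 2 j0`, `k1 - j0 ≤ κ`). `Rgh R z g m` (divisors of `v`), `1 ≤ m ≤ v ≤ 3 z^q ≤ z^(q+1)`, `p m z^κ ≤ p m r = v ≤ 3 z^q`.
  If `(p, m) ∈ Bad`: second alternative (`p * m ∣ v`). Otherwise `|G La1 m - GR (z^κ/p)| > 3 √ε G`, `G := Gn (Pb R z p1) z κ > 0`. `La1 v = La1 (p m)` (`Lc_mul_large`, `v = (p * m) * r`), and by `La1_mul`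
  `G La1 (p m) = (G La1 m - GR(z^κ/p)) - GR(z^κ/p)/(p-1)`, `0 ≤ GR(z^κ/p) ≤ G` (`GRb_nonneg`, `GRb_le`, `p ≥ 1`), `1/(p-1) ≤ 1/z ≤ √ε` (`p > z`, `hzε`): `|G La1 v| > 2 √ε G`, so `La1 v ^ 2 ≥ 4 ε`.

`pointwise`: Case 1, some `q ∈ Q2` divides `v`: `Ca ≥ HH` (a sum of equal nonnegative terms, at least one), the other terms are `≥ 0`, `La1² ≥ 0`. Case 2: `Rgh v` (`rgh_of`), `La2 v = 1`, `HH v = np v ≤ 4` (`np_le`). 2a: some `q ∈ Qb` with `q² ∣ v`: `Cd ≥ 4`.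
  2b: no such `q`, but some `p ∈ Pc`, `p ∣ v`, and a prime `r ∣ v / p`, `r > z^κ`: `large_or_bad`: `La1² ≥ 4 ε ≥ ε HH` or `Cc ≥ 4` (the sum of `La2² = 1` over a nonempty set). 2c: otherwise `Cb_ge`.
  (`C0 = 100`; `hκ'`: `κ + 10 u + dl ≥ k1`, `10 u ≤ j0/10`, `dl ≤ j0/4`. `z` large: `3 ≤ z`, `1 ≤ z √ε`.) All of `Ca, Cb, Cc, Cd` are `≥ 0` (`HH ≥ 0`; sums of squares).
-/

open Finset Filter

namespace Pool.Agent.LibFB63

open Pool.Agent.LibRG87 Pool.Agent.LibLG5 Pool.Agent.LibPL63 Pool.Agent.LibSC93 Pool.Agent.LibGL22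

theorem large_or_bad {R : Prm} {g g2 g3 : ℕ} (hE : Expo R g g2 g3) {z p1 κ : ℕ} (hz : 3 ≤ z) {ε : ℝ} (hε : 0 < ε)
    (hzε : 1 ≤ z * Real.sqrt ε) (hκ : κ ≤ R.k1) (hκ' : R.k1 ≤ κ + j0 R g) {v p r : ℕ} (hv : z ^ R.q < v)
    (hv' : v ≤ 3 * z ^ R.q) (hR : Rgh R z g v) (hsq : ∀ q ∈ Qb R z p1 g κ, ¬ q ^ 2 ∣ v) (hp : p ∈ Pc R z p1 g)
    (hpv : p ∣ v) (hr : r.Prime) (hrv : r ∣ v / p) (hrκ : z ^ κ < r) :
    4 * ε ≤ La1 R z p1 κ v ^ 2 ∨ ∃ x ∈ Bad R z p1 g κ ε, x.1 * x.2 ∣ v := by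
  classical
  have hE' := hE
  obtain ⟨hg, hu, hl1, hl1', hj0, hjr, hl2, hdl, hq, hj0u, hl2u, hdl4, hj0k, hk⟩ := hE'
  have hz1 : 1 ≤ z := by omega
  have hpm := hp
  unfold Pc PL PP at hpm
  simp only [Finset.mem_sdiff, Finset.mem_erase, Finset.mem_filter, Finset.mem_Ioc, not_and] at hpm
  obtain ⟨⟨hp1, ⟨hpz, hple⟩, hpp⟩, hp2⟩ := hpm
  have hpgt : z ^ (R.k1 - 2 * j0 R g) < p := by
    by_contra hlt
    exact hp2 hp1 ⟨hpz, not_lt.1 hlt⟩ hpp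
  have hv0 : 0 < v := by omega
  obtain ⟨w, rfl⟩ := hpv
  have hpp0 : 0 < p := hpp.pos
  rw [Nat.mul_div_cancel_left _ hpp0] at hrv
  obtain ⟨m, rfl⟩ := hrv
  have hm0 : 0 < m := by
    rcases Nat.eq_zero_or_pos m with h | h
    · subst h; simp at hv0
    · exact h
  have hr0 : 0 < r := hr.pos
  -- `p ∤ m`
  have hpQb : p ∈ Qb R z p1 g κ := by
    unfold Qb PL PP
    simp only [Finset.mem_sdiff, Finset.mem_erase, Finset.mem_filter, Finset.mem_Ioc, not_and]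
    refine ⟨⟨hp1, ⟨hpz, hple.trans (Nat.pow_le_pow_right hz1 (by omega))⟩, hpp⟩, fun _ h _ => ?_⟩
    have h1 := h.2
    have h2 : z ^ (2 * j0 R g) ≤ z ^ (R.k1 - 2 * j0 R g) := Nat.pow_le_pow_right hz1 (by omega)
    omega
  have hpnm : ¬ p ∣ m := fun hd => hsq p hpQb (by
    rw [sq]
    exact Nat.mul_dvd_mul_left p (hd.mul_left r))
  have hRm : Rgh R z g m := fun s hs hd => hR s hs ((hd.mul_left r).mul_left p)
  have hle : p * m * z ^ κ ≤ p * (r * m) := by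
    calc p * m * z ^ κ ≤ p * m * r := Nat.mul_le_mul_left _ hrκ.le
      _ = p * (r * m) := by ring
  have hmv : m ≤ p * (r * m) := by
    calc m = 1 * (1 * m) := by ring
      _ ≤ p * (r * m) := Nat.mul_le_mul hpp0 (Nat.mul_le_mul_right _ hr0)
  by_cases hbad : |Gn (Pb R z p1) z κ * La1 R z p1 κ m - GRb R z p1 ((z : ℝ) ^ κ / p)| ≤
      3 * Real.sqrt ε * Gn (Pb R z p1) z κ
  · right
    refine ⟨(p, m), ?_, ?_⟩
    · unfold Bad
      simp only [Finset.mem_filter, Finset.mem_product, Finset.mem_Icc]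
      refine ⟨⟨hp, hm0, ?_⟩, hle.trans hv', hRm, hbad⟩
      calc m ≤ 3 * z ^ R.q := hmv.trans hv'
        _ ≤ z * z ^ R.q := Nat.mul_le_mul_right _ hz
        _ = z ^ (R.q + 1) := by ring
    · exact Nat.mul_dvd_mul_left p (Dvd.intro_left r rfl)
  · left
    rw [not_le] at hbad
    set G := Gn (Pb R z p1) z κ with hG
    have hG1 : 1 ≤ G := one_le_GnQ _ (K1_Pb_prime R z p1) hz1 κ
    have h1 : La1 R z p1 κ (p * (r * m)) = La1 R z p1 κ (p * m) := by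
      have h2 : p * (r * m) = p * m * r := by ring
      rw [h2]
      exact Lc_mul_large _ (K1_Pb_prime R z p1) hr hrκ _
    have h2 := La1_mul hE (by omega : 2 ≤ z) hκ hp hpnm hRm
    have hp0 : (0 : ℝ) < p := by exact_mod_cast hpp0
    have hzp : (z : ℝ) ≤ (p : ℝ) - 1 := by
      have : z + 1 ≤ p := hpz
      have h3 : ((z + 1 : ℕ) : ℝ) ≤ p := by exact_mod_cast this
      push_cast at h3
      linarith
    have hz0 : (0 : ℝ) < z := by exact_mod_cast (by omega : 0 < z)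
    have hgr0 := GRb_nonneg R z p1 ((z : ℝ) ^ κ / p)
    have hgr1 : GRb R z p1 ((z : ℝ) ^ κ / p) ≤ G := by
      refine GRb_le R z p1 κ ?_
      rw [div_le_iff₀ hp0]
      have : (0 : ℝ) ≤ (z : ℝ) ^ κ := by positivity
      nlinarith
    set D := GRb R z p1 ((z : ℝ) ^ κ / p) with hD
    have h3 : G * La1 R z p1 κ (p * m) = (G * La1 R z p1 κ m - D) - D / ((p : ℝ) - 1) := by
      rw [h2]
      have : (p : ℝ) - 1 ≠ 0 := by linarith
      field_simp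
      ring
    have h4 : D / ((p : ℝ) - 1) ≤ Real.sqrt ε * G := by
      rw [div_le_iff₀ (by linarith)]
      have h5 : 1 ≤ Real.sqrt ε * ((p : ℝ) - 1) := by
        have := Real.sqrt_nonneg ε
        nlinarith
      have h6 : 0 ≤ G := by linarith
      nlinarith
    have h4' : 0 ≤ D / ((p : ℝ) - 1) := div_nonneg hgr0 (by linarith)
    have hs0 := Real.sqrt_nonneg ε
    have h5 : 2 * Real.sqrt ε * G ≤ |G * La1 R z p1 κ (p * m)| := by
      rw [h3]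
      have h6 := abs_sub_abs_le_abs_sub (G * La1 R z p1 κ m - D) (D / ((p : ℝ) - 1))
      rw [abs_of_nonneg h4'] at h6
      linarith
    rw [abs_mul, abs_of_pos (by linarith : 0 < G)] at h5
    have h6 : 2 * Real.sqrt ε ≤ |La1 R z p1 κ (p * m)| := by
      have h7 : G * (2 * Real.sqrt ε) ≤ G * |La1 R z p1 κ (p * m)| := by linarith
      exact le_of_mul_le_mul_left h7 (by linarith)
    rw [h1, ← sq_abs]
    have h7 : (2 * Real.sqrt ε) ^ 2 ≤ |La1 R z p1 κ (p * m)| ^ 2 := pow_le_pow_left₀ (by positivity) h6 2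
    rw [mul_pow, Real.sq_sqrt hε.le] at h7
    linarith

theorem Cs_nonneg {R : Prm} {z p1 g κ j : ℕ} {ε : ℝ} (v : ℕ) : 0 ≤ Ca R z p1 g j v ∧ 0 ≤ Cb R z p1 g κ j v ∧
    0 ≤ Cc R z p1 g κ ε j v ∧ 0 ≤ Cd R z p1 g κ j v := by
  refine ⟨?_, ?_, ?_, ?_⟩
  · unfold Ca HH
    exact Finset.sum_nonneg fun q _ => by positivity
  · unfold Cb
    exact Finset.sum_nonneg fun q _ => by positivity
  · unfold Cc
    have : 0 ≤ ∑ _x ∈ (Bad R z p1 g κ ε).filter (fun x => x.1 * x.2 ∣ v), La2 R z p1 g j v ^ 2 :=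
      Finset.sum_nonneg fun q _ => by positivity
    linarith
  · unfold Cd
    have : 0 ≤ ∑ _q ∈ (Qb R z p1 g κ).filter (fun q => q ^ 2 ∣ v), La2 R z p1 g j v ^ 2 :=
      Finset.sum_nonneg fun q _ => by positivity
    linarith

theorem pointwise : ∃ C0 : ℕ, ∀ (R : Prm) (C Cq Cm : ℕ) (c cD Λ δ : ℝ) (Cx g g2 g3 : ℕ) (ε : ℝ), C0 ≤ Cx →
    ParV R C Cq Cm c cD Λ δ Cx g g2 g3 ε → ∀ᶠ z : ℕ in atTop, ∀ p1 : ℕ, p1.Prime → z ^ (R.q + 2) < p1 →
    ∀ κ j : ℕ, LevP R g g2 g3 δ z p1 κ j → ∀ v : ℕ, z ^ R.q < v → v ≤ 3 * z ^ R.q →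
      (∀ p : ℕ, p.Prime → p ∣ v → z ^ l2 R g3 < p) →
      ε * HH R z p1 g j v - La1 R z p1 κ v ^ 2 ≤
        ε * (Ca R z p1 g j v + Cb R z p1 g κ j v + Cc R z p1 g κ ε j v + Cd R z p1 g κ j v) := by
  classical
  refine ⟨100, fun R C Cq Cm c cD Λ δ Cx g g2 g3 ε hC hpar => ?_⟩
  have hE := expoK hpar hC
  have hε := hpar.hε
  have hs : 0 < Real.sqrt ε := Real.sqrt_pos.2 hε
  filter_upwards [Filter.eventually_ge_atTop 3, Filter.eventually_ge_atTop (⌈1 / Real.sqrt ε⌉₊)] with z hz hzε'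
  intro p1 hp1 hp1z κ j hlev v hv hv' hl
  have hzε : 1 ≤ z * Real.sqrt ε := by
    have h1 : 1 / Real.sqrt ε ≤ z := (Nat.le_ceil _).trans (by exact_mod_cast hzε')
    rw [div_le_iff₀ hs] at h1
    exact h1
  have hκ : κ ≤ R.k1 := by
    have := hlev.hκ
    omega
  have hκ' : R.k1 ≤ κ + j0 R g := by
    have h1 := hlev.hκ'
    have h2 := hE.hdl4
    have h3 := hE.hj0u
    omega
  have hv0 : 0 < v := by omega
  obtain ⟨ha, hb, hc, hd⟩ := Cs_nonneg (R := R) (z := z) (p1 := p1) (g := g) (κ := κ) (j := j) (ε := ε) v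
  have hsqr := sq_nonneg (La1 R z p1 κ v)
  by_cases hA : ∃ q ∈ Q2 R z p1 g, q ∣ v
  · obtain ⟨q, hq, hqv⟩ := hA
    have h1 : HH R z p1 g j v ≤ Ca R z p1 g j v := by
      unfold Ca
      have h0 : 0 ≤ HH R z p1 g j v := by
        unfold HH
        positivity
      exact Finset.single_le_sum (f := fun _ => HH R z p1 g j v) (fun _ _ => h0) (Finset.mem_filter.2 ⟨hq, hqv⟩)
    nlinarith
  · have hA' : ∀ q ∈ Q2 R z p1 g, ¬ q ∣ v := fun q hq hqv => hA ⟨q, hq, hqv⟩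
    have hR : Rgh R z g v := rgh_of hE hz hp1z hv0 hv' hl hA'
    have h1 : La2 R z p1 g j v = 1 := La2_eq_one hz hA'
    have hnp : (np R z p1 g v : ℝ) ≤ 4 := by exact_mod_cast np_le hE hz hv0 hv'
    have hHH : HH R z p1 g j v = np R z p1 g v := by
      unfold HH
      rw [h1]
      ring
    rw [hHH]
    by_cases hB : ∃ q ∈ Qb R z p1 g κ, q ^ 2 ∣ v
    · obtain ⟨q, hq, hqv⟩ := hB
      have h2 : 4 ≤ Cd R z p1 g κ j v := by
        unfold Cd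
        have h3 : (1 : ℝ) ≤ ∑ _q ∈ (Qb R z p1 g κ).filter (fun q => q ^ 2 ∣ v), La2 R z p1 g j v ^ 2 := by
          rw [h1]
          have h4 := Finset.single_le_sum (f := fun _ : ℕ => (1 : ℝ) ^ 2) (s := (Qb R z p1 g κ).filter (fun q => q ^ 2 ∣ v))
            (fun _ _ => by norm_num) (Finset.mem_filter.2 ⟨hq, hqv⟩)
          simpa using h4
        linarith
      nlinarith
    · have hB' : ∀ q ∈ Qb R z p1 g κ, ¬ q ^ 2 ∣ v := fun q hq hqv => hB ⟨q, hq, hqv⟩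
      by_cases hD : ∃ p ∈ Pc R z p1 g, p ∣ v ∧ ∃ r : ℕ, r.Prime ∧ r ∣ v / p ∧ z ^ κ < r
      · obtain ⟨p, hp, hpv, r, hr, hrv, hrκ⟩ := hD
        rcases large_or_bad hE hz hε hzε hκ hκ' hv hv' hR hB' hp hpv hr hrv hrκ with h2 | ⟨x, hx, hxv⟩
        · nlinarith
        · have h2 : 4 ≤ Cc R z p1 g κ ε j v := by
            unfold Cc
            have h3 : (1 : ℝ) ≤ ∑ _x ∈ (Bad R z p1 g κ ε).filter (fun x => x.1 * x.2 ∣ v), La2 R z p1 g j v ^ 2 := by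
              rw [h1]
              have h4 := Finset.single_le_sum (f := fun _ : ℕ × ℕ => (1 : ℝ) ^ 2)
                (s := (Bad R z p1 g κ ε).filter (fun x => x.1 * x.2 ∣ v))
                (fun _ _ => by norm_num) (Finset.mem_filter.2 ⟨hx, hxv⟩)
              simpa using h4
            linarith
          nlinarith
      · have h2 : (np R z p1 g v : ℝ) ≤ Cb R z p1 g κ j v := by
          refine Cb_ge hE hz hp1z hκ hκ' hv hv' hR hB' ?_ h1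
          intro p hp hpv r hr hrv
          by_contra hlt
          exact hD ⟨p, hp, hpv, r, hr, hrv, not_le.1 hlt⟩
        nlinarith

end Pool.Agent.LibFB63
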