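import Pool.Agent.LibFB63.NF
import Pool.Agent.LibFB63.K0
import Pool.Agent.LibFB63.V2

/-!
Row K4 (SHORT/MEDIUM): the means of `Λ2²` on multiples.

`meanE`: `hU` (`U1`) with `Q = Q2 R z p1 g ⊆ Pb R z p1` (`PL z (2 j0) p1 ⊆ PL z k1 p1 = PG R z p1`, `2 j0 ≤ k1`), `c = cSe Q2 z j` (`cSe_abs`, `cSe_supp`), `nrm_cSe : nrm = 1/Gn`; a prime `p ∈ Q2` has `p ≤ z^(2 j0)`, so `p ∤ e`; prime factors of `e` are `> z^(2 j0) ≥ z^l1`.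
`meanA` (`q ∈ Q2`, `p ∈ Pc`): `q ∣ v ∧ p ∣ v ↔ p * q ∣ v` (distinct primes: `q ≤ z^(2 j0) ≤ z^(k1 - 2 j0) < p`); on these `n`: `La2 (n + a) = Lc (Q2.erase q) (cBr Q2 z j q) (n + a)` (`Lc_bracket`); `hU` with `e = p * q`, `Q = Q2.erase q`, `c = cBr Q2 z j q` (`cBr_abs`, `cBr_supp`), `nrm_cBr : nrm = tl/Gn²`.
  Level: `p q z^(2 j + 30 u) ≤ z^(k1 - j0 + 2 j0 + 4 jr + 30 u) ≤ z^(4 k1)` (`8 jr = k1`, `100 u ≤ j0`, `100 j0 ≤ k1`).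
`kfacts`: from `nf_er` (second equality: `xH = Yj * S`; `Yj > 0` from `NW, m1 > 0`, `Gn ≥ 1`), `nf_Pc` (`S ≤ 4/g ≤ 1`), `δ ≤ ε/Cx ≤ 1/Cx ≤ 1/4000` (`hδε`, `hε1`; `C0 ≥ 4000`). Take `C0 = max` of those of `nf_er`, `nf_Pc` and `4000`.
-/

open Finset Filter

namespace Pool.Agent.LibFB63

open Pool.Agent.LibRG87 Pool.Agent.LibLG5 Pool.Agent.LibPL63 Pool.Agent.LibSC93 Pool.Agent.LibGL22

/-- the mean of `Λ2²` -/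
noncomputable def Yj (R : Prm) (z p1 g j : ℕ) (h K : Finset ℕ) : ℝ :=
  NW R z p1 * m1 R z p1 h K / Gn (Q2 R z p1 g) z j

variable {R : Prm} {g g2 g3 : ℕ} {z p1 : ℕ}

private theorem K4_pow {z a b : ℕ} (hz : 1 ≤ z) (h : a ≤ b) : z ^ a ≤ z ^ b := Nat.pow_le_pow_right hz h

private theorem K4_Q2 {p : ℕ} (hp : p ∈ Q2 R z p1 g) :
    p.Prime ∧ z ^ l1 R < p ∧ p ≤ z ^ (2 * j0 R g) := by
  unfold Q2 at hp
  rw [Finset.mem_sdiff] at hp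
  obtain ⟨h1, h2⟩ := hp
  obtain ⟨h3, h4, h5, h6⟩ := mem_PL.1 h1
  refine ⟨h4, ?_, h6⟩
  by_contra hlt
  refine h2 ?_
  unfold Ps
  exact mem_PL.2 ⟨h3, h4, h5, not_lt.1 hlt⟩

private theorem K4_Pc {p : ℕ} (hp : p ∈ Pc R z p1 g) :
    p.Prime ∧ z ^ (R.k1 - 2 * j0 R g) < p ∧ p ≤ z ^ (R.k1 - j0 R g) := by
  unfold Pc at hp
  rw [Finset.mem_sdiff] at hp
  obtain ⟨h1, h2⟩ := hp
  obtain ⟨h3, h4, h5, h6⟩ := mem_PL.1 h1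
  refine ⟨h4, ?_, h6⟩
  by_contra hlt
  exact h2 (mem_PL.2 ⟨h3, h4, h5, not_lt.1 hlt⟩)

private theorem K4_num (hE : Expo R g g2 g3) : l1 R ≤ 2 * j0 R g ∧ l1 R ≤ R.k1 - 2 * j0 R g ∧
    2 * j0 R g ≤ R.k1 - 2 * j0 R g ∧
    R.k1 - j0 R g + 2 * j0 R g + (2 * (2 * jr R) + 30 * R.u) ≤ R.q := by
  have h1 := hE.hl1
  have h2 := hE.hj0u
  have h3 := hE.hj0k
  have h4 := hE.hjr
  have h5 := hE.hq
  omega

private theorem K4_alg {N m G D E e : ℝ} :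
    N / e * ((1 + D) * (m * (1 / G)) + E) = ((1 + D) * (N * m / G) + N * E) / e := by
  ring

private theorem K4_alg2 {N m G D E t p q : ℝ} :
    N / (p * q) * ((1 + D) * (m * (t / G ^ 2)) + E) =
      ((1 + D) * (N * m / G) * (t / G) + N * E) / (p * q) := by
  ring

theorem Q2_sub (hE : Expo R g g2 g3) (z p1 : ℕ) (hz : 1 ≤ z) : Q2 R z p1 g ⊆ Pb R z p1 := by
  unfold Q2 Pb PG
  refine Finset.sdiff_subset_sdiff ?_ (Finset.Subset.refl _)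
  intro p hp
  obtain ⟨h3, h4, h5, h6⟩ := mem_PL.1 hp
  have h7 := hE.hj0k
  exact mem_PL.2 ⟨h3, h4, h5, h6.trans (K4_pow hz (by omega))⟩

theorem meanE (hE : Expo R g g2 g3) (hz : 3 ≤ z) {Cq : ℕ} {Λ δ : ℝ} {c0 : ℕ} {h K : Finset ℕ}
    (hU : U1 R Cq Λ δ z p1 c0 h K) {a : ℕ} (ha : a ∈ h) {e j : ℕ} (he1 : 1 ≤ e)
    (he : ∀ p : ℕ, p.Prime → p ∣ e → z ^ (2 * j0 R g) < p) (hlv : e * z ^ (2 * j + 30 * R.u) ≤ z ^ R.q) :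
    ∑ n ∈ (sN (z ^ R.q) (Wp z p1) c0).filter (fun n => e ∣ n + a),
        rhoP (Ps R z p1) {a} n * PsG R z p1 h K n ^ 2 * La2 R z p1 g j (n + a) ^ 2 ≤
      ((1 + δ) * Yj R z p1 g j h K + NW R z p1 * er R z p1 Cq Λ h) / e := by
  have hz1 : 1 ≤ z := by omega
  obtain ⟨n1, -, -, -⟩ := K4_num hE
  have hQ : ∀ p ∈ Q2 R z p1 g, Nat.Prime p := fun p hp => (K4_Q2 hp).1
  have h1 := hU a ha e he1 (fun p hp hpe => lt_of_le_of_lt (K4_pow hz1 n1) (he p hp hpe))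
    (Q2 R z p1 g) (Q2_sub hE z p1 hz1)
    (fun p hp hpe => absurd (he p (hQ p hp) hpe) (not_lt.2 (K4_Q2 hp).2.2))
    (cSe (Q2 R z p1 g) z j) j (cSe_abs _ hQ hz1 j) (fun A hA => cSe_supp hA) hlv
  rw [nrm_cSe _ hQ hz1 j, K4_alg] at h1
  exact h1

theorem meanA (hE : Expo R g g2 g3) (hz : 3 ≤ z) {Cq : ℕ} {Λ δ : ℝ} {c0 : ℕ} {h K : Finset ℕ}
    (hU : U1 R Cq Λ δ z p1 c0 h K) {a : ℕ} (ha : a ∈ h) {p q j : ℕ} (hj : j ≤ 2 * jr R) (hp : p ∈ Pc R z p1 g)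
    (hq : q ∈ Q2 R z p1 g) :
    ∑ n ∈ (sN (z ^ R.q) (Wp z p1) c0).filter (fun n => q ∣ n + a ∧ p ∣ n + a),
        rhoP (Ps R z p1) {a} n * PsG R z p1 h K n ^ 2 * La2 R z p1 g j (n + a) ^ 2 ≤
      ((1 + δ) * Yj R z p1 g j h K * (tl (Q2 R z p1 g) z j q / Gn (Q2 R z p1 g) z j) +
        NW R z p1 * er R z p1 Cq Λ h) / (p * q) := by
  have hz1 : 1 ≤ z := by omega
  obtain ⟨-, n2, n3, n4⟩ := K4_num hE
  have hQ : ∀ p ∈ Q2 R z p1 g, Nat.Prime p := fun p hp => (K4_Q2 hp).1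
  obtain ⟨hpp, hp1, hp2⟩ := K4_Pc hp
  obtain ⟨hqp, hq1, hq2⟩ := K4_Q2 hq
  have hqp' : q < p := lt_of_le_of_lt (hq2.trans (K4_pow hz1 n3)) hp1
  have hcop : Nat.Coprime p q := (Nat.coprime_primes hpp hqp).2 hqp'.ne'
  have hsets : (sN (z ^ R.q) (Wp z p1) c0).filter (fun n => q ∣ n + a ∧ p ∣ n + a) =
      (sN (z ^ R.q) (Wp z p1) c0).filter (fun n => p * q ∣ n + a) := by
    refine Finset.filter_congr ?_
    intro n _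
    constructor
    · rintro ⟨g1, g2⟩
      exact hcop.mul_dvd_of_dvd_of_dvd g2 g1
    · intro g1
      exact ⟨(Dvd.intro_left p rfl).trans g1, (Dvd.intro q rfl).trans g1⟩
  have hlv : p * q * z ^ (2 * j + 30 * R.u) ≤ z ^ R.q := by
    have h1 : p * q * z ^ (2 * j + 30 * R.u) ≤
        z ^ (R.k1 - j0 R g) * z ^ (2 * j0 R g) * z ^ (2 * (2 * jr R) + 30 * R.u) :=
      Nat.mul_le_mul (Nat.mul_le_mul hp2 hq2) (K4_pow hz1 (by omega))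
    rw [← pow_add, ← pow_add] at h1
    exact h1.trans (K4_pow hz1 n4)
  have h1 := hU a ha (p * q) (Nat.mul_pos hpp.pos hqp.pos)
    (fun p' hp' hpe => by
      rcases (Nat.Prime.dvd_mul hp').1 hpe with h2 | h2
      · rw [(Nat.prime_dvd_prime_iff_eq hp' hpp).1 h2]
        exact lt_of_le_of_lt (K4_pow hz1 n2) hp1
      · rw [(Nat.prime_dvd_prime_iff_eq hp' hqp).1 h2]
        exact hq1)
    ((Q2 R z p1 g).erase q) ((Finset.erase_subset _ _).trans (Q2_sub hE z p1 hz1))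
    (fun p' hp' hpe => by
      obtain ⟨h3, h4⟩ := Finset.mem_erase.1 hp'
      obtain ⟨h5, h6, h7⟩ := K4_Q2 h4
      rcases (Nat.Prime.dvd_mul h5).1 hpe with h2 | h2
      · have h8 := (Nat.prime_dvd_prime_iff_eq h5 hpp).1 h2
        have h9 : p' < p := lt_of_le_of_lt (h7.trans (K4_pow hz1 n3)) hp1
        exact absurd h8 h9.ne
      · exact h3 ((Nat.prime_dvd_prime_iff_eq h5 hqp).1 h2))
    (cBr (Q2 R z p1 g) z j q) j (cBr_abs _ hQ hz1 j q) (fun A hA => cBr_supp hA) hlv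
  rw [nrm_cBr, Nat.cast_mul, K4_alg2] at h1
  rw [hsets]
  refine le_trans (le_of_eq ?_) h1
  refine Finset.sum_congr rfl ?_
  intro n hn
  have h2 : q ∣ n + a := (Dvd.intro_left p rfl).trans (Finset.mem_filter.1 hn).2
  unfold La2
  rw [Lc_bracket _ hQ hz1 j hq h2]

theorem kfacts : ∃ C0 : ℕ, ∀ (R : Prm) (C Cq Cm : ℕ) (c cD Λ δ : ℝ) (Cx g g2 g3 : ℕ) (ε : ℝ), C0 ≤ Cx →
    ParV R C Cq Cm c cD Λ δ Cx g g2 g3 ε → ∀ᶠ z : ℕ in atTop, ∀ p1 : ℕ, p1.Prime → z ^ (R.q + 2) < p1 →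
    ∀ κ j : ℕ, LevP R g g2 g3 δ z p1 κ j → ∀ (c0 : ℕ) (h K : Finset ℕ), PosS z p1 c0 R.k (Λ * R.q) h K →
      0 < Yj R z p1 g j h K ∧ xH R z p1 g j h K = Yj R z p1 g j h K * ∑ p ∈ Pc R z p1 g, 1 / (p : ℝ) ∧
      1 / (2 * g : ℝ) ≤ ∑ p ∈ Pc R z p1 g, 1 / (p : ℝ) ∧ ∑ p ∈ Pc R z p1 g, 1 / (p : ℝ) ≤ 1 ∧
      0 ≤ NW R z p1 * er R z p1 Cq Λ h ∧
      (R.q : ℝ) ^ 2 * (NW R z p1 * er R z p1 Cq Λ h) ≤ δ * xH R z p1 g j h K ∧ 0 < δ ∧ δ ≤ 1 / 4000 := by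
  obtain ⟨C2, H2⟩ := nf_er
  refine ⟨max C2 4000, ?_⟩
  intro R C Cq Cm c cD Λ δ Cx g g2 g3 ε hCx hp
  have hC2 : C2 ≤ Cx := le_trans (le_max_left _ _) hCx
  have hC3 : 4000 ≤ Cx := le_trans (le_max_right _ _) hCx
  filter_upwards [Pc_sum R C Cq Cm c cD Λ δ Cx g g2 g3 ε (by omega) hp, H2 R C Cq Cm c cD Λ δ Cx g g2 g3 ε hC2 hp,
    eventually_ge_atTop 1] with z hz1 hz2 hz p1 hp1 hzp κ j hL c0 h K hpos
  obtain ⟨s1, s2⟩ := hz1 p1 hp1 hzp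
  obtain ⟨e1, e2, e3, e4⟩ := hz2 p1 hp1 hzp c0 h K hpos
  obtain ⟨x1, x2⟩ := e4 κ j hL
  have hQ : ∀ p ∈ Q2 R z p1 g, Nat.Prime p := fun p hp => (K4_Q2 hp).1
  have hG := one_le_GnQ (Q2 R z p1 g) hQ hz j
  have hCg : 4000 ≤ g := hC3.trans hp.hCx1
  have hgr : (4000 : ℝ) ≤ (g : ℝ) := by exact_mod_cast hCg
  have hCr : (4000 : ℝ) ≤ (Cx : ℝ) := by exact_mod_cast hC3
  refine ⟨?_, ?_, s1, ?_, ?_, x2, hp.pg.hδ, ?_⟩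
  · unfold Yj
    exact div_pos (mul_pos e2 e3) (lt_of_lt_of_le one_pos hG)
  · rw [← x1]
    unfold Yj
    ring
  · refine s2.trans ?_
    rw [div_le_one (by linarith)]
    linarith
  · exact mul_nonneg e2.le e1
  · have h1 := hp.hδε
    have h2 := hp.hε1
    have h3 := hp.hε
    have h4 : (1 : ℝ) ≤ (Cx : ℝ) ^ 2 * (g : ℝ) ^ 4 :=
      one_le_mul_of_one_le_of_one_le (one_le_pow₀ (by linarith)) (one_le_pow₀ (by linarith))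
    have h5 : ε ≤ 1 := by
      have h6 : 1 * ε ≤ (Cx : ℝ) ^ 2 * (g : ℝ) ^ 4 * ε := mul_le_mul_of_nonneg_right h4 h3.le
      linarith
    have h7 : 4000 * δ ≤ Cx * δ := mul_le_mul_of_nonneg_right hCr hp.pg.hδ.le
    linarith

/-- `(1 + δ) Yj + NW er ≤ (1 + 2 δ) Yj` -/
theorem Yj_er {δ y E x S q : ℝ} (hy : 0 < y) (hx : x = y * S) (hS : S ≤ 1) (hq : 1 ≤ q) (hE : 0 ≤ E)
    (hEq : q ^ 2 * E ≤ δ * x) (hδ : 0 < δ) : (1 + δ) * y + E ≤ (1 + 2 * δ) * y := by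
  have h1 : E ≤ q ^ 2 * E := by nlinarith [sq_nonneg (q - 1)]
  have h2 : δ * x ≤ δ * y := by
    rw [hx]
    nlinarith [mul_pos hδ hy]
  linarith

end Pool.Agent.LibFB63
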