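import Pool.Agent.LibFB63.K4

/-!
Row K5 (MEDIUM): the costs `Ca` and `Cd`. In both: `C0` = the maximum of the constants of `kfacts` and `4000` (`100 ≤ Cx` for `expoK`), `z` large for `kfacts`, `nf_inv`, `nf_sq`.

`costA`: `Ca v = ∑_{q ∈ Q2, q ∣ v} ∑_{p ∈ Pc, p ∣ v} La2 v ^ 2` (`np` = card of the filter). Exchange the sums over `n`, `q`, `p` (`Finset.sum_comm`, `Finset.sum_filter`), `meanA`: with `Y = Yj`, `G = Gn Q2 z j`, `S = ∑_{Pc} 1/p`, `E = NW er`: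
  total `≤ ∑_q ∑_p ((1+δ) Y tl_q/G + E)/(p q) = S ((1+δ) Y/G ∑_q tl_q/q + E ∑_q 1/q)`, `∑_q tl_q/q ≤ ∑_q tl_q/(q-1) ≤ G/500` (`LevP.br3`; `tl ≥ 0`), `∑_{q ∈ Q2} 1/q ≤ 2 j0 ≤ R.q` (`nf_inv` with `k = 2 j0`, `Q2 ⊆ PL z (2 j0) p1`);
  `S E R.q ≤ R.q^2 E ≤ δ xH`, so total `≤ ((1+δ)/500 + δ) xH ≤ xH/400`.
`costD`: `Cd v = 4 ∑_{q ∈ Qb, q² ∣ v} La2²`; exchange; `meanE` with `e = q ^ 2 ≤ z^(2 κ)`, prime factors `= q > z^(2 j0)`, level `2 κ + 2 j + 30 u ≤ 2 k1 + k1/2 + 30 u ≤ 4 k1`; `(1+δ) Y + E ≤ 2 Y` (`Yj_er`); total `≤ 4 (2 Y) ∑_{q ∈ Qb} 1/q² ≤ 8 Y/z` (`nf_sq`, `k = k1`, `Qb ⊆ PL z k1 p1`),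
  and `xH = Y S ≥ Y/(2 g)`: enough `z ≥ 6400 g`.
-/

open Finset Filter

namespace Pool.Agent.LibFB63

open Pool.Agent.LibRG87 Pool.Agent.LibLG5 Pool.Agent.LibPL63 Pool.Agent.LibSC93 Pool.Agent.LibGL22

private theorem K5_exch (s Q : Finset ℕ) (w F : ℕ → ℝ) (a : ℕ) (e : ℕ → ℕ) :
    ∑ n ∈ s, w n * (∑ _q ∈ Q.filter (fun q => e q ∣ n + a), F (n + a)) =
      ∑ q ∈ Q, ∑ n ∈ s.filter (fun n => e q ∣ n + a), w n * F (n + a) := by
  have h1 : ∀ n ∈ s, w n * (∑ _q ∈ Q.filter (fun q => e q ∣ n + a), F (n + a)) =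
      ∑ q ∈ Q, if e q ∣ n + a then w n * F (n + a) else 0 := by
    intro n _
    rw [Finset.mul_sum, Finset.sum_filter]
  rw [Finset.sum_congr rfl h1, Finset.sum_comm]
  refine Finset.sum_congr rfl fun q _ => ?_
  rw [Finset.sum_filter]

private theorem K5_mono {z k k' p1 : ℕ} (hz : 1 ≤ z) (hk : k ≤ k') : PL z k p1 ⊆ PL z k' p1 := by
  intro p hp
  obtain ⟨h1, h2, h3, h4⟩ := mem_PL.1 hp
  exact mem_PL.2 ⟨h1, h2, h3, h4.trans (Nat.pow_le_pow_right hz hk)⟩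

private theorem K5_caA {R : Prm} {z p1 g j a : ℕ} (s : Finset ℕ) (w : ℕ → ℝ) :
    ∑ n ∈ s, w n * Ca R z p1 g j (n + a) =
      ∑ q ∈ Q2 R z p1 g, ∑ p ∈ Pc R z p1 g, ∑ n ∈ s.filter (fun n => q ∣ n + a ∧ p ∣ n + a),
        w n * La2 R z p1 g j (n + a) ^ 2 := by
  unfold Ca
  rw [K5_exch s (Q2 R z p1 g) w (HH R z p1 g j) a (fun q => q)]
  refine Finset.sum_congr rfl fun q _ => ?_
  have h1 : ∀ n ∈ s.filter (fun n => q ∣ n + a), w n * HH R z p1 g j (n + a) =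
      w n * (∑ _p ∈ (Pc R z p1 g).filter (fun p => p ∣ n + a), La2 R z p1 g j (n + a) ^ 2) := by
    intro n _
    rw [Finset.sum_const, nsmul_eq_mul]
    rfl
  rw [Finset.sum_congr rfl h1]
  rw [K5_exch (s.filter (fun n => q ∣ n + a)) (Pc R z p1 g) w (fun v => La2 R z p1 g j v ^ 2) a (fun p => p)]
  refine Finset.sum_congr rfl fun p _ => ?_
  rw [Finset.filter_filter]

private theorem K5_tl_nonneg {Q : Finset ℕ} (hQ : ∀ p ∈ Q, p.Prime) (z j q : ℕ) : 0 ≤ tl Q z j q := by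
  unfold tl
  refine Finset.sum_nonneg fun A hA => ?_
  rw [Finset.mem_filter, Finset.mem_powerset] at hA
  exact (one_div_pos.2 (ph_pos' fun p hp => hQ p (Finset.erase_subset _ _ (hA.1 hp)))).le

/-- the final computation of `costA` -/
private theorem K5_arithA {S Y x E δ q t k : ℝ} (hx : x = Y * S) (hx0 : 0 < x) (hS0 : 0 ≤ S) (hS : S ≤ 1)
    (hE : 0 ≤ E) (hE2 : q ^ 2 * E ≤ δ * x) (hq : 1 ≤ q) (hδ : 0 < δ) (hδ4 : δ ≤ 1 / 4000)
    (ht : t ≤ 1 / 500) (hk : k ≤ q) (hY : 0 < Y) : S * ((1 + δ) * Y * t + E * k) ≤ 1 / 400 * x := by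
  have h1 : (1 + δ) * Y * t ≤ (1 + δ) * Y * (1 / 500) := by
    apply mul_le_mul_of_nonneg_left ht
    positivity
  have h2 : E * k ≤ δ * x := by
    have h3 : E * k ≤ E * q := mul_le_mul_of_nonneg_left hk hE
    have h4 : q ≤ q ^ 2 := by nlinarith
    have h5 : q * E ≤ q ^ 2 * E := mul_le_mul_of_nonneg_right h4 hE
    linarith
  have h3 : S * ((1 + δ) * Y * t + E * k) ≤ S * ((1 + δ) * Y * (1 / 500) + δ * x) :=
    mul_le_mul_of_nonneg_left (by linarith) hS0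
  have h4 : S * ((1 + δ) * Y * (1 / 500) + δ * x) = (1 + δ) / 500 * x + S * (δ * x) := by
    rw [hx]
    ring
  have h5 : S * (δ * x) ≤ 1 * (δ * x) := mul_le_mul_of_nonneg_right hS (by positivity)
  nlinarith

theorem costA : ∃ C0 : ℕ, ∀ (R : Prm) (C Cq Cm : ℕ) (c cD Λ δ : ℝ) (Cx g g2 g3 : ℕ) (ε : ℝ), C0 ≤ Cx →
    ParV R C Cq Cm c cD Λ δ Cx g g2 g3 ε → ∀ᶠ z : ℕ in atTop, ∀ p1 : ℕ, p1.Prime → z ^ (R.q + 2) < p1 →
    ∀ κ j : ℕ, LevP R g g2 g3 δ z p1 κ j → ∀ (c0 : ℕ) (h K : Finset ℕ), PosS z p1 c0 R.k (Λ * R.q) h K →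
      U1 R Cq Λ δ z p1 c0 h K → ∀ a ∈ h,
        ∑ n ∈ sN (z ^ R.q) (Wp z p1) c0, rhoP (Ps R z p1) {a} n * PsG R z p1 h K n ^ 2 * Ca R z p1 g j (n + a) ≤
          1 / 400 * xH R z p1 g j h K := by
  obtain ⟨C1, hK⟩ := kfacts
  refine ⟨max C1 4000, ?_⟩
  intro R C Cq Cm c cD Λ δ Cx g g2 g3 ε hC hp
  have hE : Expo R g g2 g3 := expoK hp (by omega)
  have hj0 : 1 ≤ 2 * j0 R g := by
    have := hE.hj0u
    have := hE.hu
    omega
  filter_upwards [hK R C Cq Cm c cD Λ δ Cx g g2 g3 ε (by omega) hp, nf_inv (2 * j0 R g) hj0,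
    eventually_ge_atTop 3] with z hz1 hz2 hz3 p1 hp1 hzp κ j hL c0 h K hP hU a ha
  obtain ⟨hY, hx, hS1, hS2, hE0, hE2, hδ, hδ4⟩ := hz1 p1 hp1 hzp κ j hL c0 h K hP
  have hz0 : 1 ≤ z := by omega
  have hQp : ∀ q ∈ Q2 R z p1 g, q.Prime := fun q hq => (mem_PL.1 (Finset.mem_sdiff.1 hq).1).2.1
  have hS0 : (0 : ℝ) ≤ ∑ p ∈ Pc R z p1 g, 1 / (p : ℝ) := Finset.sum_nonneg fun p _ => by positivity
  have hx0 : 0 < xH R z p1 g j h K := by
    rw [hx]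
    refine mul_pos hY (lt_of_lt_of_le ?_ hS1)
    have : (0 : ℝ) < g := by
      have := hE.hg
      exact_mod_cast (by omega : 0 < g)
    positivity
  have hG1 : 1 ≤ Gn (Q2 R z p1 g) z j := one_le_GnQ _ hQp hz0 j
  have hG0 : 0 < Gn (Q2 R z p1 g) z j := by linarith
  rw [K5_caA (sN (z ^ R.q) (Wp z p1) c0) (fun n => rhoP (Ps R z p1) {a} n * PsG R z p1 h K n ^ 2)]
  have hj : j ≤ 2 * jr R := hL.hj'
  have hqnat : 1 ≤ R.q ∧ 2 * j0 R g ≤ R.q := by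
    have h1 := hE.hj0k
    have h2 := hE.hq
    omega
  calc ∑ q ∈ Q2 R z p1 g, ∑ p ∈ Pc R z p1 g,
        ∑ n ∈ (sN (z ^ R.q) (Wp z p1) c0).filter (fun n => q ∣ n + a ∧ p ∣ n + a),
          rhoP (Ps R z p1) {a} n * PsG R z p1 h K n ^ 2 * La2 R z p1 g j (n + a) ^ 2
      ≤ ∑ q ∈ Q2 R z p1 g, ∑ p ∈ Pc R z p1 g,
          ((1 + δ) * Yj R z p1 g j h K * (tl (Q2 R z p1 g) z j q / Gn (Q2 R z p1 g) z j) +
            NW R z p1 * er R z p1 Cq Λ h) / (p * q) :=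
        Finset.sum_le_sum fun q hq => Finset.sum_le_sum fun p hpp => meanA hE hz3 hU ha hj hpp hq
    _ = (∑ p ∈ Pc R z p1 g, 1 / (p : ℝ)) * ((1 + δ) * Yj R z p1 g j h K *
          ((∑ q ∈ Q2 R z p1 g, 1 / (q : ℝ) * tl (Q2 R z p1 g) z j q) / Gn (Q2 R z p1 g) z j) +
            NW R z p1 * er R z p1 Cq Λ h * ∑ q ∈ Q2 R z p1 g, 1 / (q : ℝ)) := by
        rw [Finset.sum_comm, Finset.sum_mul]
        refine Finset.sum_congr rfl fun p _ => ?_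
        rw [Finset.sum_div, Finset.mul_sum, Finset.mul_sum, ← Finset.sum_add_distrib, Finset.mul_sum]
        refine Finset.sum_congr rfl fun q _ => ?_
        rw [div_eq_mul_one_div, ← one_div_mul_one_div]
        ring
    _ ≤ 1 / 400 * xH R z p1 g j h K := by
        refine K5_arithA hx hx0 hS0 hS2 hE0 hE2 ?_ hδ hδ4 ?_ ?_ hY
        · exact_mod_cast hqnat.1
        · rw [div_le_iff₀ hG0]
          refine le_trans (Finset.sum_le_sum fun q hq => ?_) hL.br3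
          refine mul_le_mul_of_nonneg_right ?_ (K5_tl_nonneg hQp z j q)
          have h2 : (2 : ℝ) ≤ q := by exact_mod_cast (hQp q hq).two_le
          exact one_div_le_one_div_of_le (by linarith) (by linarith)
        · refine le_trans (Finset.sum_le_sum_of_subset_of_nonneg Finset.sdiff_subset
            fun q _ _ => by positivity) ((hz2 p1).trans ?_)
          exact_mod_cast hqnat.2

theorem costD : ∃ C0 : ℕ, ∀ (R : Prm) (C Cq Cm : ℕ) (c cD Λ δ : ℝ) (Cx g g2 g3 : ℕ) (ε : ℝ), C0 ≤ Cx →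
    ParV R C Cq Cm c cD Λ δ Cx g g2 g3 ε → ∀ᶠ z : ℕ in atTop, ∀ p1 : ℕ, p1.Prime → z ^ (R.q + 2) < p1 →
    ∀ κ j : ℕ, LevP R g g2 g3 δ z p1 κ j → ∀ (c0 : ℕ) (h K : Finset ℕ), PosS z p1 c0 R.k (Λ * R.q) h K →
      U1 R Cq Λ δ z p1 c0 h K → ∀ a ∈ h,
        ∑ n ∈ sN (z ^ R.q) (Wp z p1) c0, rhoP (Ps R z p1) {a} n * PsG R z p1 h K n ^ 2 * Cd R z p1 g κ j (n + a) ≤
          1 / 400 * xH R z p1 g j h K := by
  obtain ⟨C1, hK⟩ := kfacts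
  refine ⟨max C1 4000, ?_⟩
  intro R C Cq Cm c cD Λ δ Cx g g2 g3 ε hC hp
  have hE : Expo R g g2 g3 := expoK hp (by omega)
  filter_upwards [hK R C Cq Cm c cD Λ δ Cx g g2 g3 ε (by omega) hp, nf_sq R.k1,
    eventually_ge_atTop (6400 * g), eventually_ge_atTop 3] with z hz1 hz2 hzg hz3 p1 hp1 hzp κ j hL c0 h K hP hU a ha
  obtain ⟨hY, hx, hS1, hS2, hE0, hE2, hδ, hδ4⟩ := hz1 p1 hp1 hzp κ j hL c0 h K hP
  have hz0 : 1 ≤ z := by omega
  have hg0 : (0 : ℝ) < g := by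
    have := hE.hg
    exact_mod_cast (by omega : 0 < g)
  have hκ : κ ≤ R.k1 := by
    have := hL.hκ
    omega
  have hqR : (1 : ℝ) ≤ R.q := by
    have h1 := hE.hj0k
    have h2 := hE.hq
    have h3 := hE.hj0u
    have h4 := hE.hu
    exact_mod_cast (by omega : 1 ≤ R.q)
  have hYE := Yj_er hY hx hS2 hqR hE0 hE2 hδ
  have h1 : ∀ n ∈ sN (z ^ R.q) (Wp z p1) c0,
      rhoP (Ps R z p1) {a} n * PsG R z p1 h K n ^ 2 * Cd R z p1 g κ j (n + a) =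
        4 * ((fun n => rhoP (Ps R z p1) {a} n * PsG R z p1 h K n ^ 2) n *
          (∑ _q ∈ (Qb R z p1 g κ).filter (fun q => (fun q => q ^ 2) q ∣ n + a),
            (fun v => La2 R z p1 g j v ^ 2) (n + a))) := by
    intro n _
    unfold Cd
    ring
  rw [Finset.sum_congr rfl h1, ← Finset.mul_sum,
    K5_exch (sN (z ^ R.q) (Wp z p1) c0) (Qb R z p1 g κ)
      (fun n => rhoP (Ps R z p1) {a} n * PsG R z p1 h K n ^ 2) (fun v => La2 R z p1 g j v ^ 2) a (fun q => q ^ 2)]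
  have h2 : ∀ q ∈ Qb R z p1 g κ, ∑ n ∈ (sN (z ^ R.q) (Wp z p1) c0).filter (fun n => q ^ 2 ∣ n + a),
      rhoP (Ps R z p1) {a} n * PsG R z p1 h K n ^ 2 * La2 R z p1 g j (n + a) ^ 2 ≤
        2 * Yj R z p1 g j h K * (1 / (q : ℝ) ^ 2) := by
    intro q hq
    obtain ⟨hq1, hq2⟩ := Finset.mem_sdiff.1 hq
    obtain ⟨h3, h4, h5, h6⟩ := mem_PL.1 hq1
    have h7 : z ^ (2 * j0 R g) < q := by
      by_contra hlt
      exact hq2 (mem_PL.2 ⟨h3, h4, h5, not_lt.1 hlt⟩)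
    have h8 := meanE hE hz3 hU ha (e := q ^ 2) (j := j) (Nat.one_le_pow _ _ h4.pos) (by
      intro p hpp hpd
      have h9 := (Nat.prime_dvd_prime_iff_eq hpp h4).1 (hpp.dvd_of_dvd_pow hpd)
      rw [h9]
      exact h7) (by
      have h9 : q ^ 2 ≤ z ^ (2 * κ) := by
        calc q ^ 2 ≤ (z ^ κ) ^ 2 := Nat.pow_le_pow_left h6 2
          _ = z ^ (2 * κ) := by rw [← pow_mul, mul_comm]
      calc q ^ 2 * z ^ (2 * j + 30 * R.u) ≤ z ^ (2 * κ) * z ^ (2 * j + 30 * R.u) := Nat.mul_le_mul_right _ h9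
        _ = z ^ (2 * κ + (2 * j + 30 * R.u)) := by rw [← pow_add]
        _ ≤ z ^ R.q := by
            refine Nat.pow_le_pow_right hz0 ?_
            have e1 := hL.hκ
            have e2 := hL.hj'
            have e3 := hE.hjr
            have e4 := hE.hq
            have e5 := hE.hj0u
            have e6 := hE.hj0k
            omega)
    refine h8.trans ?_
    rw [Nat.cast_pow, div_eq_mul_one_div]
    refine mul_le_mul_of_nonneg_right ?_ (by positivity)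
    nlinarith
  have h3 : ∑ q ∈ Qb R z p1 g κ, 1 / (q : ℝ) ^ 2 ≤ 1 / (z : ℝ) :=
    le_trans (Finset.sum_le_sum_of_subset_of_nonneg (Finset.sdiff_subset.trans (K5_mono hz0 hκ))
      fun q _ _ => by positivity) (hz2 p1)
  have hzR : (6400 : ℝ) * g ≤ z := by exact_mod_cast hzg
  have hzpos : (0 : ℝ) < z := by linarith
  have h4 : 1 / (z : ℝ) ≤ 1 / (6400 * g) := one_div_le_one_div_of_le (by positivity) hzR
  calc 4 * ∑ q ∈ Qb R z p1 g κ, ∑ n ∈ (sN (z ^ R.q) (Wp z p1) c0).filter (fun n => q ^ 2 ∣ n + a),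
        rhoP (Ps R z p1) {a} n * PsG R z p1 h K n ^ 2 * La2 R z p1 g j (n + a) ^ 2
      ≤ 4 * ∑ q ∈ Qb R z p1 g κ, 2 * Yj R z p1 g j h K * (1 / (q : ℝ) ^ 2) :=
        mul_le_mul_of_nonneg_left (Finset.sum_le_sum h2) (by norm_num)
    _ = 8 * Yj R z p1 g j h K * ∑ q ∈ Qb R z p1 g κ, 1 / (q : ℝ) ^ 2 := by
        rw [← Finset.mul_sum]
        ring
    _ ≤ 8 * Yj R z p1 g j h K * (1 / (6400 * g)) :=
        mul_le_mul_of_nonneg_left (h3.trans h4) (by positivity)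
    _ = 1 / 400 * (Yj R z p1 g j h K * (1 / (2 * g))) := by
        field_simp
        norm_num
    _ ≤ 1 / 400 * xH R z p1 g j h K := by
        rw [hx]
        refine mul_le_mul_of_nonneg_left (mul_le_mul_of_nonneg_left hS1 hY.le) (by norm_num)

end Pool.Agent.LibFB63
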