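import Pool.Agent.LibFB63.K4

/-!
Row K6 (MEDIUM): the cost `Cb`. `D = (3 k1 log z)²`. `Cb v = (1/D) ∑_{p ∈ Pc, p ∣ v} ∑_{q, q' ∈ Qb, ≠ p, ∣ v} log q log q' La2²` (`Finset.sum_mul_sum`, `sq`). Exchange the sums over `n` and `(p, q, q')`; the inner sums over `n` by `meanE`:
`q ≠ q'`: `p ∣ v ∧ q ∣ v ∧ q' ∣ v ↔ p q q' ∣ v` (three distinct primes), `e = p * q * q'`, level `k1 - j0 + 2 κ + 2 j + 30 u ≤ k1 - j0 + 2 (k1 - 10 u) + k1/2 + 30 u ≤ 4 k1` (`κ + 10 u ≤ k1`, `j ≤ 2 jr`, `8 jr = k1`); prime factors of `e` are `> z^(2 j0)` (`2 j0 ≤ k1 - 2 j0`).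
`q = q'`: `e = p * q`. With `Y' = (1+δ) Y + E ≤ (1 + 2 δ) Y` (`Yj_er`, `kfacts`), `S = ∑_{Pc} 1/p`: total `≤ Y'/D ∑_p 1/p ((∑_{q ∈ Qb} log q/q)² + ∑_{q ∈ Qb} (log q)²/q)` (all terms `≥ 0`, drop `≠ p`, `≠`), `log q ≤ k1 log z`,
`∑_{q ∈ Qb} log q/q ≤ (1 + 1/1000) k1 log z` (`nf_log`, `k = k1`, `Qb ⊆ PL z k1 p1`): total `≤ Y' S (1.001² + 1.001)/9 ≤ (2/9 + 1/200) Y S = (2/9 + 1/200) xH` (`δ ≤ 1/4000`). `C0` = the maximum of that of `kfacts` and `100` (`expoK`).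
-/

open Finset Filter

namespace Pool.Agent.LibFB63

open Pool.Agent.LibRG87 Pool.Agent.LibLG5 Pool.Agent.LibPL63 Pool.Agent.LibSC93 Pool.Agent.LibGL22

/-- one product of three primes -/
private lemma inner_le (s : Finset ℕ) (w L : ℕ → ℝ) (a : ℕ) (Y : ℝ) (hY : 0 ≤ Y) {p q q' : ℕ} (hp : p.Prime)
    (hq : q.Prime) (hq' : q'.Prime)
    (h2 : q ≠ p → ∑ n ∈ s.filter (fun n => p * q ∣ n + a), w n * L (n + a) ≤ Y / ((p : ℝ) * q))
    (h3 : q ≠ p → q' ≠ p → q ≠ q' → ∑ n ∈ s.filter (fun n => p * q * q' ∣ n + a), w n * L (n + a) ≤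
      Y / ((p : ℝ) * q * q')) :
    ∑ n ∈ s.filter (fun n => p ∣ n + a ∧ (q ≠ p ∧ q ∣ n + a) ∧ (q' ≠ p ∧ q' ∣ n + a)), w n * L (n + a) ≤
      Y / ((p : ℝ) * q * q') + (if q = q' then Y / ((p : ℝ) * q) else 0) := by
  have hp0 : (0 : ℝ) < p := by exact_mod_cast hp.pos
  have hq0 : (0 : ℝ) < q := by exact_mod_cast hq.pos
  have hq0' : (0 : ℝ) < q' := by exact_mod_cast hq'.pos
  have ha : 0 ≤ Y / ((p : ℝ) * q * q') := by positivity
  have hb : 0 ≤ Y / ((p : ℝ) * q) := by positivity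
  have hc : 0 ≤ (if q = q' then Y / ((p : ℝ) * q) else 0) := by split_ifs <;> positivity
  by_cases h1 : q = p
  · have : s.filter (fun n => p ∣ n + a ∧ (q ≠ p ∧ q ∣ n + a) ∧ (q' ≠ p ∧ q' ∣ n + a)) = ∅ := by
      apply Finset.filter_eq_empty_iff.2
      intro n _ hn
      exact hn.2.1.1 h1
    rw [this, Finset.sum_empty]
    linarith
  by_cases h1' : q' = p
  · have : s.filter (fun n => p ∣ n + a ∧ (q ≠ p ∧ q ∣ n + a) ∧ (q' ≠ p ∧ q' ∣ n + a)) = ∅ := by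
      apply Finset.filter_eq_empty_iff.2
      intro n _ hn
      exact hn.2.2.1 h1'
    rw [this, Finset.sum_empty]
    linarith
  have hpq : Nat.Coprime p q := (Nat.coprime_primes hp hq).2 (fun h => h1 h.symm)
  have hpq' : Nat.Coprime p q' := (Nat.coprime_primes hp hq').2 (fun h => h1' h.symm)
  by_cases hqq : q = q'
  · subst hqq
    rw [if_pos rfl]
    have he : s.filter (fun n => p ∣ n + a ∧ (q ≠ p ∧ q ∣ n + a) ∧ (q ≠ p ∧ q ∣ n + a)) =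
        s.filter (fun n => p * q ∣ n + a) := by
      apply Finset.filter_congr
      intro n _
      constructor
      · rintro ⟨h4, ⟨_, h5⟩, _⟩
        exact hpq.mul_dvd_of_dvd_of_dvd h4 h5
      · intro h4
        have h5 := (dvd_mul_right p q).trans h4
        have h6 := (dvd_mul_left q p).trans h4
        exact ⟨h5, ⟨h1, h6⟩, ⟨h1, h6⟩⟩
    rw [he]
    have := h2 h1
    linarith
  · rw [if_neg hqq]
    have hqq' : Nat.Coprime q q' := (Nat.coprime_primes hq hq').2 hqq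
    have he : s.filter (fun n => p ∣ n + a ∧ (q ≠ p ∧ q ∣ n + a) ∧ (q' ≠ p ∧ q' ∣ n + a)) =
        s.filter (fun n => p * q * q' ∣ n + a) := by
      apply Finset.filter_congr
      intro n _
      constructor
      · rintro ⟨h4, ⟨_, h5⟩, ⟨_, h6⟩⟩
        exact (Nat.Coprime.mul_left hpq' hqq').mul_dvd_of_dvd_of_dvd (hpq.mul_dvd_of_dvd_of_dvd h4 h5) h6
      · intro h4
        have h7 : p * q ∣ n + a := (dvd_mul_right (p * q) q').trans h4
        have h5 := (dvd_mul_right p q).trans h7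
        have h6 := (dvd_mul_left q p).trans h7
        have h8 := (dvd_mul_left q' (p * q)).trans h4
        exact ⟨h5, ⟨h1, h6⟩, ⟨h1', h8⟩⟩
    rw [he]
    have := h3 h1 h1' hqq
    linarith

/-- the exchange of the sums -/
private lemma exchange (s P Q : Finset ℕ) (w L lg : ℕ → ℝ) (a : ℕ) (Y D : ℝ) (hD : 0 < D)
    (hlg : ∀ q ∈ Q, 0 ≤ lg q)
    (hin : ∀ p ∈ P, ∀ q ∈ Q, ∀ q' ∈ Q,
      ∑ n ∈ s.filter (fun n => p ∣ n + a ∧ (q ≠ p ∧ q ∣ n + a) ∧ (q' ≠ p ∧ q' ∣ n + a)), w n * L (n + a) ≤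
        Y / ((p : ℝ) * q * q') + (if q = q' then Y / ((p : ℝ) * q) else 0)) :
    ∑ n ∈ s, w n * (∑ p ∈ P.filter (fun p => p ∣ n + a),
        (∑ q ∈ Q.filter (fun q => q ≠ p ∧ q ∣ n + a), lg q) ^ 2 / D * L (n + a)) ≤
      Y / D * (∑ p ∈ P, 1 / (p : ℝ)) * ((∑ q ∈ Q, lg q / q) ^ 2 + ∑ q ∈ Q, lg q ^ 2 / q) := by
  have h1 : ∀ n ∈ s, w n * (∑ p ∈ P.filter (fun p => p ∣ n + a),
        (∑ q ∈ Q.filter (fun q => q ≠ p ∧ q ∣ n + a), lg q) ^ 2 / D * L (n + a)) =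
      ∑ p ∈ P, ∑ q ∈ Q, ∑ q' ∈ Q, (if p ∣ n + a ∧ (q ≠ p ∧ q ∣ n + a) ∧ (q' ≠ p ∧ q' ∣ n + a) then
        (lg q * lg q' / D) * (w n * L (n + a)) else 0) := by
    intro n _
    rw [Finset.mul_sum, Finset.sum_filter]
    refine Finset.sum_congr rfl fun p _ => ?_
    by_cases hp : p ∣ n + a
    · rw [if_pos hp, sq, Finset.sum_mul_sum, Finset.sum_filter, Finset.sum_div, Finset.sum_mul, Finset.mul_sum]
      refine Finset.sum_congr rfl fun q _ => ?_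
      by_cases hq : q ≠ p ∧ q ∣ n + a
      · rw [if_pos hq, Finset.sum_filter, Finset.sum_div, Finset.sum_mul, Finset.mul_sum]
        refine Finset.sum_congr rfl fun q' _ => ?_
        by_cases hq' : q' ≠ p ∧ q' ∣ n + a
        · rw [if_pos hq', if_pos ⟨hp, hq, hq'⟩]
          ring
        · rw [if_neg hq', if_neg (fun h => hq' h.2.2)]
          ring
      · rw [if_neg hq]
        have : ∀ q' ∈ Q, (if p ∣ n + a ∧ (q ≠ p ∧ q ∣ n + a) ∧ (q' ≠ p ∧ q' ∣ n + a) then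
            (lg q * lg q' / D) * (w n * L (n + a)) else 0) = 0 := fun q' _ => if_neg (fun h => hq h.2.1)
        rw [Finset.sum_congr rfl this]
        simp
    · rw [if_neg hp]
      have : ∀ q ∈ Q, (∑ q' ∈ Q, (if p ∣ n + a ∧ (q ≠ p ∧ q ∣ n + a) ∧ (q' ≠ p ∧ q' ∣ n + a) then
          (lg q * lg q' / D) * (w n * L (n + a)) else 0)) = 0 := by
        intro q _
        apply Finset.sum_eq_zero
        intro q' _
        exact if_neg (fun h => hp h.1)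
      rw [Finset.sum_congr rfl this]
      simp
  rw [Finset.sum_congr rfl h1, Finset.sum_comm]
  have h2 : ∀ p ∈ P, ∑ n ∈ s, ∑ q ∈ Q, ∑ q' ∈ Q,
      (if p ∣ n + a ∧ (q ≠ p ∧ q ∣ n + a) ∧ (q' ≠ p ∧ q' ∣ n + a) then
        (lg q * lg q' / D) * (w n * L (n + a)) else 0) ≤
      ∑ q ∈ Q, ∑ q' ∈ Q, lg q * lg q' / D * (Y / ((p : ℝ) * q * q') + (if q = q' then Y / ((p : ℝ) * q) else 0)) := by
    intro p hp
    rw [Finset.sum_comm]
    apply Finset.sum_le_sum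
    intro q hq
    rw [Finset.sum_comm]
    apply Finset.sum_le_sum
    intro q' hq'
    rw [← Finset.sum_filter, ← Finset.mul_sum]
    apply mul_le_mul_of_nonneg_left (hin p hp q hq q' hq')
    have := mul_nonneg (hlg q hq) (hlg q' hq')
    positivity
  refine (Finset.sum_le_sum h2).trans (le_of_eq ?_)
  have h3 : ∀ p ∈ P, ∑ q ∈ Q, ∑ q' ∈ Q, lg q * lg q' / D *
      (Y / ((p : ℝ) * q * q') + (if q = q' then Y / ((p : ℝ) * q) else 0)) =
      Y / D * (1 / (p : ℝ)) * ((∑ q ∈ Q, lg q / q) ^ 2 + ∑ q ∈ Q, lg q ^ 2 / q) := by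
    intro p _
    rw [sq, Finset.sum_mul_sum, ← Finset.sum_add_distrib, Finset.mul_sum]
    refine Finset.sum_congr rfl fun q hq => ?_
    have h4 : ∑ q' ∈ Q, lg q * lg q' / D *
        (Y / ((p : ℝ) * q * q') + (if q = q' then Y / ((p : ℝ) * q) else 0)) =
        ∑ q' ∈ Q, (lg q * lg q' / D * (Y / ((p : ℝ) * q * q'))) +
          ∑ q' ∈ Q, (if q = q' then lg q * lg q' / D * (Y / ((p : ℝ) * q)) else 0) := by
      rw [← Finset.sum_add_distrib]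
      refine Finset.sum_congr rfl fun q' _ => ?_
      split_ifs <;> ring
    rw [h4, Finset.sum_ite_eq, if_pos hq, mul_add, Finset.mul_sum]
    congr 1
    · refine Finset.sum_congr rfl fun q' _ => ?_
      rw [div_mul_div_comm, div_mul_div_comm, div_mul_div_comm, div_mul_div_comm]
      congr 1 <;> ring
    · rw [div_mul_div_comm, div_mul_div_comm, div_mul_div_comm]
      congr 1 <;> ring
  rw [Finset.sum_congr rfl h3, ← Finset.sum_mul, ← Finset.mul_sum]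

theorem costB : ∃ C0 : ℕ, ∀ (R : Prm) (C Cq Cm : ℕ) (c cD Λ δ : ℝ) (Cx g g2 g3 : ℕ) (ε : ℝ), C0 ≤ Cx →
    ParV R C Cq Cm c cD Λ δ Cx g g2 g3 ε → ∀ᶠ z : ℕ in atTop, ∀ p1 : ℕ, p1.Prime → z ^ (R.q + 2) < p1 →
    ∀ κ j : ℕ, LevP R g g2 g3 δ z p1 κ j → ∀ (c0 : ℕ) (h K : Finset ℕ), PosS z p1 c0 R.k (Λ * R.q) h K →
      U1 R Cq Λ δ z p1 c0 h K → ∀ a ∈ h,
        ∑ n ∈ sN (z ^ R.q) (Wp z p1) c0, rhoP (Ps R z p1) {a} n * PsG R z p1 h K n ^ 2 * Cb R z p1 g κ j (n + a) ≤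
          (2 / 9 + 1 / 200) * xH R z p1 g j h K := by
  obtain ⟨C1, hC1⟩ := kfacts
  refine ⟨max C1 100, ?_⟩
  intro R C Cq Cm c cD Λ δ Cx g g2 g3 ε hCx hpar
  have hE : Expo R g g2 g3 := expoK hpar ((le_max_right _ _).trans hCx)
  have hk1pos : 1 ≤ R.k1 := by
    have h1 := hE.hj0u
    have h2 := hE.hj0k
    have h3 := hE.hu
    omega
  filter_upwards [hC1 R C Cq Cm c cD Λ δ Cx g g2 g3 ε ((le_max_left _ _).trans hCx) hpar,
    nf_log R.k1 hk1pos (η := 1 / 1000) (by norm_num), eventually_ge_atTop 3] with z hz1 hz2 hz3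
  intro p1 hp1 hzp1 κ j hlev c0 h K hpos hU a ha
  obtain ⟨hYpos, hxH, _, hS1, hEr0, hEr, hδ0, hδ⟩ := hz1 p1 hp1 hzp1 κ j hlev c0 h K hpos
  have hlog := hz2 p1
  have hzR : (1 : ℝ) < z := by exact_mod_cast (by omega : 1 < z)
  have hlz : 0 < Real.log z := Real.log_pos hzR
  have hk1R : (1 : ℝ) ≤ R.k1 := by exact_mod_cast hk1pos
  have hkl : 0 < (R.k1 : ℝ) * Real.log z := by positivity
  set Y' : ℝ := (1 + δ) * Yj R z p1 g j h K + NW R z p1 * er R z p1 Cq Λ h with hY'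
  have hqR : (1 : ℝ) ≤ R.q := by
    rw [hE.hq]; push_cast; linarith
  have hY'le : Y' ≤ (1 + 2 * δ) * Yj R z p1 g j h K := Yj_er hYpos hxH hS1 hqR hEr0 hEr hδ0
  have hY'0 : 0 ≤ Y' := by positivity
  -- facts on the primes
  have hPc : ∀ p ∈ Pc R z p1 g, p.Prime ∧ z ^ (2 * j0 R g) < p ∧ p ≤ z ^ (R.k1 - j0 R g) := by
    intro p hp
    unfold Pc at hp
    rw [Finset.mem_sdiff, mem_PL, mem_PL] at hp
    obtain ⟨⟨h1, h2, h3, h4⟩, h5⟩ := hp
    have h6 : z ^ (R.k1 - 2 * j0 R g) < p := by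
      by_contra hlt
      exact h5 ⟨h1, h2, h3, by omega⟩
    have h7 : z ^ (2 * j0 R g) ≤ z ^ (R.k1 - 2 * j0 R g) := by
      apply Nat.pow_le_pow_right (by omega)
      have := hE.hj0k
      omega
    exact ⟨h2, lt_of_le_of_lt h7 h6, h4⟩
  have hQb : ∀ q ∈ Qb R z p1 g κ, q.Prime ∧ z ^ (2 * j0 R g) < q ∧ q ≤ z ^ κ ∧ q ∈ PL z R.k1 p1 := by
    intro q hq
    unfold Qb at hq
    rw [Finset.mem_sdiff, mem_PL, mem_PL] at hq
    obtain ⟨⟨h1, h2, h3, h4⟩, h5⟩ := hq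
    refine ⟨h2, ?_, h4, ?_⟩
    · by_contra hlt
      exact h5 ⟨h1, h2, h3, by omega⟩
    · rw [mem_PL]
      refine ⟨h1, h2, h3, h4.trans (Nat.pow_le_pow_right (by omega) ?_)⟩
      have := hlev.hκ
      omega
  have hlogq : ∀ q ∈ Qb R z p1 g κ, 0 ≤ Real.log q ∧ Real.log q ≤ R.k1 * Real.log z := by
    intro q hq
    obtain ⟨h1, h2, h3, h4⟩ := hQb q hq
    have h5 : (1 : ℝ) ≤ q := by exact_mod_cast h1.one_lt.le
    refine ⟨Real.log_nonneg h5, ?_⟩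
    rw [mem_PL] at h4
    have h6 : (q : ℝ) ≤ (z : ℝ) ^ R.k1 := by exact_mod_cast h4.2.2.2
    calc Real.log q ≤ Real.log ((z : ℝ) ^ R.k1) := Real.log_le_log (by linarith) h6
      _ = R.k1 * Real.log z := by rw [Real.log_pow]
  -- levels
  have hlv3 : ∀ p ∈ Pc R z p1 g, ∀ q ∈ Qb R z p1 g κ, ∀ q' ∈ Qb R z p1 g κ,
      p * q * q' * z ^ (2 * j + 30 * R.u) ≤ z ^ R.q := by
    intro p hp q hq q' hq'
    have h1 := (hPc p hp).2.2
    have h2 := (hQb q hq).2.2.1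
    have h3 := (hQb q' hq').2.2.1
    calc p * q * q' * z ^ (2 * j + 30 * R.u)
        ≤ z ^ (R.k1 - j0 R g) * z ^ κ * z ^ κ * z ^ (2 * j + 30 * R.u) := by gcongr
      _ = z ^ (R.k1 - j0 R g + κ + κ + (2 * j + 30 * R.u)) := by rw [← pow_add, ← pow_add, ← pow_add]
      _ ≤ z ^ R.q := by
        apply Nat.pow_le_pow_right (by omega)
        have e1 := hE.hq
        have e2 := hlev.hκ
        have e3 := hlev.hj'
        have e4 := hE.hjr
        have e5 := hE.hj0u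
        have e6 := hE.hj0k
        have e7 := hE.hu
        omega
  have hlv2 : ∀ p ∈ Pc R z p1 g, ∀ q ∈ Qb R z p1 g κ, p * q * z ^ (2 * j + 30 * R.u) ≤ z ^ R.q := by
    intro p hp q hq
    have h1 := hlv3 p hp q hq q hq
    have h2 : 1 ≤ q := (hQb q hq).1.one_lt.le
    refine le_trans ?_ h1
    apply Nat.mul_le_mul_right
    exact Nat.le_mul_of_pos_right _ h2
  -- the means
  have hin : ∀ p ∈ Pc R z p1 g, ∀ q ∈ Qb R z p1 g κ, ∀ q' ∈ Qb R z p1 g κ,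
      ∑ n ∈ (sN (z ^ R.q) (Wp z p1) c0).filter
        (fun n => p ∣ n + a ∧ (q ≠ p ∧ q ∣ n + a) ∧ (q' ≠ p ∧ q' ∣ n + a)),
          (fun n => rhoP (Ps R z p1) {a} n * PsG R z p1 h K n ^ 2) n * (fun v => La2 R z p1 g j v ^ 2) (n + a) ≤
        Y' / ((p : ℝ) * q * q') + (if q = q' then Y' / ((p : ℝ) * q) else 0) := by
    intro p hp q hq q' hq'
    obtain ⟨hp1', hp2, hp3⟩ := hPc p hp
    obtain ⟨hq1, hq2, hq3, _⟩ := hQb q hq
    obtain ⟨hq1', hq2', hq3', _⟩ := hQb q' hq'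
    refine inner_le (sN (z ^ R.q) (Wp z p1) c0) (fun n => rhoP (Ps R z p1) {a} n * PsG R z p1 h K n ^ 2)
      (fun v => La2 R z p1 g j v ^ 2) a Y' hY'0 hp1' hq1 hq1' ?_ ?_
    · intro _
      have := meanE hE hz3 hU ha (e := p * q) (j := j) (Nat.mul_pos hp1'.pos hq1.pos) (by
        intro r hr hrd
        rcases (Nat.Prime.dvd_mul hr).1 hrd with hd | hd
        · rw [(Nat.prime_dvd_prime_iff_eq hr hp1').1 hd]; exact hp2
        · rw [(Nat.prime_dvd_prime_iff_eq hr hq1).1 hd]; exact hq2) (hlv2 p hp q hq)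
      rw [← hY'] at this
      push_cast at this
      exact this
    · intro _ _ _
      have := meanE hE hz3 hU ha (e := p * q * q') (j := j)
        (Nat.mul_pos (Nat.mul_pos hp1'.pos hq1.pos) hq1'.pos) (by
        intro r hr hrd
        rcases (Nat.Prime.dvd_mul hr).1 hrd with hd | hd
        · rcases (Nat.Prime.dvd_mul hr).1 hd with hd | hd
          · rw [(Nat.prime_dvd_prime_iff_eq hr hp1').1 hd]; exact hp2
          · rw [(Nat.prime_dvd_prime_iff_eq hr hq1).1 hd]; exact hq2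
        · rw [(Nat.prime_dvd_prime_iff_eq hr hq1').1 hd]; exact hq2') (hlv3 p hp q hq q' hq')
      rw [← hY'] at this
      push_cast at this
      exact this
  have hD : 0 < (3 * (R.k1 : ℝ) * Real.log z) ^ 2 := by positivity
  have hmain := exchange (sN (z ^ R.q) (Wp z p1) c0) (Pc R z p1 g) (Qb R z p1 g κ)
    (fun n => rhoP (Ps R z p1) {a} n * PsG R z p1 h K n ^ 2) (fun v => La2 R z p1 g j v ^ 2)
    (fun q => Real.log q) a Y' _ hD (fun q hq => (hlogq q hq).1) hin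
  have hlhs : ∑ n ∈ sN (z ^ R.q) (Wp z p1) c0,
      rhoP (Ps R z p1) {a} n * PsG R z p1 h K n ^ 2 * Cb R z p1 g κ j (n + a) ≤
      Y' / (3 * (R.k1 : ℝ) * Real.log z) ^ 2 * (∑ p ∈ Pc R z p1 g, 1 / (p : ℝ)) *
        ((∑ q ∈ Qb R z p1 g κ, Real.log q / q) ^ 2 + ∑ q ∈ Qb R z p1 g κ, Real.log q ^ 2 / q) := by
    exact hmain
  refine hlhs.trans ?_
  -- the sums over the primes
  have hsub : Qb R z p1 g κ ⊆ PL z R.k1 p1 := fun q hq => (hQb q hq).2.2.2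
  have hB0 : 0 ≤ ∑ q ∈ Qb R z p1 g κ, Real.log q / q :=
    Finset.sum_nonneg fun q hq => div_nonneg (hlogq q hq).1 (Nat.cast_nonneg q)
  have hB : ∑ q ∈ Qb R z p1 g κ, Real.log q / q ≤ (1 + 1 / 1000) * (R.k1 * Real.log z) := by
    refine le_trans ?_ hlog
    apply Finset.sum_le_sum_of_subset_of_nonneg hsub
    intro q hq _
    rw [mem_PL] at hq
    have h5 : (1 : ℝ) ≤ q := by exact_mod_cast hq.2.1.one_lt.le
    exact div_nonneg (Real.log_nonneg h5) (by linarith)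
  have hB2 : ∑ q ∈ Qb R z p1 g κ, Real.log q ^ 2 / q ≤
      (R.k1 * Real.log z) * ((1 + 1 / 1000) * (R.k1 * Real.log z)) := by
    calc ∑ q ∈ Qb R z p1 g κ, Real.log q ^ 2 / q
        ≤ ∑ q ∈ Qb R z p1 g κ, (R.k1 * Real.log z) * (Real.log q / q) := by
          apply Finset.sum_le_sum
          intro q hq
          obtain ⟨h1, h2⟩ := hlogq q hq
          have h3 : (0 : ℝ) ≤ q := Nat.cast_nonneg q
          rw [sq, mul_div_assoc]
          exact mul_le_mul_of_nonneg_right h2 (div_nonneg h1 h3)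
      _ = (R.k1 * Real.log z) * ∑ q ∈ Qb R z p1 g κ, (Real.log q / q) := by rw [Finset.mul_sum]
      _ ≤ _ := mul_le_mul_of_nonneg_left hB hkl.le
  have hBr : (∑ q ∈ Qb R z p1 g κ, Real.log q / q) ^ 2 + ∑ q ∈ Qb R z p1 g κ, Real.log q ^ 2 / q ≤
      ((1 + 1 / 1000) ^ 2 + (1 + 1 / 1000)) * (R.k1 * Real.log z) ^ 2 := by
    have h1 : (∑ q ∈ Qb R z p1 g κ, Real.log q / q) ^ 2 ≤ ((1 + 1 / 1000) * (R.k1 * Real.log z)) ^ 2 :=
      pow_le_pow_left₀ hB0 hB 2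
    nlinarith [h1, hB2]
  have hS0 : 0 ≤ ∑ p ∈ Pc R z p1 g, 1 / (p : ℝ) := Finset.sum_nonneg fun p _ => by positivity
  set S : ℝ := ∑ p ∈ Pc R z p1 g, 1 / (p : ℝ) with hS
  set X : ℝ := (R.k1 : ℝ) * Real.log z with hX
  set y : ℝ := Yj R z p1 g j h K with hy
  have hDX : (3 * (R.k1 : ℝ) * Real.log z) ^ 2 = 9 * X ^ 2 := by rw [hX]; ring
  rw [hDX, hxH]
  calc Y' / (9 * X ^ 2) * S *
        ((∑ q ∈ Qb R z p1 g κ, Real.log q / q) ^ 2 + ∑ q ∈ Qb R z p1 g κ, Real.log q ^ 2 / q)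
      ≤ Y' / (9 * X ^ 2) * S * (((1 + 1 / 1000) ^ 2 + (1 + 1 / 1000)) * X ^ 2) := by
        apply mul_le_mul_of_nonneg_left hBr
        positivity
    _ = (Y' * S) * (((1 + 1 / 1000) ^ 2 + (1 + 1 / 1000)) / 9) := by
        field_simp
    _ ≤ ((1 + 2 * δ) * y * S) * (((1 + 1 / 1000) ^ 2 + (1 + 1 / 1000)) / 9) := by
        gcongr
    _ ≤ ((1 + 2 * (1 / 4000)) * y * S) * (((1 + 1 / 1000) ^ 2 + (1 + 1 / 1000)) / 9) := by
        gcongr
    _ ≤ (2 / 9 + 1 / 200) * (y * S) := by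
        have h0 : 0 ≤ y * S := mul_nonneg hYpos.le hS0
        nlinarith [h0]

end Pool.Agent.LibFB63
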