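import Pool.Agent.LibFB63.N19

/-!
Row N20 (MEDIUM): the bad primes (N3 + N4 of the page). `B = ∅` trivial; `p`, `p'` the smallest and the largest element of `B`; `t2 = z^κ/p`, `t1 = z^κ/p'`. `z^(k1-2j0) < p ≤ p' ≤ z^(k1-j0)`: `t2 ≤ z^(2 j0)` (`κ ≤ k1`), `t1 ≥ z^(κ+j0-k1)`, `2 (κ + j0 - k1) ≥ j0` (`20 u + 2 dl ≤ j0`, `exps'`), so `log_ratio` (`t = z^κ`):
`log (p'/p) = log (t2/t1) ≤ C4 √ε k1 log z`. `∑_{B} 1/p ≤ 1/p + ∑_{PP p p'} 1/q`, `rec_abs` (`x = p`, `y = p'`): `≤ 1/p + log (log p'/log p) + K0/log p`, `log (log p'/log p) ≤ log (p'/p)/log p ≤ C4 √ε k1/(k1-2j0) ≤ 2 C4 √ε`; the rest tends to 0 (`p > z^(k1-2j0)`), so it is `≤ √ε` for large `z`. `C0 ≥ max 20 (2 C4 + 1)`.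
-/

open Finset Filter

namespace Pool.Agent.LibFB63

open Pool.Agent.LibRG87 Pool.Agent.LibLG5 Pool.Agent.LibPL63 Pool.Agent.LibSC93 Pool.Agent.LibGL22

theorem bad_sum : ∃ C0 : ℕ, 1 ≤ C0 ∧ ∀ (R : Prm) (C Cq Cm : ℕ) (c cD Λ δ : ℝ) (Cx g g2 g3 : ℕ) (ε : ℝ), C0 ≤ Cx →
    ParV R C Cq Cm c cD Λ δ Cx g g2 g3 ε → ∀ᶠ z : ℕ in atTop, ∀ p1 : ℕ, p1.Prime → z ^ (R.q + 2) < p1 →
    ∀ κ : ℕ, κ + 10 * R.u ≤ R.k1 → R.k1 ≤ κ + 10 * R.u + dl R g2 → ∀ B ⊆ Pc R z p1 g,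
      (∀ p ∈ B, ∀ p' ∈ B, p ≤ p' → GR (Pb R z p1) ((z : ℝ) ^ κ / p) - GR (Pb R z p1) ((z : ℝ) ^ κ / p') ≤
        6 * √ε * GR (Pb R z p1) ((z : ℝ) ^ κ)) →
      ∑ p ∈ B, 1 / (p : ℝ) ≤ C0 * √ε := by
  obtain ⟨C4, hC4, hlr⟩ := log_ratio
  obtain ⟨K0, hK0, hra⟩ := rec_abs
  refine ⟨20 + (2 * C4 + 1), by omega, ?_⟩
  intro R C Cq Cm c cD Λ δ Cx g g2 g3 ε hCx hv
  have h20 : 20 ≤ Cx := by omega
  have hε := hv.hε
  have hse : 0 < √ε := Real.sqrt_pos.2 hε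
  have hlim : Tendsto (fun z : ℕ => 1 / (z : ℝ) + K0 / Real.log z) atTop (nhds (0 + 0)) :=
    (tendsto_one_div_atTop_nhds_zero_nat).add
      (tendsto_const_nhds.div_atTop (Real.tendsto_log_atTop.comp tendsto_natCast_atTop_atTop))
  have hev : ∀ᶠ z : ℕ in atTop, 1 / (z : ℝ) + K0 / Real.log z ≤ √ε := by
    rw [add_zero] at hlim
    exact hlim.eventually_le_const hse
  filter_upwards [hlr R C Cq Cm c cD Λ δ Cx g g2 g3 ε h20 hv, hev, eventually_ge_atTop 3]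
    with z h1 h2 hz p1 hp1 hzp κ hκ1 hκ2 B hB hGR
  rcases Finset.eq_empty_or_nonempty B with hBe | hne
  · rw [hBe, Finset.sum_empty]
    positivity
  obtain ⟨hu, _, _, _, hgj, _, _, _, _, hg1, _, _⟩ := exps hv
  obtain ⟨_, e2, e3, e4, _⟩ := exps' hv
  have e5 : 20 * j0 R g ≤ R.k1 := le_trans (Nat.mul_le_mul_right _ h20) e3
  have hPc := (sets hv h20 (by omega : 2 ≤ z) hzp).2.2.2.2.2
  rw [hPc] at hB
  generalize hn0 : R.k1 - 2 * j0 R g = n0 at hB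
  generalize hn1 : R.k1 - j0 R g = n1 at hB
  have hBm : ∀ p ∈ B, z ^ n0 < p ∧ p ≤ z ^ n1 ∧ p.Prime := by
    intro p hp
    have h3 := Finset.mem_filter.1 (hB hp)
    exact ⟨(Finset.mem_Ioc.1 h3.1).1, (Finset.mem_Ioc.1 h3.1).2, h3.2⟩
  have hp := B.min'_mem hne
  have hp' := B.max'_mem hne
  have hpp' : B.min' hne ≤ B.max' hne := B.min'_le _ hp'
  have hmin : ∀ q ∈ B, B.min' hne ≤ q := fun q hq => B.min'_le q hq
  have hmax : ∀ q ∈ B, q ≤ B.max' hne := fun q hq => B.le_max' q hq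
  generalize B.min' hne = p at hp hpp' hmin
  generalize B.max' hne = p' at hp' hpp' hmax
  obtain ⟨m1, m2, m3⟩ := hBm p hp
  obtain ⟨m1', m2', m3'⟩ := hBm p' hp'
  have hz1 : (1 : ℝ) ≤ (z : ℝ) := by exact_mod_cast (by omega : 1 ≤ z)
  have hz0 : (0 : ℝ) < (z : ℝ) := by linarith
  have hlz : 0 < Real.log (z : ℝ) := Real.log_pos (by exact_mod_cast (by omega : 1 < z))
  have hp0 : (0 : ℝ) < (p : ℝ) := by exact_mod_cast m3.pos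
  have hp0' : (0 : ℝ) < (p' : ℝ) := by exact_mod_cast m3'.pos
  have hppR : (p : ℝ) ≤ (p' : ℝ) := by exact_mod_cast hpp'
  have hzκ : (0 : ℝ) < (z : ℝ) ^ κ := pow_pos hz0 κ
  have m1R : (z : ℝ) ^ n0 < (p : ℝ) := by exact_mod_cast m1
  have m2R' : (p' : ℝ) ≤ (z : ℝ) ^ n1 := by exact_mod_cast m2'
  have t1 : (z : ℝ) ^ j0 R g ≤ ((z : ℝ) ^ κ / p') ^ 2 := by
    rw [div_pow, le_div_iff₀ (pow_pos hp0' 2)]
    calc (z : ℝ) ^ j0 R g * (p' : ℝ) ^ 2 ≤ (z : ℝ) ^ j0 R g * ((z : ℝ) ^ n1) ^ 2 := by gcongr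
      _ = (z : ℝ) ^ (j0 R g + n1 * 2) := by rw [← pow_mul, ← pow_add]
      _ ≤ (z : ℝ) ^ (κ * 2) := pow_le_pow_right₀ hz1 (by omega)
      _ = ((z : ℝ) ^ κ) ^ 2 := by rw [pow_mul]
  have t2 : (z : ℝ) ^ κ / p' ≤ (z : ℝ) ^ κ / p :=
    div_le_div_of_nonneg_left hzκ.le hp0 hppR
  have t3 : (z : ℝ) ^ κ / p ≤ (z : ℝ) ^ (2 * j0 R g) := by
    rw [div_le_iff₀ hp0]
    calc (z : ℝ) ^ κ ≤ (z : ℝ) ^ (2 * j0 R g + n0) := pow_le_pow_right₀ hz1 (by omega)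
      _ = (z : ℝ) ^ (2 * j0 R g) * (z : ℝ) ^ n0 := by rw [pow_add]
      _ ≤ (z : ℝ) ^ (2 * j0 R g) * p := by gcongr
  have key := h1 p1 hp1 hzp ((z : ℝ) ^ κ / p') ((z : ℝ) ^ κ / p) ((z : ℝ) ^ κ)
    (div_pos hzκ hp0') t1 t2 t3 (one_le_pow₀ hz1) (hGR p hp p' hp' hpp')
  have hq : (z : ℝ) ^ κ / p / ((z : ℝ) ^ κ / p') = (p' : ℝ) / p := by
    field_simp
  rw [hq, Real.log_div hp0'.ne' hp0.ne'] at key
  -- sizes of `log p`
  have hn0k : R.k1 ≤ 2 * n0 := by omega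
  have hk1 : 1 ≤ n0 := by omega
  have hn0kR : (R.k1 : ℝ) ≤ 2 * (n0 : ℝ) := by exact_mod_cast hn0k
  have hk1R : (1 : ℝ) ≤ (n0 : ℝ) := by exact_mod_cast hk1
  have hlp : (n0 : ℝ) * Real.log z ≤ Real.log p := by
    rw [← Real.log_pow]
    exact Real.log_le_log (pow_pos hz0 n0) m1R.le
  have hlp1 : Real.log z ≤ Real.log p := by nlinarith
  have hlp0 : 0 < Real.log (p : ℝ) := lt_of_lt_of_le hlz hlp1
  have hzp0 : (z : ℝ) ≤ (p : ℝ) := by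
    calc (z : ℝ) = (z : ℝ) ^ 1 := (pow_one _).symm
      _ ≤ (z : ℝ) ^ n0 := pow_le_pow_right₀ hz1 hk1
      _ ≤ p := m1R.le
  have hlp' : Real.log p ≤ Real.log p' := Real.log_le_log hp0 hppR
  have hp2 : (2 : ℝ) ≤ (p : ℝ) := by exact_mod_cast m3.two_le
  have hr := (abs_le.1 (hra p p' hp2 hppR)).2
  rw [Nat.floor_natCast, Nat.floor_natCast] at hr
  have hl2 : Real.log (Real.log p' / Real.log p) ≤ 2 * C4 * √ε := by
    have h5 : 0 < Real.log (p' : ℝ) / Real.log p := div_pos (lt_of_lt_of_le hlp0 hlp') hlp0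
    refine (Real.log_le_sub_one_of_pos h5).trans ?_
    have h6 : Real.log (p' : ℝ) / Real.log p - 1 = (Real.log p' - Real.log p) / Real.log p := by
      field_simp
    rw [h6, div_le_iff₀ hlp0]
    have h7 : 0 ≤ 2 * (C4 : ℝ) * √ε := by positivity
    calc Real.log (p' : ℝ) - Real.log p ≤ C4 * √ε * (R.k1 * Real.log z) := key
      _ ≤ C4 * √ε * (2 * (n0 : ℝ) * Real.log z) := by gcongr
      _ = 2 * C4 * √ε * ((n0 : ℝ) * Real.log z) := by ring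
      _ ≤ 2 * C4 * √ε * Real.log p := mul_le_mul_of_nonneg_left hlp h7
  have hrest : 1 / (p : ℝ) + K0 / Real.log p ≤ √ε := by
    refine le_trans (add_le_add ?_ ?_) h2
    · exact one_div_le_one_div_of_le hz0 hzp0
    · exact div_le_div_of_nonneg_left hK0.le hlz hlp1
  have hsub : B ⊆ insert p (PP p p') := by
    intro q hq
    by_cases h : q = p
    · rw [h]
      exact Finset.mem_insert_self _ _
    · refine Finset.mem_insert_of_mem (Finset.mem_filter.2 ⟨Finset.mem_Ioc.2 ⟨?_, hmax q hq⟩, (hBm q hq).2.2⟩)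
      exact lt_of_le_of_ne (hmin q hq) (Ne.symm h)
  have hpn : p ∉ PP p p' := by
    intro h
    exact absurd (Finset.mem_Ioc.1 (Finset.mem_filter.1 h).1).1 (lt_irrefl p)
  have hs : ∑ q ∈ B, 1 / (q : ℝ) ≤ 1 / (p : ℝ) + ∑ q ∈ PP p p', 1 / (q : ℝ) := by
    have h8 : ∑ q ∈ B, 1 / (q : ℝ) ≤ ∑ q ∈ insert p (PP p p'), 1 / (q : ℝ) :=
      Finset.sum_le_sum_of_subset_of_nonneg hsub
        (fun q _ _ => div_nonneg zero_le_one (Nat.cast_nonneg q))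
    rw [Finset.sum_insert hpn] at h8
    exact h8
  have hfin : ∑ q ∈ B, 1 / (q : ℝ) ≤ (2 * C4 + 1) * √ε := by
    linarith
  refine hfin.trans ?_
  have h9 : (2 * (C4 : ℝ) + 1) ≤ ((20 + (2 * C4 + 1) : ℕ) : ℝ) := by
    push_cast
    linarith
  exact mul_le_mul_of_nonneg_right h9 hse.le

end Pool.Agent.LibFB63
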