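import Pool.Agent.LibFB63.N03
import Pool.Agent.LibFB63.N10

/-!
Row N21 (MEDIUM): numbers without small prime factors. `rough_le`: Euler product, Mathlib `EulerProduct.summable_and_hasSum_factoredNumbers_prod_filter_prime_geometric` with `f n = 1/n` (a `ℕ →*₀ ℝ`) and `s = PP x N`: `∑_{m ∈ factoredNumbers s} 1/m = ∏_{p ∈ s} (1 - 1/p)⁻¹`, every `m ∈ M'` is in `factoredNumbers s` (its prime factors are `> x`
and `≤ m ≤ N`), `1 + 1/(p-1) = (1 - 1/p)⁻¹` (`nt_one_add`). `rough_sum`: `N = z^(q+1)`, `prod_bounds` with `l = 2 j0`, `k = q + 1 ≤ 5 k1`: `≤ C1 (5 k1)/(2 j0) ≤ 3 C1 g`.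
-/

open Finset Filter

namespace Pool.Agent.LibFB63

open Pool.Agent.LibRG87 Pool.Agent.LibLG5 Pool.Agent.LibPL63 Pool.Agent.LibSC93 Pool.Agent.LibGL22

theorem rough_le (x N : ℕ) (M' : Finset ℕ) (h : ∀ m ∈ M', 1 ≤ m ∧ m ≤ N ∧ ∀ p : ℕ, p.Prime → p ∣ m → x < p) :
    ∑ m ∈ M', 1 / (m : ℝ) ≤ ∏ p ∈ PP x N, (1 + 1 / ((p : ℝ) - 1)) := by
  classical
  let f : ℕ →* ℝ :=
    { toFun := fun n => 1 / (n : ℝ)
      map_one' := by simp
      map_mul' := fun a b => by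
        rw [Nat.cast_mul]
        ring }
  have hf : ∀ n, f n = 1 / (n : ℝ) := fun n => rfl
  have h1 : ∀ {p : ℕ}, p.Prime → ‖f p‖ < 1 := by
    intro p hp
    have hp1 : (1 : ℝ) < p := by exact_mod_cast hp.one_lt
    rw [hf, Real.norm_of_nonneg (by positivity), div_lt_one (by linarith)]
    exact hp1
  have h2 := (EulerProduct.summable_and_hasSum_factoredNumbers_prod_filter_prime_geometric h1
    (PP x N)).2
  have hmem : ∀ m ∈ M', m ∈ Nat.factoredNumbers (PP x N) := by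
    intro m hm
    obtain ⟨h3, h4, h5⟩ := h m hm
    rw [Nat.mem_factoredNumbers]
    refine ⟨by omega, fun p hp => ?_⟩
    have hpp := Nat.prime_of_mem_primeFactorsList hp
    have hpd := Nat.dvd_of_mem_primeFactorsList hp
    unfold PP
    rw [Finset.mem_filter, Finset.mem_Ioc]
    exact ⟨⟨h5 p hpp hpd, (Nat.le_of_dvd (by omega) hpd).trans h4⟩, hpp⟩
  have h3 : ∑ m ∈ M'.subtype (fun m => m ∈ Nat.factoredNumbers (PP x N)), f m ≤
      ∏ p ∈ PP x N with p.Prime, (1 - f p)⁻¹ := by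
    refine sum_le_hasSum _ (fun m _ => ?_) h2
    rw [hf]
    positivity
  rw [Finset.sum_subtype_of_mem (fun m => f m) hmem] at h3
  refine h3.trans (le_of_eq ?_)
  have h4 : (PP x N).filter (fun p => p.Prime) = PP x N := by
    apply Finset.filter_true_of_mem
    intro p hp
    unfold PP at hp
    exact (Finset.mem_filter.1 hp).2
  rw [h4]
  refine Finset.prod_congr rfl fun p hp => ?_
  have hpp : p.Prime := by
    unfold PP at hp
    exact (Finset.mem_filter.1 hp).2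
  rw [nt_one_add hpp, hf]

theorem rough_sum : ∃ C0 : ℕ, 1 ≤ C0 ∧ ∀ (R : Prm) (C Cq Cm : ℕ) (c cD Λ δ : ℝ) (Cx g g2 g3 : ℕ) (ε : ℝ), C0 ≤ Cx →
    ParV R C Cq Cm c cD Λ δ Cx g g2 g3 ε → ∀ᶠ z : ℕ in atTop, ∀ p1 : ℕ, p1.Prime → z ^ (R.q + 2) < p1 →
    ∀ M' : Finset ℕ, (∀ m ∈ M', 1 ≤ m ∧ m ≤ z ^ (R.q + 1) ∧ ∀ p : ℕ, p.Prime → p ∣ m → z ^ (2 * j0 R g) < p) →
      ∑ m ∈ M', 1 / (m : ℝ) ≤ C0 * g := by
  obtain ⟨C1, hC1, hC⟩ := prod_bounds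
  refine ⟨3 * C1, by omega, ?_⟩
  intro R C Cq Cm c cD Λ δ Cx g g2 g3 ε hCx hv
  obtain ⟨hu, _, _, _, hj, _, _, _, hq, hg, _, _⟩ := exps hv
  obtain ⟨_, _, _, hj100, _⟩ := exps' hv
  have hj1 : 1 ≤ j0 R g := by omega
  have hjk : j0 R g ≤ R.k1 := by
    rw [← hj]
    exact Nat.le_mul_of_pos_left _ (by omega)
  filter_upwards [Filter.eventually_ge_atTop 2] with z hz p1 _ _ M' hM'
  refine (rough_le (z ^ (2 * j0 R g)) (z ^ (R.q + 1)) M' hM').trans ?_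
  refine (hC z (2 * j0 R g) (R.q + 1) hz (by omega) (by omega)).1.trans ?_
  have hg1 : (1 : ℝ) ≤ g := by exact_mod_cast hg
  have hj1' : (1 : ℝ) ≤ j0 R g := by exact_mod_cast hj1
  have hqr : ((R.q + 1 : ℕ) : ℝ) ≤ 3 * g * ((2 * j0 R g : ℕ) : ℝ) := by
    have h1 : R.q = 4 * (g * j0 R g) := by rw [hj, hq]
    rw [h1]
    push_cast
    nlinarith [mul_le_mul hg1 hj1' (by norm_num) (by linarith : (0 : ℝ) ≤ g)]
  have hj2 : (0 : ℝ) < ((2 * j0 R g : ℕ) : ℝ) := by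
    exact_mod_cast (by omega : 0 < 2 * j0 R g)
  have h2 : ((R.q + 1 : ℕ) : ℝ) / ((2 * j0 R g : ℕ) : ℝ) ≤ 3 * g := by
    rw [div_le_iff₀ hj2]
    exact hqr
  calc (C1 : ℝ) * (((R.q + 1 : ℕ) : ℝ) / ((2 * j0 R g : ℕ) : ℝ)) ≤ C1 * (3 * g) :=
        mul_le_mul_of_nonneg_left h2 (Nat.cast_nonneg _)
    _ = ((3 * C1 : ℕ) : ℝ) * g := by push_cast; ring

end Pool.Agent.LibFB63
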