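import Pool.Agent.LibFB63.K4
import Pool.Agent.LibFB63.N20
import Pool.Agent.LibFB63.N21

/-!
Row K7: the cost `Cc`. `badpairs_sum`: for a given `m` the bad `p` are controlled by `bad_sum` (N20), the sum over `m` by `rough_sum` (N21). `costC`: exchange of sums, `meanE`.
-/

open Finset Filter

namespace Pool.Agent.LibFB63

open Pool.Agent.LibRG87 Pool.Agent.LibLG5 Pool.Agent.LibPL63 Pool.Agent.LibSC93 Pool.Agent.LibGL22

theorem badpairs_sum : ∃ C0 : ℕ, ∀ (R : Prm) (C Cq Cm : ℕ) (c cD Λ δ : ℝ) (Cx g g2 g3 : ℕ) (ε : ℝ), C0 ≤ Cx →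
    ParV R C Cq Cm c cD Λ δ Cx g g2 g3 ε → ∀ᶠ z : ℕ in atTop, ∀ p1 : ℕ, p1.Prime → z ^ (R.q + 2) < p1 →
    ∀ κ j : ℕ, LevP R g g2 g3 δ z p1 κ j →
      ∑ x ∈ Bad R z p1 g κ ε, 1 / ((x.1 : ℝ) * x.2) ≤ C0 * (g * Real.sqrt ε) := by
  classical
  obtain ⟨C1, hC1, hB⟩ := bad_sum
  obtain ⟨C3, hC3, hR⟩ := rough_sum
  refine ⟨C1 + C3 + 100 + C1 * C3, ?_⟩
  intro R C Cq Cm c cD Λ δ Cx g g2 g3 ε hCx hpar
  have hsε : 0 < Real.sqrt ε := Real.sqrt_pos.mpr hpar.hε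
  have ev1 := hB R C Cq Cm c cD Λ δ Cx g g2 g3 ε (by omega) hpar
  have ev3 := hR R C Cq Cm c cD Λ δ Cx g g2 g3 ε (by omega) hpar
  filter_upwards [ev1, ev3] with z h1 h3
  intro p1 hp1 hzp κ j hL
  have hfib : ∀ (m : ℕ) (F : Finset ℕ), F ⊆ Pc R z p1 g →
      (∀ p ∈ F, |Gn (Pb R z p1) z κ * La1 R z p1 κ m - GRb R z p1 ((z : ℝ) ^ κ / p)| ≤
        3 * Real.sqrt ε * Gn (Pb R z p1) z κ) →
      ∑ p ∈ F, 1 / (p : ℝ) ≤ C1 * Real.sqrt ε := by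
    intro m F hF hBd
    refine h1 p1 hp1 hzp κ hL.hκ hL.hκ' F hF fun p hp p' hp' _ => ?_
    have a1 := abs_le.mp (hBd p hp)
    have a2 := abs_le.mp (hBd p' hp')
    have a3 : GR (Pb R z p1) ((z : ℝ) ^ κ) = Gn (Pb R z p1) z κ := (Gn_eq_GR _ _ _).symm
    rw [a3]
    unfold GRb at a1 a2
    linarith [a1.1, a1.2, a2.1, a2.2]
  -- the double sum
  have hstep : ∑ x ∈ Bad R z p1 g κ ε, 1 / ((x.1 : ℝ) * x.2) ≤
      ∑ m ∈ (Icc 1 (z ^ (R.q + 1))).filter (fun m => Rgh R z g m), C1 * Real.sqrt ε * (1 / (m : ℝ)) := by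
    unfold Bad
    rw [Finset.sum_filter, Finset.sum_product_right, Finset.sum_filter]
    refine Finset.sum_le_sum fun m hm => ?_
    rw [Finset.mem_Icc] at hm
    have hm0 : (0 : ℝ) < m := by exact_mod_cast hm.1
    simp only []
    rw [← Finset.sum_filter]
    by_cases hRm : Rgh R z g m
    · rw [if_pos hRm]
      have h7 := hfib m ((Pc R z p1 g).filter fun p =>
          p * m * z ^ κ ≤ 3 * z ^ R.q ∧ Rgh R z g m ∧
            |Gn (Pb R z p1) z κ * La1 R z p1 κ m - GRb R z p1 ((z : ℝ) ^ κ / p)| ≤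
              3 * Real.sqrt ε * Gn (Pb R z p1) z κ) (Finset.filter_subset _ _) (fun p hp =>
                (Finset.mem_filter.mp hp).2.2.2)
      have h8 : ∀ p ∈ (Pc R z p1 g).filter (fun p =>
          p * m * z ^ κ ≤ 3 * z ^ R.q ∧ Rgh R z g m ∧
            |Gn (Pb R z p1) z κ * La1 R z p1 κ m - GRb R z p1 ((z : ℝ) ^ κ / p)| ≤
              3 * Real.sqrt ε * Gn (Pb R z p1) z κ), 1 / ((p : ℝ) * m) = 1 / (p : ℝ) * (1 / (m : ℝ)) := by
        intro p _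
        rw [one_div_mul_one_div]
      rw [Finset.sum_congr rfl h8, ← Finset.sum_mul]
      exact mul_le_mul_of_nonneg_right h7 (by positivity)
    · rw [if_neg hRm]
      refine le_of_eq (Finset.sum_eq_zero fun p hp => ?_)
      exact absurd (Finset.mem_filter.mp hp).2.2.1 hRm
  refine hstep.trans ?_
  rw [← Finset.mul_sum]
  have h9 : ∑ m ∈ (Icc 1 (z ^ (R.q + 1))).filter (fun m => Rgh R z g m), 1 / (m : ℝ) ≤ C3 * (g : ℝ) := by
    refine h3 p1 hp1 hzp _ fun m hm => ?_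
    rw [Finset.mem_filter, Finset.mem_Icc] at hm
    exact ⟨hm.1.1, hm.1.2, hm.2⟩
  calc C1 * Real.sqrt ε * ∑ m ∈ (Icc 1 (z ^ (R.q + 1))).filter (fun m => Rgh R z g m), 1 / (m : ℝ)
      ≤ C1 * Real.sqrt ε * (C3 * (g : ℝ)) := mul_le_mul_of_nonneg_left h9 (by positivity)
    _ = (C1 * C3) * ((g : ℝ) * Real.sqrt ε) := by ring
    _ ≤ ((C1 + C3 + 100 + C1 * C3 : ℕ) : ℝ) * ((g : ℝ) * Real.sqrt ε) := by
        refine mul_le_mul_of_nonneg_right ?_ (by positivity)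
        push_cast
        have : (0 : ℝ) ≤ C1 := Nat.cast_nonneg _
        have : (0 : ℝ) ≤ C3 := Nat.cast_nonneg _
        linarith

theorem costC : ∃ C0 : ℕ, ∀ (R : Prm) (C Cq Cm : ℕ) (c cD Λ δ : ℝ) (Cx g g2 g3 : ℕ) (ε : ℝ), C0 ≤ Cx →
    ParV R C Cq Cm c cD Λ δ Cx g g2 g3 ε → ∀ᶠ z : ℕ in atTop, ∀ p1 : ℕ, p1.Prime → z ^ (R.q + 2) < p1 →
    ∀ κ j : ℕ, LevP R g g2 g3 δ z p1 κ j → ∀ (c0 : ℕ) (h K : Finset ℕ), PosS z p1 c0 R.k (Λ * R.q) h K →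
      U1 R Cq Λ δ z p1 c0 h K → ∀ a ∈ h,
        ∑ n ∈ sN (z ^ R.q) (Wp z p1) c0, rhoP (Ps R z p1) {a} n * PsG R z p1 h K n ^ 2 * Cc R z p1 g κ ε j (n + a) ≤
          1 / 400 * xH R z p1 g j h K := by
  classical
  obtain ⟨CK, hKf⟩ := kfacts
  obtain ⟨C2, hBS⟩ := badpairs_sum
  refine ⟨CK + C2 + 4000 * C2 + 100, ?_⟩
  intro R C Cq Cm c cD Λ δ Cx g g2 g3 ε hCx hpar
  have hE : Expo R g g2 g3 := expoK hpar (by omega)
  have ev1 := hKf R C Cq Cm c cD Λ δ Cx g g2 g3 ε (by omega) hpar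
  have ev2 := hBS R C Cq Cm c cD Λ δ Cx g g2 g3 ε (by omega) hpar
  filter_upwards [ev1, ev2, Filter.eventually_ge_atTop 3] with z h1 h2 hz3
  intro p1 hp1 hzp κ j hL c0 h K hPos hU a ha
  obtain ⟨hY, hxY, hS, hS1, hNe, hqe, hδ0, hδ1⟩ := h1 p1 hp1 hzp κ j hL c0 h K hPos
  have hbs := h2 p1 hp1 hzp κ j hL
  have e1 := hE.hj0u
  have e2 := hE.hj0k
  have e3 := hE.hdl4
  have e4 := hE.hu
  have e5 := hE.hjr
  have e6 := hL.hκ
  have e7 := hL.hκ'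
  have e8 := hL.hj'
  have e9 := hE.hq
  have hz1 : 1 ≤ z := by omega
  have hq1 : (1 : ℝ) ≤ R.q := by
    have : 1 ≤ R.q := by omega
    exact_mod_cast this
  have hYer : (1 + δ) * Yj R z p1 g j h K + NW R z p1 * er R z p1 Cq Λ h ≤ (1 + 2 * δ) * Yj R z p1 g j h K :=
    Yj_er hY hxY hS1 hq1 hNe hqe hδ0
  -- the exchange
  have hex : ∑ n ∈ sN (z ^ R.q) (Wp z p1) c0,
      rhoP (Ps R z p1) {a} n * PsG R z p1 h K n ^ 2 * Cc R z p1 g κ ε j (n + a) =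
      4 * ∑ x ∈ Bad R z p1 g κ ε, ∑ n ∈ (sN (z ^ R.q) (Wp z p1) c0).filter (fun n => x.1 * x.2 ∣ n + a),
        rhoP (Ps R z p1) {a} n * PsG R z p1 h K n ^ 2 * La2 R z p1 g j (n + a) ^ 2 := by
    have s1 : ∀ n ∈ sN (z ^ R.q) (Wp z p1) c0,
        rhoP (Ps R z p1) {a} n * PsG R z p1 h K n ^ 2 * Cc R z p1 g κ ε j (n + a) =
        4 * ∑ x ∈ Bad R z p1 g κ ε, if x.1 * x.2 ∣ n + a then
          rhoP (Ps R z p1) {a} n * PsG R z p1 h K n ^ 2 * La2 R z p1 g j (n + a) ^ 2 else 0 := by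
      intro n _
      unfold Cc
      rw [← Finset.sum_filter, Finset.sum_const, Finset.sum_const, nsmul_eq_mul, nsmul_eq_mul]
      ring
    rw [Finset.sum_congr rfl s1, ← Finset.mul_sum, Finset.sum_comm]
    congr 1
    refine Finset.sum_congr rfl fun x _ => ?_
    rw [Finset.sum_filter]
  have hterm : ∀ x ∈ Bad R z p1 g κ ε,
      ∑ n ∈ (sN (z ^ R.q) (Wp z p1) c0).filter (fun n => x.1 * x.2 ∣ n + a),
        rhoP (Ps R z p1) {a} n * PsG R z p1 h K n ^ 2 * La2 R z p1 g j (n + a) ^ 2 ≤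
      (1 + 2 * δ) * Yj R z p1 g j h K * (1 / ((x.1 : ℝ) * x.2)) := by
    intro x hx
    unfold Bad at hx
    rw [Finset.mem_filter, Finset.mem_product, Finset.mem_Icc] at hx
    obtain ⟨⟨hxP, hx1, -⟩, hxκ, hxR, -⟩ := hx
    have hxPc : x.1.Prime ∧ z ^ (R.k1 - 2 * j0 R g) < x.1 := by
      have h1 := hxP
      unfold Pc PL PP at h1
      rw [Finset.mem_sdiff, Finset.mem_erase, Finset.mem_filter, Finset.mem_Ioc] at h1
      obtain ⟨⟨hpp1, ⟨hzp', hple⟩, hpr⟩, hnot⟩ := h1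
      refine ⟨hpr, ?_⟩
      by_contra hle
      apply hnot
      rw [Finset.mem_erase, Finset.mem_filter, Finset.mem_Ioc]
      exact ⟨hpp1, ⟨hzp', not_lt.mp hle⟩, hpr⟩
    have hep : 1 ≤ x.1 * x.2 := Nat.mul_pos hxPc.1.pos hx1
    have hepr : ∀ p : ℕ, p.Prime → p ∣ x.1 * x.2 → z ^ (2 * j0 R g) < p := by
      intro p hp hpd
      rcases (Nat.Prime.dvd_mul hp).mp hpd with hd | hd
      · have : p = x.1 := (Nat.prime_dvd_prime_iff_eq hp hxPc.1).mp hd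
        rw [this]
        exact lt_of_le_of_lt (Nat.pow_le_pow_right hz1 (by omega)) hxPc.2
      · exact hxR p hp hd
    have hlv : x.1 * x.2 * z ^ (2 * j + 30 * R.u) ≤ z ^ R.q := by
      have hz0 : 0 < z := by omega
      refine Nat.le_of_mul_le_mul_right (c := z) ?_ hz0
      calc x.1 * x.2 * z ^ (2 * j + 30 * R.u) * z = x.1 * x.2 * z ^ (2 * j + 30 * R.u + 1) := by
            rw [pow_succ]; ring
        _ ≤ x.1 * x.2 * z ^ κ := Nat.mul_le_mul_left _ (Nat.pow_le_pow_right hz1 (by omega))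
        _ ≤ 3 * z ^ R.q := hxκ
        _ ≤ z ^ R.q * z := by
            rw [mul_comm]
            exact Nat.mul_le_mul_left _ hz3
    have hm := meanE hE hz3 hU ha (e := x.1 * x.2) (j := j) hep hepr hlv
    refine hm.trans ?_
    have hxpos : (0 : ℝ) < (x.1 : ℝ) * x.2 := by
      have := hep
      exact_mod_cast this
    push_cast
    rw [mul_one_div]
    exact div_le_div_of_nonneg_right hYer hxpos.le
  rw [hex]
  have hsum := Finset.sum_le_sum hterm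
  rw [← Finset.mul_sum] at hsum
  have hYδ : 0 ≤ (1 + 2 * δ) * Yj R z p1 g j h K := by positivity
  have hg0 : (0 : ℝ) < g := by
    have := hE.hg
    have : 0 < g := by omega
    exact_mod_cast this
  have hCx0 : (0 : ℝ) < Cx := by
    have : 0 < Cx := by omega
    exact_mod_cast this
  have hC2 : (4000 * C2 : ℝ) ≤ Cx := by
    have : 4000 * C2 ≤ Cx := by omega
    exact_mod_cast this
  have hC20 : (0 : ℝ) ≤ C2 := Nat.cast_nonneg _
  have hε : 0 < ε := hpar.hε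
  have hs0 : 0 ≤ Real.sqrt ε := Real.sqrt_nonneg _
  have hsε : Cx * (g : ℝ) ^ 2 * Real.sqrt ε ≤ 1 := by
    have h3 : (Cx * (g : ℝ) ^ 2 * Real.sqrt ε) ^ 2 ≤ 1 := by
      calc (Cx * (g : ℝ) ^ 2 * Real.sqrt ε) ^ 2 = (Cx : ℝ) ^ 2 * (g : ℝ) ^ 4 * (Real.sqrt ε ^ 2) := by ring
        _ = (Cx : ℝ) ^ 2 * (g : ℝ) ^ 4 * ε := by rw [Real.sq_sqrt hε.le]
        _ ≤ 1 := hpar.hε1
    have h4 : 0 ≤ Cx * (g : ℝ) ^ 2 * Real.sqrt ε := by positivity
    nlinarith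
  -- the constants
  have hfin : (C2 : ℝ) * (g * Real.sqrt ε) ≤ 1 / (4000 * g) := by
    rw [le_div_iff₀ (by positivity)]
    calc (C2 : ℝ) * (g * Real.sqrt ε) * (4000 * g) = 4000 * C2 * ((g : ℝ) ^ 2 * Real.sqrt ε) := by ring
      _ ≤ Cx * ((g : ℝ) ^ 2 * Real.sqrt ε) := mul_le_mul_of_nonneg_right hC2 (by positivity)
      _ = Cx * (g : ℝ) ^ 2 * Real.sqrt ε := by ring
      _ ≤ 1 := hsε
  calc 4 * ∑ x ∈ Bad R z p1 g κ ε, ∑ n ∈ (sN (z ^ R.q) (Wp z p1) c0).filter (fun n => x.1 * x.2 ∣ n + a),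
        rhoP (Ps R z p1) {a} n * PsG R z p1 h K n ^ 2 * La2 R z p1 g j (n + a) ^ 2
      ≤ 4 * ((1 + 2 * δ) * Yj R z p1 g j h K * ∑ x ∈ Bad R z p1 g κ ε, 1 / ((x.1 : ℝ) * x.2)) := by linarith
    _ ≤ 4 * ((1 + 2 * δ) * Yj R z p1 g j h K * (1 / (4000 * g))) := by
        have := mul_le_mul_of_nonneg_left (hbs.trans hfin) hYδ
        linarith
    _ ≤ 1 / 400 * (Yj R z p1 g j h K * (1 / (2 * g))) := by
        have h5 : (1 + 2 * δ) * Yj R z p1 g j h K ≤ 5 / 4 * Yj R z p1 g j h K :=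
          mul_le_mul_of_nonneg_right (by linarith) hY.le
        have h6 : (1 : ℝ) / (4000 * g) = 1 / 4000 * (1 / g) := by
          rw [one_div_mul_one_div]
        have h7 : (1 : ℝ) / (2 * g) = 1 / 2 * (1 / g) := by
          rw [one_div_mul_one_div]
        have h8 : (0 : ℝ) < 1 / g := by positivity
        rw [h6, h7]
        nlinarith [mul_le_mul_of_nonneg_right h5 h8.le]
    _ ≤ 1 / 400 * (Yj R z p1 g j h K * ∑ p ∈ Pc R z p1 g, 1 / (p : ℝ)) := by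
        have := mul_le_mul_of_nonneg_left hS hY.le
        linarith
    _ = 1 / 400 * xH R z p1 g j h K := by rw [hxY]

end Pool.Agent.LibFB63
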