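import Pool.Agent.LibFB63.K3
import Pool.Agent.LibFB63.K5
import Pool.Agent.LibFB63.K6
import Pool.Agent.LibFB63.K7

/-!
Row K8 (SHORT/MEDIUM): assembly of the cost. `C0` = the maximum of all constants, `z` large for all.

`ns_small` (no prime `≤ z` divides `n + a`, if `PsG n /= 0`): `PsG n ≠ 0 → rhoP (P0 z p1) h n = 1` (every term of `PhiS` contains `rhoP P0 (h ∪ su)`, which is `≤ rhoP P0 h`), so no prime of `(wf z, z]` except `p1 > z` divides `n + a`; `n ≡ c0 (mod Wp)`, `(c0 + a)` prime to `Wp z p1`, so no prime `≤ wf z` (a factor of `Wp`) divides `n + a`.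
`cost`: for `n ∈ sN` put `v = n + a`: `z^q < v ≤ 2 z^q + (log z)² ≤ 3 z^q`. The term: if `PsG n = 0` or `rhoP (P2 R z p1 g3) {a} n = 0`: it is `0` (`X1 = X2 = 0`). Otherwise every prime factor of `v` is `> z^l2` (not `≤ z` by `ns_small`; in `(z, z^l2]`: it would be in `P2` (`≠ p1` as `p1 > v`)), so `pointwise` applies:
  `max 0 (ε X2 - X1) ≤ ε (Ca + Cb + Cc + Cd)` (`Cs_nonneg`), and `rhoP Ps {a} n = 1` (`Ps ⊆ P2`: `l1 ≤ u ≤ l2`). So the sum is `≤ ε ∑_n rhoP Ps PsG² (Ca + Cb + Cc + Cd) ≤ ε (2/9 + 1/200 + 3/400) xH ≤ ε (6/25) xH`.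
-/

open Finset Filter

namespace Pool.Agent.LibFB63

open Pool.Agent.LibRG87 Pool.Agent.LibLG5 Pool.Agent.LibPL63 Pool.Agent.LibSC93 Pool.Agent.LibGL22

theorem ns_small {R : Prm} {z p1 c0 : ℕ} (hp1 : z < p1) {h K : Finset ℕ}
    (hc : ∀ x ∈ h, (c0 + x).Coprime (Wp z p1)) {n : ℕ} (hn : n ∈ sN (z ^ R.q) (Wp z p1) c0)
    (hP : PsG R z p1 h K n ≠ 0) {a : ℕ} (ha : a ∈ h) {p : ℕ} (hp : p.Prime) (hpv : p ∣ n + a) : z < p := by
  classical
  by_contra hlt
  have hpz : p ≤ z := not_lt.mp hlt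
  have hpp1 : p ≠ p1 := by omega
  by_cases hw : p ≤ wf z
  · have hdW : p ∣ Wp z p1 := by
      unfold Wp
      refine Finset.dvd_prod_of_mem _ ?_
      rw [Finset.mem_erase, PP, Finset.mem_filter, Finset.mem_Ioc]
      exact ⟨hpp1, ⟨hp.pos, hw⟩, hp⟩
    have hmod : n ≡ c0 [MOD Wp z p1] := by
      unfold sN at hn
      exact (Finset.mem_filter.mp hn).2
    have hmodp : n ≡ c0 [MOD p] := hmod.of_dvd hdW
    have hdc : p ∣ c0 + a := by
      have h2 : n + a ≡ c0 + a [MOD p] := hmodp.add_right a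
      exact (h2.dvd_iff dvd_rfl).mp hpv
    have h3 : p ∣ Nat.gcd (c0 + a) (Wp z p1) := Nat.dvd_gcd hdc hdW
    rw [Nat.Coprime.gcd_eq_one (hc a ha)] at h3
    exact hp.one_lt.ne' (Nat.dvd_one.mp h3)
  · apply hP
    unfold PsG PhiS
    refine Finset.sum_eq_zero fun β _ => ?_
    have hr : rhoP (P0 z p1) (h ∪ su (PG R z p1) (bS h K) β) n = 0 := by
      unfold rhoP
      rw [if_neg]
      intro hall
      refine hall a (Finset.mem_union_left _ ha) p ?_ hpv
      rw [P0, Finset.mem_erase, PP, Finset.mem_filter, Finset.mem_Ioc]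
      exact ⟨hpp1, ⟨not_le.mp hw, hpz⟩, hp⟩
    rw [hr]
    ring

theorem cost' : ∃ C0 : ℕ, ∀ (R : Prm) (C Cq Cm : ℕ) (c cD Λ δ : ℝ) (Cx g g2 g3 : ℕ) (ε : ℝ), C0 ≤ Cx →
    ParV R C Cq Cm c cD Λ δ Cx g g2 g3 ε → ∀ᶠ z : ℕ in atTop, ∀ p1 : ℕ, p1.Prime → z ^ (R.q + 2) < p1 →
    ∀ κ j : ℕ, LevP R g g2 g3 δ z p1 κ j → ∀ (c0 : ℕ) (h K : Finset ℕ), PosS z p1 c0 R.k (Λ * R.q) h K →
      U1 R Cq Λ δ z p1 c0 h K → ∀ a ∈ h,
        ∑ n ∈ sN (z ^ R.q) (Wp z p1) c0, PsG R z p1 h K n ^ 2 *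
            max 0 (ε * X2 R z p1 g g3 j a n - X1 R z p1 g3 κ a n) ≤
          ε * (6 / 25) * (t2v R z p1 g j * VV R z p1 h K) := by
  classical
  obtain ⟨CP, hPW⟩ := pointwise
  obtain ⟨CA, hA⟩ := costA
  obtain ⟨CB, hB⟩ := costB
  obtain ⟨CC, hC⟩ := costC
  obtain ⟨CD, hD⟩ := costD
  obtain ⟨CK, hKf⟩ := kfacts
  refine ⟨CP + CA + CB + CC + CD + CK + 100, ?_⟩
  intro R C Cq Cm c cD Λ δ Cx g g2 g3 ε hCx hpar
  have hE : Expo R g g2 g3 := expoK hpar (by omega)
  have ev1 := hPW R C Cq Cm c cD Λ δ Cx g g2 g3 ε (by omega) hpar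
  have ev2 := hA R C Cq Cm c cD Λ δ Cx g g2 g3 ε (by omega) hpar
  have ev3 := hB R C Cq Cm c cD Λ δ Cx g g2 g3 ε (by omega) hpar
  have ev4 := hC R C Cq Cm c cD Λ δ Cx g g2 g3 ε (by omega) hpar
  have ev5 := hD R C Cq Cm c cD Λ δ Cx g g2 g3 ε (by omega) hpar
  have ev7 := hKf R C Cq Cm c cD Λ δ Cx g g2 g3 ε (by omega) hpar
  have ev6 := baseG hpar.pg 1 one_pos
  filter_upwards [ev1, ev2, ev3, ev4, ev5, ev6, ev7] with z h1 h2 h3 h4 h5 h6 h7
  intro p1 hp1 hzp κ j hL c0 h K hPos hU a ha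
  obtain ⟨hz3, -, hlogz, -⟩ := h6 p1
  have hε : 0 < ε := hpar.hε
  have hq1 : 1 ≤ R.q := by
    have := hE.hu
    have := hE.hj0k
    have := hE.hj0u
    have := hE.hq
    omega
  have hz1 : 1 ≤ z := by omega
  have hzq : z ≤ z ^ R.q := Nat.le_self_pow (by omega) z
  have hz2 : 3 * z ^ R.q < z ^ (R.q + 2) := by
    rw [pow_add]
    have h9 : 9 ≤ z ^ 2 := by nlinarith
    have : 0 < z ^ R.q := by positivity
    nlinarith
  have ha' : (a : ℝ) ≤ Real.log z ^ 2 := (hPos.2.2.1 a (Finset.mem_union_left _ ha)).1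
  have haz : a ≤ z := by
    have : (a : ℝ) ≤ z := by linarith
    exact_mod_cast this
  have hzp1 : z < p1 := by
    have : z ^ R.q ≤ z ^ (R.q + 2) := Nat.pow_le_pow_right hz1 (by omega)
    omega
  have hcc : ∀ x ∈ h, (c0 + x).Coprime (Wp z p1) := fun x hx => (hPos.2.2.1 x (Finset.mem_union_left _ hx)).2
  have key : ∀ n ∈ sN (z ^ R.q) (Wp z p1) c0, PsG R z p1 h K n ^ 2 *
      max 0 (ε * X2 R z p1 g g3 j a n - X1 R z p1 g3 κ a n) ≤
        ε * (rhoP (Ps R z p1) {a} n * PsG R z p1 h K n ^ 2 * Ca R z p1 g j (n + a) +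
          rhoP (Ps R z p1) {a} n * PsG R z p1 h K n ^ 2 * Cb R z p1 g κ j (n + a) +
          rhoP (Ps R z p1) {a} n * PsG R z p1 h K n ^ 2 * Cc R z p1 g κ ε j (n + a) +
          rhoP (Ps R z p1) {a} n * PsG R z p1 h K n ^ 2 * Cd R z p1 g κ j (n + a)) := by
    intro n hn
    obtain ⟨n1, n2, n3, n4⟩ := Cs_nonneg (R := R) (z := z) (p1 := p1) (g := g) (κ := κ) (j := j) (ε := ε) (n + a)
    have hrho0 : 0 ≤ rhoP (Ps R z p1) {a} n := by
      unfold rhoP
      split_ifs <;> norm_num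
    have hRHS : 0 ≤ ε * (rhoP (Ps R z p1) {a} n * PsG R z p1 h K n ^ 2 * Ca R z p1 g j (n + a) +
          rhoP (Ps R z p1) {a} n * PsG R z p1 h K n ^ 2 * Cb R z p1 g κ j (n + a) +
          rhoP (Ps R z p1) {a} n * PsG R z p1 h K n ^ 2 * Cc R z p1 g κ ε j (n + a) +
          rhoP (Ps R z p1) {a} n * PsG R z p1 h K n ^ 2 * Cd R z p1 g κ j (n + a)) := by
      positivity
    by_cases hPs : PsG R z p1 h K n = 0
    · rw [hPs]
      simp
    by_cases hall : ∀ p ∈ P2 R z p1 g3, ¬ p ∣ n + a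
    · have hrho2 : rhoP (P2 R z p1 g3) {a} n = 1 := by
        unfold rhoP
        rw [if_pos]
        intro a' ha'' p hp
        rw [Finset.mem_singleton] at ha''
        subst ha''
        exact hall p hp
      have hsub : Ps R z p1 ⊆ P2 R z p1 g3 := by
        intro p hp
        unfold Ps PL PP at hp
        unfold P2 PL PP
        rw [Finset.mem_erase, Finset.mem_filter, Finset.mem_Ioc] at hp ⊢
        refine ⟨hp.1, ⟨hp.2.1.1, hp.2.1.2.trans (Nat.pow_le_pow_right hz1 ?_)⟩, hp.2.2⟩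
        have := hE.hl1
        have := hE.hl2u
        omega
      have hrho1 : rhoP (Ps R z p1) {a} n = 1 := by
        unfold rhoP
        rw [if_pos]
        intro a' ha'' p hp
        rw [Finset.mem_singleton] at ha''
        subst ha''
        exact hall p (hsub hp)
      have hnI : z ^ R.q < n ∧ n ≤ 2 * z ^ R.q := by
        unfold sN at hn
        exact Finset.mem_Ioc.mp (Finset.mem_filter.mp hn).1
      have hv1 : z ^ R.q < n + a := by omega
      have hv2 : n + a ≤ 3 * z ^ R.q := by omega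
      have hpr : ∀ p : ℕ, p.Prime → p ∣ n + a → z ^ l2 R g3 < p := by
        intro p hp hpv
        by_contra hle
        have hzlt : z < p := ns_small hzp1 hcc hn hPs ha hp hpv
        have hple : p ≤ n + a := Nat.le_of_dvd (by omega) hpv
        refine hall p ?_ hpv
        unfold P2 PL PP
        rw [Finset.mem_erase, Finset.mem_filter, Finset.mem_Ioc]
        exact ⟨by omega, ⟨hzlt, not_lt.mp hle⟩, hp⟩
      have hpw := h1 p1 hp1 hzp κ j hL (n + a) hv1 hv2 hpr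
      have hX2 : X2 R z p1 g g3 j a n = HH R z p1 g j (n + a) := by
        unfold X2 HH
        rw [hrho2, one_mul]
      have hX1 : X1 R z p1 g3 κ a n = La1 R z p1 κ (n + a) ^ 2 := by
        unfold X1
        rw [hrho2, one_mul]
      rw [hX2, hX1, hrho1]
      have hmax : max 0 (ε * HH R z p1 g j (n + a) - La1 R z p1 κ (n + a) ^ 2) ≤
          ε * (Ca R z p1 g j (n + a) + Cb R z p1 g κ j (n + a) + Cc R z p1 g κ ε j (n + a) +
            Cd R z p1 g κ j (n + a)) :=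
        max_le (by positivity) hpw
      calc PsG R z p1 h K n ^ 2 * max 0 (ε * HH R z p1 g j (n + a) - La1 R z p1 κ (n + a) ^ 2)
          ≤ PsG R z p1 h K n ^ 2 * (ε * (Ca R z p1 g j (n + a) + Cb R z p1 g κ j (n + a) +
            Cc R z p1 g κ ε j (n + a) + Cd R z p1 g κ j (n + a))) :=
            mul_le_mul_of_nonneg_left hmax (sq_nonneg _)
        _ = _ := by ring
    · have hrho2 : rhoP (P2 R z p1 g3) {a} n = 0 := by
        unfold rhoP
        rw [if_neg]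
        intro hcon
        exact hall (hcon a (Finset.mem_singleton_self a))
      have hX2 : X2 R z p1 g g3 j a n = 0 := by
        unfold X2
        rw [hrho2, zero_mul]
      have hX1 : X1 R z p1 g3 κ a n = 0 := by
        unfold X1
        rw [hrho2, zero_mul]
      rw [hX2, hX1]
      simpa using hRHS
  refine (Finset.sum_le_sum key).trans ?_
  rw [← Finset.mul_sum, Finset.sum_add_distrib, Finset.sum_add_distrib, Finset.sum_add_distrib]
  have b1 := h2 p1 hp1 hzp κ j hL c0 h K hPos hU a ha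
  have b2 := h3 p1 hp1 hzp κ j hL c0 h K hPos hU a ha
  have b3 := h4 p1 hp1 hzp κ j hL c0 h K hPos hU a ha
  have b4 := h5 p1 hp1 hzp κ j hL c0 h K hPos hU a ha
  obtain ⟨y1, y2, y3, -⟩ := h7 p1 hp1 hzp κ j hL c0 h K hPos
  have hx0 : 0 ≤ xH R z p1 g j h K := by
    rw [y2]
    refine mul_nonneg y1.le (le_trans ?_ y3)
    positivity
  have hx : xH R z p1 g j h K = t2v R z p1 g j * VV R z p1 h K := rfl
  rw [← hx, mul_assoc]
  refine mul_le_mul_of_nonneg_left ?_ hε.le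
  linarith

end Pool.Agent.LibFB63
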