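import Pool.Agent.LibFB63.N00

/-!
Block K: definitions.
-/

open Finset Filter

namespace Pool.Agent.LibFB63

open Pool.Agent.LibRG87 Pool.Agent.LibLG5 Pool.Agent.LibPL63 Pool.Agent.LibSC93 Pool.Agent.LibGL22

section

variable (R : Prm) (z p1 : ℕ)

/-- the sum over the numbers composed of large primes, up to the real number `t`; `Gn (Pb R z p1) z κ = GRb R z p1 (z^κ)` -/
noncomputable def GRb (t : ℝ) : ℝ := GR (Pb R z p1) t

/-- the primes in `(z^(2 j0), z^κ]` -/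
def Qb (g κ : ℕ) : Finset ℕ := PL z κ p1 \ PL z (2 * j0 R g) p1

/-- all prime factors of `m` are `> z^(2 j0)` -/
def Rgh (g m : ℕ) : Prop := ∀ p : ℕ, p.Prime → p ∣ m → z ^ (2 * j0 R g) < p

open scoped Classical in
/-- the bad pairs `(p, m')` -/
noncomputable def Bad (g κ : ℕ) (ε : ℝ) : Finset (ℕ × ℕ) :=
  ((Pc R z p1 g) ×ˢ (Icc 1 (z ^ (R.q + 1)))).filter fun x =>
    x.1 * x.2 * z ^ κ ≤ 3 * z ^ R.q ∧ Rgh R z g x.2 ∧
      |Gn (Pb R z p1) z κ * La1 R z p1 κ x.2 - GRb R z p1 ((z : ℝ) ^ κ / x.1)| ≤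
        3 * Real.sqrt ε * Gn (Pb R z p1) z κ

/-- the function `H` -/
noncomputable def HH (g j v : ℕ) : ℝ := (np R z p1 g v : ℝ) * La2 R z p1 g j v ^ 2

/-- cost of the numbers with a prime factor `≤ z^(2 j0)` -/
noncomputable def Ca (g j v : ℕ) : ℝ := ∑ q ∈ (Q2 R z p1 g).filter (fun q => q ∣ v), HH R z p1 g j v

/-- cost of the numbers all of whose prime factors are `≤ z^κ` -/
noncomputable def Cb (g κ j v : ℕ) : ℝ :=
  ∑ p ∈ (Pc R z p1 g).filter (fun p => p ∣ v),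
    (∑ q ∈ (Qb R z p1 g κ).filter (fun q => q ≠ p ∧ q ∣ v), Real.log q) ^ 2 / (3 * R.k1 * Real.log z) ^ 2 *
      La2 R z p1 g j v ^ 2

/-- cost of the bad pairs -/
noncomputable def Cc (g κ : ℕ) (ε : ℝ) (j v : ℕ) : ℝ :=
  4 * ∑ _x ∈ (Bad R z p1 g κ ε).filter (fun x => x.1 * x.2 ∣ v), La2 R z p1 g j v ^ 2

/-- cost of the squares -/
noncomputable def Cd (g κ j v : ℕ) : ℝ :=
  4 * ∑ _q ∈ (Qb R z p1 g κ).filter (fun q => q ^ 2 ∣ v), La2 R z p1 g j v ^ 2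

/-- the mass of `X2` -/
noncomputable def xH (g j : ℕ) (h K : Finset ℕ) : ℝ := t2v R z p1 g j * VV R z p1 h K

end

end Pool.Agent.LibFB63
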