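import Pool.Agent.LibFB63.Defs

/-!
Block N: definition of `GR`.
-/

open Finset Filter

namespace Pool.Agent.LibFB63

open Pool.Agent.LibRG87 Pool.Agent.LibLG5 Pool.Agent.LibPL63 Pool.Agent.LibSC93 Pool.Agent.LibGL22

open scoped Classical in
/-- `∑ 1/φ` over the sets of primes of `Q` with product `≤ t` -/
noncomputable def GR (Q : Finset ℕ) (t : ℝ) : ℝ := ∑ A ∈ Q.powerset with rr A ≤ t, 1 / ph A

theorem Gn_eq_GR (Q : Finset ℕ) (z j : ℕ) : Gn Q z j = GR Q ((z : ℝ) ^ j) := rfl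

end Pool.Agent.LibFB63
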