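import Pool.Agent.LibFB63.N00
import Pool.Agent.LibMaier.Mertens2

/-!
Row N01 (SHORT): Mertens' second theorem with an error term, real end points. `LibMaier.mertens_first` gives `K` for `LibMaier.DR_sub` : `|DR b - DR a| ≤ 2 K/log a` for `1 < a ≤ b`, where `DR t = RN ⌊t⌋₊ - log (log t)`; `K0 = 2 K`.
`RN ⌊y⌋₊ - RN ⌊x⌋₊ = ∑ p ∈ PP ⌊x⌋₊ ⌊y⌋₊, 1/p` (`RN_sub`, `Finset.sum_filter`; `PP w z = (Ioc w z).filter Nat.Prime`), `log (log y/log x) = log log y - log log x`.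
-/

open Finset Filter

namespace Pool.Agent.LibFB63

open Pool.Agent.LibRG87 Pool.Agent.LibLG5 Pool.Agent.LibPL63 Pool.Agent.LibSC93 Pool.Agent.LibGL22

theorem rec_abs : ∃ K0 : ℝ, 0 < K0 ∧ ∀ x y : ℝ, 2 ≤ x → x ≤ y →
    |∑ p ∈ PP ⌊x⌋₊ ⌊y⌋₊, 1 / (p : ℝ) - Real.log (Real.log y / Real.log x)| ≤ K0 / Real.log x := by
  obtain ⟨K, hK, hK1⟩ := LibMaier.mertens_first
  refine ⟨2 * K, by positivity, fun x y hx hxy => ?_⟩
  have h1 := LibMaier.DR_sub hK1 (show (1 : ℝ) < x by linarith) hxy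
  have hlx : 0 < Real.log x := Real.log_pos (by linarith)
  have hly : 0 < Real.log y := Real.log_pos (by linarith)
  have h2 := LibMaier.RN_sub (Nat.floor_mono hxy)
  have h3 : ∑ p ∈ PP ⌊x⌋₊ ⌊y⌋₊, 1 / (p : ℝ) = LibMaier.RN ⌊y⌋₊ - LibMaier.RN ⌊x⌋₊ := by
    rw [h2]
    unfold PP
    rw [Finset.sum_filter]
  have h4 : ∑ p ∈ PP ⌊x⌋₊ ⌊y⌋₊, 1 / (p : ℝ) - Real.log (Real.log y / Real.log x) =
      LibMaier.DR y - LibMaier.DR x := by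
    rw [h3, Real.log_div hly.ne' hlx.ne']
    unfold LibMaier.DR
    ring
  rw [h4]
  exact h1

end Pool.Agent.LibFB63
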