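import Pool.Agent.LibFB63.N00
import Pool.Agent.LibMaier.Mertens1

/-!
Row N02 (SHORT/MEDIUM): sums over primes. `LibMaier.TN_le : TN N ≤ log N + log 4`, `TN N = ∑ p ∈ PN N, log p/p`, `PN N = (Icc 0 N).filter Nat.Prime` contains `PP w N`; `log 4 ≤ 2`.
`logsum_le`: `1/(p - 1) ≤ (1 + 1/w)/p` for `p > w` (i.e. `p w ≤ (w + 1)(p - 1)`). `sqsum_le`: `∑_{x < p ≤ y} 1/p² ≤ ∑_{x < n ≤ y} (1/(n-1) - 1/n) ≤ 1/x` (induction on `y`, or a Mathlib lemma such as `sum_Ioc_inv_sq_le_sub`).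
-/

open Finset Filter

namespace Pool.Agent.LibFB63

open Pool.Agent.LibRG87 Pool.Agent.LibLG5 Pool.Agent.LibPL63 Pool.Agent.LibSC93 Pool.Agent.LibGL22

theorem logsum_le' {N : ℕ} (hN : 1 ≤ N) : ∑ p ∈ PP 0 N, Real.log p / p ≤ Real.log N + 2 := by
  have h1 : ∑ p ∈ PP 0 N, Real.log p / p ≤ LibMaier.TN N := by
    unfold LibMaier.TN
    refine Finset.sum_le_sum_of_subset_of_nonneg ?_ ?_
    · intro p hp
      unfold PP at hp
      rw [Finset.mem_filter, Finset.mem_Ioc] at hp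
      rw [LibMaier.mem_PN]
      exact ⟨hp.1.2, hp.2⟩
    · intro p hp _
      rw [LibMaier.mem_PN] at hp
      have h2 : (1 : ℝ) ≤ (p : ℝ) := by exact_mod_cast hp.2.one_lt.le
      exact div_nonneg (Real.log_nonneg h2) (by linarith)
  have h3 := LibMaier.TN_le N hN
  have h4 : Real.log 4 ≤ 2 := by
    have h5 : Real.log 4 = 2 * Real.log 2 := by
      rw [show (4 : ℝ) = 2 ^ 2 by norm_num, Real.log_pow]
      norm_num
    have h6 := Real.log_two_lt_d9
    rw [h5]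
    linarith
  linarith

theorem logsum_le {w N : ℕ} (hw : 1 ≤ w) (hN : 1 ≤ N) :
    ∑ p ∈ PP w N, 1 / ((p : ℝ) - 1) * Real.log p ≤ (1 + 1 / (w : ℝ)) * (Real.log N + 2) := by
  have hw0 : (0 : ℝ) < (w : ℝ) := by exact_mod_cast hw
  have h1 : ∀ p ∈ PP w N, 1 / ((p : ℝ) - 1) * Real.log p ≤
      (1 + 1 / (w : ℝ)) * (Real.log p / p) := by
    intro p hp
    unfold PP at hp
    rw [Finset.mem_filter, Finset.mem_Ioc] at hp
    have h2 : (w : ℝ) + 1 ≤ (p : ℝ) := by exact_mod_cast hp.1.1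
    have hp0 : (0 : ℝ) < (p : ℝ) := by linarith
    have hp1 : (0 : ℝ) < (p : ℝ) - 1 := by linarith
    have h3 : 1 / ((p : ℝ) - 1) ≤ (1 + 1 / (w : ℝ)) / p := by
      have h4 : (1 + 1 / (w : ℝ)) = ((w : ℝ) + 1) / w := by
        field_simp
      rw [h4, div_div, div_le_div_iff₀ hp1 (by positivity)]
      nlinarith
    have h5 : 0 ≤ Real.log p := Real.log_nonneg (by linarith)
    have h6 := mul_le_mul_of_nonneg_right h3 h5
    calc 1 / ((p : ℝ) - 1) * Real.log p ≤ (1 + 1 / (w : ℝ)) / p * Real.log p := h6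
      _ = (1 + 1 / (w : ℝ)) * (Real.log p / p) := by ring
  refine (Finset.sum_le_sum h1).trans ?_
  rw [← Finset.mul_sum]
  refine mul_le_mul_of_nonneg_left ?_ (by positivity)
  refine le_trans ?_ (logsum_le' hN)
  refine Finset.sum_le_sum_of_subset_of_nonneg ?_ ?_
  · intro p hp
    unfold PP at hp ⊢
    rw [Finset.mem_filter, Finset.mem_Ioc] at hp ⊢
    exact ⟨⟨by omega, hp.1.2⟩, hp.2⟩
  · intro p hp _
    unfold PP at hp
    rw [Finset.mem_filter, Finset.mem_Ioc] at hp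
    have h2 : (1 : ℝ) ≤ (p : ℝ) := by exact_mod_cast hp.2.one_lt.le
    exact div_nonneg (Real.log_nonneg h2) (by linarith)

theorem sqsum_le {x y : ℕ} (hx : 1 ≤ x) : ∑ p ∈ PP x y, 1 / (p : ℝ) ^ 2 ≤ 1 / (x : ℝ) := by
  have h1 : ∑ p ∈ PP x y, 1 / (p : ℝ) ^ 2 ≤ ∑ p ∈ Finset.Ioc x y, ((p : ℝ) ^ 2)⁻¹ := by
    unfold PP
    refine (Finset.sum_le_sum_of_subset_of_nonneg (Finset.filter_subset _ _) ?_).trans ?_
    · intro p _ _
      positivity
    · refine Finset.sum_le_sum fun p _ => ?_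
      rw [one_div]
  refine h1.trans ?_
  rcases le_or_gt x y with h | h
  · have h2 := sum_Ioc_inv_sq_le_sub (α := ℝ) (k := x) (n := y) (by omega) h
    have h3 : (0 : ℝ) ≤ ((y : ℝ))⁻¹ := by positivity
    rw [one_div]
    linarith
  · rw [Finset.Ioc_eq_empty (by omega), Finset.sum_empty]
    positivity

end Pool.Agent.LibFB63
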