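import Pool.Agent.LibFB63.N04

/-!
Row N06 (SHORT/MEDIUM): `A ⊆ Q1 ∪ Q2` (disjoint) is `A1 ∪ A2`, `A1 = A ∩ Q1`, `A2 = A ∩ Q2`; `ph A = ph A1 ph A2`, `rr A2 ≤ rr A` (`1 ≤ rr A1`, `Z_one_le_rr`). So `GR (Q1 ∪ Q2) t ≤ ∑_{A1 ⊆ Q1} ∑_{A2 ⊆ Q2, rr A2 ≤ t} 1/(ph A1 ph A2)`
(induction on `Q1` with `Finset.sum_powerset_insert`: `GR (insert p Q) t ≤ (1 + 1/(p-1)) GR Q t` is perhaps the shortest way), `nt_sum_powerset`.
-/

open Finset Filter

namespace Pool.Agent.LibFB63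

open Pool.Agent.LibRG87 Pool.Agent.LibLG5 Pool.Agent.LibPL63 Pool.Agent.LibSC93 Pool.Agent.LibGL22

private theorem N06_insert {p : ℕ} {Q : Finset ℕ} (hp : p.Prime) (hpQ : p ∉ Q) (hQ : ∀ q ∈ Q, Nat.Prime q)
    (t : ℝ) : GR (insert p Q) t ≤ (1 + 1 / ((p : ℝ) - 1)) * GR Q t := by
  classical
  have hp1 : (1 : ℝ) < p := by exact_mod_cast hp.one_lt
  have hGR : ∀ S : Finset ℕ, GR S t = ∑ A ∈ S.powerset, if rr A ≤ t then 1 / ph A else 0 := by
    intro S
    unfold GR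
    rw [Finset.sum_filter]
  rw [hGR, hGR, Finset.sum_powerset_insert hpQ, add_mul, one_mul, Finset.mul_sum]
  refine add_le_add le_rfl (Finset.sum_le_sum fun A hA => ?_)
  have hAQ := Finset.mem_powerset.1 hA
  have hpA : p ∉ A := fun h => hpQ (hAQ h)
  have hAp : ∀ q ∈ A, Nat.Prime q := fun q hq => hQ q (hAQ hq)
  have hph := Z_ph_pos hAp
  have hrr := Z_one_le_rr hAp
  have e1 : rr (insert p A) = p * rr A := by
    unfold rr
    rw [Finset.prod_insert hpA]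
  have e2 : ph (insert p A) = ((p : ℝ) - 1) * ph A := by
    unfold ph
    rw [Finset.prod_insert hpA]
  rw [e1, e2]
  have h0 : (0 : ℝ) < (p : ℝ) - 1 := by linarith
  by_cases h1 : (p : ℝ) * rr A ≤ t
  · have h2 : rr A ≤ t := by nlinarith
    rw [if_pos h1, if_pos h2]
    refine le_of_eq ?_
    rw [one_div, one_div, one_div, mul_inv]
  · rw [if_neg h1]
    by_cases h2 : rr A ≤ t
    · rw [if_pos h2]
      positivity
    · rw [if_neg h2, mul_zero]

theorem GR_union (Q1 Q2 : Finset ℕ) (hd : Disjoint Q1 Q2) (h1 : ∀ p ∈ Q1, Nat.Prime p) (h2 : ∀ p ∈ Q2, Nat.Prime p)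
    (t : ℝ) : GR (Q1 ∪ Q2) t ≤ (∏ p ∈ Q1, (1 + 1 / ((p : ℝ) - 1))) * GR Q2 t := by
  classical
  induction Q1 using Finset.induction_on with
  | empty =>
    rw [Finset.empty_union, Finset.prod_empty, one_mul]
  | insert p Q hpQ ih =>
    rw [Finset.disjoint_insert_left] at hd
    have hp : p.Prime := h1 p (Finset.mem_insert_self p Q)
    have hp1 : (1 : ℝ) < p := by exact_mod_cast hp.one_lt
    have h0 : (0 : ℝ) < (p : ℝ) - 1 := by linarith
    have hQ : ∀ q ∈ Q, Nat.Prime q := fun q hq => h1 q (Finset.mem_insert_of_mem hq)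
    have h3 := ih hd.2 hQ
    have hpU : p ∉ Q ∪ Q2 := by
      rw [Finset.mem_union]
      rintro (h | h)
      · exact hpQ h
      · exact hd.1 h
    have hU : ∀ q ∈ Q ∪ Q2, Nat.Prime q := by
      intro q hq
      rcases Finset.mem_union.1 hq with h | h
      · exact hQ q h
      · exact h2 q h
    rw [Finset.insert_union, Finset.prod_insert hpQ, mul_assoc]
    refine (N06_insert hp hpU hU t).trans ?_
    exact mul_le_mul_of_nonneg_left h3 (by positivity)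

end Pool.Agent.LibFB63
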