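import Pool.Agent.LibFB63.N04

/-!
Row N07 (MEDIUM): growth of `GR` for `Q = PP a b`. `GR t2 - GR t1` is the sum of `1/ph A` over `A ⊆ Q`, `t1 < rr A ≤ t2`. The pairs `(T, p)`, `T ⊆ Q`, `rr T ≤ √t1`, `p ∈ PP ⌊t1/rr T⌋₊ ⌊t2/rr T⌋₊`, give different such sets `insert p T`:
`p > t1/rr T ≥ √t1 ≥ rr T ≥` every element of `T` (product of numbers `≥ 1`), so `p ∉ T` is the maximum of `insert p T`; `p > √t1 ≥ a`, `p ≤ t2 ≤ b`; `rr (insert p T) = p rr T`, `ph (insert p T) = (p - 1) ph T`, `1/(p-1) ≥ 1/p`.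
Inner sum, `x = t1/rr T ≥ √t1 ≥ 2`, `y = t2/rr T ≥ x`: by `hK` it is `≥ log (log y/log x) - K0/log x`, `log (log y/log x) ≥ 1 - log x/log y = log (t2/t1)/log y ≥ log (t2/t1)/log t2`, `K0/log x ≤ K0/log √t1`. Sum over `T` with the constant factor (any sign) pulled out.
-/

open Finset Filter

namespace Pool.Agent.LibFB63

open Pool.Agent.LibRG87 Pool.Agent.LibLG5 Pool.Agent.LibPL63 Pool.Agent.LibSC93 Pool.Agent.LibGL22

theorem GR_growth {K0 : ℝ} (hK0 : 0 ≤ K0) (hK : ∀ x y : ℝ, 2 ≤ x → x ≤ y →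
    |∑ p ∈ PP ⌊x⌋₊ ⌊y⌋₊, 1 / (p : ℝ) - Real.log (Real.log y / Real.log x)| ≤ K0 / Real.log x)
    (a b : ℕ) {t1 t2 : ℝ} (ha : (a : ℝ) ≤ √t1) (h4 : 4 ≤ t1) (h12 : t1 ≤ t2) (hb : t2 ≤ b) :
    GR (PP a b) (√t1) * (Real.log (t2 / t1) / Real.log t2 - K0 / Real.log (√t1)) ≤
      GR (PP a b) t2 - GR (PP a b) t1 := by
  classical
  have hs2 : (2 : ℝ) ≤ √t1 := by
    rw [Real.le_sqrt' (by norm_num)]
    linarith
  have hs0 : 0 < √t1 := by linarith
  have ht0 : 0 < t1 := by linarith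
  have ht20 : 0 < t2 := by linarith
  have hss : √t1 * √t1 = t1 := Real.mul_self_sqrt ht0.le
  have hPP : ∀ {w z p : ℕ}, p ∈ PP w z → Nat.Prime p := fun h => (Finset.mem_filter.1 h).2
  have hPT : ∀ T ∈ (PP a b).powerset, ∀ p ∈ T, Nat.Prime p := fun T hT p hp =>
    hPP (Finset.mem_powerset.1 hT hp)
  have hrr1 : ∀ T : Finset ℕ, (∀ p ∈ T, Nat.Prime p) → 1 ≤ rr T := fun T hT =>
    Finset.prod_induction _ (fun x : ℝ => 1 ≤ x) (fun x y hx hy => by nlinarith) le_rfl
      (fun p hp => by exact_mod_cast (hT p hp).one_lt.le)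
  have hph0 : ∀ T : Finset ℕ, (∀ p ∈ T, Nat.Prime p) → 0 < ph T := fun T hT =>
    Finset.prod_pos (fun p hp => by
      have : (1 : ℝ) < p := by exact_mod_cast (hT p hp).one_lt
      linarith)
  have hler : ∀ T : Finset ℕ, (∀ p ∈ T, Nat.Prime p) → ∀ q ∈ T, (q : ℝ) ≤ rr T := by
    intro T hT q hq
    have h1 : rr T = q * rr (T.erase q) := (Finset.mul_prod_erase T (fun p : ℕ => (p : ℝ)) hq).symm
    rw [h1]
    have h2 := hrr1 (T.erase q) (fun p hp => hT p (Finset.mem_of_mem_erase hp))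
    have h3 : (0 : ℝ) ≤ q := Nat.cast_nonneg q
    nlinarith
  -- facts about the pairs
  have key : ∀ T ∈ (PP a b).powerset.filter (fun T => rr T ≤ √t1), ∀ p ∈ PP ⌊t1 / rr T⌋₊ ⌊t2 / rr T⌋₊,
      p ∉ T ∧ (∀ q ∈ T, q < p) ∧ p ∈ PP a b ∧ t1 < p * rr T ∧ p * rr T ≤ t2 := by
    intro T hT p hp
    rw [Finset.mem_filter] at hT
    have hTp := hPT T hT.1
    have h1 := hrr1 T hTp
    have h0 : 0 < rr T := by linarith
    have hpp : Nat.Prime p := hPP hp
    have hp2 := (Finset.mem_Ioc.1 (Finset.mem_filter.1 hp).1)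
    have h2 : t1 / rr T < p := (Nat.floor_lt (by positivity)).1 hp2.1
    have h3 : (p : ℝ) ≤ t2 / rr T := (Nat.le_floor_iff (by positivity)).1 hp2.2
    have h4 : √t1 ≤ t1 / rr T := by
      rw [le_div_iff₀ h0]
      nlinarith [hT.2]
    have h5 : ∀ q ∈ T, q < p := by
      intro q hq
      have h6 := hler T hTp q hq
      have h7 : (q : ℝ) < p := by linarith [hT.2]
      exact_mod_cast h7
    refine ⟨fun h => lt_irrefl _ (h5 p h), h5, ?_, ?_, ?_⟩
    · refine Finset.mem_filter.2 ⟨Finset.mem_Ioc.2 ⟨?_, ?_⟩, hpp⟩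
      · have : (a : ℝ) < p := by linarith
        exact_mod_cast this
      · have h8 : t2 / rr T ≤ t2 := div_le_self ht20.le h1
        have : (p : ℝ) ≤ b := by linarith
        exact_mod_cast this
    · rw [div_lt_iff₀ h0] at h2
      exact h2
    · rw [le_div_iff₀ h0] at h3
      exact h3
  have hph_ins : ∀ T ∈ (PP a b).powerset.filter (fun T => rr T ≤ √t1),
      ∀ p ∈ PP ⌊t1 / rr T⌋₊ ⌊t2 / rr T⌋₊, ph (insert p T) = ((p : ℝ) - 1) * ph T := fun T hT p hp =>
    Finset.prod_insert (key T hT p hp).1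
  have hrr_ins : ∀ T ∈ (PP a b).powerset.filter (fun T => rr T ≤ √t1),
      ∀ p ∈ PP ⌊t1 / rr T⌋₊ ⌊t2 / rr T⌋₊, rr (insert p T) = (p : ℝ) * rr T := fun T hT p hp =>
    Finset.prod_insert (key T hT p hp).1
  -- the difference is the sum over `t1 < rr A ≤ t2`
  have hdiff : GR (PP a b) t2 - GR (PP a b) t1 =
      ∑ A ∈ (PP a b).powerset.filter (fun A => t1 < rr A ∧ rr A ≤ t2), 1 / ph A := by
    have h1 : GR (PP a b) t2 = ∑ A ∈ (PP a b).powerset.filter (fun A => rr A ≤ t2), 1 / ph A := by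
      unfold GR
      exact Finset.sum_congr (by ext A; simp) (fun _ _ => rfl)
    have h2 : GR (PP a b) t1 = ∑ A ∈ (PP a b).powerset.filter (fun A => rr A ≤ t1), 1 / ph A := by
      unfold GR
      exact Finset.sum_congr (by ext A; simp) (fun _ _ => rfl)
    rw [h1, h2, sub_eq_iff_eq_add, ← Finset.sum_union]
    · refine Finset.sum_congr ?_ (fun _ _ => rfl)
      ext A
      simp only [Finset.mem_union, Finset.mem_filter]
      constructor
      · rintro ⟨hA, h3⟩
        rcases le_or_gt (rr A) t1 with h4 | h4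
        · exact Or.inr ⟨hA, h4⟩
        · exact Or.inl ⟨hA, h4, h3⟩
      · rintro (⟨hA, _, h3⟩ | ⟨hA, h3⟩)
        · exact ⟨hA, h3⟩
        · exact ⟨hA, h3.trans h12⟩
    · rw [Finset.disjoint_left]
      intro A h3 h4
      rw [Finset.mem_filter] at h3 h4
      exact absurd h4.2 (not_le.2 h3.2.1)
  rw [hdiff]
  -- the sum over the pairs
  have hpairs : ∑ x ∈ ((PP a b).powerset.filter (fun T => rr T ≤ √t1)).sigma
      (fun T => PP ⌊t1 / rr T⌋₊ ⌊t2 / rr T⌋₊), 1 / ph (insert x.2 x.1) ≤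
      ∑ A ∈ (PP a b).powerset.filter (fun A => t1 < rr A ∧ rr A ≤ t2), 1 / ph A := by
    have hinj : Set.InjOn (fun x : (_ : Finset ℕ) × ℕ => insert x.2 x.1)
        (((PP a b).powerset.filter (fun T => rr T ≤ √t1)).sigma
          (fun T => PP ⌊t1 / rr T⌋₊ ⌊t2 / rr T⌋₊) : Set ((_ : Finset ℕ) × ℕ)) := by
      rintro ⟨T, p⟩ hx ⟨T', p'⟩ hx' hxx
      simp only [Finset.mem_coe, Finset.mem_sigma] at hx hx'
      simp only at hxx
      have k1 := key T hx.1 p hx.2
      have k2 := key T' hx'.1 p' hx'.2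
      have h1 : p ≤ p' := by
        have h2 : p ∈ insert p' T' := by
          rw [← hxx]
          exact Finset.mem_insert_self _ _
        rcases Finset.mem_insert.1 h2 with h3 | h3
        · exact h3.le
        · exact (k2.2.1 p h3).le
      have h1' : p' ≤ p := by
        have h2 : p' ∈ insert p T := by
          rw [hxx]
          exact Finset.mem_insert_self _ _
        rcases Finset.mem_insert.1 h2 with h3 | h3
        · exact h3.le
        · exact (k1.2.1 p' h3).le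
      have h4 : p = p' := le_antisymm h1 h1'
      subst h4
      have h5 : T = T' := by
        rw [← Finset.erase_insert k1.1, hxx, Finset.erase_insert k2.1]
      subst h5
      rfl
    rw [← Finset.sum_image (f := fun A => 1 / ph A) hinj]
    refine Finset.sum_le_sum_of_subset_of_nonneg ?_ ?_
    · intro A hA
      rw [Finset.mem_image] at hA
      obtain ⟨⟨T, p⟩, hx, rfl⟩ := hA
      rw [Finset.mem_sigma] at hx
      have k1 := key T hx.1 p hx.2
      rw [Finset.mem_filter]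
      refine ⟨?_, ?_⟩
      · rw [Finset.mem_powerset]
        exact Finset.insert_subset k1.2.2.1 (Finset.mem_powerset.1 (Finset.mem_filter.1 hx.1).1)
      · show t1 < rr (insert p T) ∧ rr (insert p T) ≤ t2
        rw [hrr_ins T hx.1 p hx.2]
        exact k1.2.2.2
    · intro A hA _
      have h1 := hph0 A (hPT A (Finset.mem_filter.1 hA).1)
      positivity
  refine le_trans ?_ hpairs
  rw [Finset.sum_sigma]
  have hGR : GR (PP a b) (√t1) =
      ∑ A ∈ (PP a b).powerset.filter (fun A => rr A ≤ √t1), 1 / ph A := by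
    unfold GR
    exact Finset.sum_congr (by ext A; simp) (fun _ _ => rfl)
  rw [hGR, Finset.sum_mul]
  refine Finset.sum_le_sum fun T hT => ?_
  have hTf := Finset.mem_filter.1 hT
  have hTp := hPT T hTf.1
  have h1 := hrr1 T hTp
  have h0 : 0 < rr T := by linarith
  have hphT := hph0 T hTp
  have hin : ∑ p ∈ PP ⌊t1 / rr T⌋₊ ⌊t2 / rr T⌋₊, 1 / ph (insert p T) =
      1 / ph T * ∑ p ∈ PP ⌊t1 / rr T⌋₊ ⌊t2 / rr T⌋₊, 1 / ((p : ℝ) - 1) := by
    rw [Finset.mul_sum]
    refine Finset.sum_congr rfl fun p hp => ?_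
    rw [hph_ins T hT p hp]
    have hp1 : (1 : ℝ) < p := by exact_mod_cast (hPP hp).one_lt
    have hp0 : (p : ℝ) - 1 ≠ 0 := by linarith
    field_simp
  show _ ≤ ∑ p ∈ PP ⌊t1 / rr T⌋₊ ⌊t2 / rr T⌋₊, 1 / ph (insert p T)
  rw [hin]
  refine mul_le_mul_of_nonneg_left ?_ (by positivity)
  have hle1 : ∑ p ∈ PP ⌊t1 / rr T⌋₊ ⌊t2 / rr T⌋₊, 1 / (p : ℝ) ≤
      ∑ p ∈ PP ⌊t1 / rr T⌋₊ ⌊t2 / rr T⌋₊, 1 / ((p : ℝ) - 1) := by
    refine Finset.sum_le_sum fun p hp => ?_
    have hp1 : (1 : ℝ) < p := by exact_mod_cast (hPP hp).one_lt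
    exact one_div_le_one_div_of_le (by linarith) (by linarith)
  refine le_trans ?_ hle1
  have hx1 : √t1 ≤ t1 / rr T := by
    rw [le_div_iff₀ h0]
    nlinarith [hTf.2]
  have hxy : t1 / rr T ≤ t2 / rr T := by
    gcongr
  have hy2 : t2 / rr T ≤ t2 := div_le_self ht20.le h1
  have hab := (abs_le.1 (hK (t1 / rr T) (t2 / rr T) (hs2.trans hx1) hxy)).1
  have hlx : 0 < Real.log (t1 / rr T) := Real.log_pos (by linarith)
  have hly : 0 < Real.log (t2 / rr T) := Real.log_pos (by linarith)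
  have hls : 0 < Real.log (√t1) := Real.log_pos (by linarith)
  have h2 : K0 / Real.log (t1 / rr T) ≤ K0 / Real.log (√t1) :=
    div_le_div_of_nonneg_left hK0 hls (Real.log_le_log hs0 hx1)
  have h3 : Real.log (t2 / t1) / Real.log t2 ≤ Real.log (Real.log (t2 / rr T) / Real.log (t1 / rr T)) := by
    have h4 := Real.one_sub_inv_le_log_of_pos (div_pos hly hlx)
    refine le_trans ?_ h4
    have h5 : 1 - (Real.log (t2 / rr T) / Real.log (t1 / rr T))⁻¹ =
        Real.log (t2 / t1) / Real.log (t2 / rr T) := by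
      rw [inv_div, eq_div_iff hly.ne', sub_mul, div_mul_cancel₀ _ hly.ne', one_mul,
        Real.log_div ht20.ne' h0.ne', Real.log_div ht0.ne' h0.ne', Real.log_div ht20.ne' ht0.ne']
      ring
    rw [h5]
    refine div_le_div_of_nonneg_left ?_ hly (Real.log_le_log (by positivity) hy2)
    exact Real.log_nonneg ((one_le_div ht0).2 h12)
  linarith

end Pool.Agent.LibFB63
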