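import Pool.Agent.LibFB63.N00
import Pool.Agent.LibLG5.NT

/-!
Row N08 (MEDIUM): pigeonhole over the level. Exchange the sums over `j` and `A` in `∑_{j ∈ Ioc J (J+r)} tl Q z j q`: a set `A ⊆ Q.erase q` contributes `1/ph A` for every `j` with `z^j < q rr A`, `rr A ≤ z^j`, i.e. `log (rr A) ≤ j log z < log (rr A) + log q`:
at most `log q/log z + 1` values of `j` (integers in `[x, x + y)`: at most `y + 1`; e.g. the naturals `j` with `x ≤ j < x + y` lie in `Ico ⌈x⌉₊ (⌈x⌉₊ + ⌈y⌉₊)`, or `Ico ⌈x⌉₊ ⌈x+y⌉₊` has `≤ y + 1` elements as `⌈x+y⌉₊ < x + y + 1`, `⌈x⌉₊ ≥ x`),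
and none unless `rr A ≤ z^(J+r)` (`A` is a subset of `Q`, so the sum of these `1/ph A` is `≤ Gn Q z (J+r)`).
-/

open Finset Filter

namespace Pool.Agent.LibFB63

open Pool.Agent.LibRG87 Pool.Agent.LibLG5 Pool.Agent.LibPL63 Pool.Agent.LibSC93 Pool.Agent.LibGL22

private theorem N08_ph_pos {Q : Finset ℕ} (hQ : ∀ p ∈ Q, Nat.Prime p) {A : Finset ℕ} (hA : A ⊆ Q) :
    0 < ph A := by
  refine Finset.prod_pos fun p hp => ?_
  have h1 : (2 : ℝ) ≤ p := by exact_mod_cast (hQ p (hA hp)).two_le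
  linarith

private theorem N08_rr {Q : Finset ℕ} (hQ : ∀ p ∈ Q, Nat.Prime p) {A : Finset ℕ} (hA : A ⊆ Q) :
    1 ≤ rr A := by
  calc (1 : ℝ) = ∏ _p ∈ A, (1 : ℝ) := by simp
    _ ≤ ∏ p ∈ A, (p : ℝ) := Finset.prod_le_prod (fun _ _ => zero_le_one)
        (fun p hp => by exact_mod_cast (hQ p (hA hp)).one_le)

private theorem N08_card {z : ℕ} (hz : 2 ≤ z) {x : ℝ} (hx : 1 ≤ x) {q : ℕ} (hq : 1 ≤ q)
    (S : Finset ℕ) (hS : ∀ j ∈ S, (z : ℝ) ^ j < x * q ∧ x ≤ (z : ℝ) ^ j) :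
    (S.card : ℝ) ≤ Real.log q / Real.log z + 1 := by
  have hlz : 0 < Real.log z := Real.log_pos (by exact_mod_cast hz)
  have hz0 : (0 : ℝ) < z := by exact_mod_cast (by omega : 0 < z)
  have hq0 : (0 : ℝ) < q := by exact_mod_cast hq
  have hx0 : 0 < x := by linarith
  set X := Real.log x / Real.log z with hX
  set y := Real.log q / Real.log z with hy
  have hX0 : 0 ≤ X := div_nonneg (Real.log_nonneg hx) hlz.le
  have hy0 : 0 ≤ y := div_nonneg (Real.log_natCast_nonneg q) hlz.le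
  have hsub : S ⊆ Finset.Ico ⌈X⌉₊ ⌈X + y⌉₊ := by
    intro j hj
    obtain ⟨h1, h2⟩ := hS j hj
    rw [Finset.mem_Ico]
    have e1 : Real.log ((z : ℝ) ^ j) = j * Real.log z := Real.log_pow _ _
    constructor
    · rw [Nat.ceil_le, hX, div_le_iff₀ hlz, ← e1]
      exact Real.log_le_log hx0 h2
    · rw [Nat.lt_ceil, hX, hy, ← add_div, lt_div_iff₀ hlz, ← e1, ← Real.log_mul hx0.ne' hq0.ne']
      exact Real.log_lt_log (pow_pos hz0 j) h1
  have h1 := Finset.card_le_card hsub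
  rw [Nat.card_Ico] at h1
  have h2 : (S.card : ℝ) ≤ ((⌈X + y⌉₊ - ⌈X⌉₊ : ℕ) : ℝ) := by exact_mod_cast h1
  rw [Nat.cast_sub (Nat.ceil_mono (by linarith))] at h2
  have h3 := Nat.ceil_lt_add_one (add_nonneg hX0 hy0)
  have h4 := Nat.le_ceil X
  linarith

theorem tl_avg1 (Q : Finset ℕ) (hQ : ∀ p ∈ Q, Nat.Prime p) {z : ℕ} (hz : 2 ≤ z) (J r : ℕ) {q : ℕ} (hq : 1 ≤ q) :
    ∑ j ∈ Ioc J (J + r), tl Q z j q ≤ (Real.log q / Real.log z + 1) * Gn Q z (J + r) := by
  classical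
  have hz1 : (1 : ℝ) ≤ z := by exact_mod_cast (by omega : 1 ≤ z)
  have hlz : 0 < Real.log z := Real.log_pos (by exact_mod_cast hz)
  have hy0 : 0 ≤ Real.log q / Real.log z := div_nonneg (Real.log_natCast_nonneg q) hlz.le
  have key : ∀ A ∈ (Q.erase q).powerset,
      ∑ j ∈ Ioc J (J + r), (if ((z : ℝ) ^ j < rr A * q ∧ rr A ≤ (z : ℝ) ^ j) then 1 / ph A else 0) ≤
        (if rr A ≤ (z : ℝ) ^ (J + r) then (Real.log q / Real.log z + 1) * (1 / ph A) else 0) := by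
    intro A hA
    have hAQ : A ⊆ Q := (Finset.mem_powerset.1 hA).trans (Finset.erase_subset _ _)
    rw [← Finset.sum_filter, Finset.sum_const, nsmul_eq_mul]
    split_ifs with h
    · refine mul_le_mul_of_nonneg_right ?_ (one_div_nonneg.2 (N08_ph_pos hQ hAQ).le)
      exact N08_card hz (N08_rr hQ hAQ) hq _ fun j hj => (Finset.mem_filter.1 hj).2
    · have h1 : (Ioc J (J + r)).filter
          (fun j => (z : ℝ) ^ j < rr A * q ∧ rr A ≤ (z : ℝ) ^ j) = ∅ := by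
        refine Finset.filter_eq_empty_iff.2 fun {j} hj h2 => h (h2.2.trans ?_)
        exact pow_le_pow_right₀ hz1 (Finset.mem_Ioc.1 hj).2
      rw [h1, Finset.card_empty, Nat.cast_zero, zero_mul]
  unfold tl Gn
  simp_rw [Finset.sum_filter]
  rw [Finset.sum_comm]
  calc _ ≤ ∑ A ∈ (Q.erase q).powerset,
        (if rr A ≤ (z : ℝ) ^ (J + r) then (Real.log q / Real.log z + 1) * (1 / ph A) else 0) :=
        Finset.sum_le_sum key
    _ ≤ ∑ A ∈ Q.powerset,
        (if rr A ≤ (z : ℝ) ^ (J + r) then (Real.log q / Real.log z + 1) * (1 / ph A) else 0) := by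
        refine Finset.sum_le_sum_of_subset_of_nonneg (Finset.powerset_mono.2 (Finset.erase_subset _ _)) ?_
        intro A hA _
        split_ifs
        · exact mul_nonneg (by linarith)
            (one_div_nonneg.2 (N08_ph_pos hQ (Finset.mem_powerset.1 hA)).le)
        · exact le_refl 0
    _ = (Real.log q / Real.log z + 1) * ∑ A ∈ Q.powerset,
        (if rr A ≤ (z : ℝ) ^ (J + r) then 1 / ph A else 0) := by
        rw [Finset.mul_sum]
        refine Finset.sum_congr rfl fun A _ => ?_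
        rw [mul_ite, mul_zero]

/-- the tails are nonnegative -/
theorem tl_nonneg (Q : Finset ℕ) (hQ : ∀ p ∈ Q, Nat.Prime p) (z j q : ℕ) : 0 ≤ tl Q z j q := by
  unfold tl
  refine Finset.sum_nonneg fun A hA => ?_
  have hAQ : A ⊆ Q :=
    (Finset.mem_powerset.1 (Finset.mem_filter.1 hA).1).trans (Finset.erase_subset _ _)
  exact one_div_nonneg.2 (N08_ph_pos hQ hAQ).le

end Pool.Agent.LibFB63
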