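import Pool.Agent.LibFB63.N00
import Pool.Agent.LibGL22.B1

/-!
Row N09 (SHORT/MEDIUM): the exponents. `LibGL22.prm_le hv.pg` gives `1 ≤ q0`, `1 ≤ u`, `q0 a^I ≤ u`; `2 ≤ a` is `hv.pg.sums.1`. `g j0 = k1` etc.: `g * (M/g * u) = M u` (`Nat.mul_div_cancel'`). `hδ3`: `Cx g2 ≤ δ g3`, `δ ≤ 1/8`, `1 ≤ Cx`: `8 g2 ≤ g3`.
`hM80 : 100 (g + g3) ≤ M`: `M/g3 ≥ 100`. The last inequalities follow by cancelling `g`, `g2`, `g3` (nonlinear: `8 g2 l2 ≤ g3 l2 = g2 dl`).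
-/

open Finset Filter

namespace Pool.Agent.LibFB63

open Pool.Agent.LibRG87 Pool.Agent.LibLG5 Pool.Agent.LibPL63 Pool.Agent.LibSC93 Pool.Agent.LibGL22

variable {R : Prm} {C Cq Cm : ℕ} {c cD Λ δ : ℝ} {Cx g g2 g3 : ℕ} {ε : ℝ}

/-- the exponents -/
theorem exps (hv : ParV R C Cq Cm c cD Λ δ Cx g g2 g3 ε) :
    1 ≤ R.u ∧ 1 ≤ l1 R ∧ l1 R ≤ R.u ∧ 100 * R.u ≤ l2 R g3 ∧ g * j0 R g = R.k1 ∧ g2 * dl R g2 = R.k1 ∧
      g3 * l2 R g3 = R.k1 ∧ 8 * jr R = R.k1 ∧ R.q = 4 * R.k1 ∧ 1 ≤ g ∧ 4 * g ≤ g2 ∧ 8 * g2 ≤ g3 := by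
  obtain ⟨hq0, _, hu, _, hl, _⟩ := prm_le hv.pg
  have ha : 2 ≤ R.a := hv.pg.sums.1
  have hg : 1 ≤ g := hv.hCx.trans hv.hCx1
  have hg2 : 1 ≤ g2 := by have := hv.hg2; omega
  have h8 : 8 * g2 ≤ g3 := by
    have h1 := hv.hδ3
    have h2 : (1 : ℝ) ≤ Cx := by exact_mod_cast hv.hCx
    have h3 := hv.pg.hδ1
    have h4 : (0 : ℝ) ≤ g3 := Nat.cast_nonneg _
    have h5 : (0 : ℝ) ≤ g2 := Nat.cast_nonneg _
    have h6 : (1 : ℝ) * g2 ≤ Cx * g2 := mul_le_mul_of_nonneg_right h2 h5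
    have h7 : δ * g3 ≤ 1 / 8 * g3 := mul_le_mul_of_nonneg_right h3 h4
    have h8 : (8 : ℝ) * g2 ≤ g3 := by linarith
    exact_mod_cast h8
  have key : ∀ x : ℕ, x ∣ R.M → x * (R.M / x * R.u) = R.k1 := by
    intro x hx
    show x * (R.M / x * R.u) = R.M * R.u
    rw [← mul_assoc, Nat.mul_div_cancel' hx]
  refine ⟨hu, ?_, hl, ?_, key g hv.hMg, key g2 hv.hMg2, key g3 hv.hMg3, key 8 hv.hM8, ?_, hg, hv.hg2,
    h8⟩
  · exact Nat.mul_pos hq0 (Nat.pow_pos (by omega))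
  · have h1 : 100 ≤ R.M / g3 := by
      rw [Nat.le_div_iff_mul_le (by omega)]
      have := hv.hM80
      omega
    exact Nat.mul_le_mul_right _ h1
  · show 4 * R.M * R.u = 4 * (R.M * R.u)
    ring

/-- order of the exponents -/
theorem exps' (hv : ParV R C Cq Cm c cD Λ δ Cx g g2 g3 ε) :
    8 * l2 R g3 ≤ dl R g2 ∧ 4 * dl R g2 ≤ j0 R g ∧ Cx * j0 R g ≤ R.k1 ∧ 100 * R.u ≤ j0 R g ∧ Cx * R.u ≤ R.k1 := by
  obtain ⟨_, _, _, _, h5, h6, h7, _, _, hg, hg2, hg3⟩ := exps hv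
  refine ⟨?_, ?_, ?_, ?_, ?_⟩
  · have h8 : g2 * (8 * l2 R g3) ≤ g2 * dl R g2 := by
      rw [h6, ← h7, mul_left_comm, ← mul_assoc]
      exact Nat.mul_le_mul_right _ hg3
    exact Nat.le_of_mul_le_mul_left h8 (by omega)
  · have h8 : g * (4 * dl R g2) ≤ g * j0 R g := by
      rw [h5, ← h6, mul_left_comm, ← mul_assoc]
      exact Nat.mul_le_mul_right _ hg2
    exact Nat.le_of_mul_le_mul_left h8 (by omega)
  · rw [← h5]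
    exact Nat.mul_le_mul_right _ hv.hCx1
  · have h1 : 100 ≤ R.M / g := by
      rw [Nat.le_div_iff_mul_le (by omega)]
      have := hv.hM80
      omega
    exact Nat.mul_le_mul_right _ h1
  · have h1 : Cx ≤ R.M := by
      have := hv.hM80
      have := hv.hCx1
      omega
    exact Nat.mul_le_mul_right _ h1

end Pool.Agent.LibFB63
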