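import Pool.Agent.LibFB63.N02
import Pool.Agent.LibFB63.N03
import Pool.Agent.LibFB63.N05
import Pool.Agent.LibFB63.N06
import Pool.Agent.LibFB63.N10

/-!
Row N11 (MEDIUM): the Selberg sum of `Pb`. `C1` from `prod_bounds` (N03), `C2 = 16 C1`. Upper bound: `sets`, `prod_bounds` with `l = l1`, `k = k1`. Lower bound: `Q' = PP (z^l1) (z^jr) ⊆ Pb` (`8 jr = k1`, `l1 ≤ jr`); `logsum_le`: `∑_{Q'} log p/(p-1) ≤ (1 + 1/z)(jr log z + 2) ≤ 2 jr log z` for large `z`,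
`log (z^κ) = κ log z ≥ 4 jr log z`, so `GR_markov` and `GR_subset`: `Gn Pb z κ ≥ GR Q' (z^κ) ≥ (1/2) ∏_{Q'} ≥ (1/2) jr/(C1 l1) = k1/(16 C1 l1)`. The set facts need `2 ≤ z`, `20 ≤ Cx`.
-/

open Finset Filter

namespace Pool.Agent.LibFB63

open Pool.Agent.LibRG87 Pool.Agent.LibLG5 Pool.Agent.LibPL63 Pool.Agent.LibSC93 Pool.Agent.LibGL22

theorem Gn_Pb : ∃ C2 : ℕ, 1 ≤ C2 ∧ ∀ (R : Prm) (C Cq Cm : ℕ) (c cD Λ δ : ℝ) (Cx g g2 g3 : ℕ) (ε : ℝ), 20 ≤ Cx →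
    ParV R C Cq Cm c cD Λ δ Cx g g2 g3 ε → ∀ᶠ z : ℕ in atTop, ∀ p1 : ℕ, p1.Prime → z ^ (R.q + 2) < p1 →
    ∏ p ∈ Pb R z p1, (1 + 1 / ((p : ℝ) - 1)) ≤ C2 * ((R.k1 : ℝ) / l1 R) ∧
      ∀ κ : ℕ, R.k1 ≤ 2 * κ → (R.k1 : ℝ) / l1 R ≤ C2 * Gn (Pb R z p1) z κ := by
  obtain ⟨C1, hC1, hb⟩ := prod_bounds
  refine ⟨16 * C1, by omega, ?_⟩
  intro R C Cq Cm c cD Λ δ Cx g g2 g3 ε h20 hv
  filter_upwards [eventually_ge_atTop 2,
    (Real.tendsto_log_atTop.comp tendsto_natCast_atTop_atTop).eventually_ge_atTop 6] with z hz hlog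
  intro p1 _ hp1
  have hlog' : 6 ≤ Real.log (z : ℝ) := hlog
  obtain ⟨e1, e2, e3, e4, e5, e6, e7, e8, e9, e10, e11, e12⟩ := exps hv
  obtain ⟨f1, f2, f3, f4, f5⟩ := exps' hv
  obtain ⟨_, _, hPb, _⟩ := sets hv h20 hz hp1
  have hCu : 20 * R.u ≤ R.k1 := (Nat.mul_le_mul_right _ h20).trans f5
  have hl1k : l1 R ≤ R.k1 := by omega
  have hl1j : l1 R ≤ jr R := by omega
  have hjr1 : 1 ≤ jr R := by omega
  have hl1R : (0 : ℝ) < (l1 R : ℝ) := by exact_mod_cast e2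
  have hC1R : (1 : ℝ) ≤ (C1 : ℝ) := by exact_mod_cast hC1
  have hprime : ∀ w N : ℕ, ∀ p ∈ PP w N, Nat.Prime p := fun w N p hp => (nt_mem.mp hp).2.2
  rw [hPb]
  constructor
  · refine (hb z (l1 R) R.k1 hz e2 hl1k).1.trans ?_
    have h1 : (0 : ℝ) ≤ (R.k1 : ℝ) / l1 R := by positivity
    refine mul_le_mul_of_nonneg_right ?_ h1
    push_cast
    linarith
  · intro κ hκ
    have hsub : PP (z ^ l1 R) (z ^ jr R) ⊆ PP (z ^ l1 R) (z ^ R.k1) := by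
      intro p hp
      rw [nt_mem] at hp ⊢
      exact ⟨hp.1, hp.2.1.trans (Nat.pow_le_pow_right (by omega) (by omega)), hp.2.2⟩
    have hzR : (2 : ℝ) ≤ (z : ℝ) := by exact_mod_cast hz
    have hw1 : 1 ≤ z ^ l1 R := Nat.one_le_pow _ _ (by omega)
    have hN1 : 1 ≤ z ^ jr R := Nat.one_le_pow _ _ (by omega)
    have hw2 : (2 : ℝ) ≤ ((z ^ l1 R : ℕ) : ℝ) := by
      have : z ≤ z ^ l1 R := Nat.le_self_pow (by omega) z
      exact_mod_cast hz.trans this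
    have hlogsum := logsum_le hw1 hN1
    have hlogN : Real.log ((z ^ jr R : ℕ) : ℝ) = (jr R : ℝ) * Real.log z := by
      push_cast
      rw [Real.log_pow]
    rw [hlogN] at hlogsum
    have hjrR : (1 : ℝ) ≤ (jr R : ℝ) := by exact_mod_cast hjr1
    have hL : 6 ≤ (jr R : ℝ) * Real.log z := by nlinarith
    have hw3 : 1 / ((z ^ l1 R : ℕ) : ℝ) ≤ 1 / 2 := one_div_le_one_div_of_le (by norm_num) hw2
    have hS : ∑ p ∈ PP (z ^ l1 R) (z ^ jr R), 1 / ((p : ℝ) - 1) * Real.log p ≤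
        2 * ((jr R : ℝ) * Real.log z) := by
      refine hlogsum.trans ?_
      have h1 : (1 + 1 / ((z ^ l1 R : ℕ) : ℝ)) * ((jr R : ℝ) * Real.log z + 2) ≤
          (1 + 1 / 2) * ((jr R : ℝ) * Real.log z + 2) :=
        mul_le_mul_of_nonneg_right (by linarith) (by linarith)
      refine h1.trans ?_
      linarith
    have hκ4 : 4 * jr R ≤ κ := by omega
    have ht : (1 : ℝ) < (z : ℝ) ^ κ := one_lt_pow₀ (by linarith) (by omega)
    have hlogt : Real.log ((z : ℝ) ^ κ) = (κ : ℝ) * Real.log z := Real.log_pow _ _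
    have hlt : 4 * ((jr R : ℝ) * Real.log z) ≤ Real.log ((z : ℝ) ^ κ) := by
      rw [hlogt]
      have h1 : 4 * (jr R : ℝ) ≤ (κ : ℝ) := by exact_mod_cast hκ4
      have h2 := mul_le_mul_of_nonneg_right h1 (show (0 : ℝ) ≤ Real.log z by linarith)
      linarith
    have hmk := GR_markov (PP (z ^ l1 R) (z ^ jr R)) (hprime _ _) ht
    set Pi0 : ℝ := ∏ p ∈ PP (z ^ l1 R) (z ^ jr R), (1 + 1 / ((p : ℝ) - 1)) with hPi
    have hlow := (hb z (l1 R) (jr R) hz e2 hl1j).2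
    rw [← hPi] at hlow
    have hratio : (0 : ℝ) < (jr R : ℝ) / l1 R := by positivity
    have hPi0 : 0 < Pi0 := by
      have h1 : 0 < (C1 : ℝ) * Pi0 := hratio.trans_le hlow
      exact pos_of_mul_pos_right h1 (by linarith)
    have hfrac : (∑ p ∈ PP (z ^ l1 R) (z ^ jr R), 1 / ((p : ℝ) - 1) * Real.log p) /
        Real.log ((z : ℝ) ^ κ) ≤ 1 / 2 := by
      rw [div_le_iff₀ (by linarith)]
      linarith
    have hhalf : (1 / 2) * Pi0 ≤ GR (PP (z ^ l1 R) (z ^ jr R)) ((z : ℝ) ^ κ) := by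
      refine le_trans ?_ hmk
      exact mul_le_mul_of_nonneg_right (by linarith) hPi0.le
    have hG := hhalf.trans (GR_subset hsub (hprime _ _) ((z : ℝ) ^ κ))
    rw [Gn_eq_GR]
    have hk : (R.k1 : ℝ) = 8 * (jr R : ℝ) := by
      rw [← e8]
      push_cast
      ring
    rw [hk]
    have h8 : 8 * (jr R : ℝ) / l1 R = 8 * ((jr R : ℝ) / l1 R) := by ring
    rw [h8]
    push_cast
    have h9 : 16 * (C1 : ℝ) * ((1 / 2) * Pi0) ≤
        16 * (C1 : ℝ) * GR (PP (z ^ l1 R) (z ^ R.k1)) ((z : ℝ) ^ κ) :=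
      mul_le_mul_of_nonneg_left hG (by linarith)
    linarith

end Pool.Agent.LibFB63
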