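import Pool.Agent.LibFB63.N08
import Pool.Agent.LibFB63.N11

/-!
Row N13 (MEDIUM): choice of `κ`. `J = k1 - 10 u - dl` (a natural number: `exps'`), `r = dl`, `S = P2 \ Ps = PP (z^l1) (z^l2)`. `tl_avg1` summed over `q ∈ S` with weights `1/(q-1)`: `∑_{κ ∈ Ioc J (J+dl)} ∑_q tl/(q-1) ≤ (∑_q (1/(q-1)) (log q/log z + 1)) Gn Pb z (J+dl)`; `log q/log z ≥ 1`, so by `logsum_le` the bracket is
`≤ 2 (1 + 1/z)(l2 log z + 2)/log z ≤ 3 l2` for large `z`; `Gn Pb z (J+dl) ≤ ∏_{Pb} ≤ C2 k1/l1` (`GR_le`), and `k1/l1 ≤ C2 Gn Pb z κ` for every `κ` in the range (`2 κ ≥ k1`). If (br1) failed for every `κ`: `δ dl k1/(C2 l1) < 3 l2 C2 k1/l1`, i.e. `δ dl < 3 C2² l2`; but `g3 l2 = g2 dl = k1`, `Cx g2 ≤ δ g3`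
give `Cx l2 ≤ δ dl`: contradiction for `Cx ≥ 3 C2²` (use e.g. `Finset.exists_le_of_sum_le` / `Finset.exists_lt_of_sum_lt`).
-/

open Finset Filter

namespace Pool.Agent.LibFB63

open Pool.Agent.LibRG87 Pool.Agent.LibLG5 Pool.Agent.LibPL63 Pool.Agent.LibSC93 Pool.Agent.LibGL22

private theorem n13_log {z l1 l2 : ℕ} (hz8 : 8 ≤ z) (hlog : (16 : ℝ) ≤ Real.log z) (hl1 : 1 ≤ l1) (hl2 : 1 ≤ l2) :
    ∑ q ∈ PP (z ^ l1) (z ^ l2), 1 / ((q : ℝ) - 1) * (Real.log q / Real.log z + 1) ≤ 3 * (l2 : ℝ) := by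
  have hL0 : (0 : ℝ) < Real.log z := by linarith
  have hz1 : (1 : ℕ) ≤ z := by omega
  have hzl : z ≤ z ^ l1 := by
    calc z = z ^ 1 := (pow_one z).symm
      _ ≤ z ^ l1 := Nat.pow_le_pow_right hz1 hl1
  have hzr : (8 : ℝ) ≤ z := by exact_mod_cast hz8
  have hzlr : (8 : ℝ) ≤ ((z ^ l1 : ℕ) : ℝ) := by exact_mod_cast hz8.trans hzl
  have h1 : ∑ q ∈ PP (z ^ l1) (z ^ l2), 1 / ((q : ℝ) - 1) * (Real.log q / Real.log z + 1) ≤
      ∑ q ∈ PP (z ^ l1) (z ^ l2), 2 / Real.log z * (1 / ((q : ℝ) - 1) * Real.log q) := by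
    refine Finset.sum_le_sum fun q hq => ?_
    have hq1 : z ^ l1 < q := (Finset.mem_Ioc.1 (Finset.mem_filter.1 hq).1).1
    have hzq : (z : ℝ) ≤ q := by exact_mod_cast (hzl.trans hq1.le)
    have hlq : Real.log z ≤ Real.log q := Real.log_le_log (by linarith) hzq
    have h2 : 1 ≤ Real.log q / Real.log z := by rwa [le_div_iff₀ hL0, one_mul]
    have h3 : (0 : ℝ) ≤ 1 / ((q : ℝ) - 1) := by
      apply div_nonneg zero_le_one
      linarith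
    have h4 : 2 / Real.log z * (1 / ((q : ℝ) - 1) * Real.log q) =
        1 / ((q : ℝ) - 1) * (2 * (Real.log q / Real.log z)) := by ring
    rw [h4]
    exact mul_le_mul_of_nonneg_left (by linarith) h3
  refine h1.trans ?_
  rw [← Finset.mul_sum]
  have h5 := logsum_le (w := z ^ l1) (N := z ^ l2) (Nat.one_le_pow _ _ hz1) (Nat.one_le_pow _ _ hz1)
  have h6 : Real.log ((z ^ l2 : ℕ) : ℝ) = l2 * Real.log z := by
    rw [Nat.cast_pow, Real.log_pow]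
  rw [h6] at h5
  have hl2r : (1 : ℝ) ≤ l2 := by exact_mod_cast hl2
  have h7 : 1 + 1 / ((z ^ l1 : ℕ) : ℝ) ≤ 9 / 8 := by
    have : 1 / ((z ^ l1 : ℕ) : ℝ) ≤ 1 / 8 := one_div_le_one_div_of_le (by norm_num) hzlr
    linarith
  have h8 : (l2 : ℝ) * Real.log z + 2 ≤ 9 / 8 * (l2 * Real.log z) := by nlinarith
  have h9 : (1 + 1 / ((z ^ l1 : ℕ) : ℝ)) * (l2 * Real.log z + 2) ≤ 9 / 8 * (9 / 8 * (l2 * Real.log z)) :=
    mul_le_mul h7 h8 (by positivity) (by norm_num)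
  have h10 : 2 / Real.log z * ∑ i ∈ PP (z ^ l1) (z ^ l2), 1 / ((i : ℝ) - 1) * Real.log i ≤
      2 / Real.log z * (9 / 8 * (9 / 8 * (l2 * Real.log z))) :=
    mul_le_mul_of_nonneg_left (h5.trans h9) (by positivity)
  refine h10.trans ?_
  have h11 : 2 / Real.log z * (9 / 8 * (9 / 8 * (l2 * Real.log z))) = 81 / 32 * (l2 : ℝ) := by
    field_simp
    ring
  rw [h11]
  linarith

theorem lev1 : ∃ C0 : ℕ, ∀ (R : Prm) (C Cq Cm : ℕ) (c cD Λ δ : ℝ) (Cx g g2 g3 : ℕ) (ε : ℝ), C0 ≤ Cx →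
    ParV R C Cq Cm c cD Λ δ Cx g g2 g3 ε → ∀ᶠ z : ℕ in atTop, ∀ p1 : ℕ, p1.Prime → z ^ (R.q + 2) < p1 →
    ∃ κ : ℕ, κ + 10 * R.u ≤ R.k1 ∧ R.k1 ≤ κ + 10 * R.u + dl R g2 ∧
      ∑ q ∈ P2 R z p1 g3 \ Ps R z p1, 1 / ((q : ℝ) - 1) * tl (Pb R z p1) z κ q ≤ δ * Gn (Pb R z p1) z κ := by
  obtain ⟨C2, hC2, H⟩ := Gn_Pb
  refine ⟨20 + 3 * C2 ^ 2, fun R C Cq Cm c cD Λ δ Cx g g2 g3 ε hCx hv => ?_⟩
  have h20 : 20 ≤ Cx := le_trans (Nat.le_add_right _ _) hCx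
  filter_upwards [H R C Cq Cm c cD Λ δ Cx g g2 g3 ε h20 hv, eventually_ge_atTop 8,
    (Real.tendsto_log_atTop.comp tendsto_natCast_atTop_atTop).eventually_ge_atTop (16 : ℝ)]
    with z hz hz8 hlog p1 hp1 hzp
  simp only [Function.comp_apply] at hlog
  obtain ⟨hup, hlow⟩ := hz p1 hp1 hzp
  obtain ⟨hu1, hl1, hl1u, hl2, hgj, hg2, hg3, hjr, hq, hg1, h4g, h8g⟩ := exps hv
  obtain ⟨h8l, h4d, hCj, h100, hCu⟩ := exps' hv
  obtain ⟨hPs, hPG, hPb, hP2, hQ2, hPc⟩ := sets hv h20 (by omega) hzp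
  rw [hP2]
  rw [hPb] at hup hlow ⊢
  set Q : Finset ℕ := PP (z ^ l1 R) (z ^ R.k1) with hQdef
  have hQp : ∀ p ∈ Q, Nat.Prime p := fun p hp => (Finset.mem_filter.1 hp).2
  have hl2' : 1 ≤ l2 R g3 := by omega
  have h20j : 20 * j0 R g ≤ R.k1 := (Nat.mul_le_mul_right _ h20).trans hCj
  have hdl1 : 1 ≤ dl R g2 := by omega
  set d : ℕ := dl R g2 with hd
  set J : ℕ := R.k1 - 10 * R.u - d with hJ
  have hJd : J + d + 10 * R.u = R.k1 := by omega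
  have hJ2 : R.k1 ≤ 2 * J := by omega
  have hδ0 : 0 < δ := hv.pg.hδ
  have hl10 : (0 : ℝ) < l1 R := by exact_mod_cast hl1
  have hk1 : 1 ≤ R.k1 := by omega
  have hk0 : (0 : ℝ) < R.k1 := by exact_mod_cast hk1
  set T : ℝ := (R.k1 : ℝ) / l1 R with hT
  have hT0 : 0 < T := div_pos hk0 hl10
  have hC20 : (0 : ℝ) < C2 := by exact_mod_cast hC2
  by_contra hcon
  push Not at hcon
  -- lower bound for the double sum
  have hlo : ∀ κ ∈ Ioc J (J + d), δ * (T / C2) ≤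
      ∑ q ∈ PP (z ^ l1 R) (z ^ l2 R g3), 1 / ((q : ℝ) - 1) * tl Q z κ q := by
    intro κ hκ
    rw [Finset.mem_Ioc] at hκ
    have h1 := hcon κ (by omega) (by omega)
    have h2 := hlow κ (by omega)
    refine le_trans ?_ h1.le
    refine mul_le_mul_of_nonneg_left ?_ hδ0.le
    rw [div_le_iff₀ hC20]
    linarith
  have hsum1 := Finset.sum_le_sum hlo
  rw [Finset.sum_const, Nat.card_Ioc, Nat.add_sub_cancel_left, nsmul_eq_mul, Finset.sum_comm] at hsum1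
  -- upper bound
  have hup1 : ∑ q ∈ PP (z ^ l1 R) (z ^ l2 R g3), ∑ κ ∈ Ioc J (J + d), 1 / ((q : ℝ) - 1) * tl Q z κ q ≤
      ∑ q ∈ PP (z ^ l1 R) (z ^ l2 R g3),
        (1 / ((q : ℝ) - 1) * (Real.log q / Real.log z + 1)) * Gn Q z (J + d) := by
    refine Finset.sum_le_sum fun q hq => ?_
    have hqp : Nat.Prime q := (Finset.mem_filter.1 hq).2
    have h3 : (0 : ℝ) ≤ 1 / ((q : ℝ) - 1) := by
      apply div_nonneg zero_le_one
      have : (1 : ℝ) ≤ q := by exact_mod_cast hqp.one_lt.le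
      linarith
    rw [← Finset.mul_sum, mul_assoc]
    exact mul_le_mul_of_nonneg_left (tl_avg1 Q hQp (by omega) J d hqp.one_lt.le) h3
  rw [← Finset.sum_mul] at hup1
  have hG0 : 0 ≤ Gn Q z (J + d) := by
    rw [Gn_eq_GR]
    exact GR_nonneg Q hQp _
  have hG1 : Gn Q z (J + d) ≤ C2 * T := by
    rw [Gn_eq_GR]
    exact (GR_le Q hQp _).trans hup
  have hl2r : (1 : ℝ) ≤ l2 R g3 := by exact_mod_cast hl2'
  have hlogs := n13_log hz8 hlog hl1 hl2'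
  have hfin : (d : ℝ) * (δ * (T / C2)) ≤ 3 * (l2 R g3 : ℝ) * (C2 * T) := by
    refine hsum1.trans (hup1.trans ?_)
    exact mul_le_mul hlogs hG1 hG0 (by positivity)
  -- cancel
  have h5 : (d : ℝ) * δ * T ≤ 3 * (l2 R g3 : ℝ) * (C2 * T) * C2 := by
    have h6 := mul_le_mul_of_nonneg_right hfin hC20.le
    have h7 : (d : ℝ) * (δ * (T / C2)) * C2 = d * δ * T := by
      field_simp
    rwa [h7] at h6
  have h8 : (d : ℝ) * δ ≤ 3 * (l2 R g3 : ℝ) * (C2 * C2) := by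
    have h9 : (d : ℝ) * δ * T ≤ (3 * (l2 R g3 : ℝ) * (C2 * C2)) * T := by
      refine h5.trans (le_of_eq ?_)
      ring
    exact le_of_mul_le_mul_right h9 hT0
  have hg2r : (g2 : ℝ) * d = R.k1 := by exact_mod_cast hg2
  have hg3r : (g3 : ℝ) * l2 R g3 = R.k1 := by exact_mod_cast hg3
  have hg20 : (0 : ℝ) < g2 := by
    have : 1 ≤ g2 := by omega
    exact_mod_cast this
  have h10 : (Cx : ℝ) * l2 R g3 ≤ δ * d := by
    have h11 : (Cx : ℝ) * g2 * l2 R g3 ≤ δ * g3 * l2 R g3 :=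
      mul_le_mul_of_nonneg_right hv.hδ3 (by linarith)
    have h12 : δ * g3 * l2 R g3 = δ * d * g2 := by
      rw [mul_assoc, hg3r, ← hg2r]
      ring
    rw [h12] at h11
    have h13 : (Cx : ℝ) * l2 R g3 * g2 ≤ δ * d * g2 := by
      refine le_trans (le_of_eq ?_) h11
      ring
    exact le_of_mul_le_mul_right h13 hg20
  have hCxr : (20 : ℝ) + 3 * (C2 : ℝ) ^ 2 ≤ Cx := by exact_mod_cast hCx
  have h14 : (20 + 3 * (C2 : ℝ) ^ 2) * l2 R g3 ≤ 3 * (l2 R g3 : ℝ) * (C2 * C2) := by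
    refine (mul_le_mul_of_nonneg_right hCxr (by linarith)).trans (h10.trans ?_)
    rw [mul_comm δ]
    exact h8
  nlinarith

end Pool.Agent.LibFB63
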