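import Pool.Agent.LibFB63.N02
import Pool.Agent.LibFB63.N03
import Pool.Agent.LibFB63.N05
import Pool.Agent.LibFB63.N04
import Pool.Agent.LibFB63.N10

/-!
Row N18 (MEDIUM): `GR (Pb)` at a small level. `b = j0/8` (floor; `j0 ≥ 100 u`, so `b ≥ l1` and `9 b ≥ j0`), `Q' = PP (z^l1) (z^b) ⊆ Pb`; `logsum_le`: `∑_{Q'} log p/(p-1) ≤ (1 + 1/z)(b log z + 2) ≤ (9/8) b log z` for large `z`; `4 log s ≥ j0 log z ≥ 8 b log z`, so the quotient in `GR_markov` is `≤ 9/16` and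
`GR Pb s ≥ GR Q' s ≥ (7/16) ∏_{Q'} ≥ (7/16) b/(C1 l1)`; `GR Pb (z^κ) ≤ ∏_{Pb} ≤ C1 k1/l1`, `k1 = g j0 ≤ 9 g b`. So `C3 = 21 C1²` works.
-/

open Finset Filter

namespace Pool.Agent.LibFB63

open Pool.Agent.LibRG87 Pool.Agent.LibLG5 Pool.Agent.LibPL63 Pool.Agent.LibSC93 Pool.Agent.LibGL22

private theorem N18_prime {w z : ℕ} : ∀ p ∈ PP w z, Nat.Prime p := by
  intro p hp
  unfold PP at hp
  exact (Finset.mem_filter.1 hp).2

private theorem N18_sub {w z z' : ℕ} (h : z ≤ z') : PP w z ⊆ PP w z' := by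
  intro p hp
  unfold PP at hp ⊢
  rw [Finset.mem_filter, Finset.mem_Ioc] at hp ⊢
  exact ⟨⟨hp.1.1, hp.1.2.trans h⟩, hp.2⟩

theorem GR_low : ∃ C3 : ℕ, 1 ≤ C3 ∧ ∀ (R : Prm) (C Cq Cm : ℕ) (c cD Λ δ : ℝ) (Cx g g2 g3 : ℕ) (ε : ℝ), 20 ≤ Cx →
    ParV R C Cq Cm c cD Λ δ Cx g g2 g3 ε → ∀ᶠ z : ℕ in atTop, ∀ p1 : ℕ, p1.Prime → z ^ (R.q + 2) < p1 →
    ∀ s : ℝ, 0 ≤ s → (z : ℝ) ^ j0 R g ≤ s ^ 4 → ∀ t : ℝ, GR (Pb R z p1) t ≤ C3 * g * GR (Pb R z p1) s := by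
  obtain ⟨C1, hC1, hpb⟩ := prod_bounds
  refine ⟨21 * C1 ^ 2, by nlinarith, ?_⟩
  intro R C Cq Cm c cD Λ δ Cx g g2 g3 ε h20 hv
  obtain ⟨hu, hl1, hl1u, -, hgj, -, -, -, -, hg1, -, -⟩ := exps hv
  obtain ⟨-, -, hCj, h100, -⟩ := exps' hv
  have hlog : ∀ᶠ z : ℕ in atTop, (3 : ℝ) ≤ Real.log z :=
    (Real.tendsto_log_atTop.comp tendsto_natCast_atTop_atTop).eventually_ge_atTop 3
  filter_upwards [hlog, eventually_ge_atTop 32] with z hL hz32
  intro p1 hp1 hzp s hs hzs t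
  have hz2 : 2 ≤ z := by omega
  obtain ⟨-, -, hPb, -, -, -⟩ := sets hv h20 hz2 hzp
  have hzR : (32 : ℝ) ≤ z := by exact_mod_cast hz32
  obtain ⟨b, hb⟩ : ∃ b : ℕ, b = j0 R g / 8 := ⟨_, rfl⟩
  have hj100 : 100 ≤ j0 R g := by nlinarith
  have hb12 : 12 ≤ b := by omega
  have h9b : j0 R g ≤ 9 * b := by omega
  have h8b : 8 * b ≤ j0 R g := by omega
  have hbl : l1 R ≤ b := by
    have : 100 * l1 R ≤ j0 R g := by nlinarith
    omega
  have hbk : b ≤ R.k1 := by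
    have h1 : j0 R g ≤ R.k1 := by nlinarith
    omega
  have hQ' : PP (z ^ l1 R) (z ^ b) ⊆ Pb R z p1 := by
    rw [hPb]
    exact N18_sub (Nat.pow_le_pow_right (by omega) hbk)
  have hPbp : ∀ p ∈ Pb R z p1, Nat.Prime p := by
    rw [hPb]
    exact N18_prime
  have hQp : ∀ p ∈ PP (z ^ l1 R) (z ^ b), Nat.Prime p := N18_prime
  have hbR : (12 : ℝ) ≤ b := by exact_mod_cast hb12
  have hlR : (0 : ℝ) < (l1 R : ℝ) := by exact_mod_cast hl1
  -- the logarithmic sum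
  have hsum : ∑ p ∈ PP (z ^ l1 R) (z ^ b), 1 / ((p : ℝ) - 1) * Real.log p ≤ 9 / 8 * (b * Real.log z) := by
    have h1 := logsum_le (w := z ^ l1 R) (N := z ^ b) (Nat.one_le_pow _ _ (by omega))
      (Nat.one_le_pow _ _ (by omega))
    refine h1.trans ?_
    have h2 : Real.log ((z ^ b : ℕ) : ℝ) = b * Real.log z := by
      rw [Nat.cast_pow, Real.log_pow]
    rw [h2]
    have h3 : 1 / ((z ^ l1 R : ℕ) : ℝ) ≤ 1 / 32 := by
      apply one_div_le_one_div_of_le (by norm_num)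
      have h4 : z ^ 1 ≤ z ^ l1 R := Nat.pow_le_pow_right (by omega) hl1
      have h5 : 32 ≤ z ^ l1 R := by
        rw [pow_one] at h4
        omega
      exact_mod_cast h5
    have h6 : (36 : ℝ) ≤ b * Real.log z := by nlinarith
    have h7 : (0 : ℝ) ≤ b * Real.log z + 2 := by linarith
    calc (1 + 1 / ((z ^ l1 R : ℕ) : ℝ)) * (b * Real.log z + 2)
        ≤ (1 + 1 / 32) * (b * Real.log z + 2) := by
          apply mul_le_mul_of_nonneg_right _ h7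
          linarith
      _ ≤ 9 / 8 * (b * Real.log z) := by linarith
  have hs1 : 1 < s := by
    by_contra hcon
    push Not at hcon
    have h1 : s ^ 4 ≤ 1 := pow_le_one₀ hs hcon
    have h2 : (1 : ℝ) < (z : ℝ) ^ j0 R g := one_lt_pow₀ (by linarith) (by omega)
    linarith
  have hlogs : 2 * (b * Real.log z) ≤ Real.log s := by
    have h1 : Real.log ((z : ℝ) ^ j0 R g) ≤ Real.log (s ^ 4) := by
      apply Real.log_le_log _ hzs
      positivity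
    rw [Real.log_pow, Real.log_pow] at h1
    have h2 : ((8 * b : ℕ) : ℝ) ≤ ((j0 R g : ℕ) : ℝ) := by exact_mod_cast h8b
    push_cast at h1 h2
    have h3 : 8 * (b : ℝ) * Real.log z ≤ (j0 R g : ℝ) * Real.log z :=
      mul_le_mul_of_nonneg_right h2 (by linarith)
    linarith
  have hbL : (0 : ℝ) < b * Real.log z := by positivity
  have hlogs0 : 0 < Real.log s := Real.log_pos hs1
  have hq : (∑ p ∈ PP (z ^ l1 R) (z ^ b), 1 / ((p : ℝ) - 1) * Real.log p) / Real.log s ≤ 9 / 16 := by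
    rw [div_le_iff₀ hlogs0]
    linarith
  obtain ⟨-, hprod⟩ := hpb z (l1 R) b hz2 hl1 hbl
  obtain ⟨hprod2, -⟩ := hpb z (l1 R) R.k1 hz2 hl1 (hbl.trans hbk)
  have hP0 : 0 ≤ ∏ p ∈ PP (z ^ l1 R) (z ^ b), (1 + 1 / ((p : ℝ) - 1)) := by
    apply Finset.prod_nonneg
    intro p hp
    have h1 : (2 : ℝ) ≤ p := by exact_mod_cast (hQp p hp).two_le
    have h2 : 0 ≤ 1 / ((p : ℝ) - 1) := by
      apply div_nonneg (by norm_num)
      linarith
    linarith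
  have hmk := GR_markov (PP (z ^ l1 R) (z ^ b)) hQp hs1
  have hsub := GR_subset hQ' hPbp s
  have hA : 7 / 16 * ∏ p ∈ PP (z ^ l1 R) (z ^ b), (1 + 1 / ((p : ℝ) - 1)) ≤ GR (Pb R z p1) s := by
    refine le_trans ?_ (hmk.trans hsub)
    apply mul_le_mul_of_nonneg_right _ hP0
    linarith
  have hC1R : (1 : ℝ) ≤ C1 := by exact_mod_cast hC1
  have hB : (b : ℝ) / l1 R ≤ C1 * (16 / 7 * GR (Pb R z p1) s) := by
    refine hprod.trans ?_
    apply mul_le_mul_of_nonneg_left _ (by linarith)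
    linarith
  have hG0 := GR_nonneg (Pb R z p1) hPbp s
  have hgR : (1 : ℝ) ≤ g := by exact_mod_cast hg1
  have hk : (R.k1 : ℝ) ≤ 9 * g * b := by
    have h1 : R.k1 ≤ 9 * g * b := by
      rw [← hgj]
      calc g * j0 R g ≤ g * (9 * b) := Nat.mul_le_mul_left _ h9b
        _ = 9 * g * b := by ring
    exact_mod_cast h1
  have hgr := GR_le (Pb R z p1) hPbp t
  have hD : ∏ p ∈ Pb R z p1, (1 + 1 / ((p : ℝ) - 1)) ≤ C1 * ((R.k1 : ℝ) / l1 R) := by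
    rw [hPb]
    exact hprod2
  calc GR (Pb R z p1) t ≤ C1 * ((R.k1 : ℝ) / l1 R) := hgr.trans hD
    _ ≤ C1 * (9 * g * b / l1 R) := by
        apply mul_le_mul_of_nonneg_left _ (by linarith)
        exact div_le_div_of_nonneg_right hk hlR.le
    _ = C1 * (9 * g) * ((b : ℝ) / l1 R) := by ring
    _ ≤ C1 * (9 * g) * (C1 * (16 / 7 * GR (Pb R z p1) s)) := by
        apply mul_le_mul_of_nonneg_left hB
        positivity
    _ = (144 / 7) * (C1 ^ 2 * g * GR (Pb R z p1) s) := by ring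
    _ ≤ 21 * (C1 ^ 2 * g * GR (Pb R z p1) s) := by
        apply mul_le_mul_of_nonneg_right (by norm_num)
        positivity
    _ = ((21 * C1 ^ 2 : ℕ) : ℝ) * g * GR (Pb R z p1) s := by
        push_cast
        ring

end Pool.Agent.LibFB63
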