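import Pool.Agent.LibFB63.N01
import Pool.Agent.LibFB63.N07
import Pool.Agent.LibFB63.N18

/-!
Row N19 (MEDIUM): `GR_growth` with `a = z^l1`, `b = z^k1` (`Pb = PP a b`), `s = √t1`: `s^4 = t1² ≥ z^j0`, so `a ≤ s` (`4 l1 ≤ j0`), `4 ≤ t1` (`2 ≤ z`, `j0 ≥ 100`), `t2 ≤ z^(2 j0) ≤ z^k1`. With `GR_low`: `GR Pb s ≥ GR Pb t/(C3 g)`, so
`log (t2/t1)/log t2 ≤ 6 √ε C3 g + K0/log s`; `log t2 ≤ 2 j0 log z`, `log s ≥ (j0/4) log z`: `log (t2/t1) ≤ 12 C3 √ε k1 log z + 8 K0` (`g j0 = k1`), and `8 K0 ≤ √ε k1 log z` for large `z` (`ε > 0` is fixed). `C4 = 12 C3 + 1`. Case `log (t2/t1)/log t2 ≤ K0/log s` included.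
-/

open Finset Filter

namespace Pool.Agent.LibFB63

open Pool.Agent.LibRG87 Pool.Agent.LibLG5 Pool.Agent.LibPL63 Pool.Agent.LibSC93 Pool.Agent.LibGL22

theorem log_ratio : ∃ C4 : ℕ, 1 ≤ C4 ∧ ∀ (R : Prm) (C Cq Cm : ℕ) (c cD Λ δ : ℝ) (Cx g g2 g3 : ℕ) (ε : ℝ), 20 ≤ Cx →
    ParV R C Cq Cm c cD Λ δ Cx g g2 g3 ε → ∀ᶠ z : ℕ in atTop, ∀ p1 : ℕ, p1.Prime → z ^ (R.q + 2) < p1 →
    ∀ t1 t2 t : ℝ, 0 < t1 → (z : ℝ) ^ j0 R g ≤ t1 ^ 2 → t1 ≤ t2 → t2 ≤ (z : ℝ) ^ (2 * j0 R g) → 1 ≤ t →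
      GR (Pb R z p1) t2 - GR (Pb R z p1) t1 ≤ 6 * √ε * GR (Pb R z p1) t →
      Real.log (t2 / t1) ≤ C4 * √ε * (R.k1 * Real.log z) := by
  obtain ⟨K0, hK0, hK⟩ := rec_abs
  obtain ⟨C3, hC3, hlow⟩ := GR_low
  refine ⟨12 * C3 + 1, by omega, ?_⟩
  intro R C Cq Cm c cD Λ δ Cx g g2 g3 ε h20 hv
  obtain ⟨hu, hl1, hl1u, -, hgj, -, -, -, -, hg1, -, -⟩ := exps hv
  obtain ⟨-, -, hCj, hj100, -⟩ := exps' hv
  have hε := hv.hε
  have hsε : 0 < √ε := Real.sqrt_pos.2 hε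
  have hlogz : Tendsto (fun z : ℕ => Real.log (z : ℝ)) atTop atTop :=
    Real.tendsto_log_atTop.comp tendsto_natCast_atTop_atTop
  filter_upwards [hlow R C Cq Cm c cD Λ δ Cx g g2 g3 ε h20 hv, eventually_ge_atTop 2,
    hlogz.eventually_ge_atTop (8 * K0 / √ε)] with z hz hz2 hzl
  intro p1 hp1 hzp t1 t2 t ht1 hzt h12 ht2 ht hgr
  obtain ⟨-, -, hPb, -, -, -⟩ := sets hv h20 hz2 hzp
  have hz1 : (1 : ℝ) ≤ z := by exact_mod_cast (by omega : 1 ≤ z)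
  have hzr : (2 : ℝ) ≤ z := by exact_mod_cast hz2
  have hL0 : 0 < Real.log z := Real.log_pos (by linarith)
  set s := √t1 with hs
  have hs0 : 0 ≤ s := Real.sqrt_nonneg _
  have hs2 : s ^ 2 = t1 := Real.sq_sqrt ht1.le
  have hs4 : s ^ 4 = t1 ^ 2 := by rw [← hs2]; ring
  -- the conditions
  have ha2 : ((z : ℝ) ^ l1 R) ^ 4 ≤ s ^ 4 := by
    rw [hs4, ← pow_mul]
    refine le_trans (pow_le_pow_right₀ hz1 ?_) hzt
    omega
  have ha : ((z ^ l1 R : ℕ) : ℝ) ≤ √t1 := by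
    push_cast
    exact le_of_pow_le_pow_left₀ (by norm_num) hs0 ha2
  have h16 : (16 : ℝ) ≤ (z : ℝ) ^ j0 R g := by
    calc (16 : ℝ) = 2 ^ 4 := by norm_num
      _ ≤ (z : ℝ) ^ 4 := by gcongr
      _ ≤ (z : ℝ) ^ j0 R g := pow_le_pow_right₀ hz1 (by omega)
  have h4 : 4 ≤ t1 := by nlinarith
  have hb : t2 ≤ ((z ^ R.k1 : ℕ) : ℝ) := by
    push_cast
    refine ht2.trans (pow_le_pow_right₀ hz1 ?_)
    have : 20 * j0 R g ≤ Cx * j0 R g := Nat.mul_le_mul_right _ h20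
    omega
  have hgrow := GR_growth hK0.le hK (z ^ l1 R) (z ^ R.k1) ha h4 h12 hb
  rw [← hPb, ← hs] at hgrow
  have hlo := hz p1 hp1 hzp s hs0 (by rw [hs4]; exact hzt) t
  -- positivity
  have hs2' : 2 ≤ s := by nlinarith
  have hPr : ∀ p ∈ Pb R z p1, Nat.Prime p := by
    intro p hp
    rw [hPb, PP, Finset.mem_filter] at hp
    exact hp.2
  have hG1 : 1 ≤ GR (Pb R z p1) s := one_le_GR _ hPr (by linarith)
  have hls : 0 < Real.log s := Real.log_pos (by linarith)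
  have ht2' : 1 < t2 := by linarith
  have hlt2 : 0 < Real.log t2 := Real.log_pos ht2'
  -- the main inequality
  have hmain : Real.log (t2 / t1) / Real.log t2 - K0 / Real.log s ≤ 6 * √ε * (C3 * g) := by
    have h1 : GR (Pb R z p1) s * (Real.log (t2 / t1) / Real.log t2 - K0 / Real.log s) ≤
        GR (Pb R z p1) s * (6 * √ε * (C3 * g)) := by
      calc GR (Pb R z p1) s * (Real.log (t2 / t1) / Real.log t2 - K0 / Real.log s)
          ≤ GR (Pb R z p1) t2 - GR (Pb R z p1) t1 := hgrow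
        _ ≤ 6 * √ε * GR (Pb R z p1) t := hgr
        _ ≤ 6 * √ε * (C3 * g * GR (Pb R z p1) s) := by gcongr
        _ = GR (Pb R z p1) s * (6 * √ε * (C3 * g)) := by ring
    exact le_of_mul_le_mul_left h1 (by linarith)
  have hj1 : (1 : ℝ) ≤ (j0 R g : ℝ) := by exact_mod_cast (by omega : 1 ≤ j0 R g)
  have hlt2' : Real.log t2 ≤ 2 * j0 R g * Real.log z := by
    have h1 := Real.log_le_log (by linarith) ht2
    rw [Real.log_pow] at h1
    push_cast at h1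
    exact h1
  have hls' : (j0 R g : ℝ) / 4 * Real.log z ≤ Real.log s := by
    have h1 : Real.log ((z : ℝ) ^ j0 R g) ≤ Real.log (s ^ 4) :=
      Real.log_le_log (by positivity) (by rw [hs4]; exact hzt)
    rw [Real.log_pow, Real.log_pow] at h1
    push_cast at h1
    linarith
  have hgk : (g : ℝ) * j0 R g = R.k1 := by exact_mod_cast hgj
  have h5 : Real.log (t2 / t1) ≤ Real.log t2 * (6 * √ε * (C3 * g) + K0 / Real.log s) := by
    have h6 : Real.log (t2 / t1) / Real.log t2 ≤ 6 * √ε * (C3 * g) + K0 / Real.log s := by linarith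
    rw [div_le_iff₀ hlt2] at h6
    linarith
  have h7 : Real.log t2 * (K0 / Real.log s) ≤ 8 * K0 := by
    rw [mul_div_assoc', div_le_iff₀ hls]
    calc Real.log t2 * K0 ≤ 2 * j0 R g * Real.log z * K0 := by gcongr
      _ = 8 * K0 * ((j0 R g : ℝ) / 4 * Real.log z) := by ring
      _ ≤ 8 * K0 * Real.log s := by gcongr
  have h8 : Real.log t2 * (6 * √ε * (C3 * g)) ≤ 12 * C3 * √ε * (R.k1 * Real.log z) := by
    calc Real.log t2 * (6 * √ε * (C3 * g)) ≤ 2 * j0 R g * Real.log z * (6 * √ε * (C3 * g)) := by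
          gcongr
      _ = 12 * C3 * √ε * ((g : ℝ) * j0 R g * Real.log z) := by ring
      _ = _ := by rw [hgk]
  have hk1 : (1 : ℝ) ≤ R.k1 := by
    rw [← hgk]
    have : (1 : ℝ) ≤ g := by exact_mod_cast hg1
    nlinarith
  have h9 : 8 * K0 ≤ √ε * (R.k1 * Real.log z) := by
    rw [div_le_iff₀ hsε] at hzl
    calc 8 * K0 ≤ Real.log z * √ε := hzl
      _ = √ε * (1 * Real.log z) := by ring
      _ ≤ √ε * (R.k1 * Real.log z) := by gcongr
  calc Real.log (t2 / t1) ≤ Real.log t2 * (6 * √ε * (C3 * g) + K0 / Real.log s) := h5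
    _ = Real.log t2 * (6 * √ε * (C3 * g)) + Real.log t2 * (K0 / Real.log s) := by ring
    _ ≤ 12 * C3 * √ε * (R.k1 * Real.log z) + √ε * (R.k1 * Real.log z) :=
        add_le_add h8 (h7.trans h9)
    _ = ((12 * C3 + 1 : ℕ) : ℝ) * √ε * (R.k1 * Real.log z) := by push_cast; ring

end Pool.Agent.LibFB63
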