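import Pool.Agent.LibFB63.N16

/-!
Row N22 (SHORT/MEDIUM): the error term (N9 of the page). `er = q^6 e VP` , `m1 = G1² G2^(k-1) DKG/Gs`; `VP ≤ DKG` (`LibGL22.DKG_ge`), `1 ≤ G1, G2` (`one_le_G`), both from `BaseG`, which holds eventually by `LibGL22.baseG hv.pg 1 one_pos` (read its exact form); `Gs ≤ q` (`Gs_le`), `eps3 : Cx q^12 e ≤ δ`, `0 ≤ e` (`eG_le`):
`Cx q^4 er = Cx q^10 e VP ≤ (δ/q²) DKG ≤ (δ/q) DKG/Gs`. `DKG ≥ VP ≥ 0` (`VP_nonneg`).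
-/

open Finset Filter

namespace Pool.Agent.LibFB63

open Pool.Agent.LibRG87 Pool.Agent.LibLG5 Pool.Agent.LibPL63 Pool.Agent.LibSC93 Pool.Agent.LibGL22

theorem er_leN : ∃ C0 : ℕ, ∀ (R : Prm) (C Cq Cm : ℕ) (c cD Λ δ : ℝ) (Cx g g2 g3 : ℕ) (ε : ℝ), C0 ≤ Cx →
    ParV R C Cq Cm c cD Λ δ Cx g g2 g3 ε → ∀ᶠ z : ℕ in atTop, ∀ p1 : ℕ, p1.Prime → z ^ (R.q + 2) < p1 →
    ∀ h K : Finset ℕ, 0 ≤ m1 R z p1 h K ∧ 0 ≤ er R z p1 Cq Λ h ∧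
      (Cx : ℝ) * (R.q : ℝ) ^ 4 * er R z p1 Cq Λ h ≤ δ * m1 R z p1 h K := by
  obtain ⟨C0, hC0⟩ := Gs_le
  refine ⟨C0, fun R C Cq Cm c cD Λ δ Cx g g2 g3 ε hCx hv => ?_⟩
  filter_upwards [hC0 R C Cq Cm c cD Λ δ Cx g g2 g3 ε hCx hv, baseG hv.pg 1 one_pos] with z h1 h2
  intro p1 hp hp1 h K
  obtain ⟨hG1, -, hG3⟩ := h1 p1 hp hp1
  have hB := h2 p1
  have hDK := DKG_ge hv.pg hB h K
  obtain ⟨hg1, hg2⟩ := one_le_G hB
  obtain ⟨he0, -⟩ := eG_le hv.pg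
  have hVP : 0 ≤ VP (P0 z p1) h := VP_nonneg _ (fun p hp => (mem_P0.1 hp).2.1) h
  have hδ := hv.pg.hδ
  have heps := hv.eps3
  set e := R.e Cq Λ with hedef
  set V := VP (P0 z p1) h with hV
  set Dk := DKG R z p1 h K with hDk
  set G := Gs R z p1 with hG
  have hq1 : (1 : ℝ) ≤ R.q := hG1.trans hG3
  have hG0 : 0 < G := by linarith
  have hD0 : 0 ≤ Dk := hVP.trans hDK
  have hpow : 1 ≤ G1G R z p1 ^ 2 * G2G R z p1 ^ (R.k - 1) := by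
    have a1 : 1 ≤ G1G R z p1 ^ 2 := one_le_pow₀ hg1
    have a2 : 1 ≤ G2G R z p1 ^ (R.k - 1) := one_le_pow₀ hg2
    calc (1 : ℝ) = 1 * 1 := (one_mul 1).symm
      _ ≤ _ := mul_le_mul a1 a2 zero_le_one (by linarith)
  have hm : V / R.q ≤ m1 R z p1 h K := by
    unfold m1
    rw [← hDk, ← hG, ← mul_assoc]
    refine div_le_div₀ (mul_nonneg (by linarith) hD0) ?_ hG0 hG3
    calc V ≤ Dk := hDK
      _ = 1 * Dk := (one_mul _).symm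
      _ ≤ _ := mul_le_mul_of_nonneg_right hpow hD0
  have hV0 : 0 ≤ V / R.q := div_nonneg hVP (by linarith)
  refine ⟨hV0.trans hm, ?_, ?_⟩
  · unfold er
    rw [← hedef, ← hV]
    exact mul_nonneg (mul_nonneg (by positivity) he0) hVP
  · unfold er
    rw [← hedef, ← hV]
    have hq0 : (0 : ℝ) < R.q := by linarith
    have e1 : (Cx : ℝ) * (R.q : ℝ) ^ 4 * ((R.q : ℝ) ^ 6 * e * V) =
        ((Cx : ℝ) * (R.q : ℝ) ^ 12 * e) * (V / (R.q : ℝ) ^ 2) := by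
      field_simp
    rw [e1]
    have h3 : V / (R.q : ℝ) ^ 2 ≤ V / R.q := by
      refine div_le_div_of_nonneg_left hVP hq0 ?_
      nlinarith
    have h4 : 0 ≤ V / (R.q : ℝ) ^ 2 := by positivity
    calc ((Cx : ℝ) * (R.q : ℝ) ^ 12 * e) * (V / (R.q : ℝ) ^ 2) ≤ δ * (V / (R.q : ℝ) ^ 2) :=
          mul_le_mul_of_nonneg_right heps h4
      _ ≤ δ * (V / R.q) := mul_le_mul_of_nonneg_left h3 hδ.le
      _ ≤ δ * m1 R z p1 h K := mul_le_mul_of_nonneg_left hm hδ.le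

end Pool.Agent.LibFB63
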