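import Pool.Agent.LibFB63.KDefs
import Pool.Agent.LibFB63.K0
import Pool.Agent.LibFB63.N02
import Pool.Agent.LibFB63.N01
import Pool.Agent.LibFB63.N04
import Pool.Agent.LibFB63.N12
import Pool.Agent.LibFB63.N17
import Pool.Agent.LibFB63.N22
import Pool.Agent.LibFB63.C5

/-!
Number theoretic facts in the form used by block K.
-/

open Finset Filter

namespace Pool.Agent.LibFB63

open Pool.Agent.LibRG87 Pool.Agent.LibLG5 Pool.Agent.LibPL63 Pool.Agent.LibSC93 Pool.Agent.LibGL22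

/-- Mertens 2 -/
theorem nf_inv (k : ℕ) (hk : 1 ≤ k) : ∀ᶠ z : ℕ in atTop, ∀ p1 : ℕ, ∑ p ∈ PL z k p1, 1 / (p : ℝ) ≤ (k : ℝ) := by
  obtain ⟨K0, hK0, hK⟩ := rec_abs
  filter_upwards [Filter.eventually_ge_atTop 3, Filter.eventually_ge_atTop (⌈Real.exp K0⌉₊)] with z hz hz'
  intro p1
  have hzr : (3 : ℝ) ≤ z := by exact_mod_cast hz
  have hlz : 0 < Real.log z := Real.log_pos (by linarith)
  have hK1 : K0 ≤ Real.log z := by
    rw [Real.le_log_iff_exp_le (by linarith)]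
    exact (Nat.le_ceil _).trans (by exact_mod_cast hz')
  have h1 := hK (z : ℝ) ((z : ℝ) ^ k) (by linarith) (by
    calc (z : ℝ) = (z : ℝ) ^ 1 := (pow_one _).symm
      _ ≤ (z : ℝ) ^ k := pow_le_pow_right₀ (by linarith) hk)
  have h2 : ⌊(z : ℝ) ^ k⌋₊ = z ^ k := by
    rw [← Nat.cast_pow]
    exact Nat.floor_natCast _
  rw [h2, Nat.floor_natCast, Real.log_pow, mul_div_assoc, div_self hlz.ne', mul_one] at h1
  have h3 := (abs_le.1 h1).2
  have h4 : K0 / Real.log z ≤ 1 := by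
    rw [div_le_one hlz]
    exact hK1
  have h5 : Real.log k ≤ (k : ℝ) - 1 := Real.log_le_sub_one_of_pos (by exact_mod_cast hk)
  have h6 : ∑ p ∈ PL z k p1, 1 / (p : ℝ) ≤ ∑ p ∈ PP z (z ^ k), 1 / (p : ℝ) :=
    Finset.sum_le_sum_of_subset_of_nonneg (Finset.erase_subset _ _) fun p _ _ => by positivity
  linarith

/-- Mertens 1 -/
theorem nf_log (k : ℕ) (hk : 1 ≤ k) {η : ℝ} (hη : 0 < η) : ∀ᶠ z : ℕ in atTop, ∀ p1 : ℕ,
    ∑ p ∈ PL z k p1, Real.log p / p ≤ (1 + η) * (k * Real.log z) := by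
  filter_upwards [Filter.eventually_ge_atTop 1, Filter.eventually_ge_atTop (⌈Real.exp (2 / η)⌉₊)] with z hz hz'
  intro p1
  have hzr : (1 : ℝ) ≤ z := by exact_mod_cast hz
  have hK1 : 2 / η ≤ Real.log z := by
    rw [Real.le_log_iff_exp_le (by linarith)]
    exact (Nat.le_ceil _).trans (by exact_mod_cast hz')
  have h1 := logsum_le' (N := z ^ k) (Nat.one_le_pow _ _ hz)
  rw [Nat.cast_pow, Real.log_pow] at h1
  have h6 : ∑ p ∈ PL z k p1, Real.log p / p ≤ ∑ p ∈ PP 0 (z ^ k), Real.log p / p := by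
    refine Finset.sum_le_sum_of_subset_of_nonneg ?_ fun p _ _ => ?_
    · intro p hp
      unfold PL PP at hp
      unfold PP
      simp only [Finset.mem_erase, Finset.mem_filter, Finset.mem_Ioc] at hp ⊢
      exact ⟨⟨by omega, hp.2.1.2⟩, hp.2.2⟩
    · exact div_nonneg (Real.log_natCast_nonneg p) (Nat.cast_nonneg p)
  have h7 : 2 ≤ η * Real.log z := by
    rw [div_le_iff₀ hη] at hK1
    linarith
  have h8 : (1 : ℝ) ≤ k := by exact_mod_cast hk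
  have h9 : η * Real.log z ≤ η * (k * Real.log z) := by
    have : 0 ≤ Real.log z := Real.log_natCast_nonneg z
    have h10 : Real.log z ≤ k * Real.log z := le_mul_of_one_le_left this h8
    exact mul_le_mul_of_nonneg_left h10 hη.le
  linarith

/-- squares -/
theorem nf_sq (k : ℕ) : ∀ᶠ z : ℕ in atTop, ∀ p1 : ℕ, ∑ p ∈ PL z k p1, 1 / (p : ℝ) ^ 2 ≤ 1 / (z : ℝ) := by
  filter_upwards [Filter.eventually_ge_atTop 1] with z hz
  intro p1
  refine le_trans (Finset.sum_le_sum_of_subset_of_nonneg (Finset.erase_subset _ _) fun p _ _ => by positivity)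
    (sqsum_le (x := z) (y := z ^ k) hz)

/-- sizes -/
theorem nf_er : ∃ C0 : ℕ, ∀ (R : Prm) (C Cq Cm : ℕ) (c cD Λ δ : ℝ) (Cx g g2 g3 : ℕ) (ε : ℝ), C0 ≤ Cx →
    ParV R C Cq Cm c cD Λ δ Cx g g2 g3 ε → ∀ᶠ z : ℕ in atTop, ∀ p1 : ℕ, p1.Prime → z ^ (R.q + 2) < p1 →
    ∀ (c0 : ℕ) (h K : Finset ℕ), PosS z p1 c0 R.k (Λ * R.q) h K →
      0 ≤ er R z p1 Cq Λ h ∧ 0 < NW R z p1 ∧ 0 < m1 R z p1 h K ∧
      ∀ κ j : ℕ, LevP R g g2 g3 δ z p1 κ j →
        NW R z p1 * m1 R z p1 h K * (∑ p ∈ Pc R z p1 g, 1 / (p : ℝ)) / Gn (Q2 R z p1 g) z j = xH R z p1 g j h K ∧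
        (R.q : ℝ) ^ 2 * (NW R z p1 * er R z p1 Cq Λ h) ≤ δ * xH R z p1 g j h K := by
  classical
  obtain ⟨C1, H1⟩ := er_leN
  obtain ⟨C2, hC2, H2⟩ := Gn_Q2
  obtain ⟨C3, H3⟩ := numC
  refine ⟨C1 + C2 + C3 + 100, ?_⟩
  intro R C Cq Cm c cD Λ δ Cx g g2 g3 ε hCx hp
  have hE := expoK hp (by omega)
  filter_upwards [H1 R C Cq Cm c cD Λ δ Cx g g2 g3 ε (by omega) hp,
    H2 R C Cq Cm c cD Λ δ Cx g g2 g3 ε (by omega) hp, H3 R C Cq Cm c cD Λ δ Cx g g2 g3 ε (by omega) hp,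
    Pc_sum R C Cq Cm c cD Λ δ Cx g g2 g3 ε (by omega) hp, Filter.eventually_ge_atTop 3] with z h1 h2 h3 h4 hz
  intro p1 hp1 hp1z c0 h K hpos
  obtain ⟨a1, a2, a3⟩ := h1 p1 hp1 hp1z h K
  obtain ⟨b1, b2, b3⟩ := h2 p1 hp1 hp1z
  have hN := h3 p1 hp1 hp1z c0 h K hpos
  obtain ⟨d1, d2⟩ := h4 p1 hp1 hp1z
  have hGs : 0 < Gs R z p1 := lt_of_lt_of_le one_pos hN.Gsp
  have hG2 : 0 < G2G R z p1 := lt_of_lt_of_le one_pos hN.G2p
  have hG1 : 0 < G1G R z p1 := lt_of_lt_of_le one_pos hN.G1p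
  have hDK := hN.DKp
  have hNW := hN.NWp
  have hm1 : 0 < m1 R z p1 h K := by
    unfold m1
    positivity
  refine ⟨hN.er0, hNW, hm1, fun κ j hL => ?_⟩
  have hQp : ∀ p ∈ Q2 R z p1 g, Nat.Prime p := fun p hp' => by
    unfold Q2 PL PP at hp'
    simp only [Finset.mem_sdiff, Finset.mem_erase, Finset.mem_filter] at hp'
    exact hp'.1.2.2
  have hGn1 := one_le_GnQ (Q2 R z p1 g) hQp (by omega : 1 ≤ z) j
  have hGn0 : 0 < Gn (Q2 R z p1 g) z j := lt_of_lt_of_le one_pos hGn1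
  have hk : R.k = (R.k - 1) + 1 := by
    have := hE.hk
    omega
  have e1 : NW R z p1 * m1 R z p1 h K * (∑ p ∈ Pc R z p1 g, 1 / (p : ℝ)) / Gn (Q2 R z p1 g) z j =
      xH R z p1 g j h K := by
    unfold xH t2v VV m1
    have e2 : G2G R z p1 ^ R.k = G2G R z p1 ^ (R.k - 1) * G2G R z p1 := by
      conv_lhs => rw [hk, pow_succ]
    rw [e2]
    field_simp
  refine ⟨e1, ?_⟩
  rw [← e1]
  have hg0 : (0 : ℝ) < g := by
    have := hE.hg
    exact_mod_cast (by omega : 0 < g)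
  have hj0 : (0 : ℝ) < j0 R g := by
    have h5 := hE.hj0u
    have h6 := hE.hu
    exact_mod_cast (by omega : 0 < j0 R g)
  have hl1 : (1 : ℝ) ≤ l1 R := by exact_mod_cast hE.hl1'
  have hGnle : Gn (Q2 R z p1 g) z j ≤ C2 * (2 * j0 R g) := by
    have h5 : Gn (Q2 R z p1 g) z j ≤ ∏ p ∈ Q2 R z p1 g, (1 + 1 / ((p : ℝ) - 1)) := GR_le _ hQp _
    refine h5.trans (b1.trans ?_)
    refine mul_le_mul_of_nonneg_left ?_ (Nat.cast_nonneg _)
    exact div_le_self (by positivity) hl1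
  have hC2r : (1 : ℝ) ≤ C2 := by exact_mod_cast hC2
  have hq : (R.q : ℝ) = 4 * (g * j0 R g) := by
    have h5 := hE.hq
    have h6 := hE.hj0
    rw [h5, ← h6]
    push_cast
    ring
  have hq1 : (1 : ℝ) ≤ R.q := by
    have h5 := hE.hq
    have h6 := hE.hj0k
    have h7 := hE.hj0u
    have h8 := hE.hu
    exact_mod_cast (by omega : 1 ≤ R.q)
  have hCxC2 : (C2 : ℝ) ≤ Cx := by exact_mod_cast (by omega : C2 ≤ Cx)
  set S := ∑ p ∈ Pc R z p1 g, 1 / (p : ℝ) with hS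
  set G := Gn (Q2 R z p1 g) z j with hG
  set E := er R z p1 Cq Λ h with hEr
  -- `q² E G ≤ δ m1 S`
  have h5 : (R.q : ℝ) ^ 2 * E * G ≤ δ * (m1 R z p1 h K * S) := by
    have h6 : (R.q : ℝ) ^ 2 * E * G ≤ (R.q : ℝ) ^ 2 * E * (C2 * (2 * j0 R g)) :=
      mul_le_mul_of_nonneg_left hGnle (mul_nonneg (by positivity) a2)
    have h7 : δ * (m1 R z p1 h K * (1 / (2 * g))) ≤ δ * (m1 R z p1 h K * S) :=
      mul_le_mul_of_nonneg_left (mul_le_mul_of_nonneg_left d1 hm1.le) hp.pg.hδ.le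
    have h8 : (R.q : ℝ) ^ 2 * E * (C2 * (2 * j0 R g)) ≤ δ * (m1 R z p1 h K * (1 / (2 * g))) := by
      have h9 : (C2 : ℝ) * (R.q : ℝ) ^ 3 * E ≤ Cx * (R.q : ℝ) ^ 4 * E := by
        refine mul_le_mul_of_nonneg_right ?_ a2
        refine mul_le_mul hCxC2 (pow_le_pow_right₀ hq1 (by norm_num)) (by positivity) (by positivity)
      have h10 := h9.trans a3
      have h11 : (R.q : ℝ) ^ 2 * E * (C2 * (2 * j0 R g)) = (C2 * (R.q : ℝ) ^ 3 * E) * (1 / (2 * g)) := by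
        have : (2 : ℝ) * j0 R g = R.q * (1 / (2 * g)) := by
          rw [hq]
          field_simp
          ring
        rw [this]
        ring
      rw [h11]
      calc (C2 * (R.q : ℝ) ^ 3 * E) * (1 / (2 * g)) ≤ (δ * m1 R z p1 h K) * (1 / (2 * g)) :=
            mul_le_mul_of_nonneg_right h10 (by positivity)
        _ = δ * (m1 R z p1 h K * (1 / (2 * g))) := by ring
    linarith
  have h12 : (R.q : ℝ) ^ 2 * (NW R z p1 * E) = NW R z p1 * ((R.q : ℝ) ^ 2 * E * G) / G := by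
    field_simp
  rw [h12]
  have h13 : δ * (NW R z p1 * m1 R z p1 h K * S / G) = NW R z p1 * (δ * (m1 R z p1 h K * S)) / G := by
    ring
  rw [h13]
  exact div_le_div_of_nonneg_right (mul_le_mul_of_nonneg_left h5 hNW.le) hGn0.le

end Pool.Agent.LibFB63
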