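import Pool.Agent.LibFB63.UW1

/-!
Row UW1b (products), typed by helper85.
-/

open Finset Filter

namespace Pool.Agent.LibFB63

open Pool.Agent.LibRG87 Pool.Agent.LibLG5 Pool.Agent.LibPL63 Pool.Agent.LibSC93 Pool.Agent.LibGL22

variable {ι : Type} [Fintype ι] [DecidableEq ι] {P P1 P2 : Finset ℕ}

private theorem UW1b_E (hP : P = P1 ∪ P2) (b : ι → ℕ) (E : Finset ℕ) (β : P → Option ι)
    (h : ∀ p i, rs P P2 β p = some i → b i ∈ E) :
    E ∪ su P b β = E ∪ su P1 b (rs P P1 β) := by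
  unfold su
  rw [sui_rs hP β, Finset.image_union]
  ext x
  simp only [Finset.mem_union]
  constructor
  · rintro (h1 | h1 | h1)
    · exact Or.inl h1
    · exact Or.inr h1
    · left
      obtain ⟨i, hi, rfl⟩ := Finset.mem_image.1 h1
      unfold sui at hi
      obtain ⟨p, hp⟩ := (Finset.mem_filter.1 hi).2
      exact h p i hp
  · rintro (h1 | h1)
    · exact Or.inl h1
    · exact Or.inr (Or.inl h1)

theorem PhiS_yX (hP : P = P1 ∪ P2) (hd : Disjoint P1 P2) (Pr : Finset ℕ) (b : ι → ℕ) (E : Finset ℕ) (n : ℕ)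
    (y1 : (P1 → Option ι) → ℝ) (y2 : (P2 → Option ι) → ℝ) (hy2 : ∀ γ, y2 γ ≠ 0 → ∀ p i, γ p = some i → b i ∈ E) :
    PhiS P Pr b (yX P P1 P2 y1 y2) E n = PhiS P1 Pr b y1 E n * PhiF P2 b y2 n := by
  unfold PhiS PhiF
  rw [Finset.sum_mul_sum]
  rw [← sum_rs hP hd (fun α γ => (y1 α * rhoP Pr (E ∪ su P1 b α) n * ee P1 b α n) * (y2 γ * ee P2 b γ n))]
  refine Finset.sum_congr rfl fun β _ => ?_
  unfold yX
  by_cases h0 : y2 (rs P P2 β) = 0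
  · rw [h0]
    ring
  · rw [UW1b_E hP b E β (hy2 _ h0), ee_rs hP hd b β n]
    ring

theorem dgV_yX (hP : P = P1 ∪ P2) (hd : Disjoint P1 P2) (V : Finset ℕ → ℝ) (b : ι → ℕ) (E : Finset ℕ)
    (y1 : (P1 → Option ι) → ℝ) (y2 : (P2 → Option ι) → ℝ) (hy2 : ∀ γ, y2 γ ≠ 0 → ∀ p i, γ p = some i → b i ∈ E) :
    dgV P V b E (yX P P1 P2 y1 y2) = dgV P1 V b E y1 * DD P2 y2 := by
  unfold dgV DD
  rw [Finset.sum_mul_sum]
  rw [← sum_rs hP hd (fun α γ => (y1 α ^ 2 * V (E ∪ su P1 b α) / ph (sp P1 α)) * (y2 γ ^ 2 / ph (sp P2 γ)))]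
  refine Finset.sum_congr rfl fun β _ => ?_
  unfold yX
  by_cases h0 : y2 (rs P P2 β) = 0
  · rw [h0]
    simp
  · rw [UW1b_E hP b E β (hy2 _ h0), ph_rs hP hd β, div_mul_div_comm]
    congr 1
    ring

/-- bound and support of the product coefficients -/
theorem yX_abs {y1 : (P1 → Option ι) → ℝ} {y2 : (P2 → Option ι) → ℝ} {B : ℝ} (hB : 0 ≤ B) (h1 : ∀ α, |y1 α| ≤ B)
    (h2 : ∀ γ, |y2 γ| ≤ 1) (β : P → Option ι) : |yX P P1 P2 y1 y2 β| ≤ B := by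
  unfold yX
  rw [abs_mul]
  calc |y1 (rs P P1 β)| * |y2 (rs P P2 β)| ≤ B * 1 := mul_le_mul (h1 _) (h2 _) (abs_nonneg _) hB
    _ = B := mul_one B

theorem yX_supp (hP : P = P1 ∪ P2) (hd : Disjoint P1 P2) {y1 : (P1 → Option ι) → ℝ} {y2 : (P2 → Option ι) → ℝ}
    {z L1 L2 K : ℕ} {J : Finset ι} (h1 : ∀ α, y1 α ≠ 0 → rr (sp P1 α) ≤ (z : ℝ) ^ L1 ∧ (J ∪ sui P1 α).card ≤ K)
    (h2 : ∀ γ, y2 γ ≠ 0 → rr (sp P2 γ) ≤ (z : ℝ) ^ L2 ∧ ∀ p i, γ p = some i → i ∈ J)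
    {β : P → Option ι} (hβ : yX P P1 P2 y1 y2 β ≠ 0) :
    rr (sp P β) ≤ (z : ℝ) ^ (L1 + L2) ∧ (sui P β).card ≤ K := by
  unfold yX at hβ
  obtain ⟨a1, a2⟩ := h1 _ (left_ne_zero_of_mul hβ)
  obtain ⟨a3, a4⟩ := h2 _ (right_ne_zero_of_mul hβ)
  constructor
  · rw [rr_rs hP hd β, pow_add]
    refine mul_le_mul a1 a3 ?_ (by positivity)
    unfold rr
    exact Finset.prod_nonneg fun p _ => Nat.cast_nonneg _
  · refine le_trans (Finset.card_le_card ?_) a2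
    rw [sui_rs hP β]
    intro i hi
    rcases Finset.mem_union.1 hi with h | h
    · exact Finset.mem_union_right _ h
    · unfold sui at h
      obtain ⟨p, hp⟩ := (Finset.mem_filter.1 h).2
      exact Finset.mem_union_left _ (a4 p i hp)

end Pool.Agent.LibFB63
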