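import Pool.Agent.LibFB63.UD
import Pool.Agent.LibRG87.R0

/-!
Row UW2 (coefficients of one and two positions), typed by helper85.
-/

open Finset Filter

namespace Pool.Agent.LibFB63

open Pool.Agent.LibRG87 Pool.Agent.LibLG5 Pool.Agent.LibPL63 Pool.Agent.LibSC93 Pool.Agent.LibGL22

variable {ι : Type} [Fintype ι] [DecidableEq ι] {Q : Finset ℕ}

/-- the configuration which uses the position `i` at the primes of `A` -/
private def UW2_mk (Q : Finset ℕ) (i : ι) (A : Finset ℕ) : Q → Option ι :=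
  fun p => if (p : ℕ) ∈ A then some i else none

private theorem UW2_fb_mk (i : ι) {A : Finset ℕ} (hA : A ⊆ Q) : fb Q (UW2_mk Q i A) i = A := by
  ext p
  rw [mem_fb]
  constructor
  · rintro ⟨h, hp⟩
    unfold UW2_mk at hp
    by_contra hn
    rw [if_neg hn] at hp
    exact absurd hp (Option.some_ne_none i).symm
  · intro hp
    refine ⟨hA hp, ?_⟩
    unfold UW2_mk
    rw [if_pos hp]

private theorem UW2_mk_fb {i : ι} {γ : Q → Option ι} (h : ∀ p, γ p = none ∨ γ p = some i) :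
    UW2_mk Q i (fb Q γ i) = γ := by
  funext p
  unfold UW2_mk
  rcases h p with h1 | h1
  · rw [if_neg, h1]
    intro h2
    obtain ⟨_, h3⟩ := (mem_fb Q).1 h2
    rw [h1] at h3
    exact absurd h3 (Option.some_ne_none i).symm
  · rw [if_pos, h1]
    exact (mem_fb Q).2 ⟨p.2, h1⟩

private theorem UW2_sp_mk (i : ι) {A : Finset ℕ} (hA : A ⊆ Q) : sp Q (UW2_mk Q i A) = A := by
  ext p
  rw [mem_sp]
  constructor
  · rintro ⟨h, hp⟩
    by_contra hn
    apply hp
    unfold UW2_mk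
    rw [if_neg hn]
  · intro hp
    refine ⟨hA hp, ?_⟩
    unfold UW2_mk
    rw [if_pos hp]
    exact Option.some_ne_none i

private theorem UW2_cond (i : ι) (A : Finset ℕ) (p : Q) : UW2_mk Q i A p = none ∨ UW2_mk Q i A p = some i := by
  unfold UW2_mk
  split_ifs
  · exact Or.inr rfl
  · exact Or.inl rfl

private theorem UW2_ee (b : ι → ℕ) (i : ι) {A : Finset ℕ} (hA : A ⊆ Q) (n : ℕ) :
    ee Q b (UW2_mk Q i A) n = ∏ p ∈ A, psi p (n + b i) := by
  unfold ee
  have h1 : ∀ p : Q, loc b p (UW2_mk Q i A p) n = (fun q : ℕ => if q ∈ A then psi q (n + b i) else 1) p := by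
    intro p
    unfold UW2_mk
    by_cases h : (p : ℕ) ∈ A
    · simp only [if_pos h]
      rfl
    · simp only [if_neg h]
      rfl
  rw [Finset.prod_congr rfl fun p _ => h1 p, Finset.prod_coe_sort Q (fun q : ℕ => if q ∈ A then psi q (n + b i) else 1),
    Finset.prod_ite_mem, Finset.inter_eq_right.2 hA]

private theorem UW2_sum (F : (Q → Option ι) → ℝ) (i : ι)
    (hF : ∀ γ, ¬ (∀ p, γ p = none ∨ γ p = some i) → F γ = 0) :
    ∑ γ, F γ = ∑ A ∈ Q.powerset, F (UW2_mk Q i A) := by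
  classical
  rw [← Finset.sum_filter_add_sum_filter_not Finset.univ (fun γ : Q → Option ι => ∀ p, γ p = none ∨ γ p = some i) F]
  have h0 : ∑ γ ∈ Finset.univ.filter (fun γ : Q → Option ι => ¬ ∀ p, γ p = none ∨ γ p = some i), F γ = 0 :=
    Finset.sum_eq_zero fun γ hγ => hF γ (Finset.mem_filter.1 hγ).2
  rw [h0, add_zero]
  refine Finset.sum_nbij' (fun γ => fb Q γ i) (fun A => UW2_mk Q i A) ?_ ?_ ?_ ?_ ?_
  · intro γ _
    exact Finset.mem_powerset.2 (fb_subset Q γ i)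
  · intro A _
    exact Finset.mem_filter.2 ⟨Finset.mem_univ _, UW2_cond i A⟩
  · intro γ hγ
    exact UW2_mk_fb (Finset.mem_filter.1 hγ).2
  · intro A hA
    exact UW2_fb_mk i (Finset.mem_powerset.1 hA)
  · intro γ hγ
    rw [UW2_mk_fb (Finset.mem_filter.1 hγ).2]

private theorem UW2_ee_none (b : ι → ℕ) (n : ℕ) : ee Q b (fun _ => none) n = 1 := by
  unfold ee
  exact Finset.prod_eq_one fun p _ => rfl

private theorem UW2_sp_none : sp Q (fun _ => (none : Option ι)) = ∅ := by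
  ext p
  rw [mem_sp]
  simp

private theorem UW2_y0p_ne {γ : Q → Option ι} (h : γ ≠ fun _ => none) : y0p Q γ = 0 := by
  unfold y0p
  rw [if_neg]
  intro h1
  exact h (funext h1)

private theorem UW2_y0p_eq : y0p Q (fun _ => (none : Option ι)) = 1 := by
  unfold y0p
  rw [if_pos]
  intro p
  rfl

theorem PhiF_y0p (b : ι → ℕ) (n : ℕ) : PhiF Q b (y0p Q) n = 1 := by
  unfold PhiF
  rw [Finset.sum_eq_single (fun _ => none)]
  · rw [UW2_y0p_eq, UW2_ee_none, mul_one]
  · intro γ _ h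
    rw [UW2_y0p_ne h, zero_mul]
  · intro h
    exact absurd (Finset.mem_univ _) h

theorem DD_y0p : DD Q (y0p (ι := ι) Q) = 1 := by
  unfold DD
  rw [Finset.sum_eq_single (fun _ => none)]
  · rw [UW2_y0p_eq, UW2_sp_none]
    simp [ph]
  · intro γ _ h
    rw [UW2_y0p_ne h]
    simp
  · intro h
    exact absurd (Finset.mem_univ _) h

theorem PhiF_y1p (c : Finset ℕ → ℝ) (i : ι) (b : ι → ℕ) (n : ℕ) : PhiF Q b (y1p Q c i) n = Lc Q c (n + b i) := by
  unfold PhiF Lc
  rw [UW2_sum (fun γ => y1p Q c i γ * ee Q b γ n) i]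
  · refine Finset.sum_congr rfl fun A hA => ?_
    have hA' := Finset.mem_powerset.1 hA
    rw [UW2_ee b i hA' n]
    unfold y1p
    rw [if_pos (UW2_cond i A), UW2_fb_mk i hA']
  · intro γ h
    unfold y1p
    rw [if_neg h, zero_mul]

theorem DD_y1p (c : Finset ℕ → ℝ) (i : ι) : DD Q (y1p Q c i) = nrm Q c := by
  unfold DD nrm
  rw [UW2_sum (fun γ => y1p Q c i γ ^ 2 / ph (sp Q γ)) i]
  · refine Finset.sum_congr rfl fun A hA => ?_
    have hA' := Finset.mem_powerset.1 hA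
    rw [UW2_sp_mk i hA']
    unfold y1p
    rw [if_pos (UW2_cond i A), UW2_fb_mk i hA']
  · intro γ h
    unfold y1p
    rw [if_neg h]
    simp

/-- the fibres at the positions different from `i`, `j` are empty -/
private theorem UW2_fb_other {i j : ι} {γ : Q → Option ι} (h : ∀ p, γ p = none ∨ γ p = some i ∨ γ p = some j) {l : ι}
    (h1 : l ≠ i) (h2 : l ≠ j) : fb Q γ l = ∅ := by
  rw [Finset.eq_empty_iff_forall_notMem]
  intro p hp
  obtain ⟨h3, h4⟩ := (mem_fb Q).1 hp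
  rcases h ⟨p, h3⟩ with h5 | h5 | h5
  · rw [h5] at h4
    exact absurd h4 (Option.some_ne_none l).symm
  · rw [h5] at h4
    exact h1 (Option.some.inj h4).symm
  · rw [h5] at h4
    exact h2 (Option.some.inj h4).symm

private theorem UW2_two {i j : ι} (hij : i ≠ j) {γ : Q → Option ι}
    (h : ∀ p, γ p = none ∨ γ p = some i ∨ γ p = some j) :
    ph (sp Q γ) = ph (fb Q γ i) * ph (fb Q γ j) ∧ rr (sp Q γ) = rr (fb Q γ i) * rr (fb Q γ j) := by
  constructor
  · rw [ph_sp]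
    refine Finset.prod_eq_mul i j hij ?_ (fun h => absurd (Finset.mem_univ _) h) (fun h => absurd (Finset.mem_univ _) h)
    rintro l _ ⟨h1, h2⟩
    rw [UW2_fb_other h h1 h2]
    simp [ph]
  · rw [rr_sp]
    refine Finset.prod_eq_mul i j hij ?_ (fun h => absurd (Finset.mem_univ _) h) (fun h => absurd (Finset.mem_univ _) h)
    rintro l _ ⟨h1, h2⟩
    rw [UW2_fb_other h h1 h2]
    simp [rr]

private theorem UW2_ph_nonneg (hQ : ∀ p ∈ Q, p.Prime) {A : Finset ℕ} (hA : A ⊆ Q) : 0 ≤ ph A :=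
  (ph_pos Q hQ hA).le

theorem DD_y2p_le (hQ : ∀ p ∈ Q, p.Prime) (c c' : Finset ℕ → ℝ) {i j : ι} (hij : i ≠ j) :
    DD Q (y2p Q c c' i j) ≤ nrm Q c * nrm Q c' := by
  classical
  unfold DD nrm
  rw [Finset.sum_mul_sum, ← Finset.sum_product']
  let C : (Q → Option ι) → Prop := fun γ => ∀ p, γ p = none ∨ γ p = some i ∨ γ p = some j
  let F : Finset ℕ × Finset ℕ → ℝ := fun x => c x.1 ^ 2 / ph x.1 * (c' x.2 ^ 2 / ph x.2)
  rw [← Finset.sum_filter_add_sum_filter_not Finset.univ C (fun γ => y2p Q c c' i j γ ^ 2 / ph (sp Q γ))]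
  have h0 : ∑ γ ∈ Finset.univ.filter (fun γ : Q → Option ι => ¬ C γ), y2p Q c c' i j γ ^ 2 / ph (sp Q γ) = 0 := by
    refine Finset.sum_eq_zero fun γ hγ => ?_
    have h1 : ¬ C γ := (Finset.mem_filter.1 hγ).2
    unfold y2p
    rw [if_neg h1]
    simp
  rw [h0, add_zero]
  have h2 : ∑ γ ∈ Finset.univ.filter C, y2p Q c c' i j γ ^ 2 / ph (sp Q γ) =
      ∑ γ ∈ Finset.univ.filter C, F (fb Q γ i, fb Q γ j) := by
    refine Finset.sum_congr rfl fun γ hγ => ?_
    have h3 : C γ := (Finset.mem_filter.1 hγ).2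
    unfold y2p
    rw [if_pos h3, (UW2_two hij h3).1, mul_pow, ← div_mul_div_comm]
  have hinj : Set.InjOn (fun γ : Q → Option ι => (fb Q γ i, fb Q γ j)) (Finset.univ.filter C : Finset (Q → Option ι)) := by
    intro γ hγ γ' hγ' heq
    have h3 : C γ := (Finset.mem_filter.1 (Finset.mem_coe.1 hγ)).2
    have h3' : C γ' := (Finset.mem_filter.1 (Finset.mem_coe.1 hγ')).2
    have h4 : fb Q γ i = fb Q γ' i := congrArg Prod.fst heq
    have h5 : fb Q γ j = fb Q γ' j := congrArg Prod.snd heq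
    apply fb_injective Q
    funext l
    by_cases hl : l = i
    · rw [hl, h4]
    · by_cases hl' : l = j
      · rw [hl', h5]
      · rw [UW2_fb_other h3 hl hl', UW2_fb_other h3' hl hl']
  rw [h2, ← Finset.sum_image (f := F) hinj]
  refine Finset.sum_le_sum_of_subset_of_nonneg ?_ ?_
  · intro x hx
    obtain ⟨γ, _, rfl⟩ := Finset.mem_image.1 hx
    exact Finset.mem_product.2 ⟨Finset.mem_powerset.2 (fb_subset Q γ i), Finset.mem_powerset.2 (fb_subset Q γ j)⟩
  · intro x hx _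
    obtain ⟨h5, h6⟩ := Finset.mem_product.1 hx
    exact mul_nonneg (div_nonneg (sq_nonneg _) (UW2_ph_nonneg hQ (Finset.mem_powerset.1 h5)))
      (div_nonneg (sq_nonneg _) (UW2_ph_nonneg hQ (Finset.mem_powerset.1 h6)))

theorem y1p_abs {c : Finset ℕ → ℝ} (hc : ∀ A, |c A| ≤ 1) (i : ι) (γ : Q → Option ι) : |y1p Q c i γ| ≤ 1 := by
  unfold y1p
  split_ifs
  · exact hc _
  · simp

theorem y2p_abs {c c' : Finset ℕ → ℝ} (hc : ∀ A, |c A| ≤ 1) (hc' : ∀ A, |c' A| ≤ 1) (i j : ι) (γ : Q → Option ι) :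
    |y2p Q c c' i j γ| ≤ 1 := by
  unfold y2p
  split_ifs
  · rw [abs_mul]
    calc |c (fb Q γ i)| * |c' (fb Q γ j)| ≤ 1 * 1 := mul_le_mul (hc _) (hc' _) (abs_nonneg _) zero_le_one
      _ = 1 := mul_one 1
  · simp

theorem y1p_supp {c : Finset ℕ → ℝ} {z k : ℕ} (hc : ∀ A, c A ≠ 0 → rr A ≤ (z : ℝ) ^ k) {i : ι} {γ : Q → Option ι}
    (h : y1p Q c i γ ≠ 0) : rr (sp Q γ) ≤ (z : ℝ) ^ k ∧ ∀ p i', γ p = some i' → i' = i := by
  unfold y1p at h
  by_cases h1 : ∀ p, γ p = none ∨ γ p = some i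
  · rw [if_pos h1] at h
    constructor
    · have h2 : rr (sp Q γ) = rr (fb Q γ i) := by
        rw [← UW2_mk_fb h1, UW2_sp_mk i (fb_subset Q γ i), UW2_fb_mk i (fb_subset Q γ i)]
      rw [h2]
      exact hc _ h
    · intro p i' hp
      rcases h1 p with h3 | h3
      · rw [h3] at hp
        exact absurd hp (Option.some_ne_none i').symm
      · rw [h3] at hp
        exact (Option.some.inj hp).symm
  · rw [if_neg h1] at h
    exact absurd rfl h

theorem y2p_supp {c c' : Finset ℕ → ℝ} {z k : ℕ} (hz : 1 ≤ z) (hc : ∀ A, c A ≠ 0 → rr A ≤ (z : ℝ) ^ k)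
    (hc' : ∀ A, c' A ≠ 0 → rr A ≤ (z : ℝ) ^ k) {i j : ι} (hij : i ≠ j) {γ : Q → Option ι}
    (h : y2p Q c c' i j γ ≠ 0) : rr (sp Q γ) ≤ (z : ℝ) ^ (2 * k) ∧ ∀ p i', γ p = some i' → i' = i ∨ i' = j := by
  unfold y2p at h
  by_cases h1 : ∀ p, γ p = none ∨ γ p = some i ∨ γ p = some j
  · rw [if_pos h1] at h
    constructor
    · rw [(UW2_two hij h1).2, two_mul, pow_add]
      refine mul_le_mul (hc _ (left_ne_zero_of_mul h)) (hc' _ (right_ne_zero_of_mul h)) ?_ (by positivity)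
      unfold rr
      exact Finset.prod_nonneg fun p _ => Nat.cast_nonneg _
    · intro p i' hp
      rcases h1 p with h3 | h3 | h3
      · rw [h3] at hp
        exact absurd hp (Option.some_ne_none i').symm
      · rw [h3] at hp
        exact Or.inl (Option.some.inj hp).symm
      · rw [h3] at hp
        exact Or.inr (Option.some.inj hp).symm
  · rw [if_neg h1] at h
    exact absurd rfl h

theorem nrm_nonnegU (hQ : ∀ p ∈ Q, p.Prime) (c : Finset ℕ → ℝ) : 0 ≤ nrm Q c := by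
  unfold nrm
  exact Finset.sum_nonneg fun A hA => div_nonneg (sq_nonneg _) (UW2_ph_nonneg hQ (Finset.mem_powerset.1 hA))

end Pool.Agent.LibFB63
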