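import Pool.Agent.LibFB63.UW7
import Pool.Agent.LibFB63.UW1b
import Pool.Agent.LibFB63.UW2

/-!
Row UW7b (the quadratic form with the factor `Lc Q c (n + a)²`). `quE` (row UW7) for `P = P1 ∪ Q`, `y' = yX P P1 Q y (y1p Q c i0)`: `PhiS P … y' E n = PhiS P1 … y E n * Lc Q c (n + b i0)` (`PhiS_yX`, `PhiF_y1p`; `y1p_supp`: only the position `i0` is used, and `b i0 ∈ E`),
`dgV P … y' = dgV P1 … y * nrm Q c` (`dgV_yX`, `DD_y1p`), `|y'| ≤ B` (`yX_abs`, `y1p_abs`), support by `yX_supp` with `J = {i0}` and level `L + j` (`y1p_supp`; `{i0} ∪ s = insert i0 s`).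
-/

open Finset Filter

namespace Pool.Agent.LibFB63

open Pool.Agent.LibRG87 Pool.Agent.LibLG5 Pool.Agent.LibPL63 Pool.Agent.LibSC93 Pool.Agent.LibGL22

variable {R : Prm} {C Cq Cm : ℕ} {c cD Λ δ : ℝ}

theorem qfU (hq : QFRpS Cq) (hp : ParG R C Cq Cm c cD Λ δ) :
    ∀ᶠ z : ℕ in atTop, ∀ p1 : ℕ, p1.Prime → ∀ (c0 : ℕ) (h K E : Finset ℕ),
      PosS z p1 c0 R.k (Λ * R.q) h K → (E = h ∨ ∃ j ∈ K, E = insert j h) →
      ∀ m : ℕ, 1 ≤ m → (∀ p : ℕ, p.Prime → p ∣ m → z < p) → ∀ P1 ⊆ PG R z p1, (∀ p ∈ P1, ¬ p ∣ m) →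
      ∀ Q ⊆ PG R z p1, (∀ p ∈ Q, ¬ p ∣ m) → Disjoint P1 Q →
      ∀ L j : ℕ, m * z ^ (2 * (L + j) + 4 * R.u + 10) ≤ z ^ R.q →
      ∀ (c1 : ℕ) (i0 : ↥h ⊕ ↥K) (y : (P1 → Option (↥h ⊕ ↥K)) → ℝ) (B : ℝ), bS h K i0 ∈ E → 0 < B →
        (∀ β, |y β| ≤ B) → (∀ β, y β ≠ 0 → rr (sp P1 β) ≤ (z : ℝ) ^ L ∧ (insert i0 (sui P1 β)).card ≤ R.K) →
        ∀ cf : Finset ℕ → ℝ, (∀ A, |cf A| ≤ 1) → (∀ A, cf A ≠ 0 → rr A ≤ (z : ℝ) ^ j) →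
      |∑ n ∈ sN (z ^ R.q) (Wp z p1 * m) c1,
            PhiS P1 (P0 z p1) (bS h K) y E n ^ 2 * Lc Q cf (n + bS h K i0) ^ 2 -
          NW R z p1 / m * (dgV P1 (VP (P0 z p1)) (bS h K) E y * nrm Q cf)| ≤
        NW R z p1 / m * (B ^ 2 * (2 * R.e Cq Λ * VP (P0 z p1) E)) := by
  filter_upwards [quE hq hp] with z hz
  intro p1 hp1 c0 h K E hPos hE m hm1 hm P1 hP1 hP1m Q hQ hQm hd L j hL c1 i0 y B hi0 hB hy hsupp
    cf hcf hcfs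
  have hy2 : ∀ γ, y1p Q cf i0 γ ≠ 0 → ∀ p i, γ p = some i → bS h K i ∈ E := by
    intro γ hγ p i hpi
    rw [(y1p_supp hcfs hγ).2 p i hpi]
    exact hi0
  have h1 := hz p1 hp1 c0 h K E hPos hE m hm1 hm (P1 ∪ Q) (Finset.union_subset hP1 hQ)
    (fun p hp' => by
      rcases Finset.mem_union.1 hp' with h2 | h2
      · exact hP1m p h2
      · exact hQm p h2)
    (L + j) hL c1 (yX (P1 ∪ Q) P1 Q y (y1p Q cf i0)) B hB
    (yX_abs hB.le hy (y1p_abs hcf i0))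
    (fun β hβ => yX_supp (J := {i0}) rfl hd
      (fun α hα => by
        have h2 := hsupp α hα
        rw [Finset.insert_eq] at h2
        exact h2)
      (fun γ hγ => ⟨(y1p_supp hcfs hγ).1, fun p i hpi => by
        rw [(y1p_supp hcfs hγ).2 p i hpi]
        exact Finset.mem_singleton_self _⟩) hβ)
  rw [dgV_yX rfl hd (VP (P0 z p1)) (bS h K) E y (y1p Q cf i0) hy2, DD_y1p] at h1
  have h3 : ∀ n, PhiS (P1 ∪ Q) (P0 z p1) (bS h K) (yX (P1 ∪ Q) P1 Q y (y1p Q cf i0)) E n ^ 2 =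
      PhiS P1 (P0 z p1) (bS h K) y E n ^ 2 * Lc Q cf (n + bS h K i0) ^ 2 := by
    intro n
    rw [PhiS_yX rfl hd (P0 z p1) (bS h K) E n y (y1p Q cf i0) hy2, PhiF_y1p, mul_pow]
  simp only [h3] at h1
  exact h1

end Pool.Agent.LibFB63
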