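import Pool.Agent.LibFB63.UFa
import Pool.Agent.LibFB63.UW7b
import Pool.Agent.LibSC93.J3

/-!
Row UF1 (one position, upper bound). `i0 = inl ⟨a, _⟩`, `y = ySel Ps z u i0 YP`, `B = G1G`.
-/

open Finset Filter

namespace Pool.Agent.LibFB63

open Pool.Agent.LibRG87 Pool.Agent.LibLG5 Pool.Agent.LibPL63 Pool.Agent.LibSC93 Pool.Agent.LibGL22

theorem UF_er_ge {R : Prm} {C Cq Cm : ℕ} {c cD Λ δ : ℝ} (hp : ParG R C Cq Cm c cD Λ δ) (z p1 : ℕ) (h : Finset ℕ)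
    {x : ℝ} (hx : x ≤ (R.q : ℝ) ^ 6) : x * (R.e Cq Λ * VP (P0 z p1) h) ≤ er R z p1 Cq Λ h := by
  unfold er
  have h1 := mul_le_mul_of_nonneg_right hx (mul_nonneg (e_pos hp).le (UF_V0 z p1 h))
  refine h1.trans (le_of_eq ?_)
  ring

theorem u1_main : ∃ C0 : ℕ, ∀ (R : Prm) (C Cq Cm : ℕ) (c cD Λ δ : ℝ), QFRpS Cq → ParG R C Cq Cm c cD Λ δ → C0 ≤ δ * R.D →
    ∀ᶠ z : ℕ in atTop, ∀ p1 : ℕ, p1.Prime → ∀ (c0 : ℕ) (h K : Finset ℕ), PosS z p1 c0 R.k (Λ * R.q) h K →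
      U1 R Cq Λ δ z p1 c0 h K := by
  obtain ⟨C0, hC0⟩ := gs_ge
  refine ⟨C0, fun R C Cq Cm c cD Λ δ hq hp hD => ?_⟩
  obtain ⟨hq0, hk, hu, hq0u, hq0u', hM, hk2, hk21, huk, hk1q, _, _⟩ := prm_le hp
  have hδ := hp.hδ
  have hδ1 := hp.hδ1
  have ha : 1 ≤ R.a := by
    have := hp.sums.1
    omega
  filter_upwards [hC0 R C Cq Cm c cD Λ δ hp hD (12 * R.q), qfU hq hp, G_le_q hp, baseG hp 1 one_pos,
    eventually_ge_atTop 4] with z hG hqf hGq hBs hz4 p1 hp1 c0 h K hpos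
  intro a haH e he hep Q hQ hQe cf j hcf hcf' hlev
  have hz1 : 1 ≤ z := by omega
  have hz2 : 2 ≤ z := by omega
  have hG1q := (hGq p1 hp1).1
  have hB := hBs p1
  have hG11 := (one_le_G hB).1
  have hcard : h.card = R.k := hpos.1
  have hzl1 : z ≤ z ^ l1 R := by
    have : 1 ≤ l1 R := Nat.mul_pos hq0 (Nat.pos_of_ne_zero (pow_ne_zero _ (by omega)))
    calc z = z ^ 1 := (pow_one z).symm
      _ ≤ z ^ l1 R := Nat.pow_le_pow_right (by omega) this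
  have hez : ∀ p : ℕ, p.Prime → p ∣ e → z < p := fun p hp' hpe => lt_of_le_of_lt hzl1 (hep p hp' hpe)
  have hPse : ∀ p ∈ Ps R z p1, ¬ p ∣ e := by
    intro p hp' hpe
    have h0 := UF_Ps_mem hp hz1 hp'
    have h1 := hep p h0.1 hpe
    omega
  have hQPG : Q ⊆ PG R z p1 := hQ.trans Finset.sdiff_subset
  have hdisQ : Disjoint (Ps R z p1) Q := by
    refine Finset.disjoint_left.2 fun p hp' hq' => ?_
    exact (Finset.mem_sdiff.1 (hQ hq')).2 hp'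
  obtain ⟨c1, hc1⟩ := class_ex1 (z := z) (p1 := p1) (wf_le z) he hez (z ^ R.q) c0 a
  rw [hc1]
  -- pointwise
  have hpt : ∀ n ∈ sN (z ^ R.q) (Wp z p1 * e) c1,
      rhoP (Ps R z p1) {a} n * PsG R z p1 h K n ^ 2 * Lc Q cf (n + a) ^ 2 ≤
        PhiS (Ps R z p1) (P0 z p1) (bS h K)
          (ySel (Ps R z p1) z R.u (Sum.inl ⟨a, haH⟩) (YP R z p1 h K)) h n ^ 2 * Lc Q cf (n + a) ^ 2 := by
    intro n _
    refine mul_le_mul_of_nonneg_right ?_ (sq_nonneg _)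
    by_cases hr : ∀ p ∈ Ps R z p1, ¬ p ∣ n + a
    · have hrho : rhoP (Ps R z p1) {a} n ≤ 1 := by
        unfold rhoP
        split_ifs <;> norm_num
      refine (mul_le_mul_of_nonneg_right hrho (sq_nonneg _)).trans ?_
      rw [one_mul]
      rcases UF_PsG_sel (h := h) (K := K) hp hz2 R.u ⟨a, haH⟩ n hr with h0 | ⟨_, h0⟩
      · rw [h0]
        have : (0 : ℝ) ^ 2 = 0 := by norm_num
        rw [this]
        exact sq_nonneg _
      · rw [h0]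
    · have hrho : rhoP (Ps R z p1) {a} n = 0 := by
        unfold rhoP
        rw [if_neg]
        intro hh
        exact hr (hh a (Finset.mem_singleton_self a))
      rw [hrho, zero_mul]
      exact sq_nonneg _
  refine (Finset.sum_le_sum hpt).trans ?_
  have hlev' : e * z ^ (2 * ((2 * R.u + 2 * R.q0 + R.u) + j) + 4 * R.u + 10) ≤ z ^ R.q := by
    refine le_trans (Nat.mul_le_mul_left _ (Nat.pow_le_pow_right (by omega) ?_)) hlev
    omega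
  have hmain := hqf p1 hp1 c0 h K h hpos (Or.inl rfl) e he hez (Ps R z p1) (Ps_sub hp hz1 p1) hPse Q hQPG hQe hdisQ
    (2 * R.u + 2 * R.q0 + R.u) j hlev' c1 (Sum.inl ⟨a, haH⟩)
    (ySel (Ps R z p1) z R.u (Sum.inl ⟨a, haH⟩) (YP R z p1 h K)) (G1G R z p1) haH (by linarith)
    (UF_selP_abs hp hB R.u ⟨a, haH⟩)
    (fun β hβ => by
      have h1 := UF_selP_supp hp hB hcard R.u ⟨a, haH⟩ hβ
      exact ⟨h1.1, h1.2.2.2⟩) cf hcf hcf'
  have h1 := (abs_le.1 hmain).2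
  have hdg := UF_selP_dg hp hB (K := K) hcard R.u ⟨a, haH⟩ (fun S hS hSc => hG p1 R.u le_rfl S hS hSc)
  have hm1 := UF_m1 (h := h) (K := K) hp hB
  have hdg2 := hdg.trans (mul_le_mul_of_nonneg_right (show 1 / (1 - δ / 16) ≤ 1 + δ by
    rw [div_le_iff₀ (by linarith)]
    nlinarith) hm1)
  have hnrm : 0 ≤ nrm Q cf := nrm_nonnegU (fun p hp' => (PG_mem (hQPG hp')).1) cf
  have hNW : 0 ≤ NW R z p1 / e := by
    unfold NW
    positivity
  have hmul := mul_le_mul_of_nonneg_right hdg2 hnrm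
  have her : G1G R z p1 ^ 2 * (2 * R.e Cq Λ * VP (P0 z p1) h) ≤ er R z p1 Cq Λ h := by
    have hqR : (2 : ℝ) ≤ R.q := by
      have : 2 ≤ R.q := by omega
      exact_mod_cast this
    have hG1' : G1G R z p1 ^ 2 ≤ (R.q : ℝ) ^ 2 := pow_le_pow_left₀ (by linarith) hG1q 2
    have h6 : 2 * G1G R z p1 ^ 2 ≤ (R.q : ℝ) ^ 6 := by
      have h7 : (2 : ℝ) * (R.q : ℝ) ^ 2 ≤ (R.q : ℝ) ^ 4 * (R.q : ℝ) ^ 2 := by
        refine mul_le_mul_of_nonneg_right ?_ (by positivity)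
        calc (2 : ℝ) ≤ 2 ^ 4 := by norm_num
          _ ≤ (R.q : ℝ) ^ 4 := pow_le_pow_left₀ (by norm_num) hqR 4
      calc 2 * G1G R z p1 ^ 2 ≤ 2 * (R.q : ℝ) ^ 2 := by linarith
        _ ≤ (R.q : ℝ) ^ 4 * (R.q : ℝ) ^ 2 := h7
        _ = (R.q : ℝ) ^ 6 := by ring
    refine le_trans (le_of_eq ?_) (UF_er_ge hp z p1 h h6)
    ring
  have h2 := mul_le_mul_of_nonneg_left hmul hNW
  have h3 := mul_le_mul_of_nonneg_left her hNW
  have h4 := add_le_add h2 h3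
  refine le_trans ?_ (h4.trans (le_of_eq ?_))
  · exact sub_le_iff_le_add'.1 h1
  · ring

end Pool.Agent.LibFB63
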