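import Pool.Agent.LibFB63.UD
import Pool.Agent.LibRG87.R0

/-!
Row UW3 (the overlap of two positions). `Lc Q c x * Lc Q c' y = ∑_{A, A'} c A c' A' ψ_A(x) ψ_{A'}(y)`; the pairs with `A ∩ A' = ∅` give `PhiF Q b (y2p Q c c' i j) n` (bijection with the `γ` with values in `{none, some i, some j}`,
`ee Q b γ n = ψ_A(n + b i) ψ_{A'}(n + b j)`). A pair with `A ∩ A' ≠ ∅` has a common prime `p ∈ Q`: its absolute value is at most `|ψ_p(x) ψ_p(y)| |ψ_{A \ p}(x)| |ψ_{A' \ p}(y)|` (`|c|, |c'| ≤ 1`); sum over `p ∈ Q`, `A \ p`, `A' \ p ⊆ Q.erase p ⊆ Q`: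
`∑_{T ⊆ Q} ∏_{p ∈ T} |ψ_p| = ∏_{p ∈ Q} (1 + |ψ_p|)` (`Finset.prod_one_add`).
-/

open Finset Filter

namespace Pool.Agent.LibFB63

open Pool.Agent.LibRG87 Pool.Agent.LibLG5 Pool.Agent.LibPL63 Pool.Agent.LibSC93 Pool.Agent.LibGL22

variable {ι : Type} [Fintype ι] [DecidableEq ι] {Q : Finset ℕ}

private theorem UW3_ee {i j : ι} (hij : i ≠ j) (b : ι → ℕ) (n : ℕ) {γ : Q → Option ι}
    (hγ : ∀ p, γ p = none ∨ γ p = some i ∨ γ p = some j) :
    ee Q b γ n = (∏ p ∈ fb Q γ i, psi p (n + b i)) * ∏ p ∈ fb Q γ j, psi p (n + b j) := by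
  classical
  unfold ee fb
  rw [Finset.prod_image (fun _ _ _ _ h => Subtype.val_injective h),
    Finset.prod_image (fun _ _ _ _ h => Subtype.val_injective h), Finset.prod_filter,
    Finset.prod_filter, ← Finset.prod_mul_distrib]
  refine Finset.prod_congr rfl (fun p _ => ?_)
  rcases hγ p with h | h | h
  · simp [loc, h]
  · have h1 : ¬ (i = j) := hij
    simp [loc, h, h1]
  · have h1 : ¬ (j = i) := fun e => hij e.symm
    simp [loc, h, h1]

private theorem UW3_one (u : ℕ → ℝ) (hu : ∀ q, 0 ≤ u q) (p : ℕ) :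
    ∑ A ∈ Q.powerset.filter (fun A => p ∈ A), ∏ q ∈ A, u q ≤ u p * ∏ q ∈ Q, (1 + u q) := by
  classical
  rw [Finset.prod_one_add]
  have h1 : ∑ A ∈ Q.powerset.filter (fun A => p ∈ A), ∏ q ∈ A, u q =
      u p * ∑ A ∈ Q.powerset.filter (fun A => p ∈ A), ∏ q ∈ A.erase p, u q := by
    rw [Finset.mul_sum]
    refine Finset.sum_congr rfl (fun A hA => ?_)
    rw [Finset.mem_filter] at hA
    exact (Finset.mul_prod_erase A u hA.2).symm
  rw [h1]
  refine mul_le_mul_of_nonneg_left ?_ (hu p)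
  have hinj : Set.InjOn (fun A : Finset ℕ => A.erase p)
      ((Q.powerset.filter (fun A => p ∈ A) : Finset (Finset ℕ)) : Set (Finset ℕ)) := by
    intro A hA B hB h
    rw [Finset.mem_coe, Finset.mem_filter] at hA hB
    have h2 : A.erase p = B.erase p := h
    rw [← Finset.insert_erase hA.2, ← Finset.insert_erase hB.2, h2]
  have h3 := Finset.sum_image (f := fun T : Finset ℕ => ∏ q ∈ T, u q) hinj
  rw [← h3]
  refine Finset.sum_le_sum_of_subset_of_nonneg ?_ (fun T _ _ => Finset.prod_nonneg (fun q _ => hu q))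
  intro T hT
  rw [Finset.mem_image] at hT
  obtain ⟨A, hA, rfl⟩ := hT
  rw [Finset.mem_filter, Finset.mem_powerset] at hA
  exact Finset.mem_powerset.2 ((Finset.erase_subset _ _).trans hA.1)

private theorem UW3_Phi {c c' : Finset ℕ → ℝ} {i j : ι} (hij : i ≠ j) (b : ι → ℕ) (n : ℕ) :
    PhiF Q b (y2p Q c c' i j) n =
      ∑ q ∈ (Q.powerset ×ˢ Q.powerset).filter (fun q => Disjoint q.1 q.2),
        (c q.1 * ∏ p ∈ q.1, psi p (n + b i)) * (c' q.2 * ∏ p ∈ q.2, psi p (n + b j)) := by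
  classical
  unfold PhiF y2p
  have h1 : ∀ γ : Q → Option ι,
      (if ∀ p, γ p = none ∨ γ p = some i ∨ γ p = some j then c (fb Q γ i) * c' (fb Q γ j) else 0) *
        ee Q b γ n =
      if ∀ p, γ p = none ∨ γ p = some i ∨ γ p = some j then
        (c (fb Q γ i) * ∏ p ∈ fb Q γ i, psi p (n + b i)) *
          (c' (fb Q γ j) * ∏ p ∈ fb Q γ j, psi p (n + b j)) else 0 := by
    intro γ
    by_cases h : ∀ p, γ p = none ∨ γ p = some i ∨ γ p = some j
    · rw [if_pos h, if_pos h, UW3_ee hij b n h]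
      ring
    · rw [if_neg h, if_neg h, zero_mul]
  rw [Finset.sum_congr rfl (fun γ _ => h1 γ), ← Finset.sum_filter]
  refine Finset.sum_bij (fun γ _ => (fb Q γ i, fb Q γ j)) ?_ ?_ ?_ ?_
  · intro γ _
    rw [Finset.mem_filter, Finset.mem_product]
    exact ⟨⟨Finset.mem_powerset.2 (fb_subset Q γ i), Finset.mem_powerset.2 (fb_subset Q γ j)⟩,
      fb_disjoint Q γ hij⟩
  · intro γ hγ γ' hγ' h
    rw [Finset.mem_filter] at hγ hγ'
    have hi : fb Q γ i = fb Q γ' i := congrArg Prod.fst h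
    have hj : fb Q γ j = fb Q γ' j := congrArg Prod.snd h
    have key : ∀ (δ : Q → Option ι), (∀ p, δ p = none ∨ δ p = some i ∨ δ p = some j) →
        ∀ l, l ≠ i → l ≠ j → fb Q δ l = ∅ := by
      intro δ hδ l hli hlj
      rw [Finset.eq_empty_iff_forall_notMem]
      intro p hp
      obtain ⟨h1, h2⟩ := (mem_fb Q).1 hp
      rcases hδ ⟨p, h1⟩ with h3 | h3 | h3
      · rw [h3] at h2
        exact absurd h2 (by simp)
      · rw [h3] at h2
        exact hli (Option.some.inj h2).symm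
      · rw [h3] at h2
        exact hlj (Option.some.inj h2).symm
    apply fb_injective Q
    funext l
    by_cases hli : l = i
    · rw [hli]
      exact hi
    by_cases hlj : l = j
    · rw [hlj]
      exact hj
    rw [key γ hγ.2 l hli hlj, key γ' hγ'.2 l hli hlj]
  · rintro ⟨A, A'⟩ hA
    rw [Finset.mem_filter, Finset.mem_product] at hA
    obtain ⟨⟨hA1, hA2⟩, hd⟩ := hA
    have hA1' : A ⊆ Q := Finset.mem_powerset.1 hA1
    have hA2' : A' ⊆ Q := Finset.mem_powerset.1 hA2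
    have hd' : Disjoint A A' := hd
    have hji : ¬ (j = i) := fun e => hij e.symm
    have hij' : ¬ (i = j) := hij
    refine ⟨fun p => if (p : ℕ) ∈ A then some i else if (p : ℕ) ∈ A' then some j else none, ?_, ?_⟩
    · rw [Finset.mem_filter]
      refine ⟨Finset.mem_univ _, fun p => ?_⟩
      by_cases h1 : (p : ℕ) ∈ A
      · exact Or.inr (Or.inl (if_pos h1))
      · by_cases h2 : (p : ℕ) ∈ A'
        · exact Or.inr (Or.inr (by simp only [if_neg h1, if_pos h2]))
        · exact Or.inl (by simp only [if_neg h1, if_neg h2])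
    · refine Prod.ext ?_ ?_
      · ext p
        show p ∈ fb Q _ i ↔ p ∈ A
        rw [mem_fb]
        constructor
        · rintro ⟨h1, h2⟩
          by_contra h3
          by_cases h4 : p ∈ A'
          · simp [h3, h4, hji] at h2
          · simp [h3, h4] at h2
        · intro h1
          exact ⟨hA1' h1, by simp [h1]⟩
      · ext p
        show p ∈ fb Q _ j ↔ p ∈ A'
        rw [mem_fb]
        constructor
        · rintro ⟨h1, h2⟩
          by_contra h3
          by_cases h4 : p ∈ A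
          · simp [h4, hij'] at h2
          · simp [h3, h4] at h2
        · intro h1
          have h3 : p ∉ A := fun h4 => (Finset.disjoint_left.1 hd' h4) h1
          exact ⟨hA2' h1, by simp [h1, h3]⟩
  · intro γ _
    rfl

theorem overlap {c c' : Finset ℕ → ℝ} (hc : ∀ A, |c A| ≤ 1) (hc' : ∀ A, |c' A| ≤ 1) {i j : ι} (hij : i ≠ j)
    (b : ι → ℕ) (n : ℕ) :
    |Lc Q c (n + b i) * Lc Q c' (n + b j) - PhiF Q b (y2p Q c c' i j) n| ≤
      (∑ p ∈ Q, |psi p (n + b i) * psi p (n + b j)|) *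
        ((∏ p ∈ Q, (1 + |psi p (n + b i)|)) * ∏ p ∈ Q, (1 + |psi p (n + b j)|)) := by
  classical
  have hL : Lc Q c (n + b i) * Lc Q c' (n + b j) = ∑ q ∈ Q.powerset ×ˢ Q.powerset,
      (c q.1 * ∏ p ∈ q.1, psi p (n + b i)) * (c' q.2 * ∏ p ∈ q.2, psi p (n + b j)) := by
    unfold Lc
    rw [Finset.sum_mul_sum, Finset.sum_product]
  rw [hL, UW3_Phi hij b n, ← Finset.sum_filter_add_sum_filter_not (Q.powerset ×ˢ Q.powerset)
    (fun q => Disjoint q.1 q.2), add_sub_cancel_left]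
  have hbd : ∀ (d : Finset ℕ → ℝ), (∀ A, |d A| ≤ 1) → ∀ (x : ℕ) (A : Finset ℕ),
      |d A * ∏ p ∈ A, psi p x| ≤ ∏ p ∈ A, |psi p x| := by
    intro d hd x A
    rw [abs_mul, Finset.abs_prod]
    exact mul_le_of_le_one_left (Finset.prod_nonneg (fun _ _ => abs_nonneg _)) (hd A)
  refine (Finset.abs_sum_le_sum_abs _ _).trans ?_
  have hstep : ∀ q ∈ (Q.powerset ×ˢ Q.powerset).filter (fun q => ¬ Disjoint q.1 q.2),
      |(c q.1 * ∏ p ∈ q.1, psi p (n + b i)) * (c' q.2 * ∏ p ∈ q.2, psi p (n + b j))| ≤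
      ∑ p ∈ Q, (if p ∈ q.1 then ∏ r ∈ q.1, |psi r (n + b i)| else 0) *
        (if p ∈ q.2 then ∏ r ∈ q.2, |psi r (n + b j)| else 0) := by
    intro q hq
    rw [Finset.mem_filter, Finset.mem_product, Finset.mem_powerset, Finset.mem_powerset] at hq
    obtain ⟨⟨h1, h2⟩, h3⟩ := hq
    rw [Finset.not_disjoint_iff] at h3
    obtain ⟨p, hp1, hp2⟩ := h3
    rw [abs_mul]
    refine (mul_le_mul (hbd c hc _ _) (hbd c' hc' _ _) (abs_nonneg _)
      (Finset.prod_nonneg (fun _ _ => abs_nonneg _))).trans ?_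
    have h4 := Finset.single_le_sum (s := Q)
      (f := fun p => (if p ∈ q.1 then ∏ r ∈ q.1, |psi r (n + b i)| else 0) *
        (if p ∈ q.2 then ∏ r ∈ q.2, |psi r (n + b j)| else 0)) (fun r _ => by
          refine mul_nonneg ?_ ?_
          · split_ifs
            · exact Finset.prod_nonneg (fun _ _ => abs_nonneg _)
            · exact le_refl _
          · split_ifs
            · exact Finset.prod_nonneg (fun _ _ => abs_nonneg _)
            · exact le_refl _) (h1 hp1)
    simp only [if_pos hp1, if_pos hp2] at h4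
    exact h4
  refine (Finset.sum_le_sum hstep).trans ?_
  have hnn : ∀ q : Finset ℕ × Finset ℕ, 0 ≤ ∑ p ∈ Q,
      (if p ∈ q.1 then ∏ r ∈ q.1, |psi r (n + b i)| else 0) *
        (if p ∈ q.2 then ∏ r ∈ q.2, |psi r (n + b j)| else 0) := by
    intro q
    refine Finset.sum_nonneg (fun p _ => mul_nonneg ?_ ?_)
    · split_ifs
      · exact Finset.prod_nonneg (fun _ _ => abs_nonneg _)
      · exact le_refl _
    · split_ifs
      · exact Finset.prod_nonneg (fun _ _ => abs_nonneg _)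
      · exact le_refl _
  refine (Finset.sum_le_sum_of_subset_of_nonneg (Finset.filter_subset _ _)
    (fun q _ _ => hnn q)).trans ?_
  rw [Finset.sum_comm, Finset.sum_mul]
  refine Finset.sum_le_sum (fun p _ => ?_)
  rw [Finset.sum_product]
  rw [← Finset.sum_mul_sum Q.powerset Q.powerset
    (fun A => if p ∈ A then ∏ r ∈ A, |psi r (n + b i)| else 0)
    (fun A => if p ∈ A then ∏ r ∈ A, |psi r (n + b j)| else 0),
    ← Finset.sum_filter, ← Finset.sum_filter, abs_mul]
  have h5 := UW3_one (Q := Q) (fun r => |psi r (n + b i)|) (fun _ => abs_nonneg _) p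
  have h6 := UW3_one (Q := Q) (fun r => |psi r (n + b j)|) (fun _ => abs_nonneg _) p
  have h7 := mul_le_mul h5 h6 (Finset.sum_nonneg (fun _ _ => Finset.prod_nonneg
    (fun _ _ => abs_nonneg _))) (mul_nonneg (abs_nonneg _)
      (Finset.prod_nonneg (fun _ _ => by positivity)))
  refine h7.trans (le_of_eq ?_)
  ring

end Pool.Agent.LibFB63
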