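import Pool.Agent.LibFB63.UD
import Pool.Agent.LibSC93.PB
import Pool.Agent.LibRG87.R9

/-!
Row UW3b (size of the overlap). `∏_{p ∈ Q} (1 + |ψ_p(v)|) ≤ 2^t ∏_{p ∈ PP z (z^k1)} (1 + 1/(p-1)) ≤ 2^t C0 k1` for `0 < v ≤ z^t`, `t = q + 2` (see `PB_erase` and the proof of `PhiS_abs_le` in LibSC93/PB.lean: at most `t` primes `p > z` divide `v`; `NT_S_upper` for `C0`).
`∑_{p ∈ Q} |ψ_p(v) ψ_p(v')|`, `v = n + x`, `v' = n + y`, `0 < |x - y| < z < p`: `p` divides at most one of `v, v'`. If it divides one of them: `|ψ_p ψ_p| = 1/(p-1) ≤ 1/z`, at most `2 t` primes. Otherwise `1/(p-1)²`, sum `≤ 1/(z-1)` (`sum_inv_sq`, LibRG87/R9).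
So the product is `≤ (2 t + 2)/z * (2^t C0 k1)²`.
-/

open Finset Filter

namespace Pool.Agent.LibFB63

open Pool.Agent.LibRG87 Pool.Agent.LibLG5 Pool.Agent.LibPL63 Pool.Agent.LibSC93 Pool.Agent.LibGL22

private theorem UW3b_log : ∀ᶠ z : ℕ in atTop, Real.log (z : ℝ) ^ 2 ≤ (z : ℝ) := by
  have h1 : ∀ᶠ x : ℝ in atTop, ‖Real.log x ^ 2‖ ≤ 1 * ‖id x‖ :=
    (Real.isLittleO_pow_log_id_atTop (n := 2)).bound (by norm_num)
  filter_upwards [tendsto_natCast_atTop_atTop.eventually h1] with z h2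
  simp only [id, Real.norm_eq_abs, one_mul] at h2
  rw [abs_of_nonneg (sq_nonneg _), abs_of_nonneg (Nat.cast_nonneg z)] at h2
  exact h2

private theorem UW3b_sub {z k1 p1 : ℕ} {Q : Finset ℕ} (hQ : Q ⊆ PL z k1 p1) : Q ⊆ PP z (z ^ k1) := by
  intro p hp
  have h := hQ hp
  unfold PL at h
  exact Finset.mem_of_mem_erase h

private theorem UW3b_prod {z k1 p1 t N : ℕ} {Q : Finset ℕ} (hQ : Q ⊆ PL z k1 p1) (hz : 2 ≤ z) (hN : 0 < N)
    (hNt : N ≤ z ^ t) :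
    ∏ p ∈ Q, (1 + |psi p N|) ≤ 2 ^ t * ∏ p ∈ PP z (z ^ k1), (1 + 1 / ((p : ℝ) - 1)) := by
  classical
  refine le_trans ?_ (M9_one z (z ^ k1) t N hz hN hNt)
  rw [← Finset.prod_sdiff (UW3b_sub hQ)]
  refine le_mul_of_one_le_left (Finset.prod_nonneg fun p _ => by positivity) ?_
  apply Finset.one_le_prod
  intro p _
  have := abs_nonneg (psi p N)
  linarith

private theorem UW3b_card {z k1 p1 t N : ℕ} {Q : Finset ℕ} (hQ : Q ⊆ PL z k1 p1) (hz : 2 ≤ z) (hN : 0 < N)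
    (hNt : N ≤ z ^ t) : (Q.filter fun p => p ∣ N).card ≤ t :=
  (Finset.card_le_card (Finset.filter_subset_filter _ (UW3b_sub hQ))).trans (M9_div z (z ^ k1) t N hz hN hNt)

private theorem UW3b_dvd {n x y p z : ℕ} (hx : x ≤ z) (hy : y ≤ z) (hxy : x ≠ y) (hp : z < p)
    (h1 : p ∣ n + x) (h2 : p ∣ n + y) : False := by
  rcases Nat.lt_or_ge x y with h | h
  · have h3 : p ∣ (n + y) - (n + x) := Nat.dvd_sub h2 h1
    have h4 : (n + y) - (n + x) = y - x := by omega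
    rw [h4] at h3
    have := Nat.le_of_dvd (by omega) h3
    omega
  · have h3 : p ∣ (n + x) - (n + y) := Nat.dvd_sub h1 h2
    have h4 : (n + x) - (n + y) = x - y := by omega
    rw [h4] at h3
    have := Nat.le_of_dvd (by omega) h3
    omega

private theorem UW3b_term {n x y p z : ℕ} (hz : 2 ≤ z) (hx : x ≤ z) (hy : y ≤ z) (hxy : x ≠ y) (hp : z < p) :
    |psi p (n + x) * psi p (n + y)| ≤ (if p ∣ n + x then 1 / (z : ℝ) else 0) +
      (if p ∣ n + y then 1 / (z : ℝ) else 0) + 1 / ((p : ℝ) - 1) ^ 2 := by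
  have hz2 : (2 : ℝ) ≤ z := by exact_mod_cast hz
  have hz0 : (0 : ℝ) < z := by linarith
  have hpz : (z : ℝ) ≤ (p : ℝ) - 1 := by
    have h1 : ((z + 1 : ℕ) : ℝ) ≤ (p : ℝ) := by exact_mod_cast hp
    push_cast at h1
    linarith
  have hp0 : (0 : ℝ) < (p : ℝ) - 1 := by linarith
  have h1 : 1 / ((p : ℝ) - 1) ≤ 1 / (z : ℝ) := one_div_le_one_div_of_le hz0 hpz
  have h0 : 0 ≤ 1 / ((p : ℝ) - 1) := by positivity
  have h2 : 0 ≤ 1 / ((p : ℝ) - 1) ^ 2 := by positivity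
  rw [abs_mul]
  unfold psi
  by_cases hdx : p ∣ n + x
  · by_cases hdy : p ∣ n + y
    · exact (UW3b_dvd hx hy hxy hp hdx hdy).elim
    · rw [if_pos hdx, if_neg hdy, if_pos hdx, if_neg hdy, abs_neg, abs_one, one_mul, abs_of_nonneg h0]
      linarith
  · by_cases hdy : p ∣ n + y
    · rw [if_neg hdx, if_pos hdy, if_neg hdx, if_pos hdy, abs_neg, abs_one, mul_one, abs_of_nonneg h0]
      linarith
    · rw [if_neg hdx, if_neg hdy, if_neg hdx, if_neg hdy, abs_of_nonneg h0, zero_add, zero_add]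
      refine le_of_eq ?_
      rw [← sq, one_div_pow]

private theorem UW3b_big {z w : ℕ} (hz : 2 ≤ z) (hw : 1 ≤ w) : 2 * w + z ≤ w * z ^ 2 := by
  have h1 : z ≤ w * z := Nat.le_mul_of_pos_left z hw
  have h2 : w * (2 + z) ≤ w * z ^ 2 := Nat.mul_le_mul_left w (by nlinarith)
  have h3 : w * (2 + z) = 2 * w + w * z := by ring
  omega

theorem overlap_small (k1 q : ℕ) (hk1 : 1 ≤ k1) : ∃ Cn : ℝ, 0 ≤ Cn ∧ ∀ᶠ z : ℕ in atTop, ∀ p1 : ℕ, ∀ Q ⊆ PL z k1 p1,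
    ∀ x y : ℕ, x ≠ y → (x : ℝ) ≤ Real.log z ^ 2 → (y : ℝ) ≤ Real.log z ^ 2 → ∀ n : ℕ, 1 ≤ n → n ≤ 2 * z ^ q →
      (∑ p ∈ Q, |psi p (n + x) * psi p (n + y)|) *
        ((∏ p ∈ Q, (1 + |psi p (n + x)|)) * ∏ p ∈ Q, (1 + |psi p (n + y)|)) ≤ Cn / z := by
  classical
  obtain ⟨C0, -, hC0⟩ := NT_S_upper
  refine ⟨(2 * ((q + 2 : ℕ) : ℝ) + 2) * (2 ^ (q + 2) * (C0 * k1)) ^ 2, by positivity, ?_⟩
  filter_upwards [hC0 k1 hk1, UW3b_log, eventually_ge_atTop 2] with z hS hlog hz p1 Q hQ x y hxy hx hy n hn1 hn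
  have hz2 : (2 : ℝ) ≤ z := by exact_mod_cast hz
  have hz0 : (0 : ℝ) < z := by linarith
  have hxz : x ≤ z := by exact_mod_cast hx.trans hlog
  have hyz : y ≤ z := by exact_mod_cast hy.trans hlog
  have hbig : 2 * z ^ q + z ≤ z ^ (q + 2) := by
    have h1 : 1 ≤ z ^ q := Nat.one_le_pow _ _ (by omega)
    rw [pow_add]
    exact UW3b_big hz h1
  have hnx : n + x ≤ z ^ (q + 2) := by omega
  have hny : n + y ≤ z ^ (q + 2) := by omega
  have hP1 := (UW3b_prod (t := q + 2) hQ hz (show 0 < n + x by omega) hnx).trans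
    (mul_le_mul_of_nonneg_left hS (by positivity))
  have hP2 := (UW3b_prod (t := q + 2) hQ hz (show 0 < n + y by omega) hny).trans
    (mul_le_mul_of_nonneg_left hS (by positivity))
  have hP20 : 0 ≤ ∏ p ∈ Q, (1 + |psi p (n + y)|) := Finset.prod_nonneg fun p _ => by positivity
  have hprod : (∏ p ∈ Q, (1 + |psi p (n + x)|)) * ∏ p ∈ Q, (1 + |psi p (n + y)|) ≤
      (2 ^ (q + 2) * (C0 * k1)) ^ 2 := by
    rw [sq]
    exact mul_le_mul hP1 hP2 hP20 (by positivity)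
  have hprod0 : 0 ≤ (∏ p ∈ Q, (1 + |psi p (n + x)|)) * ∏ p ∈ Q, (1 + |psi p (n + y)|) :=
    mul_nonneg (Finset.prod_nonneg fun p _ => by positivity) hP20
  have hzp : ∀ p ∈ Q, z < p := fun p hp => (mem_PL.1 (hQ hp)).2.2.1
  have hcnt : ∀ w : ℕ, 0 < n + w → n + w ≤ z ^ (q + 2) →
      ∑ p ∈ Q, (if p ∣ n + w then 1 / (z : ℝ) else 0) ≤ ((q + 2 : ℕ) : ℝ) * (1 / (z : ℝ)) := by
    intro w hw0 hw
    rw [← Finset.sum_filter, Finset.sum_const, nsmul_eq_mul]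
    refine mul_le_mul_of_nonneg_right ?_ (by positivity)
    exact_mod_cast UW3b_card (t := q + 2) hQ hz hw0 hw
  have hsum : ∑ p ∈ Q, |psi p (n + x) * psi p (n + y)| ≤ (2 * ((q + 2 : ℕ) : ℝ) + 2) / z := by
    have h1 : ∑ p ∈ Q, |psi p (n + x) * psi p (n + y)| ≤
        ∑ p ∈ Q, ((if p ∣ n + x then 1 / (z : ℝ) else 0) +
          (if p ∣ n + y then 1 / (z : ℝ) else 0) + 1 / ((p : ℝ) - 1) ^ 2) :=
      Finset.sum_le_sum fun p hp => UW3b_term hz hxz hyz hxy (hzp p hp)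
    rw [Finset.sum_add_distrib, Finset.sum_add_distrib] at h1
    have h2 := sum_inv_sq Q hz hzp
    have h3 : 1 / ((z : ℝ) - 1) ≤ 2 / z := by
      rw [div_le_div_iff₀ (by linarith) hz0]
      linarith
    have h4 := hcnt x (by omega) hnx
    have h5 := hcnt y (by omega) hny
    have h6 : (2 * ((q + 2 : ℕ) : ℝ) + 2) / z = ((q + 2 : ℕ) : ℝ) * (1 / (z : ℝ)) +
        ((q + 2 : ℕ) : ℝ) * (1 / (z : ℝ)) + 2 / z := by ring
    rw [h6]
    linarith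
  have h7 : (0 : ℝ) ≤ (2 * ((q + 2 : ℕ) : ℝ) + 2) / z := by positivity
  calc (∑ p ∈ Q, |psi p (n + x) * psi p (n + y)|) *
        ((∏ p ∈ Q, (1 + |psi p (n + x)|)) * ∏ p ∈ Q, (1 + |psi p (n + y)|))
      ≤ ((2 * ((q + 2 : ℕ) : ℝ) + 2) / z) * (2 ^ (q + 2) * (C0 * k1)) ^ 2 :=
        mul_le_mul hsum hprod hprod0 h7
    _ = (2 * ((q + 2 : ℕ) : ℝ) + 2) * (2 ^ (q + 2) * (C0 * k1)) ^ 2 / z := by ring

end Pool.Agent.LibFB63
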