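import Pool.Agent.LibFB63.UF1
import Pool.Agent.LibFB63.UW3
import Pool.Agent.LibFB63.UW3b

/-!
Row UF2 (two positions, upper bound). `i0 = inl ⟨a, _⟩`, `i1 = inl ⟨b, _⟩`, `y = ySel Ps z u i1 (ySel Ps z u i0 YP)`, `B = G1G²`, `D n = PhiF Q bS (y2p Q c c' i0 i1) n`.
-/

open Finset Filter

namespace Pool.Agent.LibFB63

open Pool.Agent.LibRG87 Pool.Agent.LibLG5 Pool.Agent.LibPL63 Pool.Agent.LibSC93 Pool.Agent.LibGL22

section

variable {R : Prm} {C Cq Cm : ℕ} {c cD Λ δ : ℝ} {e : ℝ} {z p1 : ℕ} {h K : Finset ℕ}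

private theorem UF2_sel2 (hp : ParG R C Cq Cm c cD Λ δ) (hz : 2 ≤ z) (s : ℕ) (i i' : ↥h) (n : ℕ)
    (hr : ∀ p ∈ Ps R z p1, ¬ p ∣ n + (i : ℕ)) (hr' : ∀ p ∈ Ps R z p1, ¬ p ∣ n + (i' : ℕ)) :
    PsG R z p1 h K n = 0 ∨ PsG R z p1 h K n =
        PhiS (Ps R z p1) (P0 z p1) (bS h K)
          (ySel (Ps R z p1) z s (Sum.inl i') (ySel (Ps R z p1) z s (Sum.inl i) (YP R z p1 h K))) h n := by
  rcases UF_PsG_sel (h := h) (K := K) hp hz s i n hr with h0 | ⟨_, h0⟩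
  · exact Or.inl h0
  · rcases UF_PsG_sel (h := h) (K := K) hp hz s i' n hr' with h1 | ⟨h2, _⟩
    · exact Or.inl h1
    · right
      rw [h0]
      exact collapseSel (Ps R z p1) (P0 z p1) (fun p hp' => (UF_Ps_mem hp (by omega) hp').1) z s (by omega) (bS h K)
        (Sum.inl i') n h2 hr' (ySel (Ps R z p1) z s (Sum.inl i) (YP R z p1 h K)) h

private theorem UF2_sq {η x y : ℝ} (hη : 0 < η) : (x + y) ^ 2 ≤ (1 + η) * x ^ 2 + (1 + 1 / η) * y ^ 2 := by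
  have h1 : 0 ≤ (η * x - y) ^ 2 / η := by positivity
  have h2 : (η * x - y) ^ 2 / η = η * x ^ 2 - 2 * x * y + 1 / η * y ^ 2 := by
    field_simp
    ring
  rw [h2] at h1
  nlinarith

private theorem UF2_point {ψ L L' D E0 η rho P : ℝ} (hη : 0 < η) (hrho : rho ≤ 1) (hP : P = 0 ∨ P = ψ)
    (hE : |L * L' - D| ≤ E0) :
    rho * P ^ 2 * (L ^ 2 * L' ^ 2) ≤ (1 + η) * (ψ * D) ^ 2 + (1 + 1 / η) * (E0 ^ 2 * ψ ^ 2) := by
  have h0 : 0 ≤ (1 + η) * (ψ * D) ^ 2 + (1 + 1 / η) * (E0 ^ 2 * ψ ^ 2) := by positivity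
  rcases hP with hP | hP
  · rw [hP]
    have : rho * (0 : ℝ) ^ 2 * (L ^ 2 * L' ^ 2) = 0 := by ring
    rw [this]
    exact h0
  · rw [hP]
    have h1 : rho * ψ ^ 2 * (L ^ 2 * L' ^ 2) ≤ 1 * (ψ ^ 2 * (L ^ 2 * L' ^ 2)) := by
      rw [mul_assoc]
      exact mul_le_mul_of_nonneg_right hrho (by positivity)
    refine h1.trans ?_
    have e1 : 1 * (ψ ^ 2 * (L ^ 2 * L' ^ 2)) = (ψ * D + ψ * (L * L' - D)) ^ 2 := by ring
    rw [e1]
    refine (UF2_sq hη).trans (add_le_add le_rfl ?_)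
    refine mul_le_mul_of_nonneg_left ?_ (by positivity)
    have h2 : (L * L' - D) ^ 2 ≤ E0 ^ 2 := by
      rw [← sq_abs (L * L' - D)]
      exact pow_le_pow_left₀ (abs_nonneg _) hE 2
    calc (ψ * (L * L' - D)) ^ 2 = (L * L' - D) ^ 2 * ψ ^ 2 := by ring
      _ ≤ E0 ^ 2 * ψ ^ 2 := mul_le_mul_of_nonneg_right h2 (sq_nonneg _)

/-- the final inequality between real numbers -/
private theorem UF2_real {X δ m2 nn G q ev S1 S2 F d1 : ℝ} (hX : 0 ≤ X) (hδ : 0 < δ) (hδ1 : δ ≤ 1 / 8) (hm2 : 0 ≤ m2)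
    (hnn : 0 ≤ nn) (hG1 : 1 ≤ G) (hGq : G ≤ q) (hq : 3 ≤ q) (hev : 0 ≤ ev) (hF : 0 ≤ F) (hF1 : F ≤ 1)
    (hFm : F * (2 * m2) ≤ ev) (hd : d1 ≤ 1 / (1 - δ / 16) ^ 3 * m2)
    (hS1 : S1 ≤ X * (d1 * nn) + X * ((G ^ 2) ^ 2 * (2 * ev))) (hS2 : S2 ≤ X * d1 + X * ((G ^ 2) ^ 2 * (2 * ev))) :
    (1 + δ / 8) * S1 + F * S2 ≤ X * ((1 + δ) * (m2 * nn) + q ^ 6 * ev) := by
  have hx : 0 < 1 - δ / 16 := by linarith
  have hx3 : 1 - 3 * δ / 16 ≤ (1 - δ / 16) ^ 3 := by nlinarith [sq_nonneg δ, mul_pos hδ hδ]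
  have hx3p : 0 < (1 - δ / 16) ^ 3 := by positivity
  have h1 : (1 + δ / 8) * (1 / (1 - δ / 16) ^ 3) ≤ 1 + δ := by
    rw [mul_one_div, div_le_iff₀ hx3p]
    nlinarith
  have h2 : 1 / (1 - δ / 16) ^ 3 ≤ 2 := by
    rw [div_le_iff₀ hx3p]
    nlinarith
  have hG4 : (G ^ 2) ^ 2 ≤ q ^ 4 := by
    rw [← pow_mul]
    exact pow_le_pow_left₀ (by linarith) hGq 4
  have hd2 : d1 * nn ≤ 1 / (1 - δ / 16) ^ 3 * m2 * nn := mul_le_mul_of_nonneg_right hd hnn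
  have hd3 : d1 ≤ 2 * m2 := hd.trans (mul_le_mul_of_nonneg_right h2 hm2)
  have hG4p : 0 ≤ (G ^ 2) ^ 2 := by positivity
  have hT1 : (1 + δ / 8) * S1 ≤ X * ((1 + δ) * (m2 * nn)) + X * (9 / 4 * q ^ 4 * ev) := by
    refine (mul_le_mul_of_nonneg_left hS1 (by linarith)).trans ?_
    have h3 : (1 + δ / 8) * (d1 * nn) ≤ (1 + δ) * (m2 * nn) := by
      refine (mul_le_mul_of_nonneg_left hd2 (by linarith)).trans ?_
      have e1 : (1 + δ / 8) * (1 / (1 - δ / 16) ^ 3 * m2 * nn) = (1 + δ / 8) * (1 / (1 - δ / 16) ^ 3) * (m2 * nn) := by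
        ring
      rw [e1]
      exact mul_le_mul_of_nonneg_right h1 (mul_nonneg hm2 hnn)
    have h4 : (1 + δ / 8) * ((G ^ 2) ^ 2 * (2 * ev)) ≤ 9 / 4 * q ^ 4 * ev := by
      have h5 : (G ^ 2) ^ 2 * (2 * ev) ≤ q ^ 4 * (2 * ev) := mul_le_mul_of_nonneg_right hG4 (by linarith)
      have h6 : 0 ≤ q ^ 4 * (2 * ev) := by positivity
      calc (1 + δ / 8) * ((G ^ 2) ^ 2 * (2 * ev)) ≤ (9 / 8) * (q ^ 4 * (2 * ev)) :=
            mul_le_mul (by linarith) h5 (by positivity) (by norm_num)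
        _ = 9 / 4 * q ^ 4 * ev := by ring
    have h7 := mul_le_mul_of_nonneg_left h3 hX
    have h8 := mul_le_mul_of_nonneg_left h4 hX
    calc (1 + δ / 8) * (X * (d1 * nn) + X * ((G ^ 2) ^ 2 * (2 * ev))) =
          X * ((1 + δ / 8) * (d1 * nn)) + X * ((1 + δ / 8) * ((G ^ 2) ^ 2 * (2 * ev))) := by ring
      _ ≤ _ := add_le_add h7 h8
  have hT2 : F * S2 ≤ X * ev + X * (2 * q ^ 4 * ev) := by
    refine (mul_le_mul_of_nonneg_left hS2 hF).trans ?_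
    have h3 : F * d1 ≤ ev := (mul_le_mul_of_nonneg_left hd3 hF).trans hFm
    have h4 : F * ((G ^ 2) ^ 2 * (2 * ev)) ≤ 2 * q ^ 4 * ev := by
      have h5 : (G ^ 2) ^ 2 * (2 * ev) ≤ q ^ 4 * (2 * ev) := mul_le_mul_of_nonneg_right hG4 (by linarith)
      calc F * ((G ^ 2) ^ 2 * (2 * ev)) ≤ 1 * (q ^ 4 * (2 * ev)) :=
            mul_le_mul hF1 h5 (by positivity) (by norm_num)
        _ = 2 * q ^ 4 * ev := by ring
    have h7 := mul_le_mul_of_nonneg_left h3 hX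
    have h8 := mul_le_mul_of_nonneg_left h4 hX
    calc F * (X * d1 + X * ((G ^ 2) ^ 2 * (2 * ev))) =
          X * (F * d1) + X * (F * ((G ^ 2) ^ 2 * (2 * ev))) := by ring
      _ ≤ _ := add_le_add h7 h8
  have hq6 : 9 / 4 * q ^ 4 * ev + ev + 2 * q ^ 4 * ev ≤ q ^ 6 * ev := by
    have h9 : 9 / 4 * q ^ 4 + 1 + 2 * q ^ 4 ≤ q ^ 6 := by
      have h10 : 1 ≤ q ^ 4 := one_le_pow₀ (by linarith)
      have h11 : q ^ 6 = q ^ 4 * q ^ 2 := by ring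
      have h12 : 9 ≤ q ^ 2 := by nlinarith
      rw [h11]
      nlinarith
    have := mul_le_mul_of_nonneg_right h9 hev
    linarith
  have h13 := mul_le_mul_of_nonneg_left hq6 hX
  have e2 : X * ((1 + δ) * (m2 * nn) + q ^ 6 * ev) = X * ((1 + δ) * (m2 * nn)) + X * (q ^ 6 * ev) := by ring
  have e3 : X * (9 / 4 * q ^ 4 * ev + ev + 2 * q ^ 4 * ev) = X * (9 / 4 * q ^ 4 * ev) + X * ev + X * (2 * q ^ 4 * ev) := by
    ring
  rw [e2]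
  rw [e3] at h13
  linarith

end

/-- powers of the logarithm against `z` -/
private theorem UF2_log (A ev : ℝ) (hev : 0 < ev) (N : ℕ) : ∀ᶠ z : ℕ in atTop, A * Real.log z ^ N ≤ ev * z := by
  have h1 : ∀ᶠ x : ℝ in atTop, ‖Real.log x ^ N‖ ≤ (ev / (|A| + 1)) * ‖id x‖ :=
    (Real.isLittleO_pow_log_id_atTop (n := N)).bound (by positivity)
  filter_upwards [tendsto_natCast_atTop_atTop.eventually h1, eventually_ge_atTop 1] with z h2 h3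
  have h4 : 0 ≤ Real.log (z : ℝ) := Real.log_nonneg (by exact_mod_cast h3)
  simp only [id, Real.norm_eq_abs] at h2
  have h7 : |((z : ℕ) : ℝ)| = (z : ℝ) := abs_of_nonneg (Nat.cast_nonneg z)
  rw [abs_of_nonneg (pow_nonneg h4 _), h7] at h2
  have h5 : 0 < |A| + 1 := by positivity
  have h6 := mul_le_mul_of_nonneg_left h2 h5.le
  have e1 : (|A| + 1) * (ev / (|A| + 1) * (z : ℝ)) = ev * z := by field_simp
  rw [e1] at h6
  refine le_trans ?_ h6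
  exact mul_le_mul_of_nonneg_right (by linarith [le_abs_self A]) (pow_nonneg h4 _)

theorem u2_main : ∃ C0 : ℕ, ∀ (R : Prm) (C Cq Cm : ℕ) (c cD Λ δ : ℝ), QFRpS Cq → ParG R C Cq Cm c cD Λ δ → C0 ≤ δ * R.D →
    ∀ᶠ z : ℕ in atTop, ∀ p1 : ℕ, p1.Prime → ∀ (c0 : ℕ) (h K : Finset ℕ), PosS z p1 c0 R.k (Λ * R.q) h K →
      U2 R Cq Λ δ z p1 c0 h K := by
  obtain ⟨C0, hC0⟩ := gs_ge
  refine ⟨C0, fun R C Cq Cm c cD Λ δ hq hp hD => ?_⟩
  obtain ⟨hq0, hk, hu, hq0u, hq0u', hM, hk2, hk21, huk, hk1q, _, _⟩ := prm_le hp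
  have hk1 : 1 ≤ R.k1 := hu.trans huk
  have hδ := hp.hδ
  have hδ1 := hp.hδ1
  have ha : 1 ≤ R.a := by
    have := hp.sums.1
    omega
  have hq3 : 3 ≤ R.q := by
    have h1 : 4 * R.M * R.u = R.q := rfl
    have h2 : 4 * R.M * 1 ≤ 4 * R.M * R.u := Nat.mul_le_mul_left _ hu
    omega
  obtain ⟨Cn, hCn0, hCn⟩ := overlap_small R.k1 R.q hk1
  obtain ⟨N, hN⟩ := DKG_le hp
  have he0 := e_pos hp
  set F0 : ℝ := (1 + 8 / δ) * Cn ^ 2 with hF0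
  have hF0p : 0 ≤ F0 := by positivity
  filter_upwards [hC0 R C Cq Cm c cD Λ δ hp hD (12 * R.q), quE hq hp, G_le_q hp, baseG hp 1 one_pos,
    eventually_ge_atTop 4, hCn, hN, UF2_log (F0 * (2 * (R.q : ℝ) ^ (R.k + 4))) (R.e Cq Λ) he0 N,
    UF2_log F0 1 one_pos 0]
    with z hG hqf hGq hBs hz4 hov hDK hlogA hlogB p1 hp1 c0 h K hpos
  intro a haH b hbH hab e e' he he' hcop hep Q hQ hQe cf cf' j hcf hcf' hs hs' hlev
  have hz1 : 1 ≤ z := by omega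
  have hz2 : 2 ≤ z := by omega
  have hzR : (1 : ℝ) ≤ z := by exact_mod_cast hz1
  obtain ⟨hG1q, hG2q⟩ := hGq p1 hp1
  have hB := hBs p1
  obtain ⟨hG11, hG21⟩ := one_le_G hB
  have hcard : h.card = R.k := hpos.1
  have hxs := hpos.2.2.1
  have hzl1 : z ≤ z ^ l1 R := by
    have : 1 ≤ l1 R := Nat.mul_pos hq0 (Nat.pos_of_ne_zero (pow_ne_zero _ (by omega)))
    calc z = z ^ 1 := (pow_one z).symm
      _ ≤ z ^ l1 R := Nat.pow_le_pow_right (by omega) this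
  have hez : ∀ p : ℕ, p.Prime → p ∣ e * e' → z < p := fun p hp' hpe => lt_of_le_of_lt hzl1 (hep p hp' hpe)
  have hPse : ∀ p ∈ Ps R z p1, ¬ p ∣ e * e' := by
    intro p hp' hpe
    have h0 := UF_Ps_mem hp hz1 hp'
    have h1 := hep p h0.1 hpe
    omega
  have hQPG : Q ⊆ PG R z p1 := hQ.trans Finset.sdiff_subset
  have hQp : ∀ p ∈ Q, p.Prime := fun p hp' => (PG_mem (hQPG hp')).1
  have hdisQ : Disjoint (Ps R z p1) Q := by
    refine Finset.disjoint_left.2 fun p hp' hq' => ?_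
    exact (Finset.mem_sdiff.1 (hQ hq')).2 hp'
  have hee : 1 ≤ e * e' := Nat.mul_pos he he'
  have hne : (⟨a, haH⟩ : ↥h) ≠ ⟨b, hbH⟩ := fun hh => hab (congrArg Subtype.val hh)
  have hne' : (Sum.inl ⟨a, haH⟩ : ↥h ⊕ ↥K) ≠ Sum.inl ⟨b, hbH⟩ := fun hh => hne (Sum.inl_injective hh)
  obtain ⟨c1, hc1⟩ := class_ex (z := z) (p1 := p1) (wf_le z) he he' hcop hez (z ^ R.q) c0 a b
  rw [hc1]
  have hcast : ((e * e' : ℕ) : ℝ) = (e : ℝ) * e' := by push_cast; ring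
  -- pointwise
  have hpt : ∀ n ∈ sN (z ^ R.q) (Wp z p1 * (e * e')) c1,
      rhoP (Ps R z p1) {a, b} n * PsG R z p1 h K n ^ 2 * (Lc Q cf (n + a) ^ 2 * Lc Q cf' (n + b) ^ 2) ≤
        (1 + δ / 8) * (PhiS (Ps R z p1) (P0 z p1) (bS h K) (ySel (Ps R z p1) z R.u (Sum.inl ⟨b, hbH⟩)
            (ySel (Ps R z p1) z R.u (Sum.inl ⟨a, haH⟩) (YP R z p1 h K))) h n *
            PhiF Q (bS h K) (y2p Q cf cf' (Sum.inl ⟨a, haH⟩) (Sum.inl ⟨b, hbH⟩)) n) ^ 2 +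
          (1 + 1 / (δ / 8)) * ((Cn / z) ^ 2 * PhiS (Ps R z p1) (P0 z p1) (bS h K)
            (ySel (Ps R z p1) z R.u (Sum.inl ⟨b, hbH⟩)
              (ySel (Ps R z p1) z R.u (Sum.inl ⟨a, haH⟩) (YP R z p1 h K))) h n ^ 2) := by
    intro n hn
    have hn1 : 1 ≤ n ∧ n ≤ 2 * z ^ R.q := by
      unfold sN at hn
      rw [Finset.mem_filter, Finset.mem_Ioc] at hn
      omega
    have hE := (overlap hcf hcf' hne' (bS h K) n).trans (hov p1 Q hQPG a b hab (hxs a (Finset.mem_union_left _ haH)).1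
      (hxs b (Finset.mem_union_left _ hbH)).1 n hn1.1 hn1.2)
    by_cases hr : (∀ p ∈ Ps R z p1, ¬ p ∣ n + a) ∧ ∀ p ∈ Ps R z p1, ¬ p ∣ n + b
    · have hrho : rhoP (Ps R z p1) {a, b} n ≤ 1 := by
        unfold rhoP
        split_ifs <;> norm_num
      exact UF2_point (by positivity) hrho
        (UF2_sel2 hp hz2 R.u ⟨a, haH⟩ ⟨b, hbH⟩ n hr.1 hr.2) hE
    · have hrho : rhoP (Ps R z p1) {a, b} n = 0 := by
        unfold rhoP
        rw [if_neg]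
        intro hh
        exact hr ⟨hh a (by simp), hh b (by simp)⟩
      rw [hrho, zero_mul, zero_mul]
      positivity
  refine (Finset.sum_le_sum hpt).trans ?_
  rw [Finset.sum_add_distrib, ← Finset.mul_sum, ← Finset.mul_sum, ← Finset.mul_sum]
  -- first sum
  have hL1 : (e * e') * z ^ (2 * ((2 * R.u + 2 * R.q0 + 2 * R.u) + 2 * j) + 4 * R.u + 10) ≤ z ^ R.q := by
    refine le_trans (Nat.mul_le_mul_left _ (Nat.pow_le_pow_right (by omega) ?_)) hlev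
    omega
  have hL2 : (e * e') * z ^ (2 * (2 * R.u + 2 * R.q0 + 2 * R.u) + 4 * R.u + 10) ≤ z ^ R.q := by
    refine le_trans (Nat.mul_le_mul_left _ (Nat.pow_le_pow_right (by omega) ?_)) hL1
    omega
  have hsel : ∀ β, ySel (Ps R z p1) z R.u (Sum.inl ⟨b, hbH⟩)
      (ySel (Ps R z p1) z R.u (Sum.inl ⟨a, haH⟩) (YP R z p1 h K)) β ≠ 0 →
      rr (sp (Ps R z p1) β) ≤ (z : ℝ) ^ (2 * R.u + 2 * R.q0 + 2 * R.u) ∧
        ({Sum.inl ⟨a, haH⟩, Sum.inl ⟨b, hbH⟩} ∪ sui (Ps R z p1) β).card ≤ R.K :=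
    fun β hβ => UF_selP2_supp hp hB hcard R.u ⟨a, haH⟩ ⟨b, hbH⟩ hne hβ
  have hy2E : ∀ γ : Q → Option (↥h ⊕ ↥K), y2p Q cf cf' (Sum.inl ⟨a, haH⟩) (Sum.inl ⟨b, hbH⟩) γ ≠ 0 →
      ∀ p i, γ p = some i → bS h K i ∈ h := by
    intro γ hγ p i hpi
    rcases (y2p_supp hz1 hs hs' hne' hγ).2 p i hpi with rfl | rfl
    · exact haH
    · exact hbH
  have hmain1 := hqf p1 hp1 c0 h K h hpos (Or.inl rfl) (e * e') hee hez (Ps R z p1 ∪ Q)
    (Finset.union_subset (Ps_sub hp hz1 p1) hQPG)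
    (fun p hp' => by
      rcases Finset.mem_union.1 hp' with h1 | h1
      · exact hPse p h1
      · exact hQe p h1)
    ((2 * R.u + 2 * R.q0 + 2 * R.u) + 2 * j) hL1 c1
    (yX (Ps R z p1 ∪ Q) (Ps R z p1) Q (ySel (Ps R z p1) z R.u (Sum.inl ⟨b, hbH⟩)
      (ySel (Ps R z p1) z R.u (Sum.inl ⟨a, haH⟩) (YP R z p1 h K)))
      (y2p Q cf cf' (Sum.inl ⟨a, haH⟩) (Sum.inl ⟨b, hbH⟩))) (G1G R z p1 ^ 2) (by positivity)
    (fun β => yX_abs (by positivity) (UF_selP2_abs hp hB R.u ⟨a, haH⟩ ⟨b, hbH⟩ hne)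
      (y2p_abs hcf hcf' _ _) β)
    (fun β hβ => yX_supp rfl hdisQ hsel (fun γ hγ => by
      obtain ⟨h1, h2⟩ := y2p_supp hz1 hs hs' hne' hγ
      refine ⟨h1, fun p i hpi => ?_⟩
      rcases h2 p i hpi with rfl | rfl
      · simp
      · simp) hβ)
  have hmain2 := hqf p1 hp1 c0 h K h hpos (Or.inl rfl) (e * e') hee hez (Ps R z p1) (Ps_sub hp hz1 p1) hPse
    (2 * R.u + 2 * R.q0 + 2 * R.u) hL2 c1
    (ySel (Ps R z p1) z R.u (Sum.inl ⟨b, hbH⟩)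
      (ySel (Ps R z p1) z R.u (Sum.inl ⟨a, haH⟩) (YP R z p1 h K))) (G1G R z p1 ^ 2) (by positivity)
    (UF_selP2_abs hp hB R.u ⟨a, haH⟩ ⟨b, hbH⟩ hne)
    (fun β hβ => ⟨(hsel β hβ).1, (Finset.card_le_card Finset.subset_union_right).trans (hsel β hβ).2⟩)
  rw [dgV_yX rfl hdisQ _ _ _ _ _ hy2E] at hmain1
  have hsum1 : ∑ n ∈ sN (z ^ R.q) (Wp z p1 * (e * e')) c1,
      (PhiS (Ps R z p1) (P0 z p1) (bS h K) (ySel (Ps R z p1) z R.u (Sum.inl ⟨b, hbH⟩)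
            (ySel (Ps R z p1) z R.u (Sum.inl ⟨a, haH⟩) (YP R z p1 h K))) h n *
            PhiF Q (bS h K) (y2p Q cf cf' (Sum.inl ⟨a, haH⟩) (Sum.inl ⟨b, hbH⟩)) n) ^ 2 =
      ∑ n ∈ sN (z ^ R.q) (Wp z p1 * (e * e')) c1, PhiS (Ps R z p1 ∪ Q) (P0 z p1) (bS h K)
        (yX (Ps R z p1 ∪ Q) (Ps R z p1) Q (ySel (Ps R z p1) z R.u (Sum.inl ⟨b, hbH⟩)
      (ySel (Ps R z p1) z R.u (Sum.inl ⟨a, haH⟩) (YP R z p1 h K)))
      (y2p Q cf cf' (Sum.inl ⟨a, haH⟩) (Sum.inl ⟨b, hbH⟩))) h n ^ 2 := by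
    refine Finset.sum_congr rfl fun n _ => ?_
    rw [PhiS_yX rfl hdisQ _ _ _ _ _ _ hy2E]
  have h1 := sub_le_iff_le_add'.1 (abs_le.1 hmain1).2
  have h2 := sub_le_iff_le_add'.1 (abs_le.1 hmain2).2
  rw [← hsum1] at h1
  have hdg := UF_selP2_dg hp hB (K := K) hcard R.u ⟨a, haH⟩ ⟨b, hbH⟩ hne (by omega)
    (fun S hS hSc => hG p1 R.u le_rfl S hS hSc)
  have hm2 := UF_m2 (h := h) (K := K) hp hB
  have hnn : 0 ≤ nrm Q cf * nrm Q cf' := mul_nonneg (nrm_nonnegU hQp cf) (nrm_nonnegU hQp cf')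
  have hNW : 0 ≤ NW R z p1 / ((e * e' : ℕ) : ℝ) := by
    unfold NW
    positivity
  have hVP0 := UF_V0 z p1 h
  have hDD := DD_y2p_le hQp cf cf' hne'
  have hdg0 : 0 ≤ dgV (Ps R z p1) (VP (P0 z p1)) (bS h K) h (ySel (Ps R z p1) z R.u (Sum.inl ⟨b, hbH⟩)
      (ySel (Ps R z p1) z R.u (Sum.inl ⟨a, haH⟩) (YP R z p1 h K))) :=
    dgV_nonneg _ (fun p hp' => (UF_Ps_mem hp hz1 hp').1) _ (UF_V0 z p1) _ _ _
  have h1' := h1.trans (add_le_add (mul_le_mul_of_nonneg_left (mul_le_mul_of_nonneg_left hDD hdg0) hNW) le_rfl)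
  -- the size of the overlap
  have hFm : (1 + 1 / (δ / 8)) * (Cn / z) ^ 2 * (2 * m2 R z p1 h K) ≤ R.e Cq Λ * VP (P0 z p1) h := by
    have hqR : (1 : ℝ) ≤ R.q := by
      have : 1 ≤ R.q := by omega
      exact_mod_cast this
    have hGs1 : 1 ≤ Gs R z p1 := one_le_gs hz1 p1
    have hDK1 := hDK p1 hp1 c0 h K hpos
    have hDK0 : 0 ≤ DKG R z p1 h K := hVP0.trans (DKG_ge hp hB h K)
    have hm2le : m2 R z p1 h K ≤ (R.q : ℝ) ^ (R.k + 4) * (Real.log z ^ N * VP (P0 z p1) h) := by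
      unfold m2
      have h3 : G1G R z p1 ^ 4 * (G2G R z p1 ^ (R.k - 2) * DKG R z p1 h K) / Gs R z p1 ^ 2 ≤
          G1G R z p1 ^ 4 * (G2G R z p1 ^ (R.k - 2) * DKG R z p1 h K) :=
        div_le_self (by positivity) (one_le_pow₀ hGs1)
      refine h3.trans ?_
      have h4 : G1G R z p1 ^ 4 ≤ (R.q : ℝ) ^ 4 := pow_le_pow_left₀ (by linarith) hG1q 4
      have h5 : G2G R z p1 ^ (R.k - 2) ≤ (R.q : ℝ) ^ R.k :=
        (pow_le_pow_left₀ (by linarith) hG2q _).trans (pow_le_pow_right₀ hqR (by omega))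
      calc G1G R z p1 ^ 4 * (G2G R z p1 ^ (R.k - 2) * DKG R z p1 h K) ≤
            (R.q : ℝ) ^ 4 * ((R.q : ℝ) ^ R.k * (Real.log z ^ N * VP (P0 z p1) h)) :=
            mul_le_mul h4 (mul_le_mul h5 hDK1 hDK0 (by positivity)) (by positivity) (by positivity)
        _ = _ := by ring
    have hzp : (0 : ℝ) < z := by linarith
    have e1 : (1 + 1 / (δ / 8)) * (Cn / z) ^ 2 = F0 / (z : ℝ) ^ 2 := by
      rw [hF0, div_pow]
      have : 1 / (δ / 8) = 8 / δ := by rw [one_div_div]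
      rw [this]
      ring
    rw [e1, div_mul_eq_mul_div, div_le_iff₀ (by positivity)]
    calc F0 * (2 * m2 R z p1 h K) ≤ F0 * (2 * ((R.q : ℝ) ^ (R.k + 4) * (Real.log z ^ N * VP (P0 z p1) h))) :=
          mul_le_mul_of_nonneg_left (mul_le_mul_of_nonneg_left hm2le (by norm_num)) hF0p
      _ = F0 * (2 * (R.q : ℝ) ^ (R.k + 4)) * Real.log z ^ N * VP (P0 z p1) h := by ring
      _ ≤ R.e Cq Λ * z * VP (P0 z p1) h := mul_le_mul_of_nonneg_right hlogA hVP0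
      _ = R.e Cq Λ * VP (P0 z p1) h * z := by ring
      _ ≤ R.e Cq Λ * VP (P0 z p1) h * (z : ℝ) ^ 2 :=
          mul_le_mul_of_nonneg_left (by nlinarith) (mul_nonneg he0.le hVP0)
  have hF1 : (1 + 1 / (δ / 8)) * (Cn / z) ^ 2 ≤ 1 := by
    have hzp : (0 : ℝ) < z := by linarith
    have e1 : (1 + 1 / (δ / 8)) * (Cn / z) ^ 2 = F0 / (z : ℝ) ^ 2 := by
      rw [hF0, div_pow]
      have : 1 / (δ / 8) = 8 / δ := by rw [one_div_div]
      rw [this]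
      ring
    rw [e1, div_le_one (by positivity)]
    rw [pow_zero, mul_one, one_mul] at hlogB
    nlinarith
  have hfinal := UF2_real (X := NW R z p1 / ((e * e' : ℕ) : ℝ)) (nn := nrm Q cf * nrm Q cf') (G := G1G R z p1)
    (q := (R.q : ℝ)) (ev := R.e Cq Λ * VP (P0 z p1) h) (F := (1 + 1 / (δ / 8)) * (Cn / z) ^ 2)
    hNW hδ hδ1 hm2 hnn hG11 hG1q (by exact_mod_cast hq3) (mul_nonneg he0.le hVP0) (by positivity) hF1 hFm hdg
    (h1'.trans (le_of_eq (by ring))) (h2.trans (le_of_eq (by ring)))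
  refine le_trans (le_of_eq (by ring)) (hfinal.trans (le_of_eq ?_))
  unfold er
  rw [hcast]
  ring

end Pool.Agent.LibFB63
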