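import Pool.Agent.LibFB63.Defs
import Pool.Agent.LibMaier.Mertens1

/-!
Row UL3b (Mertens). `∑_{q ∈ (z, z^l]} (log q/log z + 1)/(q - 1) ≤ 2 ∑ (log q/log z)/(q-1) ≤ (4/log z) ∑_{q ≤ z^l} log q/q ≤ (4/log z)(l log z + K)` (`q > z`, so `1 ≤ log q/log z`; `q - 1 ≥ q/2`; Mertens: `∑_{p ≤ x} log p/p ≤ log x + K`, LibMaier/Mertens1.lean or LibMaier/Mertens2.lean, or Chebyshev).
-/

open Finset Filter

namespace Pool.Agent.LibFB63

open Pool.Agent.LibRG87 Pool.Agent.LibLG5 Pool.Agent.LibPL63 Pool.Agent.LibSC93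

theorem logsum : ∃ C : ℕ, ∀ l : ℕ, 1 ≤ l → ∀ᶠ z : ℕ in atTop, ∀ p1 : ℕ,
    ∑ q ∈ PL z l p1, (Real.log q / Real.log z + 1) / ((q : ℝ) - 1) ≤ C * l := by
  refine ⟨12, fun l hl => ?_⟩
  filter_upwards [eventually_ge_atTop 2] with z hz p1
  have hz2 : (2 : ℝ) ≤ z := by exact_mod_cast hz
  have hlz : 0 < Real.log z := Real.log_pos (by linarith)
  have hl2 : Real.log 4 ≤ 2 * Real.log z := by
    have h1 : (4 : ℝ) = 2 ^ 2 := by norm_num
    rw [h1, Real.log_pow]
    have h2 : Real.log 2 ≤ Real.log z := Real.log_le_log (by norm_num) hz2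
    push_cast
    linarith
  have hterm : ∀ q ∈ PL z l p1, (Real.log q / Real.log z + 1) / ((q : ℝ) - 1) ≤
      4 / Real.log z * (Real.log q / q) := by
    intro q hq
    have hq1 : q ∈ PP z (z ^ l) := Finset.mem_of_mem_erase hq
    have hq2 := Finset.mem_filter.1 hq1
    have hzq : z < q := (Finset.mem_Ioc.1 hq2.1).1
    have hzq' : (z : ℝ) ≤ q := by exact_mod_cast hzq.le
    have hq3 : (2 : ℝ) ≤ q := hz2.trans hzq'
    have hlq : Real.log z ≤ Real.log q := Real.log_le_log (by linarith) hzq'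
    have h1 : 1 ≤ Real.log q / Real.log z := by
      rw [le_div_iff₀ hlz]
      linarith
    have h2 : (q : ℝ) / 2 ≤ (q : ℝ) - 1 := by linarith
    have h3 : 4 / Real.log z * (Real.log q / q) = (2 * (Real.log q / Real.log z)) / ((q : ℝ) / 2) := by
      have : (q : ℝ) ≠ 0 := by positivity
      field_simp
      ring
    rw [h3]
    apply div_le_div₀ (by linarith) (by linarith) (by linarith) h2
  have hsum : ∑ q ∈ PL z l p1, Real.log q / q ≤ LibMaier.TN (z ^ l) := by
    unfold LibMaier.TN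
    refine Finset.sum_le_sum_of_subset_of_nonneg ?_ ?_
    · intro q hq
      have hq1 : q ∈ PP z (z ^ l) := Finset.mem_of_mem_erase hq
      have hq2 := Finset.mem_filter.1 hq1
      exact LibMaier.mem_PN.2 ⟨(Finset.mem_Ioc.1 hq2.1).2, hq2.2⟩
    · intro q _ _
      exact div_nonneg (Real.log_natCast_nonneg q) (Nat.cast_nonneg q)
  have hTN : LibMaier.TN (z ^ l) ≤ l * Real.log z + Real.log 4 := by
    have h1 := LibMaier.TN_le (z ^ l) (Nat.one_le_pow _ _ (by omega))
    rw [Nat.cast_pow, Real.log_pow] at h1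
    exact h1
  have hl' : (1 : ℝ) ≤ l := by exact_mod_cast hl
  calc ∑ q ∈ PL z l p1, (Real.log q / Real.log z + 1) / ((q : ℝ) - 1)
      ≤ ∑ q ∈ PL z l p1, 4 / Real.log z * (Real.log q / q) := Finset.sum_le_sum hterm
    _ = 4 / Real.log z * ∑ q ∈ PL z l p1, Real.log q / q := by rw [Finset.mul_sum]
    _ ≤ 4 / Real.log z * (l * Real.log z + 2 * Real.log z) :=
        mul_le_mul_of_nonneg_left (by linarith) (by positivity)
    _ = 4 * l + 8 := by field_simp; ring
    _ ≤ ((12 : ℕ) : ℝ) * l := by push_cast; linarith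

end Pool.Agent.LibFB63
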