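import Pool.Agent.LibFB63.UD
import Pool.Agent.LibGL22.B1

/-!
Row UW8 (almost all of the product over the small primes is below the level `z^s`). `Ps = PL z l1 p1`, `l1 = q0 a^I`. With `G' = ∏_{p ∈ Ps \ S} (1 + 1/(p-1)) = ∑_{A ⊆ Ps \ S} 1/ph A` (`Finset.prod_one_add`-type expansion, `ph A = ∏ (p - 1)`):
`Gn (Ps \ S) z s ≥ ∑_{A ⊆ Ps \ S} (1/ph A) (1 - log (rr A)/(s log z))` (`rr A > z^s` gives `log (rr A)/(s log z) > 1`), `∑_A log (rr A)/ph A = G' ∑_{p ∈ Ps \ S} log p/p` (`log (rr A) = ∑_{p ∈ A} log p`, exchange the sums; `(1/(p-1))/(1 + 1/(p-1)) = 1/p`), and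
`∑_{p ≤ x} log p/p ≤ C1 log x` for `x ≥ 2` (Mertens/Chebyshev in Lean: look in LibMaier, LibLG5/NT, LibPL63/M2, LibPNT; any absolute constant `C1` is enough), so `∑_{p ∈ Ps} log p/p ≤ C1 l1 log z`. `l1/s ≤ l1/u ≤ 1/D`
(`u = D k (I+1) q0`, `k = B a^I ≥ a^I`), `1/D ≤ δ/(32 C1)` by `hD` if `C0 ≥ 32 C1`. Last: `G' ≥ Gs ∏_{p ∈ S} (1 - 1/p) ≥ (1 - t/z) Gs` (`|S| ≤ t`, `p > z`).
-/

open Finset Filter

namespace Pool.Agent.LibFB63

open Pool.Agent.LibRG87 Pool.Agent.LibLG5 Pool.Agent.LibPL63 Pool.Agent.LibSC93 Pool.Agent.LibGL22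

private theorem UW8_mem {R : Prm} {z p1 p : ℕ} (h : p ∈ Ps R z p1) : p.Prime ∧ z < p ∧ p ≤ z ^ l1 R := by
  unfold Ps PL PP at h
  rw [Finset.mem_erase, Finset.mem_filter, Finset.mem_Ioc] at h
  exact ⟨h.2.2, h.2.1.1, h.2.1.2⟩

private theorem UW8_one {Q : Finset ℕ} {f : ℕ → ℝ} (h : ∀ p ∈ Q, 1 ≤ f p) : 1 ≤ ∏ p ∈ Q, f p := by
  have h1 : ∏ _p ∈ Q, (1 : ℝ) ≤ ∏ p ∈ Q, f p := Finset.prod_le_prod (fun _ _ => zero_le_one) h
  rwa [Finset.prod_const_one] at h1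

private theorem UW8_exp (Q : Finset ℕ) :
    ∏ p ∈ Q, (1 + 1 / ((p : ℝ) - 1)) = ∑ A ∈ Q.powerset, 1 / ph A := by
  rw [Finset.prod_one_add]
  refine Finset.sum_congr rfl fun A _ => ?_
  unfold ph
  rw [Finset.prod_div_distrib, Finset.prod_const_one]

private theorem UW8_rr {Q : Finset ℕ} (hQ : ∀ p ∈ Q, p.Prime) : 0 < rr Q := by
  unfold rr
  exact Finset.prod_pos fun p hp => by exact_mod_cast (hQ p hp).pos

private theorem UW8_ph {Q : Finset ℕ} (hQ : ∀ p ∈ Q, p.Prime) : 0 < ph Q := by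
  unfold ph
  refine Finset.prod_pos fun p hp => ?_
  have : (1 : ℝ) < p := by exact_mod_cast (hQ p hp).one_lt
  linarith

private theorem UW8_log {Q : Finset ℕ} (hQ : ∀ p ∈ Q, p.Prime) :
    ∑ A ∈ Q.powerset, Real.log (rr A) / ph A =
      (∏ p ∈ Q, (1 + 1 / ((p : ℝ) - 1))) * ∑ p ∈ Q, Real.log p / p := by
  classical
  induction Q using Finset.induction_on with
  | empty => simp [rr]
  | insert q Q hq ih =>
    have hQ' : ∀ p ∈ Q, p.Prime := fun p hp => hQ p (Finset.mem_insert_of_mem hp)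
    have hqp : q.Prime := hQ q (Finset.mem_insert_self _ _)
    have hq1 : (1 : ℝ) < q := by exact_mod_cast hqp.one_lt
    rw [Finset.sum_powerset_insert hq, ih hQ', Finset.prod_insert hq, Finset.sum_insert hq]
    have h1 : ∀ A ∈ Q.powerset, Real.log (rr (insert q A)) / ph (insert q A) =
        1 / ((q : ℝ) - 1) * (Real.log (rr A) / ph A) + Real.log q / ((q : ℝ) - 1) * (1 / ph A) := by
      intro A hA
      have hA' : A ⊆ Q := Finset.mem_powerset.1 hA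
      have hqA : q ∉ A := fun h => hq (hA' h)
      have hAp : ∀ p ∈ A, p.Prime := fun p hp => hQ' p (hA' hp)
      have e1 : rr (insert q A) = q * rr A := Finset.prod_insert hqA
      have e2 : ph (insert q A) = ((q : ℝ) - 1) * ph A := Finset.prod_insert hqA
      rw [e1, e2, Real.log_mul (by linarith) (UW8_rr hAp).ne']
      have h3 : ph A ≠ 0 := (UW8_ph hAp).ne'
      have h4 : (q : ℝ) - 1 ≠ 0 := by linarith
      field_simp
      ring
    rw [Finset.sum_congr rfl h1, Finset.sum_add_distrib, ← Finset.mul_sum, ← Finset.mul_sum, ih hQ', ← UW8_exp]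
    have h4 : (q : ℝ) - 1 ≠ 0 := by linarith
    have h5 : (q : ℝ) ≠ 0 := by linarith
    have h6 : Real.log q / ((q : ℝ) - 1) = (1 + 1 / ((q : ℝ) - 1)) * (Real.log q / q) := by
      field_simp
      ring
    rw [h6]
    ring

private theorem UW8_split {Q : Finset ℕ} (hQ : ∀ p ∈ Q, p.Prime) {z s : ℕ} (hz : 2 ≤ z) (hs : 1 ≤ s) :
    (∏ p ∈ Q, (1 + 1 / ((p : ℝ) - 1))) * (1 - (∑ p ∈ Q, Real.log p / p) / (s * Real.log z)) ≤ Gn Q z s := by
  classical
  have hl : 0 < Real.log z := Real.log_pos (by exact_mod_cast hz)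
  have hs0 : (0 : ℝ) < s := by exact_mod_cast hs
  have h1 : (∏ p ∈ Q, (1 + 1 / ((p : ℝ) - 1))) * (1 - (∑ p ∈ Q, Real.log p / p) / (s * Real.log z)) =
      ∑ A ∈ Q.powerset, (1 / ph A) * (1 - Real.log (rr A) / (s * Real.log z)) := by
    have h2 : ∀ A ∈ Q.powerset, (1 / ph A) * (1 - Real.log (rr A) / (s * Real.log z)) =
        1 / ph A - Real.log (rr A) / ph A / (s * Real.log z) := fun A _ => by ring
    rw [Finset.sum_congr rfl h2, Finset.sum_sub_distrib, ← UW8_exp, ← Finset.sum_div, UW8_log hQ]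
    ring
  rw [h1]
  unfold Gn
  rw [Finset.sum_filter]
  refine Finset.sum_le_sum fun A hA => ?_
  have hAp : ∀ p ∈ A, p.Prime := fun p hp => hQ p (Finset.mem_powerset.1 hA hp)
  have hph := UW8_ph hAp
  have hrr := UW8_rr hAp
  have hrr1 : 0 ≤ Real.log (rr A) := by
    refine Real.log_nonneg ?_
    unfold rr
    rw [← Nat.cast_prod]
    exact_mod_cast Finset.prod_pos fun p hp => (hAp p hp).pos
  split_ifs with h
  · have h3 : 0 ≤ Real.log (rr A) / (s * Real.log z) := by positivity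
    have h4 : 0 < 1 / ph A := by positivity
    nlinarith
  · have h3 : (s : ℝ) * Real.log z < Real.log (rr A) := by
      rw [← Real.log_pow]
      exact Real.log_lt_log (by positivity) (not_le.1 h)
    have h4 : 1 ≤ Real.log (rr A) / (s * Real.log z) := by
      rw [one_le_div (by positivity)]
      exact h3.le
    have h5 : 0 < 1 / ph A := by positivity
    nlinarith

private theorem UW8_sumlog {R : Prm} {z p1 : ℕ} (hz : 4 ≤ z) (hl1 : 1 ≤ l1 R) {Q : Finset ℕ} (hQ : Q ⊆ Ps R z p1) :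
    ∑ p ∈ Q, Real.log p / p ≤ 2 * l1 R * Real.log z := by
  have h1 : ∑ p ∈ Q, Real.log p / p ≤ Pool.Agent.LibMaier.TN (z ^ l1 R) := by
    unfold Pool.Agent.LibMaier.TN
    refine Finset.sum_le_sum_of_subset_of_nonneg (fun p hp => ?_) (fun p _ _ => ?_)
    · exact Pool.Agent.LibMaier.mem_PN.2 ⟨(UW8_mem (hQ hp)).2.2, (UW8_mem (hQ hp)).1⟩
    · exact div_nonneg (Real.log_natCast_nonneg p) (Nat.cast_nonneg p)
  have h2 := Pool.Agent.LibMaier.TN_le (z ^ l1 R) (Nat.one_le_pow _ _ (by omega))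
  rw [Nat.cast_pow, Real.log_pow] at h2
  have h3 : Real.log 4 ≤ Real.log z := Real.log_le_log (by norm_num) (by exact_mod_cast hz)
  have h4 : 0 ≤ Real.log z := Real.log_natCast_nonneg z
  have h5 : (1 : ℝ) ≤ l1 R := by exact_mod_cast hl1
  nlinarith

private theorem UW8_sdiff {R : Prm} {z p1 : ℕ} {S : Finset ℕ} (hS : S ⊆ Ps R z p1) :
    Gs R z p1 * (1 - ∑ p ∈ S, 1 / (p : ℝ)) ≤ ∏ p ∈ Ps R z p1 \ S, (1 + 1 / ((p : ℝ) - 1)) := by
  have h1 : (∏ p ∈ Ps R z p1 \ S, (1 + 1 / ((p : ℝ) - 1))) * ∏ p ∈ S, (1 + 1 / ((p : ℝ) - 1)) = Gs R z p1 :=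
    Finset.prod_sdiff hS
  have hp : ∀ p ∈ Ps R z p1, (1 : ℝ) < p := fun p hp => by exact_mod_cast (UW8_mem hp).1.one_lt
  have h2 : (∏ p ∈ S, (1 + 1 / ((p : ℝ) - 1))) * ∏ p ∈ S, (1 - 1 / (p : ℝ)) = 1 := by
    rw [← Finset.prod_mul_distrib]
    refine Finset.prod_eq_one fun p hpS => ?_
    have h3 := hp p (hS hpS)
    have h4 : (p : ℝ) - 1 ≠ 0 := by linarith
    have h5 : (p : ℝ) ≠ 0 := by linarith
    field_simp
    ring
  have h3 : 1 - ∑ p ∈ S, 1 / (p : ℝ) ≤ ∏ p ∈ S, (1 - 1 / (p : ℝ)) := by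
    have : ∀ T ⊆ S, 1 - ∑ p ∈ T, 1 / (p : ℝ) ≤ ∏ p ∈ T, (1 - 1 / (p : ℝ)) ∧ ∏ p ∈ T, (1 - 1 / (p : ℝ)) ≤ 1 ∧
        0 ≤ ∏ p ∈ T, (1 - 1 / (p : ℝ)) := by
      classical
      intro T
      induction T using Finset.induction_on with
      | empty => intro _; simp
      | insert q T hq ih =>
        intro hT
        obtain ⟨i1, i2, i3⟩ := ih fun p hp => hT (Finset.mem_insert_of_mem hp)
        have hq1 := hp q (hS (hT (Finset.mem_insert_self _ _)))
        have hq2 : 0 < 1 / (q : ℝ) := by positivity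
        have hq3 : 1 / (q : ℝ) ≤ 1 := by
          rw [div_le_one (by linarith)]
          exact hq1.le
        rw [Finset.sum_insert hq, Finset.prod_insert hq]
        refine ⟨by nlinarith, by nlinarith, mul_nonneg (by linarith) i3⟩
    exact (this S (Finset.Subset.refl _)).1
  have hG : 0 ≤ Gs R z p1 := by
    unfold Gs
    refine Finset.prod_nonneg fun p h => ?_
    have h4 := hp p h
    have : 0 ≤ 1 / ((p : ℝ) - 1) := div_nonneg zero_le_one (by linarith)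
    linarith
  calc Gs R z p1 * (1 - ∑ p ∈ S, 1 / (p : ℝ)) ≤ Gs R z p1 * ∏ p ∈ S, (1 - 1 / (p : ℝ)) :=
        mul_le_mul_of_nonneg_left h3 hG
    _ = ∏ p ∈ Ps R z p1 \ S, (1 + 1 / ((p : ℝ) - 1)) := by
        rw [← h1, mul_assoc, h2, mul_one]

theorem gs_ge : ∃ C0 : ℕ, ∀ (R : Prm) (C Cq Cm : ℕ) (c cD Λ δ : ℝ), ParG R C Cq Cm c cD Λ δ → C0 ≤ δ * R.D →
    ∀ t : ℕ, ∀ᶠ z : ℕ in atTop, ∀ p1 s : ℕ, R.u ≤ s → ∀ S ⊆ Ps R z p1, S.card ≤ t →
      (1 - δ / 16) * Gs R z p1 ≤ Gn (Ps R z p1 \ S) z s := by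
  refine ⟨64, fun R C Cq Cm c cD Λ δ hp hC0 t => ?_⟩
  obtain ⟨hq0, hk, hu, -, -, -⟩ := prm_le hp
  have hδ := hp.hδ
  have hδ1 := hp.hδ1
  have hD : (64 : ℝ) ≤ δ * R.D := by exact_mod_cast hC0
  have ha : 1 ≤ R.a ^ R.I := Nat.one_le_pow _ _ (by have := hp.sums.1; omega)
  have hl1 : 1 ≤ l1 R := Nat.mul_pos hq0 ha
  have hDu : R.D * l1 R ≤ R.u := by
    unfold l1 Prm.u Prm.k
    calc R.D * (R.q0 * R.a ^ R.I) = R.D * (1 * R.a ^ R.I) * 1 * R.q0 := by ring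
      _ ≤ R.D * (R.B * R.a ^ R.I) * (R.I + 1) * R.q0 := by
          have := hp.hB
          gcongr
          omega
  have ht : ∀ᶠ z : ℕ in atTop, (t : ℝ) * 32 / δ ≤ (z : ℝ) :=
    tendsto_natCast_atTop_atTop.eventually_ge_atTop _
  filter_upwards [ht, eventually_ge_atTop 4] with z hzt hz p1 s hs S hS hSc
  have hz0 : (0 : ℝ) < z := by
    have : 0 < z := by omega
    exact_mod_cast this
  have hl : 0 < Real.log z := Real.log_pos (by
    have : 1 < z := by omega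
    exact_mod_cast this)
  have hs1 : 1 ≤ s := hu.trans hs
  have hs0 : (0 : ℝ) < s := by exact_mod_cast hs1
  have hpr : ∀ p ∈ Ps R z p1 \ S, p.Prime := fun p h => (UW8_mem (Finset.sdiff_subset h)).1
  have h1 := UW8_split hpr (z := z) (s := s) (by omega) hs1
  have h2 := UW8_sumlog hz hl1 (p1 := p1) (Q := Ps R z p1 \ S) Finset.sdiff_subset
  have h3 := UW8_sdiff hS
  have hlD : (64 : ℝ) * l1 R ≤ δ * s := by
    have h4 : ((R.D * l1 R : ℕ) : ℝ) ≤ (s : ℝ) := by exact_mod_cast hDu.trans hs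
    rw [Nat.cast_mul] at h4
    calc (64 : ℝ) * l1 R ≤ δ * R.D * l1 R := by gcongr
      _ = δ * (R.D * l1 R) := by ring
      _ ≤ δ * s := by gcongr
  have h5 : (∑ p ∈ Ps R z p1 \ S, Real.log p / p) / (s * Real.log z) ≤ δ / 32 := by
    rw [div_le_iff₀ (by positivity)]
    nlinarith
  have h6 : ∑ p ∈ S, 1 / (p : ℝ) ≤ δ / 32 := by
    calc ∑ p ∈ S, 1 / (p : ℝ) ≤ ∑ p ∈ S, 1 / (z : ℝ) := by
          refine Finset.sum_le_sum fun p h => ?_
          have h7 : (z : ℝ) ≤ p := by exact_mod_cast (UW8_mem (hS h)).2.1.le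
          exact one_div_le_one_div_of_le hz0 h7
      _ = S.card * (1 / (z : ℝ)) := by rw [Finset.sum_const, nsmul_eq_mul]
      _ ≤ t * (1 / (z : ℝ)) := by gcongr
      _ ≤ δ / 32 := by
          rw [mul_one_div, div_le_iff₀ hz0]
          rw [div_le_iff₀ hδ] at hzt
          linarith
  have hG : 1 ≤ Gs R z p1 := by
    unfold Gs
    refine UW8_one fun p h => ?_
    have h4 : (1 : ℝ) < p := by exact_mod_cast (UW8_mem h).1.one_lt
    have : 0 ≤ 1 / ((p : ℝ) - 1) := div_nonneg zero_le_one (by linarith)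
    linarith
  have h8 : Gs R z p1 * (1 - δ / 32) ≤ ∏ p ∈ Ps R z p1 \ S, (1 + 1 / ((p : ℝ) - 1)) :=
    (mul_le_mul_of_nonneg_left (by linarith) (by linarith)).trans h3
  calc (1 - δ / 16) * Gs R z p1 ≤ Gs R z p1 * (1 - δ / 32) * (1 - δ / 32) := by
        have h9 : 0 ≤ Gs R z p1 * (δ / 32) ^ 2 := mul_nonneg (by linarith) (sq_nonneg _)
        linarith [show Gs R z p1 * (1 - δ / 32) * (1 - δ / 32) =
          (1 - δ / 16) * Gs R z p1 + Gs R z p1 * (δ / 32) ^ 2 by ring]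
    _ ≤ (∏ p ∈ Ps R z p1 \ S, (1 + 1 / ((p : ℝ) - 1))) * (1 - δ / 32) :=
        mul_le_mul_of_nonneg_right h8 (by linarith)
    _ ≤ (∏ p ∈ Ps R z p1 \ S, (1 + 1 / ((p : ℝ) - 1))) *
          (1 - (∑ p ∈ Ps R z p1 \ S, Real.log p / p) / (s * Real.log z)) := by
        refine mul_le_mul_of_nonneg_left (by linarith) ?_
        have : 0 ≤ Gs R z p1 * (1 - δ / 32) := mul_nonneg (by linarith) (by linarith)
        linarith
    _ ≤ _ := h1

theorem gn_le_gs {R : Prm} {z : ℕ} (hz : 1 ≤ z) (p1 s : ℕ) (S : Finset ℕ) :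
    Gn (Ps R z p1 \ S) z s ≤ Gs R z p1 := by
  classical
  have hp : ∀ p ∈ Ps R z p1, (1 : ℝ) < p := fun p hp => by exact_mod_cast (UW8_mem hp).1.one_lt
  have h1 : Gn (Ps R z p1 \ S) z s ≤ ∏ p ∈ Ps R z p1 \ S, (1 + 1 / ((p : ℝ) - 1)) := by
    rw [UW8_exp]
    unfold Gn
    refine Finset.sum_le_sum_of_subset_of_nonneg (Finset.filter_subset _ _) fun A hA _ => ?_
    have hAp : ∀ p ∈ A, p.Prime := fun p hp =>
      (UW8_mem (Finset.sdiff_subset (Finset.mem_powerset.1 hA hp))).1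
    have := UW8_ph hAp
    positivity
  refine h1.trans ?_
  unfold Gs
  rw [← Finset.prod_sdiff (Finset.inter_subset_left : Ps R z p1 ∩ S ⊆ Ps R z p1), Finset.sdiff_inter_self_left]
  refine le_mul_of_one_le_right (Finset.prod_nonneg fun p h => ?_) (UW8_one fun p h => ?_)
  · have h4 := hp p (Finset.sdiff_subset h)
    have : 0 ≤ 1 / ((p : ℝ) - 1) := div_nonneg zero_le_one (by linarith)
    linarith
  · have h4 := hp p (Finset.inter_subset_left h)
    have : 0 ≤ 1 / ((p : ℝ) - 1) := div_nonneg zero_le_one (by linarith)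
    linarith

theorem one_le_gs {R : Prm} {z : ℕ} (hz : 1 ≤ z) (p1 : ℕ) : 1 ≤ Gs R z p1 := by
  unfold Gs
  refine UW8_one fun p h => ?_
  have h4 : (1 : ℝ) < p := by exact_mod_cast (UW8_mem h).1.one_lt
  have : 0 ≤ 1 / ((p : ℝ) - 1) := div_nonneg zero_le_one (by linarith)
  linarith

end Pool.Agent.LibFB63
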