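import Pool.Agent.LibFB63.UW4
import Pool.Agent.LibFB63.UW8
import Pool.Agent.LibGL22.N2
import Pool.Agent.LibGL22.Z0

/-!
Row UL5a (lower bound for the diagonal of the coefficients with the Selberg factor). `dgV_ySel` (LibGL22/Z0.lean): `dgV (ySel …) = ∑_β yCol β² V(…)/(Gn (Ps \ sp β) z s * ph (sp β))`, `0 < Gn (Ps \ sp β) z s ≤ Gs` (`one_le_Gn`, `gn_le_gs` of UW8), so it is
`≥ dgV (yCol YP)/Gs ≥ (1 - δ/4) G1² G2^(k-1) DKG/Gs = (1 - δ/4) m1` by `dgJ_ge2` (LibGL22/N2.lean) for `P = Ps`, `L' = R.u`, `ε = δ/4`, `V = VP (P0 z p1) ≥ 0`, `r0 = R.r0`, `r1 = R.q0` (`YP` has the level `2 * R.u`), `G1G_eq`, `DKG_eq` (UW4).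
Hypothesis `h2` of `dgJ_ge2`: `hp.sums` (`SumsP`, LibPL63/M2.lean; or `sums_PL` of LibGL22/N3.lean with `k1 = l1 R = R.q0 * R.a ^ R.I`) and `hp.hD`: `32 k C (I+1) q0² ≤ (δ/4) c q0 u`. See the finished `LibGL22/S3.lean` (`side3`), which does the same for `PG`.
-/

open Finset Filter

namespace Pool.Agent.LibFB63

open Pool.Agent.LibRG87 Pool.Agent.LibLG5 Pool.Agent.LibPL63 Pool.Agent.LibSC93 Pool.Agent.LibGL22

variable {R : Prm} {C Cq Cm : ℕ} {c cD Λ δ : ℝ}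

private theorem UL5a_pr {z p1 p : ℕ} (h : p ∈ Ps R z p1) : p.Prime ∧ z < p := by
  obtain ⟨_, h2, h3, _⟩ := mem_PL.1 h
  exact ⟨h2, h3⟩

private theorem UL5a_dg_nonneg {ι : Type} [Fintype ι] [DecidableEq ι] (P : Finset ℕ)
    (hP : ∀ p ∈ P, Nat.Prime p) (V : Finset ℕ → ℝ) (hV : ∀ B, 0 ≤ V B) (b : ι → ℕ)
    (E : Finset ℕ) (y : (P → Option ι) → ℝ) : 0 ≤ dgV P V b E y := by
  unfold dgV
  refine Finset.sum_nonneg fun β _ => ?_
  exact div_nonneg (mul_nonneg (sq_nonneg _) (hV _)) (ph_pos P hP (sp_subset P β)).le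

private theorem UL5a_sel {ι : Type} [Fintype ι] [DecidableEq ι] (P : Finset ℕ)
    (hP : ∀ p ∈ P, Nat.Prime p) {z : ℕ} (s : ℕ) (hz : 1 ≤ z) (V : Finset ℕ → ℝ) (hV : ∀ B, 0 ≤ V B)
    (b : ι → ℕ) (i : ι) (E : Finset ℕ) (hE : b i ∈ E) (y : (P → Option ι) → ℝ) {G : ℝ}
    (hG : ∀ S : Finset ℕ, Gn (P \ S) z s ≤ G) :
    dgV P V b E (yCol P i y) / G ≤ dgV P V b E (ySel P z s i y) := by
  rw [dgV_ySel P hP z s hz V b i E hE y]
  unfold dgV
  rw [Finset.sum_div]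
  refine Finset.sum_le_sum fun β _ => ?_
  have h1 : 1 ≤ Gn (P \ sp P β) z s :=
    one_le_Gn (P \ sp P β) z s (fun p hp => hP p (Finset.mem_sdiff.1 hp).1) hz
  have h2 : 0 < ph (sp P β) := ph_pos P hP (sp_subset P β)
  have h3 := hG (sp P β)
  have h4 : 0 ≤ yCol P i y β ^ 2 * V (E ∪ su P b β) := mul_nonneg (sq_nonneg _) (hV _)
  rw [div_div, mul_comm (ph (sp P β)) G]
  exact div_le_div_of_nonneg_left h4 (mul_pos (by linarith) h2)
    (mul_le_mul_of_nonneg_right h3 h2.le)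

theorem dgSel_ge (hp : ParG R C Cq Cm c cD Λ δ) : ∀ᶠ z : ℕ in atTop, ∀ p1 : ℕ, p1.Prime →
    ∀ (c0 : ℕ) (h K : Finset ℕ), PosS z p1 c0 R.k (Λ * R.q) h K → ∀ (i0 : ↥h) (s : ℕ),
      (1 - δ / 4) * m1 R z p1 h K ≤
        dgV (Ps R z p1) (VP (P0 z p1)) (bS h K) h (ySel (Ps R z p1) z s (Sum.inl i0) (YP R z p1 h K)) := by
  classical
  obtain ⟨hq0, hk1, hu1, hqu, hqau, hM, hk21, hk2k1, huk1, hk1q, ht1, ht2⟩ := prm_le hp
  have hδ := hp.hδ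
  have hδ1 := hp.hδ1
  have t1 : Tendsto (fun z : ℕ => Real.log (z : ℝ)) atTop atTop :=
    Real.tendsto_log_atTop.comp tendsto_natCast_atTop_atTop
  have e1 : ∀ᶠ z : ℕ in atTop, 64 * ((R.k : ℝ) + R.q0 + R.u + 1) ^ 2 ≤ δ / 4 * z := by
    have h1 : Tendsto (fun z : ℕ => δ / 4 * (z : ℝ)) atTop atTop :=
      tendsto_natCast_atTop_atTop.const_mul_atTop (by positivity)
    exact h1.eventually_ge_atTop _
  filter_upwards [sums_PL hp.sums R.I R.q0 (l1 R) hp.hI hq0 (le_of_eq rfl), e1,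
    t1.eventually_ge_atTop 1, eventually_ge_atTop 6]
    with z h5 hz64 h7 hz6
  intro p1 hp1 c0 h K hpos i0 s
  have hh : h.card = R.k := hpos.1
  have hz2 : 2 ≤ z := by omega
  have hz1 : 1 ≤ z := by omega
  have hlz : 0 < Real.log (z : ℝ) := by linarith
  have hP : ∀ p ∈ Ps R z p1, Nat.Prime p := fun p hp' => (UL5a_pr hp').1
  have hP0 : ∀ p ∈ P0 z p1, p.Prime := fun p hp' => (mem_P0.1 hp').2.1
  obtain ⟨hs1, hs2, hs3, hs4, hs5⟩ := h5 p1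
  have hgs : 1 ≤ Gs R z p1 := one_le_gs hz1 p1
  have hDD : (1 - δ / 4) * (G1s (Ps R z p1) z R.q0 R.a R.I ^ 2 *
        G2s (Ps R z p1) z R.q0 R.a R.I ^ (R.k - 1)) * DKG R z p1 h K ≤
      dgV (Ps R z p1) (VP (P0 z p1)) (bS h K) h
        (yCol (Ps R z p1) (Sum.inl i0) (YP R z p1 h K)) := by
    have h11 := dgJ_ge2 (κ := ↥h) (ν := ↥K) (Ps R z p1) z R.q0 R.a R.I R.u R.r0 R.q0
      (fun p hp' => UL5a_pr hp') (by have := hp.sums.1; omega)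
      (VP (P0 z p1)) (VP_nonneg _ hP0) (bS h K) h (fun i => i.2) i0 hqau hu1
      (ε := δ / 4) (by positivity) (by linarith)
      (by
        rw [Fintype.card_coe, hh]
        exact hz64)
      (by
        rw [Fintype.card_coe, hh]
        have hLL : (R.u : ℝ) = R.D * (R.k : ℕ) * (R.I + 1) * R.q0 := by
          unfold Prm.u; push_cast; ring
        have h12 : 32 * ((R.k : ℕ) : ℝ) * L2s (Ps R z p1) z R.q0 R.a R.I ≤
            32 * ((R.k : ℕ) : ℝ) * (C * (R.I + 1) * R.q0 ^ 2 * Real.log z) :=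
          mul_le_mul_of_nonneg_left hs5 (by positivity)
        have h13 : δ / 4 * ((c * R.q0) * (R.u : ℝ) * Real.log z) ≤
            δ / 4 * (G2s (Ps R z p1) z R.q0 R.a R.I * (R.u : ℝ) * Real.log z) := by
          have h14 : c * R.q0 ≤ G2s (Ps R z p1) z R.q0 R.a R.I := hs3
          gcongr
        refine h12.trans (le_trans ?_ h13)
        rw [hLL]
        have h14 : 128 * (C : ℝ) ≤ δ * c * R.D := hp.hD
        have h15 : 0 ≤ ((R.k : ℕ) : ℝ) * (R.I + 1) * R.q0 ^ 2 * Real.log z := by positivity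
        calc 32 * ((R.k : ℕ) : ℝ) * (C * (R.I + 1) * R.q0 ^ 2 * Real.log z) =
            (1 / 4) * ((128 * C) * (((R.k : ℕ) : ℝ) * (R.I + 1) * R.q0 ^ 2 * Real.log z)) := by ring
          _ ≤ (1 / 4) * ((δ * c * R.D) * (((R.k : ℕ) : ℝ) * (R.I + 1) * R.q0 ^ 2 * Real.log z)) :=
            mul_le_mul_of_nonneg_left (mul_le_mul_of_nonneg_right h14 h15) (by norm_num)
          _ = _ := by ring)
    rw [Fintype.card_coe, hh] at h11
    rw [DKG_eq hp hz2 p1 h K]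
    exact h11
  have hsel := UL5a_sel (Ps R z p1) hP s hz1 (VP (P0 z p1)) (VP_nonneg _ hP0) (bS h K)
    (Sum.inl i0) h i0.2 (YP R z p1 h K) (G := Gs R z p1) (fun S => gn_le_gs hz1 p1 s S)
  refine le_trans ?_ hsel
  have hm : (1 - δ / 4) * m1 R z p1 h K = ((1 - δ / 4) * (G1s (Ps R z p1) z R.q0 R.a R.I ^ 2 *
        G2s (Ps R z p1) z R.q0 R.a R.I ^ (R.k - 1)) * DKG R z p1 h K) / Gs R z p1 := by
    unfold m1
    rw [(G1G_eq hp hz2 p1).1, (G1G_eq hp hz2 p1).2]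
    ring
  rw [hm]
  exact div_le_div_of_nonneg_right hDD (by linarith)

/-- positivity -/
theorem m1_nonneg (hp : ParG R C Cq Cm c cD Λ δ) : ∀ᶠ z : ℕ in atTop, ∀ p1 : ℕ, p1.Prime →
    ∀ (h K : Finset ℕ), 0 ≤ m1 R z p1 h K := by
  obtain ⟨hq0, hk1, hu1, hqu, hqau, hM, hk21, hk2k1, huk1, hk1q, ht1, ht2⟩ := prm_le hp
  filter_upwards [sums_PL hp.sums R.I R.q0 (l1 R) hp.hI hq0 (le_of_eq rfl),
    eventually_ge_atTop 6] with z h5 hz6
  intro p1 hp1 h K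
  have hz2 : 2 ≤ z := by omega
  have hz1 : 1 ≤ z := by omega
  obtain ⟨hs1, hs2, hs3, hs4, hs5⟩ := h5 p1
  have hP0 : ∀ p ∈ P0 z p1, p.Prime := fun p hp' => (mem_P0.1 hp').2.1
  have hc : 0 < c := hp.sums.2.2.1
  have hG2 : 0 ≤ G2G R z p1 := by
    rw [(G1G_eq hp hz2 p1).2]
    refine le_trans ?_ hs3
    positivity
  have hDK : 0 ≤ DKG R z p1 h K :=
    UL5a_dg_nonneg (PG R z p1) (fun p hp' => (PG_mem hp').1) _ (VP_nonneg _ hP0) _ _ _
  have hgs : 1 ≤ Gs R z p1 := one_le_gs hz1 p1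
  unfold m1
  exact div_nonneg (mul_nonneg (sq_nonneg _) (mul_nonneg (pow_nonneg hG2 _) hDK)) (by linarith)

end Pool.Agent.LibFB63
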