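import Pool.Agent.LibFB63.UL1
import Pool.Agent.LibGL22.Z0

/-!
Row UL4 (pointwise inequalities). `low_pt`: if `rhoP P {b i0} n = 1`, no prime of `P` divides `n + b i0`: `F n = G n` (hypothesis) and the filter is empty; otherwise `rhoP = 0`, the filter contains a prime and the right side is `≤ 0`.
`split_sq`: `PhiS_split_q`, `(A + B)² ≤ 2 A² + 2 B²`, `(∑_{i ≠ i0} x_i)² ≤ card ι ∑ x_i²` (`sq_sum_le_card_mul_sum_sq`, `card (univ.erase i0) ≤ card ι`).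
`PhiS_eq_ySel`: `collapseSel` (LibGL22/Z0.lean) if no prime of `Pr` divides `n + b i0`; otherwise both sides are `0` because `b i0 ∈ E` (`rhoP Pr (E ∪ …) n = 0`).
`filter_sum_le`: `∑_{n ∈ s} f n - ∑_{n ∈ s} ∑_{q ∈ P, q ∣ n + a} f n = ∑_{n ∈ s} f n - ∑_{q ∈ P} ∑_{n ∈ s, q ∣ n + a} f n` (`Finset.sum_comm'`).
-/

open Finset

namespace Pool.Agent.LibFB63

open Pool.Agent.LibRG87 Pool.Agent.LibLG5 Pool.Agent.LibPL63 Pool.Agent.LibSC93 Pool.Agent.LibGL22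

variable {ι : Type} [Fintype ι] [DecidableEq ι] (P : Finset ℕ)

private theorem UL4_zero {Pr B : Finset ℕ} {n x : ℕ} (hx : x ∈ B) (h : ¬ ∀ p ∈ Pr, ¬ p ∣ n + x) :
    rhoP Pr B n = 0 := by
  unfold rhoP
  rw [if_neg]
  intro h1
  exact h (h1 x hx)

theorem PhiS_eq_ySel (Pr : Finset ℕ) (hP : ∀ p ∈ P, Nat.Prime p) (z s : ℕ) (hz : 1 ≤ z) (b : ι → ℕ) (i0 : ι) (n : ℕ)
    (hn' : ∀ p ∈ P, ¬ p ∣ n + b i0) (y : (P → Option ι) → ℝ) (E : Finset ℕ) (hE : b i0 ∈ E) :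
    PhiS P Pr b y E n = PhiS P Pr b (ySel P z s i0 y) E n := by
  by_cases hn : ∀ p ∈ Pr, ¬ p ∣ n + b i0
  · exact collapseSel P Pr hP z s hz b i0 n hn hn' y E
  · unfold PhiS
    refine Finset.sum_congr rfl fun β _ => ?_
    rw [UL4_zero (Finset.mem_union_left _ hE) hn]
    ring

theorem low_pt (a n : ℕ) (F G : ℝ) (h : (∀ p ∈ P, ¬ p ∣ n + a) → G = F) :
    F ^ 2 - ∑ _q ∈ P.filter (fun q => q ∣ n + a), F ^ 2 ≤ rhoP P {a} n * G ^ 2 := by
  by_cases h1 : ∀ p ∈ P, ¬ p ∣ n + a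
  · have h2 : P.filter (fun q => q ∣ n + a) = ∅ := by
      rw [Finset.filter_eq_empty_iff]
      exact fun {q} hq => h1 q hq
    have h3 : rhoP P {a} n = 1 := by
      unfold rhoP
      rw [if_pos]
      intro x hx p hp
      rw [Finset.mem_singleton] at hx
      rw [hx]
      exact h1 p hp
    rw [h2, Finset.sum_empty, h3, h h1]
    linarith
  · have h3 : rhoP P {a} n = 0 := UL4_zero (Finset.mem_singleton_self a) h1
    have h4 : 1 ≤ (P.filter (fun q => q ∣ n + a)).card := by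
      rw [Nat.succ_le_iff, Finset.card_pos]
      by_contra h5
      rw [Finset.not_nonempty_iff_eq_empty, Finset.filter_eq_empty_iff] at h5
      exact h1 fun p hp => h5 hp
    have h5 : (1 : ℝ) ≤ ((P.filter (fun q => q ∣ n + a)).card : ℝ) := by exact_mod_cast h4
    rw [h3, zero_mul, Finset.sum_const, nsmul_eq_mul]
    have h6 := mul_le_mul_of_nonneg_right h5 (sq_nonneg F)
    linarith

/-- the sum form -/
theorem low_sum (S : Finset ℕ) (a : ℕ) (F G L : ℕ → ℝ) (h : ∀ n ∈ S, (∀ p ∈ P, ¬ p ∣ n + a) → G n = F n) :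
    ∑ n ∈ S, F n ^ 2 * L n ^ 2 - ∑ q ∈ P, ∑ n ∈ S.filter (fun n => q ∣ n + a), F n ^ 2 * L n ^ 2 ≤
      ∑ n ∈ S, rhoP P {a} n * G n ^ 2 * L n ^ 2 := by
  have h1 : ∑ q ∈ P, ∑ n ∈ S.filter (fun n => q ∣ n + a), F n ^ 2 * L n ^ 2 =
      ∑ n ∈ S, ∑ _q ∈ P.filter (fun q => q ∣ n + a), F n ^ 2 * L n ^ 2 := by
    simp only [Finset.sum_filter]
    rw [Finset.sum_comm]
  rw [h1, ← Finset.sum_sub_distrib]
  refine Finset.sum_le_sum fun n hn => ?_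
  have h2 := low_pt P a n (F n) (G n) (h n hn)
  have h3 : F n ^ 2 * L n ^ 2 - ∑ _q ∈ P.filter (fun q => q ∣ n + a), F n ^ 2 * L n ^ 2 =
      (F n ^ 2 - ∑ _q ∈ P.filter (fun q => q ∣ n + a), F n ^ 2) * L n ^ 2 := by
    rw [← Finset.sum_mul]
    ring
  rw [h3]
  exact mul_le_mul_of_nonneg_right h2 (sq_nonneg _)

/-- the square of the split at `q` -/
theorem split_sq (Pr : Finset ℕ) (b : ι → ℕ) {q : ℕ} (hq : q ∈ P) (i0 : ι) (n : ℕ) (hn : q ∣ n + b i0)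
    (hn' : ∀ i, i ≠ i0 → ¬ q ∣ n + b i) (y : (P → Option ι) → ℝ) (E : Finset ℕ) (hE : b i0 ∈ E) :
    PhiS P Pr b y E n ^ 2 ≤
      2 * PhiS (P \ {q}) Pr b (fun α => y (ext P {q} α) - y (ins P i0 {q} (ext P {q} α))) E n ^ 2 +
        2 * (Fintype.card ι / ((q : ℝ) - 1) ^ 2) * ∑ i ∈ univ.erase i0,
          PhiS (P \ {q}) Pr b (fun α => y (ins P i {q} (ext P {q} α))) (insert (b i) E) n ^ 2 := by
  rw [PhiS_split_q P Pr b hq i0 n hn hn' y E hE]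
  generalize PhiS (P \ {q}) Pr b (fun α => y (ext P {q} α) - y (ins P i0 {q} (ext P {q} α))) E n = A
  have h1 : (∑ i ∈ univ.erase i0,
      PhiS (P \ {q}) Pr b (fun α => y (ins P i {q} (ext P {q} α))) (insert (b i) E) n) ^ 2 ≤
      (Fintype.card ι : ℝ) * ∑ i ∈ univ.erase i0,
        PhiS (P \ {q}) Pr b (fun α => y (ins P i {q} (ext P {q} α))) (insert (b i) E) n ^ 2 := by
    refine sq_sum_le_card_mul_sum_sq.trans ?_
    refine mul_le_mul_of_nonneg_right ?_ (Finset.sum_nonneg fun _ _ => sq_nonneg _)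
    have h2 : ((univ.erase i0).card : ℕ) ≤ Fintype.card ι :=
      Finset.card_le_univ _
    exact_mod_cast h2
  generalize (∑ i ∈ univ.erase i0,
      PhiS (P \ {q}) Pr b (fun α => y (ins P i {q} (ext P {q} α))) (insert (b i) E) n) = B at h1
  generalize (∑ i ∈ univ.erase i0,
      PhiS (P \ {q}) Pr b (fun α => y (ins P i {q} (ext P {q} α))) (insert (b i) E) n ^ 2) = D at h1
  have h2 : (1 / ((q : ℝ) - 1) * B) ^ 2 ≤ Fintype.card ι / ((q : ℝ) - 1) ^ 2 * D := by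
    have h3 : (1 / ((q : ℝ) - 1) * B) ^ 2 = (1 / ((q : ℝ) - 1)) ^ 2 * B ^ 2 := by ring
    have h4 : (Fintype.card ι : ℝ) / ((q : ℝ) - 1) ^ 2 * D =
        (1 / ((q : ℝ) - 1)) ^ 2 * ((Fintype.card ι : ℝ) * D) := by
      rw [one_div, inv_pow, div_eq_mul_inv]
      ring
    rw [h3, h4]
    exact mul_le_mul_of_nonneg_left h1 (sq_nonneg _)
  nlinarith [sq_nonneg (A - 1 / ((q : ℝ) - 1) * B)]

end Pool.Agent.LibFB63
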