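import Pool.Agent.LibFB63.UD
import Pool.Agent.LibGL22.B1
import Pool.Agent.LibGL22.N3
import Pool.Agent.LibLG5.M2
import Pool.Agent.LibLG5.NT

/-!
Row UW11 (crude bound for the diagonal of the killing part). `DKG = ∑_γ y5 γ² VP (h ∪ su γ)/ph (sp γ)`, `|y5| ≤ 1` (`y5_abs_le` with the facts of `BaseG`), `VP (h ∪ B) ≤ VP h` (`nuP` is monotone, factors in `[0, 1]`; or `VP_step` in LibSC93/V1.lean with `V1p ≤ 1` and a factor 4),
at most `K' = 2 A2^I2` positions are used (`y5_supp`, `2 R.q0 ≤ K' R.r0`); `∑_{γ, |sui γ| ≤ K'} 1/ph (sp γ) ≤ ∑_{J ⊆ K, |J| ≤ K'} ∏_{p ∈ PG} (1 + |J|/(p-1)) ≤ (card K + 1)^K' (C0 k1)^K'` (`(1 + K'/(p-1)) ≤ (1 + 1/(p-1))^K'`, `NT_S_upper`), and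
`card K ≤ log² z + 1` (`card_pos` of B1: `card (h ⊕ K) ≤ log² z + 1`), so everything is `≤ (log z)^N` for large `z`. (Another way: `sum_beta_le` of LibRG87 with the product structure, or induction; any bound by a power of `log z` is fine.)
-/

open Finset Filter

namespace Pool.Agent.LibFB63

open Pool.Agent.LibRG87 Pool.Agent.LibLG5 Pool.Agent.LibPL63 Pool.Agent.LibSC93 Pool.Agent.LibGL22

variable {R : Prm} {C Cq Cm : ℕ} {c cD Λ δ : ℝ}

private theorem uw_one_le {α : Type} (s : Finset α) (f : α → ℝ) (h : ∀ i ∈ s, 1 ≤ f i) : 1 ≤ ∏ i ∈ s, f i := by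
  classical
  induction s using Finset.induction_on with
  | empty => simp
  | insert a s ha ih =>
    rw [Finset.prod_insert ha]
    exact one_le_mul_of_one_le_of_one_le (h a (Finset.mem_insert_self _ _))
      (ih fun i hi => h i (Finset.mem_insert_of_mem hi))

private theorem uw_sum {ι : Type} [Fintype ι] [DecidableEq ι] (P : Finset ℕ) (J : Finset ι) :
    ∑ β : P → Option ι, (if sui P β ⊆ J then 1 / ph (sp P β) else 0) =
      ∏ p ∈ P, (1 + (J.card : ℝ) * (1 / ((p : ℝ) - 1))) := by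
  classical
  have h1 : ∏ p ∈ P, (1 + (J.card : ℝ) * (1 / ((p : ℝ) - 1))) =
      ∏ p : P, ∑ o ∈ (Finset.univ : Finset (Option ι)),
        (match o with
          | none => (1 : ℝ)
          | some i => if i ∈ J then 1 / (((p : ℕ) : ℝ) - 1) else 0) := by
    rw [← Finset.prod_coe_sort]
    refine Finset.prod_congr rfl fun p _ => ?_
    rw [Fintype.sum_option]
    simp only [Finset.sum_ite_mem, Finset.univ_inter, Finset.sum_const, nsmul_eq_mul]
  rw [h1, Finset.prod_univ_sum, Fintype.piFinset_univ]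
  refine Finset.sum_congr rfl fun β _ => ?_
  by_cases hJ : sui P β ⊆ J
  · rw [if_pos hJ]
    have h2 : ∀ p : P, (match β p with
          | none => (1 : ℝ)
          | some i => if i ∈ J then 1 / (((p : ℕ) : ℝ) - 1) else 0) =
        if β p ≠ none then (((p : ℕ) : ℝ) - 1)⁻¹ else 1 := by
      intro p
      cases hb : β p with
      | none => simp
      | some i =>
        have hi : i ∈ J := hJ (by
          unfold sui
          rw [Finset.mem_filter]
          exact ⟨Finset.mem_univ _, p, hb⟩)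
        simp [hi]
    rw [Finset.prod_congr rfl fun p _ => h2 p]
    unfold ph sp
    rw [Finset.prod_image (fun a _ b _ h => Subtype.ext h), one_div, ← Finset.prod_inv_distrib,
      Finset.prod_filter]
  · rw [if_neg hJ]
    obtain ⟨i, hi, hiJ⟩ := Finset.not_subset.mp hJ
    unfold sui at hi
    rw [Finset.mem_filter] at hi
    obtain ⟨_, p, hp⟩ := hi
    symm
    refine Finset.prod_eq_zero (Finset.mem_univ p) ?_
    rw [hp]
    simp [hiJ]

private theorem uw_card {ι : Type} [Fintype ι] [DecidableEq ι] (m : ℕ) :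
    ((Finset.univ : Finset (Finset ι)).filter fun J => J.card ≤ m).card ≤ (Fintype.card ι + 1) ^ m := by
  classical
  have h1 : (Finset.univ : Finset (Fin m → Option ι)).card = (Fintype.card ι + 1) ^ m := by
    rw [Finset.card_univ, Fintype.card_fun, Fintype.card_option, Fintype.card_fin]
  rw [← h1]
  refine Finset.card_le_card_of_surjOn
    (fun g : Fin m → Option ι => (Finset.univ : Finset ι).filter fun i => ∃ k, g k = some i) ?_
  intro J hJ
  have hJc : J.card ≤ m := by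
    have h2 := Finset.mem_coe.mp hJ
    exact (Finset.mem_filter.mp h2).2
  refine ⟨fun k => if h : k.1 < J.card then some (J.equivFin.symm ⟨k.1, h⟩ : ι) else none,
    Finset.mem_coe.mpr (Finset.mem_univ _), ?_⟩
  ext i
  simp only [Finset.mem_filter, Finset.mem_univ, true_and]
  constructor
  · rintro ⟨k, hk⟩
    by_cases h : k.1 < J.card
    · rw [dif_pos h] at hk
      rw [← Option.some.inj hk]
      exact (J.equivFin.symm ⟨k.1, h⟩).2
    · rw [dif_neg h] at hk
      exact absurd hk (by simp)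
  · intro hi
    have h3 := (J.equivFin ⟨i, hi⟩).2
    refine ⟨⟨(J.equivFin ⟨i, hi⟩).1, lt_of_lt_of_le h3 hJc⟩, ?_⟩
    rw [dif_pos h3]
    simp

private theorem uw_nuP_le {B : Finset ℕ} {p : ℕ} (hp : 0 < p) : nuP B p ≤ p := by
  unfold nuP
  have h1 : B.image (fun a => a % p) ⊆ Finset.range p := by
    intro x hx
    rw [Finset.mem_image] at hx
    obtain ⟨a, _, rfl⟩ := hx
    exact Finset.mem_range.mpr (Nat.mod_lt _ hp)
  exact (Finset.card_le_card h1).trans (Finset.card_range p).le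

private theorem uw_VP {Pr h B : Finset ℕ} (hPr : ∀ p ∈ Pr, Nat.Prime p) :
    0 ≤ VP Pr (h ∪ B) ∧ VP Pr (h ∪ B) ≤ VP Pr h := by
  have h0 : ∀ p ∈ Pr, (0 : ℝ) ≤ 1 - (nuP (h ∪ B) p : ℝ) / p := by
    intro p hp
    have hp0 := (hPr p hp).pos
    have h1 : (nuP (h ∪ B) p : ℝ) ≤ p := by exact_mod_cast uw_nuP_le hp0
    have h2 : (0 : ℝ) < p := by exact_mod_cast hp0
    have h3 : (nuP (h ∪ B) p : ℝ) / p ≤ 1 := (div_le_one h2).mpr h1
    linarith
  constructor
  · exact Finset.prod_nonneg h0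
  · refine Finset.prod_le_prod h0 fun p hp => ?_
    have h2 : (0 : ℝ) < p := by exact_mod_cast (hPr p hp).pos
    have h3 : (nuP h p : ℝ) ≤ nuP (h ∪ B) p := by
      have h4 : nuP h p ≤ nuP (h ∪ B) p := by
        unfold nuP
        exact Finset.card_le_card (Finset.image_subset_image Finset.subset_union_left)
      exact_mod_cast h4
    have h5 : (nuP h p : ℝ) / p ≤ (nuP (h ∪ B) p : ℝ) / p := div_le_div_of_nonneg_right h3 h2.le
    linarith

private theorem uw_dg {ι : Type} [Fintype ι] [DecidableEq ι] (P Pr h : Finset ℕ) (b : ι → ℕ) (m : ℕ)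
    (hP : ∀ p ∈ P, Nat.Prime p) (hPr : ∀ p ∈ Pr, Nat.Prime p) (y : (P → Option ι) → ℝ)
    (hy : ∀ β, |y β| ≤ 1) (hs : ∀ β, y β ≠ 0 → (sui P β).card ≤ m) :
    dgV P (VP Pr) b h y ≤
      VP Pr h * (((Fintype.card ι : ℝ) + 1) ^ m * (∏ p ∈ P, (1 + 1 / ((p : ℝ) - 1))) ^ m) := by
  classical
  have hVh : 0 ≤ VP Pr h := by
    have h1 := (uw_VP (h := h) (B := ∅) hPr).1
    rwa [Finset.union_empty] at h1
  have hph : ∀ β : P → Option ι, 0 < ph (sp P β) := by
    intro β
    unfold ph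
    refine Finset.prod_pos fun p hp => ?_
    have h1 : p ∈ P := by
      unfold sp at hp
      rw [Finset.mem_image] at hp
      obtain ⟨q, _, rfl⟩ := hp
      exact q.2
    have h2 : (1 : ℝ) < p := by exact_mod_cast (hP p h1).one_lt
    linarith
  have hx : ∀ p ∈ P, (0 : ℝ) ≤ 1 / ((p : ℝ) - 1) := by
    intro p hp
    have h2 : (1 : ℝ) < p := by exact_mod_cast (hP p hp).one_lt
    exact (div_pos one_pos (by linarith)).le
  -- termwise
  have h1 : dgV P (VP Pr) b h y ≤ ∑ β : P → Option ι,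
      ∑ J ∈ (Finset.univ : Finset (Finset ι)).filter (fun J => J.card ≤ m),
        VP Pr h * (if sui P β ⊆ J then 1 / ph (sp P β) else 0) := by
    unfold dgV
    refine Finset.sum_le_sum fun β _ => ?_
    have hnn : ∀ J ∈ (Finset.univ : Finset (Finset ι)).filter (fun J => J.card ≤ m),
        0 ≤ VP Pr h * (if sui P β ⊆ J then 1 / ph (sp P β) else 0) := by
      intro J _
      refine mul_nonneg hVh ?_
      split_ifs
      · exact (div_pos one_pos (hph β)).le
      · exact le_rfl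
    by_cases hβ : y β = 0
    · rw [hβ]
      have h2 : (0 : ℝ) ^ 2 * VP Pr (h ∪ su P b β) / ph (sp P β) = 0 := by simp
      rw [h2]
      exact Finset.sum_nonneg hnn
    · have hmem : sui P β ∈ (Finset.univ : Finset (Finset ι)).filter (fun J => J.card ≤ m) :=
        Finset.mem_filter.mpr ⟨Finset.mem_univ _, hs β hβ⟩
      refine le_trans ?_ (Finset.single_le_sum hnn hmem)
      rw [if_pos (Finset.Subset.refl _), mul_one_div]
      refine div_le_div_of_nonneg_right ?_ (hph β).le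
      have h3 := uw_VP (h := h) (B := su P b β) hPr
      have h4 : y β ^ 2 ≤ 1 := by
        rw [← sq_abs]
        exact pow_le_one₀ (abs_nonneg _) (hy β)
      calc y β ^ 2 * VP Pr (h ∪ su P b β) ≤ 1 * VP Pr (h ∪ su P b β) :=
            mul_le_mul_of_nonneg_right h4 h3.1
        _ = VP Pr (h ∪ su P b β) := one_mul _
        _ ≤ VP Pr h := h3.2
  refine h1.trans ?_
  rw [Finset.sum_comm]
  have h5 : ∀ J ∈ (Finset.univ : Finset (Finset ι)).filter (fun J => J.card ≤ m),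
      ∑ β : P → Option ι, VP Pr h * (if sui P β ⊆ J then 1 / ph (sp P β) else 0) ≤
        VP Pr h * (∏ p ∈ P, (1 + 1 / ((p : ℝ) - 1))) ^ m := by
    intro J hJ
    have hJm : J.card ≤ m := (Finset.mem_filter.mp hJ).2
    rw [← Finset.mul_sum, uw_sum]
    refine mul_le_mul_of_nonneg_left ?_ hVh
    rw [← Finset.prod_pow]
    refine Finset.prod_le_prod (fun p hp => ?_) fun p hp => ?_
    · have := hx p hp
      positivity
    · have h6 := hx p hp
      have h7 : 1 + (J.card : ℝ) * (1 / ((p : ℝ) - 1)) ≤ (1 + 1 / ((p : ℝ) - 1)) ^ J.card :=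
        one_add_mul_le_pow (by linarith) J.card
      exact h7.trans (pow_le_pow_right₀ (by linarith) hJm)
  refine (Finset.sum_le_sum h5).trans ?_
  rw [Finset.sum_const, nsmul_eq_mul]
  have hB : 0 ≤ (∏ p ∈ P, (1 + 1 / ((p : ℝ) - 1))) ^ m := by
    refine pow_nonneg (Finset.prod_nonneg fun p hp => ?_) m
    have := hx p hp
    linarith
  have h8 : ((((Finset.univ : Finset (Finset ι)).filter fun J => J.card ≤ m).card : ℕ) : ℝ) ≤
      ((Fintype.card ι : ℝ) + 1) ^ m := by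
    exact_mod_cast uw_card (ι := ι) m
  calc _ ≤ ((Fintype.card ι : ℝ) + 1) ^ m * (VP Pr h * (∏ p ∈ P, (1 + 1 / ((p : ℝ) - 1))) ^ m) :=
        mul_le_mul_of_nonneg_right h8 (mul_nonneg hVh hB)
    _ = _ := by ring

theorem DKG_le (hp : ParG R C Cq Cm c cD Λ δ) : ∃ N : ℕ, ∀ᶠ z : ℕ in atTop, ∀ p1 : ℕ, p1.Prime →
    ∀ (c0 : ℕ) (h K : Finset ℕ), PosS z p1 c0 R.k (Λ * R.q) h K →
      DKG R z p1 h K ≤ Real.log z ^ N * VP (P0 z p1) h := by
  obtain ⟨C0, hC0, hNT⟩ := NT_S_upper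
  obtain ⟨_, _, hu, _, _, _, _, _, huk1, _, _, _⟩ := prm_le hp
  have hk1 : 1 ≤ R.k1 := hu.trans huk1
  refine ⟨2 * (2 * R.A2 ^ R.I2) + 1, ?_⟩
  have hlog : ∀ᶠ z : ℕ in atTop, (3 * ((C0 : ℝ) * R.k1)) ^ (2 * R.A2 ^ R.I2) ≤ Real.log z :=
    (Real.tendsto_log_atTop.comp tendsto_natCast_atTop_atTop).eventually_ge_atTop _
  filter_upwards [baseG hp 1 one_pos, hNT R.k1 hk1, hlog] with z hB hz1 hz2
  intro p1 _ c0 h K hpos
  obtain ⟨hz3, hL1, _, _, hD0, _, hD1, _⟩ := hB p1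
  have hP : ∀ p ∈ PG R z p1, Nat.Prime p := fun p hp' => (PG_mem hp').1
  have hPr : ∀ p ∈ P0 z p1, Nat.Prime p := by
    intro p hp'
    unfold P0 at hp'
    have h1 := Finset.mem_of_mem_erase hp'
    unfold PP at h1
    exact (Finset.mem_filter.mp h1).2
  have hVh : 0 ≤ VP (P0 z p1) h := by
    have h1 := (uw_VP (h := h) (B := ∅) hPr).1
    rwa [Finset.union_empty] at h1
  have h1 := uw_dg (PG R z p1) (P0 z p1) h (Subtype.val : ↥K → ℕ) (2 * R.A2 ^ R.I2) hP hPr
    (y5 (PG R z p1) z R.r0 R.q0)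
    (fun β => y5_abs_le (PG R z p1) z R.r0 R.q0 hP (by omega) hp.hr0 hD0 hD1 β)
    (fun β hβ => (y5_supp (PG R z p1) z R.r0 R.q0 hP (by omega) hp.hr0
      (K := 2 * R.A2 ^ R.I2) (by unfold Prm.q0 q0S; exact (by ring_nf; exact le_rfl)) β hβ).2)
  have hcard : (Fintype.card ↥K : ℝ) + 1 ≤ 3 * Real.log z ^ 2 := by
    have h2 := (card_pos hp hpos).1
    rw [Fintype.card_sum] at h2
    push_cast at h2
    have h3 : (0 : ℝ) ≤ Fintype.card ↥h := Nat.cast_nonneg _
    have h4 : (1 : ℝ) ≤ Real.log z ^ 2 := one_le_pow₀ hL1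
    linarith
  have hprod : ∏ p ∈ PG R z p1, (1 + 1 / ((p : ℝ) - 1)) ≤ C0 * R.k1 := by
    refine le_trans ?_ hz1
    have hsub : PG R z p1 ⊆ PP z (z ^ R.k1) := by
      unfold PG PL
      exact Finset.erase_subset _ _
    rw [← Finset.prod_sdiff hsub]
    have h5 : ∀ p ∈ PP z (z ^ R.k1), (1 : ℝ) ≤ 1 + 1 / ((p : ℝ) - 1) := by
      intro p hp'
      unfold PP at hp'
      have h6 : (1 : ℝ) < p := by exact_mod_cast (Finset.mem_filter.mp hp').2.one_lt
      have h7 : (0 : ℝ) < 1 / ((p : ℝ) - 1) := div_pos one_pos (by linarith)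
      linarith
    refine le_mul_of_one_le_left ?_ (uw_one_le _ _ fun p hp' => h5 p (Finset.sdiff_subset hp'))
    exact Finset.prod_nonneg fun p hp' => zero_le_one.trans (h5 p (hsub hp'))
  have hprod0 : 0 ≤ ∏ p ∈ PG R z p1, (1 + 1 / ((p : ℝ) - 1)) := by
    refine Finset.prod_nonneg fun p hp' => ?_
    have h6 : (1 : ℝ) < p := by exact_mod_cast (hP p hp').one_lt
    have h7 : (0 : ℝ) < 1 / ((p : ℝ) - 1) := div_pos one_pos (by linarith)
    linarith
  have hmain : ((Fintype.card ↥K : ℝ) + 1) ^ (2 * R.A2 ^ R.I2) *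
      (∏ p ∈ PG R z p1, (1 + 1 / ((p : ℝ) - 1))) ^ (2 * R.A2 ^ R.I2) ≤
      Real.log z ^ (2 * (2 * R.A2 ^ R.I2) + 1) := by
    calc _ ≤ (3 * Real.log z ^ 2) ^ (2 * R.A2 ^ R.I2) * ((C0 : ℝ) * R.k1) ^ (2 * R.A2 ^ R.I2) := by
          refine mul_le_mul (pow_le_pow_left₀ (by positivity) hcard _)
            (pow_le_pow_left₀ hprod0 hprod _) (pow_nonneg hprod0 _) (by positivity)
      _ = (3 * ((C0 : ℝ) * R.k1)) ^ (2 * R.A2 ^ R.I2) * Real.log z ^ (2 * (2 * R.A2 ^ R.I2)) := by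
          rw [pow_mul (Real.log z) 2 (2 * R.A2 ^ R.I2), ← mul_pow, ← mul_pow]
          congr 1
          ring
      _ ≤ Real.log z * Real.log z ^ (2 * (2 * R.A2 ^ R.I2)) :=
          mul_le_mul_of_nonneg_right hz2 (by positivity)
      _ = Real.log z ^ (2 * (2 * R.A2 ^ R.I2) + 1) := by
          rw [pow_succ]
          ring
  have h9 := mul_le_mul_of_nonneg_left hmain hVh
  unfold DKG
  refine (h1.trans h9).trans (le_of_eq ?_)
  ring

/-- the sums are at most `q` -/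
theorem G_le_q (hp : ParG R C Cq Cm c cD Λ δ) : ∀ᶠ z : ℕ in atTop, ∀ p1 : ℕ, p1.Prime →
    G1G R z p1 ≤ R.q ∧ G2G R z p1 ≤ R.q := by
  obtain ⟨hq0, hk, hu, _, hqa, hM, _, _, huk1, _, _, _⟩ := prm_le hp
  have hc := hp.sums.2.2.1
  have hc1 := hp.sums.2.2.2.1
  have hCD : (C : ℝ) ≤ R.D := by
    have h1 := hp.hD
    have h2 : δ * c * R.D ≤ 1 * R.D := by
      refine mul_le_mul_of_nonneg_right ?_ (Nat.cast_nonneg _)
      have h3 := hp.hδ
      have h4 := hp.hδ1
      nlinarith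
    have h5 : (0 : ℝ) ≤ C := Nat.cast_nonneg _
    linarith
  have hM1 : (1 : ℝ) ≤ R.M := by exact_mod_cast (by omega : 1 ≤ R.M)
  have hk' : (1 : ℝ) ≤ R.k := by exact_mod_cast hk
  have hq : (R.q : ℝ) = 4 * R.M * (R.D * R.k * (R.I + 1) * R.q0) := by
    unfold Prm.q Prm.u
    push_cast
    ring
  have hkey : (C : ℝ) * (R.I + 1) * R.q0 ≤ R.q := by
    rw [hq]
    have h1 : (C : ℝ) * (R.I + 1) * R.q0 ≤ R.D * ((R.I + 1) * R.q0) := by
      rw [mul_assoc]
      exact mul_le_mul_of_nonneg_right hCD (by positivity)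
    have h2 : (R.D : ℝ) * ((R.I + 1) * R.q0) ≤ (4 * R.M * R.k) * (R.D * ((R.I + 1) * R.q0)) := by
      refine le_mul_of_one_le_left (by positivity) ?_
      nlinarith
    refine (h1.trans h2).trans (le_of_eq ?_)
    ring
  filter_upwards [sums_PL hp.sums R.I R.q0 R.k1 hp.hI hq0 (hqa.trans huk1)] with z hz
  intro p1 _
  obtain ⟨_, h2, _, h4, _⟩ := hz p1
  unfold G1G G2G PG
  refine ⟨h2.trans hkey, h4.trans (le_trans ?_ hkey)⟩
  have h5 : (C : ℝ) * R.q0 * 1 ≤ C * R.q0 * (R.I + 1) := by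
    refine mul_le_mul_of_nonneg_left ?_ (by positivity)
    have : (0 : ℝ) ≤ R.I := Nat.cast_nonneg _
    linarith
  linarith

end Pool.Agent.LibFB63
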