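import Pool.Agent.LibFB63.UW1b
import Pool.Agent.LibFB63.UW2
import Pool.Agent.LibGL22.N3
import Pool.Agent.LibLG5.M2

/-!
Row UW4 (the weight uses only the primes `≤ z^l1`). `PG = Ps ∪ Pb` disjoint (`Ps ⊆ PG` because `l1 ≤ k1`, `prm_le`). If a prime `p ∈ Pb` is used by `β` at `inl i` then `rr (fb …) ≥ p > z^(q0 a^I)`, so `g1 (fb …) = 0`; at `inr j`: `rr (fb …) > z^l1 ≥ z^q0`, so
`f5 (fb …) = 0`; hence `yJ PG … β = yX PG Ps Pb (YP …) (y0p Pb) β` (if no prime of `Pb` is used, `fb PG (bL β) i = fb Ps (bL (rs β)) i` etc., `fb_rs`, `rr_rs`), and `PhiS_yX` with `PhiF_y0p`. `f5 P` depends on `P` only through `Dn`: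
`Dn_eq`: in `Dn PG z r0 q0` only `A ⊆ Ps` contribute (`p ∈ A`: `p ≤ rr A ≤ z^q0 ≤ z^l1`). `DKG_eq`: the same with `y5`, `dgV_yX`, `DD_y0p`. `G1G_eq`, `G2G_eq`: `G1s_PL`, `G2s_PL` (row N3 of LibGL22; `PG = PL z R.k1 p1`, `Ps = PL z (R.q0 * R.a ^ R.I) p1` by definition).
-/

open Finset Filter

namespace Pool.Agent.LibFB63

open Pool.Agent.LibRG87 Pool.Agent.LibLG5 Pool.Agent.LibPL63 Pool.Agent.LibSC93 Pool.Agent.LibGL22

variable {R : Prm} {C Cq Cm : ℕ} {c cD Λ δ : ℝ}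

private theorem UW4_le (hp : ParG R C Cq Cm c cD Λ δ) : R.q0 * R.a ^ R.I ≤ R.k1 := by
  have hB := hp.hB
  have hD := hp.hD1
  have hM : 1 ≤ R.M := by
    by_contra h
    have h0 : R.M = 0 := by omega
    have := hp.hM
    rw [h0] at this
    norm_num at this
  unfold Prm.k1 Prm.u Prm.k
  calc R.q0 * R.a ^ R.I = 1 * (1 * (1 * R.a ^ R.I) * 1 * R.q0) := by ring
    _ ≤ R.M * (R.D * (R.B * R.a ^ R.I) * (R.I + 1) * R.q0) := by
        gcongr
        omega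

private theorem UW4_q0 (hp : ParG R C Cq Cm c cD Λ δ) : R.q0 ≤ R.q0 * R.a ^ R.I := by
  have ha : 1 ≤ R.a := le_trans (by norm_num) hp.sums.1
  have : 1 ≤ R.a ^ R.I := Nat.one_le_pow _ _ ha
  nlinarith [Nat.zero_le R.q0]

theorem Ps_sub (hp : ParG R C Cq Cm c cD Λ δ) {z : ℕ} (hz : 1 ≤ z) (p1 : ℕ) : Ps R z p1 ⊆ PG R z p1 := by
  intro p h
  have h1 := mem_PL.1 h
  exact mem_PL.2 ⟨h1.1, h1.2.1, h1.2.2.1, h1.2.2.2.trans (Nat.pow_le_pow_right hz (UW4_le hp))⟩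

private theorem UW4_rr {z k1 p1 : ℕ} {A : Finset ℕ} (hA : A ⊆ PL z k1 p1) {p : ℕ} (hp : p ∈ A) :
    (p : ℝ) ≤ rr A := by
  unfold rr
  rw [← Nat.cast_prod]
  exact_mod_cast Nat.le_of_dvd
    (Finset.prod_pos fun q hq => (mem_PL.1 (hA hq)).2.1.pos) (Finset.dvd_prod_of_mem _ hp)

private theorem UW4_Pb {z p1 p : ℕ} (h : p ∈ Pb R z p1) :
    p ∈ PG R z p1 ∧ (z : ℝ) ^ (R.q0 * R.a ^ R.I) < p := by
  unfold Pb at h
  rw [Finset.mem_sdiff] at h
  refine ⟨h.1, ?_⟩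
  have h1 := mem_PL.1 h.1
  have h2 : ¬ p ≤ z ^ (R.q0 * R.a ^ R.I) := by
    intro hle
    exact h.2 (mem_PL.2 ⟨h1.1, h1.2.1, h1.2.2.1, hle⟩)
  have h3 : z ^ (R.q0 * R.a ^ R.I) < p := not_le.1 h2
  exact_mod_cast h3

theorem Dn_eq (hp : ParG R C Cq Cm c cD Λ δ) {z : ℕ} (hz : 2 ≤ z) (p1 : ℕ) :
    Dn (PG R z p1) z R.r0 R.q0 = Dn (Ps R z p1) z R.r0 R.q0 := by
  classical
  unfold Dn
  symm
  refine Finset.sum_subset ?_ ?_
  · intro A hA
    rw [Finset.mem_filter, Finset.mem_powerset] at hA ⊢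
    exact ⟨hA.1.trans (Ps_sub hp (by omega) p1), hA.2⟩
  · intro A hA hnA
    exfalso
    apply hnA
    rw [Finset.mem_filter, Finset.mem_powerset] at hA ⊢
    refine ⟨?_, hA.2⟩
    intro p hpA
    by_contra hps
    have hb : p ∈ Pb R z p1 := Finset.mem_sdiff.2 ⟨hA.1 hpA, hps⟩
    have h1 := (UW4_Pb hb).2
    have h2 := UW4_rr hA.1 hpA
    have h3 : (z : ℝ) ^ R.q0 ≤ (z : ℝ) ^ (R.q0 * R.a ^ R.I) :=
      pow_le_pow_right₀ (by exact_mod_cast (by omega : 1 ≤ z)) (UW4_q0 hp)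
    have h4 := hA.2.2
    linarith

theorem G1G_eq (hp : ParG R C Cq Cm c cD Λ δ) {z : ℕ} (hz : 2 ≤ z) (p1 : ℕ) :
    G1G R z p1 = G1s (Ps R z p1) z R.q0 R.a R.I ∧ G2G R z p1 = G2s (Ps R z p1) z R.q0 R.a R.I :=
  ⟨G1s_PL (UW4_le hp) (by omega), G2s_PL (UW4_le hp) (by omega)⟩

section

variable {ι : Type} [Fintype ι] [DecidableEq ι] {z p1 : ℕ}

private theorem UW4_rs (hp : ParG R C Cq Cm c cD Λ δ) (hz : 1 ≤ z)
    (β : PG R z p1 → Option ι) (p : ℕ) (h : p ∈ Ps R z p1) :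
    rs (PG R z p1) (Ps R z p1) β ⟨p, h⟩ = β ⟨p, Ps_sub hp hz p1 h⟩ := by
  unfold rs
  rw [dif_pos]

/-- no large prime is used -/
private def UW4_no (R : Prm) {ι : Type} {z p1 : ℕ} (β : PG R z p1 → Option ι) : Prop :=
  ∀ p : PG R z p1, (p : ℕ) ∈ Pb R z p1 → β p = none

private theorem UW4_fb (hp : ParG R C Cq Cm c cD Λ δ) (hz : 1 ≤ z)
    {β : PG R z p1 → Option ι} (hβ : UW4_no R β) (i : ι) :
    fb (PG R z p1) β i = fb (Ps R z p1) (rs (PG R z p1) (Ps R z p1) β) i := by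
  ext p
  rw [mem_fb, mem_fb]
  constructor
  · rintro ⟨h, hb⟩
    have hs : p ∈ Ps R z p1 := by
      by_contra hn
      have := hβ ⟨p, h⟩ (Finset.mem_sdiff.2 ⟨h, hn⟩)
      rw [this] at hb
      simp at hb
    exact ⟨hs, by rw [UW4_rs hp hz]; exact hb⟩
  · rintro ⟨h, hb⟩
    rw [UW4_rs hp hz] at hb
    exact ⟨_, hb⟩

private theorem UW4_sp (hp : ParG R C Cq Cm c cD Λ δ) (hz : 1 ≤ z)
    {β : PG R z p1 → Option ι} (hβ : UW4_no R β) :
    sp (PG R z p1) β = sp (Ps R z p1) (rs (PG R z p1) (Ps R z p1) β) := by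
  ext p
  rw [mem_sp, mem_sp]
  constructor
  · rintro ⟨h, hb⟩
    have hs : p ∈ Ps R z p1 := by
      by_contra hn
      exact hb (hβ ⟨p, h⟩ (Finset.mem_sdiff.2 ⟨h, hn⟩))
    exact ⟨hs, by rw [UW4_rs hp hz]; exact hb⟩
  · rintro ⟨h, hb⟩
    rw [UW4_rs hp hz] at hb
    exact ⟨_, hb⟩

/-- a used large prime makes the set of primes of a position large -/
private theorem UW4_used {β : PG R z p1 → Option ι} (hβ : ¬ UW4_no R β) :
    ∃ i, (fb (PG R z p1) β i).Nonempty ∧ (z : ℝ) ^ (R.q0 * R.a ^ R.I) < rr (fb (PG R z p1) β i) := by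
  unfold UW4_no at hβ
  push Not at hβ
  obtain ⟨p, hb, hne⟩ := hβ
  obtain ⟨i, hi⟩ := Option.ne_none_iff_exists'.1 hne
  have hm : (p : ℕ) ∈ fb (PG R z p1) β i := (mem_fb _).2 ⟨p.2, hi⟩
  exact ⟨i, ⟨_, hm⟩, lt_of_lt_of_le (UW4_Pb hb).2 (UW4_rr (fb_subset _ β i) hm)⟩

open scoped Classical in
private theorem UW4_yM (hp : ParG R C Cq Cm c cD Λ δ) (hz : 1 ≤ z) (L : ℕ)
    (β : PG R z p1 → Option ι) :
    yM (PG R z p1) z R.q0 R.a R.I L β = if UW4_no R β then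
      yM (Ps R z p1) z R.q0 R.a R.I L (rs (PG R z p1) (Ps R z p1) β) else 0 := by
  by_cases hβ : UW4_no R β
  · rw [if_pos hβ]
    unfold yM
    rw [← UW4_sp hp hz hβ]
    simp only [UW4_fb hp hz hβ]
  · rw [if_neg hβ]
    obtain ⟨i, _, hi⟩ := UW4_used hβ
    have h0 : ∏ i, g1 z R.q0 R.a R.I (fb (PG R z p1) β i) = 0 := by
      refine Finset.prod_eq_zero (Finset.mem_univ i) ?_
      unfold g1
      rw [if_neg (not_le.2 hi)]
    unfold yM
    rw [h0]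
    simp

open scoped Classical in
private theorem UW4_y5 (hp : ParG R C Cq Cm c cD Λ δ) (hz : 2 ≤ z)
    (β : PG R z p1 → Option ι) :
    y5 (PG R z p1) z R.r0 R.q0 β = if UW4_no R β then
      y5 (Ps R z p1) z R.r0 R.q0 (rs (PG R z p1) (Ps R z p1) β) else 0 := by
  have hf : ∀ A, f5 (PG R z p1) z R.r0 R.q0 A = f5 (Ps R z p1) z R.r0 R.q0 A := by
    intro A
    unfold f5
    rw [Dn_eq hp hz p1]
  by_cases hβ : UW4_no R β
  · rw [if_pos hβ]
    unfold y5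
    rw [← UW4_sp hp (by omega) hβ]
    simp only [UW4_fb hp (by omega : 1 ≤ z) hβ, hf]
  · rw [if_neg hβ]
    obtain ⟨i, hne, hi⟩ := UW4_used hβ
    have h0 : ∏ i, f5 (PG R z p1) z R.r0 R.q0 (fb (PG R z p1) β i) = 0 := by
      refine Finset.prod_eq_zero (Finset.mem_univ i) ?_
      unfold f5
      rw [if_neg hne.ne_empty, if_neg]
      rintro ⟨_, h2⟩
      have h3 : (z : ℝ) ^ R.q0 ≤ (z : ℝ) ^ (R.q0 * R.a ^ R.I) :=
        pow_le_pow_right₀ (by exact_mod_cast (by omega : 1 ≤ z)) (UW4_q0 hp)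
      linarith
    unfold y5
    rw [h0]
    simp

open scoped Classical in
private theorem UW4_y0p (β : PG R z p1 → Option ι) :
    y0p (Pb R z p1) (rs (PG R z p1) (Pb R z p1) β) = if UW4_no R β then 1 else 0 := by
  unfold y0p
  have : (∀ p : Pb R z p1, rs (PG R z p1) (Pb R z p1) β p = none) ↔ UW4_no R β := by
    unfold UW4_no rs
    constructor
    · intro h p hb
      have := h ⟨p, hb⟩
      rw [dif_pos p.2] at this
      exact this
    · intro h p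
      have hp := (UW4_Pb p.2).1
      rw [dif_pos hp]
      exact h ⟨p, hp⟩ p.2
  by_cases hβ : UW4_no R β
  · rw [if_pos hβ, if_pos (this.2 hβ)]
  · rw [if_neg hβ, if_neg (fun h => hβ (this.1 h))]

end

private theorem UW4_union (hp : ParG R C Cq Cm c cD Λ δ) {z : ℕ} (hz : 1 ≤ z) (p1 : ℕ) :
    PG R z p1 = Ps R z p1 ∪ Pb R z p1 ∧ Disjoint (Ps R z p1) (Pb R z p1) := by
  unfold Pb
  refine ⟨?_, Finset.disjoint_sdiff⟩
  rw [Finset.union_sdiff_of_subset (Ps_sub hp hz p1)]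

private theorem UW4_hy2 {ι : Type} [Fintype ι] [DecidableEq ι] {Q : Finset ℕ} (b : ι → ℕ) (E : Finset ℕ) :
    ∀ γ : Q → Option ι, y0p Q γ ≠ 0 → ∀ p i, γ p = some i → b i ∈ E := by
  classical
  intro γ hγ p i hi
  exfalso
  unfold y0p at hγ
  by_cases h : ∀ p, γ p = none
  · rw [h p] at hi
    simp at hi
  · rw [if_neg h] at hγ
    exact hγ rfl

theorem PsG_eq (hp : ParG R C Cq Cm c cD Λ δ) {z : ℕ} (hz : 2 ≤ z) (p1 : ℕ) (h K : Finset ℕ) (n : ℕ) :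
    PsG R z p1 h K n = PhiS (Ps R z p1) (P0 z p1) (bS h K) (YP R z p1 h K) h n := by
  classical
  have hy : YG R z p1 h K = yX (PG R z p1) (Ps R z p1) (Pb R z p1) (YP R z p1 h K)
      (y0p (Pb R z p1)) := by
    funext β
    unfold YG yX YP yJ
    rw [UW4_y0p, UW4_yM hp (by omega), UW4_y5 hp hz]
    have hL : bL (Ps R z p1) (rs (PG R z p1) (Ps R z p1) β) =
        rs (PG R z p1) (Ps R z p1) (bL (PG R z p1) β) := by
      funext p
      unfold bL rs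
      by_cases hpp : (p : ℕ) ∈ PG R z p1
      · rw [dif_pos hpp, dif_pos hpp]
      · rw [dif_neg hpp, dif_neg hpp]
        rfl
    have hR : bR (Ps R z p1) (rs (PG R z p1) (Ps R z p1) β) =
        rs (PG R z p1) (Ps R z p1) (bR (PG R z p1) β) := by
      funext p
      unfold bR rs
      by_cases hpp : (p : ℕ) ∈ PG R z p1
      · rw [dif_pos hpp, dif_pos hpp]
      · rw [dif_neg hpp, dif_neg hpp]
        rfl
    rw [hL, hR]
    by_cases hβ : UW4_no R β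
    · have h1 : UW4_no R (bL (PG R z p1) β) := by
        intro p hb
        unfold bL
        rw [hβ p hb]
        rfl
      have h2 : UW4_no R (bR (PG R z p1) β) := by
        intro p hb
        unfold bR
        rw [hβ p hb]
        rfl
      rw [if_pos hβ, if_pos h1, if_pos h2, mul_one]
    · have h3 : ¬ UW4_no R (bL (PG R z p1) β) ∨ ¬ UW4_no R (bR (PG R z p1) β) := by
        by_contra hcon
        push Not at hcon
        apply hβ
        intro p hb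
        have h1 := hcon.1 p hb
        have h2 := hcon.2 p hb
        unfold bL at h1
        unfold bR at h2
        cases hx : β p with
        | none => rfl
        | some x =>
          rw [hx] at h1 h2
          rcases x with x | x
          · simp at h1
          · simp at h2
      rw [if_neg hβ, mul_zero]
      rcases h3 with h3 | h3
      · rw [if_neg h3, zero_mul]
      · rw [if_neg h3, mul_zero]
  unfold PsG
  rw [hy, PhiS_yX (UW4_union hp (by omega) p1).1 (UW4_union hp (by omega) p1).2 _ _ _ _ _ _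
    (UW4_hy2 _ _), PhiF_y0p, mul_one]

theorem DKG_eq (hp : ParG R C Cq Cm c cD Λ δ) {z : ℕ} (hz : 2 ≤ z) (p1 : ℕ) (h K : Finset ℕ) :
    DKG R z p1 h K = dgV (Ps R z p1) (VP (P0 z p1)) (Subtype.val : ↥K → ℕ) h (y5 (Ps R z p1) z R.r0 R.q0) := by
  classical
  have hy : (y5 (PG R z p1) z R.r0 R.q0 : (PG R z p1 → Option ↥K) → ℝ) =
      yX (PG R z p1) (Ps R z p1) (Pb R z p1) (y5 (Ps R z p1) z R.r0 R.q0) (y0p (Pb R z p1)) := by
    funext β
    unfold yX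
    rw [UW4_y0p, UW4_y5 hp hz]
    by_cases hβ : UW4_no R β
    · rw [if_pos hβ, if_pos hβ, mul_one]
    · rw [if_neg hβ, if_neg hβ, mul_zero]
  unfold DKG
  rw [hy, dgV_yX (UW4_union hp (by omega) p1).1 (UW4_union hp (by omega) p1).2 _ _ _ _ _
    (UW4_hy2 _ _), DD_y0p, mul_one]

end Pool.Agent.LibFB63
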