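import Pool.Agent.LibGL22.Z0
import Pool.Agent.LibGL22.Z1
import Pool.Agent.LibGL22.Z2
import Pool.Agent.LibGL22.Z3

/-!
Row UW9 (Selberg factor at one position of the Maynard part). Models: the finished `LibGL22/Z2.lean` (`yPP_abs_le`, `yPP_supp`) and `LibGL22/Z3.lean` (`dgPP_le`), one position less.
`sel_abs`: `|ySel β| ≤ |yCol (inl i0) yJ (rem β)|/Gn ≤ G1s` (`yColL_abs_le`, `one_le_Gn`). `sel_supp`: `rr (fb β (inl i0)) ≤ z^k2`, `rem β` in the support of `yCol (inl i0) yJ` (`yColL_supp`: `z^(L + 2 r1)`, `alw`); the positions used by `rem β` are different from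
`inl i0`, its part in `κ` has at most `card κ - 1` elements, its part in `ν` at most `Kν` (`y5_supp`): `insert (inl i0) (sui β) ⊆ insert (inl i0) (sui (rem β))`.
`dgSel_le`: `dgV_ySel` (Z0) with `yCol (inl i0) yJ`; `|yCol (inl i0) yJ β| ≤ G1s (∏ g1 (fb (bL β) i)) |y5 (bR β)|` for `β` avoiding `inl i0` (`yCol_inl`, `0 ≤ gS ≤ G1s`, see `yCC_abs` in Z1), `Gm ≤ Gn (P \ sp β)`, and the one-position version of `sum_avoid_le`
(Z3): `∑_{β avoids inl i0} (∏ g1)² w (bR β)/ph ≤ G2s^(card κ - 1) ∑ w γ/ph`.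
-/

open Finset

namespace Pool.Agent.LibFB63

open Pool.Agent.LibRG87 Pool.Agent.LibLG5 Pool.Agent.LibPL63 Pool.Agent.LibSC93 Pool.Agent.LibGL22

variable {κ ν : Type} [Fintype κ] [DecidableEq κ] [Fintype ν] [DecidableEq ν] (P : Finset ℕ)

private theorem uw9_gS_nonneg (hP : ∀ p ∈ P, Nat.Prime p) (z q0 a I L : ℕ) (S : Finset ℕ) (R : ℝ) :
    0 ≤ gS P z q0 a I L S R := by
  unfold gS
  refine Finset.sum_nonneg fun A hA => ?_
  rw [Finset.mem_filter, Finset.mem_powerset] at hA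
  exact div_nonneg (g1_nonneg z q0 a I A) (ph_pos P hP (hA.1.trans Finset.sdiff_subset)).le

private theorem uw9_gS_le (hP : ∀ p ∈ P, Nat.Prime p) (z q0 a I L : ℕ) (S : Finset ℕ) (R : ℝ) :
    gS P z q0 a I L S R ≤ G1s P z q0 a I := by
  unfold gS G1s
  refine Finset.sum_le_sum_of_subset_of_nonneg ?_ fun A hA _ =>
    div_nonneg (g1_nonneg z q0 a I A) (ph_pos P hP (Finset.mem_powerset.1 hA)).le
  intro A hA
  rw [Finset.mem_filter, Finset.mem_powerset] at hA
  exact Finset.mem_powerset.2 (hA.1.trans Finset.sdiff_subset)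

private theorem uw9_g1_le (z q0 a I : ℕ) (A : Finset ℕ) : g1 z q0 a I A ≤ 1 := by
  unfold g1
  split_ifs
  · apply pow_le_one₀ (by positivity)
    rcases Nat.eq_zero_or_pos a with h | h
    · rw [h]
      simp
    · exact inv_le_one_of_one_le₀ (by exact_mod_cast h)
  · exact zero_le_one

omit [Fintype κ] [Fintype ν] in
private theorem uw9_bR (i1 : κ) (β : P → Option (κ ⊕ ν)) :
    bR P (rem P (Sum.inl i1) β) = bR P β := by
  funext p
  unfold bR rem
  by_cases h : β p = some (Sum.inl i1)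
  · rw [if_pos h, h]
    rfl
  · rw [if_neg h]

open scoped Classical in
private theorem uw9_abs (hP : ∀ p ∈ P, Nat.Prime p) {z a r0 r1 : ℕ} (hz : 2 ≤ z) (hr0 : 1 ≤ r0)
    (q0 I L : ℕ) (i0 : κ) (β : P → Option (κ ⊕ ν)) :
    |yCol P (Sum.inl i0) (yJ P z q0 a I L r0 r1) β| ≤
      if (∀ p, β p ≠ some (Sum.inl i0)) ∧ rr (sp P β) ≤ (z : ℝ) ^ (L + 2 * r1) then
        G1s P z q0 a I * ((∏ i, g1 z q0 a I (fb P (bL P β) i)) * |y5 P z r0 r1 (bR P β)|) else 0 := by
  split_ifs with h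
  · rw [yCol_inl P z q0 a I L r0 r1 (by omega) i0 β h.1, abs_mul, abs_mul,
      abs_of_nonneg (Finset.prod_nonneg fun i _ => g1_nonneg z q0 a I (fb P (bL P β) i)),
      abs_of_nonneg (uw9_gS_nonneg P hP z q0 a I L _ _)]
    have h1 := uw9_gS_le P hP z q0 a I L (sp P β) (rr (sp P (bL P β)))
    have h2 : 0 ≤ (∏ i, g1 z q0 a I (fb P (bL P β) i)) * |y5 P z r0 r1 (bR P β)| :=
      mul_nonneg (Finset.prod_nonneg fun i _ => g1_nonneg z q0 a I (fb P (bL P β) i)) (abs_nonneg _)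
    have h3 := mul_le_mul_of_nonneg_left h1 h2
    calc _ = (∏ i, g1 z q0 a I (fb P (bL P β) i)) * |y5 P z r0 r1 (bR P β)| *
          gS P z q0 a I L (sp P β) (rr (sp P (bL P β))) := by ring
      _ ≤ _ := h3
      _ = _ := by ring
  · have h1 : yCol P (Sum.inl i0) (yJ P z q0 a I L r0 r1) β = 0 := by
      by_contra h2
      apply h
      constructor
      · by_contra h3
        exact h2 (yCol_of_not P _ _ β h3)
      · exact (yColL_supp P hP hz hr0 (Kν := 2 * r1)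
          (Nat.le_mul_of_pos_right _ (by omega)) q0 I L i0 h2).1
    rw [h1, abs_zero]

private theorem uw9_prod (i0 : κ) (c : ℝ) :
    ∏ i : κ, (if i = i0 then (1 : ℝ) else c) = c ^ (Fintype.card κ - 1) := by
  rw [Finset.prod_ite, Finset.prod_const_one, one_mul, Finset.prod_const]
  congr 1
  have h : (Finset.univ.filter fun i : κ => ¬(i = i0)) = ({i0} : Finset κ)ᶜ := by
    ext i
    simp
  rw [h, Finset.card_compl, Finset.card_singleton]

open scoped Classical in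
private theorem uw9_one (hP : ∀ p ∈ P, Nat.Prime p) (z q0 a I : ℕ) (i0 : κ) :
    ∑ α : P → Option κ, ∏ i, ((if i = i0 then (if fb P α i = ∅ then (1 : ℝ) else 0) else
        g1 z q0 a I (fb P α i) ^ 2) / ph (fb P α i)) ≤ G2s P z q0 a I ^ (Fintype.card κ - 1) := by
  have h1 := sum_beta_le (ι := κ) P (fun A => ∏ i, ((if i = i0 then
      (if A i = ∅ then (1 : ℝ) else 0) else g1 z q0 a I (A i) ^ 2) / ph (A i))) (by
    intro A hA
    rw [Fintype.mem_piFinset] at hA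
    refine Finset.prod_nonneg fun i _ => div_nonneg ?_
      (ph_pos P hP (Finset.mem_powerset.1 (hA i))).le
    split_ifs
    · exact zero_le_one
    · exact le_rfl
    · exact sq_nonneg _)
  refine h1.trans (le_of_eq ?_)
  rw [← Finset.prod_univ_sum (fun _ : κ => P.powerset)
    (fun i A => (if i = i0 then (if A = ∅ then (1 : ℝ) else 0) else
      g1 z q0 a I A ^ 2) / ph A), ← uw9_prod i0]
  refine Finset.prod_congr rfl fun i _ => ?_
  by_cases h : i = i0
  · simp only [if_pos h]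
    rw [Finset.sum_eq_single ∅]
    · simp [ph]
    · intro A _ hA
      rw [if_neg hA, zero_div]
    · intro h2
      exact absurd (Finset.empty_mem_powerset P) h2
  · simp only [if_neg h]
    rfl

open scoped Classical in
private theorem uw9_avoid (hP : ∀ p ∈ P, Nat.Prime p) (z q0 a I : ℕ) (i0 : κ) (w : (P → Option ν) → ℝ)
    (hw : ∀ γ, 0 ≤ w γ) :
    ∑ β : P → Option (κ ⊕ ν), (if ∀ p, β p ≠ some (Sum.inl i0) then
        (∏ i, g1 z q0 a I (fb P (bL P β) i)) ^ 2 * w (bR P β) / ph (sp P β) else 0) ≤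
      G2s P z q0 a I ^ (Fintype.card κ - 1) * ∑ γ : P → Option ν, w γ / ph (sp P γ) := by
  have hpos : ∀ {ι : Type} [Fintype ι] [DecidableEq ι] (α : P → Option ι), 0 < ph (sp P α) :=
    fun α => ph_pos P hP (sp_subset P α)
  obtain ⟨F, hF⟩ : ∃ F : (P → Option κ) → κ → ℝ, F = fun α i =>
      (if i = i0 then (if fb P α i = ∅ then (1 : ℝ) else 0) else
        g1 z q0 a I (fb P α i) ^ 2) := ⟨_, rfl⟩
  have hF0 : ∀ α i, 0 ≤ F α i := by
    intro α i
    rw [hF]
    dsimp only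
    split_ifs
    · exact zero_le_one
    · exact le_rfl
    · exact sq_nonneg _
  have hph : ∀ (α : P → Option κ) (i : κ), 0 < ph (fb P α i) := fun α i =>
    ph_pos P hP (fb_subset P α i)
  have hT0 : ∀ α : P → Option κ, 0 ≤ ∏ i, (F α i / ph (fb P α i)) := fun α =>
    Finset.prod_nonneg fun i _ => div_nonneg (hF0 α i) (hph α i).le
  let G : (P → Option κ) → (P → Option ν) → ℝ := fun α γ =>
    (∏ i, (F α i / ph (fb P α i))) * (w γ / ph (sp P γ))
  have hG0 : ∀ α γ, 0 ≤ G α γ := fun α γ =>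
    mul_nonneg (hT0 α) (div_nonneg (hw γ) (hpos γ).le)
  have h1 : ∀ β : P → Option (κ ⊕ ν), (if ∀ p, β p ≠ some (Sum.inl i0) then
        (∏ i, g1 z q0 a I (fb P (bL P β) i)) ^ 2 * w (bR P β) / ph (sp P β) else 0) ≤
      G (bL P β) (bR P β) := by
    intro β
    split_ifs with hc
    · have hle : (∏ i, g1 z q0 a I (fb P (bL P β) i)) ^ 2 ≤ ∏ i, F (bL P β) i := by
        rw [← Finset.prod_pow]
        refine Finset.prod_le_prod (fun i _ => sq_nonneg _) fun i _ => ?_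
        rw [hF]
        dsimp only
        by_cases hi : i = i0
        · have he : fb P (bL P β) i = ∅ := by
            rw [fb_bL]
            apply Finset.eq_empty_of_forall_notMem
            intro p hp
            obtain ⟨h2, h3⟩ := (mem_fb P).1 hp
            subst hi
            exact (hc ⟨p, h2⟩) h3
          rw [if_pos hi, if_pos he]
          exact pow_le_one₀ (g1_nonneg _ _ _ _ _) (uw9_g1_le _ _ _ _ _)
        · rw [if_neg hi]
      have e : G (bL P β) (bR P β) =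
          (∏ i, F (bL P β) i) * w (bR P β) / ph (sp P β) := by
        show (∏ i, (F (bL P β) i / ph (fb P (bL P β) i))) * (w (bR P β) / ph (sp P (bR P β))) = _
        rw [Finset.prod_div_distrib, ph_bLR, ← ph_sp]
        exact (mul_div_mul_comm _ _ _ _).symm
      rw [e]
      exact div_le_div_of_nonneg_right (mul_le_mul_of_nonneg_right hle (hw _)) (hpos β).le
    · exact hG0 _ _
  refine (Finset.sum_le_sum fun β _ => h1 β).trans ?_
  rw [sum_split P G, Finset.mul_sum]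
  refine Finset.sum_le_sum fun γ _ => ?_
  have hγ : 0 ≤ w γ / ph (sp P γ) := div_nonneg (hw γ) (hpos γ).le
  have h2 : ∑ α : P → Option κ, (if ∀ p, α p = none ∨ γ p = none then G α γ else 0) ≤
      ∑ α : P → Option κ, G α γ := by
    refine Finset.sum_le_sum fun α _ => ?_
    split_ifs
    · exact le_rfl
    · exact hG0 α γ
  refine h2.trans ?_
  show ∑ α : P → Option κ, (∏ i, (F α i / ph (fb P α i))) * (w γ / ph (sp P γ)) ≤ _
  rw [← Finset.sum_mul]
  refine mul_le_mul_of_nonneg_right ?_ hγ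
  have h4 := uw9_one P hP z q0 a I i0
  rw [hF]
  exact h4

/-- the common estimate: `y β ^ 2 ≤ c β` where the coefficients `c β` are the collapsed ones divided by `Gm` -/
private theorem uw9_main (hP : ∀ p ∈ P, Nat.Prime p) {z a r0 r1 : ℕ} (hz : 2 ≤ z) (hr0 : 1 ≤ r0)
    (q0 I L : ℕ) (V : Finset ℕ → ℝ) (hV0 : ∀ B, 0 ≤ V B) (b : κ ⊕ ν → ℕ) (E : Finset ℕ)
    (hE : ∀ i, b (Sum.inl i) ∈ E) (i0 : κ) {Gm : ℝ} (hGm : 0 < Gm) (g : Finset ℕ → ℝ)
    (hG : ∀ S ⊆ P, rr S ≤ (z : ℝ) ^ (L + 2 * r1) → Gm ≤ g S) :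
    ∑ β : P → Option (κ ⊕ ν), yCol P (Sum.inl i0) (yJ P z q0 a I L r0 r1) β ^ 2 *
        V (E ∪ su P b β) / (g (sp P β) * ph (sp P β)) ≤
      G1s P z q0 a I ^ 2 * G2s P z q0 a I ^ (Fintype.card κ - 1) / Gm *
        dgV P V (fun j => b (Sum.inr j)) E (y5 P z r0 r1) := by
  classical
  have hG1 : 0 ≤ G1s P z q0 a I := G1s_nonneg P hP z q0 a I
  have hav := uw9_avoid (κ := κ) (ν := ν) P hP z q0 a I i0
    (fun γ => y5 P z r0 r1 γ ^ 2 * V (E ∪ su P (fun j => b (Sum.inr j)) γ))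
    (fun γ => mul_nonneg (sq_nonneg _) (hV0 _))
  have hterm : ∀ β : P → Option (κ ⊕ ν),
      yCol P (Sum.inl i0) (yJ P z q0 a I L r0 r1) β ^ 2 *
          V (E ∪ su P b β) / (g (sp P β) * ph (sp P β)) ≤
        G1s P z q0 a I ^ 2 / Gm *
          (if ∀ p, β p ≠ some (Sum.inl i0) then
            (∏ i, g1 z q0 a I (fb P (bL P β) i)) ^ 2 * (y5 P z r0 r1 (bR P β) ^ 2 *
              V (E ∪ su P (fun j => b (Sum.inr j)) (bR P β))) / ph (sp P β) else 0) := by
    intro β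
    have hc := uw9_abs P hP hz hr0 q0 I L (a := a) (r1 := r1) i0 β
    have hphs : 0 < ph (sp P β) := ph_pos P hP (sp_subset P β)
    have hV := hV0 (E ∪ su P b β)
    have hR : 0 ≤ G1s P z q0 a I ^ 2 / Gm *
          (if ∀ p, β p ≠ some (Sum.inl i0) then
            (∏ i, g1 z q0 a I (fb P (bL P β) i)) ^ 2 * (y5 P z r0 r1 (bR P β) ^ 2 *
              V (E ∪ su P (fun j => b (Sum.inr j)) (bR P β))) / ph (sp P β) else 0) := by
      refine mul_nonneg (div_nonneg (pow_nonneg hG1 _) hGm.le) ?_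
      split_ifs
      · exact div_nonneg (mul_nonneg (sq_nonneg _) (mul_nonneg (sq_nonneg _) (hV0 _))) hphs.le
      · exact le_rfl
    by_cases hcond : (∀ p, β p ≠ some (Sum.inl i0)) ∧ rr (sp P β) ≤ (z : ℝ) ^ (L + 2 * r1)
    · rw [if_pos hcond] at hc
      rw [if_pos hcond.1, su_bR P b E hE β]
      rw [su_bR P b E hE β] at hV
      have hGn : Gm ≤ g (sp P β) := hG _ (sp_subset P β) hcond.2
      have hsq : yCol P (Sum.inl i0) (yJ P z q0 a I L r0 r1) β ^ 2 ≤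
          G1s P z q0 a I ^ 2 * ((∏ i, g1 z q0 a I (fb P (bL P β) i)) ^ 2 *
            y5 P z r0 r1 (bR P β) ^ 2) := by
        have h5 := pow_le_pow_left₀ (abs_nonneg _) hc 2
        rw [sq_abs] at h5
        refine h5.trans (le_of_eq ?_)
        rw [mul_pow, mul_pow, sq_abs]
      have hden : Gm * ph (sp P β) ≤ g (sp P β) * ph (sp P β) :=
        mul_le_mul_of_nonneg_right hGn hphs.le
      calc yCol P (Sum.inl i0) (yJ P z q0 a I L r0 r1) β ^ 2 *
            V (E ∪ su P (fun j => b (Sum.inr j)) (bR P β)) / (g (sp P β) * ph (sp P β))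
          ≤ (G1s P z q0 a I ^ 2 * ((∏ i, g1 z q0 a I (fb P (bL P β) i)) ^ 2 *
              y5 P z r0 r1 (bR P β) ^ 2)) * V (E ∪ su P (fun j => b (Sum.inr j)) (bR P β)) /
              (Gm * ph (sp P β)) := by
            refine div_le_div₀ ?_ (mul_le_mul_of_nonneg_right hsq hV) (mul_pos hGm hphs) hden
            exact mul_nonneg (mul_nonneg (pow_nonneg hG1 _)
              (mul_nonneg (sq_nonneg _) (sq_nonneg _))) hV
        _ = _ := by
            field_simp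
    · rw [if_neg hcond] at hc
      have h0 : yCol P (Sum.inl i0) (yJ P z q0 a I L r0 r1) β = 0 :=
        abs_eq_zero.1 (le_antisymm hc (abs_nonneg _))
      rw [h0]
      refine le_trans (le_of_eq ?_) hR
      simp
  refine (Finset.sum_le_sum fun β _ => hterm β).trans ?_
  rw [← Finset.mul_sum]
  refine (mul_le_mul_of_nonneg_left hav (div_nonneg (pow_nonneg hG1 _) hGm.le)).trans
    (le_of_eq ?_)
  unfold dgV
  ring

omit [Fintype κ] [DecidableEq κ] [Fintype ν] [DecidableEq ν] in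
private theorem uw9_getR (o : Option (κ ⊕ ν)) (j : ν) (h : o = some (Sum.inr j)) :
    o.bind Sum.getRight? = some j := by
  subst h
  rfl

theorem sel_abs (hP : ∀ p ∈ P, Nat.Prime p) {z a r0 r1 : ℕ} (hz : 2 ≤ z) (ha : 1 ≤ a) (hr0 : 1 ≤ r0)
    (hD : 0 < Dn P z r0 r1) (hD1 : 1 ≤ Dn P z r0 r1 * (r0 * Real.log z)) (q0 I L k2 : ℕ) (i0 : κ)
    (β : P → Option (κ ⊕ ν)) :
    |ySel P z k2 (Sum.inl i0) (yJ P z q0 a I L r0 r1) β| ≤ G1s P z q0 a I := by
  classical
  unfold ySel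
  split_ifs with h1
  · have h6 : 1 ≤ Gn (P \ sp P (rem P (Sum.inl i0) β)) z k2 :=
      one_le_Gn _ z k2 (fun p hp => hP p (Finset.mem_sdiff.1 hp).1) (by omega)
    rw [abs_div, abs_of_pos (by linarith : 0 < Gn (P \ sp P (rem P (Sum.inl i0) β)) z k2)]
    exact (div_le_self (abs_nonneg _) h6).trans
      (yColL_abs_le P hP hz ha hr0 hD hD1 q0 I L i0 (rem P (Sum.inl i0) β))
  · rw [abs_zero]
    exact G1s_nonneg P hP z q0 a I

theorem sel_supp (hP : ∀ p ∈ P, Nat.Prime p) {z a r0 r1 : ℕ} (hz : 2 ≤ z) (ha : 1 ≤ a) (hr0 : 1 ≤ r0) {Kν : ℕ}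
    (hK : 2 * r1 ≤ Kν * r0) (q0 I L k2 : ℕ) (i0 : κ) {β : P → Option (κ ⊕ ν)}
    (h : ySel P z k2 (Sum.inl i0) (yJ P z q0 a I L r0 r1) β ≠ 0) :
    rr (sp P β) ≤ (z : ℝ) ^ (L + 2 * r1 + k2) ∧ rr (sp P (rem P (Sum.inl i0) β)) ≤ (z : ℝ) ^ (L + 2 * r1) ∧
      rr (fb P β (Sum.inl i0)) ≤ (z : ℝ) ^ k2 ∧ (insert (Sum.inl i0) (sui P β)).card ≤ Fintype.card κ + Kν := by
  classical
  have h1 : rr (fb P β (Sum.inl i0)) ≤ (z : ℝ) ^ k2 := by
    by_contra h1
    apply h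
    unfold ySel
    rw [if_neg h1]
  have h2 : yCol P (Sum.inl i0) (yJ P z q0 a I L r0 r1) (rem P (Sum.inl i0) β) ≠ 0 := by
    intro h2
    apply h
    unfold ySel
    rw [if_pos h1, h2, zero_div]
  have h3 := (yColL_supp P hP hz hr0 hK q0 I L i0 h2).1
  have h4 : y5 P z r0 r1 (bR P β) ≠ 0 := by
    rw [yCol_inl P z q0 a I L r0 r1 (by omega) i0 _ (M5_rem_ne P (Sum.inl i0) β), uw9_bR] at h2
    exact right_ne_zero_of_mul h2
  have h5 := y5_supp P z r0 r1 hP hz hr0 hK _ h4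
  have h8 := rr_sp_ins P (Sum.inl i0) (M5_rem_ne P (Sum.inl i0) β) (M5_fb_sub P (Sum.inl i0) β)
  rw [M5_ins_rem] at h8
  refine ⟨?_, h3, h1, ?_⟩
  · rw [h8, pow_add, mul_comm]
    exact mul_le_mul h3 h1 (zero_le_one.trans (one_le_rr P hP (fb_subset P β _)))
      (by positivity)
  · have h6 : insert (Sum.inl i0) (sui P β) ⊆
        (Finset.univ : Finset κ).disjSum (sui P (bR P β)) := by
      intro x hx
      rcases x with i | j
      · exact Finset.inl_mem_disjSum.2 (Finset.mem_univ _)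
      · apply Finset.inr_mem_disjSum.2
        rcases Finset.mem_insert.1 hx with h7 | h7
        · exact absurd h7 (by simp)
        · unfold sui at h7 ⊢
          simp only [Finset.mem_filter, Finset.mem_univ, true_and] at h7 ⊢
          obtain ⟨p, hp⟩ := h7
          exact ⟨p, uw9_getR _ _ hp⟩
    refine (Finset.card_le_card h6).trans ?_
    rw [Finset.card_disjSum, Finset.card_univ]
    exact Nat.add_le_add_left h5.2 _

theorem dgCol_le (hP : ∀ p ∈ P, Nat.Prime p) {z a r0 r1 : ℕ} (hz : 2 ≤ z) (ha : 1 ≤ a) (hr0 : 1 ≤ r0)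
    (q0 I L : ℕ) (V : Finset ℕ → ℝ) (hV0 : ∀ B, 0 ≤ V B) (b : κ ⊕ ν → ℕ) (E : Finset ℕ)
    (hE : ∀ i, b (Sum.inl i) ∈ E) (i0 : κ) :
    dgV P V b E (yCol P (Sum.inl i0) (yJ P z q0 a I L r0 r1)) ≤
      G1s P z q0 a I ^ 2 * G2s P z q0 a I ^ (Fintype.card κ - 1) *
        dgV P V (fun j => b (Sum.inr j)) E (y5 P z r0 r1) := by
  have h1 := uw9_main P hP (a := a) (r1 := r1) hz hr0 q0 I L V hV0 b E hE i0 one_pos (fun _ => 1)
    (fun _ _ _ => le_rfl)
  rw [div_one] at h1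
  refine le_trans (le_of_eq ?_) h1
  unfold dgV
  refine Finset.sum_congr rfl fun β _ => ?_
  rw [one_mul]

theorem dgSel_le (hP : ∀ p ∈ P, Nat.Prime p) {z a r0 r1 : ℕ} (hz : 2 ≤ z) (ha : 1 ≤ a) (hr0 : 1 ≤ r0)
    (q0 I L k2 : ℕ) (V : Finset ℕ → ℝ) (hV0 : ∀ B, 0 ≤ V B) (b : κ ⊕ ν → ℕ) (E : Finset ℕ)
    (hE : ∀ i, b (Sum.inl i) ∈ E) (i0 : κ) {Gm : ℝ} (hGm : 0 < Gm)
    (hG : ∀ S ⊆ P, rr S ≤ (z : ℝ) ^ (L + 2 * r1) → Gm ≤ Gn (P \ S) z k2) :
    dgV P V b E (ySel P z k2 (Sum.inl i0) (yJ P z q0 a I L r0 r1)) ≤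
      G1s P z q0 a I ^ 2 * G2s P z q0 a I ^ (Fintype.card κ - 1) / Gm *
        dgV P V (fun j => b (Sum.inr j)) E (y5 P z r0 r1) := by
  rw [dgV_ySel P hP z k2 (by omega) V b (Sum.inl i0) E (hE i0)]
  exact uw9_main P hP (a := a) (r1 := r1) hz hr0 q0 I L V hV0 b E hE i0 hGm
    (fun S => Gn (P \ S) z k2) hG

end Pool.Agent.LibFB63
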