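import Pool.Agent.LibFB63.UL2
import Pool.Agent.LibFB63.UL4
import Pool.Agent.LibFB63.UW4
import Pool.Agent.LibFB63.UW7b
import Pool.Agent.LibFB63.UW8
import Pool.Agent.LibFB63.UW9
import Pool.Agent.LibFB63.UW11

/-!
Row UL5b (the multiples of one prime `q ∈ Ps`). Write `P = Ps`, `b = bS h K`, `i0 = inl ⟨a, ha⟩`, `y = YP`, `ys = ySel P z s i0 y`, `P' = P \ {q}`, `A α = ys (ext P {q} α) - ys (ins P i0 {q} (ext P {q} α))`, `B_i α = ys (ins P i {q} (ext P {q} α))`.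
(1) `q ∤ e` (`q ≤ z^l1`), so `(e ∣ n + a ∧ q ∣ n + a) ↔ e * q ∣ n + a`, and the double filter is `sN (z^R.q) (Wp z p1 * (e * q)) c1` for some `c1` (`class_ex1` of UW6 for `e * q`; all its primes are `> z`).
(2) `split_sq` (UL4; `hn'`: `b i ≠ b i0` are both `≤ log² z < z < q`, `bS_inj`): the sum is at most `2 ∑ PhiS P' A h n² L² + 2 (card/(q-1)²) ∑_{i ≠ i0} ∑ PhiS P' B_i (insert (b i) h) n² L²`, `L = Lc Q c (n + a)`.
(3) `qfU` (UW7b) with `m = e * q`, `P1 = P'`, `L = 2 u + 2 q0 + s` (`s < 2 u`; `e q z^(2 (L + j) + 4 u + 10) ≤ e z^(l1 + 16 u + 2 j + 10) ≤ e z^(2 j + 30 u)`), `E = h` resp. `E = insert (b i) h` (`= h` if `i = inl _`), bound `2 G1G` for `A` and `G1G` for `B_i`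
(`sel_abs` of UW9, `G1G_eq`, `Dn_eq` of UW4, `BaseG` from `baseG` of B1), support: if `A α ≠ 0` or `B_i α ≠ 0` then `ys β ≠ 0` for `β = ext P {q} α` or `ins P i' {q} (ext P {q} α)`, `rr (sp P' α) ≤ rr (sp P β)`, `sui P' α ⊆ sui P β` (`sp_ext`, `sui_ext`, `sp_ins_q`), and `sel_supp` (UW9, `Kν = 2 A2^I2`).
(4) diagonals: `dgV_bracket` (UL2) with `Gm = (1 - δ/16) Gs` (`gs_ge` of UW8, `t = 12 R.q`; `yCol β ≠ 0` gives `rr (sp β) ≤ z^(2u + 2q0)` by `yColL_supp`, primes `> z`, so `card ≤ t`), `dgCol_le` (UW9): `dgV P … (yCol i0 y) ≤ G1² G2^(k-1) DKG = m1 * Gs`;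
`dgV_pieces` (UL2): `∑_i dgV … B_i ≤ (q - 1) dgV P … ys`, and `dgSel_le` (UW9): `dgV P … ys ≤ m1 * Gs/Gm ≤ 2 m1`. `VP (insert (b i) h) ≤ VP h`.
(5) numbers: `G1G ≤ R.q` (`G_le_q`), `2/((1 - δ/16)²) ≤ 3`, `1/q ≤ 1/(q - 1)`.
-/

open Finset Filter

namespace Pool.Agent.LibFB63

open Pool.Agent.LibRG87 Pool.Agent.LibLG5 Pool.Agent.LibPL63 Pool.Agent.LibSC93 Pool.Agent.LibGL22

private theorem q5_ext {ι : Type} {P : Finset ℕ} {q : ℕ} (α : ↥(P \ {q}) → Option ι) {p : ℕ} (h : p ∈ P \ {q})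
    (h' : p ∈ P) : ext P {q} α ⟨p, h'⟩ = α ⟨p, h⟩ := by
  unfold Pool.Agent.LibSC93.ext
  rw [dif_pos h]

private theorem q5_sui {ι : Type} [Fintype ι] [DecidableEq ι] {P : Finset ℕ} {q : ℕ} (i : ι)
    (α : ↥(P \ {q}) → Option ι) : sui (P \ {q}) α ⊆ sui P (ins P i {q} (ext P {q} α)) := by
  intro k hk
  unfold sui at hk ⊢
  rw [Finset.mem_filter] at hk ⊢
  obtain ⟨⟨p, hp⟩, hpk⟩ := hk.2
  have hp' := Finset.mem_sdiff.1 hp
  refine ⟨Finset.mem_univ _, ⟨p, hp'.1⟩, ?_⟩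
  unfold ins
  rw [if_neg hp'.2, q5_ext α hp]
  exact hpk

private theorem q5_rr {P A : Finset ℕ} (hP : ∀ p ∈ P, Nat.Prime p) {q : ℕ} (hq : q ∈ P) (hA : A ⊆ P) (hqA : q ∉ A) :
    rr A ≤ rr (insert q A) := by
  have h1 : rr (insert q A) = q * rr A := by
    unfold rr
    rw [Finset.prod_insert hqA]
  have h2 : (1 : ℝ) ≤ q := by exact_mod_cast (hP q hq).one_lt.le
  have h3 := rr_pos P hP hA
  rw [h1]
  nlinarith

private theorem q5_supp {κ ν : Type} [Fintype κ] [DecidableEq κ] [Fintype ν] [DecidableEq ν] (P : Finset ℕ)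
    (hP : ∀ p ∈ P, Nat.Prime p) {z a r0 r1 : ℕ} (hz : 2 ≤ z) (ha : 1 ≤ a) (hr0 : 1 ≤ r0) {Kν : ℕ}
    (hK : 2 * r1 ≤ Kν * r0) (q0 I L k2 : ℕ) (i0 : κ) {q : ℕ} (hq : q ∈ P) {β : P → Option (κ ⊕ ν)}
    {α : ↥(P \ {q}) → Option (κ ⊕ ν)}
    (h : ySel P z k2 (Sum.inl i0) (yJ P z q0 a I L r0 r1) β ≠ 0)
    (hβ : β = ext P {q} α ∨ ∃ i, β = ins P i {q} (ext P {q} α)) :
    rr (sp (P \ {q}) α) ≤ (z : ℝ) ^ (L + 2 * r1 + k2) ∧
      (insert (Sum.inl i0) (sui (P \ {q}) α)).card ≤ Fintype.card κ + Kν := by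
  obtain ⟨h1, -, -, h2⟩ := sel_supp P hP hz ha hr0 hK q0 I L k2 i0 h
  rcases hβ with hβ | ⟨i, hβ⟩
  · rw [hβ, sp_ext] at h1
    rw [hβ, sui_ext] at h2
    exact ⟨h1, h2⟩
  · have e1 := sp_ins_q P hq i α
    rw [hβ, e1.1] at h1
    rw [hβ] at h2
    refine ⟨le_trans (q5_rr hP hq ?_ e1.2) h1, le_trans (Finset.card_le_card ?_) h2⟩
    · exact (sp_subset _ _).trans Finset.sdiff_subset
    · exact Finset.insert_subset_insert _ (q5_sui i α)

private theorem q5_inj {h K : Finset ℕ} (hd : Disjoint h K) : Function.Injective (bS h K) := by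
  rintro (i | i) (j | j) hij
  · exact congrArg _ (Subtype.ext hij)
  · exfalso
    have h1 : (i : ℕ) = (j : ℕ) := hij
    exact Finset.disjoint_left.1 hd i.2 (by rw [h1]; exact j.2)
  · exfalso
    have h1 : (i : ℕ) = (j : ℕ) := hij
    exact Finset.disjoint_left.1 hd j.2 (by rw [← h1]; exact i.2)
  · exact congrArg _ (Subtype.ext hij)

private theorem q5_VP {Pr A B : Finset ℕ} (hPr : ∀ p ∈ Pr, p.Prime) (h : A ⊆ B) : VP Pr B ≤ VP Pr A := by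
  unfold VP
  refine Finset.prod_le_prod (fun p hp => ?_) (fun p hp => ?_)
  · have h1 := (Pool.Agent.LibPL63.nuP_le B (hPr p hp).pos).1
    have h2 : (nuP B p : ℝ) / p ≤ 1 := by
      rw [div_le_one (by exact_mod_cast (hPr p hp).pos)]
      exact_mod_cast h1
    linarith
  · have hp0 : (0 : ℝ) < p := by exact_mod_cast (hPr p hp).pos
    have h1 : (nuP A p : ℝ) ≤ nuP B p := by
      exact_mod_cast (Finset.card_le_card (Finset.image_subset_image h) : nuP A p ≤ nuP B p)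
    have := div_le_div_of_nonneg_right h1 hp0.le
    linarith

private theorem q5_card {z t : ℕ} {S : Finset ℕ} (hz : 2 ≤ z) (hS : ∀ p ∈ S, z < p) (h : rr S ≤ (z : ℝ) ^ t) :
    S.card ≤ t := by
  have hz1 : (1 : ℝ) < z := by exact_mod_cast (by omega : 1 < z)
  have h1 : (z : ℝ) ^ S.card ≤ rr S := by
    unfold rr
    calc (z : ℝ) ^ S.card = ∏ _p ∈ S, (z : ℝ) := by rw [Finset.prod_const]
      _ ≤ ∏ p ∈ S, (p : ℝ) := Finset.prod_le_prod (fun _ _ => by positivity)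
        (fun p hp => by exact_mod_cast (hS p hp).le)
  exact (pow_le_pow_iff_right₀ hz1).1 (h1.trans h)

private theorem q5_tl {Q : Finset ℕ} (hQ : ∀ p ∈ Q, p.Prime) (z j q : ℕ) : 0 ≤ tl Q z j q := by
  unfold tl
  refine Finset.sum_nonneg fun A hA => ?_
  rw [Finset.mem_filter, Finset.mem_powerset] at hA
  have := ph_pos Q hQ (hA.1.trans (Finset.erase_subset _ _))
  positivity

/-- the final numbers -/
private theorem q5_num {N e q θ tl g m nr W G Rq n TA dA dB : ℝ} (hN : 0 ≤ N) (he : 1 ≤ e) (hq : 2 ≤ q)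
    (hθ : 127 / 128 ≤ θ) (htl : 0 ≤ tl) (hg : 1 ≤ g) (hm : 0 ≤ m) (hnr : 0 ≤ nr) (hW : 0 ≤ W) (hG : 0 ≤ G)
    (hGq : G ≤ Rq) (hn : 0 ≤ n)
    (hdA : dA ≤ tl / (θ * g) ^ 2 * (m * g)) (hdB : dB ≤ (q - 1) * (m * g / (θ * g)))
    (hT : TA ≤ 2 * (N / (e * q) * (dA * nr + (2 * G) ^ 2 * W)) +
      2 * (n / (q - 1) ^ 2) * (N / (e * q) * (dB * nr + n * (G ^ 2 * W)))) :
    TA ≤ N / e * ((3 / (q - 1) * (tl / g) + 4 * n / (q - 1) ^ 2) * (m * nr) +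
      (8 / (q - 1) + 2 * n ^ 2 / (q - 1) ^ 3) * (Rq ^ 2 * W)) := by
  have hq1 : 0 < q - 1 := by linarith
  have hθ0 : 0 < θ := by linarith
  have hg0 : 0 < g := by linarith
  have hGG : G ^ 2 ≤ Rq ^ 2 := pow_le_pow_left₀ hG hGq 2
  have hθ2 : 2 / θ ^ 2 ≤ 3 := by
    rw [div_le_iff₀ (by positivity)]
    nlinarith
  have hθ1 : 1 / θ ≤ 2 := by
    rw [div_le_iff₀ hθ0]
    linarith
  have hX : 0 ≤ tl / g * m := by positivity
  have eA : tl / (θ * g) ^ 2 * (m * g) = 1 / θ ^ 2 * (tl / g * m) := by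
    field_simp
  have eB : (q - 1) * (m * g / (θ * g)) = (q - 1) * (1 / θ * m) := by
    field_simp
  have hA2 : 2 * dA ≤ 3 * (tl / g * m) := by
    rw [eA] at hdA
    have : 2 / θ ^ 2 * (tl / g * m) ≤ 3 * (tl / g * m) := mul_le_mul_of_nonneg_right hθ2 hX
    have e3 : 2 * (1 / θ ^ 2 * (tl / g * m)) = 2 / θ ^ 2 * (tl / g * m) := by ring
    linarith
  have hB2 : dB ≤ (q - 1) * (2 * m) := by
    rw [eB] at hdB
    refine hdB.trans (mul_le_mul_of_nonneg_left ?_ hq1.le)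
    exact mul_le_mul_of_nonneg_right hθ1 hm
  have hNeq : N / (e * q) ≤ N / (e * (q - 1)) := by
    apply div_le_div_of_nonneg_left hN (by positivity)
    have : 0 ≤ e := by linarith
    nlinarith
  have hNeq0 : 0 ≤ N / (e * q) := by positivity
  have hbr : 2 * (dA * nr + (2 * G) ^ 2 * W) + 2 * (n / (q - 1) ^ 2) * (dB * nr + n * (G ^ 2 * W)) ≤
      3 * (tl / g * m) * nr + 8 * (Rq ^ 2 * W) +
        2 * (n / (q - 1) ^ 2) * ((q - 1) * (2 * m) * nr + n * (Rq ^ 2 * W)) := by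
    have e1 : 2 * dA * nr ≤ 3 * (tl / g * m) * nr := mul_le_mul_of_nonneg_right hA2 hnr
    have e2 : G ^ 2 * W ≤ Rq ^ 2 * W := mul_le_mul_of_nonneg_right hGG hW
    have e3 : dB * nr ≤ (q - 1) * (2 * m) * nr := mul_le_mul_of_nonneg_right hB2 hnr
    have e4 : n * (G ^ 2 * W) ≤ n * (Rq ^ 2 * W) := mul_le_mul_of_nonneg_left e2 hn
    have e5 : 2 * (n / (q - 1) ^ 2) * (dB * nr + n * (G ^ 2 * W)) ≤
        2 * (n / (q - 1) ^ 2) * ((q - 1) * (2 * m) * nr + n * (Rq ^ 2 * W)) :=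
      mul_le_mul_of_nonneg_left (by linarith) (by positivity)
    have e6 : (2 * G) ^ 2 * W = 4 * (G ^ 2 * W) := by ring
    rw [e6]
    linarith
  have hbr0 : 0 ≤ 3 * (tl / g * m) * nr + 8 * (Rq ^ 2 * W) +
        2 * (n / (q - 1) ^ 2) * ((q - 1) * (2 * m) * nr + n * (Rq ^ 2 * W)) := by positivity
  calc TA ≤ N / (e * q) * (2 * (dA * nr + (2 * G) ^ 2 * W) +
        2 * (n / (q - 1) ^ 2) * (dB * nr + n * (G ^ 2 * W))) := by
        refine hT.trans (le_of_eq ?_)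
        ring
    _ ≤ N / (e * q) * (3 * (tl / g * m) * nr + 8 * (Rq ^ 2 * W) +
        2 * (n / (q - 1) ^ 2) * ((q - 1) * (2 * m) * nr + n * (Rq ^ 2 * W))) :=
      mul_le_mul_of_nonneg_left hbr hNeq0
    _ ≤ N / (e * (q - 1)) * (3 * (tl / g * m) * nr + 8 * (Rq ^ 2 * W) +
        2 * (n / (q - 1) ^ 2) * ((q - 1) * (2 * m) * nr + n * (Rq ^ 2 * W))) :=
      mul_le_mul_of_nonneg_right hNeq hbr0
    _ = _ := by
      have hq1' : q - 1 ≠ 0 := hq1.ne'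
      have he' : e ≠ 0 := by linarith
      have hg' : g ≠ 0 := hg0.ne'
      field_simp
      ring

theorem qterm : ∃ C0 : ℕ, ∀ (R : Prm) (C Cq Cm : ℕ) (c cD Λ δ : ℝ), QFRpS Cq → ParG R C Cq Cm c cD Λ δ →
    C0 ≤ δ * R.D → ∀ᶠ z : ℕ in atTop, ∀ p1 : ℕ, p1.Prime → ∀ (c0 : ℕ) (h K : Finset ℕ),
      PosS z p1 c0 R.k (Λ * R.q) h K → ∀ (a : ℕ) (ha : a ∈ h), ∀ e : ℕ, 1 ≤ e →
      (∀ p : ℕ, p.Prime → p ∣ e → z ^ l1 R < p) → ∀ Q ⊆ Pb R z p1, (∀ p ∈ Q, ¬ p ∣ e) →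
      ∀ (cf : Finset ℕ → ℝ) (j : ℕ), (∀ A, |cf A| ≤ 1) → (∀ A, cf A ≠ 0 → rr A ≤ (z : ℝ) ^ j) →
      e * z ^ (2 * j + 30 * R.u) ≤ z ^ R.q → ∀ s : ℕ, R.u ≤ s → s < 2 * R.u → ∀ q ∈ Ps R z p1,
      ∑ n ∈ ((sN (z ^ R.q) (Wp z p1) c0).filter (fun n => e ∣ n + a)).filter (fun n => q ∣ n + a),
          PhiS (Ps R z p1) (P0 z p1) (bS h K)
              (ySel (Ps R z p1) z s (Sum.inl ⟨a, ha⟩) (YP R z p1 h K)) h n ^ 2 * Lc Q cf (n + a) ^ 2 ≤
        NW R z p1 / e * ((3 / ((q : ℝ) - 1) * (tl (Ps R z p1) z s q / Gs R z p1) +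
            4 * Fintype.card (↥h ⊕ ↥K) / ((q : ℝ) - 1) ^ 2) * (m1 R z p1 h K * nrm Q cf) +
          (8 / ((q : ℝ) - 1) + 2 * (Fintype.card (↥h ⊕ ↥K) : ℝ) ^ 2 / ((q : ℝ) - 1) ^ 3) *
            (R.q ^ 2 * (2 * R.e Cq Λ * VP (P0 z p1) h))) := by
  obtain ⟨C0, hC0⟩ := gs_ge
  refine ⟨C0, ?_⟩
  intro R C Cq Cm c cD Λ δ hq hp hCδ
  obtain ⟨hq0, hk, hu, hqu, hl1u, hM, -, -, huk1, hk1q, -, -⟩ := prm_le hp
  filter_upwards [hC0 R C Cq Cm c cD Λ δ hp hCδ (12 * R.q), qfU hq hp, baseG hp 1 one_pos,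
    G_le_q hp] with z hG hQF hB' hGq
  intro p1 hp1 c0 h K hpos a ha e he hep Q hQs hQe cf j hcf hcfs hlev s hus hsu q hqP
  have hB := hB' p1
  obtain ⟨hz3, hlog1, hlogz, -, hDn0, -, hDn1, -⟩ := id hB
  have hz2 : 2 ≤ z := by omega
  have hz1 : 1 ≤ z := by omega
  have ha2 : 2 ≤ R.a := hp.sums.1
  have ha1 : 1 ≤ R.a := by omega
  have hr0 := hp.hr0
  have hδ0 := hp.hδ
  have hδ1 := hp.hδ1
  -- the primes
  have hl1 : 1 ≤ l1 R := by
    unfold l1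
    exact Nat.one_le_iff_ne_zero.2 (by positivity)
  have hl1u' : l1 R ≤ R.u := hl1u
  have hzl : z ≤ z ^ l1 R := Nat.le_self_pow (by omega) z
  have mPs : ∀ p ∈ Ps R z p1, p ≠ p1 ∧ p.Prime ∧ z < p ∧ p ≤ z ^ l1 R := fun p hp => mem_PL.1 hp
  have hP : ∀ p ∈ Ps R z p1, p.Prime := fun p hp => (mPs p hp).2.1
  have hP0 : ∀ p ∈ P0 z p1, p.Prime := fun p hp => (mem_P0.1 hp).2.1
  have hPb : ∀ p ∈ Pb R z p1, p ∈ PG R z p1 ∧ p ∉ Ps R z p1 := fun p hp => Finset.mem_sdiff.1 hp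
  have hQP : ∀ p ∈ Q, p.Prime := fun p hp' => (PG_mem (hPb p (hQs hp')).1).1
  have hqp := mPs q hqP
  have hqe : ¬ q ∣ e := fun hd => absurd (hep q hqp.2.1 hd) (not_lt.2 hqp.2.2.2)
  have hcop : e.Coprime q := ((Nat.Prime.coprime_iff_not_dvd hqp.2.1).2 hqe).symm
  have hez : ∀ p : ℕ, p.Prime → p ∣ e * q → z < p := by
    intro p hpp hpd
    rcases (Nat.Prime.dvd_mul hpp).1 hpd with hd | hd
    · exact lt_of_le_of_lt hzl (hep p hpp hd)
    · rw [(Nat.prime_dvd_prime_iff_eq hpp hqp.2.1).1 hd]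
      exact hqp.2.2.1
  have heq1 : 1 ≤ e * q := Nat.one_le_iff_ne_zero.2 (Nat.mul_ne_zero (by omega) hqp.2.1.ne_zero)
  have hwf : wf z ≤ z := by
    unfold wf
    exact (Nat.div_le_self _ _).trans ((Nat.log_le_self 2 _).trans (Nat.log_le_self 2 z))
  -- the class
  obtain ⟨c1, hc1⟩ := class_ex1 (z := z) (p1 := p1) hwf heq1 hez (z ^ R.q) c0 a
  have hcl : ((sN (z ^ R.q) (Wp z p1) c0).filter (fun n => e ∣ n + a)).filter (fun n => q ∣ n + a) =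
      sN (z ^ R.q) (Wp z p1 * (e * q)) c1 := by
    rw [← hc1, Finset.filter_filter]
    refine Finset.filter_congr fun n _ => ?_
    constructor
    · rintro ⟨h1, h2⟩
      exact Nat.Coprime.mul_dvd_of_dvd_of_dvd hcop h1 h2
    · intro h1
      exact ⟨(dvd_mul_right e q).trans h1, (dvd_mul_left q e).trans h1⟩
  have hSq : ∀ n ∈ sN (z ^ R.q) (Wp z p1 * (e * q)) c1, q ∣ n + a := by
    intro n hn
    rw [← hcl] at hn
    exact (Finset.mem_filter.1 hn).2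
  rw [hcl]
  -- positions
  have hcard : Fintype.card ↥h = R.k := by rw [Fintype.card_coe]; exact hpos.1
  have hinj := q5_inj hpos.2.1
  have hbz : ∀ i, bS h K i < q := by
    intro i
    have hm : bS h K i ∈ h ∪ K := by
      rcases i with i | i
      · exact Finset.mem_union_left _ i.2
      · exact Finset.mem_union_right _ i.2
    have h1 := (hpos.2.2.1 _ hm).1
    have h2 : (bS h K i : ℝ) < z := by linarith
    have h3 : bS h K i < z := by exact_mod_cast h2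
    exact h3.trans hqp.2.2.1
  obtain ⟨i0, hi0⟩ : ∃ i0 : ↥h, i0 = ⟨a, ha⟩ := ⟨_, rfl⟩
  have hbi0 : bS h K (Sum.inl i0) = a := by rw [hi0]; rfl
  have hbiE : bS h K (Sum.inl i0) ∈ h := by rw [hbi0]; exact ha
  rw [← hi0]
  have hnd : ∀ n, q ∣ n + a → ∀ i, i ≠ Sum.inl i0 → ¬ q ∣ n + bS h K i := by
    intro n hn i hi hd
    apply hi
    apply hinj
    have h1 := hbz i
    have h2 := hbz (Sum.inl i0)
    rw [← hbi0] at hn
    have h3 : (n + bS h K i) % q = (n + bS h K (Sum.inl i0)) % q := by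
      rw [Nat.mod_eq_zero_of_dvd hd, Nat.mod_eq_zero_of_dvd hn]
    have h4 : bS h K i ≡ bS h K (Sum.inl i0) [MOD q] := Nat.ModEq.add_left_cancel' n h3
    exact Nat.ModEq.eq_of_lt_of_lt h4 h1 h2
  -- the coefficients
  obtain ⟨ys, hys⟩ : ∃ ys, ys = ySel (Ps R z p1) z s (Sum.inl i0) (YP R z p1 h K) := ⟨_, rfl⟩
  rw [← hys]
  have hYP : YP R z p1 h K = yJ (Ps R z p1) z R.q0 R.a R.I (2 * R.u) R.r0 R.q0 := rfl
  obtain ⟨hG1, hG2⟩ := G1G_eq hp hz2 p1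
  have hDneq := Dn_eq hp hz2 p1
  have hGG := one_le_G hB
  have hDK := DKG_eq hp hz2 p1 h K
  have hDn0' : 0 < Dn (Ps R z p1) z R.r0 R.q0 := by rw [← hDneq]; exact hDn0
  have hDn1' : 1 ≤ Dn (Ps R z p1) z R.r0 R.q0 * (R.r0 * Real.log z) := by rw [← hDneq]; exact hDn1
  have hys_abs : ∀ β, |ys β| ≤ G1G R z p1 := by
    intro β
    rw [hys, hYP, hG1]
    exact sel_abs (Ps R z p1) hP hz2 ha1 hr0 hDn0' hDn1' R.q0 R.I (2 * R.u) s i0 β
  have hKν : 2 * R.q0 ≤ (2 * R.A2 ^ R.I2) * R.r0 := by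
    unfold Prm.q0 q0S
    exact le_of_eq (by ring)
  have hys_supp : ∀ (β : Ps R z p1 → Option (↥h ⊕ ↥K)) (α : ↥(Ps R z p1 \ {q}) → Option (↥h ⊕ ↥K)), ys β ≠ 0 →
      (β = ext (Ps R z p1) {q} α ∨ ∃ i, β = ins (Ps R z p1) i {q} (ext (Ps R z p1) {q} α)) →
      rr (sp (Ps R z p1 \ {q}) α) ≤ (z : ℝ) ^ (2 * R.u + 2 * R.q0 + s) ∧
        (insert (Sum.inl i0) (sui (Ps R z p1 \ {q}) α)).card ≤ R.K := by
    intro β α hβ hα
    rw [hys, hYP] at hβ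
    have h1 := q5_supp (Ps R z p1) hP hz2 ha1 hr0 hKν R.q0 R.I (2 * R.u) s i0 hqP hβ hα
    rw [hcard] at h1
    exact h1
  have sdP : Ps R z p1 \ {q} ⊆ PG R z p1 := Finset.sdiff_subset.trans (Ps_sub hp hz1 p1)
  have hQG : Q ⊆ PG R z p1 := fun p hp' => (hPb p (hQs hp')).1
  have hdisj : Disjoint (Ps R z p1 \ {q}) Q := by
    rw [Finset.disjoint_left]
    intro p hp' hpQ
    exact (hPb p (hQs hpQ)).2 (Finset.mem_sdiff.1 hp').1
  have hPm : ∀ p ∈ Ps R z p1 \ {q}, ¬ p ∣ e * q := by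
    intro p hp' hd
    obtain ⟨h1, h2⟩ := Finset.mem_sdiff.1 hp'
    rcases (Nat.Prime.dvd_mul (hP p h1)).1 hd with hd' | hd'
    · exact absurd (hep p (hP p h1) hd') (not_lt.2 (mPs p h1).2.2.2)
    · exact h2 (Finset.mem_singleton.2 ((Nat.prime_dvd_prime_iff_eq (hP p h1) hqp.2.1).1 hd'))
  have hQm : ∀ p ∈ Q, ¬ p ∣ e * q := by
    intro p hp' hd
    rcases (Nat.Prime.dvd_mul (hQP p hp')).1 hd with hd' | hd'
    · exact hQe p hp' hd'
    · have h1 := (Nat.prime_dvd_prime_iff_eq (hQP p hp') hqp.2.1).1 hd'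
      exact (hPb p (hQs hp')).2 (by rw [h1]; exact hqP)
  have hlevel : e * q * z ^ (2 * (2 * R.u + 2 * R.q0 + s + j) + 4 * R.u + 10) ≤ z ^ R.q := by
    calc e * q * z ^ (2 * (2 * R.u + 2 * R.q0 + s + j) + 4 * R.u + 10)
        ≤ e * z ^ l1 R * z ^ (2 * (2 * R.u + 2 * R.q0 + s + j) + 4 * R.u + 10) :=
          Nat.mul_le_mul_right _ (Nat.mul_le_mul_left _ hqp.2.2.2)
      _ = e * z ^ (l1 R + (2 * (2 * R.u + 2 * R.q0 + s + j) + 4 * R.u + 10)) := by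
          rw [pow_add]
          ring
      _ ≤ e * z ^ (2 * j + 30 * R.u) := by
          refine Nat.mul_le_mul_left _ (Nat.pow_le_pow_right hz1 ?_)
          omega
      _ ≤ z ^ R.q := hlev
  have hW0 : 0 ≤ 2 * R.e Cq Λ * VP (P0 z p1) h :=
    mul_nonneg (mul_nonneg (by norm_num) (eG_le hp).1) (VP_nonneg _ hP0 _)
  have hNW : 0 ≤ NW R z p1 := by
    unfold NW
    positivity
  have hNWm : 0 ≤ NW R z p1 / ((e * q : ℕ) : ℝ) := div_nonneg hNW (Nat.cast_nonneg _)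
  -- the quadratic forms
  have hTA : ∑ n ∈ sN (z ^ R.q) (Wp z p1 * (e * q)) c1,
      PhiS (Ps R z p1 \ {q}) (P0 z p1) (bS h K)
        (fun α => ys (ext (Ps R z p1) {q} α) - ys (ins (Ps R z p1) (Sum.inl i0) {q} (ext (Ps R z p1) {q} α))) h n ^ 2 *
          Lc Q cf (n + a) ^ 2 ≤
      NW R z p1 / ((e * q : ℕ) : ℝ) * (dgV (Ps R z p1 \ {q}) (VP (P0 z p1)) (bS h K) h
        (fun α => ys (ext (Ps R z p1) {q} α) - ys (ins (Ps R z p1) (Sum.inl i0) {q} (ext (Ps R z p1) {q} α))) *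
          nrm Q cf + (2 * G1G R z p1) ^ 2 * (2 * R.e Cq Λ * VP (P0 z p1) h)) := by
    have h1 := hQF p1 hp1 c0 h K h hpos (Or.inl rfl) (e * q) heq1 hez _ sdP hPm Q hQG hQm hdisj
      (2 * R.u + 2 * R.q0 + s) j hlevel c1 (Sum.inl i0)
      (fun α => ys (ext (Ps R z p1) {q} α) - ys (ins (Ps R z p1) (Sum.inl i0) {q} (ext (Ps R z p1) {q} α)))
      (2 * G1G R z p1) hbiE (by linarith [hGG.1]) ?_ ?_ cf hcf hcfs
    · rw [hbi0] at h1
      have h2 := (abs_le.1 h1).2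
      rw [mul_add]
      linarith
    · intro β
      refine (abs_sub _ _).trans ?_
      linarith [hys_abs (ext (Ps R z p1) {q} β),
        hys_abs (ins (Ps R z p1) (Sum.inl i0) {q} (ext (Ps R z p1) {q} β))]
    · intro β hβ
      by_cases h0 : ys (ext (Ps R z p1) {q} β) = 0
      · have h3 : ys (ins (Ps R z p1) (Sum.inl i0) {q} (ext (Ps R z p1) {q} β)) ≠ 0 := by
          intro h4
          apply hβ
          show ys (ext (Ps R z p1) {q} β) - ys (ins (Ps R z p1) (Sum.inl i0) {q} (ext (Ps R z p1) {q} β)) = 0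
          rw [h0, h4, sub_zero]
        exact hys_supp _ β h3 (Or.inr ⟨_, rfl⟩)
      · exact hys_supp _ β h0 (Or.inl rfl)
  have hTB : ∀ i : ↥h ⊕ ↥K, ∑ n ∈ sN (z ^ R.q) (Wp z p1 * (e * q)) c1,
      PhiS (Ps R z p1 \ {q}) (P0 z p1) (bS h K)
        (fun α => ys (ins (Ps R z p1) i {q} (ext (Ps R z p1) {q} α))) (insert (bS h K i) h) n ^ 2 *
          Lc Q cf (n + a) ^ 2 ≤
      NW R z p1 / ((e * q : ℕ) : ℝ) * (dgV (Ps R z p1 \ {q}) (VP (P0 z p1)) (bS h K) (insert (bS h K i) h)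
        (fun α => ys (ins (Ps R z p1) i {q} (ext (Ps R z p1) {q} α))) *
          nrm Q cf + G1G R z p1 ^ 2 * (2 * R.e Cq Λ * VP (P0 z p1) h)) := by
    intro i
    have hE : insert (bS h K i) h = h ∨ ∃ j ∈ K, insert (bS h K i) h = insert j h := by
      rcases i with i | i
      · exact Or.inl (Finset.insert_eq_self.2 i.2)
      · exact Or.inr ⟨i, i.2, rfl⟩
    have h1 := hQF p1 hp1 c0 h K (insert (bS h K i) h) hpos hE (e * q) heq1 hez _ sdP hPm Q hQG hQm hdisj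
      (2 * R.u + 2 * R.q0 + s) j hlevel c1 (Sum.inl i0)
      (fun α => ys (ins (Ps R z p1) i {q} (ext (Ps R z p1) {q} α)))
      (G1G R z p1) (Finset.mem_insert_of_mem hbiE) (by linarith [hGG.1]) (fun β => hys_abs _)
      (fun β hβ => hys_supp _ β hβ (Or.inr ⟨_, rfl⟩)) cf hcf hcfs
    rw [hbi0] at h1
    have h2 := (abs_le.1 h1).2
    have h3 : VP (P0 z p1) (insert (bS h K i) h) ≤ VP (P0 z p1) h := q5_VP hP0 (Finset.subset_insert _ _)
    have h4 : G1G R z p1 ^ 2 * (2 * R.e Cq Λ * VP (P0 z p1) (insert (bS h K i) h)) ≤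
        G1G R z p1 ^ 2 * (2 * R.e Cq Λ * VP (P0 z p1) h) :=
      mul_le_mul_of_nonneg_left (mul_le_mul_of_nonneg_left h3 (mul_nonneg (by norm_num) (eG_le hp).1))
        (sq_nonneg _)
    have h5 := mul_le_mul_of_nonneg_left h4 hNWm
    rw [mul_add]
    linarith
  -- the diagonals
  have hGs1 := one_le_gs (R := R) hz1 p1
  have hGm0 : 0 < (1 - δ / 16) * Gs R z p1 := mul_pos (by linarith) (by linarith)
  have hGm : ∀ S ⊆ Ps R z p1, rr S ≤ (z : ℝ) ^ (2 * R.u + 2 * R.q0) →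
      (1 - δ / 16) * Gs R z p1 ≤ Gn (Ps R z p1 \ S) z s := by
    intro S hS hrS
    refine hG p1 s hus S hS ?_
    have h1 := q5_card hz2 (fun p hp' => (mPs p (hS hp')).2.2.1) hrS
    omega
  have hVP0 : ∀ B, 0 ≤ VP (P0 z p1) B := VP_nonneg _ hP0
  have hm1 : G1G R z p1 ^ 2 * G2G R z p1 ^ (Fintype.card ↥h - 1) * DKG R z p1 h K = m1 R z p1 h K * Gs R z p1 := by
    unfold m1
    rw [hcard]
    field_simp
  have hDKf : dgV (Ps R z p1) (VP (P0 z p1)) (fun j => bS h K (Sum.inr j)) h (y5 (Ps R z p1) z R.r0 R.q0) =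
      DKG R z p1 h K := by
    rw [hDK]
    rfl
  have hm0 : 0 ≤ m1 R z p1 h K := by
    unfold m1
    have h1 := DKG_ge hp hB h K
    have h2 := hVP0 h
    have h3 : 0 ≤ DKG R z p1 h K := h2.trans h1
    have h4 : 0 ≤ G2G R z p1 := by linarith [hGG.2]
    positivity
  have hdA : dgV (Ps R z p1 \ {q}) (VP (P0 z p1)) (bS h K) h
        (fun α => ys (ext (Ps R z p1) {q} α) - ys (ins (Ps R z p1) (Sum.inl i0) {q} (ext (Ps R z p1) {q} α))) ≤
      tl (Ps R z p1) z s q / ((1 - δ / 16) * Gs R z p1) ^ 2 * (m1 R z p1 h K * Gs R z p1) := by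
    have h1 := dgV_bracket (Ps R z p1) hP hz1 (s := s) hqP (VP (P0 z p1)) hVP0 (bS h K) h (Sum.inl i0) hbiE
      (YP R z p1 h K) hGm0 (by
        intro β hβ
        rw [hYP] at hβ
        have h2 := yColL_supp (Ps R z p1) hP hz2 hr0 hKν R.q0 R.I (2 * R.u) i0 hβ
        exact hGm _ (sp_subset _ _) h2.1)
    rw [← hys] at h1
    refine h1.trans (mul_le_mul_of_nonneg_left ?_ (div_nonneg (q5_tl hP _ _ _) (sq_nonneg _)))
    have h3 := dgCol_le (Ps R z p1) hP hz2 ha1 hr0 R.q0 R.I (2 * R.u) (VP (P0 z p1)) hVP0 (bS h K) h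
      (fun i => i.2) i0 (r1 := R.q0)
    rw [hDKf, ← hG1, ← hG2, hm1] at h3
    exact h3
  have hdB : ∑ i ∈ univ.erase (Sum.inl i0), dgV (Ps R z p1 \ {q}) (VP (P0 z p1)) (bS h K) (insert (bS h K i) h)
        (fun α => ys (ins (Ps R z p1) i {q} (ext (Ps R z p1) {q} α))) ≤
      ((q : ℝ) - 1) * (m1 R z p1 h K * Gs R z p1 / ((1 - δ / 16) * Gs R z p1)) := by
    refine (dgV_pieces (Ps R z p1) hP hqP (VP (P0 z p1)) hVP0 (bS h K) h ys (Sum.inl i0)).trans ?_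
    have hq1 : (0 : ℝ) ≤ (q : ℝ) - 1 := by
      have : (1 : ℝ) ≤ q := by exact_mod_cast hqp.2.1.one_lt.le
      linarith
    refine mul_le_mul_of_nonneg_left ?_ hq1
    have h3 := dgSel_le (Ps R z p1) hP hz2 ha1 hr0 R.q0 R.I (2 * R.u) s (VP (P0 z p1)) hVP0 (bS h K) h
      (fun i => i.2) i0 (r1 := R.q0) hGm0 hGm
    rw [hDKf, ← hG1, ← hG2] at h3
    rw [hys, hYP]
    refine h3.trans (le_of_eq ?_)
    rw [← hm1]
    ring
  -- assembly
  have hLe : ∑ n ∈ sN (z ^ R.q) (Wp z p1 * (e * q)) c1,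
      PhiS (Ps R z p1) (P0 z p1) (bS h K) ys h n ^ 2 * Lc Q cf (n + a) ^ 2 ≤
      2 * (NW R z p1 / ((e : ℝ) * q) * (dgV (Ps R z p1 \ {q}) (VP (P0 z p1)) (bS h K) h
        (fun α => ys (ext (Ps R z p1) {q} α) - ys (ins (Ps R z p1) (Sum.inl i0) {q} (ext (Ps R z p1) {q} α))) *
          nrm Q cf + (2 * G1G R z p1) ^ 2 * (2 * R.e Cq Λ * VP (P0 z p1) h))) +
      2 * ((Fintype.card (↥h ⊕ ↥K) : ℝ) / ((q : ℝ) - 1) ^ 2) * (NW R z p1 / ((e : ℝ) * q) *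
        ((∑ i ∈ univ.erase (Sum.inl i0), dgV (Ps R z p1 \ {q}) (VP (P0 z p1)) (bS h K) (insert (bS h K i) h)
          (fun α => ys (ins (Ps R z p1) i {q} (ext (Ps R z p1) {q} α)))) * nrm Q cf +
            (Fintype.card (↥h ⊕ ↥K) : ℝ) * (G1G R z p1 ^ 2 * (2 * R.e Cq Λ * VP (P0 z p1) h)))) := by
    have hcast : ((e * q : ℕ) : ℝ) = (e : ℝ) * q := by push_cast; rfl
    rw [hcast] at hTA hTB hNWm
    have hpt : ∀ n ∈ sN (z ^ R.q) (Wp z p1 * (e * q)) c1,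
        PhiS (Ps R z p1) (P0 z p1) (bS h K) ys h n ^ 2 * Lc Q cf (n + a) ^ 2 ≤
          2 * (PhiS (Ps R z p1 \ {q}) (P0 z p1) (bS h K)
            (fun α => ys (ext (Ps R z p1) {q} α) -
              ys (ins (Ps R z p1) (Sum.inl i0) {q} (ext (Ps R z p1) {q} α))) h n ^ 2 * Lc Q cf (n + a) ^ 2) +
          2 * ((Fintype.card (↥h ⊕ ↥K) : ℝ) / ((q : ℝ) - 1) ^ 2) * ∑ i ∈ univ.erase (Sum.inl i0),
            (PhiS (Ps R z p1 \ {q}) (P0 z p1) (bS h K)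
              (fun α => ys (ins (Ps R z p1) i {q} (ext (Ps R z p1) {q} α))) (insert (bS h K i) h) n ^ 2 *
                Lc Q cf (n + a) ^ 2) := by
      intro n hn
      have hqn := hSq n hn
      have h1 := split_sq (Ps R z p1) (P0 z p1) (bS h K) hqP (Sum.inl i0) n (by rw [hbi0]; exact hqn)
        (hnd n hqn) ys h hbiE
      have h2 := mul_le_mul_of_nonneg_right h1 (sq_nonneg (Lc Q cf (n + a)))
      refine h2.trans (le_of_eq ?_)
      rw [add_mul, ← Finset.sum_mul]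
      ring
    refine (Finset.sum_le_sum hpt).trans ?_
    rw [Finset.sum_add_distrib, ← Finset.mul_sum, ← Finset.mul_sum, Finset.sum_comm]
    refine add_le_add (mul_le_mul_of_nonneg_left hTA (by norm_num)) ?_
    refine mul_le_mul_of_nonneg_left ?_ (by positivity)
    refine (Finset.sum_le_sum fun i _ => hTB i).trans ?_
    rw [← Finset.mul_sum, Finset.sum_add_distrib, ← Finset.sum_mul, Finset.sum_const, nsmul_eq_mul]
    refine mul_le_mul_of_nonneg_left ?_ hNWm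
    have hce : ((univ.erase (Sum.inl i0 : ↥h ⊕ ↥K)).card : ℝ) ≤ (Fintype.card (↥h ⊕ ↥K) : ℝ) := by
      exact_mod_cast Finset.card_le_univ _
    have hGW : 0 ≤ G1G R z p1 ^ 2 * (2 * R.e Cq Λ * VP (P0 z p1) h) := mul_nonneg (sq_nonneg _) hW0
    have := mul_le_mul_of_nonneg_right hce hGW
    linarith
  exact q5_num hNW (by exact_mod_cast he) (by exact_mod_cast hqp.2.1.two_le) (by linarith) (q5_tl hP _ _ _)
    hGs1 hm0 (nrm_nonnegU hQP cf) hW0 (by linarith [hGG.1]) (hGq p1 hp1).1 (Nat.cast_nonneg _) hdA hdB hLe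

end Pool.Agent.LibFB63
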