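import Pool.Agent.LibFB63.UL3
import Pool.Agent.LibFB63.UL3b
import Pool.Agent.LibFB63.UL5a
import Pool.Agent.LibFB63.UL5b

/-!
Row UL5c (assembly of the lower bound L1). `C0 := C0(qterm) + C0(gs_ge) + 100 (C2 + 1)`, `C2` from `logsum` (UL3b). Given `z` large, `p1`, `c0`, `h`, `K`, and `a`, `e`, `Q`, `cf`, `j` as in `L1`: let `P = Ps`, `i0 = inl ⟨a, ha⟩`, `s` from `pigeon` (UL3) with `u = R.u` (`∏_{p ∈ Ps} (1 + 1/(p-1)) = Gs` by definition), `ys = ySel P z s i0 YP`,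
`F n = PhiS P P0 b ys h n`, `L n = Lc Q cf (n + a)`, `X = NW/e`, `nr = nrm Q cf ≥ 0` (`nrm_nonnegU`, UW2), `S` the filtered set.
(1) `low_sum` (UL4) with `G = PsG` (`PsG_eq` of UW4 and `PhiS_eq_ySel` of UL4 give `G n = F n` if no prime of `P` divides `n + a`): target `≥ ∑_S F² L² - ∑_{q ∈ P} ∑_{S, q ∣ n + a} F² L²`.
(2) `∑_S F² L² ≥ X (dgV ys * nr - q² (2 e VP h))`: `class_ex1` (UW6), `qfU` (UW7b) with `m = e`, `P1 = Ps`, `L = 2 u + 2 q0 + s`, bound `G1G ≤ q` (`sel_abs`, `sel_supp` of UW9, `G_le_q`), and `dgSel_ge` (UL5a): `dgV ys ≥ (1 - δ/4) m1`.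
(3) `qterm` (UL5b) summed over `q ∈ P`: `∑ 1/(q-1) tl ≤ (C2 l1/u) Gs` (`pigeon`, `logsum`), `l1/u ≤ 1/D` (`u = D k (I+1) q0`, `k = B a^I`, `l1 = q0 a^I`), so the first part is `≤ 3 C2/D ≤ δ/8` times `X m1 nr`; `∑_{q > z} 1/(q-1)² ≤ 1/(z-1)` and `card ≤ log² z + 1` (`card_pos` of B1): the
second part is `≤ δ/16`; errors: `∑ 8/(q-1) ≤ 8 C2 l1 ≤ q` (`∑ 1/(q-1) ≤ ∑ (log q/log z + 1)/(q-1)`; `C2 l1 ≤ u ≤ q/1920`), the last part is `≤ 1` for large `z`.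
Total: `X ((1 - δ/4 - δ/8 - δ/16) m1 nr - (q² + (q + 1) q²) (2 e VP h)) ≥ X ((1 - δ) m1 nr - q^6 e VP h)` (`q ≥ 4`, `er = q^6 e VP h`).
-/

open Finset Filter

namespace Pool.Agent.LibFB63

open Pool.Agent.LibRG87 Pool.Agent.LibLG5 Pool.Agent.LibPL63 Pool.Agent.LibSC93 Pool.Agent.LibGL22

private theorem UL5c_num {X M EV S0 T δ Rq s1 s2 s3 s4 Er : ℝ} (hX : 0 ≤ X) (hM : 0 ≤ M) (hEV : 0 ≤ EV)
    (hδ : 0 < δ) (hRq : 4 ≤ Rq)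
    (h0 : X * ((1 - δ / 4) * M - Rq ^ 2 * (2 * EV)) ≤ S0)
    (hT : S0 - X * ((s1 + s2) * M + (s3 + s4) * (Rq ^ 2 * (2 * EV))) ≤ T)
    (hs1 : s1 ≤ δ / 8) (hs2 : s2 ≤ δ / 16) (hs3 : s3 ≤ Rq) (hs4 : s4 ≤ 1) (hEr : Er = Rq ^ 6 * EV) :
    X * ((1 - δ) * M - Er) ≤ T := by
  have e1 : (s1 + s2) * M ≤ (δ / 8 + δ / 16) * M := mul_le_mul_of_nonneg_right (by linarith) hM
  have e2 : (s3 + s4) * (Rq ^ 2 * (2 * EV)) ≤ (Rq + 1) * (Rq ^ 2 * (2 * EV)) :=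
    mul_le_mul_of_nonneg_right (by linarith) (by positivity)
  have e3 : Rq ^ 2 * (2 * EV) + (Rq + 1) * (Rq ^ 2 * (2 * EV)) ≤ Rq ^ 6 * EV := by
    have : 2 * Rq ^ 3 + 4 * Rq ^ 2 ≤ Rq ^ 6 := by
      have h1 : Rq ^ 2 * 16 ≤ Rq ^ 2 * Rq ^ 2 := mul_le_mul_of_nonneg_left (by nlinarith) (by positivity)
      have h2 : Rq ^ 3 * 64 ≤ Rq ^ 3 * Rq ^ 3 := mul_le_mul_of_nonneg_left (by nlinarith [sq_nonneg Rq]) (by positivity)
      have h3 : Rq ^ 2 * 4 ≤ Rq ^ 2 * Rq := mul_le_mul_of_nonneg_left hRq (by positivity)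
      nlinarith [pow_pos (by linarith : (0:ℝ) < Rq) 2, pow_pos (by linarith : (0:ℝ) < Rq) 3]
    calc Rq ^ 2 * (2 * EV) + (Rq + 1) * (Rq ^ 2 * (2 * EV)) = (2 * Rq ^ 3 + 4 * Rq ^ 2) * EV := by ring
      _ ≤ Rq ^ 6 * EV := mul_le_mul_of_nonneg_right this hEV
  have e4 : X * ((1 - δ) * M - Er) ≤ X * ((1 - δ / 4) * M - Rq ^ 2 * (2 * EV)) -
      X * ((s1 + s2) * M + (s3 + s4) * (Rq ^ 2 * (2 * EV))) := by
    rw [← mul_sub]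
    refine mul_le_mul_of_nonneg_left ?_ hX
    have : 0 ≤ δ * M := by positivity
    subst hEr
    nlinarith
  linarith

private theorem UL5c_sums {P : Finset ℕ} {z : ℕ} {T : ℝ} (hP : ∀ p ∈ P, p.Prime ∧ z < p) (hz : 2 ≤ z)
    (h : ∑ q ∈ P, (Real.log q / Real.log z + 1) / ((q : ℝ) - 1) ≤ T) :
    ∑ q ∈ P, 1 / ((q : ℝ) - 1) ≤ T ∧ ∑ q ∈ P, 1 / ((q : ℝ) - 1) ^ 2 ≤ T / z ∧
      ∑ q ∈ P, 1 / ((q : ℝ) - 1) ^ 3 ≤ T / z ^ 2 := by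
  have hz0 : (0 : ℝ) < z := by exact_mod_cast (by omega : 0 < z)
  have hz1 : (1 : ℝ) < z := by exact_mod_cast (by omega : 1 < z)
  have hq : ∀ q ∈ P, (z : ℝ) ≤ (q : ℝ) - 1 := by
    intro q hq
    have : z + 1 ≤ q := (hP q hq).2
    have : ((z + 1 : ℕ) : ℝ) ≤ (q : ℝ) := by exact_mod_cast this
    push_cast at this
    linarith
  have h1 : ∑ q ∈ P, 1 / ((q : ℝ) - 1) ≤ T := by
    refine le_trans (Finset.sum_le_sum fun q hq' => ?_) h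
    have h2 := hq q hq'
    have h3 : 0 < (q : ℝ) - 1 := by linarith
    have h4 : 0 ≤ Real.log q / Real.log z :=
      div_nonneg (Real.log_nonneg (by linarith)) (Real.log_nonneg hz1.le)
    exact div_le_div_of_nonneg_right (by linarith) h3.le
  refine ⟨h1, ?_, ?_⟩
  · have : ∑ q ∈ P, 1 / ((q : ℝ) - 1) ^ 2 ≤ ∑ q ∈ P, 1 / ((q : ℝ) - 1) * (1 / z) := by
      refine Finset.sum_le_sum fun q hq' => ?_
      have h2 := hq q hq'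
      have h3 : 0 < (q : ℝ) - 1 := by linarith
      have h4 : 1 / ((q : ℝ) - 1) ≤ 1 / z := one_div_le_one_div_of_le hz0 h2
      calc 1 / ((q : ℝ) - 1) ^ 2 = 1 / ((q : ℝ) - 1) * (1 / ((q : ℝ) - 1)) := by
            rw [sq, one_div_mul_one_div]
        _ ≤ _ := mul_le_mul_of_nonneg_left h4 (by positivity)
    refine le_trans this ?_
    rw [← Finset.sum_mul, mul_one_div]
    exact div_le_div_of_nonneg_right h1 hz0.le
  · have : ∑ q ∈ P, 1 / ((q : ℝ) - 1) ^ 3 ≤ ∑ q ∈ P, 1 / ((q : ℝ) - 1) * (1 / z ^ 2) := by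
      refine Finset.sum_le_sum fun q hq' => ?_
      have h2 := hq q hq'
      have h3 : 0 < (q : ℝ) - 1 := by linarith
      have h4 : 1 / ((q : ℝ) - 1) ^ 2 ≤ 1 / (z : ℝ) ^ 2 :=
        one_div_le_one_div_of_le (by positivity) (pow_le_pow_left₀ hz0.le h2 2)
      calc 1 / ((q : ℝ) - 1) ^ 3 = 1 / ((q : ℝ) - 1) * (1 / ((q : ℝ) - 1) ^ 2) := by
            rw [one_div_mul_one_div]; ring
        _ ≤ _ := mul_le_mul_of_nonneg_left h4 (by positivity)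
    refine le_trans this ?_
    rw [← Finset.sum_mul, mul_one_div]
    exact div_le_div_of_nonneg_right h1 (by positivity)

private theorem UL5c_ev (δ T : ℝ) (hδ : 0 < δ) : ∀ᶠ z : ℕ in atTop, 4 * (Real.log z ^ 2 + 1) * (T / z) ≤ δ / 16 ∧
    2 * (Real.log z ^ 2 + 1) ^ 2 * (T / z ^ 2) ≤ 1 := by
  have h1 : Tendsto (fun x : ℝ => Real.log x ^ 2 / x) atTop (nhds 0) := by
    have := Real.tendsto_pow_log_div_mul_add_atTop 1 0 2 one_ne_zero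
    simpa using this
  have h2 : Tendsto (fun x : ℝ => 1 / x) atTop (nhds 0) := by
    simpa using tendsto_inv_atTop_zero (𝕜 := ℝ)
  have h3 : Tendsto (fun x : ℝ => (Real.log x ^ 2 + 1) / x) atTop (nhds 0) := by
    have := h1.add h2
    simp only [add_zero] at this
    refine this.congr fun x => ?_
    rw [← add_div]
  have h4 : Tendsto (fun z : ℕ => (Real.log (z : ℝ) ^ 2 + 1) / (z : ℝ)) atTop (nhds 0) :=
    h3.comp tendsto_natCast_atTop_atTop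
  have h5 : Tendsto (fun z : ℕ => 4 * T * ((Real.log (z : ℝ) ^ 2 + 1) / (z : ℝ))) atTop (nhds 0) := by
    simpa using h4.const_mul (4 * T)
  have h6 : Tendsto (fun z : ℕ => 2 * T * ((Real.log (z : ℝ) ^ 2 + 1) / (z : ℝ)) ^ 2) atTop (nhds 0) := by
    simpa using (h4.pow 2).const_mul (2 * T)
  filter_upwards [h5.eventually_le_const (show (0 : ℝ) < δ / 16 by positivity),
    h6.eventually_le_const (show (0 : ℝ) < 1 by norm_num)] with z ha hb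
  constructor
  · calc 4 * (Real.log z ^ 2 + 1) * (T / z) = 4 * T * ((Real.log (z : ℝ) ^ 2 + 1) / (z : ℝ)) := by ring
      _ ≤ _ := ha
  · calc 2 * (Real.log z ^ 2 + 1) ^ 2 * (T / z ^ 2) = 2 * T * ((Real.log (z : ℝ) ^ 2 + 1) / (z : ℝ)) ^ 2 := by
          rw [div_pow]; ring
      _ ≤ _ := hb

private theorem UL5c_abs {R : Prm} {z p1 : ℕ} {h K : Finset ℕ} (hPr : ∀ p ∈ Ps R z p1, Nat.Prime p) (hz2 : 2 ≤ z) (ha1 : 1 ≤ R.a)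
   (hr0 : 1 ≤ R.r0) (hD0' : 0 < Dn (Ps R z p1) z R.r0 R.q0)
   (hD1' : 1 ≤ Dn (Ps R z p1) z R.r0 R.q0 * (R.r0 * Real.log z)) (i0 : ↥h) (s : ℕ) (β) :
   |ySel (Ps R z p1) z s (Sum.inl i0) (YP R z p1 h K) β| ≤ G1s (Ps R z p1) z R.q0 R.a R.I :=
  sel_abs (κ := ↥h) (ν := ↥K) _ hPr hz2 ha1 hr0 hD0' hD1' _ _ _ _ i0 β

private theorem UL5c_supp {R : Prm} {z p1 : ℕ} {h K : Finset ℕ} (hPr : ∀ p ∈ Ps R z p1, Nat.Prime p) (hz2 : 2 ≤ z) (ha1 : 1 ≤ R.a)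
   (hr0 : 1 ≤ R.r0) (hh : h.card = R.k) (i0 : ↥h) (s : ℕ) {β} (hβ : ySel (Ps R z p1) z s (Sum.inl i0) (YP R z p1 h K) β ≠ 0) :
   rr (sp (Ps R z p1) β) ≤ (z : ℝ) ^ (2 * R.u + 2 * R.q0 + s) ∧
      (insert (Sum.inl i0) (sui (Ps R z p1) β)).card ≤ R.K := by
  have hKν : 2 * R.q0 ≤ (2 * R.A2 ^ R.I2) * R.r0 := by
    unfold Prm.q0 q0S
    exact le_of_eq (by ring)
  obtain ⟨h1, h2, h3, h4⟩ := sel_supp (κ := ↥h) (ν := ↥K) (a := R.a) _ hPr hz2 ha1 hr0 hKν _ _ _ _ i0 hβ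
  refine ⟨h1, ?_⟩
  rw [Fintype.card_coe, hh] at h4
  exact h4


private theorem UL5c_S0 {R : Prm} {C Cq Cm : ℕ} {c cD Λ δ : ℝ} (hq : QFRpS Cq) (hp : ParG R C Cq Cm c cD Λ δ) :
    ∀ᶠ z : ℕ in atTop, ∀ p1 : ℕ, p1.Prime → ∀ (c0 : ℕ) (h K : Finset ℕ),
      PosS z p1 c0 R.k (Λ * R.q) h K → ∀ (a : ℕ) (ha : a ∈ h), ∀ e : ℕ, 1 ≤ e →
      (∀ p : ℕ, p.Prime → p ∣ e → z ^ l1 R < p) → ∀ Q ⊆ Pb R z p1, (∀ p ∈ Q, ¬ p ∣ e) →
      ∀ (cf : Finset ℕ → ℝ) (j : ℕ), (∀ A, |cf A| ≤ 1) → (∀ A, cf A ≠ 0 → rr A ≤ (z : ℝ) ^ j) →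
      e * z ^ (2 * j + 30 * R.u) ≤ z ^ R.q → ∀ s : ℕ, s < 2 * R.u →
      NW R z p1 / e * ((1 - δ / 4) * (m1 R z p1 h K * nrm Q cf) - (R.q : ℝ) ^ 2 * (2 * (R.e Cq Λ * VP (P0 z p1) h))) ≤
      ∑ n ∈ (sN (z ^ R.q) (Wp z p1) c0).filter (fun n => e ∣ n + a),
          PhiS (Ps R z p1) (P0 z p1) (bS h K)
              (ySel (Ps R z p1) z s (Sum.inl ⟨a, ha⟩) (YP R z p1 h K)) h n ^ 2 * Lc Q cf (n + a) ^ 2 := by
  filter_upwards [qfU hq hp, dgSel_ge hp, baseG hp 1 one_pos, G_le_q hp] with z hqf hdg hBs hG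
  intro p1 hp1 c0 h K hpos a ha e he hpe Q hQ hQe cf j hcf hsupp hlev s hs
  have hB := hBs p1
  obtain ⟨hz3, hlog, -, -, hD0, -, hD1, -⟩ := id hB
  have hz1 : 1 ≤ z := by omega
  have hz2 : 2 ≤ z := by omega
  obtain ⟨hq0, hk, hu, hq0u, hl1u, hM, -, -, huk, hkq, -, -⟩ := prm_le hp
  have hPs := Ps_sub hp hz1 p1
  have hPsP : ∀ p ∈ Ps R z p1, p.Prime ∧ z < p ∧ p ≤ z ^ l1 R := fun p hp' => by
    obtain ⟨-, h2, h3, h4⟩ := mem_PL.1 hp'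
    exact ⟨h2, h3, h4⟩
  have hwf : wf z ≤ z := by
    unfold wf
    exact (Nat.div_le_self _ _).trans ((Nat.log_le_self _ _).trans (Nat.log_le_self _ _))
  have hzl : z ≤ z ^ l1 R := by
    refine Nat.le_self_pow ?_ z
    have : 1 ≤ R.q0 * R.a ^ R.I := Nat.mul_pos (by omega) (pow_pos (by have := hp.sums.1; omega) _)
    unfold l1
    omega
  have hpe' : ∀ p : ℕ, p.Prime → p ∣ e → z < p := fun p h1 h2 => lt_of_le_of_lt hzl (hpe p h1 h2)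
  obtain ⟨c1, hc1⟩ := class_ex1 (p1 := p1) hwf he hpe' (z ^ R.q) c0 a
  rw [hc1]
  have hQPG : Q ⊆ PG R z p1 := hQ.trans Finset.sdiff_subset
  have hdis : Disjoint (Ps R z p1) Q := by
    rw [Finset.disjoint_right]
    intro p h1
    exact (Finset.mem_sdiff.1 (hQ h1)).2
  have hPse : ∀ p ∈ Ps R z p1, ¬ p ∣ e := fun p h1 h2 => by
    have h3 := hPsP p h1
    have := hpe p h3.1 h2
    omega
  have hL : e * z ^ (2 * (2 * R.u + 2 * R.q0 + s + j) + 4 * R.u + 10) ≤ z ^ R.q := by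
    refine le_trans (Nat.mul_le_mul_left e (Nat.pow_le_pow_right (by omega) ?_)) hlev
    omega
  obtain ⟨hG1, -⟩ := one_le_G hB
  have hG1q := (hG p1 hp1).1
  have hG1eq := (G1G_eq hp hz2 p1).1
  have hDeq := Dn_eq hp hz2 p1
  have hPr : ∀ p ∈ Ps R z p1, Nat.Prime p := fun p h1 => (hPsP p h1).1
  have ha1 : 1 ≤ R.a := by have := hp.sums.1; omega
  have hD0' : 0 < Dn (Ps R z p1) z R.r0 R.q0 := by rw [← hDeq]; exact hD0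
  have hD1' : 1 ≤ Dn (Ps R z p1) z R.r0 R.q0 * (R.r0 * Real.log z) := by rw [← hDeq]; exact hD1
  set ys := ySel (Ps R z p1) z s (Sum.inl ⟨a, ha⟩) (YP R z p1 h K) with hys
  have hyabs : ∀ β, |ys β| ≤ G1G R z p1 := fun β => by
    rw [hG1eq]
    exact UL5c_abs hPr hz2 ha1 hp.hr0 hD0' hD1' ⟨a, ha⟩ s β
  have hysupp : ∀ β, ys β ≠ 0 → rr (sp (Ps R z p1) β) ≤ (z : ℝ) ^ (2 * R.u + 2 * R.q0 + s) ∧
      (insert (Sum.inl ⟨a, ha⟩) (sui (Ps R z p1) β)).card ≤ R.K := fun β hβ =>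
    UL5c_supp hPr hz2 ha1 hp.hr0 hpos.1 ⟨a, ha⟩ s hβ
  have hmain := hqf p1 hp1 c0 h K h hpos (Or.inl rfl) e he hpe' (Ps R z p1) hPs hPse Q hQPG hQe hdis
    (2 * R.u + 2 * R.q0 + s) j hL c1 (Sum.inl ⟨a, ha⟩) ys (G1G R z p1) ha (by linarith) hyabs hysupp cf hcf hsupp
  have hd := hdg p1 hp1 c0 h K hpos ⟨a, ha⟩ s
  have hnr : 0 ≤ nrm Q cf := nrm_nonnegU (fun p h1 => (mem_PL.1 (hQPG h1)).2.1) cf
  have hX : 0 ≤ NW R z p1 / e := by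
    unfold NW
    positivity
  have hVP : 0 ≤ VP (P0 z p1) h := VP_nonneg _ (fun p hp => (mem_P0.1 hp).2.1) h
  have he0 : 0 ≤ R.e Cq Λ := (eG_le hp).1
  have h1 := (abs_le.1 hmain).1
  have h2 : G1G R z p1 ^ 2 ≤ (R.q : ℝ) ^ 2 := pow_le_pow_left₀ (by linarith) hG1q 2
  have h3 : NW R z p1 / e * ((1 - δ / 4) * (m1 R z p1 h K * nrm Q cf)) ≤
      NW R z p1 / e * (dgV (Ps R z p1) (VP (P0 z p1)) (bS h K) h ys * nrm Q cf) := by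
    refine mul_le_mul_of_nonneg_left ?_ hX
    rw [← mul_assoc]
    exact mul_le_mul_of_nonneg_right hd hnr
  have h4 : NW R z p1 / e * (G1G R z p1 ^ 2 * (2 * R.e Cq Λ * VP (P0 z p1) h)) ≤
      NW R z p1 / e * ((R.q : ℝ) ^ 2 * (2 * (R.e Cq Λ * VP (P0 z p1) h))) := by
    refine mul_le_mul_of_nonneg_left ?_ hX
    rw [mul_assoc 2]
    exact mul_le_mul_of_nonneg_right h2 (by positivity)
  have h5 : bS h K (Sum.inl ⟨a, ha⟩) = a := rfl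
  rw [h5] at h1
  rw [mul_sub]
  linarith

theorem l1_main : ∃ C0 : ℕ, ∀ (R : Prm) (C Cq Cm : ℕ) (c cD Λ δ : ℝ), QFRpS Cq → ParG R C Cq Cm c cD Λ δ → C0 ≤ δ * R.D →
    ∀ᶠ z : ℕ in atTop, ∀ p1 : ℕ, p1.Prime → ∀ (c0 : ℕ) (h K : Finset ℕ), PosS z p1 c0 R.k (Λ * R.q) h K →
      L1 R Cq Λ δ z p1 c0 h K := by
  obtain ⟨C1, hC1⟩ := qterm
  obtain ⟨C2, hC2⟩ := logsum
  refine ⟨C1 + 24 * C2, fun R C Cq Cm c cD Λ δ hq hp hC0 => ?_⟩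
  push_cast at hC0
  have hC1' : (C1 : ℝ) ≤ δ * R.D := by
    have : (0 : ℝ) ≤ C2 := Nat.cast_nonneg _
    linarith
  have hC2' : 24 * (C2 : ℝ) ≤ δ * R.D := by
    have : (0 : ℝ) ≤ C1 := Nat.cast_nonneg _
    linarith
  obtain ⟨hq0, hk, hu, hq0u, hl1u, hM, -, -, huk, hkq, -, -⟩ := prm_le hp
  have ha1 : 1 ≤ R.a := by have := hp.sums.1; omega
  have hl1 : 1 ≤ l1 R := Nat.mul_pos (by omega) (pow_pos (by omega) _)
  have hDl : R.D * l1 R ≤ R.u := by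
    have h1 : R.u = R.D * l1 R * (R.B * (R.I + 1)) := by
      unfold Prm.u Prm.k l1
      ring
    rw [h1]
    exact Nat.le_mul_of_pos_right _ (Nat.mul_pos hp.hB (Nat.succ_pos _))
  have hDl' : (R.D : ℝ) * l1 R ≤ R.u := by exact_mod_cast hDl
  have hl0 : (0 : ℝ) ≤ l1 R := Nat.cast_nonneg _
  have hu0 : (0 : ℝ) < R.u := by exact_mod_cast hu
  have hT1 : 24 * ((C2 : ℝ) * l1 R) ≤ δ * R.u := by
    have h1 : 24 * ((C2 : ℝ) * l1 R) ≤ δ * R.D * l1 R := by nlinarith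
    have h2 : δ * (R.D * l1 R) ≤ δ * R.u := mul_le_mul_of_nonneg_left hDl' hp.hδ.le
    linarith
  have hT2 : 8 * ((C2 : ℝ) * l1 R) ≤ R.q := by
    have h1 : δ * R.u ≤ 1 * R.u := mul_le_mul_of_nonneg_right (by linarith [hp.hδ1]) hu0.le
    have h2 : (R.u : ℝ) ≤ R.q := by exact_mod_cast (huk.trans hkq.le)
    linarith
  have hRq : (4 : ℝ) ≤ R.q := by
    have h1 : R.q = 4 * (R.M * R.u) := by
      unfold Prm.q
      ring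
    have h2 : 4 ≤ R.q := by
      rw [h1]
      have : 1 ≤ R.M * R.u := Nat.mul_pos (by omega) (by omega)
      omega
    exact_mod_cast h2
  filter_upwards [hC1 R C Cq Cm c cD Λ δ hq hp hC1', hC2 (l1 R) hl1, UL5c_S0 hq hp,
    UL5c_ev δ ((C2 : ℝ) * l1 R) hp.hδ, m1_nonneg hp, baseG hp 1 one_pos] with z hqt hls hS0 hev hm1 hBs
  intro p1 hp1 c0 h K hpos a ha e he hpe Q hQ hQe cf j hcf hsupp hlev
  obtain ⟨hz3, hlog, -⟩ := id (hBs p1)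
  have hz1 : 1 ≤ z := by omega
  have hz2 : 2 ≤ z := by omega
  have hPsP : ∀ p ∈ Ps R z p1, p.Prime ∧ z < p := fun p hp' => by
    obtain ⟨-, h2, h3, -⟩ := mem_PL.1 hp'
    exact ⟨h2, h3⟩
  have hPr : ∀ p ∈ Ps R z p1, Nat.Prime p := fun p h1 => (hPsP p h1).1
  have hz0 : (0 : ℝ) < z := by exact_mod_cast hz1
  obtain ⟨s, hs1, hs2, hpig⟩ := pigeon (Ps R z p1) hPr hz2 hu
  obtain ⟨hsum1, hsum2, hsum3⟩ := UL5c_sums hPsP hz2 (hls p1)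
  have hGs : 1 ≤ Gs R z p1 := one_le_gs hz1 p1
  have hGsdef : ∏ p ∈ Ps R z p1, (1 + 1 / ((p : ℝ) - 1)) = Gs R z p1 := rfl
  rw [hGsdef] at hpig
  have hN := (card_pos hp hpos).1
  have hN0 : (0 : ℝ) ≤ Fintype.card (↥h ⊕ ↥K) := Nat.cast_nonneg _
  have hT0 : 0 ≤ (C2 : ℝ) * l1 R := by positivity
  have hnr : 0 ≤ nrm Q cf :=
    nrm_nonnegU (fun p h1 => (mem_PL.1 (Finset.sdiff_subset (hQ h1))).2.1) cf
  have hX : 0 ≤ NW R z p1 / e := by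
    unfold NW
    positivity
  have hVP : 0 ≤ VP (P0 z p1) h := VP_nonneg _ (fun p hp => (mem_P0.1 hp).2.1) h
  have he0 : 0 ≤ R.e Cq Λ := (eG_le hp).1
  have hlow := low_sum (Ps R z p1) ((sN (z ^ R.q) (Wp z p1) c0).filter (fun n => e ∣ n + a)) a
    (fun n => PhiS (Ps R z p1) (P0 z p1) (bS h K)
      (ySel (Ps R z p1) z s (Sum.inl ⟨a, ha⟩) (YP R z p1 h K)) h n)
    (PsG R z p1 h K) (fun n => Lc Q cf (n + a)) (by
      intro n _ hn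
      show PsG R z p1 h K n = _
      rw [PsG_eq hp hz2]
      exact PhiS_eq_ySel (Ps R z p1) (P0 z p1) hPr z s hz1 (bS h K) (Sum.inl ⟨a, ha⟩) n hn _ h ha)
  have hmain := hS0 p1 hp1 c0 h K hpos a ha e he hpe Q hQ hQe cf j hcf hsupp hlev s hs2
  have hterm := fun q hq' => hqt p1 hp1 c0 h K hpos a ha e he hpe Q hQ hQe cf j hcf hsupp hlev s hs1 hs2 q hq'
  have hsumq := Finset.sum_le_sum hterm
  have hfac : ∑ q ∈ Ps R z p1, NW R z p1 / e * ((3 / ((q : ℝ) - 1) * (tl (Ps R z p1) z s q / Gs R z p1) +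
            4 * Fintype.card (↥h ⊕ ↥K) / ((q : ℝ) - 1) ^ 2) * (m1 R z p1 h K * nrm Q cf) +
          (8 / ((q : ℝ) - 1) + 2 * (Fintype.card (↥h ⊕ ↥K) : ℝ) ^ 2 / ((q : ℝ) - 1) ^ 3) *
            (R.q ^ 2 * (2 * R.e Cq Λ * VP (P0 z p1) h))) =
      NW R z p1 / e * ((∑ q ∈ Ps R z p1, 3 / ((q : ℝ) - 1) * (tl (Ps R z p1) z s q / Gs R z p1) +
          ∑ q ∈ Ps R z p1, 4 * Fintype.card (↥h ⊕ ↥K) / ((q : ℝ) - 1) ^ 2) * (m1 R z p1 h K * nrm Q cf) +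
        (∑ q ∈ Ps R z p1, 8 / ((q : ℝ) - 1) +
          ∑ q ∈ Ps R z p1, 2 * (Fintype.card (↥h ⊕ ↥K) : ℝ) ^ 2 / ((q : ℝ) - 1) ^ 3) *
            ((R.q : ℝ) ^ 2 * (2 * (R.e Cq Λ * VP (P0 z p1) h)))) := by
    rw [← Finset.mul_sum, Finset.sum_add_distrib, ← Finset.sum_mul, ← Finset.sum_mul,
      Finset.sum_add_distrib, Finset.sum_add_distrib, mul_assoc 2 (R.e Cq Λ)]
  rw [hfac] at hsumq
  refine UL5c_num (S0 := _) (s1 := ∑ q ∈ Ps R z p1, 3 / ((q : ℝ) - 1) * (tl (Ps R z p1) z s q / Gs R z p1))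
    (s2 := ∑ q ∈ Ps R z p1, 4 * Fintype.card (↥h ⊕ ↥K) / ((q : ℝ) - 1) ^ 2)
    (s3 := ∑ q ∈ Ps R z p1, 8 / ((q : ℝ) - 1))
    (s4 := ∑ q ∈ Ps R z p1, 2 * (Fintype.card (↥h ⊕ ↥K) : ℝ) ^ 2 / ((q : ℝ) - 1) ^ 3)
    (EV := R.e Cq Λ * VP (P0 z p1) h) (M := m1 R z p1 h K * nrm Q cf) hX
    (mul_nonneg (hm1 p1 hp1 h K) hnr) (mul_nonneg he0 hVP) hp.hδ hRq hmain
    (le_trans ?_ hlow) ?_ ?_ ?_ ?_ ?_
  · exact sub_le_sub_left hsumq _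
  · have h1 : ∑ q ∈ Ps R z p1, 3 / ((q : ℝ) - 1) * (tl (Ps R z p1) z s q / Gs R z p1) =
        3 / Gs R z p1 * ∑ q ∈ Ps R z p1, 1 / ((q : ℝ) - 1) * tl (Ps R z p1) z s q := by
      rw [Finset.mul_sum]
      refine Finset.sum_congr rfl fun q _ => ?_
      ring
    rw [h1]
    have h2 : 3 / Gs R z p1 * ∑ q ∈ Ps R z p1, 1 / ((q : ℝ) - 1) * tl (Ps R z p1) z s q ≤
        3 / Gs R z p1 * (1 / (R.u : ℝ) * (((C2 : ℝ) * l1 R) * Gs R z p1)) := by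
      refine mul_le_mul_of_nonneg_left (le_trans hpig ?_) (by positivity)
      refine mul_le_mul_of_nonneg_left ?_ (by positivity)
      exact mul_le_mul_of_nonneg_right (hls p1) (by linarith)
    refine le_trans h2 ?_
    have h3 : 3 / Gs R z p1 * (1 / (R.u : ℝ) * (((C2 : ℝ) * l1 R) * Gs R z p1)) =
        3 * ((C2 : ℝ) * l1 R) / R.u := by
      have : Gs R z p1 ≠ 0 := by linarith
      field_simp
    rw [h3, div_le_iff₀ hu0]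
    linarith
  · have h1 : ∑ q ∈ Ps R z p1, 4 * (Fintype.card (↥h ⊕ ↥K) : ℝ) / ((q : ℝ) - 1) ^ 2 =
        4 * (Fintype.card (↥h ⊕ ↥K) : ℝ) * ∑ q ∈ Ps R z p1, 1 / ((q : ℝ) - 1) ^ 2 := by
      rw [Finset.mul_sum]
      refine Finset.sum_congr rfl fun q _ => ?_
      ring
    rw [h1]
    refine le_trans ?_ hev.1
    exact mul_le_mul (by linarith) hsum2 (Finset.sum_nonneg fun q _ => by positivity) (by positivity)
  · have h1 : ∑ q ∈ Ps R z p1, 8 / ((q : ℝ) - 1) = 8 * ∑ q ∈ Ps R z p1, 1 / ((q : ℝ) - 1) := by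
      rw [Finset.mul_sum]
      refine Finset.sum_congr rfl fun q _ => ?_
      ring
    rw [h1]
    linarith
  · have h1 : ∑ q ∈ Ps R z p1, 2 * (Fintype.card (↥h ⊕ ↥K) : ℝ) ^ 2 / ((q : ℝ) - 1) ^ 3 =
        2 * (Fintype.card (↥h ⊕ ↥K) : ℝ) ^ 2 * ∑ q ∈ Ps R z p1, 1 / ((q : ℝ) - 1) ^ 3 := by
      rw [Finset.mul_sum]
      refine Finset.sum_congr rfl fun q _ => ?_
      ring
    rw [h1]
    refine le_trans ?_ hev.2
    have h2 : (Fintype.card (↥h ⊕ ↥K) : ℝ) ^ 2 ≤ (Real.log z ^ 2 + 1) ^ 2 := pow_le_pow_left₀ hN0 hN 2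
    refine mul_le_mul (by linarith) hsum3 (Finset.sum_nonneg fun q hq' => ?_) (by positivity)
    have h3 : (1 : ℝ) < q := by exact_mod_cast (hPsP q hq').1.one_lt
    have : 0 < (q : ℝ) - 1 := by linarith
    positivity
  · unfold er
    ring

end Pool.Agent.LibFB63
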