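import Pool.Agent.LibFB63.Defs
import Pool.Agent.LibFB63.UF1
import Pool.Agent.LibFB63.UF2
import Pool.Agent.LibFB63.UL5c

/-!
Block U (owner helper22): the averages.
-/

open Finset Filter

namespace Pool.Agent.LibFB63

open Pool.Agent.LibRG87 Pool.Agent.LibLG5 Pool.Agent.LibPL63 Pool.Agent.LibSC93 Pool.Agent.LibGL22

theorem avgs : ∃ C0 : ℕ, ∀ (R : Prm) (C Cq Cm : ℕ) (c cD Λ δ : ℝ) (Cx g g2 g3 : ℕ) (ε : ℝ), C0 ≤ Cx →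
    ParV R C Cq Cm c cD Λ δ Cx g g2 g3 ε → ∀ᶠ z : ℕ in atTop, ∀ p1 : ℕ, p1.Prime → z ^ (R.q + 2) < p1 →
    ∀ (c0 : ℕ) (h K : Finset ℕ), PosS z p1 c0 R.k (Λ * R.q) h K →
      U1 R Cq Λ δ z p1 c0 h K ∧ L1 R Cq Λ δ z p1 c0 h K ∧ U2 R Cq Λ δ z p1 c0 h K := by
  obtain ⟨Cs, _, hQ⟩ := qfrpS
  obtain ⟨A1, hA1⟩ := u1_main
  obtain ⟨A2, hA2⟩ := l1_main
  obtain ⟨A3, hA3⟩ := u2_main
  refine ⟨Cs + A1 + A2 + A3, fun R C Cq Cm c cD Λ δ Cx g g2 g3 ε hC hv => ?_⟩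
  have hCx : (Cx : ℝ) ≤ δ * R.D := hv.hD2
  have hq : QFRpS Cq := hQ Cq (by have := hv.hCqx; omega)
  have h1 : (A1 : ℝ) ≤ δ * R.D := le_trans (by exact_mod_cast (by omega : A1 ≤ Cx)) hCx
  have h2 : (A2 : ℝ) ≤ δ * R.D := le_trans (by exact_mod_cast (by omega : A2 ≤ Cx)) hCx
  have h3 : (A3 : ℝ) ≤ δ * R.D := le_trans (by exact_mod_cast (by omega : A3 ≤ Cx)) hCx
  filter_upwards [hA1 R C Cq Cm c cD Λ δ hq hv.pg h1, hA2 R C Cq Cm c cD Λ δ hq hv.pg h2,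
    hA3 R C Cq Cm c cD Λ δ hq hv.pg h3] with z z1 z2 z3 p1 hp1 _ c0 h K hpos
  exact ⟨z1 p1 hp1 c0 h K hpos, z2 p1 hp1 c0 h K hpos, z3 p1 hp1 c0 h K hpos⟩

end Pool.Agent.LibFB63
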