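import Pool.Agent.LibFB63.Defs
import Pool.Agent.LibSC93.R5

/-!
Block U: definitions. `rs P P1 β` = restriction of a configuration on the primes `P` to the primes `P1`; `yX` = product coefficients on `P = P1 ∪ P2`;
`y0p`, `y1p`, `y2p` = coefficients of the constant 1, of `Lc Q c (n + b i)`, and of the disjoint part of `Lc Q c (n + b i) * Lc Q c' (n + b j)`.
-/

open Finset Filter

namespace Pool.Agent.LibFB63

open Pool.Agent.LibRG87 Pool.Agent.LibLG5 Pool.Agent.LibPL63 Pool.Agent.LibSC93 Pool.Agent.LibGL22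

section

variable {ι : Type} [Fintype ι] [DecidableEq ι]

/-- restriction of a configuration to the primes of `P1` -/
def rs (P P1 : Finset ℕ) (β : P → Option ι) : P1 → Option ι :=
  fun p => if h : (p : ℕ) ∈ P then β ⟨p, h⟩ else none

/-- product coefficients -/
noncomputable def yX (P P1 P2 : Finset ℕ) (y1 : (P1 → Option ι) → ℝ) (y2 : (P2 → Option ι) → ℝ) (β : P → Option ι) : ℝ :=
  y1 (rs P P1 β) * y2 (rs P P2 β)

open scoped Classical in
/-- the empty configuration -/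
noncomputable def y0p (Q : Finset ℕ) (γ : Q → Option ι) : ℝ := if ∀ p, γ p = none then 1 else 0

open scoped Classical in
/-- one position -/
noncomputable def y1p (Q : Finset ℕ) (c : Finset ℕ → ℝ) (i : ι) (γ : Q → Option ι) : ℝ :=
  if ∀ p, γ p = none ∨ γ p = some i then c (fb Q γ i) else 0

open scoped Classical in
/-- two positions -/
noncomputable def y2p (Q : Finset ℕ) (c c' : Finset ℕ → ℝ) (i j : ι) (γ : Q → Option ι) : ℝ :=
  if ∀ p, γ p = none ∨ γ p = some i ∨ γ p = some j then c (fb Q γ i) * c' (fb Q γ j) else 0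

end

/-- the coefficients of `PsG` on the primes `Ps` -/
noncomputable def YP (R : Prm) (z p1 : ℕ) (h K : Finset ℕ) : (Ps R z p1 → Option (↥h ⊕ ↥K)) → ℝ :=
  yJ (Ps R z p1) z R.q0 R.a R.I (2 * R.u) R.r0 R.q0

/-- the quadratic form property for all subsets `P` of `PL z k1 p1` -/
def QFRpS (C : ℕ) : Prop :=
  ∀ (k K k1 b0 L : ℕ), 1 ≤ k → 1 ≤ k1 → Even b0 → eps0 C (2 * k) b0 ≤ 1 →
    ∀ᶠ z : ℕ in atTop, ∀ (p1 : ℕ) (A : Average), SmallOK A (P0 z p1) z k → ∀ P ⊆ PL z k1 p1,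
      ∀ (ι : Type) [Fintype ι] [DecidableEq ι] (b : ι → ℕ) (J : Finset ι) (E : Finset ℕ)
        (y : (P → Option ι) → ℝ) (v VE : ℝ),
        LocOK P A b J → Set.InjOn b (J : Set ι) →
        (Fintype.card ι : ℝ) ≤ Real.log z ^ 2 + 1 → E.card + 2 * K ≤ k → 0 ≤ v → 0 ≤ VE →
        (∀ B ⊆ J.image b, B.card ≤ 2 * K → VA A (P0 z p1) (E ∪ B) ≤ 4 * v ^ (B \ E).card * VE) →
        (∀ β, |y β| ≤ 1) →
        (∀ β, y β ≠ 0 → rr (sp P β) ≤ (z : ℝ) ^ L ∧ alw P J β ∧ (sui P β).card ≤ K) →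
        |∑ n ∈ A.s, A.om n * PhiS P (P0 z p1) b y E n ^ 2 -
            A.X * dgV P (VA A (P0 z p1)) b E y| ≤
          A.X * VE * (eps0 C (2 * k) b0 * ((C * k1 : ℕ) : ℝ) ^ (C * (k + 1) ^ 2) *
              (1 + Fintype.card ι * v) ^ (2 * K)) + A.X / Real.sqrt z +
            Real.log z ^ (C * (L + 1)) *
              RemA A.Er (P0 z p1 ∪ PL z k1 p1) (2 * k) (z ^ (2 * L + 2 * b0 + 6))

end Pool.Agent.LibFB63
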