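import Pool.Agent.LibFB63.UW9

/-!
Row UW10 (Selberg factors at two positions). `y' = ySel (inl i0) yJ`, `y'' = ySel (inl i1) y'`.
`yCS_abs`: for `β` avoiding `inl i1`: `yCol (inl i1) y' β = ∑_{B ⊆ P \ sp β} y' (ins (inl i1) B β)/ph B`; it vanishes if `rr (fb β (inl i0)) > z^k2` (`ins` does not change `fb` at `inl i0`), and otherwise, with `β0 = rem (inl i0) β`
(`rem (inl i0) (ins (inl i1) B β) = ins (inl i1) B β0`), each term is at most `|yCol (inl i0) yJ (ins (inl i1) B β0)|/(Gm ph B)` (`hG` at the set `sp (ins … β0)`, `rr ≤ z^(L + 2 r1)` if the term is nonzero), and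
`∑_B |yCol (inl i0) yJ (ins (inl i1) B β0)|/ph B ≤ G1s² (∏ g1 (fb (bL β0) i)) |y5 (bR β0)|` exactly as in the proof of `yCC_abs` (LibGL22/Z1.lean; there the triangle inequality is used termwise).
`dgSel2_le`: `dgV_ySel` (Z0) at `inl i1` with `y'`; `Gm ≤ Gn (P \ sp β)` (`rr (sp β) ≤ z^(L + 2 r1 + k2)`), `yCS_abs`, then the sum over `β` avoiding `inl i1` with `rr (fb β (inl i0)) ≤ z^k2`: `∏_i f_i` with `f_i = g1²` (`i ≠ i0, i1`),
`f_{i1} A = 1[A = ∅]`, `f_{i0} A = 1[rr A ≤ z^k2]` (`∑ f_{i0} A/ph A = Gn P z k2`), as `sum_avoid_le` (Z3). `sel2_abs` with `Gm = 1` (`one_le_Gn`), `sel2_supp` as `sel_supp`.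
-/

open Finset

namespace Pool.Agent.LibFB63

open Pool.Agent.LibRG87 Pool.Agent.LibLG5 Pool.Agent.LibPL63 Pool.Agent.LibSC93 Pool.Agent.LibGL22

variable {κ ν : Type} [Fintype κ] [DecidableEq κ] [Fintype ν] [DecidableEq ν] (P : Finset ℕ)

private theorem UW10_sub_bL {A : Finset ℕ} {β : P → Option (κ ⊕ ν)} (hA : A ⊆ P \ sp P β) :
    A ⊆ P \ sp P (bL P β) := by
  intro p hp
  have h1 := Finset.mem_sdiff.1 (hA hp)
  refine Finset.mem_sdiff.2 ⟨h1.1, fun h2 => h1.2 ?_⟩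
  rw [sp_bLR]
  exact Finset.mem_union_left _ h2

omit [Fintype κ] [DecidableEq κ] [Fintype ν] [DecidableEq ν] in
private theorem UW10_ne_bL {i0 : κ} {β : P → Option (κ ⊕ ν)}
    (hβ : ∀ p, β p ≠ some (Sum.inl i0)) : ∀ p, bL P β p ≠ some i0 := by
  intro p h
  unfold bL at h
  cases hp : β p with
  | none => rw [hp] at h; simp at h
  | some s =>
    rw [hp] at h
    cases s with
    | inl i =>
      simp only [Option.bind_some, Sum.getLeft?_inl, Option.some.injEq] at h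
      rw [h] at hp
      exact hβ p hp
    | inr j => simp at h

private theorem UW10_bL_ins (i0 : κ) {A : Finset ℕ} {β : P → Option (κ ⊕ ν)} :
    bL P (ins P (Sum.inl i0) A β) = ins P i0 A (bL P β) := by
  funext p
  by_cases hp : (p : ℕ) ∈ A
  · rw [M4_ins_mem P i0 hp]
    unfold bL
    rw [M4_ins_mem P (Sum.inl i0) hp]
    rfl
  · rw [M4_ins_notMem P i0 hp]
    unfold bL
    rw [M4_ins_notMem P (Sum.inl i0) hp]

private theorem UW10_bR_ins (i0 : κ) {A : Finset ℕ} {β : P → Option (κ ⊕ ν)}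
    (hA : A ⊆ P \ sp P β) : bR P (ins P (Sum.inl i0) A β) = bR P β := by
  funext p
  unfold bR
  by_cases hp : (p : ℕ) ∈ A
  · rw [M4_ins_mem P (Sum.inl i0) hp, M4_none P hA hp]
    rfl
  · rw [M4_ins_notMem P (Sum.inl i0) hp]

private theorem UW10_bR_rem (i1 : κ) (β : P → Option (κ ⊕ ν)) :
    bR P (rem P (Sum.inl i1) β) = bR P β := by
  funext p
  unfold bR rem
  by_cases h : β p = some (Sum.inl i1)
  · rw [if_pos h, h]
    rfl
  · rw [if_neg h]

private theorem UW10_prod {ι : Type} [Fintype ι] [DecidableEq ι] (g : Finset ℕ → ℝ) (hg : g ∅ = 1)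
    (i0 : ι) {A : Finset ℕ} {γ : P → Option ι} (hγ : ∀ p, γ p ≠ some i0) (hA : A ⊆ P \ sp P γ) :
    ∏ i, g (fb P (ins P i0 A γ) i) = g A * ∏ i, g (fb P γ i) := by
  rw [← Finset.mul_prod_erase Finset.univ (fun i => g (fb P (ins P i0 A γ) i)) (Finset.mem_univ i0),
    ← Finset.mul_prod_erase Finset.univ (fun i => g (fb P γ i)) (Finset.mem_univ i0),
    fb_ins_self P i0 hγ hA, fb_self_eq_empty P hγ, hg, one_mul]
  congr 1
  refine Finset.prod_congr rfl fun i hi => ?_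
  rw [fb_ins_ne P i0 hγ hA (Finset.ne_of_mem_erase hi)]

private theorem UW10_gS_nonneg (hP : ∀ p ∈ P, Nat.Prime p) (z q0 a I L : ℕ) (S : Finset ℕ) (R : ℝ) :
    0 ≤ gS P z q0 a I L S R := by
  unfold gS
  refine Finset.sum_nonneg fun A hA => ?_
  rw [Finset.mem_filter, Finset.mem_powerset] at hA
  exact div_nonneg (g1_nonneg z q0 a I A) (ph_pos P hP (hA.1.trans Finset.sdiff_subset)).le

private theorem UW10_gS_le (hP : ∀ p ∈ P, Nat.Prime p) (z q0 a I L : ℕ) (S : Finset ℕ) (R : ℝ) :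
    gS P z q0 a I L S R ≤ G1s P z q0 a I := by
  unfold gS G1s
  refine Finset.sum_le_sum_of_subset_of_nonneg ?_ fun A hA _ =>
    div_nonneg (g1_nonneg z q0 a I A) (ph_pos P hP (Finset.mem_powerset.1 hA)).le
  intro A hA
  rw [Finset.mem_filter, Finset.mem_powerset] at hA
  exact Finset.mem_powerset.2 (hA.1.trans Finset.sdiff_subset)

private theorem UW10_avoid (i0 i1 : κ) (hne : i0 ≠ i1) {A : Finset ℕ} {β : P → Option (κ ⊕ ν)}
    (hβ : ∀ p, β p ≠ some (Sum.inl i0)) : ∀ p, ins P (Sum.inl i1) A β p ≠ some (Sum.inl i0) := by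
  intro p
  by_cases hp : (p : ℕ) ∈ A
  · rw [M4_ins_mem P (Sum.inl i1) hp]
    intro h
    exact hne (Sum.inl_injective (Option.some_injective _ h)).symm
  · rw [M4_ins_notMem P (Sum.inl i1) hp]
    exact hβ p

/-- one term -/
private theorem UW10_term (hP : ∀ p ∈ P, Nat.Prime p) {z a r0 r1 : ℕ} (hz : 2 ≤ z)
    (q0 I L : ℕ) (i0 i1 : κ) (hne : i0 ≠ i1) (β : P → Option (κ ⊕ ν))
    (hβ : ∀ p, β p ≠ some (Sum.inl i0)) (hβ1 : ∀ p, β p ≠ some (Sum.inl i1)) {A : Finset ℕ}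
    (hA : A ⊆ P \ sp P β) :
    |yCol P (Sum.inl i0) (yJ P z q0 a I L r0 r1) (ins P (Sum.inl i1) A β)| ≤
      g1 z q0 a I A * (G1s P z q0 a I * ((∏ i, g1 z q0 a I (fb P (bL P β) i)) *
        |y5 P z r0 r1 (bR P β)|)) := by
  rw [yCol_inl P z q0 a I L r0 r1 (by omega) i0 _ (UW10_avoid P i0 i1 hne hβ), UW10_bL_ins,
    UW10_bR_ins P i1 hA, UW10_prod P (g1 z q0 a I) (g1_empty (by omega)) i1 (UW10_ne_bL P hβ1)
      (UW10_sub_bL P hA), abs_mul, abs_mul, abs_mul, abs_of_nonneg (g1_nonneg z q0 a I A),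
    abs_of_nonneg (Finset.prod_nonneg fun i _ => g1_nonneg z q0 a I (fb P (bL P β) i)),
    abs_of_nonneg (UW10_gS_nonneg P hP z q0 a I L _ _)]
  have h1 := UW10_gS_le P hP z q0 a I L (sp P (ins P (Sum.inl i1) A β))
    (rr (sp P (ins P i1 A (bL P β))))
  have h2 : 0 ≤ g1 z q0 a I A * ((∏ i, g1 z q0 a I (fb P (bL P β) i)) *
        |y5 P z r0 r1 (bR P β)|) :=
    mul_nonneg (g1_nonneg _ _ _ _ _) (mul_nonneg (Finset.prod_nonneg fun i _ =>
      g1_nonneg z q0 a I (fb P (bL P β) i)) (abs_nonneg _))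
  have h3 := mul_le_mul_of_nonneg_left h1 h2
  calc _ = g1 z q0 a I A * ((∏ i, g1 z q0 a I (fb P (bL P β) i)) * |y5 P z r0 r1 (bR P β)|) *
        gS P z q0 a I L (sp P (ins P (Sum.inl i1) A β)) (rr (sp P (ins P i1 A (bL P β)))) := by ring
    _ ≤ _ := h3
    _ = _ := by ring

private theorem UW10_iffR {κ ν : Type} (o : Option (κ ⊕ ν)) (j : ν) :
    o.bind Sum.getRight? = some j ↔ o = some (Sum.inr j) := by
  rcases o with _ | (i | j) <;> simp

private theorem UW10_mem_sui {ι : Type} [Fintype ι] [DecidableEq ι] {β : P → Option ι} {i : ι} :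
    i ∈ sui P β ↔ ∃ p, β p = some i := by
  unfold sui
  simp only [Finset.mem_filter, Finset.mem_univ, true_and]

private theorem UW10_sui_inr (β : P → Option (κ ⊕ ν)) (j : ν) :
    Sum.inr j ∈ sui P β ↔ j ∈ sui P (bR P β) := by
  rw [UW10_mem_sui, UW10_mem_sui]
  exact exists_congr fun p => (UW10_iffR _ _).symm

private theorem UW10_rem_ins (i0 i1 : κ) (hne : i0 ≠ i1) {A : Finset ℕ} {β : P → Option (κ ⊕ ν)} :
    rem P (Sum.inl i0) (ins P (Sum.inl i1) A β) = ins P (Sum.inl i1) A (rem P (Sum.inl i0) β) := by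
  funext p
  by_cases hp : (p : ℕ) ∈ A
  · rw [M4_ins_mem P (Sum.inl i1) hp]
    unfold rem
    rw [M4_ins_mem P (Sum.inl i1) hp, if_neg]
    intro h
    exact hne (Sum.inl_injective (Option.some_injective _ h)).symm
  · rw [M4_ins_notMem P (Sum.inl i1) hp]
    unfold rem
    rw [M4_ins_notMem P (Sum.inl i1) hp]

private theorem UW10_rem_avoid (i0 i1 : κ) {β : P → Option (κ ⊕ ν)}
    (hβ : ∀ p, β p ≠ some (Sum.inl i1)) : ∀ p, rem P (Sum.inl i0) β p ≠ some (Sum.inl i1) := by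
  intro p
  unfold rem
  split_ifs
  · exact fun h => by cases h
  · exact hβ p

private theorem UW10_sp_rem (i0 : κ) (β : P → Option (κ ⊕ ν)) :
    sp P (rem P (Sum.inl i0) β) ⊆ sp P β := by
  intro p hp
  obtain ⟨h1, h2⟩ := (mem_sp P).1 hp
  refine (mem_sp P).2 ⟨h1, fun h3 => h2 ?_⟩
  unfold rem
  rw [if_neg, h3]
  rw [h3]
  exact fun h => by cases h

private theorem UW10_rr (i : κ ⊕ ν) (β : P → Option (κ ⊕ ν)) :
    rr (sp P β) = rr (fb P β i) * rr (sp P (rem P i β)) := by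
  have h8 := rr_sp_ins P i (M5_rem_ne P i β) (M5_fb_sub P i β)
  rw [M5_ins_rem] at h8
  exact h8

open scoped Classical in
theorem yCS_abs (hP : ∀ p ∈ P, Nat.Prime p) {z a r0 r1 : ℕ} (hz : 2 ≤ z) (ha : 1 ≤ a) (hr0 : 1 ≤ r0)
    (q0 I L k2 : ℕ) (i0 i1 : κ) (hne : i0 ≠ i1) {Gm : ℝ} (hGm : 0 < Gm)
    (hG : ∀ S ⊆ P, rr S ≤ (z : ℝ) ^ (L + 2 * r1) → Gm ≤ Gn (P \ S) z k2) (β : P → Option (κ ⊕ ν)) :
    |yCol P (Sum.inl i1) (ySel P z k2 (Sum.inl i0) (yJ P z q0 a I L r0 r1)) β| ≤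
      if (∀ p, β p ≠ some (Sum.inl i1)) ∧ rr (fb P β (Sum.inl i0)) ≤ (z : ℝ) ^ k2 ∧
          rr (sp P (rem P (Sum.inl i0) β)) ≤ (z : ℝ) ^ (L + 2 * r1) then
        G1s P z q0 a I ^ 2 / Gm * ((∏ i, g1 z q0 a I (fb P (bL P (rem P (Sum.inl i0) β)) i)) *
          |y5 P z r0 r1 (bR P β)|) else 0 := by
  have hG1 := G1s_nonneg P hP z q0 a I
  have hX : 0 ≤ (∏ i, g1 z q0 a I (fb P (bL P (rem P (Sum.inl i0) β)) i)) * |y5 P z r0 r1 (bR P β)| :=
    mul_nonneg (Finset.prod_nonneg fun i _ => g1_nonneg z q0 a I _) (abs_nonneg _)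
  have hC : 0 ≤ G1s P z q0 a I ^ 2 / Gm := div_nonneg (sq_nonneg _) hGm.le
  by_cases hβ1 : ∀ p, β p ≠ some (Sum.inl i1)
  swap
  · rw [yCol_of_not P _ _ β hβ1, abs_zero]
    split_ifs
    · exact mul_nonneg hC hX
    · exact le_rfl
  obtain ⟨β0, hβ0⟩ : ∃ β0, β0 = rem P (Sum.inl i0) β := ⟨_, rfl⟩
  have hav0 : ∀ p, β0 p ≠ some (Sum.inl i0) := fun p => hβ0 ▸ M5_rem_ne P (Sum.inl i0) β p
  have hav1 : ∀ p, β0 p ≠ some (Sum.inl i1) := fun p => hβ0 ▸ UW10_rem_avoid P i0 i1 hβ1 p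
  have hsub : ∀ B ⊆ P \ sp P β, B ⊆ P \ sp P β0 := by
    intro B hB
    refine hB.trans (Finset.sdiff_subset_sdiff (Finset.Subset.refl _) ?_)
    rw [hβ0]
    exact UW10_sp_rem P i0 β
  have hval : ∀ B ⊆ P \ sp P β, ySel P z k2 (Sum.inl i0) (yJ P z q0 a I L r0 r1) (ins P (Sum.inl i1) B β) =
      if rr (fb P β (Sum.inl i0)) ≤ (z : ℝ) ^ k2 then
        yCol P (Sum.inl i0) (yJ P z q0 a I L r0 r1) (ins P (Sum.inl i1) B β0) /
          Gn (P \ sp P (ins P (Sum.inl i1) B β0)) z k2 else 0 := by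
    intro B hB
    unfold ySel
    rw [fb_ins_ne P (Sum.inl i1) hβ1 hB (fun h => hne (Sum.inl_injective h)),
      UW10_rem_ins P i0 i1 hne, ← hβ0]
  unfold yCol
  rw [if_pos hβ1]
  by_cases hk : rr (fb P β (Sum.inl i0)) ≤ (z : ℝ) ^ k2
  swap
  · rw [Finset.sum_eq_zero, abs_zero, if_neg (fun h => hk h.2.1)]
    intro B hB
    rw [hval B (Finset.mem_powerset.1 hB), if_neg hk, zero_div]
  by_cases hR : rr (sp P β0) ≤ (z : ℝ) ^ (L + 2 * r1)
  swap
  · rw [Finset.sum_eq_zero, abs_zero, if_neg (fun h => hR (hβ0 ▸ h.2.2))]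
    intro B hB
    rw [Finset.mem_powerset] at hB
    have h1 : yCol P (Sum.inl i0) (yJ P z q0 a I L r0 r1) (ins P (Sum.inl i1) B β0) = 0 := by
      by_contra h2
      have h3 := (yColL_supp P hP hz hr0 (Kν := 2 * r1)
        (Nat.le_mul_of_pos_right _ (by omega)) q0 I L i0 h2).1
      rw [rr_sp_ins P (Sum.inl i1) hav1 (hsub B hB)] at h3
      have h4 : 1 ≤ rr B := one_le_rr P hP (hB.trans Finset.sdiff_subset)
      have h5 : 0 < rr (sp P β0) := rr_pos P hP (sp_subset P _)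
      apply hR
      nlinarith
    rw [hval B hB, if_pos hk, h1, zero_div, zero_div]
  rw [if_pos ⟨hβ1, hk, hβ0 ▸ hR⟩, ← hβ0]
  rw [← hβ0] at hX
  refine (Finset.abs_sum_le_sum_abs _ _).trans ?_
  have h1 : ∀ B ∈ (P \ sp P β).powerset,
      |ySel P z k2 (Sum.inl i0) (yJ P z q0 a I L r0 r1) (ins P (Sum.inl i1) B β) / ph B| ≤
        g1 z q0 a I B / ph B * (G1s P z q0 a I / Gm * ((∏ i, g1 z q0 a I (fb P (bL P β0) i)) *
          |y5 P z r0 r1 (bR P β)|)) := by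
    intro B hB
    rw [Finset.mem_powerset] at hB
    have hph := ph_pos P hP (hB.trans Finset.sdiff_subset)
    have hR0 : 0 ≤ g1 z q0 a I B * (G1s P z q0 a I / Gm * ((∏ i, g1 z q0 a I (fb P (bL P β0) i)) *
          |y5 P z r0 r1 (bR P β)|)) :=
      mul_nonneg (g1_nonneg _ _ _ _ _) (mul_nonneg (div_nonneg hG1 hGm.le) hX)
    rw [abs_div, abs_of_pos hph, div_mul_eq_mul_div]
    refine div_le_div_of_nonneg_right ?_ hph.le
    rw [hval B hB, if_pos hk]
    by_cases h2 : yCol P (Sum.inl i0) (yJ P z q0 a I L r0 r1) (ins P (Sum.inl i1) B β0) = 0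
    · rw [h2, zero_div, abs_zero]
      exact hR0
    have h3 := (yColL_supp P hP hz hr0 (Kν := 2 * r1)
        (Nat.le_mul_of_pos_right _ (by omega)) q0 I L i0 h2).1
    have h4 := hG _ (sp_subset P _) h3
    have h5 := UW10_term P hP (a := a) (r0 := r0) (r1 := r1) hz q0 I L i0 i1 hne β0 hav0 hav1 (hsub B hB)
    have h6 : bR P β0 = bR P β := by
      rw [hβ0]
      exact UW10_bR_rem P i0 β
    rw [h6] at h5
    rw [abs_div, abs_of_pos (hGm.trans_le h4)]
    calc _ ≤ |yCol P (Sum.inl i0) (yJ P z q0 a I L r0 r1) (ins P (Sum.inl i1) B β0)| / Gm :=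
          div_le_div_of_nonneg_left (abs_nonneg _) hGm h4
      _ ≤ (g1 z q0 a I B * (G1s P z q0 a I * ((∏ i, g1 z q0 a I (fb P (bL P β0) i)) *
        |y5 P z r0 r1 (bR P β)|))) / Gm := div_le_div_of_nonneg_right h5 hGm.le
      _ = _ := by ring
  refine (Finset.sum_le_sum h1).trans ?_
  rw [← Finset.sum_mul]
  have h2 : ∑ B ∈ (P \ sp P β).powerset, g1 z q0 a I B / ph B ≤ G1s P z q0 a I := by
    unfold G1s
    refine Finset.sum_le_sum_of_subset_of_nonneg
      (Finset.powerset_mono.2 Finset.sdiff_subset) fun A hA _ => ?_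
    exact div_nonneg (g1_nonneg _ _ _ _ _) (ph_pos P hP (Finset.mem_powerset.1 hA)).le
  calc _ ≤ G1s P z q0 a I * (G1s P z q0 a I / Gm * ((∏ i, g1 z q0 a I (fb P (bL P β0) i)) *
          |y5 P z r0 r1 (bR P β)|)) :=
        mul_le_mul_of_nonneg_right h2 (mul_nonneg (div_nonneg hG1 hGm.le) hX)
    _ = _ := by ring

/-- one is a lower bound for `Gn` -/
private theorem UW10_Gn (hP : ∀ p ∈ P, Nat.Prime p) {z : ℕ} (hz : 2 ≤ z) (k2 : ℕ) (S : Finset ℕ) :
    1 ≤ Gn (P \ S) z k2 :=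
  one_le_Gn _ z k2 (fun p hp => hP p (Finset.mem_sdiff.1 hp).1) (by omega)

theorem sel2_abs (hP : ∀ p ∈ P, Nat.Prime p) {z a r0 r1 : ℕ} (hz : 2 ≤ z) (ha : 1 ≤ a) (hr0 : 1 ≤ r0)
    (hD : 0 < Dn P z r0 r1) (hD1 : 1 ≤ Dn P z r0 r1 * (r0 * Real.log z)) (q0 I L k2 : ℕ) (i0 i1 : κ)
    (hne : i0 ≠ i1) (β : P → Option (κ ⊕ ν)) :
    |ySel P z k2 (Sum.inl i1) (ySel P z k2 (Sum.inl i0) (yJ P z q0 a I L r0 r1)) β| ≤ G1s P z q0 a I ^ 2 := by
  classical
  have hG2 : 0 ≤ G1s P z q0 a I ^ 2 := sq_nonneg _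
  have h7 : |yCol P (Sum.inl i1) (ySel P z k2 (Sum.inl i0) (yJ P z q0 a I L r0 r1))
      (rem P (Sum.inl i1) β)| ≤ G1s P z q0 a I ^ 2 := by
    refine (yCS_abs P hP hz ha hr0 q0 I L k2 i0 i1 hne one_pos
      (fun S _ _ => UW10_Gn P hP hz k2 S) _).trans ?_
    split_ifs with h2
    · rw [div_one]
      refine mul_le_of_le_one_right hG2 ?_
      refine mul_le_one₀ ?_ (abs_nonneg _) (y5_abs_le P z r0 r1 hP hz hr0 hD hD1 _)
      exact Finset.prod_le_one (fun i _ => g1_nonneg _ _ _ _ _) (fun i _ => g1_le_one ha _)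
    · exact hG2
  unfold ySel at h7 ⊢
  split_ifs with h1
  · have h6 := UW10_Gn P hP hz k2 (sp P (rem P (Sum.inl i1) β))
    rw [abs_div, abs_of_pos (by linarith : 0 < Gn (P \ sp P (rem P (Sum.inl i1) β)) z k2)]
    exact (div_le_self (abs_nonneg _) h6).trans h7
  · rw [abs_zero]
    exact hG2

theorem sel2_supp (hP : ∀ p ∈ P, Nat.Prime p) {z a r0 r1 : ℕ} (hz : 2 ≤ z) (ha : 1 ≤ a) (hr0 : 1 ≤ r0) {Kν : ℕ}
    (hK : 2 * r1 ≤ Kν * r0) (q0 I L k2 : ℕ) (i0 i1 : κ) (hne : i0 ≠ i1) {β : P → Option (κ ⊕ ν)}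
    (h : ySel P z k2 (Sum.inl i1) (ySel P z k2 (Sum.inl i0) (yJ P z q0 a I L r0 r1)) β ≠ 0) :
    rr (sp P β) ≤ (z : ℝ) ^ (L + 2 * r1 + 2 * k2) ∧
      ({Sum.inl i0, Sum.inl i1} ∪ sui P β).card ≤ Fintype.card κ + Kν := by
  classical
  have h1 : rr (fb P β (Sum.inl i1)) ≤ (z : ℝ) ^ k2 := by
    by_contra h1
    apply h
    rw [ySel, if_neg h1]
  have h2 : yCol P (Sum.inl i1) (ySel P z k2 (Sum.inl i0) (yJ P z q0 a I L r0 r1))
      (rem P (Sum.inl i1) β) ≠ 0 := by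
    intro h2
    apply h
    rw [ySel, if_pos h1, h2, zero_div]
  have h3 := yCS_abs P hP (r1 := r1) hz ha hr0 q0 I L k2 i0 i1 hne one_pos
      (fun S _ _ => UW10_Gn P hP hz k2 S) (rem P (Sum.inl i1) β)
  have h4 := (abs_pos.2 h2).trans_le h3
  by_cases h5 : (∀ p, rem P (Sum.inl i1) β p ≠ some (Sum.inl i1)) ∧
      rr (fb P (rem P (Sum.inl i1) β) (Sum.inl i0)) ≤ (z : ℝ) ^ k2 ∧
      rr (sp P (rem P (Sum.inl i0) (rem P (Sum.inl i1) β))) ≤ (z : ℝ) ^ (L + 2 * r1)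
  · rw [if_pos h5] at h4
    have h6 : y5 P z r0 r1 (bR P β) ≠ 0 := by
      intro h6
      rw [UW10_bR_rem, h6] at h4
      simp at h4
    have h7 := y5_supp P z r0 r1 hP hz hr0 hK _ h6
    refine ⟨?_, ?_⟩
    · rw [UW10_rr P (Sum.inl i1) β, UW10_rr P (Sum.inl i0) (rem P (Sum.inl i1) β)]
      have h9 : (z : ℝ) ^ (L + 2 * r1 + 2 * k2) = z ^ k2 * (z ^ k2 * z ^ (L + 2 * r1)) := by
        rw [← pow_add, ← pow_add]
        congr 1
        ring
      rw [h9]
      have hn1 : 0 ≤ rr (fb P (rem P (Sum.inl i1) β) (Sum.inl i0)) :=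
        zero_le_one.trans (one_le_rr P hP (fb_subset P _ _))
      have hn2 : 0 ≤ rr (sp P (rem P (Sum.inl i0) (rem P (Sum.inl i1) β))) :=
        zero_le_one.trans (one_le_rr P hP (sp_subset P _))
      exact mul_le_mul h1 (mul_le_mul h5.2.1 h5.2.2 hn2 (by positivity)) (mul_nonneg hn1 hn2)
        (by positivity)
    · have h8 : {Sum.inl i0, Sum.inl i1} ∪ sui P β ⊆
          (Finset.univ : Finset κ).disjSum (sui P (bR P β)) := by
        rintro (i | j) hij
        · exact Finset.inl_mem_disjSum.2 (Finset.mem_univ _)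
        · rcases Finset.mem_union.1 hij with h9 | h9
          · simp at h9
          · exact Finset.inr_mem_disjSum.2 ((UW10_sui_inr P β j).1 h9)
      refine (Finset.card_le_card h8).trans ?_
      rw [Finset.card_disjSum, Finset.card_univ]
      exact Nat.add_le_add_left h7.2 _
  · rw [if_neg h5] at h4
    exact absurd h4 (lt_irrefl _)

private theorem UW10_prodc (i0 i1 : κ) (hne : i0 ≠ i1) (g c : ℝ) :
    ∏ i : κ, (if i = i1 then (1 : ℝ) else if i = i0 then g else c) = g * c ^ (Fintype.card κ - 2) := by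
  rw [← Finset.mul_prod_erase Finset.univ _ (Finset.mem_univ i1), if_pos rfl, one_mul,
    ← Finset.mul_prod_erase (Finset.univ.erase i1) _ (Finset.mem_erase.2 ⟨hne, Finset.mem_univ i0⟩),
    if_neg hne, if_pos rfl]
  congr 1
  rw [Finset.prod_congr rfl (g := fun _ => c), Finset.prod_const, Finset.card_erase_of_mem
    (Finset.mem_erase.2 ⟨hne, Finset.mem_univ i0⟩), Finset.card_erase_of_mem (Finset.mem_univ i1),
    Finset.card_univ]
  · rfl
  · intro i hi
    rw [Finset.mem_erase, Finset.mem_erase] at hi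
    rw [if_neg hi.2.1, if_neg hi.1]

open scoped Classical in
private theorem UW10_one (hP : ∀ p ∈ P, Nat.Prime p) (z q0 a I k2 : ℕ) (i0 i1 : κ) (hne : i0 ≠ i1) :
    ∑ α : P → Option κ, ∏ i, ((if i = i1 then (if fb P α i = ∅ then (1 : ℝ) else 0) else
        if i = i0 then (if rr (fb P α i) ≤ (z : ℝ) ^ k2 then 1 else 0) else
        g1 z q0 a I (fb P α i) ^ 2) / ph (fb P α i)) ≤
      Gn P z k2 * G2s P z q0 a I ^ (Fintype.card κ - 2) := by
  have h1 := sum_beta_le (ι := κ) P (fun A => ∏ i, ((if i = i1 then (if A i = ∅ then (1 : ℝ) else 0) else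
        if i = i0 then (if rr (A i) ≤ (z : ℝ) ^ k2 then 1 else 0) else
        g1 z q0 a I (A i) ^ 2) / ph (A i))) (by
    intro A hA
    rw [Fintype.mem_piFinset] at hA
    refine Finset.prod_nonneg fun i _ => div_nonneg ?_
      (ph_pos P hP (Finset.mem_powerset.1 (hA i))).le
    split_ifs
    · exact zero_le_one
    · exact le_rfl
    · exact zero_le_one
    · exact le_rfl
    · exact sq_nonneg _)
  refine h1.trans (le_of_eq ?_)
  rw [← Finset.prod_univ_sum (fun _ : κ => P.powerset)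
    (fun i A => (if i = i1 then (if A = ∅ then (1 : ℝ) else 0) else
        if i = i0 then (if rr A ≤ (z : ℝ) ^ k2 then 1 else 0) else
        g1 z q0 a I A ^ 2) / ph A), ← UW10_prodc i0 i1 hne]
  refine Finset.prod_congr rfl fun i _ => ?_
  by_cases h : i = i1
  · simp only [if_pos h]
    rw [Finset.sum_eq_single ∅]
    · simp [ph]
    · intro A _ hA
      rw [if_neg hA, zero_div]
    · intro h2
      exact absurd (Finset.empty_mem_powerset P) h2
  · by_cases h' : i = i0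
    · simp only [if_neg h, if_pos h']
      unfold Gn
      rw [Finset.sum_filter]
      refine Finset.sum_congr rfl fun A _ => ?_
      split_ifs
      · rfl
      · rw [zero_div]
    · simp only [if_neg h, if_neg h']
      rfl

open scoped Classical in
private theorem UW10_sum (hP : ∀ p ∈ P, Nat.Prime p) (z q0 a I k2 : ℕ) (ha : 1 ≤ a) (i0 i1 : κ) (hne : i0 ≠ i1)
    (w : (P → Option ν) → ℝ) (hw : ∀ γ, 0 ≤ w γ) :
    ∑ β : P → Option (κ ⊕ ν), (if (∀ p, β p ≠ some (Sum.inl i1)) ∧ rr (fb P β (Sum.inl i0)) ≤ (z : ℝ) ^ k2 then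
        (∏ i, g1 z q0 a I (fb P (bL P (rem P (Sum.inl i0) β)) i)) ^ 2 * w (bR P β) / ph (sp P β) else 0) ≤
      Gn P z k2 * G2s P z q0 a I ^ (Fintype.card κ - 2) * ∑ γ : P → Option ν, w γ / ph (sp P γ) := by
  have hpos : ∀ {ι : Type} [Fintype ι] [DecidableEq ι] (α : P → Option ι), 0 < ph (sp P α) :=
    fun α => ph_pos P hP (sp_subset P α)
  obtain ⟨F, hF⟩ : ∃ F : (P → Option κ) → κ → ℝ, F = fun α i =>
      (if i = i1 then (if fb P α i = ∅ then (1 : ℝ) else 0) else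
        if i = i0 then (if rr (fb P α i) ≤ (z : ℝ) ^ k2 then 1 else 0) else
        g1 z q0 a I (fb P α i) ^ 2) := ⟨_, rfl⟩
  have hF0 : ∀ α i, 0 ≤ F α i := by
    intro α i
    rw [hF]
    dsimp only
    split_ifs
    · exact zero_le_one
    · exact le_rfl
    · exact zero_le_one
    · exact le_rfl
    · exact sq_nonneg _
  have hph : ∀ (α : P → Option κ) (i : κ), 0 < ph (fb P α i) := fun α i =>
    ph_pos P hP (fb_subset P α i)
  have hT0 : ∀ α : P → Option κ, 0 ≤ ∏ i, (F α i / ph (fb P α i)) := fun α =>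
    Finset.prod_nonneg fun i _ => div_nonneg (hF0 α i) (hph α i).le
  let G : (P → Option κ) → (P → Option ν) → ℝ := fun α γ =>
    (∏ i, (F α i / ph (fb P α i))) * (w γ / ph (sp P γ))
  have hG0 : ∀ α γ, 0 ≤ G α γ := fun α γ =>
    mul_nonneg (hT0 α) (div_nonneg (hw γ) (hpos γ).le)
  have h1 : ∀ β : P → Option (κ ⊕ ν), (if (∀ p, β p ≠ some (Sum.inl i1)) ∧
      rr (fb P β (Sum.inl i0)) ≤ (z : ℝ) ^ k2 then
        (∏ i, g1 z q0 a I (fb P (bL P (rem P (Sum.inl i0) β)) i)) ^ 2 * w (bR P β) / ph (sp P β) else 0) ≤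
      G (bL P β) (bR P β) := by
    intro β
    split_ifs with hc
    · have hle : (∏ i, g1 z q0 a I (fb P (bL P (rem P (Sum.inl i0) β)) i)) ^ 2 ≤ ∏ i, F (bL P β) i := by
        rw [← Finset.prod_pow]
        refine Finset.prod_le_prod (fun i _ => sq_nonneg _) fun i _ => ?_
        rw [hF]
        dsimp only
        by_cases hi : i = i1
        · have he : fb P (bL P β) i = ∅ := by
            rw [fb_bL]
            apply Finset.eq_empty_of_forall_notMem
            intro p hp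
            obtain ⟨h2, h3⟩ := (mem_fb P).1 hp
            rw [hi] at h3
            exact hc.1 ⟨p, h2⟩ h3
          rw [if_pos hi, if_pos he]
          exact pow_le_one₀ (g1_nonneg _ _ _ _ _) (g1_le_one ha _)
        · rw [if_neg hi]
          by_cases hi0 : i = i0
          · have he : rr (fb P (bL P β) i) ≤ (z : ℝ) ^ k2 := by
              rw [fb_bL, hi0]
              exact hc.2
            rw [if_pos hi0, if_pos he]
            exact pow_le_one₀ (g1_nonneg _ _ _ _ _) (g1_le_one ha _)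
          · rw [if_neg hi0]
            have he : fb P (bL P (rem P (Sum.inl i0) β)) i = fb P (bL P β) i := by
              rw [fb_bL, fb_bL]
              ext p
              rw [mem_fb, mem_fb]
              refine exists_congr fun hp => ?_
              unfold rem
              by_cases hb : β ⟨p, hp⟩ = some (Sum.inl i0)
              · rw [if_pos hb, hb]
                constructor
                · exact fun h => by cases h
                · intro h
                  exact absurd (Sum.inl_injective (Option.some_injective _ h)).symm hi0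
              · rw [if_neg hb]
            rw [he]
      have e : G (bL P β) (bR P β) =
          (∏ i, F (bL P β) i) * w (bR P β) / ph (sp P β) := by
        show (∏ i, (F (bL P β) i / ph (fb P (bL P β) i))) * (w (bR P β) / ph (sp P (bR P β))) = _
        rw [Finset.prod_div_distrib, ph_bLR, ← ph_sp]
        exact (mul_div_mul_comm _ _ _ _).symm
      rw [e]
      exact div_le_div_of_nonneg_right (mul_le_mul_of_nonneg_right hle (hw _)) (hpos β).le
    · exact hG0 _ _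
  refine (Finset.sum_le_sum fun β _ => h1 β).trans ?_
  rw [sum_split P G, Finset.mul_sum]
  refine Finset.sum_le_sum fun γ _ => ?_
  have hγ : 0 ≤ w γ / ph (sp P γ) := div_nonneg (hw γ) (hpos γ).le
  have h2 : ∑ α : P → Option κ, (if ∀ p, α p = none ∨ γ p = none then G α γ else 0) ≤
      ∑ α : P → Option κ, G α γ := by
    refine Finset.sum_le_sum fun α _ => ?_
    split_ifs
    · exact le_rfl
    · exact hG0 α γ
  refine h2.trans ?_
  show ∑ α : P → Option κ, (∏ i, (F α i / ph (fb P α i))) * (w γ / ph (sp P γ)) ≤ _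
  rw [← Finset.sum_mul]
  refine mul_le_mul_of_nonneg_right ?_ hγ
  have h4 := UW10_one P hP z q0 a I k2 i0 i1 hne
  rw [hF]
  exact h4

theorem dgSel2_le (hP : ∀ p ∈ P, Nat.Prime p) {z a r0 r1 : ℕ} (hz : 2 ≤ z) (ha : 1 ≤ a) (hr0 : 1 ≤ r0)
    (q0 I L k2 : ℕ) (V : Finset ℕ → ℝ) (hV0 : ∀ B, 0 ≤ V B) (b : κ ⊕ ν → ℕ) (E : Finset ℕ)
    (hE : ∀ i, b (Sum.inl i) ∈ E) (i0 i1 : κ) (hne : i0 ≠ i1) {Gm : ℝ} (hGm : 0 < Gm)
    (hG : ∀ S ⊆ P, rr S ≤ (z : ℝ) ^ (L + 2 * r1 + k2) → Gm ≤ Gn (P \ S) z k2) :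
    dgV P V b E (ySel P z k2 (Sum.inl i1) (ySel P z k2 (Sum.inl i0) (yJ P z q0 a I L r0 r1))) ≤
      G1s P z q0 a I ^ 4 * G2s P z q0 a I ^ (Fintype.card κ - 2) * Gn P z k2 / Gm ^ 3 *
        dgV P V (fun j => b (Sum.inr j)) E (y5 P z r0 r1) := by
  classical
  rw [dgV_ySel P hP z k2 (by omega) V b (Sum.inl i1) E (hE i1)]
  have hG1 : 0 ≤ G1s P z q0 a I := G1s_nonneg P hP z q0 a I
  have hz1 : (1 : ℝ) ≤ z := by exact_mod_cast (by omega : 1 ≤ z)
  have hG' : ∀ S ⊆ P, rr S ≤ (z : ℝ) ^ (L + 2 * r1) → Gm ≤ Gn (P \ S) z k2 := by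
    intro S hS h
    exact hG S hS (h.trans (pow_le_pow_right₀ hz1 (by omega)))
  have hav := UW10_sum (κ := κ) (ν := ν) P hP z q0 a I k2 ha i0 i1 hne
    (fun γ => y5 P z r0 r1 γ ^ 2 * V (E ∪ su P (fun j => b (Sum.inr j)) γ))
    (fun γ => mul_nonneg (sq_nonneg _) (hV0 _))
  have hterm : ∀ β : P → Option (κ ⊕ ν),
      yCol P (Sum.inl i1) (ySel P z k2 (Sum.inl i0) (yJ P z q0 a I L r0 r1)) β ^ 2 *
          V (E ∪ su P b β) / (Gn (P \ sp P β) z k2 * ph (sp P β)) ≤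
        G1s P z q0 a I ^ 4 / Gm ^ 3 *
          (if (∀ p, β p ≠ some (Sum.inl i1)) ∧ rr (fb P β (Sum.inl i0)) ≤ (z : ℝ) ^ k2 then
            (∏ i, g1 z q0 a I (fb P (bL P (rem P (Sum.inl i0) β)) i)) ^ 2 * (y5 P z r0 r1 (bR P β) ^ 2 *
              V (E ∪ su P (fun j => b (Sum.inr j)) (bR P β))) / ph (sp P β) else 0) := by
    intro β
    have hc := yCS_abs P hP hz ha hr0 q0 I L k2 (r1 := r1) i0 i1 hne hGm hG' β
    have hphs : 0 < ph (sp P β) := ph_pos P hP (sp_subset P β)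
    have hV := hV0 (E ∪ su P b β)
    have hR : 0 ≤ G1s P z q0 a I ^ 4 / Gm ^ 3 *
          (if (∀ p, β p ≠ some (Sum.inl i1)) ∧ rr (fb P β (Sum.inl i0)) ≤ (z : ℝ) ^ k2 then
            (∏ i, g1 z q0 a I (fb P (bL P (rem P (Sum.inl i0) β)) i)) ^ 2 * (y5 P z r0 r1 (bR P β) ^ 2 *
              V (E ∪ su P (fun j => b (Sum.inr j)) (bR P β))) / ph (sp P β) else 0) := by
      refine mul_nonneg (div_nonneg (pow_nonneg hG1 _) (pow_nonneg hGm.le _)) ?_
      split_ifs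
      · exact div_nonneg (mul_nonneg (sq_nonneg _) (mul_nonneg (sq_nonneg _) (hV0 _))) hphs.le
      · exact le_rfl
    by_cases hcond : (∀ p, β p ≠ some (Sum.inl i1)) ∧ rr (fb P β (Sum.inl i0)) ≤ (z : ℝ) ^ k2 ∧
        rr (sp P (rem P (Sum.inl i0) β)) ≤ (z : ℝ) ^ (L + 2 * r1)
    · rw [if_pos hcond] at hc
      rw [if_pos ⟨hcond.1, hcond.2.1⟩, su_bR P b E hE β]
      rw [su_bR P b E hE β] at hV
      have hrr : rr (sp P β) ≤ (z : ℝ) ^ (L + 2 * r1 + k2) := by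
        rw [UW10_rr P (Sum.inl i0) β, pow_add, mul_comm]
        exact mul_le_mul hcond.2.2 hcond.2.1 (zero_le_one.trans (one_le_rr P hP (fb_subset P β _)))
          (by positivity)
      have hGn : Gm ≤ Gn (P \ sp P β) z k2 := hG _ (sp_subset P β) hrr
      have hsq : yCol P (Sum.inl i1) (ySel P z k2 (Sum.inl i0) (yJ P z q0 a I L r0 r1)) β ^ 2 ≤
          G1s P z q0 a I ^ 4 / Gm ^ 2 * ((∏ i, g1 z q0 a I (fb P (bL P (rem P (Sum.inl i0) β)) i)) ^ 2 *
            y5 P z r0 r1 (bR P β) ^ 2) := by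
        have h5 := pow_le_pow_left₀ (abs_nonneg _) hc 2
        rw [sq_abs] at h5
        refine h5.trans (le_of_eq ?_)
        rw [mul_pow, mul_pow, sq_abs, div_pow]
        ring
      have hden : Gm * ph (sp P β) ≤ Gn (P \ sp P β) z k2 * ph (sp P β) :=
        mul_le_mul_of_nonneg_right hGn hphs.le
      calc yCol P (Sum.inl i1) (ySel P z k2 (Sum.inl i0) (yJ P z q0 a I L r0 r1)) β ^ 2 *
            V (E ∪ su P (fun j => b (Sum.inr j)) (bR P β)) / (Gn (P \ sp P β) z k2 * ph (sp P β))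
          ≤ (G1s P z q0 a I ^ 4 / Gm ^ 2 * ((∏ i, g1 z q0 a I (fb P (bL P (rem P (Sum.inl i0) β)) i)) ^ 2 *
              y5 P z r0 r1 (bR P β) ^ 2)) * V (E ∪ su P (fun j => b (Sum.inr j)) (bR P β)) /
              (Gm * ph (sp P β)) := by
            refine div_le_div₀ ?_ (mul_le_mul_of_nonneg_right hsq hV) (mul_pos hGm hphs) hden
            exact mul_nonneg (mul_nonneg (div_nonneg (pow_nonneg hG1 _) (pow_nonneg hGm.le _))
              (mul_nonneg (sq_nonneg _) (sq_nonneg _))) hV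
        _ = _ := by
            field_simp
    · rw [if_neg hcond] at hc
      have h0 : yCol P (Sum.inl i1) (ySel P z k2 (Sum.inl i0) (yJ P z q0 a I L r0 r1)) β = 0 :=
        abs_eq_zero.1 (le_antisymm hc (abs_nonneg _))
      rw [h0]
      refine le_trans (le_of_eq ?_) hR
      simp
  refine (Finset.sum_le_sum fun β _ => hterm β).trans ?_
  rw [← Finset.mul_sum]
  refine (mul_le_mul_of_nonneg_left hav (div_nonneg (pow_nonneg hG1 _) (pow_nonneg hGm.le _))).trans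
    (le_of_eq ?_)
  unfold dgV
  ring

end Pool.Agent.LibFB63
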