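import Pool.Agent.LibFB63.UW4
import Pool.Agent.LibFB63.UW8
import Pool.Agent.LibFB63.UW10
import Pool.Agent.LibFB63.UW11

/-!
Facts about the coefficients with Selberg factors at one and two positions of `h`, for the weight of the hand-in.
-/

open Finset Filter

namespace Pool.Agent.LibFB63

open Pool.Agent.LibRG87 Pool.Agent.LibLG5 Pool.Agent.LibPL63 Pool.Agent.LibSC93 Pool.Agent.LibGL22

variable {R : Prm} {C Cq Cm : ℕ} {c cD Λ δ : ℝ}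

theorem UF_Ps_mem (hp : ParG R C Cq Cm c cD Λ δ) {z p1 p : ℕ} (hz : 1 ≤ z) (h : p ∈ Ps R z p1) :
    p.Prime ∧ z < p ∧ p ≤ z ^ l1 R := by
  have h1 := PG_mem (Ps_sub hp hz p1 h)
  refine ⟨h1.1, h1.2.1, ?_⟩
  unfold Ps PL PP at h
  rw [Finset.mem_erase, Finset.mem_filter, Finset.mem_Ioc] at h
  exact h.2.1.2

theorem UF_card_le {P S : Finset ℕ} {z t : ℕ} (hz : 2 ≤ z) (hP : ∀ p ∈ P, z < p) (hS : S ⊆ P)
    (h : rr S ≤ (z : ℝ) ^ t) : S.card ≤ t := by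
  have h2 : (z : ℝ) ^ S.card ≤ rr S := by
    unfold rr
    rw [← Finset.prod_const]
    exact Finset.prod_le_prod (fun _ _ => by positivity) fun p hp' => by exact_mod_cast (hP p (hS hp')).le
  have h3 : (z : ℝ) ^ S.card ≤ (z : ℝ) ^ t := h2.trans h
  have h5 : z ^ S.card ≤ z ^ t := by exact_mod_cast h3
  exact (Nat.pow_le_pow_iff_right (by omega)).1 h5

section

variable {e : ℝ} {z p1 : ℕ} {h K : Finset ℕ}

theorem UF_selP_abs (hp : ParG R C Cq Cm c cD Λ δ) (hB : BaseG R cD e z p1) (s : ℕ) (i : ↥h)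
    (β : Ps R z p1 → Option (↥h ⊕ ↥K)) :
    |ySel (Ps R z p1) z s (Sum.inl i) (YP R z p1 h K) β| ≤ G1G R z p1 := by
  have hz3 : 3 ≤ z := hB.1
  have hDn := hB.2.2.2.2.1
  have hDn1 := hB.2.2.2.2.2.2.1
  rw [Dn_eq hp (by omega) p1] at hDn hDn1
  rw [(G1G_eq hp (by omega : 2 ≤ z) p1).1]
  unfold YP
  exact sel_abs (z := z) (a := R.a) (r0 := R.r0) (r1 := R.q0) (Ps R z p1)
    (fun p hp' => (UF_Ps_mem hp (by omega) hp').1) (by omega) (by have := hp.sums.1; omega) hp.hr0 hDn hDn1 R.q0 R.I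
    (2 * R.u) s i β

theorem UF_selP_supp (hp : ParG R C Cq Cm c cD Λ δ) (hB : BaseG R cD e z p1) (hh : h.card = R.k) (s : ℕ) (i : ↥h)
    {β : Ps R z p1 → Option (↥h ⊕ ↥K)} (hβ : ySel (Ps R z p1) z s (Sum.inl i) (YP R z p1 h K) β ≠ 0) :
    rr (sp (Ps R z p1) β) ≤ (z : ℝ) ^ (2 * R.u + 2 * R.q0 + s) ∧
      rr (sp (Ps R z p1) (rem (Ps R z p1) (Sum.inl i) β)) ≤ (z : ℝ) ^ (2 * R.u + 2 * R.q0) ∧
      rr (fb (Ps R z p1) β (Sum.inl i)) ≤ (z : ℝ) ^ s ∧ (insert (Sum.inl i) (sui (Ps R z p1) β)).card ≤ R.K := by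
  have hz3 : 3 ≤ z := hB.1
  have hK2 : 2 * R.q0 ≤ (2 * R.A2 ^ R.I2) * R.r0 := by
    show 2 * (R.A2 ^ R.I2 * R.r0) ≤ _
    exact le_of_eq (by ring)
  unfold YP at hβ
  have h1 := sel_supp (z := z) (a := R.a) (r0 := R.r0) (r1 := R.q0) (Kν := 2 * R.A2 ^ R.I2) (β := β) (Ps R z p1)
    (fun p hp' => (UF_Ps_mem hp (by omega) hp').1) (by omega) (by have := hp.sums.1; omega) hp.hr0 hK2 R.q0 R.I
    (2 * R.u) s i hβ
  obtain ⟨h2, h3, h4, h5⟩ := h1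
  refine ⟨h2, h3, h4, h5.trans (le_of_eq ?_)⟩
  rw [Fintype.card_coe, hh]
  rfl

theorem UF_selP2_abs (hp : ParG R C Cq Cm c cD Λ δ) (hB : BaseG R cD e z p1) (s : ℕ) (i i' : ↥h) (hne : i ≠ i')
    (β : Ps R z p1 → Option (↥h ⊕ ↥K)) :
    |ySel (Ps R z p1) z s (Sum.inl i') (ySel (Ps R z p1) z s (Sum.inl i) (YP R z p1 h K)) β| ≤ G1G R z p1 ^ 2 := by
  have hz3 : 3 ≤ z := hB.1
  have hDn := hB.2.2.2.2.1
  have hDn1 := hB.2.2.2.2.2.2.1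
  rw [Dn_eq hp (by omega) p1] at hDn hDn1
  rw [(G1G_eq hp (by omega : 2 ≤ z) p1).1]
  unfold YP
  exact sel2_abs (z := z) (a := R.a) (r0 := R.r0) (r1 := R.q0) (Ps R z p1)
    (fun p hp' => (UF_Ps_mem hp (by omega) hp').1) (by omega) (by have := hp.sums.1; omega) hp.hr0 hDn hDn1 R.q0 R.I
    (2 * R.u) s i i' hne β

theorem UF_selP2_supp (hp : ParG R C Cq Cm c cD Λ δ) (hB : BaseG R cD e z p1) (hh : h.card = R.k) (s : ℕ) (i i' : ↥h)
    (hne : i ≠ i') {β : Ps R z p1 → Option (↥h ⊕ ↥K)}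
    (hβ : ySel (Ps R z p1) z s (Sum.inl i') (ySel (Ps R z p1) z s (Sum.inl i) (YP R z p1 h K)) β ≠ 0) :
    rr (sp (Ps R z p1) β) ≤ (z : ℝ) ^ (2 * R.u + 2 * R.q0 + 2 * s) ∧
      ({Sum.inl i, Sum.inl i'} ∪ sui (Ps R z p1) β).card ≤ R.K := by
  have hz3 : 3 ≤ z := hB.1
  have hK2 : 2 * R.q0 ≤ (2 * R.A2 ^ R.I2) * R.r0 := by
    show 2 * (R.A2 ^ R.I2 * R.r0) ≤ _
    exact le_of_eq (by ring)
  unfold YP at hβ
  have h1 := sel2_supp (z := z) (a := R.a) (r0 := R.r0) (r1 := R.q0) (Kν := 2 * R.A2 ^ R.I2) (β := β) (Ps R z p1)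
    (fun p hp' => (UF_Ps_mem hp (by omega) hp').1) (by omega) (by have := hp.sums.1; omega) hp.hr0 hK2 R.q0 R.I
    (2 * R.u) s i i' hne hβ
  obtain ⟨h2, h3⟩ := h1
  refine ⟨h2, h3.trans (le_of_eq ?_)⟩
  rw [Fintype.card_coe, hh]
  rfl

theorem UF_V0 (z p1 : ℕ) (B : Finset ℕ) : 0 ≤ VP (P0 z p1) B := VP_nonneg _ (fun p hp' => (mem_P0.1 hp').2.1) B

/-- the diagonal with one Selberg factor -/
theorem UF_selP_dg (hp : ParG R C Cq Cm c cD Λ δ) (hB : BaseG R cD e z p1) (hh : h.card = R.k) (s : ℕ) (i : ↥h)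
    (hG : ∀ S ⊆ Ps R z p1, S.card ≤ 12 * R.q → (1 - δ / 16) * Gs R z p1 ≤ Gn (Ps R z p1 \ S) z s) :
    dgV (Ps R z p1) (VP (P0 z p1)) (bS h K) h (ySel (Ps R z p1) z s (Sum.inl i) (YP R z p1 h K)) ≤
      1 / (1 - δ / 16) * m1 R z p1 h K := by
  obtain ⟨hq0, hk, hu, hq0u, hq0u', hM, hk2, hk21, huk, hk1q, _, _⟩ := prm_le hp
  have hδ := hp.hδ
  have hδ1 := hp.hδ1
  have hz3 : 3 ≤ z := hB.1
  have hGs1 : 1 ≤ Gs R z p1 := one_le_gs (by omega) p1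
  have hGm : 0 < (1 - δ / 16) * Gs R z p1 := mul_pos (by linarith) (by linarith)
  have hdg := dgSel_le (z := z) (a := R.a) (r0 := R.r0) (r1 := R.q0) (Ps R z p1)
    (fun p hp' => (UF_Ps_mem hp (by omega) hp').1) (by omega) (by have := hp.sums.1; omega) hp.hr0 R.q0 R.I
    (2 * R.u) s (VP (P0 z p1)) (UF_V0 z p1) (bS h K) h
    (fun i => i.2) i hGm (fun S hS hrS => hG S hS (by
      have := UF_card_le (by omega : 2 ≤ z) (fun p hp' => (UF_Ps_mem hp (by omega) hp').2.1) hS hrS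
      omega))
  have hdgE : dgV (Ps R z p1) (VP (P0 z p1)) (fun j : ↥K => bS h K (Sum.inr j)) h
      (y5 (Ps R z p1) z R.r0 R.q0) = DKG R z p1 h K := (DKG_eq hp (by omega) p1 h K).symm
  obtain ⟨hG1e, hG2e⟩ := G1G_eq hp (by omega : 2 ≤ z) p1
  rw [hdgE, ← hG1e, ← hG2e, Fintype.card_coe, hh] at hdg
  unfold YP
  refine hdg.trans (le_of_eq ?_)
  unfold m1
  have h5 : (1 - δ / 16) ≠ 0 := by
    have : 0 < 1 - δ / 16 := by linarith
    exact this.ne'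
  field_simp

/-- the diagonal with two Selberg factors -/
theorem UF_selP2_dg (hp : ParG R C Cq Cm c cD Λ δ) (hB : BaseG R cD e z p1) (hh : h.card = R.k) (s : ℕ) (i i' : ↥h)
    (hne : i ≠ i') (hs : s ≤ R.q)
    (hG : ∀ S ⊆ Ps R z p1, S.card ≤ 12 * R.q → (1 - δ / 16) * Gs R z p1 ≤ Gn (Ps R z p1 \ S) z s) :
    dgV (Ps R z p1) (VP (P0 z p1)) (bS h K) h
        (ySel (Ps R z p1) z s (Sum.inl i') (ySel (Ps R z p1) z s (Sum.inl i) (YP R z p1 h K))) ≤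
      1 / (1 - δ / 16) ^ 3 * m2 R z p1 h K := by
  obtain ⟨hq0, hk, hu, hq0u, hq0u', hM, hk2, hk21, huk, hk1q, _, _⟩ := prm_le hp
  have hδ := hp.hδ
  have hδ1 := hp.hδ1
  have hz3 : 3 ≤ z := hB.1
  have hGs1 : 1 ≤ Gs R z p1 := one_le_gs (by omega) p1
  have hGm : 0 < (1 - δ / 16) * Gs R z p1 := mul_pos (by linarith) (by linarith)
  have hdg := dgSel2_le (z := z) (a := R.a) (r0 := R.r0) (r1 := R.q0) (Ps R z p1)
    (fun p hp' => (UF_Ps_mem hp (by omega) hp').1) (by omega) (by have := hp.sums.1; omega) hp.hr0 R.q0 R.I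
    (2 * R.u) s (VP (P0 z p1)) (UF_V0 z p1) (bS h K) h
    (fun i => i.2) i i' hne hGm (fun S hS hrS => hG S hS (by
      have := UF_card_le (by omega : 2 ≤ z) (fun p hp' => (UF_Ps_mem hp (by omega) hp').2.1) hS hrS
      omega))
  have hdgE : dgV (Ps R z p1) (VP (P0 z p1)) (fun j : ↥K => bS h K (Sum.inr j)) h
      (y5 (Ps R z p1) z R.r0 R.q0) = DKG R z p1 h K := (DKG_eq hp (by omega) p1 h K).symm
  obtain ⟨hG1e, hG2e⟩ := G1G_eq hp (by omega : 2 ≤ z) p1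
  rw [hdgE, ← hG1e, ← hG2e, Fintype.card_coe, hh] at hdg
  unfold YP
  refine hdg.trans ?_
  have h5 : 0 < 1 - δ / 16 := by linarith
  have hGn : Gn (Ps R z p1) z s ≤ Gs R z p1 := by
    have h6 := gn_le_gs (R := R) (by omega : 1 ≤ z) p1 s ∅
    rwa [Finset.sdiff_empty] at h6
  have hDK0 : 0 ≤ DKG R z p1 h K := (UF_V0 z p1 h).trans (DKG_ge hp hB h K)
  obtain ⟨hG11, hG21⟩ := one_le_G hB
  have hA : 0 ≤ G1G R z p1 ^ 4 * G2G R z p1 ^ (R.k - 2) * DKG R z p1 h K := by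
    have : 0 ≤ G2G R z p1 := by linarith
    positivity
  have hGsp : 0 < Gs R z p1 := by linarith
  calc G1G R z p1 ^ 4 * G2G R z p1 ^ (R.k - 2) * Gn (Ps R z p1) z s / ((1 - δ / 16) * Gs R z p1) ^ 3 *
        DKG R z p1 h K
      = G1G R z p1 ^ 4 * G2G R z p1 ^ (R.k - 2) * DKG R z p1 h K * Gn (Ps R z p1) z s /
          ((1 - δ / 16) * Gs R z p1) ^ 3 := by ring
    _ ≤ G1G R z p1 ^ 4 * G2G R z p1 ^ (R.k - 2) * DKG R z p1 h K * Gs R z p1 /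
          ((1 - δ / 16) * Gs R z p1) ^ 3 := by
        refine div_le_div_of_nonneg_right (mul_le_mul_of_nonneg_left hGn hA) (by positivity)
    _ = 1 / (1 - δ / 16) ^ 3 * m2 R z p1 h K := by
        unfold m2
        have := h5.ne'
        field_simp

theorem UF_m1 (hp : ParG R C Cq Cm c cD Λ δ) (hB : BaseG R cD e z p1) : 0 ≤ m1 R z p1 h K := by
  have hz3 : 3 ≤ z := hB.1
  have hDK0 : 0 ≤ DKG R z p1 h K := (UF_V0 z p1 h).trans (DKG_ge hp hB h K)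
  obtain ⟨hG11, hG21⟩ := one_le_G hB
  have hGs1 : 1 ≤ Gs R z p1 := one_le_gs (by omega) p1
  have : 0 ≤ G2G R z p1 := by linarith
  unfold m1
  positivity

theorem UF_m2 (hp : ParG R C Cq Cm c cD Λ δ) (hB : BaseG R cD e z p1) : 0 ≤ m2 R z p1 h K := by
  have hz3 : 3 ≤ z := hB.1
  have hDK0 : 0 ≤ DKG R z p1 h K := (UF_V0 z p1 h).trans (DKG_ge hp hB h K)
  obtain ⟨hG11, hG21⟩ := one_le_G hB
  have hGs1 : 1 ≤ Gs R z p1 := one_le_gs (by omega) p1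
  have : 0 ≤ G2G R z p1 := by linarith
  unfold m2
  positivity

/-- on numbers without a prime of `Ps`: the weight with one Selberg factor; squares -/
theorem UF_PsG_sel (hp : ParG R C Cq Cm c cD Λ δ) (hz : 2 ≤ z) (s : ℕ) (i : ↥h) (n : ℕ)
    (hr : ∀ p ∈ Ps R z p1, ¬ p ∣ n + (i : ℕ)) : PsG R z p1 h K n = 0 ∨
      ((∀ p ∈ P0 z p1, ¬ p ∣ n + (i : ℕ)) ∧ PsG R z p1 h K n =
        PhiS (Ps R z p1) (P0 z p1) (bS h K) (ySel (Ps R z p1) z s (Sum.inl i) (YP R z p1 h K)) h n) := by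
  by_cases hr0 : ∀ p ∈ P0 z p1, ¬ p ∣ n + (i : ℕ)
  · refine Or.inr ⟨hr0, ?_⟩
    rw [PsG_eq hp hz p1 h K n]
    exact collapseSel (Ps R z p1) (P0 z p1) (fun p hp' => (UF_Ps_mem hp (by omega) hp').1) z s (by omega) (bS h K)
      (Sum.inl i) n hr0 hr (YP R z p1 h K) h
  · left
    rw [PsG_eq hp hz p1 h K n, PhiS_rho]
    have : rhoP (P0 z p1) h n = 0 := by
      unfold rhoP
      rw [if_neg]
      intro hh
      exact hr0 (hh i i.2)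
    rw [this, zero_mul]

end

end Pool.Agent.LibFB63
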