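import Pool.Agent.LibFB63.Defs
import Pool.Agent.LibSC93.J1

/-!
Row UL1 (restriction to `P \ S`, and the split at a prime `q ∈ P`). `ext P S α : P → Option ι` is `α` on `P \ S` and `none` on `S` (LibSC93/Defs.lean); `sum_ext`, `sp_ext`, `fb_ext`, `ext_ne` are in LibSC93/J1.lean.
`PhiS_ext`, `dgV_ext`: `y β = if (∀ p, ↑p ∈ S → β p = none) then y β else 0`, then `sum_ext`, `su_ext`, `ee_ext`, `sp_ext`.
`sum_split_q`: the map `(α, o) ↦ (p ↦ o for p = q, α p otherwise)` is a bijection; or: split the sum over `β` by the value `β ⟨q, hq⟩ ∈ Option ι` (`Fintype.sum_option`), and for the fibre of `some i` use `β ↦ (β with none at q)` and `sum_ext` with `S = {q}`.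
`ins P i {q} β` gives the value `some i` to `q` and does not change the others (LibLG5/Defs.lean).
`PhiS_split_q`: `sum_split_q`; the term of `some i` has the factor `psi q (n + b i)`, which is `-1` for `i = i0` and `1/(q - 1)` otherwise; `su P b (ins P i {q} (ext P {q} α)) = insert (b i) (su (P \ {q}) b α)`;
`E ∪ insert (b i) B = insert (b i) E ∪ B`, and it is `E ∪ B` for `i = i0` because `b i0 ∈ E`.
-/

open Finset

namespace Pool.Agent.LibFB63

open Pool.Agent.LibRG87 Pool.Agent.LibLG5 Pool.Agent.LibPL63 Pool.Agent.LibSC93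

variable {ι : Type} [Fintype ι] [DecidableEq ι] (P : Finset ℕ)

omit [Fintype ι] [DecidableEq ι] in
private theorem UL1_ext_mem (S : Finset ℕ) (α : ↥(P \ S) → Option ι) (p : P) (h : (p : ℕ) ∈ P \ S) :
    ext P S α p = α ⟨p, h⟩ := dif_pos h

omit [Fintype ι] [DecidableEq ι] in
private theorem UL1_ext_not (S : Finset ℕ) (α : ↥(P \ S) → Option ι) (p : P) (h : (p : ℕ) ∉ P \ S) :
    ext P S α p = none := dif_neg h

private theorem UL1_mem_sui {Q : Finset ℕ} {β : Q → Option ι} {i : ι} : i ∈ sui Q β ↔ ∃ p, β p = some i := by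
  unfold sui
  simp only [Finset.mem_filter, Finset.mem_univ, true_and]

theorem sui_ext (S : Finset ℕ) (α : ↥(P \ S) → Option ι) : sui P (ext P S α) = sui (P \ S) α := by
  ext i
  rw [UL1_mem_sui, UL1_mem_sui]
  constructor
  · rintro ⟨p, hp⟩
    by_cases h : (p : ℕ) ∈ P \ S
    · exact ⟨⟨p, h⟩, by rw [← UL1_ext_mem P S α p h]; exact hp⟩
    · rw [UL1_ext_not P S α p h] at hp
      exact absurd hp (by simp)
  · rintro ⟨p, hp⟩
    exact ⟨⟨p, (Finset.mem_sdiff.1 p.2).1⟩, by rw [UL1_ext_mem P S α _ p.2]; exact hp⟩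

theorem su_ext (b : ι → ℕ) (S : Finset ℕ) (α : ↥(P \ S) → Option ι) : su P b (ext P S α) = su (P \ S) b α := by
  unfold su
  rw [sui_ext]

theorem ee_ext (b : ι → ℕ) (S : Finset ℕ) (α : ↥(P \ S) → Option ι) (n : ℕ) :
    ee P b (ext P S α) n = ee (P \ S) b α n := by
  classical
  obtain ⟨G, hG1, hG2⟩ : ∃ G : ℕ → ℝ, (∀ (p : ℕ) (h : p ∈ P \ S), G p = loc b p (α ⟨p, h⟩) n) ∧
      ∀ p : ℕ, p ∉ P \ S → G p = 1 :=
    ⟨fun p => if h : p ∈ P \ S then loc b p (α ⟨p, h⟩) n else 1, fun p h => dif_pos h, fun p h => dif_neg h⟩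
  have h1 : ee P b (ext P S α) n = ∏ p ∈ P, G p := by
    rw [← Finset.prod_coe_sort P G]
    refine Finset.prod_congr rfl fun p _ => ?_
    by_cases h : (p : ℕ) ∈ P \ S
    · rw [UL1_ext_mem P S α p h]
      exact (hG1 p h).symm
    · rw [UL1_ext_not P S α p h]
      exact (hG2 p h).symm
  have h2 : ee (P \ S) b α n = ∏ p ∈ P \ S, G p := by
    rw [← Finset.prod_coe_sort (P \ S) G]
    exact Finset.prod_congr rfl fun p _ => (hG1 p p.2).symm
  rw [h1, h2]
  symm
  exact Finset.prod_subset Finset.sdiff_subset fun p _ hp => hG2 p hp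

/-- restriction to the primes outside `S` -/
theorem PhiS_ext (Pr : Finset ℕ) (b : ι → ℕ) (S : Finset ℕ) (y : (P → Option ι) → ℝ)
    (hy : ∀ β, (∃ p : P, (p : ℕ) ∈ S ∧ β p ≠ none) → y β = 0) (E : Finset ℕ) (n : ℕ) :
    PhiS P Pr b y E n = PhiS (P \ S) Pr b (fun α => y (ext P S α)) E n := by
  classical
  unfold PhiS
  have h1 := sum_ext P S (fun β : P → Option ι => y β * rhoP Pr (E ∪ su P b β) n * ee P b β n)
  refine Eq.trans ?_ (h1.trans (Finset.sum_congr rfl fun α _ => by rw [su_ext P b S α, ee_ext P b S α n]))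
  refine Finset.sum_congr rfl fun β _ => ?_
  split_ifs with h
  · rfl
  · push Not at h
    obtain ⟨p, hp, hβ⟩ := h
    rw [hy β ⟨p, hp, hβ⟩, zero_mul, zero_mul]

theorem dgV_ext (V : Finset ℕ → ℝ) (b : ι → ℕ) (S : Finset ℕ) (y : (P → Option ι) → ℝ)
    (hy : ∀ β, (∃ p : P, (p : ℕ) ∈ S ∧ β p ≠ none) → y β = 0) (E : Finset ℕ) :
    dgV P V b E y = dgV (P \ S) V b E (fun α => y (ext P S α)) := by
  classical
  unfold dgV
  have h1 := sum_ext P S (fun β : P → Option ι => y β ^ 2 * V (E ∪ su P b β) / ph (sp P β))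
  refine Eq.trans ?_ (h1.trans (Finset.sum_congr rfl fun α _ => by rw [su_ext P b S α, sp_ext P S α]))
  refine Finset.sum_congr rfl fun β _ => ?_
  split_ifs with h
  · rfl
  · push Not at h
    obtain ⟨p, hp, hβ⟩ := h
    rw [hy β ⟨p, hp, hβ⟩]
    simp

theorem sum_split_q {q : ℕ} (hq : q ∈ P) (F : (P → Option ι) → ℝ) :
    ∑ β, F β = ∑ α : ↥(P \ {q}) → Option ι, (F (ext P {q} α) + ∑ i, F (ins P i {q} (ext P {q} α))) := by
  classical
  have hqn : q ∉ P \ {q} := fun h => (Finset.mem_sdiff.1 h).2 (Finset.mem_singleton_self q)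
  let J : (↥(P \ {q}) → Option ι) → Option ι → (P → Option ι) := fun α o =>
    match o with
    | none => ext P {q} α
    | some i => ins P i {q} (ext P {q} α)
  have hJq : ∀ α o, J α o ⟨q, hq⟩ = o := by
    intro α o
    rcases o with _ | i
    · exact UL1_ext_not P {q} α ⟨q, hq⟩ hqn
    · show ins P i {q} (ext P {q} α) ⟨q, hq⟩ = some i
      unfold ins
      exact if_pos (Finset.mem_singleton_self q)
  have hJp : ∀ α o (p : P) (h : (p : ℕ) ∈ P \ {q}), J α o p = α ⟨p, h⟩ := by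
    intro α o p h
    rcases o with _ | i
    · exact UL1_ext_mem P {q} α p h
    · show ins P i {q} (ext P {q} α) p = _
      unfold ins
      rw [if_neg (Finset.mem_sdiff.1 h).2]
      exact UL1_ext_mem P {q} α p h
  have h1 : ∑ α : ↥(P \ {q}) → Option ι, (F (ext P {q} α) + ∑ i, F (ins P i {q} (ext P {q} α))) =
      ∑ α : ↥(P \ {q}) → Option ι, ∑ o : Option ι, F (J α o) := by
    refine Finset.sum_congr rfl fun α _ => ?_
    rw [Fintype.sum_option]
  rw [h1, ← Fintype.sum_prod_type' (fun (α : ↥(P \ {q}) → Option ι) (o : Option ι) => F (J α o))]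
  symm
  refine Finset.sum_bij' (fun x _ => J x.1 x.2)
    (fun β _ => (fun p : ↥(P \ {q}) => β ⟨p, (Finset.mem_sdiff.1 p.2).1⟩, β ⟨q, hq⟩)) ?_ ?_ ?_ ?_ ?_
  · intro x _
    exact Finset.mem_univ _
  · intro β _
    exact Finset.mem_univ _
  · rintro ⟨α, o⟩ _
    refine Prod.ext ?_ ?_
    · funext p
      exact hJp α o ⟨p, (Finset.mem_sdiff.1 p.2).1⟩ p.2
    · exact hJq α o
  · intro β _
    funext p
    by_cases h : (p : ℕ) ∈ P \ {q}
    · exact hJp _ _ p h
    · have hpq : (p : ℕ) = q := by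
        by_contra hne
        exact h (Finset.mem_sdiff.2 ⟨p.2, fun h' => hne (Finset.mem_singleton.1 h')⟩)
      have hp' : p = ⟨q, hq⟩ := Subtype.ext hpq
      rw [hp']
      exact hJq _ _
  · intro x _
    rfl

omit [Fintype ι] [DecidableEq ι] in
private theorem UL1_ins_q {q : ℕ} (hq : q ∈ P) (i : ι) (β : P → Option ι) :
    ins P i {q} β ⟨q, hq⟩ = some i := by
  unfold ins
  exact if_pos (Finset.mem_singleton_self q)

omit [Fintype ι] [DecidableEq ι] in
private theorem UL1_ins_ne {q : ℕ} (i : ι) (β : P → Option ι) (p : P) (h : (p : ℕ) ≠ q) :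
    ins P i {q} β p = β p := by
  unfold ins
  exact if_neg (fun h' => h (Finset.mem_singleton.1 h'))

theorem sp_ins_q {q : ℕ} (hq : q ∈ P) (i : ι) (α : ↥(P \ {q}) → Option ι) :
    sp P (ins P i {q} (ext P {q} α)) = insert q (sp (P \ {q}) α) ∧ q ∉ sp (P \ {q}) α := by
  have hqn : q ∉ P \ {q} := fun h => (Finset.mem_sdiff.1 h).2 (Finset.mem_singleton_self q)
  refine ⟨?_, fun h => hqn (sp_subset (P \ {q}) α h)⟩
  rw [← sp_ext P {q} α]
  ext p
  rw [Finset.mem_insert, mem_sp, mem_sp]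
  constructor
  · rintro ⟨h, h1⟩
    by_cases hpq : p = q
    · exact Or.inl hpq
    · right
      exact ⟨h, by rwa [UL1_ins_ne P i _ ⟨p, h⟩ hpq] at h1⟩
  · rintro (rfl | ⟨h, h1⟩)
    · exact ⟨hq, by rw [UL1_ins_q P hq]; simp⟩
    · by_cases hpq : p = q
      · subst hpq
        exact ⟨hq, by rw [UL1_ins_q P hq]; simp⟩
      · exact ⟨h, by rwa [UL1_ins_ne P i _ ⟨p, h⟩ hpq]⟩

theorem su_ins_q {q : ℕ} (hq : q ∈ P) (b : ι → ℕ) (i : ι) (α : ↥(P \ {q}) → Option ι) :
    su P b (ins P i {q} (ext P {q} α)) = insert (b i) (su (P \ {q}) b α) := by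
  have hqn : q ∉ P \ {q} := fun h => (Finset.mem_sdiff.1 h).2 (Finset.mem_singleton_self q)
  unfold su
  rw [← Finset.image_insert, ← sui_ext P {q} α]
  congr 1
  ext j
  rw [Finset.mem_insert, UL1_mem_sui, UL1_mem_sui]
  constructor
  · rintro ⟨p, hp⟩
    by_cases hpq : (p : ℕ) = q
    · have hp' : p = ⟨q, hq⟩ := Subtype.ext hpq
      rw [hp', UL1_ins_q P hq] at hp
      exact Or.inl (Option.some.inj hp).symm
    · right
      exact ⟨p, by rwa [UL1_ins_ne P i _ p hpq] at hp⟩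
  · rintro (rfl | ⟨p, hp⟩)
    · exact ⟨⟨q, hq⟩, UL1_ins_q P hq _ _⟩
    · refine ⟨p, ?_⟩
      by_cases hpq : (p : ℕ) = q
      · exfalso
        rw [UL1_ext_not P {q} α p (by rw [hpq]; exact hqn)] at hp
        exact absurd hp (by simp)
      · rwa [UL1_ins_ne P i _ p hpq]

theorem ee_ins_q {q : ℕ} (hq : q ∈ P) (b : ι → ℕ) (i : ι) (α : ↥(P \ {q}) → Option ι) (n : ℕ) :
    ee P b (ins P i {q} (ext P {q} α)) n = psi q (n + b i) * ee (P \ {q}) b α n := by
  classical
  have hqn : q ∉ P \ {q} := fun h => (Finset.mem_sdiff.1 h).2 (Finset.mem_singleton_self q)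
  rw [← ee_ext P b {q} α n]
  unfold ee
  rw [← Finset.mul_prod_erase Finset.univ (fun p : P => loc b (p : ℕ) (ins P i {q} (ext P {q} α) p) n)
      (Finset.mem_univ (⟨q, hq⟩ : P)),
    ← Finset.mul_prod_erase Finset.univ (fun p : P => loc b (p : ℕ) (ext P {q} α p) n)
      (Finset.mem_univ (⟨q, hq⟩ : P))]
  have h1 : loc b ((⟨q, hq⟩ : P) : ℕ) (ins P i {q} (ext P {q} α) ⟨q, hq⟩) n = psi q (n + b i) := by
    rw [UL1_ins_q P hq]
    rfl
  have h2 : loc b ((⟨q, hq⟩ : P) : ℕ) (ext P {q} α ⟨q, hq⟩) n = 1 := by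
    rw [UL1_ext_not P {q} α ⟨q, hq⟩ hqn]
    rfl
  rw [h1, h2, one_mul]
  congr 1
  refine Finset.prod_congr rfl fun p hp => ?_
  rw [UL1_ins_ne P i _ p (fun h => (Finset.mem_erase.1 hp).1 (Subtype.ext h))]

/-- the split at a prime `q` which divides `n + b i0` -/
theorem PhiS_split_q (Pr : Finset ℕ) (b : ι → ℕ) {q : ℕ} (hq : q ∈ P) (i0 : ι) (n : ℕ) (hn : q ∣ n + b i0)
    (hn' : ∀ i, i ≠ i0 → ¬ q ∣ n + b i) (y : (P → Option ι) → ℝ) (E : Finset ℕ) (hE : b i0 ∈ E) :
    PhiS P Pr b y E n =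
      PhiS (P \ {q}) Pr b (fun α => y (ext P {q} α) - y (ins P i0 {q} (ext P {q} α))) E n +
        1 / ((q : ℝ) - 1) * ∑ i ∈ univ.erase i0,
          PhiS (P \ {q}) Pr b (fun α => y (ins P i {q} (ext P {q} α))) (insert (b i) E) n := by
  classical
  unfold PhiS
  rw [sum_split_q P hq]
  have h1 : ∀ α : ↥(P \ {q}) → Option ι, ∀ i : ι,
      y (ins P i {q} (ext P {q} α)) * rhoP Pr (E ∪ su P b (ins P i {q} (ext P {q} α))) n *
        ee P b (ins P i {q} (ext P {q} α)) n =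
      psi q (n + b i) * (y (ins P i {q} (ext P {q} α)) *
        rhoP Pr (insert (b i) E ∪ su (P \ {q}) b α) n * ee (P \ {q}) b α n) := by
    intro α i
    rw [su_ins_q P hq, ee_ins_q P hq, Finset.union_insert, Finset.insert_union]
    ring
  have h2 : ∀ α : ↥(P \ {q}) → Option ι,
      (y (ext P {q} α) * rhoP Pr (E ∪ su P b (ext P {q} α)) n * ee P b (ext P {q} α) n +
        ∑ i, y (ins P i {q} (ext P {q} α)) * rhoP Pr (E ∪ su P b (ins P i {q} (ext P {q} α))) n *
          ee P b (ins P i {q} (ext P {q} α)) n) =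
      (y (ext P {q} α) - y (ins P i0 {q} (ext P {q} α))) * rhoP Pr (E ∪ su (P \ {q}) b α) n *
          ee (P \ {q}) b α n +
        ∑ i ∈ univ.erase i0, 1 / ((q : ℝ) - 1) * (y (ins P i {q} (ext P {q} α)) *
          rhoP Pr (insert (b i) E ∪ su (P \ {q}) b α) n * ee (P \ {q}) b α n) := by
    intro α
    rw [← Finset.add_sum_erase Finset.univ _ (Finset.mem_univ i0), h1 α i0, su_ext, ee_ext,
      Finset.insert_eq_of_mem hE]
    have h3 : psi q (n + b i0) = -1 := by
      unfold psi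
      rw [if_pos hn]
    rw [h3]
    have h4 : ∑ i ∈ univ.erase i0, y (ins P i {q} (ext P {q} α)) *
          rhoP Pr (E ∪ su P b (ins P i {q} (ext P {q} α))) n * ee P b (ins P i {q} (ext P {q} α)) n =
        ∑ i ∈ univ.erase i0, 1 / ((q : ℝ) - 1) * (y (ins P i {q} (ext P {q} α)) *
          rhoP Pr (insert (b i) E ∪ su (P \ {q}) b α) n * ee (P \ {q}) b α n) := by
      refine Finset.sum_congr rfl fun i hi => ?_
      rw [h1 α i]
      congr 1
      unfold psi
      rw [if_neg (hn' i (Finset.mem_erase.1 hi).1)]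
    rw [h4]
    ring
  rw [Finset.sum_congr rfl fun α _ => h2 α, Finset.sum_add_distrib, Finset.sum_comm]
  congr 1
  rw [Finset.mul_sum]
  refine Finset.sum_congr rfl fun i _ => ?_
  rw [Finset.mul_sum]

end Pool.Agent.LibFB63
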