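import Pool.Agent.LibFB63.UL1
import Pool.Agent.LibGL22.Z0

/-!
Row UL2 (diagonals of the two parts of the split at `q`). Cite UL1.
`dgV_pieces`: `su_ins_q`, `sp_ins_q` (`ph (insert q A) = (q - 1) ph A`): the term of `(i, α)` on the left is `(q - 1)` times the term of `β = ins P i {q} (ext P {q} α)` of `dgV P V b E y`; the terms of `ext P {q} α` and `i = i0` on the right are `≥ 0` (`sum_split_q`).
`dgV_bracket`: `D α := ySel … (ext α) - ySel … (ins i0 {q} (ext α))`. With `β = ext P {q} α`: `rem P i0 β = rem P i0 (ins P i0 {q} β)` (as `β q = none`), `fb P (ins P i0 {q} β) i0 = insert q (fb P β i0)`, so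
`D α = yCol (rem P i0 β)/Gn (P \ sp P (rem P i0 β)) z s` if `rr A ≤ z^s < rr A * q` (`A = fb P β i0`), and `0` otherwise (`q ≥ 1`). Hence `dgV (P \ {q}) … D` is, by `dgV_ext`/`sum_ext` (`S = {q}`) and `split` at `i0` (LibLG5/M4.lean: `fb_ins_self`,
`rem_ins`, `ph_sp_ins`; `E ∪ su P b (ins …) = E ∪ su P b γ` because `b i0 ∈ E`), the sum over `γ` avoiding `i0`, `γ q = none`, and `A ⊆ P \ sp P γ`, `q ∉ A`, of
`(yCol γ/Gn (P \ sp P γ) z s)² [z^s < rr A * q, rr A ≤ z^s] V (E ∪ su P b γ)/(ph A * ph (sp P γ))`. Bound `1/Gn² ≤ 1/Gm²` (where `yCol γ ≠ 0`) and the sum over `A` by `tl P z s q` (subset of `(P.erase q).powerset`).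
Model: `dgV_ySel` in LibGL22/Z0.lean.
-/

open Finset

namespace Pool.Agent.LibFB63

open Pool.Agent.LibRG87 Pool.Agent.LibLG5 Pool.Agent.LibPL63 Pool.Agent.LibSC93 Pool.Agent.LibGL22

variable {ι : Type} [Fintype ι] [DecidableEq ι] (P : Finset ℕ)

private theorem UL2_su_ins (b : ι → ℕ) (i : ι) {A : Finset ℕ} {β : P → Option ι}
    (hβ : ∀ p, β p ≠ some i) (hA : A ⊆ P \ sp P β) :
    insert (b i) (su P b (ins P i A β)) = insert (b i) (su P b β) := by
  unfold su
  rw [sui_ins P i hβ hA]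
  split_ifs
  · rfl
  · rw [Finset.image_insert]
    exact Finset.insert_idem _ _

omit [Fintype ι] [DecidableEq ι] in
private theorem UL2_ins_ins (i : ι) (q : ℕ) (A : Finset ℕ) (γ : P → Option ι) :
    ins P i {q} (ins P i A γ) = ins P i (insert q A) γ := by
  funext p
  unfold ins
  by_cases h1 : (p : ℕ) = q
  · rw [if_pos (by rw [Finset.mem_singleton]; exact h1), if_pos (by rw [Finset.mem_insert]; exact Or.inl h1)]
  · rw [if_neg (by rw [Finset.mem_singleton]; exact h1)]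
    by_cases h2 : (p : ℕ) ∈ A
    · rw [if_pos h2, if_pos (Finset.mem_insert_of_mem h2)]
    · rw [if_neg h2, if_neg]
      rw [Finset.mem_insert]
      rintro (h3 | h3)
      · exact h1 h3
      · exact h2 h3

private theorem UL2_rr_insert {q : ℕ} {A : Finset ℕ} (hqA : q ∉ A) : rr (insert q A) = rr A * q := by
  unfold rr
  rw [Finset.prod_insert hqA, mul_comm]

private theorem UL2_rr_pos (hP : ∀ p ∈ P, Nat.Prime p) {A : Finset ℕ} (hA : A ⊆ P) : 0 < rr A := by
  unfold rr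
  refine Finset.prod_pos fun p hp => ?_
  exact_mod_cast (hP p (hA hp)).pos

open scoped Classical in
private theorem UL2_term (hP : ∀ p ∈ P, Nat.Prime p) {z s : ℕ} {q : ℕ} (hq : q ∈ P)
    (V : Finset ℕ → ℝ) (b : ι → ℕ) (E : Finset ℕ) (i0 : ι) (hE : b i0 ∈ E)
    (y : (P → Option ι) → ℝ) {γ : P → Option ι} (hγ : ∀ p, γ p ≠ some i0) {A : Finset ℕ}
    (hA : A ⊆ P \ sp P γ) (hqA : q ∉ A) (hqγ : q ∉ sp P γ) :
    (ySel P z s i0 y (ins P i0 A γ) - ySel P z s i0 y (ins P i0 {q} (ins P i0 A γ))) ^ 2 *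
        V (E ∪ su P b (ins P i0 A γ)) / ph (sp P (ins P i0 A γ)) =
      (if (z : ℝ) ^ s < rr A * q ∧ rr A ≤ (z : ℝ) ^ s then 1 / ph A else 0) *
        ((yCol P i0 y γ / Gn (P \ sp P γ) z s) ^ 2 * (V (E ∪ su P b γ) / ph (sp P γ))) := by
  have hq1 : (1 : ℝ) ≤ (q : ℝ) := by exact_mod_cast (hP q hq).one_lt.le
  have hA2 : insert q A ⊆ P \ sp P γ := by
    intro x hx
    rw [Finset.mem_insert] at hx
    rcases hx with hx | hx
    · rw [hx]
      exact Finset.mem_sdiff.2 ⟨hq, hqγ⟩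
    · exact hA hx
  have hAP : A ⊆ P := fun x hx => (Finset.mem_sdiff.1 (hA hx)).1
  have h1 : E ∪ su P b (ins P i0 A γ) = E ∪ su P b γ := by
    have h2 := UL2_su_ins P b i0 hγ hA
    have h4 : ∀ B : Finset ℕ, E ∪ insert (b i0) B = E ∪ B := by
      intro B
      rw [Finset.union_insert, Finset.insert_eq_self]
      exact Finset.mem_union_left _ hE
    rw [← h4 (su P b (ins P i0 A γ)), ← h4 (su P b γ), h2]
  have h5 : ySel P z s i0 y (ins P i0 A γ) =
      if rr A ≤ (z : ℝ) ^ s then yCol P i0 y γ / Gn (P \ sp P γ) z s else 0 := by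
    unfold ySel
    rw [fb_ins_self P i0 hγ hA, rem_ins P i0 hγ hA]
  have h6 : ySel P z s i0 y (ins P i0 {q} (ins P i0 A γ)) =
      if rr A * q ≤ (z : ℝ) ^ s then yCol P i0 y γ / Gn (P \ sp P γ) z s else 0 := by
    rw [UL2_ins_ins]
    unfold ySel
    rw [fb_ins_self P i0 hγ hA2, rem_ins P i0 hγ hA2, UL2_rr_insert hqA]
  rw [h1, h5, h6, ph_sp_ins P i0 hγ hA]
  have hrr : 0 < rr A := UL2_rr_pos P hP hAP
  have hle : rr A ≤ rr A * q := by nlinarith
  by_cases h7 : rr A * q ≤ (z : ℝ) ^ s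
  · rw [if_pos h7, if_pos (hle.trans h7), if_neg (fun h8 => absurd h7 (not_le.2 h8.1))]
    ring
  · rw [if_neg h7]
    push Not at h7
    by_cases h8 : rr A ≤ (z : ℝ) ^ s
    · rw [if_pos h8, if_pos ⟨h7, h8⟩, one_div, div_eq_mul_inv _ (ph A * ph (sp P γ)), mul_inv,
        div_eq_mul_inv (V (E ∪ su P b γ))]
      ring
    · rw [if_neg h8, if_neg (fun h9 => h8 h9.2)]
      ring

theorem dgV_pieces (hP : ∀ p ∈ P, Nat.Prime p) {q : ℕ} (hq : q ∈ P) (V : Finset ℕ → ℝ) (hV0 : ∀ B, 0 ≤ V B)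
    (b : ι → ℕ) (E : Finset ℕ) (y : (P → Option ι) → ℝ) (i0 : ι) :
    ∑ i ∈ univ.erase i0, dgV (P \ {q}) V b (insert (b i) E) (fun α => y (ins P i {q} (ext P {q} α))) ≤
      ((q : ℝ) - 1) * dgV P V b E y := by
  have hq1 : (1 : ℝ) < (q : ℝ) := by exact_mod_cast (hP q hq).one_lt
  have hpos : ∀ β : P → Option ι, 0 ≤ y β ^ 2 * V (E ∪ su P b β) / ph (sp P β) := by
    intro β
    refine div_nonneg (mul_nonneg (sq_nonneg _) (hV0 _)) (ph_pos P hP ?_).le
    intro p hp
    obtain ⟨h, _⟩ := (mem_sp P).1 hp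
    exact h
  unfold dgV
  rw [sum_split_q P hq (fun β => y β ^ 2 * V (E ∪ su P b β) / ph (sp P β)), Finset.sum_comm,
    Finset.mul_sum]
  refine Finset.sum_le_sum fun α _ => ?_
  have h1 : ∀ i ∈ univ.erase i0, y (ins P i {q} (ext P {q} α)) ^ 2 *
      V (insert (b i) E ∪ su (P \ {q}) b α) / ph (sp (P \ {q}) α) =
      ((q : ℝ) - 1) * (y (ins P i {q} (ext P {q} α)) ^ 2 *
        V (E ∪ su P b (ins P i {q} (ext P {q} α))) / ph (sp P (ins P i {q} (ext P {q} α)))) := by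
    intro i _
    obtain ⟨h2, h3⟩ := sp_ins_q P hq i α
    rw [su_ins_q P hq, h2]
    have h4 : ph (insert q (sp (P \ {q}) α)) = ((q : ℝ) - 1) * ph (sp (P \ {q}) α) := by
      unfold ph
      rw [Finset.prod_insert h3]
    have h5 : insert (b i) E ∪ su (P \ {q}) b α = E ∪ insert (b i) (su (P \ {q}) b α) := by
      rw [Finset.insert_union, Finset.union_insert]
    have h6 : ph (sp (P \ {q}) α) ≠ 0 := by
      refine (ph_pos P hP ?_).ne'
      intro p hp
      obtain ⟨h, _⟩ := (mem_sp _).1 hp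
      exact (Finset.mem_sdiff.1 h).1
    have h7 : (q : ℝ) - 1 ≠ 0 := by linarith
    rw [h4, h5]
    field_simp
  rw [Finset.sum_congr rfl h1, ← Finset.mul_sum]
  refine mul_le_mul_of_nonneg_left ?_ (by linarith)
  have h8 : ∑ i ∈ univ.erase i0, (y (ins P i {q} (ext P {q} α)) ^ 2 *
        V (E ∪ su P b (ins P i {q} (ext P {q} α))) / ph (sp P (ins P i {q} (ext P {q} α)))) ≤
      ∑ i, (y (ins P i {q} (ext P {q} α)) ^ 2 *
        V (E ∪ su P b (ins P i {q} (ext P {q} α))) / ph (sp P (ins P i {q} (ext P {q} α)))) :=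
    Finset.sum_le_sum_of_subset_of_nonneg (Finset.erase_subset _ _) (fun i _ _ => hpos _)
  have h9 := hpos (ext P {q} α)
  linarith

theorem dgV_bracket (hP : ∀ p ∈ P, Nat.Prime p) {z s : ℕ} (hz : 1 ≤ z) {q : ℕ} (hq : q ∈ P) (V : Finset ℕ → ℝ)
    (hV0 : ∀ B, 0 ≤ V B) (b : ι → ℕ) (E : Finset ℕ) (i0 : ι) (hE : b i0 ∈ E) (y : (P → Option ι) → ℝ) {Gm : ℝ}
    (hGm : 0 < Gm) (hG : ∀ β, yCol P i0 y β ≠ 0 → Gm ≤ Gn (P \ sp P β) z s) :
    dgV (P \ {q}) V b E (fun α => ySel P z s i0 y (ext P {q} α) - ySel P z s i0 y (ins P i0 {q} (ext P {q} α))) ≤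
      tl P z s q / Gm ^ 2 * dgV P V b E (yCol P i0 y) := by
  classical
  have hph : ∀ {A : Finset ℕ}, A ⊆ P → 0 < ph A := fun hA => ph_pos P hP hA
  have hspP : ∀ β : P → Option ι, sp P β ⊆ P := by
    intro β p hp
    obtain ⟨h, _⟩ := (mem_sp P).1 hp
    exact h
  have h1 : dgV (P \ {q}) V b E
      (fun α => ySel P z s i0 y (ext P {q} α) - ySel P z s i0 y (ins P i0 {q} (ext P {q} α))) =
      ∑ α : ↥(P \ {q}) → Option ι, (fun β : P → Option ι =>
        (ySel P z s i0 y β - ySel P z s i0 y (ins P i0 {q} β)) ^ 2 * V (E ∪ su P b β) /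
          ph (sp P β)) (ext P {q} α) := by
    unfold dgV
    refine Finset.sum_congr rfl fun α _ => ?_
    show _ = (ySel P z s i0 y (ext P {q} α) - ySel P z s i0 y (ins P i0 {q} (ext P {q} α))) ^ 2 *
      V (E ∪ su P b (ext P {q} α)) / ph (sp P (ext P {q} α))
    rw [su_ext, sp_ext]
  rw [h1, ← sum_ext P {q} (fun β : P → Option ι =>
        (ySel P z s i0 y β - ySel P z s i0 y (ins P i0 {q} β)) ^ 2 * V (E ∪ su P b β) /
          ph (sp P β)), split P i0]
  unfold dgV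
  rw [Finset.mul_sum]
  refine Finset.sum_le_sum fun γ _ => ?_
  have hVph : 0 ≤ V (E ∪ su P b γ) / ph (sp P γ) := div_nonneg (hV0 _) (hph (hspP γ)).le
  by_cases hγ : ∀ p, γ p ≠ some i0
  · rw [if_pos hγ]
    -- bound for a single term
    have hterm : ∀ A ∈ (P \ sp P γ).powerset,
        (if ∀ p : P, (p : ℕ) ∈ ({q} : Finset ℕ) → ins P i0 A γ p = none then
          (ySel P z s i0 y (ins P i0 A γ) - ySel P z s i0 y (ins P i0 {q} (ins P i0 A γ))) ^ 2 *
            V (E ∪ su P b (ins P i0 A γ)) / ph (sp P (ins P i0 A γ)) else 0) ≤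
        (if q ∉ A ∧ ((z : ℝ) ^ s < rr A * q ∧ rr A ≤ (z : ℝ) ^ s) then 1 / ph A else 0) *
          (yCol P i0 y γ ^ 2 / Gm ^ 2 * (V (E ∪ su P b γ) / ph (sp P γ))) := by
      intro A hA
      rw [Finset.mem_powerset] at hA
      have hAP : A ⊆ P := fun x hx => (Finset.mem_sdiff.1 (hA hx)).1
      have hrhs : 0 ≤ (if q ∉ A ∧ ((z : ℝ) ^ s < rr A * q ∧ rr A ≤ (z : ℝ) ^ s) then
          1 / ph A else 0) * (yCol P i0 y γ ^ 2 / Gm ^ 2 * (V (E ∪ su P b γ) / ph (sp P γ))) := by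
        refine mul_nonneg ?_ (mul_nonneg (by positivity) hVph)
        split_ifs
        · exact div_nonneg zero_le_one (hph hAP).le
        · exact le_refl _
      by_cases hc : ∀ p : P, (p : ℕ) ∈ ({q} : Finset ℕ) → ins P i0 A γ p = none
      · rw [if_pos hc]
        have h2 := hc ⟨q, hq⟩ (Finset.mem_singleton_self q)
        have hqA : q ∉ A := by
          intro h3
          rw [M4_ins_mem P i0 (p := ⟨q, hq⟩) h3] at h2
          exact absurd h2 (by simp)
        rw [M4_ins_notMem P i0 (p := ⟨q, hq⟩) hqA] at h2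
        have hqγ : q ∉ sp P γ := by
          intro h3
          obtain ⟨_, h4⟩ := (mem_sp P).1 h3
          exact h4 h2
        rw [UL2_term P hP hq V b E i0 hE y hγ hA hqA hqγ]
        by_cases hcond : (z : ℝ) ^ s < rr A * q ∧ rr A ≤ (z : ℝ) ^ s
        · rw [if_pos hcond, if_pos ⟨hqA, hcond⟩]
          refine mul_le_mul_of_nonneg_left ?_ (div_nonneg zero_le_one (hph hAP).le)
          refine mul_le_mul_of_nonneg_right ?_ hVph
          rw [div_pow]
          by_cases hy0 : yCol P i0 y γ = 0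
          · rw [hy0]
            simp
          · have h5 := hG γ hy0
            refine div_le_div_of_nonneg_left (sq_nonneg _) (by positivity) ?_
            exact pow_le_pow_left₀ hGm.le h5 2
        · rw [if_neg hcond, if_neg (fun h6 => hcond h6.2), zero_mul, zero_mul]
      · rw [if_neg hc]
        exact hrhs
    refine (Finset.sum_le_sum hterm).trans ?_
    rw [← Finset.sum_mul]
    have h7 : ∑ A ∈ (P \ sp P γ).powerset,
        (if q ∉ A ∧ ((z : ℝ) ^ s < rr A * q ∧ rr A ≤ (z : ℝ) ^ s) then 1 / ph A else 0) ≤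
        tl P z s q := by
      rw [← Finset.sum_filter]
      unfold tl
      refine Finset.sum_le_sum_of_subset_of_nonneg ?_ ?_
      · intro A hA
        rw [Finset.mem_filter, Finset.mem_powerset] at hA ⊢
        refine ⟨?_, hA.2.2⟩
        intro x hx
        rw [Finset.mem_erase]
        exact ⟨fun h => hA.2.1 (h ▸ hx), (Finset.mem_sdiff.1 (hA.1 hx)).1⟩
      · intro A hA _
        rw [Finset.mem_filter, Finset.mem_powerset] at hA
        exact div_nonneg zero_le_one (hph (hA.1.trans (Finset.erase_subset _ _))).le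
    have h8 : 0 ≤ yCol P i0 y γ ^ 2 / Gm ^ 2 * (V (E ∪ su P b γ) / ph (sp P γ)) :=
      mul_nonneg (by positivity) hVph
    refine (mul_le_mul_of_nonneg_right h7 h8).trans (le_of_eq ?_)
    ring
  · rw [if_neg hγ]
    have h5 : yCol P i0 y γ = 0 := by
      unfold yCol
      rw [if_neg hγ]
    rw [h5]
    simp

end Pool.Agent.LibFB63
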