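import Pool.Agent.LibFB63.Defs
import Pool.Agent.LibLG5.M5

/-!
Row UL3 (pigeonhole over the level `s`). `tl_sum`: exchange the sums: for fixed `A ⊆ P.erase q` the number of `s` with `rr A ≤ z^s < rr A * q` is at most `log q/log z + 1` (take logarithms: `s log z` lies in an interval `[x, x + log q)`), and
`∑_{A ⊆ P.erase q} 1/ph A = ∏_{p ∈ P.erase q} (1 + 1/(p-1)) ≤ ∏_{p ∈ P} (1 + 1/(p-1))` (`Finset.prod_one_add` or `M3_inv_ph` and `Finset.prod_add_one`).
`pigeon`: if all sums were larger, the sum over the `u` values of `s` would be larger than `∑_q (log q/log z + 1)/(q-1) ∏ …` (`Finset.exists_le_of_sum_le`).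
-/

open Finset

namespace Pool.Agent.LibFB63

open Pool.Agent.LibRG87 Pool.Agent.LibLG5 Pool.Agent.LibPL63 Pool.Agent.LibSC93

variable (P : Finset ℕ)

private theorem UL3_count {X : ℝ} (hX : 0 < X) {z : ℕ} (hz : 2 ≤ z) {q : ℕ} (hq : 1 ≤ q) (S : Finset ℕ)
    (hS : ∀ s ∈ S, (z : ℝ) ^ s < X * q ∧ X ≤ (z : ℝ) ^ s) :
    (S.card : ℝ) ≤ Real.log q / Real.log z + 1 := by
  have hz1 : (1 : ℝ) < z := by exact_mod_cast hz
  have hlz : 0 < Real.log z := Real.log_pos hz1
  have hq1 : (1 : ℝ) ≤ q := by exact_mod_cast hq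
  have hlq : 0 ≤ Real.log q := Real.log_nonneg hq1
  rcases S.eq_empty_or_nonempty with rfl | hne
  · rw [Finset.card_empty, Nat.cast_zero]
    positivity
  · have h0 := hS _ (S.min'_mem hne)
    have h1 := hS _ (S.max'_mem hne)
    have hle : S.min' hne ≤ S.max' hne := S.min'_le_max' hne
    have hsub : S ⊆ Finset.Icc (S.min' hne) (S.max' hne) := by
      intro s hs
      rw [Finset.mem_Icc]
      exact ⟨S.min'_le s hs, S.le_max' s hs⟩
    have hcard := Finset.card_le_card hsub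
    rw [Nat.card_Icc] at hcard
    have hz0 : (0 : ℝ) < z := by linarith
    have h2 : Real.log X ≤ S.min' hne * Real.log z := by
      rw [← Real.log_pow]
      exact Real.log_le_log hX h0.2
    have h3 : S.max' hne * Real.log z < Real.log X + Real.log q := by
      rw [← Real.log_pow, ← Real.log_mul hX.ne' (by linarith)]
      exact Real.log_lt_log (pow_pos hz0 _) h1.1
    have h4 : ((S.max' hne : ℝ) - S.min' hne) * Real.log z ≤ Real.log q := by
      rw [sub_mul]
      linarith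
    have h5 : (S.max' hne : ℝ) - S.min' hne ≤ Real.log q / Real.log z := by
      rw [le_div_iff₀ hlz]
      exact h4
    have h6 : (S.card : ℝ) ≤ (S.max' hne : ℝ) - S.min' hne + 1 := by
      have h7 : S.card + S.min' hne ≤ S.max' hne + 1 := by omega
      have h8 : ((S.card + S.min' hne : ℕ) : ℝ) ≤ ((S.max' hne + 1 : ℕ) : ℝ) := by exact_mod_cast h7
      push_cast at h8
      linarith
    linarith

theorem tl_nonnegU (hP : ∀ p ∈ P, Nat.Prime p) (z s q : ℕ) : 0 ≤ tl P z s q := by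
  unfold tl
  refine Finset.sum_nonneg fun A hA => ?_
  rw [Finset.mem_filter, Finset.mem_powerset] at hA
  have hAP : A ⊆ P := hA.1.trans (Finset.erase_subset _ _)
  exact div_nonneg zero_le_one (ph_pos P hP hAP).le

theorem tl_sum (hP : ∀ p ∈ P, Nat.Prime p) {z : ℕ} (hz : 2 ≤ z) {q : ℕ} (hq : 1 ≤ q) (u v : ℕ) :
    ∑ s ∈ Ico u v, tl P z s q ≤ (Real.log q / Real.log z + 1) * ∏ p ∈ P, (1 + 1 / ((p : ℝ) - 1)) := by
  classical
  have hpos : ∀ p ∈ P, 0 ≤ 1 / ((p : ℝ) - 1) := by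
    intro p hp
    have h1 : (2 : ℝ) ≤ p := by exact_mod_cast (hP p hp).two_le
    exact div_nonneg zero_le_one (by linarith)
  have hz1 : (1 : ℝ) < z := by exact_mod_cast hz
  have hlz : 0 < Real.log z := Real.log_pos hz1
  have hq1 : (1 : ℝ) ≤ q := by exact_mod_cast hq
  have hlq : 0 ≤ Real.log q := Real.log_nonneg hq1
  have h0 : 0 ≤ Real.log q / Real.log z + 1 := by positivity
  have e1 : ∑ s ∈ Ico u v, tl P z s q = ∑ A ∈ (P.erase q).powerset,
      (((Ico u v).filter fun s => (z : ℝ) ^ s < rr A * q ∧ rr A ≤ (z : ℝ) ^ s).card : ℝ) * (1 / ph A) := by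
    unfold tl
    rw [Finset.sum_congr rfl fun s _ => Finset.sum_filter _ _, Finset.sum_comm]
    refine Finset.sum_congr rfl fun A _ => ?_
    rw [← Finset.sum_filter, Finset.sum_const, nsmul_eq_mul]
  rw [e1]
  have e2 : ∑ A ∈ (P.erase q).powerset, 1 / ph A ≤ ∏ p ∈ P, (1 + 1 / ((p : ℝ) - 1)) := by
    have e3 : ∑ A ∈ (P.erase q).powerset, 1 / ph A = ∏ p ∈ P.erase q, (1 + 1 / ((p : ℝ) - 1)) := by
      rw [Finset.prod_one_add]
      exact Finset.sum_congr rfl fun A _ => M3_inv_ph A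
    rw [e3]
    by_cases hqP : q ∈ P
    · rw [← Finset.mul_prod_erase P (fun q : ℕ => (1 + 1 / ((q : ℝ) - 1))) hqP]
      refine le_mul_of_one_le_left ?_ ?_
      · refine Finset.prod_nonneg fun p hp => ?_
        have := hpos p (Finset.mem_of_mem_erase hp)
        linarith
      · have := hpos q hqP
        linarith
    · rw [Finset.erase_eq_of_notMem hqP]
  calc ∑ A ∈ (P.erase q).powerset,
      (((Ico u v).filter fun s => (z : ℝ) ^ s < rr A * q ∧ rr A ≤ (z : ℝ) ^ s).card : ℝ) * (1 / ph A)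
      ≤ ∑ A ∈ (P.erase q).powerset, (Real.log q / Real.log z + 1) * (1 / ph A) := by
        refine Finset.sum_le_sum fun A hA => ?_
        have hAP : A ⊆ P := (Finset.mem_powerset.1 hA).trans (Finset.erase_subset _ _)
        refine mul_le_mul_of_nonneg_right ?_ (div_nonneg zero_le_one (ph_pos P hP hAP).le)
        exact UL3_count (rr_pos P hP hAP) hz hq _ fun s hs => (Finset.mem_filter.1 hs).2
    _ = (Real.log q / Real.log z + 1) * ∑ A ∈ (P.erase q).powerset, 1 / ph A := by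
        rw [Finset.mul_sum]
    _ ≤ _ := mul_le_mul_of_nonneg_left e2 h0

theorem pigeon (hP : ∀ p ∈ P, Nat.Prime p) {z : ℕ} (hz : 2 ≤ z) {u : ℕ} (hu : 1 ≤ u) :
    ∃ s : ℕ, u ≤ s ∧ s < 2 * u ∧ ∑ q ∈ P, 1 / ((q : ℝ) - 1) * tl P z s q ≤
      1 / (u : ℝ) * ((∑ q ∈ P, (Real.log q / Real.log z + 1) / ((q : ℝ) - 1)) * ∏ p ∈ P, (1 + 1 / ((p : ℝ) - 1))) := by
  have hpos : ∀ p ∈ P, 0 ≤ 1 / ((p : ℝ) - 1) := by
    intro p hp
    have h1 : (2 : ℝ) ≤ p := by exact_mod_cast (hP p hp).two_le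
    exact div_nonneg zero_le_one (by linarith)
  have hu0 : (u : ℝ) ≠ 0 := by
    have : 0 < u := hu
    positivity
  have h1 : ∑ s ∈ Ico u (2 * u), ∑ q ∈ P, 1 / ((q : ℝ) - 1) * tl P z s q ≤
      ∑ s ∈ Ico u (2 * u), 1 / (u : ℝ) *
        ((∑ q ∈ P, (Real.log q / Real.log z + 1) / ((q : ℝ) - 1)) * ∏ p ∈ P, (1 + 1 / ((p : ℝ) - 1))) := by
    rw [Finset.sum_const, Nat.card_Ico, nsmul_eq_mul, show 2 * u - u = u by omega, ← mul_assoc,
      mul_one_div_cancel hu0, one_mul, Finset.sum_comm, Finset.sum_mul]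
    refine Finset.sum_le_sum fun q hq => ?_
    rw [← Finset.mul_sum]
    have h2 := mul_le_mul_of_nonneg_left (tl_sum P hP hz (hP q hq).one_le u (2 * u)) (hpos q hq)
    refine h2.trans (le_of_eq ?_)
    ring
  obtain ⟨s, hs, h2⟩ := Finset.exists_le_of_sum_le
    (Finset.nonempty_Ico.2 (show u < 2 * u by omega)) h1
  rw [Finset.mem_Ico] at hs
  exact ⟨s, hs.1, hs.2, h2⟩

end Pool.Agent.LibFB63
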