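import Pool.Agent.LibFB63.UD
import Pool.Agent.LibRG87.R0

/-!
Row UW1 (configurations on a union of two sets of primes). Elementary. `rs P P1 β p = β p` for `p ∈ P1 ⊆ P`. `sum_rs`: `β ↦ (rs P P1 β, rs P P2 β)` is a bijection onto the pairs
(inverse: `fun p => if h : p ∈ P1 then α ⟨p, h⟩ else γ ⟨p, _⟩`; `Fintype.sum_prod_type'`, `Fintype.sum_equiv` or `Finset.sum_bij'`). `mem_fb`, `mem_sp` (LibRG87/R0) describe `fb`, `sp`; `sui` by `mem_filter`. `ee_rs`: `ee = ∏_{p : P} loc …`: split the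
product over `P.attach`/`P` into the primes of `P1` and of `P2` (e.g. write `∏ p : P, F p (β p) = ∏ p ∈ P, (if h : p ∈ P then F p (β ⟨p, h⟩) else 1)` and use `Finset.prod_union hd`; or through the equivalence of `sum_rs`).
-/

open Finset Filter

namespace Pool.Agent.LibFB63

open Pool.Agent.LibRG87 Pool.Agent.LibLG5 Pool.Agent.LibPL63 Pool.Agent.LibSC93 Pool.Agent.LibGL22

variable {ι : Type} [Fintype ι] [DecidableEq ι] {P P1 P2 : Finset ℕ}

omit [Fintype ι] [DecidableEq ι] in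
private theorem UW1_rs_mem {Q : Finset ℕ} (β : P → Option ι) (p : Q) (h : (p : ℕ) ∈ P) :
    rs P Q β p = β ⟨p, h⟩ := by
  unfold rs
  rw [dif_pos h]

private def UW1_e (hP : P = P1 ∪ P2) (hd : Disjoint P1 P2) :
    (P → Option ι) ≃ (P1 → Option ι) × (P2 → Option ι) where
  toFun β := (rs P P1 β, rs P P2 β)
  invFun p := fun q =>
    if h : (q : ℕ) ∈ P1 then p.1 ⟨q, h⟩ else if h2 : (q : ℕ) ∈ P2 then p.2 ⟨q, h2⟩ else none
  left_inv := by
    intro β
    funext q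
    have hq : (q : ℕ) ∈ P := q.2
    by_cases h : (q : ℕ) ∈ P1
    · simp only [dif_pos h]
      rw [UW1_rs_mem β ⟨(q : ℕ), h⟩ hq]
    · have h2 : (q : ℕ) ∈ P2 := by
        have h3 : (q : ℕ) ∈ P1 ∪ P2 := by
          rw [← hP]
          exact hq
        rw [Finset.mem_union] at h3
        exact h3.resolve_left h
      simp only [dif_neg h, dif_pos h2]
      rw [UW1_rs_mem β ⟨(q : ℕ), h2⟩ hq]
  right_inv := by
    rintro ⟨α, γ⟩
    refine Prod.ext ?_ ?_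
    · funext q
      have hq : (q : ℕ) ∈ P := by rw [hP]; exact Finset.mem_union_left _ q.2
      dsimp only
      rw [UW1_rs_mem _ q hq]
      simp only [dif_pos q.2]
    · funext q
      have hq : (q : ℕ) ∈ P := by rw [hP]; exact Finset.mem_union_right _ q.2
      have hq1 : (q : ℕ) ∉ P1 := fun h => Finset.disjoint_left.1 hd h q.2
      dsimp only
      rw [UW1_rs_mem _ q hq]
      simp only [dif_pos q.2, dif_neg hq1]

theorem sum_rs (hP : P = P1 ∪ P2) (hd : Disjoint P1 P2) (G : (P1 → Option ι) → (P2 → Option ι) → ℝ) :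
    ∑ β : P → Option ι, G (rs P P1 β) (rs P P2 β) = ∑ α : P1 → Option ι, ∑ γ : P2 → Option ι, G α γ := by
  rw [← Fintype.sum_prod_type']
  exact Fintype.sum_equiv (UW1_e hP hd) _ _ (fun β => rfl)

omit [Fintype ι] [DecidableEq ι] in
private theorem UW1_mem {Q : Finset ℕ} (hQ : Q ⊆ P) (β : P → Option ι) (R : Option ι → Prop) (p : ℕ) :
    (∃ h : p ∈ Q, R (rs P Q β ⟨p, h⟩)) ↔ (p ∈ Q ∧ ∃ h : p ∈ P, R (β ⟨p, h⟩)) := by
  constructor
  · rintro ⟨h, hr⟩
    refine ⟨h, hQ h, ?_⟩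
    rw [UW1_rs_mem β ⟨p, h⟩ (hQ h)] at hr
    exact hr
  · rintro ⟨h, hp, hr⟩
    refine ⟨h, ?_⟩
    rw [UW1_rs_mem β ⟨p, h⟩ hp]
    exact hr

private theorem UW1_sp {Q : Finset ℕ} (hQ : Q ⊆ P) (β : P → Option ι) (p : ℕ) :
    p ∈ sp Q (rs P Q β) ↔ p ∈ Q ∧ p ∈ sp P β := by
  rw [mem_sp, mem_sp]
  exact UW1_mem hQ β (fun o => o ≠ none) p

private theorem UW1_fb {Q : Finset ℕ} (hQ : Q ⊆ P) (β : P → Option ι) (i : ι) (p : ℕ) :
    p ∈ fb Q (rs P Q β) i ↔ p ∈ Q ∧ p ∈ fb P β i := by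
  rw [mem_fb, mem_fb]
  exact UW1_mem hQ β (fun o => o = some i) p

theorem sp_rs (hP : P = P1 ∪ P2) (β : P → Option ι) : sp P β = sp P1 (rs P P1 β) ∪ sp P2 (rs P P2 β) := by
  have h1 : P1 ⊆ P := by rw [hP]; exact Finset.subset_union_left
  have h2 : P2 ⊆ P := by rw [hP]; exact Finset.subset_union_right
  ext p
  rw [Finset.mem_union, UW1_sp h1, UW1_sp h2]
  constructor
  · intro h
    have hp : p ∈ P1 ∪ P2 := by
      rw [← hP]
      exact sp_subset P β h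
    rw [Finset.mem_union] at hp
    exact hp.imp (fun a => ⟨a, h⟩) (fun a => ⟨a, h⟩)
  · rintro (⟨_, h⟩ | ⟨_, h⟩) <;> exact h

theorem disj_rs (hd : Disjoint P1 P2) (β : P → Option ι) : Disjoint (sp P1 (rs P P1 β)) (sp P2 (rs P P2 β)) :=
  Finset.disjoint_of_subset_left (sp_subset P1 _) (Finset.disjoint_of_subset_right (sp_subset P2 _) hd)

theorem rr_rs (hP : P = P1 ∪ P2) (hd : Disjoint P1 P2) (β : P → Option ι) :
    rr (sp P β) = rr (sp P1 (rs P P1 β)) * rr (sp P2 (rs P P2 β)) := by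
  unfold rr
  rw [sp_rs hP β, Finset.prod_union (disj_rs hd β)]

theorem ph_rs (hP : P = P1 ∪ P2) (hd : Disjoint P1 P2) (β : P → Option ι) :
    ph (sp P β) = ph (sp P1 (rs P P1 β)) * ph (sp P2 (rs P P2 β)) := by
  unfold ph
  rw [sp_rs hP β, Finset.prod_union (disj_rs hd β)]

theorem fb_rs (hP : P = P1 ∪ P2) (β : P → Option ι) (i : ι) :
    fb P β i = fb P1 (rs P P1 β) i ∪ fb P2 (rs P P2 β) i := by
  have h1 : P1 ⊆ P := by rw [hP]; exact Finset.subset_union_left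
  have h2 : P2 ⊆ P := by rw [hP]; exact Finset.subset_union_right
  ext p
  rw [Finset.mem_union, UW1_fb h1, UW1_fb h2]
  constructor
  · intro h
    have hp : p ∈ P1 ∪ P2 := by
      rw [← hP]
      exact fb_subset P β i h
    rw [Finset.mem_union] at hp
    exact hp.imp (fun a => ⟨a, h⟩) (fun a => ⟨a, h⟩)
  · rintro (⟨_, h⟩ | ⟨_, h⟩) <;> exact h

private theorem UW1_mem_sui (Q : Finset ℕ) (β : Q → Option ι) (i : ι) : i ∈ sui Q β ↔ ∃ p, p ∈ fb Q β i := by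
  unfold sui
  rw [Finset.mem_filter]
  constructor
  · rintro ⟨_, p, hp⟩
    exact ⟨p, (mem_fb Q).2 ⟨p.2, hp⟩⟩
  · rintro ⟨p, hp⟩
    obtain ⟨h, h2⟩ := (mem_fb Q).1 hp
    exact ⟨Finset.mem_univ _, ⟨p, h⟩, h2⟩

theorem sui_rs (hP : P = P1 ∪ P2) (β : P → Option ι) : sui P β = sui P1 (rs P P1 β) ∪ sui P2 (rs P P2 β) := by
  ext i
  rw [Finset.mem_union, UW1_mem_sui, UW1_mem_sui, UW1_mem_sui, fb_rs hP β i]
  constructor
  · rintro ⟨p, hp⟩
    rw [Finset.mem_union] at hp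
    exact hp.imp (fun a => ⟨p, a⟩) (fun a => ⟨p, a⟩)
  · rintro (⟨p, h⟩ | ⟨p, h⟩)
    · exact ⟨p, Finset.mem_union_left _ h⟩
    · exact ⟨p, Finset.mem_union_right _ h⟩

open scoped Classical in
omit [Fintype ι] [DecidableEq ι] in
private theorem UW1_ee (Q : Finset ℕ) (b : ι → ℕ) (β : P → Option ι) (n : ℕ) :
    ∏ p : Q, loc b p (rs P Q β p) n = ∏ p ∈ Q, (if h : p ∈ P then loc b p (β ⟨p, h⟩) n else 1) := by
  rw [← Finset.prod_coe_sort Q]
  refine Finset.prod_congr rfl (fun p _ => ?_)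
  unfold rs
  split_ifs with h
  · rfl
  · rfl

theorem ee_rs (hP : P = P1 ∪ P2) (hd : Disjoint P1 P2) (b : ι → ℕ) (β : P → Option ι) (n : ℕ) :
    ee P b β n = ee P1 b (rs P P1 β) n * ee P2 b (rs P P2 β) n := by
  unfold ee
  rw [UW1_ee, UW1_ee, ← Finset.prod_union hd, ← hP, ← Finset.prod_coe_sort P]
  refine Finset.prod_congr rfl (fun p _ => ?_)
  rw [dif_pos p.2]

end Pool.Agent.LibFB63
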