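import Pool.Agent.LibFB63.UD
import Pool.Agent.LibPL63.Q6
import Pool.Agent.LibLG5.NT

/-!
Row UW5 (quadratic form for all subsets of the large primes). Copy of the finished proof of `LibSC93.qfrp` (LibSC93/R5.lean) with `P ⊆ PL z k1 p1`: `QFS` (LibSC93/R4.lean) is stated for any `P`; `∏_{p ∈ P} (1 + 1/(p-1)) ≤ ∏_{PL} ≤ C0 k1`,
`∑_{p ∈ P} 1/(p-1)² ≤ 1/(z-1)` (all `p ∈ P` are `> z`); the remainder of `QFS` is `RemA A.Er (P0 ∪ P) …` which is `≤ RemA A.Er (P0 ∪ PL z k1 p1) …` (more subsets, nonnegative terms).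
-/

open Finset Filter

namespace Pool.Agent.LibFB63

open Pool.Agent.LibRG87 Pool.Agent.LibLG5 Pool.Agent.LibPL63 Pool.Agent.LibSC93 Pool.Agent.LibGL22

private theorem UW5_prod_le (P : Finset ℕ) (hP : ∀ p ∈ P, 2 ≤ p) (S : ℝ)
    (hS : ∏ p ∈ P, (1 + 1 / ((p : ℝ) - 1)) ≤ S) (f : ℕ → ℝ) (m : ℕ)
    (hf0 : ∀ p ∈ P, 0 ≤ f p) (hf : ∀ p ∈ P, f p ≤ 1 + (m : ℝ) * (1 / ((p : ℝ) - 1))) :
    ∏ p ∈ P, f p ≤ S ^ m := by
  have h1 : ∀ p ∈ P, (0 : ℝ) ≤ 1 / ((p : ℝ) - 1) := by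
    intro p hp
    have h2 : (2 : ℝ) ≤ p := by exact_mod_cast hP p hp
    exact div_nonneg zero_le_one (by linarith)
  calc ∏ p ∈ P, f p ≤ ∏ p ∈ P, (1 + 1 / ((p : ℝ) - 1)) ^ m :=
        Finset.prod_le_prod hf0 fun p hp => (hf p hp).trans
          (one_add_mul_le_pow (by linarith [h1 p hp]) m)
    _ = (∏ p ∈ P, (1 + 1 / ((p : ℝ) - 1))) ^ m := Finset.prod_pow _ _ _
    _ ≤ S ^ m := pow_le_pow_left₀ (Finset.prod_nonneg fun p hp => by linarith [h1 p hp]) hS m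

private theorem UW5_log_ev (Λ : ℝ) (n : ℕ) :
    ∀ᶠ z : ℕ in atTop, Λ * Real.log z ^ n ≤ Real.sqrt z / 2 := by
  have h0 := isLittleO_log_rpow_rpow_atTop (s := 1 / 2) (n : ℝ) (by norm_num)
  have hc : (0 : ℝ) < 1 / (2 * (|Λ| + 1)) := by positivity
  have h1 := (h0.bound hc)
  have h2 := tendsto_natCast_atTop_atTop.eventually (h1.and (eventually_ge_atTop (1 : ℝ)))
  filter_upwards [h2] with z hz
  obtain ⟨h3, h4⟩ := hz
  rw [Real.rpow_natCast, ← Real.sqrt_eq_rpow, Real.norm_eq_abs, Real.norm_eq_abs,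
    abs_of_nonneg (pow_nonneg (Real.log_nonneg h4) _), abs_of_nonneg (Real.sqrt_nonneg _)] at h3
  have h5 : (0 : ℝ) < |Λ| + 1 := by positivity
  have h6 : 0 ≤ Real.log z ^ n := pow_nonneg (Real.log_nonneg h4) _
  calc Λ * Real.log z ^ n ≤ (|Λ| + 1) * Real.log z ^ n :=
        mul_le_mul_of_nonneg_right (by linarith [le_abs_self Λ]) h6
    _ ≤ (|Λ| + 1) * (1 / (2 * (|Λ| + 1)) * Real.sqrt z) := mul_le_mul_of_nonneg_left h3 h5.le
    _ = Real.sqrt z / 2 := by field_simp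

theorem qfrpS : ∃ C : ℕ, 1 ≤ C ∧ ∀ C' : ℕ, C ≤ C' → QFRpS C' := by
  classical
  obtain ⟨C0, hC0, hS0⟩ := NT_S_upper
  obtain ⟨C1, hC1, hpa⟩ := pairA
  refine ⟨max (max C0 C1) 12, le_trans (by norm_num) (le_max_right _ _), ?_⟩
  intro C hC k K k1 b0 L hk hk1 hb0 he
  have hCC0 : C0 ≤ C := ((le_max_left _ _).trans (le_max_left _ _)).trans hC
  have hCC1 : C1 ≤ C := ((le_max_right _ _).trans (le_max_left _ _)).trans hC
  have hC12 : 12 ≤ C := (le_max_right _ _).trans hC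
  have hPA : PairA C := pairA_mono hCC1 hpa
  set Λ : ℝ := (C0 : ℝ) * k1 with hΛ
  have hΛ1 : 1 ≤ Λ := by
    rw [hΛ]
    have : 1 ≤ C0 * k1 := Nat.mul_pos hC0 hk1
    exact_mod_cast this
  have hev2 : ∀ᶠ z : ℕ in atTop, (2 : ℝ) ≤ Real.log z :=
    (Real.tendsto_log_atTop.comp tendsto_natCast_atTop_atTop).eventually_ge_atTop _
  filter_upwards [hS0 k1 hk1, UW5_log_ev Λ (20 * L), hev2, eventually_ge_atTop 2]
    with z hSz hz1 hz3 hz2
  intro p1 A hSm P hPP ι _ _ b J E y v VE hL hbJ hcι hE hv hVE hV hy hy'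
  have hcι0 : (0 : ℝ) ≤ Fintype.card ι := Nat.cast_nonneg _
  have hgt : ∀ p ∈ P, z < p := by
    intro p hp0
    have hp := hPP hp0
    unfold PL PP at hp
    rw [Finset.mem_erase, Finset.mem_filter, Finset.mem_Ioc] at hp
    exact hp.2.1.1
  have hge2 : ∀ p ∈ P, 2 ≤ p := fun p hp => by
    have := hgt p hp
    omega
  have hS : ∏ p ∈ P, (1 + 1 / ((p : ℝ) - 1)) ≤ Λ := by
    refine le_trans ?_ hSz
    have h1 : ∀ p ∈ PP z (z ^ k1), (1 : ℝ) ≤ 1 + 1 / ((p : ℝ) - 1) := by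
      intro p hp
      have h2 : (2 : ℝ) ≤ p := by exact_mod_cast (Finset.mem_filter.1 hp).2.two_le
      have h3 : (0 : ℝ) ≤ 1 / ((p : ℝ) - 1) := div_nonneg zero_le_one (by linarith)
      linarith
    have hPP2 : P ⊆ PP z (z ^ k1) := fun p hp => Finset.mem_of_mem_erase (hPP hp)
    exact Finset.prod_le_prod_of_subset_of_one_le hPP2
      (fun p hp => zero_le_one.trans (h1 p (hPP2 hp))) fun p hp _ => h1 p hp
  have hAX : 0 ≤ A.X := A.X_nonneg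
  have hzR : (2 : ℝ) ≤ z := by exact_mod_cast hz2
  have hsq0 : 0 < Real.sqrt z := Real.sqrt_pos.2 (by linarith)
  have hsq1 : Real.sqrt z * Real.sqrt z = z := Real.mul_self_sqrt (by linarith)
  -- the number of positions
  set t : ℝ := Real.log z with ht
  have hN1 : (Fintype.card ι : ℝ) + 1 ≤ t ^ 3 := by
    have h1 : t ^ 2 + 2 ≤ t ^ 3 := by nlinarith [mul_nonneg (sq_nonneg t) (sub_nonneg.2 hz3)]
    linarith
  have hN2 : ((Fintype.card ι : ℝ) + 1) ^ 2 ≤ t ^ 6 := by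
    calc ((Fintype.card ι : ℝ) + 1) ^ 2 ≤ (t ^ 3) ^ 2 := pow_le_pow_left₀ (by linarith) hN1 2
      _ = t ^ 6 := by ring
  have ht1 : 1 ≤ t := by linarith
  have hmain := QFS C hPA k b0 hk hb0 he A z L K (P0 z p1) P hz2 hSm hgt ι b J hbJ hL E hE
    hv hVE hV y hy hy'
  refine hmain.trans ?_
  have hT1 : A.X * ((9 * ((Fintype.card ι : ℝ) + 1) ^ 2) ^ (2 * L) *
      ((∑ p ∈ P, 1 / ((p : ℝ) - 1) ^ 2) *
        ∏ p ∈ P, (1 + 1 / ((p : ℝ) - 1)))) ≤ A.X / Real.sqrt z := by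
    have h9 : (9 * ((Fintype.card ι : ℝ) + 1) ^ 2) ^ (2 * L) ≤ t ^ (20 * L) := by
      have h10 : 9 * ((Fintype.card ι : ℝ) + 1) ^ 2 ≤ t ^ 10 := by
        have h11 : (9 : ℝ) ≤ t ^ 4 := by
          have : (2 : ℝ) ^ 4 ≤ t ^ 4 := pow_le_pow_left₀ (by norm_num) hz3 4
          linarith
        calc 9 * ((Fintype.card ι : ℝ) + 1) ^ 2 ≤ t ^ 4 * t ^ 6 :=
              mul_le_mul h11 hN2 (sq_nonneg _) (by positivity)
          _ = t ^ 10 := by ring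
      calc (9 * ((Fintype.card ι : ℝ) + 1) ^ 2) ^ (2 * L) ≤ (t ^ 10) ^ (2 * L) :=
            pow_le_pow_left₀ (by positivity) h10 _
        _ = t ^ (20 * L) := by rw [← pow_mul]; congr 1; ring
    have hsum : ∑ p ∈ P, 1 / ((p : ℝ) - 1) ^ 2 ≤ 1 / ((z : ℝ) - 1) :=
      sum_inv_sq P hz2 hgt
    have hsum0 : 0 ≤ ∑ p ∈ P, 1 / ((p : ℝ) - 1) ^ 2 :=
      Finset.sum_nonneg fun p _ => div_nonneg zero_le_one (sq_nonneg _)
    have hprod0 : 0 ≤ ∏ p ∈ P, (1 + 1 / ((p : ℝ) - 1)) := by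
      refine Finset.prod_nonneg fun p hp => ?_
      have h2 : (2 : ℝ) ≤ p := by exact_mod_cast hge2 p hp
      have h3 : (0 : ℝ) < (p : ℝ) - 1 := by linarith
      positivity
    have hz0 : (0 : ℝ) < (z : ℝ) - 1 := by linarith
    rw [div_eq_mul_one_div A.X]
    refine mul_le_mul_of_nonneg_left ?_ hAX
    calc (9 * ((Fintype.card ι : ℝ) + 1) ^ 2) ^ (2 * L) *
          ((∑ p ∈ P, 1 / ((p : ℝ) - 1) ^ 2) *
            ∏ p ∈ P, (1 + 1 / ((p : ℝ) - 1)))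
        ≤ t ^ (20 * L) * (1 / ((z : ℝ) - 1) * Λ) := by
          refine mul_le_mul h9 (mul_le_mul hsum hS hprod0 (by positivity))
            (mul_nonneg hsum0 hprod0) (by positivity)
      _ = (Λ * t ^ (20 * L)) / ((z : ℝ) - 1) := by ring
      _ ≤ 1 / Real.sqrt z := by
          rw [div_le_div_iff₀ hz0 hsq0, one_mul]
          calc Λ * t ^ (20 * L) * Real.sqrt z ≤ Real.sqrt z / 2 * Real.sqrt z :=
                mul_le_mul_of_nonneg_right hz1 hsq0.le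
            _ = z / 2 := by rw [div_mul_eq_mul_div, hsq1]
            _ ≤ (z : ℝ) - 1 := by linarith
  have hT2 : eps0 (C : ℝ) (2 * k) b0 * (A.X * (4 * VE * 2 ^ E.card *
      (1 + Fintype.card ι * v) ^ (2 * K) *
        ∏ p ∈ P, (1 + 2 * (2 * (K : ℝ) + 1) ^ 2 / ((p : ℝ) - 1)))) ≤
      A.X * VE * (eps0 (C : ℝ) (2 * k) b0 * ((C * k1 : ℕ) : ℝ) ^ (C * (k + 1) ^ 2) *
        (1 + Fintype.card ι * v) ^ (2 * K)) := by
    have he0 : 0 ≤ eps0 (C : ℝ) (2 * k) b0 := by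
      unfold eps0
      positivity
    have hKk : 2 * K ≤ k := by omega
    have hprod : ∏ p ∈ P, (1 + 2 * (2 * (K : ℝ) + 1) ^ 2 / ((p : ℝ) - 1)) ≤
        Λ ^ (2 * (k + 1) ^ 2) := by
      refine UW5_prod_le _ hge2 Λ hS _ (2 * (k + 1) ^ 2) ?_ ?_
      · intro p hp
        have h2 : (2 : ℝ) ≤ p := by exact_mod_cast hge2 p hp
        have h3 : (0 : ℝ) < (p : ℝ) - 1 := by linarith
        positivity
      · intro p hp
        have h2 : (2 : ℝ) ≤ p := by exact_mod_cast hge2 p hp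
        have h3 : (0 : ℝ) < (p : ℝ) - 1 := by linarith
        have h4 : (2 * (K : ℝ) + 1) ^ 2 ≤ ((k : ℝ) + 1) ^ 2 := by
          have h7 : 2 * (K : ℝ) ≤ k := by exact_mod_cast hKk
          exact pow_le_pow_left₀ (by positivity) (by linarith) 2
        have h5 : 2 * (2 * (K : ℝ) + 1) ^ 2 / ((p : ℝ) - 1) ≤
            2 * ((k : ℝ) + 1) ^ 2 / ((p : ℝ) - 1) :=
          div_le_div_of_nonneg_right (by linarith) h3.le
        have h6 : ((2 * (k + 1) ^ 2 : ℕ) : ℝ) * (1 / ((p : ℝ) - 1)) =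
            2 * ((k : ℝ) + 1) ^ 2 / ((p : ℝ) - 1) := by
          push_cast
          ring
        rw [h6]
        linarith
    set M : ℝ := ((C * k1 : ℕ) : ℝ) with hM
    have hM1 : Λ ≤ M := by
      rw [hΛ, hM]
      push_cast
      exact mul_le_mul_of_nonneg_right (by exact_mod_cast hCC0) (Nat.cast_nonneg _)
    have hM2 : 2 ≤ M := by
      have h1 : 2 ≤ C * k1 := by nlinarith
      rw [hM]
      exact_mod_cast h1
    have hbig : 4 * 2 ^ E.card *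
        ∏ p ∈ P, (1 + 2 * (2 * (K : ℝ) + 1) ^ 2 / ((p : ℝ) - 1)) ≤
        M ^ (C * (k + 1) ^ 2) := by
      have h1 : (4 : ℝ) * 2 ^ E.card ≤ M ^ (k + 2) := by
        calc (4 : ℝ) * 2 ^ E.card ≤ 4 * 2 ^ k :=
              mul_le_mul_of_nonneg_left (pow_le_pow_right₀ (by norm_num) (by omega))
                (by norm_num)
          _ = 2 ^ (k + 2) := by ring
          _ ≤ M ^ (k + 2) := pow_le_pow_left₀ (by norm_num) hM2 _
      have h2 : Λ ^ (2 * (k + 1) ^ 2) ≤ M ^ (2 * (k + 1) ^ 2) :=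
        pow_le_pow_left₀ (by linarith) hM1 _
      have hprod0 : 0 ≤ ∏ p ∈ P, (1 + 2 * (2 * (K : ℝ) + 1) ^ 2 / ((p : ℝ) - 1)) := by
        refine Finset.prod_nonneg fun p hp => ?_
        have h2 : (2 : ℝ) ≤ p := by exact_mod_cast hge2 p hp
        have h3 : (0 : ℝ) < (p : ℝ) - 1 := by linarith
        positivity
      calc 4 * 2 ^ E.card *
            ∏ p ∈ P, (1 + 2 * (2 * (K : ℝ) + 1) ^ 2 / ((p : ℝ) - 1))
          ≤ M ^ (k + 2) * M ^ (2 * (k + 1) ^ 2) :=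
            mul_le_mul h1 (hprod.trans h2) hprod0 (by positivity)
        _ = M ^ (k + 2 + 2 * (k + 1) ^ 2) := (pow_add _ _ _).symm
        _ ≤ M ^ (C * (k + 1) ^ 2) := by
            refine pow_le_pow_right₀ (by linarith) ?_
            have h4 : k + 2 ≤ (k + 1) ^ 2 := by nlinarith
            have h5 : 3 * (k + 1) ^ 2 ≤ C * (k + 1) ^ 2 := Nat.mul_le_mul_right _ (by omega)
            omega
    have hpos : 0 ≤ A.X * VE * (eps0 (C : ℝ) (2 * k) b0 * (1 + Fintype.card ι * v) ^ (2 * K)) := by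
      positivity
    calc eps0 (C : ℝ) (2 * k) b0 * (A.X * (4 * VE * 2 ^ E.card *
          (1 + Fintype.card ι * v) ^ (2 * K) *
            ∏ p ∈ P, (1 + 2 * (2 * (K : ℝ) + 1) ^ 2 / ((p : ℝ) - 1))))
        = A.X * VE * (eps0 (C : ℝ) (2 * k) b0 * (1 + Fintype.card ι * v) ^ (2 * K)) *
          (4 * 2 ^ E.card *
            ∏ p ∈ P, (1 + 2 * (2 * (K : ℝ) + 1) ^ 2 / ((p : ℝ) - 1))) := by ring
      _ ≤ A.X * VE * (eps0 (C : ℝ) (2 * k) b0 * (1 + Fintype.card ι * v) ^ (2 * K)) *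
          M ^ (C * (k + 1) ^ 2) := mul_le_mul_of_nonneg_left hbig hpos
      _ = A.X * VE * (eps0 (C : ℝ) (2 * k) b0 * M ^ (C * (k + 1) ^ 2) *
        (1 + Fintype.card ι * v) ^ (2 * K)) := by ring
  have hT3 : (((Fintype.card ι : ℝ) + 1) ^ 2) ^ (2 * L) *
        RemA A.Er (P0 z p1 ∪ P) (2 * k) (z ^ (2 * L + 2 * b0 + 6)) ≤
      t ^ (C * (L + 1)) *
        RemA A.Er (P0 z p1 ∪ PL z k1 p1) (2 * k) (z ^ (2 * L + 2 * b0 + 6)) := by
    have hRem : RemA A.Er (P0 z p1 ∪ P) (2 * k) (z ^ (2 * L + 2 * b0 + 6)) ≤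
        RemA A.Er (P0 z p1 ∪ PL z k1 p1) (2 * k) (z ^ (2 * L + 2 * b0 + 6)) := by
      unfold RemA
      refine Finset.sum_le_sum_of_subset_of_nonneg ?_ fun F _ _ => mul_nonneg (by positivity) (A.Er_nonneg _)
      intro F hF
      rw [Finset.mem_filter, Finset.mem_powerset] at hF ⊢
      exact ⟨hF.1.trans (Finset.union_subset_union_right hPP), hF.2⟩
    refine mul_le_mul ?_ hRem ?_ (by positivity)
    · calc (((Fintype.card ι : ℝ) + 1) ^ 2) ^ (2 * L) ≤ (t ^ 6) ^ (2 * L) :=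
            pow_le_pow_left₀ (by positivity) hN2 _
        _ = t ^ (12 * L) := by rw [← pow_mul]; congr 1; ring
        _ ≤ t ^ (C * (L + 1)) := by
            refine pow_le_pow_right₀ ht1 ?_
            exact Nat.mul_le_mul hC12 (by omega)
    · unfold RemA
      exact Finset.sum_nonneg fun F _ => mul_nonneg (by positivity) (A.Er_nonneg _)
  linarith

end Pool.Agent.LibFB63
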