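import Pool.Agent.LibFB63.UD
import Pool.Agent.LibGL22.A1

/-!
Row UW6 (uniform average with a modulus). `avgM_ex`: the average is `avgUn N (Wp z p1 * m) c` of LibGL22/A1.lean (which is general in the modulus); the five facts as in `avgU_ex` (copy `smallOK_avgUn`, `locOK_avgUn` for the modulus `Wp z p1 * m`:
a prime `p ∈ P0 z p1` does not divide `Wp z p1` (`P0_good`) and not `m` (its primes are `> z`); `p ∈ P` does not divide `Wp` (`PL_good`) and not `m`). `VA_avgUn` is general. Remainder: as in `avgU_ex`.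
`class_ex`: `e` and `e'` are coprime to each other and to `Wp z p1` (primes `> z` against primes `≤ wf z ≤ z`; `mem`: `Wp = ∏ p ∈ (PP 0 (wf z)).erase p1, p`), so by the Chinese remainder theorem (`Nat.chineseRemainder`, twice) the three
congruences `n ≡ c0 [MOD Wp]`, `e ∣ n + x`, `e' ∣ n + y` are one congruence modulo `Wp * (e * e')`. (`e ∣ n + x ↔ n ≡ r [MOD e]` for an `r` with `e ∣ r + x`, e.g. `r = e * x - x`... any `r` with `r + x ≡ 0`.)
-/

open Finset Filter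

namespace Pool.Agent.LibFB63

open Pool.Agent.LibRG87 Pool.Agent.LibLG5 Pool.Agent.LibPL63 Pool.Agent.LibSC93 Pool.Agent.LibGL22

private theorem uw6_small (z p1 k m : ℕ) (hk : 4 * k + 4 ≤ wf z) (hm : 0 < Wp z p1 * m)
    (hmz : ∀ p : ℕ, p.Prime → p ∣ m → z < p) (N : ℕ) (c : ℕ) :
    SmallOK (avgUn N (Wp z p1 * m) c hm) (P0 z p1) z k where
  good := fun p hp => ⟨(P0_good hp).1, fun h => by
    rcases (Nat.Prime.dvd_mul (P0_good hp).1).1 h with h | h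
    · exact (P0_good hp).2 h
    · have h1 := hmz p (P0_good hp).1 h
      have h2 := (mem_P0.1 hp).2.2.2
      omega⟩
  le := fun p hp => (mem_P0.1 hp).2.2.2
  big := fun p hp => hk.trans (mem_P0.1 hp).2.2.1.le
  lp_le := fun p hp y _ => by
    change 1 / (p : ℝ) ≤ 1 / ((p : ℝ) - 1)
    have h2 : (2 : ℝ) ≤ p := by exact_mod_cast (mem_P0.1 hp).2.1.two_le
    exact one_div_le_one_div_of_le (by linarith) (by linarith)

private theorem uw6_loc {ι : Type} [Fintype ι] [DecidableEq ι] (z p1 k1 m : ℕ) (hz : 3 ≤ z)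
    (hm : 0 < Wp z p1 * m) {P : Finset ℕ} (hP : P ⊆ PL z k1 p1) (hPm : ∀ p ∈ P, ¬ p ∣ m)
    (N : ℕ) (c : ℕ) (b : ι → ℕ) (J : Finset ι)
    (hb : ∀ i ∈ J, b i ≤ z) (hinj : ∀ i ∈ J, ∀ j ∈ J, i ≠ j → b i ≠ b j) :
    LocOK P (avgUn N (Wp z p1 * m) c hm) b J where
  good := fun p hp => ⟨(PL_good (hP hp)).1, fun h => by
    rcases (Nat.Prime.dvd_mul (PL_good (hP hp)).1).1 h with h | h
    · exact (PL_good (hP hp)).2 h
    · exact hPm p hp h⟩
  three := fun p hp => by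
    have := (mem_PL.1 (hP hp)).2.2.1
    omega
  lp_le := fun p hp y _ => by
    change 1 / (p : ℝ) ≤ 1 / ((p : ℝ) - 1)
    have h2 : (2 : ℝ) ≤ p := by exact_mod_cast (mem_PL.1 (hP hp)).2.1.two_le
    exact one_div_le_one_div_of_le (by linarith) (by linarith)
  m1 := fun p hp i hi => by
    have h1 := (mem_PL.1 (hP hp)).2.2.1
    rw [avgUn_Ep]
    unfold mean
    rw [sum_psi (by omega), zero_div, abs_zero]
    positivity
  m2 := fun p hp i hi => by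
    have h1 := (mem_PL.1 (hP hp)).2.2.1
    have h2 : (3 : ℝ) ≤ p := by
      have : 3 ≤ p := by omega
      exact_mod_cast this
    have h3 : (p : ℝ) - 1 ≠ 0 := by linarith
    have h4 : (p : ℝ) ≠ 0 := by linarith
    rw [avgUn_Ep]
    unfold mean
    rw [sum_psi_sq (by omega)]
    have h5 : (p : ℝ) / ((p : ℝ) - 1) / p - 1 / ((p : ℝ) - 1) = 0 := by
      field_simp
      ring
    rw [h5, abs_zero]
    positivity
  m3 := fun p hp i hi j hj hij => by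
    have h1 := (mem_PL.1 (hP hp)).2.2.1
    have h2 : (3 : ℝ) ≤ p := by
      have : 3 ≤ p := by omega
      exact_mod_cast this
    have h3 : (p : ℝ) - 1 ≠ 0 := by linarith
    have h4 : (p : ℝ) ≠ 0 := by linarith
    rw [avgUn_Ep]
    unfold mean
    rw [sum_psi_psi (by omega) (not_modEq h1 (hb i hi) (hb j hj) (hinj i hi j hj hij))]
    have h5 : -((p : ℝ) / ((p : ℝ) - 1) ^ 2) / p = -(1 / ((p : ℝ) - 1) ^ 2) := by
      field_simp
    rw [h5, abs_neg, abs_of_nonneg (by positivity)]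
    exact div_le_div_of_nonneg_right (by norm_num) (by positivity)

theorem avgM_ex (k1 C : ℕ) (hk1 : 1 ≤ k1) : ∀ᶠ z : ℕ in atTop, ∀ p1 : ℕ, p1.Prime → ∀ N c T m : ℕ, 1 ≤ m →
    (∀ p : ℕ, p.Prime → p ∣ m → z < p) → ∀ P ⊆ PL z k1 p1, (∀ p ∈ P, ¬ p ∣ m) →
    ∃ A : Average, A.s = sN N (Wp z p1 * m) c ∧ (∀ n, A.om n = 1) ∧ A.X = (N : ℝ) / (Wp z p1 * m) ∧
      (∀ B, VA A (P0 z p1) B = VP (P0 z p1) B) ∧
      (∀ k, 4 * k + 4 ≤ wf z → SmallOK A (P0 z p1) z k) ∧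
      (∀ (ι : Type) [Fintype ι] [DecidableEq ι] (b : ι → ℕ) (J : Finset ι), (∀ i ∈ J, b i ≤ z) →
        (∀ i ∈ J, ∀ j ∈ J, i ≠ j → b i ≠ b j) → LocOK P A b J) ∧
      RemA A.Er (P0 z p1 ∪ PL z k1 p1) C T ≤ T * z := by
  filter_upwards [prod_P0_PL_le k1 C hk1, eventually_ge_atTop 3] with z hz hz3 p1 hp1 N c T m hm1
    hmz P hP hPm
  have hm : 0 < Wp z p1 * m := Nat.mul_pos (Wp_pos z p1) hm1
  refine ⟨avgUn N (Wp z p1 * m) c hm, rfl, fun _ => rfl, ?_, ?_, ?_, ?_, ?_⟩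
  · show (N : ℝ) / ((Wp z p1 * m : ℕ) : ℝ) = _
    rw [Nat.cast_mul]
  · exact fun B => VA_avgUn N (Wp z p1 * m) c hm (P0 z p1) (fun p hp => (mem_P0.1 hp).2.1) B
  · exact fun k hk => uw6_small z p1 k m hk hm hmz N c
  · intro ι _ _ b J hb hinj
    exact uw6_loc z p1 k1 m hz3 hm hP hPm N c b J hb hinj
  · have hS : ∀ p ∈ P0 z p1 ∪ PL z k1 p1, p.Prime := by
      intro p hp
      rcases Finset.mem_union.1 hp with hp | hp
      · exact (mem_P0.1 hp).2.1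
      · exact (mem_PL.1 hp).2.1
    refine (RemA_const_le _ hS C T (e := 1) zero_le_one).trans ?_
    rw [one_mul]
    exact mul_le_mul_of_nonneg_left (hz p1 hp1) (Nat.cast_nonneg _)

private theorem uw6_res {e : ℕ} (he : 1 ≤ e) (x : ℕ) :
    ∃ r : ℕ, ∀ n : ℕ, e ∣ n + x ↔ n ≡ r [MOD e] := by
  refine ⟨e * x - x, fun n => ?_⟩
  have h0 : x ≤ e * x := Nat.le_mul_of_pos_left x he
  have h1 : e * x - x + x = e * x := Nat.sub_add_cancel h0
  have h2 : e * x ≡ 0 [MOD e] := (Nat.modEq_zero_iff_dvd).2 (dvd_mul_right _ _)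
  rw [← Nat.modEq_zero_iff_dvd]
  constructor
  · intro h
    refine Nat.ModEq.add_right_cancel' x ?_
    rw [h1]
    exact h.trans h2.symm
  · intro h
    have h3 : n + x ≡ e * x - x + x [MOD e] := Nat.ModEq.add_right x h
    rw [h1] at h3
    exact h3.trans h2

private theorem uw6_crt {a b : ℕ} (h : a.Coprime b) (r s : ℕ) :
    ∃ c : ℕ, ∀ n : ℕ, (n ≡ r [MOD a] ∧ n ≡ s [MOD b]) ↔ n ≡ c [MOD (a * b)] := by
  refine ⟨(Nat.chineseRemainder h r s : ℕ), fun n => ?_⟩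
  have h1 := (Nat.chineseRemainder h r s).2
  rw [← Nat.modEq_and_modEq_iff_modEq_mul h]
  constructor
  · rintro ⟨h2, h3⟩
    exact ⟨h2.trans h1.1.symm, h3.trans h1.2.symm⟩
  · rintro ⟨h2, h3⟩
    exact ⟨h2.trans h1.1, h3.trans h1.2⟩

private theorem uw6_cop {z p1 : ℕ} (hz : wf z ≤ z) {e : ℕ}
    (h : ∀ p : ℕ, p.Prime → p ∣ e → z < p) : (Wp z p1).Coprime e := by
  refine Nat.coprime_of_dvd fun p hp h1 h2 => ?_
  have h3 := ((dvd_Wp hp).1 h1).1
  have h4 := h p hp h2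
  omega

theorem class_ex {z p1 : ℕ} (hz : wf z ≤ z) {e e' : ℕ} (he : 1 ≤ e) (he' : 1 ≤ e') (hc : e.Coprime e')
    (h : ∀ p : ℕ, p.Prime → p ∣ e * e' → z < p) (N c0 x y : ℕ) : ∃ c1 : ℕ,
      (sN N (Wp z p1) c0).filter (fun n => e ∣ n + x ∧ e' ∣ n + y) = sN N (Wp z p1 * (e * e')) c1 := by
  obtain ⟨r, hr⟩ := uw6_res he x
  obtain ⟨s, hs⟩ := uw6_res he' y
  obtain ⟨t, ht⟩ := uw6_crt hc r s
  obtain ⟨c1, hc1⟩ := uw6_crt (uw6_cop (p1 := p1) hz h) c0 t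
  refine ⟨c1, ?_⟩
  ext n
  unfold sN
  rw [Finset.mem_filter, Finset.mem_filter, Finset.mem_filter, hr, hs, ht, ← hc1, and_assoc]

theorem class_ex1 {z p1 : ℕ} (hz : wf z ≤ z) {e : ℕ} (he : 1 ≤ e)
    (h : ∀ p : ℕ, p.Prime → p ∣ e → z < p) (N c0 x : ℕ) : ∃ c1 : ℕ,
      (sN N (Wp z p1) c0).filter (fun n => e ∣ n + x) = sN N (Wp z p1 * e) c1 := by
  obtain ⟨r, hr⟩ := uw6_res he x
  obtain ⟨c1, hc1⟩ := uw6_crt (uw6_cop (p1 := p1) hz h) c0 r
  refine ⟨c1, ?_⟩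
  ext n
  unfold sN
  rw [Finset.mem_filter, Finset.mem_filter, Finset.mem_filter, hr, ← hc1, and_assoc]

end Pool.Agent.LibFB63
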