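import Pool.Agent.LibFB63.UD
import Pool.Agent.LibFB63.UW5
import Pool.Agent.LibFB63.UW6
import Pool.Agent.LibGL22.B1
import Pool.Agent.LibGL22.V1

/-!
Row UW7 (quadratic form for the average over a class modulo `Wp * m`). Copy of the finished `LibGL22/QU.lean` (`quU`): `QFRpS Cq` with `k = R.n`, `K = R.K`, `k1 = R.k1`, `b0 = 2 R.u`, and `L` (uniformly for the finitely many `L ≤ R.q`: `Filter.eventually_all_finset` over `range (R.q + 1)`;
`L ≤ R.q` follows from `z^(2L + …) ≤ m z^(2L + …) ≤ z^q`, `2 ≤ z`, `1 ≤ m`), `J = univ`, `v = V1p`, `VE = VP E`, the average of `avgM_ex` (row UW6, `N = z^R.q`, `C = 2 R.n`, `T = z^(2 L + 2 (2 R.u) + 6)`), applied to `y/B`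
(`PhiS` is linear, `dgV` quadratic in `y`). Here `A.X = z^q/(Wp * m) = NW/m`. Remainder: `(log z)^(Cq (L+1)) T z ≤ z · z^(2L + 4u + 6) · z` and `Wp ≤ z`, `√z ≤ z`, so it is `≤ (NW/m)/√z` because `m z^(2L + 4u + 10) ≤ z^q`
(`(log z)^(Cq (R.q + 1)) ≤ z` for large `z`). Finally `2/√z ≤ R.e Cq Λ * VP E` for large `z` (`tinyL` of LibGL22/V1.lean with `N = 0`, `e = R.e Cq Λ/2 > 0`, for the cardinality `R.k` of `h` resp. `R.k + 1` of `insert j h`; `h` is contained in `E`).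
-/

open Finset Filter

namespace Pool.Agent.LibFB63

open Pool.Agent.LibRG87 Pool.Agent.LibLG5 Pool.Agent.LibPL63 Pool.Agent.LibSC93 Pool.Agent.LibGL22

variable {R : Prm} {C Cq Cm : ℕ} {c cD Λ δ : ℝ}

private theorem UW7_bS_inj {h K : Finset ℕ} (hd : Disjoint h K) :
    Function.Injective (bS h K) := by
  rintro (i | i) (j | j) hij
  · exact congrArg _ (Subtype.ext hij)
  · exfalso
    have h1 : (i : ℕ) = (j : ℕ) := hij
    exact Finset.disjoint_left.1 hd i.2 (by rw [h1]; exact j.2)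
  · exfalso
    have h1 : (i : ℕ) = (j : ℕ) := hij
    exact Finset.disjoint_left.1 hd j.2 (by rw [← h1]; exact i.2)
  · exact congrArg _ (Subtype.ext hij)

theorem e_pos (hp : ParG R C Cq Cm c cD Λ δ) : 0 < R.e Cq Λ := by
  obtain ⟨_, hk0, hu1, _, _, _, _, _, huk1, _, _, _⟩ := prm_le hp
  have hk1 : 0 < R.k1 := lt_of_lt_of_le hu1 huk1
  have hn : 0 < R.n := by
    unfold Prm.n
    omega
  have hC : 0 < Cq := hp.hCq
  have hC' : (0 : ℝ) < Cq := by exact_mod_cast hC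
  have hn' : (0 : ℝ) < R.n := by exact_mod_cast hn
  have hΛ : (0 : ℝ) < Λ := lt_of_lt_of_le one_pos hp.hΛ
  have h1 : 0 < eps0 Cq (2 * R.n) (2 * R.u) := by
    unfold eps0
    push_cast
    positivity
  have h2 : (0 : ℝ) < ((Cq * R.k1 : ℕ) : ℝ) := by
    exact_mod_cast Nat.mul_pos hC hk1
  have h3 : (0 : ℝ) < 1 + (R.k + 4 * Λ * R.q) := by positivity
  unfold Prm.e
  exact mul_pos (mul_pos h1 (pow_pos h2 _)) (pow_pos h3 _)

theorem quE (hq : QFRpS Cq) (hp : ParG R C Cq Cm c cD Λ δ) :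
    ∀ᶠ z : ℕ in atTop, ∀ p1 : ℕ, p1.Prime → ∀ (c0 : ℕ) (h K E : Finset ℕ),
      PosS z p1 c0 R.k (Λ * R.q) h K → (E = h ∨ ∃ j ∈ K, E = insert j h) →
      ∀ m : ℕ, 1 ≤ m → (∀ p : ℕ, p.Prime → p ∣ m → z < p) → ∀ P ⊆ PG R z p1, (∀ p ∈ P, ¬ p ∣ m) →
      ∀ L : ℕ, m * z ^ (2 * L + 4 * R.u + 10) ≤ z ^ R.q → ∀ (c1 : ℕ) (y : (P → Option (↥h ⊕ ↥K)) → ℝ) (B : ℝ), 0 < B →
        (∀ β, |y β| ≤ B) → (∀ β, y β ≠ 0 → rr (sp P β) ≤ (z : ℝ) ^ L ∧ (sui P β).card ≤ R.K) →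
      |∑ n ∈ sN (z ^ R.q) (Wp z p1 * m) c1, PhiS P (P0 z p1) (bS h K) y E n ^ 2 -
          NW R z p1 / m * dgV P (VP (P0 z p1)) (bS h K) E y| ≤
        NW R z p1 / m * (B ^ 2 * (2 * R.e Cq Λ * VP (P0 z p1) E)) := by
  obtain ⟨_, _, hu1, _, _, _, _, _, huk1, _, _, htq⟩ := prm_le hp
  have hk1 : 1 ≤ R.k1 := hu1.trans huk1
  have hn1 : 1 ≤ R.n := by
    unfold Prm.n
    omega
  have he0 : 0 < R.e Cq Λ := e_pos hp
  have hqf : ∀ᶠ z : ℕ in atTop, ∀ L ∈ Finset.range (R.q + 1),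
      ∀ (p1 : ℕ) (A : Average), SmallOK A (P0 z p1) z R.n → ∀ P ⊆ PL z R.k1 p1,
      ∀ (ι : Type) [Fintype ι] [DecidableEq ι] (b : ι → ℕ) (J : Finset ι) (E : Finset ℕ)
        (y : (P → Option ι) → ℝ) (v VE : ℝ),
        LocOK P A b J → Set.InjOn b (J : Set ι) →
        (Fintype.card ι : ℝ) ≤ Real.log z ^ 2 + 1 → E.card + 2 * R.K ≤ R.n → 0 ≤ v → 0 ≤ VE →
        (∀ B ⊆ J.image b, B.card ≤ 2 * R.K → VA A (P0 z p1) (E ∪ B) ≤ 4 * v ^ (B \ E).card * VE) →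
        (∀ β, |y β| ≤ 1) →
        (∀ β, y β ≠ 0 → rr (sp P β) ≤ (z : ℝ) ^ L ∧ alw P J β ∧ (sui P β).card ≤ R.K) →
        |∑ n ∈ A.s, A.om n * PhiS P (P0 z p1) b y E n ^ 2 -
            A.X * dgV P (VA A (P0 z p1)) b E y| ≤
          A.X * VE * (eps0 Cq (2 * R.n) (2 * R.u) * ((Cq * R.k1 : ℕ) : ℝ) ^ (Cq * (R.n + 1) ^ 2) *
              (1 + Fintype.card ι * v) ^ (2 * R.K)) + A.X / Real.sqrt z +
            Real.log z ^ (Cq * (L + 1)) *
              RemA A.Er (P0 z p1 ∪ PL z R.k1 p1) (2 * R.n) (z ^ (2 * L + 2 * (2 * R.u) + 6)) := by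
    rw [Filter.eventually_all_finset]
    intro L _
    exact hq R.n R.K R.k1 (2 * R.u) L hn1 hk1 (even_two_mul _) hp.eps1
  set N : ℕ := Cq * (R.q + 1) with hN
  have e3 : ∀ᶠ z : ℕ in atTop, Real.log (z : ℝ) ^ N ≤ z := by
    have h1 : ∀ᶠ x : ℝ in atTop, ‖Real.log x ^ N‖ ≤ 1 * ‖id x‖ :=
      (Real.isLittleO_pow_log_id_atTop (n := N)).bound (by norm_num)
    filter_upwards [tendsto_natCast_atTop_atTop.eventually h1, eventually_ge_atTop 1] with z h2 h3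
    have h4 : 0 ≤ Real.log (z : ℝ) := Real.log_nonneg (by exact_mod_cast h3)
    simp only [id, Real.norm_eq_abs] at h2
    rw [abs_of_nonneg (pow_nonneg h4 _), abs_of_nonneg (Nat.cast_nonneg z)] at h2
    linarith
  have he2 : 0 < R.e Cq Λ / 2 := by linarith
  filter_upwards [hqf, avgM_ex R.k1 (2 * R.n) hk1, VP_step R.n, baseG hp 1 one_pos, e3,
    tinyL R.k 0 _ he2, tinyL (R.k + 1) 0 _ he2,
    eventually_ge_atTop 4] with z h1 h2 h3 h4 h5 ht1 ht2 h6 p1 hp1 c0 h K E hpos hE m hm hmp P hP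
      hPm L hL c1 y B hB0 hyB hys
  obtain ⟨hz3, hl1, hlz, hwf, _⟩ := h4 p1
  have hz0 : (0 : ℝ) < z := by
    have : 0 < z := by omega
    exact_mod_cast this
  have hz1 : (1 : ℝ) ≤ z := by
    have : 1 ≤ z := by omega
    exact_mod_cast this
  have hl0 : (0 : ℝ) < Real.log z := by linarith
  have hm0 : (0 : ℝ) < m := by exact_mod_cast hm
  have hLq : 2 * L + 4 * R.u + 10 ≤ R.q := by
    have h7 : z ^ (2 * L + 4 * R.u + 10) ≤ z ^ R.q :=
      le_trans (Nat.le_mul_of_pos_left _ hm) hL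
    exact (Nat.pow_le_pow_iff_right (by omega)).1 h7
  obtain ⟨hh, hd, hpos', _⟩ := id hpos
  obtain ⟨A, hAs, hAom, hAX, hVA, hsm, hloc, hrem0⟩ := h2 p1 hp1 (z ^ R.q) c1
    (z ^ (2 * L + 2 * (2 * R.u) + 6)) m hm hmp P hP hPm
  have hX : A.X = NW R z p1 / m := by
    rw [hAX]
    unfold NW
    push_cast
    rw [div_div]
  have hP0 : ∀ p ∈ P0 z p1, p.Prime := fun p hp => (mem_P0.1 hp).2.1
  have hbmem : ∀ i, bS h K i ∈ h ∪ K := by
    rintro (i | i)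
    · exact Finset.mem_union_left _ i.2
    · exact Finset.mem_union_right _ i.2
  have hinj := UW7_bS_inj hd
  have hEsub : E ⊆ h ∪ K := by
    rcases hE with rfl | ⟨j, hj, rfl⟩
    · exact Finset.subset_union_left
    · exact Finset.insert_subset (Finset.mem_union_right _ hj) Finset.subset_union_left
  have hEc : E.card ≤ R.k + 1 := by
    rcases hE with rfl | ⟨j, hj, rfl⟩
    · omega
    · exact (Finset.card_insert_le _ _).trans (by omega)
  have hEk : E.card + 2 * R.K ≤ R.n := by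
    unfold Prm.n
    omega
  have htiny : 1 / Real.sqrt z ≤ R.e Cq Λ / 2 * VP (P0 z p1) E := by
    rcases hE with rfl | ⟨j, hj, rfl⟩
    · have h7 := (ht1 p1 hp1 E hh).2
      rwa [pow_zero] at h7
    · have hjh : j ∉ h := fun h8 => Finset.disjoint_left.1 hd h8 hj
      have h7 := (ht2 p1 hp1 (insert j h) (by rw [Finset.card_insert_of_notMem hjh, hh])).2
      rwa [pow_zero] at h7
  obtain ⟨hc1, hc2⟩ := card_pos hp hpos
  have hV0 : 0 ≤ V1p (P0 z p1) := (V1p_pos _ hP0).le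
  have hVE0 : 0 ≤ VP (P0 z p1) E := VP_nonneg _ hP0 E
  have hmain := h1 L (Finset.mem_range.2 (by omega)) p1 A (hsm R.n hwf) P hP (↥h ⊕ ↥K) (bS h K)
    univ E (fun β => y β / B) (V1p (P0 z p1)) (VP (P0 z p1) E)
    (hloc (↥h ⊕ ↥K) (bS h K) univ
      (fun i _ => by
        have h7 := (hpos' _ (hbmem i)).1
        have h8 : (bS h K i : ℝ) ≤ z := by linarith
        exact_mod_cast h8)
      (fun i _ j _ hij hval => hij (hinj hval)))
    hinj.injOn hc1 hEk hV0 hVE0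
    (fun B hBs hBc => by
      rw [hVA]
      refine h3 p1 hp1 E B (fun y hy => ?_) ?_
      · rcases Finset.mem_union.1 hy with hy | hy
        · exact (hpos' y (hEsub hy)).1
        · obtain ⟨i, _, rfl⟩ := Finset.mem_image.1 (hBs hy)
          exact (hpos' _ (hbmem i)).1
      · exact (Finset.card_union_le _ _).trans (by omega))
    (fun β => by
      rw [abs_div, abs_of_pos hB0, div_le_one hB0]
      exact hyB β)
    (fun β hβ => by
      have h7 : y β ≠ 0 := fun h8 => hβ (by rw [h8, zero_div])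
      exact ⟨(hys β h7).1, fun _ _ _ => Finset.mem_univ _, (hys β h7).2⟩)
  have hWpos : (0 : ℝ) < Wp z p1 := by exact_mod_cast Wp_pos z p1
  -- the remainder
  have hWz : (Wp z p1 : ℝ) ≤ z := by
    exact_mod_cast Wp_le_self h6 p1
  have hsq : Real.sqrt z ≤ z := by
    rw [Real.sqrt_le_left hz0.le]
    nlinarith
  have hsq0 : 0 < Real.sqrt z := Real.sqrt_pos.2 hz0
  have hlogN : Real.log (z : ℝ) ^ (Cq * (L + 1)) ≤ z :=
    le_trans (pow_le_pow_right₀ hl1 (by rw [hN]; exact Nat.mul_le_mul_left _ (by omega))) h5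
  have hNWm : 0 ≤ NW R z p1 / m := by
    unfold NW
    positivity
  have hrem : Real.log z ^ (Cq * (L + 1)) * RemA A.Er (P0 z p1 ∪ PL z R.k1 p1)
      (2 * R.n) (z ^ (2 * L + 2 * (2 * R.u) + 6)) ≤ NW R z p1 / m / Real.sqrt z := by
    have h12 : Real.log z ^ (Cq * (L + 1)) * RemA A.Er (P0 z p1 ∪ PL z R.k1 p1)
        (2 * R.n) (z ^ (2 * L + 2 * (2 * R.u) + 6)) ≤
        z * ((z : ℝ) ^ (2 * L + 2 * (2 * R.u) + 6) * z) := by
      refine (mul_le_mul_of_nonneg_left hrem0 (by positivity)).trans ?_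
      push_cast
      exact mul_le_mul_of_nonneg_right hlogN (by positivity)
    refine h12.trans ?_
    unfold NW
    rw [div_div, div_div, le_div_iff₀ (by positivity)]
    have h14 : (Wp z p1 : ℝ) * Real.sqrt z ≤ z * z :=
      mul_le_mul hWz hsq hsq0.le hz0.le
    have hL' : (m : ℝ) * (z : ℝ) ^ (2 * L + 4 * R.u + 10) ≤ (z : ℝ) ^ R.q := by exact_mod_cast hL
    calc z * ((z : ℝ) ^ (2 * L + 2 * (2 * R.u) + 6) * z) * (Wp z p1 * (m * Real.sqrt z))
        = z * ((z : ℝ) ^ (2 * L + 2 * (2 * R.u) + 6) * z) * m * (Wp z p1 * Real.sqrt z) := by ring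
      _ ≤ z * ((z : ℝ) ^ (2 * L + 2 * (2 * R.u) + 6) * z) * m * (z * z) :=
          mul_le_mul_of_nonneg_left h14 (by positivity)
      _ = m * (z : ℝ) ^ (2 * L + 4 * R.u + 10) := by
          have h15 : 2 * L + 4 * R.u + 10 = 2 * L + 2 * (2 * R.u) + 6 + 4 := by omega
          rw [h15]
          ring
      _ ≤ (z : ℝ) ^ R.q := hL'
  -- the main error
  have hcv : (1 + (Fintype.card (↥h ⊕ ↥K) : ℝ) * V1p (P0 z p1)) ^ (2 * R.K) ≤
      (1 + (R.k + 4 * Λ * R.q)) ^ (2 * R.K) := by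
    refine pow_le_pow_left₀ (by positivity) ?_ _
    have : (4 : ℝ) * Λ * R.q = 4 * (Λ * R.q) := by ring
    rw [this]
    linarith
  have heps0 : 0 ≤ eps0 Cq (2 * R.n) (2 * R.u) := by
    unfold eps0
    positivity
  have herr : eps0 Cq (2 * R.n) (2 * R.u) *
      ((Cq * R.k1 : ℕ) : ℝ) ^ (Cq * (R.n + 1) ^ 2) *
        (1 + (Fintype.card (↥h ⊕ ↥K) : ℝ) * V1p (P0 z p1)) ^ (2 * R.K) ≤
      R.e Cq Λ := by
    unfold Prm.e
    exact mul_le_mul_of_nonneg_left hcv (by positivity)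
  have hdg : dgV P (VA A (P0 z p1)) (bS h K) E (fun β => y β / B) =
      dgV P (VP (P0 z p1)) (bS h K) E y / B ^ 2 := by
    unfold dgV
    rw [Finset.sum_div]
    refine Finset.sum_congr rfl fun β _ => ?_
    rw [hVA]
    ring
  have hphi : ∀ n, PhiS P (P0 z p1) (bS h K) (fun β => y β / B) E n =
      PhiS P (P0 z p1) (bS h K) y E n / B := by
    intro n
    unfold PhiS
    rw [Finset.sum_div]
    refine Finset.sum_congr rfl fun β _ => ?_
    ring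
  have hsum : ∑ n ∈ sN (z ^ R.q) (Wp z p1 * m) c1, A.om n *
      PhiS P (P0 z p1) (bS h K) (fun β => y β / B) E n ^ 2 =
      (∑ n ∈ sN (z ^ R.q) (Wp z p1 * m) c1, PhiS P (P0 z p1) (bS h K) y E n ^ 2) / B ^ 2 := by
    rw [Finset.sum_div]
    refine Finset.sum_congr rfl fun n _ => ?_
    rw [hAom, one_mul, hphi, div_pow]
  rw [hdg, hX, hAs, hsum] at hmain
  have hB2 : 0 < B ^ 2 := by positivity
  have h30 : (∑ n ∈ sN (z ^ R.q) (Wp z p1 * m) c1, PhiS P (P0 z p1) (bS h K) y E n ^ 2) / B ^ 2 -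
      NW R z p1 / m * (dgV P (VP (P0 z p1)) (bS h K) E y / B ^ 2) =
      (∑ n ∈ sN (z ^ R.q) (Wp z p1 * m) c1, PhiS P (P0 z p1) (bS h K) y E n ^ 2 -
        NW R z p1 / m * dgV P (VP (P0 z p1)) (bS h K) E y) / B ^ 2 := by
    rw [sub_div, mul_div_assoc]
  rw [h30, abs_div, abs_of_pos hB2, div_le_iff₀ hB2] at hmain
  refine hmain.trans ?_
  have h20 := mul_le_mul_of_nonneg_left herr (mul_nonneg hNWm hVE0)
  have h22 : NW R z p1 / m / Real.sqrt z ≤ NW R z p1 / m * (R.e Cq Λ / 2 * VP (P0 z p1) E) := by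
    have h23 := mul_le_mul_of_nonneg_left htiny hNWm
    rwa [mul_one_div] at h23
  have h24 : NW R z p1 / m * (B ^ 2 * (2 * R.e Cq Λ * VP (P0 z p1) E)) =
      (NW R z p1 / m * VP (P0 z p1) E * R.e Cq Λ +
        NW R z p1 / m * (R.e Cq Λ / 2 * VP (P0 z p1) E) +
        NW R z p1 / m * (R.e Cq Λ / 2 * VP (P0 z p1) E)) * B ^ 2 := by ring
  rw [h24]
  refine mul_le_mul_of_nonneg_right ?_ hB2.le
  linarith [hrem, h20, h22]

end Pool.Agent.LibFB63
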