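import Pool.Agent.LibFB63.V1

/-!
Row V3 (MEDIUM): expansion over the prime factors of `v`. Every `A ⊆ Q` is `S ∪ T`, `S = A.filter (· ∣ v)`, `T = A.filter (¬ · ∣ v)` (bijection with pairs of subsets of `Q.filter (· ∣ v)`, `Q.filter (¬ · ∣ v)`; e.g. `Finset.sum_bij'`
or `Finset.sum_product'`, `Finset.powerset` of a disjoint union); `∏_{p ∈ A} psi p v = (-1)^|S| / ph T`, `rr A = rr S rr T`.
`Lc_abs_le`: every inner sum is between `0` and `Gn Q z j` (`rr T ≤ rr S rr T`, subsets of `Q`), so `Gn |Lc| ≤ 2^|Q.filter| Gn`.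
-/

open Finset Filter

namespace Pool.Agent.LibFB63

open Pool.Agent.LibRG87 Pool.Agent.LibLG5 Pool.Agent.LibPL63 Pool.Agent.LibSC93 Pool.Agent.LibGL22

private theorem v3_ph_pos {A : Finset ℕ} (hA : ∀ p ∈ A, Nat.Prime p) : 0 < ph A := by
  unfold ph
  refine Finset.prod_pos fun p hp => ?_
  have h1 : 2 ≤ p := (hA p hp).two_le
  have h2 : (2 : ℝ) ≤ p := by exact_mod_cast h1
  linarith

private theorem v3_Gn_pos (Q : Finset ℕ) (hQ : ∀ p ∈ Q, Nat.Prime p) {z : ℕ} (hz : 1 ≤ z) (j : ℕ) :
    0 < Gn Q z j := lt_of_lt_of_le one_pos (one_le_GnQ Q hQ hz j)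

open scoped Classical in
private theorem v3_split (Q : Finset ℕ) (v : ℕ) (F : Finset ℕ → ℝ) :
    ∑ A ∈ Q.powerset, F A = ∑ S ∈ (Q.filter fun p => p ∣ v).powerset,
      ∑ T ∈ (Q.filter fun p => ¬ p ∣ v).powerset, F (S ∪ T) := by
  rw [← Finset.sum_product']
  symm
  refine Finset.sum_nbij' (i := fun z : Finset ℕ × Finset ℕ => z.1 ∪ z.2)
    (j := fun A : Finset ℕ => (A.filter fun p => p ∣ v, A.filter fun p => ¬ p ∣ v)) ?_ ?_ ?_ ?_ ?_
  · rintro ⟨S, T⟩ hz
    rw [Finset.mem_product, Finset.mem_powerset, Finset.mem_powerset] at hz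
    rw [Finset.mem_powerset]
    exact Finset.union_subset (hz.1.trans (Finset.filter_subset _ _)) (hz.2.trans (Finset.filter_subset _ _))
  · intro A hA
    rw [Finset.mem_powerset] at hA
    rw [Finset.mem_product, Finset.mem_powerset, Finset.mem_powerset]
    exact ⟨Finset.filter_subset_filter _ hA, Finset.filter_subset_filter _ hA⟩
  · rintro ⟨S, T⟩ hz
    rw [Finset.mem_product, Finset.mem_powerset, Finset.mem_powerset] at hz
    obtain ⟨hS, hT⟩ := hz
    have hS' : ∀ p ∈ S, p ∣ v := fun p hp => (Finset.mem_filter.1 (hS hp)).2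
    have hT' : ∀ p ∈ T, ¬ p ∣ v := fun p hp => (Finset.mem_filter.1 (hT hp)).2
    refine Prod.ext ?_ ?_
    · ext p
      simp only [Finset.mem_filter, Finset.mem_union]
      constructor
      · rintro ⟨h | h, hp⟩
        · exact h
        · exact absurd hp (hT' p h)
      · intro h
        exact ⟨Or.inl h, hS' p h⟩
    · ext p
      simp only [Finset.mem_filter, Finset.mem_union]
      constructor
      · rintro ⟨h | h, hp⟩
        · exact absurd (hS' p h) hp
        · exact h
      · intro h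
        exact ⟨Or.inr h, hT' p h⟩
  · intro A _
    exact Finset.filter_union_filter_not_eq _ A
  · rintro ⟨S, T⟩ _
    rfl

private theorem v3_disj {Q S T : Finset ℕ} {v : ℕ} (hS : S ⊆ Q.filter fun p => p ∣ v)
    (hT : T ⊆ Q.filter fun p => ¬ p ∣ v) : Disjoint S T := by
  rw [Finset.disjoint_left]
  intro p h1 h2
  exact (Finset.mem_filter.1 (hT h2)).2 (Finset.mem_filter.1 (hS h1)).2

theorem Lc_expand (Q : Finset ℕ) (hQ : ∀ p ∈ Q, Nat.Prime p) {z : ℕ} (hz : 1 ≤ z) (j v : ℕ) :
    Gn Q z j * Lc Q (cSe Q z j) v = ∑ S ∈ (Q.filter fun p => p ∣ v).powerset, (-1 : ℝ) ^ S.card *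
      ∑ T ∈ (Q.filter fun p => ¬ p ∣ v).powerset, if rr S * rr T ≤ (z : ℝ) ^ j then 1 / ph T else 0 := by
  classical
  have hG := v3_Gn_pos Q hQ hz j
  unfold Lc
  rw [Finset.mul_sum, v3_split Q v]
  refine Finset.sum_congr rfl fun S hS => ?_
  rw [Finset.mul_sum]
  refine Finset.sum_congr rfl fun T hT => ?_
  rw [Finset.mem_powerset] at hS hT
  have hd := v3_disj hS hT
  have h1 : ∏ p ∈ S ∪ T, psi p v = (-1 : ℝ) ^ S.card * (1 / ph T) := by
    rw [Finset.prod_union hd]
    congr 1
    · rw [← Finset.prod_const]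
      refine Finset.prod_congr rfl fun p hp => ?_
      unfold psi
      rw [if_pos (Finset.mem_filter.1 (hS hp)).2]
    · unfold ph
      rw [one_div, ← Finset.prod_inv_distrib]
      refine Finset.prod_congr rfl fun p hp => ?_
      unfold psi
      rw [if_neg (Finset.mem_filter.1 (hT hp)).2, one_div]
  have h2 : rr (S ∪ T) = rr S * rr T := by
    unfold rr
    rw [Finset.prod_union hd]
  rw [h1]
  unfold cSe
  rw [h2]
  by_cases h3 : rr S * rr T ≤ (z : ℝ) ^ j
  · rw [if_pos h3, if_pos h3]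
    field_simp
  · rw [if_neg h3, if_neg h3]
    simp

theorem Lc_abs_le (Q : Finset ℕ) (hQ : ∀ p ∈ Q, Nat.Prime p) {z : ℕ} (hz : 1 ≤ z) (j v : ℕ) :
    |Lc Q (cSe Q z j) v| ≤ 2 ^ (Q.filter fun p => p ∣ v).card := by
  classical
  have hG := v3_Gn_pos Q hQ hz j
  have h1 := Lc_expand Q hQ hz j v
  have h2 : |Gn Q z j * Lc Q (cSe Q z j) v| ≤ 2 ^ (Q.filter fun p => p ∣ v).card * Gn Q z j := by
    rw [h1]
    refine (Finset.abs_sum_le_sum_abs _ _).trans ?_
    have h3 : ∀ S ∈ (Q.filter fun p => p ∣ v).powerset, |(-1 : ℝ) ^ S.card *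
        ∑ T ∈ (Q.filter fun p => ¬ p ∣ v).powerset,
          if rr S * rr T ≤ (z : ℝ) ^ j then 1 / ph T else 0| ≤ Gn Q z j := by
      intro S hS
      rw [Finset.mem_powerset] at hS
      have hnn : ∀ T ∈ (Q.filter fun p => ¬ p ∣ v).powerset,
          0 ≤ (if rr S * rr T ≤ (z : ℝ) ^ j then 1 / ph T else 0) := by
        intro T hT
        rw [Finset.mem_powerset] at hT
        split_ifs
        · exact one_div_nonneg.2 (v3_ph_pos fun p hp => hQ p (Finset.mem_filter.1 (hT hp)).1).le
        · exact le_rfl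
      rw [abs_mul, abs_pow, abs_neg, abs_one, one_pow, one_mul, abs_of_nonneg (Finset.sum_nonneg hnn)]
      have hrS : 1 ≤ rr S := by
        have h5 : ∏ _p ∈ S, (1 : ℝ) ≤ ∏ p ∈ S, (p : ℝ) := by
          refine Finset.prod_le_prod (fun p _ => zero_le_one) ?_
          intro p hp
          have := (hQ p (Finset.mem_filter.1 (hS hp)).1).one_lt.le
          exact_mod_cast this
        rw [Finset.prod_const_one] at h5
        exact h5
      have hrT : ∀ T ⊆ Q, 0 ≤ rr T := by
        intro T _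
        unfold rr
        exact Finset.prod_nonneg fun p _ => Nat.cast_nonneg p
      unfold Gn
      rw [Finset.sum_filter]
      refine (Finset.sum_le_sum (g := fun T => if rr T ≤ (z : ℝ) ^ j then 1 / ph T else 0) ?_).trans
        (Finset.sum_le_sum_of_subset_of_nonneg ?_ ?_)
      · intro T hT
        rw [Finset.mem_powerset] at hT
        have hTQ : T ⊆ Q := hT.trans (Finset.filter_subset _ _)
        have hph := v3_ph_pos fun p hp => hQ p (hTQ hp)
        by_cases h6 : rr S * rr T ≤ (z : ℝ) ^ j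
        · have h7 : rr T ≤ (z : ℝ) ^ j := by
            refine le_trans ?_ h6
            have := mul_le_mul_of_nonneg_right hrS (hrT T hTQ)
            rwa [one_mul] at this
          rw [if_pos h6]
          show _ ≤ if rr T ≤ (z : ℝ) ^ j then 1 / ph T else 0
          rw [if_pos h7]
        · rw [if_neg h6]
          show _ ≤ if rr T ≤ (z : ℝ) ^ j then 1 / ph T else 0
          split_ifs
          · exact one_div_nonneg.2 hph.le
          · exact le_rfl
      · exact Finset.powerset_mono.2 (Finset.filter_subset _ _)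
      · intro T hT _
        rw [Finset.mem_powerset] at hT
        show 0 ≤ if rr T ≤ (z : ℝ) ^ j then 1 / ph T else 0
        split_ifs
        · exact one_div_nonneg.2 (v3_ph_pos fun p hp => hQ p (hT hp)).le
        · exact le_rfl
    refine (Finset.sum_le_sum h3).trans ?_
    rw [Finset.sum_const, Finset.card_powerset, nsmul_eq_mul]
    push_cast
    exact le_rfl
  rw [abs_mul, abs_of_pos hG, mul_comm] at h2
  exact le_of_mul_le_mul_right h2 hG

end Pool.Agent.LibFB63
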